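import Pool.Agent.Lib.MP_446dfa_ag.unc.GQK

set_option linter.all false

/-!
# Module BCQ: base change
-/

noncomputable section

namespace MP446U

open MP446 MP446Y MP446Z MP446S MP446I

open GQKM in
/-- base change -/
theorem BCQM.bc {R R' : Type} [CommRing R] [CommRing R'] (θ : R →+* R') {n : ℕ} {Q : AA R}
    (h : IsGQ n Q) : IsGQ n (bcP θ Q) := by
  have key : ∀ (E : Type) [Ring E] [Algebra R' E], ∃ _ : Algebra R E, ∀ a b : E,
      EV a b (bcP θ Q) = EV a b Q := by
    intro E _ _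
    let A : Algebra R E := Algebra.compHom E θ
    exact ⟨A, fun a b => EV_mm θ (fun c x => rfl) a b Q⟩
  refine ⟨?_, ?_, ?_, ?_, ?_, ?_, ?_⟩
  · intro w hw
    change θ (cf Q w) = 0
    rw [h.hom w hw, map_zero]
  · intro E _ _ a b hab
    obtain ⟨A, hA⟩ := key E
    rw [hA]
    exact h.zero E a b hab
  · intro E _ _ a b a' b' hab
    obtain ⟨A, hA⟩ := key E
    rw [hA, hA, hA]
    exact h.prim E a b a' b' hab
  · intro E _ _ a b
    obtain ⟨A, hA⟩ := key E
    rw [hA, hA]
    exact h.anti E a b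
  · intro E _ _ a b c hc
    obtain ⟨A, hA⟩ := key E
    rw [hA, hA, hA]
    exact h.cycle E a b c hc
  · intro E _ _ a b c hc
    obtain ⟨A, hA⟩ := key E
    rw [hA, hA]
    exact h.hex E a b c hc
  · intro E _ _ t ht
    obtain ⟨A, hA⟩ := key E
    unfold PLt
    rw [hA, hA, hA, hA, hA]
    exact h.pent E t ht

/-- **BCQ** -/
theorem specBCQ : SpecBCQ := fun R R' _ _ θ n Q h => BCQM.bc θ h

end MP446U
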