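import Mathlib

set_option linter.all false

/-!
# The relations of the pure braid group from an associator: the abstract computation
(proof of helper36)
-/

namespace MP446U.BRDM

/-- the abstract data -/
structure BS (A G : Type*) [AddCommGroup A] [Module ℚ A] [Group G] where
  C : A → A → Prop
  symm : ∀ {x y}, C x y → C y x
  add : ∀ {x y z}, C x y → C x z → C x (y + z)
  smul : ∀ (r : ℚ) {x y}, C x y → C x (r • y)
  self : ∀ x, C x x
  e : A → G
  f : A → A → G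
  ee : ∀ {x y}, C x y → e (x + y) = e x * e y
  fe : ∀ {x y z}, C x z → C y z → Commute (f x y) (e z)
  f2 : ∀ x y, f x y * f y x = 1
  sh : ∀ {x y z}, C z x → C z y → f (x + z) y = f x y
  hexp : ∀ {x y z}, x + y + z = 0 → e ((1 / 2 : ℚ) • x) * f z x * e ((1 / 2 : ℚ) • z) * f y z *
    e ((1 / 2 : ℚ) • y) * f x y = 1
  hexm : ∀ {x y z}, x + y + z = 0 → e ((-1 / 2 : ℚ) • x) * f z x * e ((-1 / 2 : ℚ) • z) * f y z *
    e ((-1 / 2 : ℚ) • y) * f x y = 1

variable {A G : Type*} [AddCommGroup A] [Module ℚ A] [Group G] (S : BS A G)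

namespace BS

lemma cg {x y y' : A} (h : S.C x y) (e : y = y') : S.C x y' := e ▸ h

lemma neg {x y : A} (h : S.C x y) : S.C x (-y) := by
  have := S.smul (-1) h
  rwa [neg_one_smul] at this

lemma sub {x y z : A} (h : S.C x y) (h' : S.C x z) : S.C x (y - z) := by
  rw [sub_eq_add_neg]
  exact S.add h (S.neg h')

lemma half {x y : A} (h : S.C x y) : S.C x ((1 / 2 : ℚ) • y) := S.smul _ h

lemma ecomm {x y : A} (h : S.C x y) : Commute (S.e x) (S.e y) := by
  show S.e x * S.e y = S.e y * S.e x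
  rw [← S.ee h, ← S.ee (S.symm h), add_comm]

lemma e0 : S.e 0 = 1 := by
  have h := S.ee (S.self 0)
  rw [add_zero] at h
  exact mul_left_cancel (a := S.e 0) (by rw [← h, mul_one])

lemma eneg (x : A) : S.e (-x) = (S.e x)⁻¹ := by
  rw [eq_inv_iff_mul_eq_one, ← S.ee (S.symm (S.neg (S.self x))), neg_add_cancel, S.e0]

lemma esub {x y : A} (h : S.C x y) : S.e (x - y) = S.e x * (S.e y)⁻¹ := by
  rw [sub_eq_add_neg, S.ee (S.neg h), S.eneg]

lemma ehalf (x : A) : S.e ((1 / 2 : ℚ) • x) * S.e ((1 / 2 : ℚ) • x) = S.e x := by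
  rw [← S.ee (S.self _), ← add_smul]
  norm_num

lemma finv (x y : A) : (S.f x y)⁻¹ = S.f y x := by
  rw [inv_eq_iff_mul_eq_one, S.f2]

lemma emhalf (x : A) : S.e ((-1 / 2 : ℚ) • x) = (S.e ((1 / 2 : ℚ) • x))⁻¹ := by
  rw [← S.eneg, ← neg_smul]
  norm_num

lemma sh' {x y z : A} (h : S.C z x) (h' : S.C z y) : S.f x (y + z) = S.f x y := by
  rw [← S.finv, ← S.finv y x, S.sh h' h]

/-- consequences of the hexagons -/
lemma hx1 (a b : A) : (S.e ((1 / 2 : ℚ) • a))⁻¹ * S.f b a =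
    S.f (-a - b) a * S.e ((1 / 2 : ℚ) • (-a - b)) * S.f b (-a - b) * S.e ((1 / 2 : ℚ) • b) := by
  have h1 := S.hexp (x := a) (y := b) (z := -a - b) (by abel)
  rw [← S.finv a b]
  generalize S.e ((1 / 2 : ℚ) • a) = A1 at *
  generalize S.e ((1 / 2 : ℚ) • b) = B1 at *
  generalize S.e ((1 / 2 : ℚ) • (-a - b)) = C1 at *
  generalize S.f a b = X at *
  generalize S.f b (-a - b) = Y at *
  generalize S.f (-a - b) a = W at *
  calc A1⁻¹ * X⁻¹ = A1⁻¹ * (A1 * W * C1 * Y * B1 * X) * X⁻¹ := by rw [h1, mul_one]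
    _ = _ := by group

lemma hx2 (a b : A) : S.f a b * (S.e ((1 / 2 : ℚ) • a))⁻¹ =
    S.e ((1 / 2 : ℚ) • b) * S.f (-a - b) b * S.e ((1 / 2 : ℚ) • (-a - b)) * S.f a (-a - b) := by
  have h2 := S.hexm (x := a) (y := b) (z := -a - b) (by abel)
  rw [S.emhalf, S.emhalf, S.emhalf] at h2
  rw [← S.finv b (-a - b), ← S.finv (-a - b) a]
  generalize S.e ((1 / 2 : ℚ) • a) = A1 at *
  generalize S.e ((1 / 2 : ℚ) • b) = B1 at *
  generalize S.e ((1 / 2 : ℚ) • (-a - b)) = C1 at *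
  generalize S.f a b = X at *
  generalize S.f b (-a - b) = Y at *
  generalize S.f (-a - b) a = W at *
  calc X * A1⁻¹ = X * (A1⁻¹ * W * C1⁻¹ * Y * B1⁻¹ * X) * X⁻¹ * (B1 * Y⁻¹ * C1 * W⁻¹) := by group
    _ = _ := by rw [h2]; group

lemma H2 {a b d : A} (z : A) (hd : d = -a - b + z) (ha : S.C z a) (hb : S.C z b) :
    S.f a b * (S.e a)⁻¹ * S.f b a =
      S.e ((1 / 2 : ℚ) • b) * S.f d b * (S.e d * (S.e z)⁻¹) * S.f b d * S.e ((1 / 2 : ℚ) • b) := by
  have hc : S.C z (-a - b) := S.sub (S.neg ha) hb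
  have e1 : S.f d b = S.f (-a - b) b := by rw [hd, S.sh hc hb]
  have e2 : S.f b d = S.f b (-a - b) := by rw [hd, S.sh' hb hc]
  have e3 : S.e d * (S.e z)⁻¹ = S.e ((1 / 2 : ℚ) • (-a - b)) * S.e ((1 / 2 : ℚ) • (-a - b)) := by
    rw [S.ehalf, hd, S.ee (S.symm hc), mul_inv_cancel_right]
  rw [e1, e2, e3]
  have h1 := S.hx1 a b
  have h2 := S.hx2 a b
  have h3 : (S.e a)⁻¹ = (S.e ((1 / 2 : ℚ) • a))⁻¹ * (S.e ((1 / 2 : ℚ) • a))⁻¹ := by
    rw [← mul_inv_rev, S.ehalf]
  rw [h3, ← mul_assoc, mul_assoc (S.f a b * _), h1, h2, ← S.finv a (-a - b)]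
  group

lemma H3 {a b d : A} (z : A) (hd : d = -a - b + z) (ha : S.C z a) (hb : S.C z b) :
    S.f a d * (S.e ((1 / 2 : ℚ) • a))⁻¹ * S.f b a =
      S.e ((1 / 2 : ℚ) • (-a - b)) * S.f b d * S.e ((1 / 2 : ℚ) • b) := by
  have hc : S.C z (-a - b) := S.sub (S.neg ha) hb
  have e1 : S.f a d = S.f a (-a - b) := by rw [hd, S.sh' ha hc]
  have e2 : S.f b d = S.f b (-a - b) := by rw [hd, S.sh' hb hc]
  rw [e1, e2, mul_assoc, S.hx1 a b, ← S.finv (-a - b) a]
  group

lemma H4 {a b d : A} (z : A) (hd : d = -a - b + z) (ha : S.C z a) (hb : S.C z b) :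
    S.f a d * S.e ((1 / 2 : ℚ) • a) * S.f b a * S.e ((1 / 2 : ℚ) • b) * S.f d b =
      (S.e ((1 / 2 : ℚ) • (-a - b)))⁻¹ := by
  have hc : S.C z (-a - b) := S.sub (S.neg ha) hb
  have e1 : S.f a d = S.f a (-a - b) := by rw [hd, S.sh' ha hc]
  have e2 : S.f d b = S.f (-a - b) b := by rw [hd, S.sh hc hb]
  have h2 := S.hx2 a b
  have h3 : S.e ((1 / 2 : ℚ) • a) * S.f b a = (S.f a b * (S.e ((1 / 2 : ℚ) • a))⁻¹)⁻¹ := by
    rw [mul_inv_rev, inv_inv, S.finv]
  rw [e1, e2, mul_assoc (S.f a (-a - b)), h3, h2]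
  group

end BS

/-- a family of infinitesimal braids: `a, b, c, d, u, v` are `t₀₁, t₀₂, t₀₃, t₁₂, t₁₃, t₂₃` -/
structure Fam (a b c d u v : A) : Prop where
  av : S.C a v
  bu : S.C b u
  cd : S.C c d
  a_bd : S.C a (b + d)
  b_ad : S.C b (a + d)
  d_ab : S.C d (a + b)
  a_cu : S.C a (c + u)
  c_au : S.C c (a + u)
  u_ac : S.C u (a + c)
  b_cv : S.C b (c + v)
  c_bv : S.C c (b + v)
  v_bc : S.C v (b + c)
  d_uv : S.C d (u + v)
  u_dv : S.C u (d + v)
  v_du : S.C v (d + u)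
  p0123 : S.f a (d + u) * S.f (b + d) v = S.f d v * S.f (a + b) (u + v) * S.f a d
  p0132 : S.f a (u + d) * S.f (c + u) v = S.f u v * S.f (a + c) (d + v) * S.f a u
  p1023 : S.f a (b + c) * S.f (d + b) v = S.f b v * S.f (a + d) (c + v) * S.f a b
  p0231 : S.f b (v + d) * S.f (c + v) u = S.f v u * S.f (b + c) (d + u) * S.f b v

section Gr

variable {G : Type*} [Group G]

/-- conjugation -/
def cj (g x : G) : G := g * x * g⁻¹

lemma cj_mul (g x y : G) : cj g (x * y) = cj g x * cj g y := by unfold cj; group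
lemma cj_inv (g x : G) : cj g x⁻¹ = (cj g x)⁻¹ := by unfold cj; group
lemma cj_cj (g h x : G) : cj g (cj h x) = cj (g * h) x := by unfold cj; group
lemma cj_of {g x : G} (h : Commute g x) : cj g x = x := by
  unfold cj
  rw [h.eq, mul_inv_cancel_right]
lemma cj_comm {g x y : G} : Commute (cj g x) (cj g y) ↔ Commute x y := by
  constructor
  · intro h
    have h' := h.eq
    rw [← cj_mul, ← cj_mul] at h'
    unfold cj at h'
    exact mul_left_cancel (mul_right_cancel h')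
  · intro h
    show cj g x * cj g y = cj g y * cj g x
    rw [← cj_mul, ← cj_mul, h.eq]
lemma cj_mul_of {g h x : G} (hx : Commute h x) : cj (g * h) x = cj g x := by
  rw [← cj_cj, cj_of hx]

end Gr

namespace Fam

variable {S} {a b c d u v : A} (F : Fam S a b c d u v)

include F

lemma T_a : S.C a (a + b + c + d + u + v) :=
  S.cg (S.add (S.add (S.add (S.self a) F.a_bd) F.a_cu) F.av) (by abel)

lemma T_b : S.C b (a + b + c + d + u + v) :=
  S.cg (S.add (S.add (S.add (S.self b) F.b_ad) F.b_cv) F.bu) (by abel)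

lemma T_c : S.C c (a + b + c + d + u + v) :=
  S.cg (S.add (S.add (S.add (S.self c) F.c_au) F.c_bv) F.cd) (by abel)

lemma T_d : S.C d (a + b + c + d + u + v) :=
  S.cg (S.add (S.add (S.add (S.self d) F.d_ab) F.d_uv) (S.symm F.cd)) (by abel)

lemma T_u : S.C u (a + b + c + d + u + v) :=
  S.cg (S.add (S.add (S.add (S.self u) F.u_ac) F.u_dv) (S.symm F.bu)) (by abel)

lemma T_v : S.C v (a + b + c + d + u + v) :=
  S.cg (S.add (S.add (S.add (S.self v) F.v_bc) F.v_du) (S.symm F.av)) (by abel)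

end Fam

section Xs

variable (a b c d u v : A)

def yy : G := S.f a (d + u) * S.f (b + d) v
def x23 : G := S.e v
def x12 : G := cj (S.f d v) (S.e d)
def x01 : G := cj (S.f a (d + u)) (S.e a)
def x13 : G := (x12 S d v)⁻¹ * S.e (d + u)
def x02 : G := cj (yy S a b d u v) (S.e (b + d)) * (x12 S d v)⁻¹
def x03 : G := cj (yy S a b d u v) (S.e (c + u + v)) * (x13 S d u v * x23 S v)⁻¹

end Xs

namespace Fam

variable {S} {a b c d u v : A} (F : Fam S a b c d u v)

include F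

lemma yy_eq : yy S a b d u v = S.f d v * S.f (a + b) (u + v) * S.f a d := F.p0123

lemma duv_d : S.C d (d + u + v) := S.cg (S.add (S.self d) F.d_uv) (by abel)
lemma duv_u : S.C u (d + u + v) := S.cg (S.add (S.self u) F.u_dv) (by abel)
lemma duv_v : S.C v (d + u + v) := S.cg (S.add (S.self v) F.v_du) (by abel)
lemma abd_a : S.C a (a + b + d) := S.cg (S.add (S.self a) F.a_bd) (by abel)
lemma abd_b : S.C b (a + b + d) := S.cg (S.add (S.self b) F.b_ad) (by abel)
lemma abd_d : S.C d (a + b + d) := S.cg (S.add (S.self d) F.d_ab) (by abel)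
lemma cuv_a : S.C a (c + u + v) := S.cg (S.add F.a_cu F.av) (by abel)
lemma cuv_b : S.C b (c + u + v) := S.cg (S.add F.b_cv F.bu) (by abel)
lemma cuv_d : S.C d (c + u + v) := S.cg (S.add F.d_uv (S.symm F.cd)) (by abel)

/-- `x₁₂ x₁₃ x₂₃` -/
lemma l1 : x12 S d v * x13 S d u v * x23 S v = S.e (d + u + v) := by
  unfold x13 x23
  rw [mul_inv_cancel_left, ← S.ee (S.symm F.v_du)]

lemma l1' : x13 S d u v * x23 S v = cj (S.f d v) (S.e (u + v)) := by
  have h : cj (S.f d v) (S.e (d + u + v)) = S.e (d + u + v) :=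
    cj_of (S.fe F.duv_d F.duv_v)
  have h2 : S.e (d + u + v) = S.e d * S.e (u + v) := by
    rw [← S.ee F.d_uv]
    congr 1
    abel
  rw [eq_inv_mul_of_mul_eq ((mul_assoc _ _ _).symm.trans F.l1), ← h, h2, cj_mul]
  unfold x12
  rw [inv_mul_cancel_left]

lemma l2a : x01 S a d u = cj (yy S a b d u v) (S.e a) := by
  unfold yy x01
  rw [cj_mul_of (S.fe (S.symm F.a_bd) (S.symm F.av))]

lemma l2b' : x12 S d v = cj (S.f d v * S.f (a + b) (u + v)) (S.e d) := by
  unfold x12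
  rw [cj_mul_of (S.fe (S.symm F.d_ab) (S.symm F.d_uv))]

lemma l2b : x12 S d v = cj (yy S a b d u v) (cj (S.f a d)⁻¹ (S.e d)) := by
  rw [F.yy_eq, cj_cj, mul_inv_cancel_right, F.l2b']

lemma l3 : x01 S a d u * x02 S a b d u v * x12 S d v = cj (yy S a b d u v) (S.e (a + b + d)) := by
  unfold x02
  rw [F.l2a, ← mul_assoc, inv_mul_cancel_right, ← cj_mul, ← S.ee F.a_bd]
  congr 2
  abel

lemma l3M : x03 S a b c d u v * x13 S d u v * x23 S v = cj (yy S a b d u v) (S.e (c + u + v)) := by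
  unfold x03
  rw [mul_assoc, inv_mul_cancel_right]

lemma y3 : cj (yy S a b d u v) (S.e (a + b + d)) =
    cj (S.f d v * S.f (a + b) (u + v)) (S.e (a + b + d)) := by
  rw [F.yy_eq, cj_mul_of (S.fe F.abd_a F.abd_d)]

/-- `x₀₁ x₀₂` -/
lemma l3' : x01 S a d u * x02 S a b d u v =
    cj (S.f d v * S.f (a + b) (u + v)) (S.e (a + b)) := by
  rw [eq_mul_inv_of_mul_eq F.l3, F.y3, F.l2b', ← cj_inv, ← cj_mul, S.ee (S.symm F.d_ab)]
  rw [mul_inv_cancel_right]

/-- `x₀₁`, `x₂₃` commute -/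
lemma l4a : Commute (x01 S a d u) (x23 S v) := by
  unfold x23 x01
  rw [← cj_of (S.fe F.av (S.symm F.v_du)), cj_comm]
  exact S.ecomm F.av

/-- `x₀₃`, `x₁₂` commute -/
lemma l4b : Commute (x03 S a b c d u v) (x12 S d v) := by
  have h1 : Commute (cj (yy S a b d u v) (S.e (c + u + v))) (x12 S d v) := by
    rw [F.l2b, cj_comm]
    rw [← cj_of (S.fe F.cuv_a F.cuv_d).inv_left, cj_comm]
    exact S.ecomm (S.symm F.cuv_d)
  have h2 : Commute (x13 S d u v * x23 S v) (x12 S d v) := by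
    rw [F.l1']
    unfold x12
    rw [cj_comm]
    exact S.ecomm (S.symm F.d_uv)
  exact h1.mul_left h2.inv_left

lemma TT_yy : Commute (yy S a b d u v) (S.e (a + b + c + d + u + v)) :=
  (S.fe F.T_a (S.symm (S.add (S.symm F.T_d) (S.symm F.T_u)))).mul_left
    (S.fe (S.symm (S.add (S.symm F.T_b) (S.symm F.T_d))) F.T_v)

/-- `x₀₁ x₀₂ x₀₃` -/
lemma l5 : x01 S a d u * x02 S a b d u v * x03 S a b c d u v = S.e (a + b + c) := by
  have h1 : S.C (a + b + d) (c + u + v) :=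
    S.symm (S.add (S.add (S.symm F.cuv_a) (S.symm F.cuv_b)) (S.symm F.cuv_d))
  have h2 : S.C (a + b + c) (d + u + v) :=
    S.add (S.add (S.symm (S.add F.d_ab (S.symm F.cd)))
      (S.symm (S.cg (S.add F.u_ac (S.symm F.bu)) (by abel))))
      (S.symm (S.cg (S.add F.v_bc (S.symm F.av)) (by abel)))
  have e1 : x01 S a d u * x02 S a b d u v * x03 S a b c d u v * S.e (d + u + v) =
      S.e (a + b + c + d + u + v) := by
    calc x01 S a d u * x02 S a b d u v * x03 S a b c d u v * S.e (d + u + v)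
        = (x01 S a d u * x02 S a b d u v) * (x03 S a b c d u v * x12 S d v) *
          (x13 S d u v * x23 S v) := by rw [← F.l1]; group
      _ = (x01 S a d u * x02 S a b d u v * x12 S d v) *
          (x03 S a b c d u v * x13 S d u v * x23 S v) := by rw [F.l4b.eq]; group
      _ = cj (yy S a b d u v) (S.e (a + b + d + (c + u + v))) := by
          rw [F.l3, F.l3M, ← cj_mul, ← S.ee h1]
      _ = _ := by
          rw [show a + b + d + (c + u + v) = a + b + c + d + u + v by abel, cj_of F.TT_yy]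
  rw [eq_mul_inv_of_mul_eq e1, mul_inv_eq_iff_eq_mul, ← S.ee h2]
  congr 1
  abel

/-! ### the triple `123` -/

lemma t123_12 : Commute (x12 S d v * x13 S d u v * x23 S v) (x12 S d v) := by
  rw [F.l1]
  unfold x12
  rw [← cj_of (S.fe F.duv_d F.duv_v), cj_comm]
  exact S.ecomm (S.symm F.duv_d)

lemma t123_13 : Commute (x12 S d v * x13 S d u v * x23 S v) (x13 S d u v) := by
  have h := F.t123_12
  have h2 : Commute (x12 S d v * x13 S d u v * x23 S v) (S.e (d + u)) := by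
    rw [F.l1]
    exact S.ecomm (S.add (S.symm F.duv_d) (S.symm F.duv_u))
  exact h.inv_right.mul_right h2

lemma t123_23 : Commute (x12 S d v * x13 S d u v * x23 S v) (x23 S v) := by
  rw [F.l1]
  exact S.ecomm (S.symm F.duv_v)

/-! ### the triple `012` -/

lemma t012_01 : Commute (x01 S a d u * x02 S a b d u v * x12 S d v) (x01 S a d u) := by
  rw [F.l3, F.l2a, cj_comm]
  exact S.ecomm (S.symm F.abd_a)

lemma t012_12 : Commute (x01 S a d u * x02 S a b d u v * x12 S d v) (x12 S d v) := by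
  rw [F.l3, F.l2b, cj_comm, ← cj_of (S.fe F.abd_a F.abd_d).inv_left, cj_comm]
  exact S.ecomm (S.symm F.abd_d)

lemma t012_02 : Commute (x01 S a d u * x02 S a b d u v * x12 S d v) (x02 S a b d u v) := by
  have h1 : Commute (x01 S a d u * x02 S a b d u v * x12 S d v)
      (cj (yy S a b d u v) (S.e (b + d))) := by
    rw [F.l3, cj_comm]
    exact S.ecomm (S.add (S.symm F.abd_b) (S.symm F.abd_d))
  exact h1.mul_right F.t012_12.inv_right

/-! ### the triple `013` -/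

lemma T1a : S.C a (b + c + d + u + v) := S.cg (S.sub F.T_a (S.self a)) (by abel)

/-- `x₁₃` -/
lemma x13_eq : x13 S d u v = cj (S.e ((1 / 2 : ℚ) • v) * S.f u v) (S.e u) := by
  have h := S.H2 (a := d) (b := v) (d := u) (d + u + v) (by abel) (S.symm F.duv_d) (S.symm F.duv_v)
  have e0 : S.e (d + u) = S.e (d + u + v) * (S.e v)⁻¹ := by
    rw [← S.esub (S.symm F.duv_v)]
    congr 1
    abel
  have k1 : Commute (S.e (d + u + v)) (S.f v u) := (S.fe F.duv_v F.duv_u).symm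
  have k2 : Commute (S.e (d + u + v)) (S.e ((1 / 2 : ℚ) • v)) :=
    S.ecomm (S.half (S.symm F.duv_v))
  have k3 : Commute (S.e (d + u + v)) (S.e u) := S.ecomm (S.symm F.duv_u)
  unfold x13 x12 cj
  rw [mul_inv_rev, mul_inv_rev, inv_inv, S.finv, ← mul_assoc, h, e0, ← S.ehalf v,
    mul_inv_rev (S.e _), mul_inv_rev (S.e _), S.finv]
  generalize S.e (d + u + v) = Z at *
  generalize S.e ((1 / 2 : ℚ) • v) = V at *
  generalize S.e u = U at *
  calc V * S.f u v * (U * Z⁻¹) * S.f v u * V * (Z * (V⁻¹ * V⁻¹))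
      = V * S.f u v * U * Z⁻¹ * S.f v u * (V * Z) * V⁻¹ * V⁻¹ := by group
    _ = V * S.f u v * U * Z⁻¹ * (S.f v u * Z) * V⁻¹ := by rw [← k2.eq]; group
    _ = _ := by rw [← k1.eq]; group

/-- the conjugating element for `013` -/
def k (S : BS A G) (a b c d u v : A) : G :=
  (S.f (a + c) (d + v))⁻¹ * S.f v u * (S.e ((1 / 2 : ℚ) • v))⁻¹

omit F in
lemma k_eq : k S a b c d u v =
  (S.f (a + c) (d + v))⁻¹ * S.f v u * (S.e ((1 / 2 : ℚ) • v))⁻¹ := rfl

lemma k13 : cj (k S a b c d u v) (x13 S d u v) = S.e u := by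
  have h : Commute (S.f (a + c) (d + v)) (S.e u) := S.fe (S.symm F.u_ac) (S.symm F.u_dv)
  rw [F.x13_eq, cj_cj]
  have e : k S a b c d u v * (S.e ((1 / 2 : ℚ) • v) * S.f u v) = (S.f (a + c) (d + v))⁻¹ := by
    unfold k
    rw [← S.finv u v]
    group
  rw [e, cj_of h.inv_left]

lemma comm_P4_v : Commute (S.f a (d + u)) (S.e v) := S.fe F.av (S.symm F.v_du)
lemma comm_P4_hv : Commute (S.f a (d + u)) (S.e ((1 / 2 : ℚ) • v)) :=
  S.fe (S.half F.av) (S.half (S.symm F.v_du))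

lemma kP4 : k S a b c d u v * S.f a (d + u) =
    S.f a u * (S.f (c + u) v)⁻¹ * (S.e ((1 / 2 : ℚ) • v))⁻¹ := by
  have h := F.p0132
  rw [add_comm u d] at h
  have h2 : (S.f (a + c) (d + v))⁻¹ * S.f v u * S.f a (d + u) = S.f a u * (S.f (c + u) v)⁻¹ := by
    rw [eq_mul_inv_of_mul_eq h, ← S.finv u v]
    group
  unfold k
  rw [mul_assoc, ← F.comm_P4_hv.inv_right.eq, ← mul_assoc, h2]

lemma k01 : cj (k S a b c d u v) (x01 S a d u) = cj (S.f a u) (S.e a) := by
  unfold x01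
  rw [cj_cj, F.kP4, cj_mul_of, cj_mul_of]
  · exact (S.fe (S.symm F.a_cu) (S.symm F.av)).inv_left
  · exact (S.ecomm (S.symm (S.half F.av))).inv_left

lemma T_bd : S.C (b + d) (a + b + c + d + u + v) := S.symm (S.add (S.symm F.T_b) (S.symm F.T_d))

lemma T_acu : S.C (a + c + u) (a + b + c + d + u + v) :=
  S.symm (S.add (S.add (S.symm F.T_a) (S.symm F.T_c)) (S.symm F.T_u))

lemma acu_a : S.C a (a + c + u) := S.cg (S.add (S.self a) F.a_cu) (by abel)
lemma acu_c : S.C c (a + c + u) := S.cg (S.add (S.self c) F.c_au) (by abel)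
lemma acu_u : S.C u (a + c + u) := S.cg (S.add (S.self u) F.u_ac) (by abel)

lemma Q_eq : x01 S a d u * x03 S a b c d u v * x13 S d u v =
    cj (S.f a (d + u) * S.e ((1 / 2 : ℚ) • v) * S.f (c + u) v) (S.e (a + c + u)) := by
  have h := S.H2 (a := b + d) (b := v) (d := c + u) (b + c + d + u + v) (by abel)
    (S.symm (S.cg (S.sub F.T_bd (S.symm F.a_bd))
      (by abel))) (S.symm (S.cg (S.sub F.T_v (S.symm F.av)) (by abel)))
  have e1 : x03 S a b c d u v * x13 S d u v = cj (yy S a b d u v) (S.e (c + u + v)) * (S.e v)⁻¹ := by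
    rw [← F.l3M, mul_assoc _ _ (S.e v)⁻¹]
    unfold x23
    rw [mul_inv_cancel, mul_one]
  have e2 : S.e a * S.e (c + u + v) = S.e (a + b + c + d + u + v) * (S.e (b + d))⁻¹ := by
    rw [← S.esub (S.symm F.T_bd), ← S.ee F.cuv_a]
    congr 1
    abel
  have e3 : S.e (b + c + d + u + v) = S.e (a + b + c + d + u + v) * (S.e a)⁻¹ := by
    rw [← S.esub (S.symm F.T_a)]
    congr 1
    abel
  have e4 : S.e (a + c + u) = S.e (c + u) * S.e a := by
    rw [← S.ee (S.symm F.a_cu)]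
    congr 1
    abel
  have k1 : Commute (S.e (a + b + c + d + u + v))
      (S.e ((1 / 2 : ℚ) • v) * S.f (c + u) v * S.e (a + c + u)) :=
    ((S.ecomm (S.half (S.symm F.T_v))).mul_right (S.fe (S.symm (S.add (S.symm F.T_c)
      (S.symm F.T_u))) F.T_v).symm).mul_right (S.ecomm (S.symm F.T_acu))
  have k2 : cj (S.f a (d + u)) (S.e (a + b + c + d + u + v)) = S.e (a + b + c + d + u + v) :=
    cj_of (S.fe F.T_a (S.symm (S.add (S.symm F.T_d) (S.symm F.T_u))))
  have k3 : cj (S.f a (d + u)) (S.e v) = S.e v := cj_of F.comm_P4_v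
  have k4 : cj (yy S a b d u v) (S.e (a + b + c + d + u + v)) = S.e (a + b + c + d + u + v) :=
    cj_of F.TT_yy
  have e5 : cj (yy S a b d u v) (S.e (b + d))⁻¹ =
      cj (S.f a (d + u)) (S.f (b + d) v * (S.e (b + d))⁻¹ * S.f v (b + d)) := by
    unfold yy
    rw [← cj_cj, ← S.finv (b + d) v]
    rfl
  have e6 : S.e (a + b + c + d + u + v) *
      (S.f (b + d) v * (S.e (b + d))⁻¹ * S.f v (b + d)) * (S.e v)⁻¹ =
      cj (S.e ((1 / 2 : ℚ) • v) * S.f (c + u) v) (S.e (a + c + u)) := by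
    rw [h, e3, ← S.ehalf v, ← S.finv (c + u) v]
    unfold cj
    have k5 := k1.eq
    rw [e4] at k5 ⊢
    generalize S.e (a + b + c + d + u + v) = Z at *
    generalize S.e ((1 / 2 : ℚ) • v) = V at *
    generalize S.f (c + u) v = X at *
    generalize S.e (c + u) = U at *
    generalize S.e a = B at *
    calc Z * (V * X * (U * (Z * B⁻¹)⁻¹) * X⁻¹ * V) * (V * V)⁻¹
        = Z * (V * X * (U * B)) * Z⁻¹ * X⁻¹ * V⁻¹ := by group
      _ = _ := by rw [k5]; group
  rw [mul_assoc, e1, F.l2a, ← mul_assoc, ← cj_mul, e2, cj_mul, k4, e5, ← k2, ← k3, ← cj_inv,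
    ← cj_mul, ← cj_mul, e6, cj_cj, mul_assoc]

lemma kQ : cj (k S a b c d u v) (x01 S a d u * x03 S a b c d u v * x13 S d u v) =
    S.e (a + c + u) := by
  rw [F.Q_eq, cj_cj, ← mul_assoc, ← mul_assoc, F.kP4, inv_mul_cancel_right, inv_mul_cancel_right,
    cj_of (S.fe F.acu_a F.acu_u)]

lemma t013_01 : Commute (x01 S a d u * x03 S a b c d u v * x13 S d u v) (x01 S a d u) := by
  rw [← cj_comm (g := k S a b c d u v), F.kQ, F.k01, ← cj_of (S.fe F.acu_a F.acu_u), cj_comm]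
  exact S.ecomm (S.symm F.acu_a)

lemma t013_13 : Commute (x01 S a d u * x03 S a b c d u v * x13 S d u v) (x13 S d u v) := by
  rw [← cj_comm (g := k S a b c d u v), F.kQ, F.k13]
  exact S.ecomm (S.symm F.acu_u)

end Fam

lemma mid_comm {G : Type*} [Group G] {x y z : G} (h1 : Commute (x * y * z) x)
    (h2 : Commute (x * y * z) z) : Commute (x * y * z) y := by
  have h : y = x⁻¹ * (x * y * z) * z⁻¹ := by group
  have h3 : Commute (x * y * z) (x⁻¹ * (x * y * z) * z⁻¹) :=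
    (h1.inv_right.mul_right (Commute.refl _)).mul_right h2.inv_right
  rwa [← h] at h3

namespace Fam

variable {S} {a b c d u v : A} (F : Fam S a b c d u v)

include F

lemma t013_03 : Commute (x01 S a d u * x03 S a b c d u v * x13 S d u v) (x03 S a b c d u v) :=
  mid_comm F.t013_01 F.t013_13

/-! ### the triple `023` -/

/-- the conjugating element for `023` -/
def kk (S : BS A G) (a b c d u : A) : G :=
  S.f a (d + u) * (S.e ((1 / 2 : ℚ) • a))⁻¹ * (S.f a (b + c))⁻¹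

lemma x02_eq : x02 S a b d u v = cj (kk S a b c d u * S.f b v) (S.e b) := by
  have h := S.H2 (a := d) (b := a) (d := b) (a + b + d) (by abel) (S.symm F.abd_d) (S.symm F.abd_a)
  have e0 : S.e (b + d) = S.e (a + b + d) * (S.e a)⁻¹ := by
    rw [← S.esub (S.symm F.abd_a)]
    congr 1
    abel
  have e1 : (x12 S d v)⁻¹ = cj (yy S a b d u v) (S.f d a * (S.e d)⁻¹ * S.f a d) := by
    rw [F.l2b, ← cj_inv, ← cj_inv]
    unfold cj
    rw [inv_inv, S.finv]
  have k1 : Commute (S.e (a + b + d)) (S.e ((1 / 2 : ℚ) • a)) :=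
    S.ecomm (S.half (S.symm F.abd_a))
  have k2 : Commute (S.e (a + b + d)) (S.f b a) := (S.fe F.abd_b F.abd_a).symm
  have k3 : Commute (S.e (a + b + d)) (S.e b) := S.ecomm (S.symm F.abd_b)
  have e2 : S.e (b + d) * (S.f d a * (S.e d)⁻¹ * S.f a d) =
      cj ((S.e ((1 / 2 : ℚ) • a))⁻¹ * S.f b a) (S.e b) := by
    rw [h, e0, ← S.ehalf a, ← S.finv b a]
    unfold cj
    have k4 := ((k1.inv_right.mul_right k2).mul_right k3).eq
    generalize S.e (a + b + d) = Z at *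
    generalize S.e ((1 / 2 : ℚ) • a) = V at *
    generalize S.f b a = X at *
    generalize S.e b = U at *
    calc Z * (V * V)⁻¹ * (V * X * (U * Z⁻¹) * X⁻¹ * V)
        = (Z * (V⁻¹ * X * U)) * Z⁻¹ * X⁻¹ * V := by group
      _ = _ := by rw [k4]; group
  have e3 : yy S a b d u v * ((S.e ((1 / 2 : ℚ) • a))⁻¹ * S.f b a) =
      kk S a b c d u * S.f b v * S.f (a + d) (c + v) := by
    have h5 : Commute (S.f (b + d) v) (S.e ((1 / 2 : ℚ) • a))⁻¹ :=
      (S.fe (S.half (S.symm F.a_bd)) (S.half (S.symm F.av))).inv_right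
    have h6 : S.f (b + d) v * S.f b a = (S.f a (b + c))⁻¹ * S.f b v * S.f (a + d) (c + v) := by
      have h7 := F.p1023
      rw [add_comm d b] at h7
      rw [eq_inv_mul_of_mul_eq h7, ← S.finv a b]
      group
    unfold yy kk
    calc S.f a (d + u) * S.f (b + d) v * ((S.e ((1 / 2 : ℚ) • a))⁻¹ * S.f b a)
        = S.f a (d + u) * (S.f (b + d) v * (S.e ((1 / 2 : ℚ) • a))⁻¹) * S.f b a := by group
      _ = S.f a (d + u) * (S.e ((1 / 2 : ℚ) • a))⁻¹ * (S.f (b + d) v * S.f b a) := by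
          rw [h5.eq]; group
      _ = _ := by rw [h6]; group
  unfold x02
  rw [e1, ← cj_mul, e2, cj_cj, e3, cj_mul_of (S.fe (S.symm F.b_ad) (S.symm F.b_cv))]

lemma kk_v : Commute (kk S a b c d u) (S.e v) := by
  unfold kk
  exact (F.comm_P4_v.mul_left (S.ecomm (S.symm (S.half (S.symm F.av)))).inv_left).mul_left
    (S.fe F.av (S.symm F.v_bc)).inv_left

lemma bcv_b : S.C b (b + c + v) := S.cg (S.add (S.self b) F.b_cv) (by abel)
lemma bcv_c : S.C c (b + c + v) := S.cg (S.add (S.self c) F.c_bv) (by abel)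
lemma bcv_v : S.C v (b + c + v) := S.cg (S.add (S.self v) F.v_bc) (by abel)
lemma T_bcv : S.C (b + c + v) (a + b + c + d + u + v) :=
  S.symm (S.add (S.add (S.symm F.T_b) (S.symm F.T_c)) (S.symm F.T_v))
lemma T_du : S.C (d + u) (a + b + c + d + u + v) := S.symm (S.add (S.symm F.T_d) (S.symm F.T_u))
lemma T_bc : S.C (b + c) (a + b + c + d + u + v) := S.symm (S.add (S.symm F.T_b) (S.symm F.T_c))

/-- `z = T - v` -/
lemma z_a : S.C (a + b + c + d + u) a := S.symm (S.cg (S.sub F.T_a F.av) (by abel))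
lemma z_du : S.C (a + b + c + d + u) (d + u) :=
  S.symm (S.cg (S.sub F.T_du (S.symm F.v_du)) (by abel))

lemma W_eq : x02 S a b d u v * x03 S a b c d u v * x23 S v =
    cj (S.e ((1 / 2 : ℚ) • (d + u)) * S.f (b + c) (d + u)) (S.e (b + c + v)) := by
  have h := S.H2 (a := a) (b := d + u) (d := b + c) (a + b + c + d + u) (by abel) F.z_a F.z_du
  have e1 : x02 S a b d u v * x03 S a b c d u v = (x01 S a d u)⁻¹ * S.e (a + b + c) := by
    rw [← F.l5]
    group
  have e2 : (x01 S a d u)⁻¹ = S.f a (d + u) * (S.e a)⁻¹ * S.f (d + u) a := by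
    unfold x01 cj
    rw [← S.finv a (d + u)]
    group
  have h3 : S.C (a + b + c) v := S.symm (S.cg (S.add F.v_bc (S.symm F.av)) (by abel))
  have e3 : S.e (a + b + c) * S.e v = S.e (a + b + c + d + u + v) * (S.e (d + u))⁻¹ := by
    rw [← S.ee h3, ← S.esub (S.symm F.T_du)]
    congr 1
    abel
  have e4 : S.e (a + b + c + d + u) = S.e (a + b + c + d + u + v) * (S.e v)⁻¹ := by
    rw [← S.esub (S.symm F.T_v)]
    congr 1
    abel
  have e5 : S.e (b + c + v) = S.e (b + c) * S.e v := by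
    rw [← S.ee (S.symm F.v_bc)]
  have k1 : Commute (S.e (a + b + c + d + u + v)) (S.f (d + u) (b + c)) :=
    (S.fe F.T_du F.T_bc).symm
  have k2 : Commute (S.e (a + b + c + d + u + v)) (S.e ((1 / 2 : ℚ) • (d + u))) :=
    S.ecomm (S.half (S.symm F.T_du))
  have k3 := (k1.symm.mul_left k2.symm).eq
  unfold x23
  rw [e1, mul_assoc, e3, e2, h, e4, ← S.ehalf (d + u), e5, ← S.finv (b + c) (d + u)]
  rw [← S.finv (b + c) (d + u)] at k3
  unfold cj
  generalize S.e (a + b + c + d + u + v) = Z at *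
  generalize S.e ((1 / 2 : ℚ) • (d + u)) = V at *
  generalize S.f (b + c) (d + u) = X at *
  generalize S.e (b + c) = U at *
  generalize S.e v = B at *
  calc V * X * (U * (Z * B⁻¹)⁻¹) * X⁻¹ * V * (Z * (V * V)⁻¹)
      = V * X * U * B * Z⁻¹ * (X⁻¹ * V * Z) * V⁻¹ * V⁻¹ := by group
    _ = _ := by rw [k3]; group

lemma kkW : cj (kk S a b c d u)⁻¹ (x02 S a b d u v * x03 S a b c d u v * x23 S v) =
    S.e (b + c + v) := by
  have h := S.H4 (a := a) (b := d + u) (d := b + c) (a + b + c + d + u) (by abel) F.z_a F.z_du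
  have e1 : (kk S a b c d u)⁻¹ * (S.e ((1 / 2 : ℚ) • (d + u)) * S.f (b + c) (d + u)) =
      (S.e ((1 / 2 : ℚ) • (-a - (d + u))))⁻¹ := by
    rw [← h]
    unfold kk
    rw [← S.finv a (d + u)]
    group
  have e2 : S.C (-a - (d + u)) (b + c + v) :=
    S.symm (S.cg (S.sub (S.self (b + c + v)) F.T_bcv) (by abel))
  rw [F.W_eq, cj_cj, e1, cj_of]
  exact (S.ecomm (S.symm (S.half (S.symm e2)))).inv_left

lemma kk02 : cj (kk S a b c d u)⁻¹ (x02 S a b d u v) = cj (S.f b v) (S.e b) := by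
  rw [F.x02_eq, cj_cj, inv_mul_cancel_left]

lemma kk23 : cj (kk S a b c d u)⁻¹ (x23 S v) = S.e v := cj_of F.kk_v.inv_left

lemma t023_02 : Commute (x02 S a b d u v * x03 S a b c d u v * x23 S v) (x02 S a b d u v) := by
  rw [← cj_comm (g := (kk S a b c d u)⁻¹), F.kkW, F.kk02, ← cj_of (S.fe F.bcv_b F.bcv_v), cj_comm]
  exact S.ecomm (S.symm F.bcv_b)

lemma t023_23 : Commute (x02 S a b d u v * x03 S a b c d u v * x23 S v) (x23 S v) := by
  rw [← cj_comm (g := (kk S a b c d u)⁻¹), F.kkW, F.kk23]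
  exact S.ecomm (S.symm F.bcv_v)

lemma t023_03 : Commute (x02 S a b d u v * x03 S a b c d u v * x23 S v) (x03 S a b c d u v) :=
  mid_comm F.t023_02 F.t023_23

/-! ### the relation `cross` -/

lemma cross_L : cj (x01 S a d u)⁻¹ (x13 S d u v) =
    cj ((x01 S a d u)⁻¹ * (S.e ((1 / 2 : ℚ) • v) * S.f u v)) (S.e u) := by
  rw [F.x13_eq, cj_cj]

lemma KL : (kk S a b c d u * S.f b v)⁻¹ * ((x01 S a d u)⁻¹ * (S.e ((1 / 2 : ℚ) • v) * S.f u v)) =
    (S.e ((1 / 2 : ℚ) • (a + b + c + d + u + v)))⁻¹ * S.e ((1 / 2 : ℚ) • (b + c + v)) *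
      S.f u (c + v) * (S.f (d + v) b * S.e ((1 / 2 : ℚ) • (d + u + v))) := by
  have h := S.H3 (a := a) (b := d + u) (d := b + c) (a + b + c + d + u) (by abel) F.z_a F.z_du
  have e1 : S.e ((1 / 2 : ℚ) • (-a - (d + u))) =
      (S.e ((1 / 2 : ℚ) • (a + b + c + d + u + v)))⁻¹ * S.e ((1 / 2 : ℚ) • (b + c + v)) := by
    rw [← S.eneg, ← S.ee]
    · congr 1
      rw [← smul_neg, ← smul_add]
      congr 1
      abel
    · exact S.half (S.symm (S.neg (S.half F.T_bcv)))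
  have e2 : S.e ((1 / 2 : ℚ) • (d + u)) * S.e ((1 / 2 : ℚ) • v) = S.e ((1 / 2 : ℚ) • (d + u + v)) := by
    rw [← S.ee, ← smul_add]
    exact S.half (S.symm (S.half F.v_du))
  have e3 : S.f v b * S.f (d + u) (b + c) * S.f u v = S.f u (c + v) * S.f (d + v) b := by
    have h1 := congrArg (fun x => x⁻¹) F.p0231
    simp only [mul_inv_rev, S.finv] at h1
    rw [add_comm d v, h1, mul_assoc]
  have k1 : Commute (S.f v b) ((S.e ((1 / 2 : ℚ) • (a + b + c + d + u + v)))⁻¹ *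
      S.e ((1 / 2 : ℚ) • (b + c + v))) :=
    (S.fe (S.half F.T_v) (S.half F.T_b)).inv_right.mul_right (S.fe (S.half F.bcv_v) (S.half F.bcv_b))
  have k2 : Commute (S.f u v) (S.e ((1 / 2 : ℚ) • (d + u + v))) :=
    S.fe (S.half F.duv_u) (S.half F.duv_v)
  have e4 : (kk S a b c d u)⁻¹ * (x01 S a d u)⁻¹ =
      S.f a (b + c) * (S.e ((1 / 2 : ℚ) • a))⁻¹ * S.f (d + u) a := by
    unfold kk x01 cj
    rw [← S.finv a (d + u), ← S.ehalf a]
    group
  calc (kk S a b c d u * S.f b v)⁻¹ * ((x01 S a d u)⁻¹ * (S.e ((1 / 2 : ℚ) • v) * S.f u v))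
      = (S.f b v)⁻¹ * ((kk S a b c d u)⁻¹ * (x01 S a d u)⁻¹) * (S.e ((1 / 2 : ℚ) • v) * S.f u v) := by
        group
    _ = S.f v b * ((S.e ((1 / 2 : ℚ) • (a + b + c + d + u + v)))⁻¹ * S.e ((1 / 2 : ℚ) • (b + c + v))) *
        S.f (d + u) (b + c) * (S.e ((1 / 2 : ℚ) • (d + u)) * S.e ((1 / 2 : ℚ) • v)) * S.f u v := by
        rw [e4, h, e1, S.finv]
        group
    _ = ((S.e ((1 / 2 : ℚ) • (a + b + c + d + u + v)))⁻¹ * S.e ((1 / 2 : ℚ) • (b + c + v))) *
        (S.f v b * S.f (d + u) (b + c) * (S.e ((1 / 2 : ℚ) • (d + u + v)) * S.f u v)) := by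
        rw [k1.eq, e2]
        group
    _ = ((S.e ((1 / 2 : ℚ) • (a + b + c + d + u + v)))⁻¹ * S.e ((1 / 2 : ℚ) • (b + c + v))) *
        (S.f v b * S.f (d + u) (b + c) * S.f u v) * S.e ((1 / 2 : ℚ) • (d + u + v)) := by
        rw [← k2.eq]
        group
    _ = _ := by
        rw [e3]
        group

lemma cross_R : Commute (S.e b)
    (cj (S.e ((1 / 2 : ℚ) • (b + c + v)) * S.f u (c + v)) (S.e u)) := by
  have h1 : Commute (S.e b) (S.e ((1 / 2 : ℚ) • (b + c + v))) := S.ecomm (S.half F.bcv_b)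
  have h2 : Commute (S.f u (c + v)) (S.e b) := S.fe (S.symm F.bu) (S.symm F.b_cv)
  have h3 : cj (S.e ((1 / 2 : ℚ) • (b + c + v)) * S.f u (c + v)) (S.e b) = S.e b := by
    rw [cj_mul_of h2, cj_of h1.symm]
  rw [← h3, cj_comm]
  exact S.ecomm F.bu

lemma cross : Commute (x02 S a b d u v) ((x01 S a d u)⁻¹ * x13 S d u v * x01 S a d u) := by
  have h0 : (x01 S a d u)⁻¹ * x13 S d u v * x01 S a d u = cj (x01 S a d u)⁻¹ (x13 S d u v) := by
    unfold cj
    rw [inv_inv]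
  have h1 : cj (S.f (d + v) b * S.e ((1 / 2 : ℚ) • (d + u + v))) (S.e u) = S.e u := by
    rw [cj_mul_of (S.ecomm (S.symm (S.half F.duv_u))), cj_of]
    exact S.fe (S.symm F.u_dv) F.bu
  have h3 : Commute (S.e ((1 / 2 : ℚ) • (a + b + c + d + u + v)))⁻¹
      (cj (S.e ((1 / 2 : ℚ) • (b + c + v)) * S.f u (c + v)) (S.e u)) := by
    have k1 : Commute (S.e ((1 / 2 : ℚ) • (a + b + c + d + u + v)))
        (S.e ((1 / 2 : ℚ) • (b + c + v))) := S.ecomm (S.half (S.symm (S.half F.T_bcv)))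
    have k2 : Commute (S.e ((1 / 2 : ℚ) • (a + b + c + d + u + v))) (S.f u (c + v)) :=
      (S.fe (S.half F.T_u) (S.symm (S.add (S.symm (S.half F.T_c)) (S.symm (S.half F.T_v))))).symm
    have k3 : Commute (S.e ((1 / 2 : ℚ) • (a + b + c + d + u + v))) (S.e u) :=
      S.ecomm (S.symm (S.half F.T_u))
    unfold cj
    exact (((k1.mul_right k2).mul_right k3).mul_right (k1.mul_right k2).inv_right).inv_left
  rw [h0, F.cross_L, ← cj_comm (g := (kk S a b c d u * S.f b v)⁻¹), cj_cj, F.KL, F.x02_eq, cj_cj,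
    inv_mul_cancel]
  have h4 : cj (1 : G) (S.e b) = S.e b := by
    unfold cj
    simp
  rw [h4, ← cj_cj, h1, mul_assoc, ← cj_cj, cj_of h3]
  exact F.cross_R

end Fam

end MP446U.BRDM
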