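import Pool.Agent.Lib.MP_446dfa_ag.unc.Defs
import Pool.Agent.Lib.MP_446dfa_ag.sig.Final

set_option linter.all false

/-!
# The unconditional form of the theorem on the motivic Galois group: statements of the modules

Every module `XXX` is a file `unc/XXX.lean` which proves `theorem specXXX : SpecXXX` (if it uses
another module that does not exist yet, it takes `SpecYYY` as a hypothesis; `FIN` puts all
together).

NOTATION.  `φ(a,b) = val φ a b`, `T_u = A.TN N u`, `J` = the ideal of the terms without constant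
term; in docstrings `a + b + c = 0` always.
-/

noncomputable section

namespace MP446U

open MP446 MP446Y MP446Z MP446S MP446I

attribute [local instance 100] LieRing.ofAssociativeRing

/-! ## The single properties of an associator -/

section Parts

variable (R : Type) [CommRing R]

/-- the shuffle relations for the words of total length `< N` -/
def GlN (N : ℕ) (f : List (Fin 2) → R) : Prop :=
  f [] = 1 ∧
    ∀ v w : List (Fin 2), v.length + w.length < N → f v * f w = ((shuffle v w).map f).sum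

/-- group-likeness in terms of values -/
def GlV (N : ℕ) (f : List (Fin 2) → R) : Prop :=
  f [] = 1 ∧ ∀ (E : Type) [Ring E] [Algebra R E] (I : Submodule R E), IsNilp N I →
    ∀ a ∈ I, ∀ b ∈ I, ∀ a' ∈ I, ∀ b' ∈ I, Com2 a b a' b' →
      val f (a + a') (b + b') = val f a b * val f a' b'

/-- the 2-cycle relation -/
def DualN (N : ℕ) (f : List (Fin 2) → R) : Prop :=
  ∀ (E : Type) [Ring E] [Algebra R E] (I : Submodule R E), IsNilp N I →
    ∀ a ∈ I, ∀ b ∈ I, val f a b * val f b a = 1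

/-- the hexagon relation, with a given `ν` -/
def HexN [Algebra ℚ R] (N : ℕ) (ν : R) (f : List (Fin 2) → R) : Prop :=
  ∀ (E : Type) [Ring E] [Algebra R E] (I : Submodule R E), IsNilp N I →
    ∀ a ∈ I, ∀ b ∈ I, ∀ c ∈ I, a + b + c = 0 →
      expU R (ν • a) * val f c a * expU R (ν • c) * val f b c * expU R (ν • b) * val f a b = 1

/-- the pentagon relation -/
def PentN (N : ℕ) (f : List (Fin 2) → R) : Prop :=
  ∀ (E : Type) [Ring E] [Algebra R E] (I : Submodule R E), IsNilp N I →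
    ∀ t : Fin 4 → Fin 4 → E, Braid t → (∀ i j, t i j ∈ I) →
      val f (t 0 1) (t 1 2 + t 1 3) * val f (t 0 2 + t 1 2) (t 2 3) =
        val f (t 1 2) (t 2 3) * val f (t 0 1 + t 0 2) (t 1 3 + t 2 3) * val f (t 0 1) (t 1 2)

end Parts

/-! ## Analysis -/

/-- HXC (helper2): the hexagon relation for the KZ series, in complex Banach algebras (`E` is a
real Banach algebra through `NormedAlgebra.complexToReal`). -/
def SpecHXC : Prop :=
  ∀ (N : ℕ) (P : AA ℝ), KZlim N P →
    ∀ (E : Type) [NormedRing E] [NormedAlgebra ℂ E] [CompleteSpace E] (I : Submodule ℂ E),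
      IsNilp N I → ∀ A ∈ I, ∀ B ∈ I, ∀ C ∈ I, A + B + C = 0 →
        ∀ ν : ℂ, (ν = Real.pi * Complex.I ∨ ν = -(Real.pi * Complex.I)) →
          NormedSpace.exp (ν • A) * EV C A P * NormedSpace.exp (ν • C) * EV B C P *
            NormedSpace.exp (ν • B) * EV A B P = 1

/-- DUA (helper2): the 2-cycle relation for the KZ series. -/
def SpecDUA : Prop :=
  ∀ (N : ℕ) (P : AA ℝ), KZlim N P →
    ∀ (E : Type) [NormedRing E] [NormedAlgebra ℝ E] [CompleteSpace E] (I : Submodule ℝ E),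
      Nil N I → ∀ A ∈ I, ∀ B ∈ I, EV A B P * EV B A P = 1

/-- KZC (helper7): a complex associator, for `N`-nilpotent elements.

PROOF.  `specLIM` (sig) gives `P : AA ℝ` with `KZlim N P` (`N ≥ 1`; for `N = 0` all algebras with
`IsNilp 0 I` are zero: the empty product `1` is `0`).  `sig/COEF` gives `Norm1 N P`, and with
`sig/KGL`, `sig/KPG`, `toGrL`, `toPG` (sig/Asm) one gets `GrL N P`, `PG N P`.  Put
`f w = (2πi)^(-|w|) cf P w` for `|w| < N`, and `f w` (`|w| ≥ N`) whatever (e.g. `0`), so that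
`val f a b = EV (a / 2πi) (b / 2πi) P` (`E` is a real algebra by restriction of scalars, `EV` over
`ℝ` is `EV` over `ℂ` of the polynomial with the coefficients in `ℂ`).
`pent`: by `PG N P` for `t / 2πi`.  `gl`: by `GrL → shuffle`, see `SpecGLE`.
`dual`, `hex`: `a / 2πi` etc. in `SpecDUA`, `SpecHXC`, `ν (2πi) = ± πi` for `2 ν = ± 1`; to pass
from Banach algebras to all algebras with `IsNilp N I`: a relation in two nilpotent elements
`a, b ∈ I` (`c = -a-b`) is a polynomial identity: the left hand side is `EV a b X` for a fixed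
`X : AA ℂ` (replace all exponentials by `∑_{k<N} z^k/k!`), and `EV a b X = 1` for all `a, b` in
`N`-nilpotent ideals iff `cf X w = cf 1 w` for `|w| < N` (`EV_wl`); this follows from the case of the
matrices `LM N 0`, `LM N 1` (complex form of `WM`, `LM`, `IM`, `EV_LM_nil` in sig/Lim; the complex
matrices with the norm `linftyOpNormedRing`, ...). -/
def SpecKZC : Prop := ∀ N, ∃ f : List (Fin 2) → ℂ, IsAssocN ℂ N 1 f

/-- GLE (helper9): the two forms of group-likeness.

PROOF.  `→`: for `Com2 a b a' b'`, the word `w(a + a', b + b')` is the sum over all ways to split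
`w` into two complementary subwords `(p, q)` of `p(a,b) q(a',b')`, and the number of splittings of
`w` into `(p, q)` is the number of times `w` occurs in `shuffle p q`; all words are of length
`< N`, terms with `|p| + |q| ≥ N` vanish.  `←`: take `E` = the endomorphisms of the functions
`g : List (Fin 2) × List (Fin 2) → R` vanishing at the pairs of total length `≥ N` (or simply all
linear maps of `wp → R`, `wp` = the finite set of the pairs of total length `< N`), where
`a = x ⊗ 1`, `b = y ⊗ 1`, `a' = 1 ⊗ x`, `b' = 1 ⊗ y` are the multiplications on the left, `I` = the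
operators which raise the total length, and apply both sides to the pair `([], [])`. -/
def SpecGLE : Prop :=
  ∀ (R : Type) [CommRing R] (N : ℕ) (f : List (Fin 2) → R), GlN R N f ↔ GlV R N f

/-! ## The Lie algebra `grt₁` -/

/-- GQK (helper59): the elements of `grt₁` over a field.

PROOF.  `Q` is `assoc K ψ`, so for elements `a, b` of an associative algebra, `EV a b Q` is
`ev a b ψ` for the Lie algebra `E` (commutators); `zero`, `prim` by the lemmas of sig/Basic
(`ev_of_comm`, ...; `n ≥ 2`, so `ψ ∈ [F2, F2]`), `anti`, `cycle`, `hex`, `pent` from the fields of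
`IsGRT` and functoriality.  (Compare the beginning of sig/DEF.) -/
def SpecGQK : Prop :=
  ∀ (K : Type) [Field K] [CharZero K] (n : ℕ) (ψ : F2 K), 2 ≤ n → Hom n (assoc K ψ) → IsGRT ψ →
    IsGQ n (assoc K ψ)

/-- BCQ (helper59): base change; an `R'`-algebra is an `R`-algebra through `θ`, and
`EV a b (bcP θ Q) = EV a b Q`. -/
def SpecBCQ : Prop :=
  ∀ (R R' : Type) [CommRing R] [CommRing R'] (θ : R →+* R') (n : ℕ) (Q : AA R),
    IsGQ n Q → IsGQ n (bcP θ Q)

/-- the first order deformation `t + ε d` of a family `t` attached to `Q` -/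
structure DefR {R : Type} [CommRing R] {E : Type} [Ring E] [Algebra R E] (Q : AA R)
    (t d : Fin 4 → Fin 4 → E) : Prop where
  symm : ∀ i j, d i j = d j i
  diag : ∀ i, d i i = 0
  d01 : d 0 1 = cm (EV (t 0 1) (t 1 2 + t 1 3) Q) (t 0 1)
  d12 : d 1 2 = cm (EV (t 1 2) (t 2 3) Q) (t 1 2)
  d23 : d 2 3 = 0
  d13 : d 1 3 = -d 1 2
  d02 : d 0 2 = cm (EV (t 0 1) (t 1 2 + t 1 3) Q + EV (t 0 2 + t 1 2) (t 2 3) Q)
    (t 0 2 + t 1 2) - d 1 2
  d03 : d 0 3 = -(d 0 1 + d 0 2 + d 1 2 + d 1 3 + d 2 3)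

/-- the properties of the deformation -/
structure DefFacesR {R : Type} [CommRing R] {E : Type} [Ring E] [Algebra R E] (Q : AA R)
    (t d : Fin 4 → Fin 4 → E) : Prop where
  braid : Braid (fun i j => TrivSqZeroExt.inl (t i j) + TrivSqZeroExt.inr (d i j) :
    Fin 4 → Fin 4 → TrivSqZeroExt E E)
  f2 : cm (EV (t 0 1) (t 1 2 + t 1 3) Q) (t 2 3) = 0
  f4a : cm (EV (t 1 2) (t 2 3) Q + EV (t 0 1 + t 0 2) (t 1 3 + t 2 3) Q) (t 0 1 + t 0 2) =
    d 0 1 + d 0 2
  f4b : cm (EV (t 1 2) (t 2 3) Q) (t 1 3 + t 2 3) = d 1 3 + d 2 3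
  f5a : cm (EV (t 1 2) (t 2 3) Q + EV (t 0 1 + t 0 2) (t 1 3 + t 2 3) Q +
    EV (t 0 1) (t 1 2) Q) (t 0 1) = d 0 1
  f5b : cm (EV (t 1 2) (t 2 3) Q + EV (t 0 1 + t 0 2) (t 1 3 + t 2 3) Q) (t 1 2) = d 1 2

/-- DFR (helper59): sig/DEF over a commutative ring `R` (if the proof needs it, add
`[Algebra ℚ R]`: all our rings are `ℚ`-algebras). -/
def SpecDFR : Prop :=
  ∀ (R : Type) [CommRing R] [Algebra ℚ R] (n : ℕ) (Q : AA R), 2 ≤ n → IsGQ n Q →
    ∀ (E : Type) [Ring E] [Algebra R E] (t d : Fin 4 → Fin 4 → E), Braid t → DefR Q t d →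
      DefFacesR Q t d

/-! ## Operators -/

section Shl

variable {R S : Type} [CommRing R]

/-- the composition of the operators of a word -/
def opw {V : Type} [AddCommGroup V] [Module R V] (x : S → Module.End R V) (w : List S) :
    Module.End R V := (w.map x).prod

end Shl

/-- SH2 (helper41): Leibniz rule for the action of a group-like series.

PROOF.  By induction `Λ_r (m v w) = ∑ m (x_p v) (y_q w)` over all splittings of the word `r` into
complementary subwords `(p, q)`; `r` occurs in `shuffle p q` as many times as `(p, q)` is a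
splitting of `r`, and `∑_{r ∈ shuffle p q} u_r = u_p u_q`. -/
def SpecSH2 : Prop :=
  ∀ (R S : Type) [CommRing R] (A : Alph S) (u : List S → R), IsGroupLike u →
    ∀ (V W M : Type) [AddCommGroup V] [Module R V] [AddCommGroup W] [Module R W]
      [AddCommGroup M] [Module R M] (x : S → Module.End R V) (y : S → Module.End R W)
      (Λ : S → Module.End R M) (m : V →ₗ[R] W →ₗ[R] M),
      (∀ s v w, Λ s (m v w) = m (x s v) w + m v (y s w)) →
      ∀ (N : ℕ) (v : V) (w : W),
        (∀ p q : List S, N ≤ A.wt p + A.wt q → m (opw x p v) (opw y q w) = 0) →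
        ∑ r ∈ A.wd N, u r • opw Λ r (m v w) =
          m (∑ p ∈ A.wd N, u p • opw x p v) (∑ q ∈ A.wd N, u q • opw y q w)

/-- SH3 (helper41): the same with three factors. -/
def SpecSH3 : Prop :=
  ∀ (R S : Type) [CommRing R] (A : Alph S) (u : List S → R), IsGroupLike u →
    ∀ (V W U M : Type) [AddCommGroup V] [Module R V] [AddCommGroup W] [Module R W]
      [AddCommGroup U] [Module R U] [AddCommGroup M] [Module R M] (x : S → Module.End R V)
      (y : S → Module.End R W) (z : S → Module.End R U) (Λ : S → Module.End R M)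
      (m : V →ₗ[R] W →ₗ[R] U →ₗ[R] M),
      (∀ s v w t, Λ s (m v w t) = m (x s v) w t + m v (y s w) t + m v w (z s t)) →
      ∀ (N : ℕ) (v : V) (w : W) (t : U),
        (∀ p q r : List S, N ≤ A.wt p + A.wt q + A.wt r →
          m (opw x p v) (opw y q w) (opw z r t) = 0) →
        ∑ r ∈ A.wd N, u r • opw Λ r (m v w t) =
          m (∑ p ∈ A.wd N, u p • opw x p v) (∑ q ∈ A.wd N, u q • opw y q w)
            (∑ q ∈ A.wd N, u q • opw z q t)

/-- OPA (helper95): `act` and values.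

PROOF.  `Q_s` is homogeneous of degree `dg s`, so `L_s` maps a polynomial homogeneous of degree `k`
to one of degree `k + dg s`; hence `L_w` raises the degree by `wt w`, and `cf (T_u X) v` depends
only on the `cf X v'` with `|v'| ≤ |v|` and the words `w` with `wt w ≤ |v|`. -/
def SpecOPA : Prop :=
  ∀ (R S : Type) [CommRing R] (A : GFam R S) (u : List S → R) (f : List (Fin 2) → R),
    (∀ (N : ℕ) (v : List (Fin 2)), v.length < N → cf (A.TN N u (trn N f)) v = A.act u f v) ∧
    (∀ (N : ℕ) (X : AA R) (v : List (Fin 2)), v.length < N → (∀ v', v'.length < N → cf X v' = f v') →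
      cf (A.TN N u X) v = A.act u f v) ∧
    (∀ (N : ℕ) (E : Type) [Ring E] [Algebra R E] (I : Submodule R E), IsNilp N I →
      ∀ a ∈ I, ∀ b ∈ I, val (A.act u f) a b = EV a b (A.TN N u (trn N f)))

/-- OPC (helper95): composition, `T_u T_v = T_{uv}` modulo high degrees; the unit acts trivially. -/
def SpecOPC : Prop :=
  ∀ (R S : Type) [CommRing R] (A : GFam R S) (u v : List S → R) (f : List (Fin 2) → R),
    A.act u (A.act v f) = A.act (conv u v) f ∧ A.act (1 : Ser S R).cf f = f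

/-- OPV (helper95): the value formula, `val (act u f) a b = f(k a k⁻¹, b) k` with
`k = val (act u 1) a b`.

PROOF.  `L_s (X Y) = (D_s X) Y + X (L_s Y)` and `D_s` is a derivation; by `SpecSH2` (with
`x = D`, `y = Λ = L`, resp. `x = y = Λ = D`, modulo degree `≥ N`, e.g. `M = AA R` modulo the
polynomials without terms of length `< N`, or the coefficients of a single word)
`T_u (X Y) = T^D_u(X) T_u(Y)` and `T^D_u = ∑_w u_w D_w` is multiplicative.  `T^D_u(y) = y`
(`D_s y = 0`).  `L_s` commutes with the multiplication by `x` on the right: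
`L_s (X x) = D_s(X) x + X [Q_s, x] + X x Q_s = L_s(X) x`.  So `T_u(x) = T_u(1) x = k x`, and
`T_u(x) = T^D_u(x) T_u(1) = T^D_u(x) k`, i.e. `T^D_u(x) = k x k⁻¹`.
Hence `T_u(X) = T_u(X · 1) = X(k x k⁻¹, y) k`. -/
def SpecOPV : Prop :=
  ∀ (R S : Type) [CommRing R] (A : GFam R S) (u : List S → R), IsGroupLike u →
    ∀ (f : List (Fin 2) → R) (N : ℕ) (E : Type) [Ring E] [Algebra R E] (I : Submodule R E),
      IsNilp N I → ∀ a ∈ I, ∀ b ∈ I, ∀ k : Eˣ, (k : E) = val (A.act u (one1 R)) a b →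
        val (A.act u f) a b = val f (k * a * (k⁻¹ : Eˣ)) b * k

/-- OPN (helper95): naturality and scaling. -/
def SpecOPN : Prop :=
  (∀ (R R' S : Type) [CommRing R] [CommRing R'] (θ : R →+* R') (A : GFam R S) (A' : GFam R' S),
    A'.dg = A.dg → (∀ s, A'.Q s = bcP θ (A.Q s)) → ∀ (u : List S → R) (f : List (Fin 2) → R)
      (v : List (Fin 2)), A'.act (fun w => θ (u w)) (fun w => θ (f w)) v = θ (A.act u f v)) ∧
  (∀ (R S : Type) [CommRing R] (A : GFam R S) (c : R) (u : List S → R) (f : List (Fin 2) → R),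
    scaleF c (A.act u f) = A.act (fun w => c ^ A.wt w * u w) (scaleF c f))

/-- OPL (helper95): the lowest terms of `act u f`, when `u = 1` in the weights `< n`. -/
def SpecOPL : Prop :=
  ∀ (R S : Type) [CommRing R] (A : GFam R S) (n : ℕ) (u : List S → R) (f : List (Fin 2) → R),
    u [] = 1 → f [] = 1 → (∀ w : List S, w ≠ [] → A.wt w < n → u w = 0) → 1 ≤ n →
    (∀ v : List (Fin 2), v.length < n → A.act u f v = f v) ∧
    (∀ v : List (Fin 2), v.length = n → A.act u f v =
      f v + ∑ w ∈ (A.wd (n + 1)).filter (fun w => A.wt w = n), u w * cf (A.Lw w 1) v)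

/-- PRP (helper41): the action preserves the pentagon relation.

PROOF.  Let `𝕋` be the universal `N`-nilpotent braid algebra over `R`: generators `t i j`, the
infinitesimal braid relations, all words of length `N` vanish; `J` = the span of the non-empty
words; `IsNilp N J`.  (module `UNI`.)  It suffices to prove the relation in `𝕋`.
For each `s`, `SpecDFR` for the universal `t` gives a homomorphism
`𝕋 → TrivSqZeroExt 𝕋 𝕋`, `t ↦ t + ε d(s)` (the words of length `N` in the `t + ε d` vanish, since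
`d ∈ J`, compare `Nil.dual` in sig/Basic), i.e. a derivation `δ_s` of `𝕋`, `δ_s t_ij = d_ij`.
The faces `(a_i, b_i)`:  `F1 = (t01, t12+t13)`, `F2 = (t02+t12, t23)`, `F3 = (t12, t23)`,
`F4 = (t01+t02, t13+t23)`, `F5 = (t01, t12)`;  `Φ_i X = EV a_i b_i X`.  By `DefFacesR` one has
`δ_s a_i = [C_i + Φ_i Q, a_i]`, `δ_s b_i = [C_i, b_i]` with `C_1 = 0`, `C_2 = Φ_1 Q`, `C_3 = 0`,
`C_4 = Φ_3 Q`, `C_5 = Φ_3 Q + Φ_4 Q`, hence (`EV_defo` in sig/Basic)
`δ_s (Φ_i X) = Φ_i (D_s X) + [C_i, Φ_i X]`.  Put `Λ_s Z = δ_s Z + Z (Φ_1 Q + Φ_2 Q)`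
`= δ_s Z + Z (Φ_3 Q + Φ_4 Q + Φ_5 Q)` (the linear pentagon).  A computation gives
`Λ_s (Φ_1 X Φ_2 Y) = Φ_1 (L_s X) Φ_2 Y + Φ_1 X Φ_2 (L_s Y)` and
`Λ_s (Φ_3 X Φ_4 Y Φ_5 Z) = Φ_3 (L_s X) Φ_4 Y Φ_5 Z + ⋯`.
By `SpecSH2`, `SpecSH3`, with `F = trn N f`, `∑_w u_w Λ_w (Φ_1 F Φ_2 F) = Φ_1 (T_u F) Φ_2 (T_u F)`
and `∑_w u_w Λ_w (Φ_3 F Φ_4 F Φ_5 F) = Φ_3 (T_u F) Φ_4 (T_u F) Φ_5 (T_u F)`; the vanishing
conditions hold since `L_w X` has only terms of length `≥ wt w`.  The two left hand sides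
are equal by the pentagon relation of `f` in `𝕋`. -/
def SpecPRP : Prop :=
  ∀ (R S : Type) [CommRing R] [Algebra ℚ R] (A : GFam R S) (u : List S → R), IsGroupLike u →
    (∀ s, 2 ≤ A.dg s) → ∀ (N : ℕ) (f : List (Fin 2) → R), PentN R N f → PentN R N (A.act u f)

/-- PRD (helper9): the action preserves the 2-cycle relation.

PROOF.  As for the pentagon, in `AA R` modulo the words of length `≥ N` (the universal algebra
with two `N`-nilpotent elements `x`, `y`) with `δ = D_s`, `Φ_1 X = X`, `Φ_2 X = X(y, x)`, `C_1 = 0`,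
`C_2 = Q(x, y)`: `Φ_1 Q + Φ_2 Q = 0`, `Λ_s = D_s`, `Λ_s 1 = 0`.  -/
def SpecPRD : Prop :=
  ∀ (R S : Type) [CommRing R] [Algebra ℚ R] (A : GFam R S) (u : List S → R), IsGroupLike u →
    (∀ s, 2 ≤ A.dg s) → ∀ (N : ℕ) (f : List (Fin 2) → R), DualN R N f → DualN R N (A.act u f)

/-- PRH (helper9): the action preserves the hexagon relation.

PROOF.  In the same algebra, `a = x`, `b = y`, `c = -x-y`; `δ = D_s`; `q_1 = Q(a,b)`,
`q_2 = Q(b,c)`, `q_3 = Q(c,a)`, `q_1 + q_2 + q_3 = 0`, `[q_1, a] = [q_2, c]` (`IsGQ.hex` for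
`(b, a, c)` and `anti`), `δ a = [q_1, a]`, `δ b = 0`, `δ c = [-q_2, c]`.
`Φ_1 Z = Z(a,b)`, `Φ_2 Y = Y(b,c)`, `Φ_3 X = X(c,a)`, with `C_1 = 0`, `C_2 = -q_2`, `C_3 = q_1`.
For `W = e^{νa} Φ_3 X e^{νc} Φ_2 Y e^{νb} Φ_1 Z` one gets
`δ W - q_1 W + W q_1 = e^{νa} Φ_3 (L X) e^{νc} Φ_2 Y e^{νb} Φ_1 Z + ⋯` (three terms), since
`δ e^{νa} = [q_1, e^{νa}]`, `δ e^{νc} = [-q_2, e^{νc}]`, `δ e^{νb} = 0`,
`δ Φ_3 X = Φ_3 (L X) + q_1 Φ_3 X + Φ_3 X q_2`, `δ Φ_2 Y = Φ_2 (L Y) - q_2 Φ_2 Y`,
`δ Φ_1 Z = Φ_1 (L Z) - Φ_1 Z q_1`.  So `Λ_s W = δ W - q_1 W + W q_1`, `Λ_s 1 = 0`, `SpecSH3`. -/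
def SpecPRH : Prop :=
  ∀ (R S : Type) [CommRing R] [Algebra ℚ R] (A : GFam R S) (u : List S → R), IsGroupLike u →
    (∀ s, 2 ≤ A.dg s) → ∀ (N : ℕ) (ν : R) (f : List (Fin 2) → R),
      HexN R N ν f → HexN R N ν (A.act u f)

/-- PRG (helper9): the action preserves group-like series.

PROOF.  Two pairs `(a, b)`, `(a', b')` of letters, `𝔹` = the universal `N`-nilpotent algebra in which
they satisfy `Com2` (or `AA ⊗ AA` modulo the terms of total degree `≥ N`).  `δ_s` = the derivation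
`a ↦ [Q(a,b), a]`, `a' ↦ [Q(a',b'), a']`, `b, b' ↦ 0`, `Λ_s Z = δ_s Z + Z (Q(a,b) + Q(a',b'))`.
Then `Λ_s (X(a,b) Y(a',b')) = (L X)(a,b) Y(a',b') + X(a,b) (L Y)(a',b')` and (`IsGQ.prim`)
`Λ_s (X(a+a', b+b')) = (L X)(a+a', b+b')`.  Use `SpecGLE`, `SpecSH2`. -/
def SpecPRG : Prop :=
  ∀ (R S : Type) [CommRing R] [Algebra ℚ R] (A : GFam R S) (u : List S → R), IsGroupLike u →
    (∀ s, 2 ≤ A.dg s) → ∀ (N : ℕ) (f : List (Fin 2) → R), GlN R N f → GlN R N (A.act u f)

/-- PRA: the action preserves associators (follows from the four modules above). -/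
def SpecPRA : Prop :=
  ∀ (R S : Type) [CommRing R] [Algebra ℚ R] (A : GFam R S) (u : List S → R), IsGroupLike u →
    (∀ s, 2 ≤ A.dg s) → ∀ (N : ℕ) (μ : R) (f : List (Fin 2) → R),
      IsAssocN R N μ f → IsAssocN R N μ (A.act u f)

/-! ## Descent -/

/-- SHF (helper60): an associator has no linear terms.

PROOF.  Pentagon in `TrivSqZeroExt`-like algebras with `N = 2`: all products vanish; the pentagon
gives, for `f = 1 + α x + β y + ⋯`, `α t01 + β (t12 + t13) + α (t02 + t12) + β t23 =`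
`α t12 + β t23 + α (t01 + t02) + β (t13 + t23) + α t01 + β t12`, i.e. `0 = α t01 + β t23`
in an algebra where the six `t_ij` are linearly independent with all products zero. -/
def SpecSHF : Prop :=
  ∀ (R : Type) [CommRing R] [Algebra ℚ R] (N : ℕ) (μ : R) (f : List (Fin 2) → R), 2 ≤ N →
    IsAssocN R N μ f → f [0] = 0 ∧ f [1] = 0

/-- LIN (helper60): the lowest part of the difference of two associators (`K` is a field).

PROOF.  Let `Q = ∑_{|w|=m} (f'_w - f_w) w`.  As in sig/DIFF (and grp/Torsor, with `t = ε ee`, and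
sig/Asm: `isGRT_of`, `diff_part`): `Q` is primitive and satisfies the linear pentagon; so for
`m ≥ 3` `Q = assoc K ψ` with `IsGRT ψ`, and `SpecGQK`.  `m = 1`: `SpecSHF`.  `m = 2`: `Q` is
primitive, i.e. `Q = κ (xy - yx)`, and the hexagon (both with the same `μ`) gives
`Q(c,a) + Q(b,c) + Q(a,b) = 0`, i.e. `3 κ [a,b] = 0`. -/
def SpecLIN : Prop :=
  ∀ (K : Type) [Field K] [CharZero K] [Algebra ℚ K] (m : ℕ) (μ : K) (f f' : List (Fin 2) → K),
    1 ≤ m → IsAssocN K (m + 1) μ f → IsAssocN K (m + 1) μ f' →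
    (∀ w : List (Fin 2), w.length < m → f w = f' w) →
    ∀ Q : AA K, (∀ w, cf Q w = if w.length = m then f' w - f w else 0) →
      (m ≤ 2 → Q = 0) ∧ (3 ≤ m → IsGQ m Q)

/-- DSC (helper60; uses PRA, OPL, LIN): descent to `ℚ`.

PROOF.  Step: given `p` with `IsAssocN ℚ n 1 p`, there is `p'` with `IsAssocN ℚ (n+1) 1 p'` which
agrees with `p` at the words of length `< n`.  Take `Φ` with `IsAssocN ℂ (n+1) 1 Φ`; by induction
on `m = 1, …, n` there is such a `Φ` which agrees with `p` at the words of length `< m`: both are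
associators for `(m+1)`-nilpotent elements if `m < n` (base change of `p`), so that the difference
`Q` in degree `m` is `0` or satisfies `IsGQ m Q` (`SpecLIN`), and then one replaces `Φ` by
`act u Φ`, with the alphabet `S = Unit`, `dg = m`, `u w = 1 / |w|!` (it is group-like), which is
`Φ + Q` in degree `m`, and `Φ` in lower degrees (`SpecOPL`, `L_Q 1 = Q`), and an associator
(`SpecPRA`).  For `m = n`: let `r : ℂ → ℚ` be `ℚ`-linear, `r(1) = 1`, `p' w = p w` for
`|w| < n`, `p' w = r (Φ w)` for `|w| ≥ n`.  For a `ℚ`-algebra `E` with `IsNilp (n+1) I` the relations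
for `Φ` in `ℂ ⊗ E` are affine linear in the `Φ w`, `|w| = n` (a word of length `n` in elements of
`I` times an element of `I` is `0`), the other coefficients are rational: apply `r ⊗ id`.
Then dependent choice and `φ w = p_{|w|+1} w`. -/
def SpecDSC : Prop :=
  (∀ N, ∃ f : List (Fin 2) → ℂ, IsAssocN ℂ N 1 f) → ∃ φ : List (Fin 2) → ℚ, IsAssoc ℚ 1 φ

/-- BCH (helper60): base change and scaling of associators. -/
def SpecBCH : Prop :=
  (∀ (R R' : Type) [CommRing R] [Algebra ℚ R] [CommRing R'] [Algebra ℚ R'] (θ : R →+* R') (N : ℕ)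
    (μ : R) (f : List (Fin 2) → R), IsAssocN R N μ f → IsAssocN R' N (θ μ) (fun w => θ (f w))) ∧
  (∀ (R : Type) [CommRing R] [Algebra ℚ R] (c μ : R) (N : ℕ) (f : List (Fin 2) → R),
    IsAssocN R N μ f → IsAssocN R N (c * μ) (scaleF c f))

/-! ## From associators to `GT` -/

/-- EXL (helper83): exponential, logarithm and powers of unipotent elements.

PROOF.  For `powU (expU a) r = expU (r a)`: the coefficient of `a^j` in both sides is a polynomial
in `r` with coefficients in `ℚ`, equal for all natural numbers `r` (`g^r`, binomial theorem).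
`logU`: the coefficient of `r` in `powU g r` is `logU g`. `expU (logU g) = g`: `exp` maps onto
`1 + I` by successive approximation in the powers of `g - 1`. -/
def SpecEXL : Prop :=
  ∀ (R : Type) [CommRing R] [Algebra ℚ R] (E : Type) [Ring E] [Algebra R E] (N : ℕ)
    (I : Submodule R E), IsNilp N I →
    (∀ a ∈ I, expU R a - 1 ∈ I) ∧
    (∀ a ∈ I, logU R (expU R a) = a) ∧
    (∀ a ∈ I, ∀ r : R, powU (expU R a) r = expU R (r • a)) ∧
    (∀ g : E, g - 1 ∈ I → logU R g ∈ I ∧ expU R (logU R g) = g) ∧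
    (∀ a ∈ I, ∀ b ∈ I, a * b = b * a → expU R (a + b) = expU R a * expU R b) ∧
    (∀ a ∈ I, ∀ k : Eˣ, expU R (k * a * (k⁻¹ : Eˣ)) = k * expU R a * (k⁻¹ : Eˣ)) ∧
    (∀ g : E, g - 1 ∈ I → ∀ k : Eˣ, logU R (k * g * (k⁻¹ : Eˣ)) = k * logU R g * (k⁻¹ : Eˣ)) ∧
    (∀ a ∈ I, ∀ b ∈ I, expU R a = expU R b → a = b)

/-- INV (helper66): the series `f` with `f(φ a φ⁻¹, b) φ = g`.

PROOF.  Existence and uniqueness: recursion on the length of the words (the coefficients of
length `n` of `f(φ a φ⁻¹, b)` are those of `f` plus terms from lower lengths).  Group-like: test on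
commuting pairs.  Last part: iterate `a ↦ φ(a,b)⁻¹ a' φ(a,b)`. -/
def SpecINV : Prop :=
  (∀ (R : Type) [CommRing R] (φ g : List (Fin 2) → R), φ [] = 1 →
    ∃ f : List (Fin 2) → R, Rel φ f g ∧ ∀ f', Rel φ f' g → f' = f) ∧
  (∀ (R : Type) [CommRing R] (φ f g : List (Fin 2) → R), IsGroupLike φ → IsGroupLike g →
    Rel φ f g → IsGroupLike f) ∧
  (∀ (R : Type) [CommRing R] (φ : List (Fin 2) → R), φ [] = 1 → ∀ (E : Type) [Ring E]
    [Algebra R E] (N : ℕ) (I : Submodule R E), IsNilp N I → ∀ a' ∈ I, ∀ b ∈ I,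
      ∃ a ∈ I, ∃ p : Eˣ, (p : E) = val φ a b ∧ p * a * (p⁻¹ : Eˣ) = a')

/-- BRD (helper83): a pure braid group element for every family of infinitesimal braids.

Here `E` is a `ℚ`-algebra and `φ` a rational associator.
PROOF.  `p1 = φ(t01, t12+t13)`, `p2 = φ(t02+t12, t23)`, `p3 = φ(t12, t23)`,
`p4 = φ(t01+t02, t13+t23)`, `p5 = φ(t01, t12)`, `p1 p2 = p3 p4 p5`.
`x01 = p1 e^{t01} p1⁻¹`, `x12 = p3 e^{t12} p3⁻¹`, `x23 = e^{t23}`, `x13 = x12⁻¹ e^{t12+t13}`,
`x02 = x01⁻¹ p3 p4 e^{t01+t02} (p3 p4)⁻¹`, `x03 = (x01 x02)⁻¹ e^{t01+t02+t03}`.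
`XT`: `e01, e12, e23, e123, e0102, e0123` by definition; `e1323`: by the hexagon for
`(t12, t23, -t12-t23)` shifted by the central element of the algebra generated by `t12, t13, t23`
(`SpecSHC`); `e0212`: the same for the strands `0, (1), ...` with `p1, p2` and the pentagon.
Relations: tri(1,2,3): `x12 x13 x23 = e^{t12+t13+t23}` is central in the image of the strands
`1,2,3`; tri(0,1,2): the conjugates by `p1 p2 = p3 p4 p5`; far: `x01, x23` and `x03, x12`.
tri(0,1,3) and tri(0,2,3), cross: apply the automorphism-like substitution of the strands: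
`s` = the exchange of the indices `2, 3` (resp. `0, 1`) of `t`, `x ↦ e^{t23/2} s(x) e^{-t23/2}`
maps `x01, x02, x12` to `x01, x03, x13`; `g ↦ p1 e^{-t01/2} s01(p1⁻¹ g p1) e^{t01/2} p1⁻¹` maps
`x12, x13, x23` to `x02, x03, x23`, its square is the conjugation by `x01⁻¹`, and
`cross` is its value at the relation `x12 x03 = x03 x12`.  (To have the automorphisms `s` one works
in the universal `N`-nilpotent braid algebra, module `UNI`.) -/
def SpecBRD : Prop :=
  ∀ (φ : List (Fin 2) → ℚ), IsAssoc ℚ 1 φ → ∀ (E : Type) [Ring E] [Algebra ℚ E] (N : ℕ)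
    (I : Submodule ℚ E), IsNilp N I → ∀ t : Fin 4 → Fin 4 → E, Braid t → (∀ i j, t i j ∈ I) →
      ∃ x : Fin 4 → Fin 4 → Eˣ, PureBraid x ∧ (∀ i j, i < j → (x i j : E) - 1 ∈ I) ∧ XT φ x t

/-- SHC (helper83): shift by central elements, and the hexagon with `a + b + c = Z` central.

PROOF.  `f = 1 +` terms of degree `≥ 2` in a Lie series (`f` is group-like and without linear
terms, so `f = exp(ψ)` with `ψ` in the commutator ideal): with `Com2 a b z 0`:
`f(a + z, b) = f(a, b) f(z, 0)` by group-likeness, and `f(z, 0) = 1` as `f` is group-like with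
`f [0] = 0`: `f(x^n) = f(x)^n / n!`.  Hexagon: replace `c` by `c - Z`. -/
def SpecSHC : Prop :=
  ∀ (R : Type) [CommRing R] [Algebra ℚ R] (N : ℕ) (μ : R) (f : List (Fin 2) → R),
    IsAssocN R N μ f → ∀ (E : Type) [Ring E] [Algebra R E] (I : Submodule R E), IsNilp N I →
      (∀ a ∈ I, ∀ b ∈ I, ∀ z ∈ I, ∀ z' ∈ I, a * z = z * a → b * z = z * b → a * z' = z' * a →
        b * z' = z' * b → z * z' = z' * z → val f (a + z) (b + z') = val f a b) ∧
      (∀ a ∈ I, ∀ b ∈ I, a * b = b * a → val f a b = 1) ∧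
      (∀ a ∈ I, ∀ b ∈ I, ∀ c ∈ I, ∀ z ∈ I, a + b + c = z → a * z = z * a → b * z = z * b →
        ∀ ν : R, (2 * ν = μ ∨ 2 * ν = -μ) →
        expU R (ν • a) * val f c a * expU R (ν • c) * val f b c * expU R (ν • b) * val f a b =
          expU R (ν • z))

/-- PUN (helper36; uses BRD): every nilpotent family of pure braids comes from infinitesimal braids.

PROOF.  `𝔸` = the universal `N`-nilpotent pure braid algebra over `ℚ` (generators `X_ij = x_ij - 1`,
relations of the pure braid group, all words of length `N` in the `X_ij` vanish), `𝕋` = the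
universal `N`-nilpotent braid algebra.  `SpecBRD` gives a homomorphism `𝔸 → 𝕋`, `x_ij ↦` the
elements `x` of `𝕋`.  It is onto, as `X_ij ↦ t_ij` modulo `J²`.  It is injective: the graded algebra
of `𝔸` for the powers of its augmentation ideal is generated by the classes of the `X_ij`, which
satisfy the infinitesimal braid relations: so there is a surjection `𝕋_k → gr_k 𝔸`, and
`gr_k 𝔸 → gr_k 𝕋 = 𝕋_k` is its inverse.  Concretely: if a polynomial `P` in the `X_ij` with lowest
part `P_k` of degree `k < N` maps to `0` in `𝕋`, then `P_k(t) = 0` in `𝕋` (grading of `𝕋`), so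
`P_k` is a combination of `u r v`, `r` = a braid relation, `u, v` words, and `P` is equal in `𝔸` to
a polynomial with only terms of degree `≥ k + 1`.  Let `t` in `𝔸` correspond to `t` in `𝕋`; then
specialize `𝔸 → E`. -/
def SpecPUN : Prop :=
  ∀ (φ : List (Fin 2) → ℚ), IsAssoc ℚ 1 φ → ∀ (E : Type) [Ring E] [Algebra ℚ E] (N : ℕ)
    (I : Submodule ℚ E), IsNilp N I → ∀ x : Fin 4 → Fin 4 → Eˣ, PureBraid x →
      (∀ i j, i < j → (x i j : E) - 1 ∈ I) →
      ∃ t : Fin 4 → Fin 4 → E, Braid t ∧ (∀ i j, t i j ∈ I) ∧ XT φ x t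

/-- GTH: the 2-cycle and hexagon relations of `GT` (`λ` need not be invertible).

PROOF.  `x = φ e^a φ⁻¹`, `y = e^b` (`φ = φ(a,b)`, `SpecINV`, `SpecEXL`).  `f(x,y) = φ'(a,b) φ(a,b)⁻¹`,
`f(y,x) = φ(b,a)⁻¹ φ'(b,a)`.  Hexagon: `d = -a-b`; `z = e^{-b/2} φ(b,d)⁻¹ e^d φ(b,d) e^{b/2}` by the
hexagons of `φ` with `ν = ± 1/2`; `f(y,z) = e^{-b/2} φ(b,d)⁻¹ φ'(b,d) e^{b/2}`;
`f(z,x) = k φ(d,a)⁻¹ φ'(d,a) k⁻¹`, `k = e^{-b/2} φ(b,d)⁻¹ e^{-d/2}`, and the product is
`k φ(d,a)⁻¹ [φ'(d,a) e^{λd/2} φ'(b,d) e^{λb/2} φ'(a,b)] e^{ma} φ(a,b)⁻¹ = 1`. -/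
def SpecGTH : Prop :=
  ∀ (R : Type) [CommRing R] [Algebra ℚ R] (φ f φ' : List (Fin 2) → R) (lam : R),
    IsAssoc R 1 φ → IsAssoc R lam φ' → Rel φ f φ' →
    ∀ (E : Type) [Ring E] [Algebra R E] (N : ℕ) (I : Submodule R E), IsNilp N I →
      (∀ x y : E, x - 1 ∈ I → y - 1 ∈ I → app f x y * app f y x = 1) ∧
      (∀ x y z : E, x - 1 ∈ I → y - 1 ∈ I → z - 1 ∈ I → x * y * z = 1 →
        ∀ m : R, 2 * m + 1 = lam →
          app f z x * powU z m * app f y z * powU y m * app f x y * powU x m = 1)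

/-- GTP (uses PUN): the pentagon relation of `GT`.

PROOF.  `t` from `SpecPUN` (over `ℚ`), `p_i = φ(face i)`, `p_i' = φ'(face i)`:
`f(x01, x12 x13) = p1' p1⁻¹`, `f(x02 x12, x23) = p1 p2' p2⁻¹ p1⁻¹`, `f(x12, x23) = p3' p3⁻¹`,
`f(x01 x02, x13 x23) = p3 p4' p4⁻¹ p3⁻¹`, `f(x01, x12) = (p3 p4) p5' p5⁻¹ (p3 p4)⁻¹` (the last one by
`p1 p2 = p3 p4 p5`: `(p3 p4)⁻¹ x01 (p3 p4) = p5 e^{t01} p5⁻¹`, `(p3 p4)⁻¹ x12 (p3 p4) = e^{t12}`). -/
def SpecGTP : Prop :=
  ∀ (R : Type) [CommRing R] [Algebra ℚ R] (φ : List (Fin 2) → ℚ) (f φ' : List (Fin 2) → R)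
    (lam : R), IsAssoc ℚ 1 φ → IsAssoc R lam φ' → Rel (fun w => algebraMap ℚ R (φ w)) f φ' →
    ∀ (E : Type) [Ring E] [Algebra R E] (N : ℕ) (I : Submodule R E), IsNilp N I →
      ∀ x : Fin 4 → Fin 4 → Eˣ, PureBraid x → (∀ i j, i < j → (x i j : E) - 1 ∈ I) →
        app f (x 0 1 : E) (x 1 2 * x 1 3) * app f (x 0 2 * x 1 2 : E) (x 2 3) =
          app f (x 1 2 : E) (x 2 3) * app f (x 0 1 * x 0 2 : E) (x 1 3 * x 2 3) *
            app f (x 0 1 : E) (x 1 2)

/-! ## Injectivity -/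

/-- INJ: the action of group-like series on associators is free, for the family of the `σ_i`.

PROOF.  Let `v` be the inverse of `u'` times `u`: `act v F = F`, `F = f`.  If `v ≠ 1` let `n` be the
lowest weight with `v w ≠ 0` for some `w ≠ []` of weight `n`.  By `SpecOPL`
`∑_{wt w = n} v_w L_w(1) = 0`.  The component of weight `n` of `v` is primitive, so it is an
`R`-combination of rational Lie polynomials `P_j` (grp/Prim, grp/Src: `PH`, `sN`, ...), which one
may take linearly independent over `ℚ`; `L_{[P,P']} = [L_P, L_{P'}]` and `L_σ(1) = Q_σ` give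
`L_P(1) = assoc (Φ P)` where `Φ` is the homomorphism from the free Lie algebra to `grt₁` (Ihara
bracket) with `σ_i ↦ ψ_i`, which is injective by the theorem DDI (ddi/Assemble:
`exists_of_sigma`); so the `L_{P_j}(1)` are linearly independent over `ℚ`, and in `R ⊗ AA ℚ` over
`R`. -/
def SpecINJ : Prop :=
  ∀ (σ : ℕ → F2 ℚ), (∀ i, IsGRT (σ i)) → (∀ i (w : List (Fin 2)), w.length ≠ 2 * i + 3 → coef (σ i) w = 0) →
    (∀ i, coef (σ i) (List.replicate (2 * i + 2) 0 ++ [1]) ≠ 0) →
    ∀ (R : Type) [CommRing R] [Algebra ℚ R] (A : GFam R ℕ), (∀ i, A.dg i = 2 * i + 3) →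
      (∀ i, A.Q i = bcP (algebraMap ℚ R) (assoc ℚ (σ i))) →
      ∀ (u u' : List ℕ → R), IsGroupLike u → IsGroupLike u' → ∀ f : List (Fin 2) → R, f [] = 1 →
        A.act u f = A.act u' f → u = u'

/-! ## The result -/

/-- FIN (helper66) -/
def SpecFIN : Prop :=
  ∃ ρ : ∀ (R : Type) [CommRing R] [Algebra ℚ R], Mot R → GT R, IsMonomorphism ρ

end MP446U
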