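import Pool.Agent.Lib.MP_446dfa_ag.unc.Base
import Pool.Agent.Lib.MP_446dfa_ag.unc.Spec
import Pool.Agent.Lib.MP_446dfa_ag.unc.BRDa

set_option linter.all false

/-!
# BRD: a pure braid group element for every family of infinitesimal braids
-/

noncomputable section

namespace MP446U.BRDM

open MP446 MP446Y MP446Z MP446S MP446I MP446U

section

variable {E : Type} [Ring E] [Algebra ℚ E] {N : ℕ} {I : Submodule ℚ E} (hI : IsNilp N I)
  {φ : List (Fin 2) → ℚ} (hφ : IsAssocN ℚ N 1 φ)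

/-- the unit `φ(x, y)` -/
def fu (x y : I) : Eˣ :=
  ⟨val φ (x : E) y, val φ (y : E) x, hφ.dual E I hI _ x.2 _ y.2, hφ.dual E I hI _ y.2 _ x.2⟩

/-- the shift property of a series -/
def Sh (φ : List (Fin 2) → ℚ) (I : Submodule ℚ E) : Prop :=
  ∀ a ∈ I, ∀ b ∈ I, ∀ z ∈ I, ∀ z' ∈ I, a * z = z * a → b * z = z * b → a * z' = z' * a →
    b * z' = z' * b → z * z' = z' * z → val φ (a + z) (b + z') = val φ a b

/-- the data -/
def bs (hsh : Sh φ I) : BS (↥I) Eˣ where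
  C x y := (x : E) * y = y * x
  symm h := h.symm
  add {x y z} h h' := by
    show (x : E) * (y + z) = (y + z) * x
    rw [mul_add, add_mul, h, h']
  smul r {x y} h := by
    show (x : E) * (r • y) = (r • y) * x
    rw [mul_smul_comm, smul_mul_assoc, h]
  self x := rfl
  e x := expUu hI x.2
  f x y := fu hI hφ x y
  ee {x y} h := by
    apply Units.ext
    exact expU_add (pow_zero' hI x.2) (pow_zero' hI y.2) h
  fe {x y z} h h' := by
    apply Units.ext
    exact ((expU_comm hI z.2 (val_commute hI x.2 y.2 φ h.symm h'.symm).symm)).eq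
  f2 x y := by
    apply Units.ext
    exact hφ.dual E I hI _ x.2 _ y.2
  sh {x y z} h h' := by
    apply Units.ext
    have := hsh x x.2 y y.2 z z.2 0 I.zero_mem h.symm h'.symm (by simp) (by simp) (by simp)
    rw [add_zero] at this
    exact this
  hexp {x y z} h := by
    apply Units.ext
    have h' : (x : E) + y + z = 0 := congrArg Subtype.val h
    exact hφ.hex E I hI x x.2 y y.2 z z.2 h' (1 / 2) (Or.inl (by norm_num))
  hexm {x y z} h := by
    apply Units.ext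
    have h' : (x : E) + y + z = 0 := congrArg Subtype.val h
    exact hφ.hex E I hI x x.2 y y.2 z z.2 h' (-1 / 2) (Or.inr (by norm_num))

variable {t : Fin 4 → Fin 4 → E} (B : Braid t) (ht : ∀ i j, t i j ∈ I)

include B in
lemma braid_perm (π : Equiv.Perm (Fin 4)) : Braid (fun i j => t (π i) (π j)) where
  symm i j := B.symm _ _
  comm i j k l h1 h2 h3 h4 h5 h6 :=
    B.comm _ _ _ _ (π.injective.ne h1) (π.injective.ne h2) (π.injective.ne h3)
      (π.injective.ne h4) (π.injective.ne h5) (π.injective.ne h6)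
  rel i j k h1 h2 h3 := B.rel _ _ _ (π.injective.ne h1) (π.injective.ne h2) (π.injective.ne h3)

/-- `t i j` as an element of `I` -/
def tI (i j : Fin 4) : I := ⟨t i j, ht i j⟩

include B in
lemma pent' (hsh : Sh φ I) (p : Fin 4 → Fin 4) (hp : Function.Injective p) :
    (bs hI hφ hsh).f (tI ht (p 0) (p 1)) (tI ht (p 1) (p 2) + tI ht (p 1) (p 3)) *
      (bs hI hφ hsh).f (tI ht (p 0) (p 2) + tI ht (p 1) (p 2)) (tI ht (p 2) (p 3)) =
    (bs hI hφ hsh).f (tI ht (p 1) (p 2)) (tI ht (p 2) (p 3)) *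
      (bs hI hφ hsh).f (tI ht (p 0) (p 1) + tI ht (p 0) (p 2))
        (tI ht (p 1) (p 3) + tI ht (p 2) (p 3)) *
      (bs hI hφ hsh).f (tI ht (p 0) (p 1)) (tI ht (p 1) (p 2)) := by
  apply Units.ext
  have hb : Braid (fun i j => t (p i) (p j)) :=
    ⟨fun i j => B.symm _ _, fun i j k l h1 h2 h3 h4 h5 h6 => B.comm _ _ _ _ (hp.ne h1) (hp.ne h2)
      (hp.ne h3) (hp.ne h4) (hp.ne h5) (hp.ne h6), fun i j k h1 h2 h3 => B.rel _ _ _ (hp.ne h1)
      (hp.ne h2) (hp.ne h3)⟩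
  exact hφ.pent E I hI _ hb (fun i j => ht _ _)

include B in
lemma tI_symm (i j : Fin 4) : tI ht i j = tI ht j i := Subtype.ext (B.symm i j)

include B in
lemma tI_comm (hsh : Sh φ I) (i j k l : Fin 4) (h : [i, j, k, l].Nodup) :
    (bs hI hφ hsh).C (tI ht i j) (tI ht k l) := by
  simp only [List.nodup_cons, List.mem_cons, List.not_mem_nil, or_false, not_or, not_false_eq_true,
    List.nodup_nil, and_true] at h
  obtain ⟨⟨h1, h2, h3⟩, ⟨h4, h5⟩, h6⟩ := h
  exact B.comm i j k l h1 h2 h3 h4 h5 h6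

include B in
lemma tI_rel (hsh : Sh φ I) (i j k : Fin 4) (h : [i, j, k].Nodup) :
    (bs hI hφ hsh).C (tI ht i j) (tI ht i k + tI ht j k) := by
  simp only [List.nodup_cons, List.mem_cons, List.not_mem_nil, or_false, not_or, not_false_eq_true,
    List.nodup_nil, and_true] at h
  obtain ⟨⟨h1, h2⟩, h3⟩ := h
  exact B.rel i j k h1 h2 h3

include B in
lemma fam (hsh : Sh φ I) : Fam (bs hI hφ hsh) (tI ht 0 1) (tI ht 0 2) (tI ht 0 3) (tI ht 1 2)
    (tI ht 1 3) (tI ht 2 3) where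
  av := tI_comm hI hφ B ht hsh 0 1 2 3 (by decide)
  bu := tI_comm hI hφ B ht hsh 0 2 1 3 (by decide)
  cd := tI_comm hI hφ B ht hsh 0 3 1 2 (by decide)
  a_bd := tI_rel hI hφ B ht hsh 0 1 2 (by decide)
  b_ad := by
    have := tI_rel hI hφ B ht hsh 0 2 1 (by decide)
    rwa [tI_symm B ht 2 1] at this
  d_ab := by
    have := tI_rel hI hφ B ht hsh 1 2 0 (by decide)
    rwa [tI_symm B ht 1 0, tI_symm B ht 2 0] at this
  a_cu := tI_rel hI hφ B ht hsh 0 1 3 (by decide)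
  c_au := by
    have := tI_rel hI hφ B ht hsh 0 3 1 (by decide)
    rwa [tI_symm B ht 3 1] at this
  u_ac := by
    have := tI_rel hI hφ B ht hsh 1 3 0 (by decide)
    rwa [tI_symm B ht 1 0, tI_symm B ht 3 0] at this
  b_cv := tI_rel hI hφ B ht hsh 0 2 3 (by decide)
  c_bv := by
    have := tI_rel hI hφ B ht hsh 0 3 2 (by decide)
    rwa [tI_symm B ht 3 2] at this
  v_bc := by
    have := tI_rel hI hφ B ht hsh 2 3 0 (by decide)
    rwa [tI_symm B ht 2 0, tI_symm B ht 3 0] at this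
  d_uv := tI_rel hI hφ B ht hsh 1 2 3 (by decide)
  u_dv := by
    have := tI_rel hI hφ B ht hsh 1 3 2 (by decide)
    rwa [tI_symm B ht 3 2] at this
  v_du := by
    have := tI_rel hI hφ B ht hsh 2 3 1 (by decide)
    rwa [tI_symm B ht 2 1, tI_symm B ht 3 1] at this
  p0123 := pent' hI hφ B ht hsh id Function.injective_id
  p0132 := by
    have := pent' hI hφ B ht hsh ![0, 1, 3, 2] (by decide)
    simp only [Matrix.cons_val] at this
    rwa [tI_symm B ht 3 2] at this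
  p1023 := by
    have := pent' hI hφ B ht hsh ![1, 0, 2, 3] (by decide)
    simp only [Matrix.cons_val] at this
    rwa [tI_symm B ht 1 0] at this
  p0231 := by
    have := pent' hI hφ B ht hsh ![0, 2, 3, 1] (by decide)
    simp only [Matrix.cons_val] at this
    rwa [tI_symm B ht 3 1, tI_symm B ht 2 1] at this

/-- the matrix of the pure braids -/
def xm {A G : Type*} [AddCommGroup A] [Module ℚ A] [Group G] (S : BS A G) (a b c d u v : A) :
    Fin 4 → Fin 4 → G :=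
  ![![1, x01 S a d u, x02 S a b d u v, x03 S a b c d u v], ![1, 1, x12 S d v, x13 S d u v],
    ![1, 1, 1, x23 S v], ![1, 1, 1, 1]]

lemma pure {A G : Type} [AddCommGroup A] [Module ℚ A] [Group G] {S : BS A G} {a b c d u v : A}
    (F : Fam S a b c d u v) : PureBraid (xm S a b c d u v) where
  tri := by
    intro i j k hij hjk
    have h : (i = 0 ∧ j = 1 ∧ k = 2) ∨ (i = 0 ∧ j = 1 ∧ k = 3) ∨ (i = 0 ∧ j = 2 ∧ k = 3) ∨
        (i = 1 ∧ j = 2 ∧ k = 3) := by
      revert i j k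
      decide
    rcases h with ⟨rfl, rfl, rfl⟩ | ⟨rfl, rfl, rfl⟩ | ⟨rfl, rfl, rfl⟩ | ⟨rfl, rfl, rfl⟩
    · exact ⟨F.t012_01, F.t012_02, F.t012_12⟩
    · exact ⟨F.t013_01, F.t013_03, F.t013_13⟩
    · exact ⟨F.t023_02, F.t023_03, F.t023_23⟩
    · exact ⟨F.t123_12, F.t123_13, F.t123_23⟩
  far := ⟨F.l4a, F.l4b⟩
  cross := F.cross

/-- `1 + I` is a group -/
def U1 : Subgroup Eˣ where
  carrier := {g | (g : E) - 1 ∈ I}
  mul_mem' {g h} hg hh := mul_sub_one_mem hI hg hh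
  one_mem' := by
    show ((1 : Eˣ) : E) - 1 ∈ I
    rw [Units.val_one, sub_self]
    exact I.zero_mem
  inv_mem' {g} hg := unit_inv_mem hI hg

lemma e_mem (hsh : Sh φ I) (x : I) : (bs hI hφ hsh).e x ∈ U1 hI := expU_sub_one_mem hI x.2

lemma f_mem (hsh : Sh φ I) (x y : I) : (bs hI hφ hsh).f x y ∈ U1 hI :=
  val_sub_one_mem hI x.2 y.2 hφ.one

lemma cj_mem {G : Type*} [Group G] (H : Subgroup G) {g x : G} (hg : g ∈ H) (hx : x ∈ H) :
    cj g x ∈ H := H.mul_mem (H.mul_mem hg hx) (H.inv_mem hg)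

lemma xm_mem (hsh : Sh φ I) (a b c d u v : I) (i j : Fin 4) :
    xm (bs hI hφ hsh) a b c d u v i j ∈ U1 hI := by
  have he := e_mem hI hφ hsh
  have hf := f_mem hI hφ hsh
  have hy : yy (bs hI hφ hsh) a b d u v ∈ U1 hI := (U1 hI).mul_mem (hf _ _) (hf _ _)
  have h01 : x01 (bs hI hφ hsh) a d u ∈ U1 hI := cj_mem _ (hf _ _) (he _)
  have h12 : x12 (bs hI hφ hsh) d v ∈ U1 hI := cj_mem _ (hf _ _) (he _)
  have h23 : x23 (bs hI hφ hsh) v ∈ U1 hI := he _
  have h13 : x13 (bs hI hφ hsh) d u v ∈ U1 hI := (U1 hI).mul_mem ((U1 hI).inv_mem h12) (he _)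
  have h02 : x02 (bs hI hφ hsh) a b d u v ∈ U1 hI :=
    (U1 hI).mul_mem (cj_mem _ hy (he _)) ((U1 hI).inv_mem h12)
  have h03 : x03 (bs hI hφ hsh) a b c d u v ∈ U1 hI :=
    (U1 hI).mul_mem (cj_mem _ hy (he _)) ((U1 hI).inv_mem ((U1 hI).mul_mem h13 h23))
  have h1 := (U1 hI).one_mem
  fin_cases i <;> fin_cases j
  · exact h1
  · exact h01
  · exact h02
  · exact h03
  · exact h1
  · exact h1
  · exact h12
  · exact h13
  · exact h1
  · exact h1
  · exact h1
  · exact h23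
  · exact h1
  · exact h1
  · exact h1
  · exact h1

include B in
lemma xt (hsh : Sh φ I) : XT φ (xm (bs hI hφ hsh) (tI ht 0 1) (tI ht 0 2) (tI ht 0 3) (tI ht 1 2)
    (tI ht 1 3) (tI ht 2 3)) t := by
  have F := fam hI hφ B ht hsh
  constructor
  · have h : x01 (bs hI hφ hsh) (tI ht 0 1) (tI ht 1 2) (tI ht 1 3) *
        (bs hI hφ hsh).f (tI ht 0 1) (tI ht 1 2 + tI ht 1 3) =
        (bs hI hφ hsh).f (tI ht 0 1) (tI ht 1 2 + tI ht 1 3) * (bs hI hφ hsh).e (tI ht 0 1) := by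
      unfold x01 cj
      group
    exact congrArg Units.val h
  · have h : x12 (bs hI hφ hsh) (tI ht 1 2) (tI ht 2 3) *
        (bs hI hφ hsh).f (tI ht 1 2) (tI ht 2 3) =
        (bs hI hφ hsh).f (tI ht 1 2) (tI ht 2 3) * (bs hI hφ hsh).e (tI ht 1 2) := by
      unfold x12 cj
      group
    exact congrArg Units.val h
  · rfl
  · have h : x12 (bs hI hφ hsh) (tI ht 1 2) (tI ht 2 3) *
        x13 (bs hI hφ hsh) (tI ht 1 2) (tI ht 1 3) (tI ht 2 3) =
        (bs hI hφ hsh).e (tI ht 1 2 + tI ht 1 3) := by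
      unfold x13
      rw [mul_inv_cancel_left]
    exact congrArg Units.val h
  · have h : x02 (bs hI hφ hsh) (tI ht 0 1) (tI ht 0 2) (tI ht 1 2) (tI ht 1 3) (tI ht 2 3) *
        x12 (bs hI hφ hsh) (tI ht 1 2) (tI ht 2 3) *
        yy (bs hI hφ hsh) (tI ht 0 1) (tI ht 0 2) (tI ht 1 2) (tI ht 1 3) (tI ht 2 3) =
        yy (bs hI hφ hsh) (tI ht 0 1) (tI ht 0 2) (tI ht 1 2) (tI ht 1 3) (tI ht 2 3) *
        (bs hI hφ hsh).e (tI ht 0 2 + tI ht 1 2) := by
      unfold x02 cj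
      group
    exact congrArg Units.val h
  · have h : x01 (bs hI hφ hsh) (tI ht 0 1) (tI ht 1 2) (tI ht 1 3) *
        x02 (bs hI hφ hsh) (tI ht 0 1) (tI ht 0 2) (tI ht 1 2) (tI ht 1 3) (tI ht 2 3) *
        ((bs hI hφ hsh).f (tI ht 1 2) (tI ht 2 3) *
          (bs hI hφ hsh).f (tI ht 0 1 + tI ht 0 2) (tI ht 1 3 + tI ht 2 3)) =
        ((bs hI hφ hsh).f (tI ht 1 2) (tI ht 2 3) *
          (bs hI hφ hsh).f (tI ht 0 1 + tI ht 0 2) (tI ht 1 3 + tI ht 2 3)) *
        (bs hI hφ hsh).e (tI ht 0 1 + tI ht 0 2) := by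
      rw [F.l3']
      unfold cj
      group
    exact congrArg Units.val h
  · have h : x13 (bs hI hφ hsh) (tI ht 1 2) (tI ht 1 3) (tI ht 2 3) *
        x23 (bs hI hφ hsh) (tI ht 2 3) * (bs hI hφ hsh).f (tI ht 1 2) (tI ht 2 3) =
        (bs hI hφ hsh).f (tI ht 1 2) (tI ht 2 3) * (bs hI hφ hsh).e (tI ht 1 3 + tI ht 2 3) := by
      rw [F.l1']
      unfold cj
      group
    exact congrArg Units.val h
  · exact congrArg Units.val F.l5

end

/-- the theorem for one `N` -/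
theorem brdN (hSHC : SpecSHC) (N : ℕ) (φ : List (Fin 2) → ℚ) (hφ : IsAssocN ℚ N 1 φ) (E : Type)
    [Ring E] [Algebra ℚ E] (I : Submodule ℚ E) (hI : IsNilp N I) (t : Fin 4 → Fin 4 → E)
    (B : Braid t) (ht : ∀ i j, t i j ∈ I) :
    ∃ x : Fin 4 → Fin 4 → Eˣ, PureBraid x ∧ (∀ i j, i < j → (x i j : E) - 1 ∈ I) ∧ XT φ x t := by
  have hsh : Sh φ I := (hSHC ℚ N 1 φ hφ E I hI).1
  exact ⟨_, pure (fam hI hφ B ht hsh), fun i j _ => xm_mem hI hφ hsh _ _ _ _ _ _ i j,
    xt hI hφ B ht hsh⟩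

end MP446U.BRDM

namespace MP446U

open MP446 MP446Y MP446Z MP446S MP446I

theorem specBRD (hSHC : SpecSHC) : SpecBRD := fun φ hφ E _ _ N I hI t B ht =>
  BRDM.brdN hSHC N φ (hφ N) E I hI t B ht

end MP446U
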