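import Pool.Agent.Lib.MP_446dfa_ag.unc.Spec
import Pool.Agent.Lib.MP_446dfa_ag.sig.DEF

set_option linter.all false

/-!
# Module DFR: the deformation `t + ε d` of a family `t`, over a commutative ring
-/

noncomputable section

namespace MP446U

open MP446 MP446Y MP446Z MP446S MP446I

attribute [local instance 100] LieRing.ofAssociativeRing

namespace DEFRM

open MP446S.DEFM (Cfg DD_swap DD_inner tri)

variable {E : Type} [Ring E]


lemma com_of {x dx y dy : E} (h : x * y = y * x) (h' : DEFM.DD x dx y dy = 0) :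
    (TrivSqZeroExt.inl x + TrivSqZeroExt.inr dx : TrivSqZeroExt E E) *
      (TrivSqZeroExt.inl y + TrivSqZeroExt.inr dy) =
    (TrivSqZeroExt.inl y + TrivSqZeroExt.inr dy) *
      (TrivSqZeroExt.inl x + TrivSqZeroExt.inr dx) := by
  unfold DEFM.DD at h'
  rw [LieRing.of_associative_ring_bracket, LieRing.of_associative_ring_bracket] at h'
  ext
  · simpa using h
  · simp only [TrivSqZeroExt.snd_mul, TrivSqZeroExt.fst_add, TrivSqZeroExt.snd_add,
      TrivSqZeroExt.fst_inl, TrivSqZeroExt.fst_inr, TrivSqZeroExt.snd_inl, TrivSqZeroExt.snd_inr,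
      add_zero, zero_add, smul_eq_mul, MulOpposite.smul_eq_mul_unop, MulOpposite.unop_op]
    have : x * dy + dx * y - (y * dx + dy * x) = 0 := by
      rw [← h']; abel
    exact sub_eq_zero.1 this

lemma inl_inr_add (x dx y dy : E) :
    (TrivSqZeroExt.inl x + TrivSqZeroExt.inr dx : TrivSqZeroExt E E) +
      (TrivSqZeroExt.inl y + TrivSqZeroExt.inr dy) =
    TrivSqZeroExt.inl (x + y) + TrivSqZeroExt.inr (dx + dy) := by
  rw [TrivSqZeroExt.inl_add, TrivSqZeroExt.inr_add]; abel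

lemma lie_zero_of {x y : E} (h : x * y = y * x) : ⁅x, y⁆ = 0 := by
  rw [LieRing.of_associative_ring_bracket, h, sub_self]

lemma comm_of_lie {x y : E} (h : ⁅x, y⁆ = 0) : x * y = y * x := by
  rw [LieRing.of_associative_ring_bracket] at h
  exact sub_eq_zero.1 h

variable {R : Type} [CommRing R] [Algebra R E]

lemma EV_lie (x y z : E) (Q : AA R) (h1 : ⁅x, z⁆ = 0) (h2 : ⁅y, z⁆ = 0) : ⁅EV x y Q, z⁆ = 0 :=
  lie_zero_of (EV_commute (k := R) (comm_of_lie h1) (comm_of_lie h2) Q)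

/-- central shifts -/
lemma shift {n : ℕ} {Q : AA R} (hQ : IsGQ n Q) (x y z w : E) (h1 : x * z = z * x)
    (h2 : y * z = z * y) (h3 : x * w = w * x) (h4 : y * w = w * y) (h5 : z * w = w * z) :
    EV (x + z) (y + w) Q = EV x y Q := by
  rw [hQ.prim E x y z w ⟨h1, h3, h2, h4⟩, hQ.zero E z w h5, add_zero]

/-- the hexagon relation, for three elements whose sum is central -/
lemma hx {n : ℕ} {Q : AA R} (hQ : IsGQ n Q) (x y z : E) (h1 : ⁅x, y + z⁆ = 0)
    (h2 : ⁅y, x + z⁆ = 0) (h3 : ⁅z, x + y⁆ = 0) : ⁅y, EV x y Q⁆ + ⁅z, EV x z Q⁆ = 0 := by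
  have e := hQ.hex E x y (-x - y) (by abel)
  have hx : ⁅x, x + y + z⁆ = 0 := by
    rw [add_assoc, lie_add, lie_self, zero_add, h1]
  have hz : ⁅z, x + y + z⁆ = 0 := by
    rw [show x + y + z = z + (x + y) by abel, lie_add, lie_self, zero_add, h3]
  have cx : x * (x + y + z) = (x + y + z) * x := comm_of_lie hx
  have cz : z * (x + y + z) = (x + y + z) * z := comm_of_lie hz
  have s := shift hQ x z 0 (-(x + y + z)) (by simp) (by simp) (by
    rw [mul_neg, neg_mul, cx]) (by rw [mul_neg, neg_mul, cz]) (by simp)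
  have e1 : z + -(x + y + z) = -x - y := by abel
  rw [add_zero, e1] at s
  rw [s] at e
  have e' : ⁅y, EV x y Q⁆ + ⁅-x - y, EV x z Q⁆ = 0 := e
  have c2 : ⁅x + y + z, EV x z Q⁆ = 0 := by
    rw [LieRing.of_associative_ring_bracket, sub_eq_zero]
    exact (EV_commute (k := R) cx cz Q).symm
  have e2 : -x - y = z - (x + y + z) := by abel
  rw [e2, sub_lie, c2, sub_zero] at e'
  exact e'

lemma cfg_of {n : ℕ} {Q : AA R} (hQ : IsGQ n Q) {t d : Fin 4 → Fin 4 → E}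
    (ht : Braid t) (hd : DefR Q t d) :
    Cfg (t 0 1) (t 1 2) (t 2 3) (t 0 2) (t 1 3) (t 0 3)
      (EV (t 0 1) (t 1 2 + t 1 3) Q) (EV (t 0 2 + t 1 2) (t 2 3) Q) (EV (t 1 2) (t 2 3) Q)
      (EV (t 0 1 + t 0 2) (t 1 3 + t 2 3) Q) (EV (t 0 1) (t 1 2) Q)
      (EV (t 1 2) (t 1 3) Q) (EV (t 0 2) (t 1 2 + t 2 3) Q) (EV (t 0 2) (t 1 2) Q)
      (EV (t 0 1 + t 1 2) (t 1 3) Q)
      (d 0 1) (d 0 2) (d 0 3) (d 1 2) (d 1 3) (d 2 3) := by
  have y10 := ht.symm 1 0
  have y20 := ht.symm 2 0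
  have y30 := ht.symm 3 0
  have y21 := ht.symm 2 1
  have y31 := ht.symm 3 1
  have y32 := ht.symm 3 2
  have R : ∀ i j k : Fin 4, i ≠ j → i ≠ k → j ≠ k → ⁅t i j, t i k + t j k⁆ = 0 :=
    fun i j k h1 h2 h3 => lie_zero_of (ht.rel i j k h1 h2 h3)
  have C : ∀ i j k l : Fin 4, i ≠ j → i ≠ k → i ≠ l → j ≠ k → j ≠ l → k ≠ l →
      ⁅t i j, t k l⁆ = 0 := fun i j k l h1 h2 h3 h4 h5 h6 =>
    lie_zero_of (ht.comm i j k l h1 h2 h3 h4 h5 h6)
  have ac : ⁅t 0 1, t 2 3⁆ = 0 := C 0 1 2 3 (by decide) (by decide) (by decide) (by decide)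
    (by decide) (by decide)
  have ef : ⁅t 0 2, t 1 3⁆ = 0 := C 0 2 1 3 (by decide) (by decide) (by decide) (by decide)
    (by decide) (by decide)
  have gb : ⁅t 0 3, t 1 2⁆ = 0 := C 0 3 1 2 (by decide) (by decide) (by decide) (by decide)
    (by decide) (by decide)
  have a_eb : ⁅t 0 1, t 0 2 + t 1 2⁆ = 0 := R 0 1 2 (by decide) (by decide) (by decide)
  have e_ab : ⁅t 0 2, t 0 1 + t 1 2⁆ = 0 := by
    have := R 0 2 1 (by decide) (by decide) (by decide); rwa [y21] at this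
  have b_ae : ⁅t 1 2, t 0 1 + t 0 2⁆ = 0 := by
    have := R 1 2 0 (by decide) (by decide) (by decide); rwa [y10, y20] at this
  have a_gf : ⁅t 0 1, t 0 3 + t 1 3⁆ = 0 := R 0 1 3 (by decide) (by decide) (by decide)
  have g_af : ⁅t 0 3, t 0 1 + t 1 3⁆ = 0 := by
    have := R 0 3 1 (by decide) (by decide) (by decide); rwa [y31] at this
  have f_ag : ⁅t 1 3, t 0 1 + t 0 3⁆ = 0 := by
    have := R 1 3 0 (by decide) (by decide) (by decide); rwa [y10, y30] at this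
  have e_gc : ⁅t 0 2, t 0 3 + t 2 3⁆ = 0 := R 0 2 3 (by decide) (by decide) (by decide)
  have g_ec : ⁅t 0 3, t 0 2 + t 2 3⁆ = 0 := by
    have := R 0 3 2 (by decide) (by decide) (by decide); rwa [y32] at this
  have c_eg : ⁅t 2 3, t 0 2 + t 0 3⁆ = 0 := by
    have := R 2 3 0 (by decide) (by decide) (by decide); rwa [y20, y30] at this
  have b_fc : ⁅t 1 2, t 1 3 + t 2 3⁆ = 0 := R 1 2 3 (by decide) (by decide) (by decide)
  have f_bc : ⁅t 1 3, t 1 2 + t 2 3⁆ = 0 := by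
    have := R 1 3 2 (by decide) (by decide) (by decide); rwa [y32] at this
  have c_bf : ⁅t 2 3, t 1 2 + t 1 3⁆ = 0 := by
    have := R 2 3 1 (by decide) (by decide) (by decide); rwa [y21, y31] at this
  -- pentagons
  have pent := hQ.pent E t ht
  unfold PLt at pent
  let σ : Equiv.Perm (Fin 4) := Equiv.swap 1 2
  have BR : Braid (fun i j => t (σ i) (σ j)) := by
    refine ⟨fun i j => ht.symm _ _, fun i j k l h1 h2 h3 h4 h5 h6 => ?_, fun i j k h1 h2 h3 => ?_⟩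
    · exact ht.comm _ _ _ _ (σ.injective.ne h1) (σ.injective.ne h2) (σ.injective.ne h3)
        (σ.injective.ne h4) (σ.injective.ne h5) (σ.injective.ne h6)
    · exact ht.rel _ _ _ (σ.injective.ne h1) (σ.injective.ne h2) (σ.injective.ne h3)
  have pent' := hQ.pent E _ BR
  unfold PLt at pent'
  have σ0 : σ 0 = 0 := by decide
  have σ1 : σ 1 = 2 := by decide
  have σ2 : σ 2 = 1 := by decide
  have σ3 : σ 3 = 3 := by decide
  simp only [σ0, σ1, σ2, σ3, y21] at pent'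
  -- commutation with the sum
  have neg_of : ∀ {x y : E}, ⁅x, y⁆ = 0 → ⁅y, x⁆ = 0 := by
    intro x y h; rw [← lie_skew, h, neg_zero]
  have sS : ∀ x y : E, ⁅x, t 0 1 + t 1 2 + t 2 3 + t 0 2 + t 1 3 + t 0 3⁆ = 0 →
      ⁅y, t 0 1 + t 1 2 + t 2 3 + t 0 2 + t 1 3 + t 0 3⁆ = 0 →
      ⁅EV x y Q, t 0 1 + t 1 2 + t 2 3 + t 0 2 + t 1 3 + t 0 3⁆ = 0 :=
    fun x y h1 h2 => EV_lie x y _ Q h1 h2
  have ca : ⁅t 0 1, t 0 1 + t 1 2 + t 2 3 + t 0 2 + t 1 3 + t 0 3⁆ = 0 := by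
    rw [show t 0 1 + t 1 2 + t 2 3 + t 0 2 + t 1 3 + t 0 3 = t 0 1 + (t 0 2 + t 1 2) + t 2 3 +
      (t 0 3 + t 1 3) by abel, lie_add, lie_add, lie_add, lie_self, a_eb, ac, a_gf]
    abel
  have cb : ⁅t 1 2, t 0 1 + t 1 2 + t 2 3 + t 0 2 + t 1 3 + t 0 3⁆ = 0 := by
    rw [show t 0 1 + t 1 2 + t 2 3 + t 0 2 + t 1 3 + t 0 3 = t 1 2 + (t 0 1 + t 0 2) +
      (t 1 3 + t 2 3) + t 0 3 by abel, lie_add, lie_add, lie_add, lie_self, b_ae, b_fc, neg_of gb]
    abel
  have cc : ⁅t 2 3, t 0 1 + t 1 2 + t 2 3 + t 0 2 + t 1 3 + t 0 3⁆ = 0 := by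
    rw [show t 0 1 + t 1 2 + t 2 3 + t 0 2 + t 1 3 + t 0 3 = t 2 3 + t 0 1 + (t 1 2 + t 1 3) +
      (t 0 2 + t 0 3) by abel, lie_add, lie_add, lie_add, lie_self, neg_of ac, c_bf, c_eg]
    abel
  have ce : ⁅t 0 2, t 0 1 + t 1 2 + t 2 3 + t 0 2 + t 1 3 + t 0 3⁆ = 0 := by
    rw [show t 0 1 + t 1 2 + t 2 3 + t 0 2 + t 1 3 + t 0 3 = t 0 2 + t 1 3 + (t 0 1 + t 1 2) +
      (t 0 3 + t 2 3) by abel, lie_add, lie_add, lie_add, lie_self, ef, e_ab, e_gc]
    abel
  have cf' : ⁅t 1 3, t 0 1 + t 1 2 + t 2 3 + t 0 2 + t 1 3 + t 0 3⁆ = 0 := by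
    rw [show t 0 1 + t 1 2 + t 2 3 + t 0 2 + t 1 3 + t 0 3 = t 1 3 + t 0 2 + (t 1 2 + t 2 3) +
      (t 0 1 + t 0 3) by abel, lie_add, lie_add, lie_add, lie_self, neg_of ef, f_bc, f_ag]
    abel
  exact
    { ac := ac
      ef := ef
      gb := gb
      a_eb := a_eb
      b_ae := b_ae
      a_gf := a_gf
      e_ab := e_ab
      f_ag := f_ag
      g_af := g_af
      e_gc := e_gc
      c_eg := c_eg
      g_ec := g_ec
      b_fc := b_fc
      f_bc := f_bc
      c_bf := c_bf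
      p1c := EV_lie _ _ _ Q ac (by rw [← lie_skew, c_bf, neg_zero])
      p2a := EV_lie _ _ _ Q (neg_of a_eb) (neg_of ac)
      p4b := EV_lie _ _ _ Q (neg_of b_ae) (neg_of b_fc)
      p3s := EV_lie _ _ _ Q
        (by rw [add_assoc, lie_add, lie_self, b_fc, add_zero])
        (by rw [lie_add, lie_self, c_bf, add_zero])
      p5s := EV_lie _ _ _ Q
        (by rw [add_assoc, lie_add, lie_self, a_eb, add_zero])
        (by rw [lie_add, lie_self, b_ae, add_zero])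
      pent := pent
      pent' := pent'.trans (by rw [add_comm (t 0 2) (t 0 1), add_comm (t 2 3) (t 1 3)])
      re := EV_lie _ _ _ Q (neg_of e_ab) (neg_of ef)
      uf := EV_lie _ _ _ Q ef (neg_of f_bc)
      hex1 := hx hQ (t 1 2) (t 2 3) (t 1 3) (by rw [add_comm]; exact b_fc)
        (c_bf) (by exact f_bc)
      hex2 := by
        have h := hx hQ (t 1 2) (t 0 1) (t 0 2) b_ae (by rw [add_comm]; exact a_eb)
          (by rw [add_comm]; exact e_ab)
        rw [hQ.anti E (t 0 1) (t 1 2), hQ.anti E (t 0 2) (t 1 2), lie_neg, lie_neg, ← neg_add,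
          neg_eq_zero] at h
        exact h
      h01 := hd.d01
      h12 := hd.d12
      h23 := hd.d23
      h13 := hd.d13
      h02 := hd.d02
      h03 := hd.d03
      s1 := sS _ _ ca (by rw [add_lie, cb, cf', add_zero])
      s2 := sS _ _ (by rw [add_lie, ce, cb, add_zero]) cc
      s3 := sS _ _ cb cc }

end DEFRM

open DEFRM in
open MP446S.DEFM (DD_swap DD_add_right tri) in
theorem DEFRM.defR {R : Type} [CommRing R] {n : ℕ} {Q : AA R} (hQ : IsGQ n Q) (E : Type) [Ring E]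
    [Algebra R E] (t d : Fin 4 → Fin 4 → E) (ht : Braid t) (hd : DefR Q t d) :
    DefFacesR Q t d := by
  have K := cfg_of hQ ht hd
  obtain ⟨q1, q2, q3, q4, q5⟩ := K.rest
  have y10 := ht.symm 1 0
  have y20 := ht.symm 2 0
  have y30 := ht.symm 3 0
  have y21 := ht.symm 2 1
  have y31 := ht.symm 3 1
  have y32 := ht.symm 3 2
  have z10 := hd.symm 1 0
  have z20 := hd.symm 2 0
  have z30 := hd.symm 3 0
  have z21 := hd.symm 2 1
  have z31 := hd.symm 3 1
  have z32 := hd.symm 3 2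
  have dswap : ∀ {x dx y dy : E}, DEFM.DD x dx y dy = 0 → DEFM.DD y dy x dx = 0 := by
    intro x dx y dy h
    rw [DD_swap, h, neg_zero]
  have D1 := K.D_ac
  have D2 := K.D_ef
  have D3 := q1
  have T1 := K.D_a_eb
  have T2 := K.D_e_ab
  have T3 := K.D_b_ae
  have T4 : DEFM.DD (t 0 1) (d 0 1) (t 0 3 + t 1 3) (d 0 3 + d 1 3) = 0 := q2
  have T5 : DEFM.DD (t 1 3) (d 1 3) (t 0 1 + t 0 3) (d 0 1 + d 0 3) = 0 := q3
  have T6 : DEFM.DD (t 0 3) (d 0 3) (t 0 1 + t 1 3) (d 0 1 + d 1 3) = 0 := by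
    apply tri
    · rw [add_comm (t 1 3), add_comm (d 1 3)]; exact q2
    · exact q3
  have T7 : DEFM.DD (t 0 2) (d 0 2) (t 0 3 + t 2 3) (d 0 3 + d 2 3) = 0 := q4
  have T8 : DEFM.DD (t 2 3) (d 2 3) (t 0 2 + t 0 3) (d 0 2 + d 0 3) = 0 := q5
  have T9 : DEFM.DD (t 0 3) (d 0 3) (t 0 2 + t 2 3) (d 0 2 + d 2 3) = 0 := by
    apply tri
    · rw [add_comm (t 2 3), add_comm (d 2 3)]; exact q4
    · exact q5
  have T10 := K.D_b_fc
  have T11 := K.D_c_bf
  have T12 := K.D_f_bc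
  have allc : ∀ i j k l : Fin 4, i ≠ j → i ≠ k → i ≠ l → j ≠ k → j ≠ l → k ≠ l →
      DEFM.DD (t i j) (d i j) (t k l) (d k l) = 0 := by
    intro i j k l h1 h2 h3 h4 h5 h6
    fin_cases i <;> fin_cases j <;> (try exact absurd rfl h1) <;> fin_cases k <;>
      (try exact absurd rfl h2) <;> (try exact absurd rfl h4) <;> fin_cases l <;>
      (try exact absurd rfl h3) <;> (try exact absurd rfl h5) <;> (try exact absurd rfl h6) <;>
      simp only [Fin.zero_eta, Fin.mk_one, Fin.reduceFinMk, Fin.isValue, y10, y20, y30, y21, y31,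
        y32, z10, z20, z30, z21, z31, z32] <;>
      first
        | exact D1 | exact D2 | exact D3 | exact dswap D1 | exact dswap D2 | exact dswap D3
  have allr : ∀ i j k : Fin 4, i ≠ j → i ≠ k → j ≠ k →
      DEFM.DD (t i j) (d i j) (t i k + t j k) (d i k + d j k) = 0 := by
    intro i j k h1 h2 h3
    fin_cases i <;> fin_cases j <;> (try exact absurd rfl h1) <;> fin_cases k <;>
      (try exact absurd rfl h2) <;> (try exact absurd rfl h3) <;>
      simp only [Fin.zero_eta, Fin.mk_one, Fin.reduceFinMk, Fin.isValue, y10, y20, y30, y21, y31,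
        y32, z10, z20, z30, z21, z31, z32] <;>
      first
        | exact T1 | exact T2 | exact T3 | exact T4 | exact T5 | exact T6 | exact T7 | exact T8
        | exact T9 | exact T10 | exact T11 | exact T12
        | (rw [add_comm (t _ _), add_comm (d _ _)]
           first
            | exact T1 | exact T2 | exact T3 | exact T4 | exact T5 | exact T6 | exact T7 | exact T8
            | exact T9 | exact T10 | exact T11 | exact T12)
  refine ⟨⟨fun i j => ?_, fun i j k l h1 h2 h3 h4 h5 h6 => ?_, fun i j k h1 h2 h3 => ?_⟩, ?_, ?_,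
    ?_, ?_, ?_⟩
  · rw [ht.symm i j, hd.symm i j]
  · exact com_of (ht.comm i j k l h1 h2 h3 h4 h5 h6) (allc i j k l h1 h2 h3 h4 h5 h6)
  · rw [inl_inr_add]
    exact com_of (ht.rel i j k h1 h2 h3) (allr i j k h1 h2 h3)
  · exact K.p1c
  · exact K.f4a
  · exact K.f4b
  · exact K.f5a
  · exact K.f5b

/-- **DFR** -/
theorem specDFR : SpecDFR := fun R _ _ n Q hn hQ E _ _ t d ht hd => DEFRM.defR hQ E t d ht hd

end MP446U
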