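import Pool.Agent.Lib.MP_446dfa_ag.unc.Spec
import Pool.Agent.Lib.MP_446dfa_ag.sig.DEF

set_option linter.all false

/-!
# Module GQK: elements of `grt₁(K)` and the relations in associative algebras over `K`-algebras
-/

noncomputable section

namespace MP446U

open MP446 MP446Y MP446Z MP446S MP446I

attribute [local instance 100] LieRing.ofAssociativeRing

namespace GQKM

section Field

variable {K : Type} [Field K]

lemma ev_ev {L : Type} [LieRing L] [LieAlgebra K L] (x y : L) (p q ψ : F2 K) :
    ev x y (ev p q ψ) = ev (ev x y p) (ev x y q) ψ := by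
  have h : (ev x y).comp (ev p q) = (ev (ev x y p) (ev x y q) : F2 K →ₗ⁅K⁆ L) := by
    apply FreeLieAlgebra.hom_ext
    intro i
    fin_cases i
    · simp only [ev, LieHom.comp_apply, FreeLieAlgebra.lift_of_apply]
      rfl
    · simp only [ev, LieHom.comp_apply, FreeLieAlgebra.lift_of_apply]
      rfl
  exact LieHom.congr_fun h ψ

lemma ev_gA {L : Type} [LieRing L] [LieAlgebra K L] (x y : L) : ev x y (gA K) = x := by
  unfold ev gA
  rw [FreeLieAlgebra.lift_of_apply]; rfl

lemma ev_gB {L : Type} [LieRing L] [LieAlgebra K L] (x y : L) : ev x y (gB K) = y := by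
  unfold ev gB
  rw [FreeLieAlgebra.lift_of_apply]; rfl

lemma ev_gC {L : Type} [LieRing L] [LieAlgebra K L] (x y : L) : ev x y (gC K) = -x - y := by
  unfold gC
  rw [map_sub, map_neg, ev_gA, ev_gB]

/-- Lie polynomials at commuting elements are linear -/
lemma lin_aux (ψ : F2 K) : ∃ α : Fin 2 → K, ∀ (E : Type) [Ring E] [Algebra K E]
    (x y : E), x * y = y * x → EV x y (assoc K ψ) = α 0 • x + α 1 • y := by
  induction ψ using F2_induction with
  | hA =>
    refine ⟨![1, 0], fun E _ _ x y _ => ?_⟩
    rw [assoc_gA, EV_lt_zero]; simp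
  | hB =>
    refine ⟨![0, 1], fun E _ _ x y _ => ?_⟩
    rw [assoc_gB, EV_lt_one]; simp
  | hadd a b ha hb =>
    obtain ⟨α, h1⟩ := ha
    obtain ⟨β, h2⟩ := hb
    refine ⟨α + β, fun E _ _ x y e => ?_⟩
    rw [map_add, map_add, h1 E x y e, h2 E x y e,
      Pi.add_apply, Pi.add_apply, add_smul, add_smul]
    abel
  | hsmul c a ha =>
    obtain ⟨α, h1⟩ := ha
    refine ⟨c • α, fun E _ _ x y e => ?_⟩
    rw [map_smul, map_smul, h1 E x y e, Pi.smul_apply, Pi.smul_apply,
      smul_add, smul_assoc, smul_assoc]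
  | hlie a b ha hb =>
    obtain ⟨α, h1⟩ := ha
    obtain ⟨β, h2⟩ := hb
    refine ⟨0, fun E _ _ x y e => ?_⟩
    rw [LieHom.map_lie, LieRing.of_associative_ring_bracket, map_sub, map_mul, map_mul,
      h1 E x y e, h2 E x y e]
    simp only [add_mul, mul_add, smul_mul_assoc, mul_smul_comm, Pi.zero_apply, zero_smul, e,
      smul_add]
    module

/-- Lie polynomials are additive for commuting pairs -/
lemma prim_aux (ψ : F2 K) (E : Type) [Ring E] [Algebra K E] (a b a' b' : E)
    (h : Com2 a b a' b') :
    EV (a + a') (b + b') (assoc K ψ) = EV a b (assoc K ψ) + EV a' b' (assoc K ψ) := by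
  have hc : ∀ ξ η : F2 K, EV a b (assoc K ξ) * EV a' b' (assoc K η) =
      EV a' b' (assoc K η) * EV a b (assoc K ξ) := by
    intro ξ η
    refine EV_commute (k := K) ?_ ?_ _
    · exact (EV_commute (k := K) h.h1.symm h.h2.symm (assoc K η)).symm
    · exact (EV_commute (k := K) h.h3.symm h.h4.symm (assoc K η)).symm
  induction ψ using F2_induction with
  | hA => rw [assoc_gA, EV_lt_zero, EV_lt_zero, EV_lt_zero]
  | hB => rw [assoc_gB, EV_lt_one, EV_lt_one, EV_lt_one]
  | hadd x y hx hy =>
    rw [map_add, map_add, map_add, map_add, hx, hy]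
    abel
  | hsmul c x hx => rw [map_smul, map_smul, map_smul, map_smul, hx, smul_add]
  | hlie x y hx hy =>
    rw [LieHom.map_lie, LieRing.of_associative_ring_bracket, map_sub, map_sub, map_sub, map_mul,
      map_mul, map_mul, map_mul, map_mul, map_mul, hx, hy]
    simp only [add_mul, mul_add]
    rw [hc x y, hc y x]
    abel

end Field

/-- homogeneity -/
lemma EV_smul_hom {R : Type} [CommRing R] {E : Type} [Ring E] [Algebra R E] (c : R) (x y : E)
    (n : ℕ) (Q : AA R) (hQ : Hom n Q) : EV (c • x) (c • y) Q = c ^ n • EV x y Q := by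
  have key : ∀ w : List (Fin 2), (w.map ![c • x, c • y]).prod = c ^ w.length • (w.map ![x, y]).prod := by
    intro w
    induction w with
    | nil => simp
    | cons i w ih =>
      rw [List.map_cons, List.prod_cons, ih, List.map_cons, List.prod_cons, List.length_cons]
      have : (![c • x, c • y] : Fin 2 → E) i = c • (![x, y] : Fin 2 → E) i := by
        fin_cases i <;> rfl
      rw [this, smul_mul_assoc, mul_smul_comm, smul_smul, pow_succ']
  unfold EV
  rw [MonoidAlgebra.lift_apply, MonoidAlgebra.lift_apply, Finsupp.sum, Finsupp.sum, Finset.smul_sum]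
  apply Finset.sum_congr rfl
  intro w hw
  have hlen : (FreeMonoid.toList w).length = n := by
    by_contra h
    have := hQ (FreeMonoid.toList w) h
    unfold cf at this
    rw [FreeMonoid.ofList_toList] at this
    exact (Finsupp.mem_support_iff.1 hw) this
  rw [evw, evw, FreeMonoid.lift_apply, FreeMonoid.lift_apply, key, hlen, smul_comm]

/-- evaluation and base change -/
lemma EV_mm {R R' : Type} [CommRing R] [CommRing R'] (θ : R →+* R') {E : Type} [Ring E]
    [Algebra R' E] [Algebra R E] (h : ∀ (c : R) (x : E), c • x = θ c • x) (a b : E) (Q : AA R) :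
    EV a b (bcP θ Q) = EV a b Q := by
  unfold bcP
  induction Q using MonoidAlgebra.induction_linear with
  | zero => rw [map_zero, map_zero, map_zero]
  | add f g hf hg => rw [map_add, map_add, map_add, hf, hg]
  | single w c =>
    rw [mm_single, single_eq, single_eq, map_smul, map_smul, EV_ow, EV_ow, h]
    rfl

end GQKM

open GQKM in
/-- elements of `grt₁` satisfy the relations in associative algebras -/
theorem GQKM.isGQ_of_isGRT {K : Type} [Field K] [CharZero K] {n : ℕ} (hn : 2 ≤ n) (ψ : F2 K)
    (hQ : Hom n (assoc K ψ)) (hg : IsGRT ψ) : IsGQ n (assoc K ψ) := by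
  have hzero : ∀ (E : Type) [Ring E] [Algebra K E] (a b : E), a * b = b * a →
      EV a b (assoc K ψ) = 0 := by
    obtain ⟨α, h1⟩ := lin_aux ψ
    have e0 : ∀ u v : K, EV u v (assoc K ψ) = α 0 * u + α 1 * v := fun u v => by
      have e := h1 K u v (mul_comm u v)
      simpa using e
    have hp : (2 : K) ^ n - 2 ≠ 0 := by
      intro h
      have h2 : ((2 ^ n : ℕ) : K) = ((2 : ℕ) : K) := by
        push_cast
        exact sub_eq_zero.1 h
      have h3 := Nat.cast_injective h2
      have h4 : 2 ^ 2 ≤ 2 ^ n := Nat.pow_le_pow_right (by norm_num) hn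
      omega
    have e4 : ∀ u v : K, α 0 * u + α 1 * v = 0 := by
      intro u v
      have e5 := GQKM.EV_smul_hom (R := K) (E := K) 2 u v n _ hQ
      rw [e0, e0] at e5
      simp only [smul_eq_mul] at e5
      have : ((2 : K) ^ n - 2) * (α 0 * u + α 1 * v) = 0 := by linear_combination -e5
      exact (mul_eq_zero.1 this).resolve_left hp
    have a0 : α 0 = 0 := by simpa using e4 1 0
    have a1 : α 1 = 0 := by simpa using e4 0 1
    intro E _ _ a b hab
    rw [h1 E a b hab, a0, a1, zero_smul, zero_smul, add_zero]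
  have evE : ∀ (E : Type) [Ring E] [Algebra K E] (a b : E), ev a b ψ = EV a b (assoc K ψ) :=
    fun E _ _ a b => ev_eq_EV a b ψ
  refine ⟨hQ, hzero, fun E _ _ a b a' b' h => prim_aux ψ E a b a' b' h, ?_, ?_, ?_, ?_⟩
  · intro E _ _ a b
    have e := congrArg (ev a b) hg.antisymm
    rw [GQKM.ev_ev, GQKM.ev_gA, GQKM.ev_gB, map_neg, evE, evE] at e
    exact e
  · intro E _ _ a b c hc
    have e := congrArg (ev a b) hg.cycle
    rw [map_add, map_add, GQKM.ev_ev, GQKM.ev_ev, GQKM.ev_gA, GQKM.ev_gB, GQKM.ev_gC, map_zero, evE, evE, evE] at e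
    have h1 : -a - b = c := by
      rw [← sub_eq_zero, ← neg_eq_zero, ← hc]
      abel
    rw [h1] at e
    exact e
  · intro E _ _ a b c hc
    have e := congrArg (ev a b) hg.hexagon
    rw [map_add, LieHom.map_lie, LieHom.map_lie, GQKM.ev_ev, GQKM.ev_gA, GQKM.ev_gB, GQKM.ev_gC, map_zero, evE,
      evE] at e
    have h1 : -a - b = c := by
      rw [← sub_eq_zero, ← neg_eq_zero, ← hc]
      abel
    rw [h1, LieRing.of_associative_ring_bracket, LieRing.of_associative_ring_bracket] at e
    exact e
  · intro E _ _ t ht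
    have IB : InfBraid t := by
      refine ⟨ht.symm, fun i j k l h1 h2 h3 h4 h5 h6 => ?_, fun i j k h1 h2 h3 => ?_⟩
      · rw [LieRing.of_associative_ring_bracket, ht.comm i j k l h1 h2 h3 h4 h5 h6, sub_self]
      · rw [LieRing.of_associative_ring_bracket, ht.rel i j k h1 h2 h3, sub_self]
    have pent := hg.pentagon E t IB
    simp only [evE] at pent
    exact pent

/-- **GQK** -/
theorem specGQK : SpecGQK := fun K _ _ n ψ hn hQ hg => GQKM.isGQ_of_isGRT hn ψ hQ hg

end MP446U
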