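import Pool.Agent.Lib.MP_446dfa_ag.unc.SHF
import Pool.Agent.Lib.MP_446dfa_ag.unc.GQK
import Pool.Agent.Lib.MP_446dfa_ag.grp.Torsor

set_option linter.all false

/-!
# Module LIN: the lowest part of the difference of two associators
-/

noncomputable section

namespace MP446U

open MP446 MP446Y MP446Z MP446S MP446I

attribute [local instance 100] LieRing.ofAssociativeRing

namespace H60

section Shift

variable {R : Type} [CommRing R] {E : Type} [Ring E] [Algebra R E]

variable (R) in
/-- the operator `v ↦ (i ↦ a v_{i-1})` -/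
def sh (m : ℕ) (a : E) : Module.End R (Fin (m + 1) → E) where
  toFun v := fun i => if h : 0 < i.val then a * v ⟨i.val - 1, by omega⟩ else 0
  map_add' v v' := by
    funext i
    simp only [Pi.add_apply]
    split_ifs
    · rw [mul_add]
    · rw [add_zero]
  map_smul' c v := by
    funext i
    simp only [Pi.smul_apply, RingHom.id_apply]
    split_ifs
    · rw [mul_smul_comm]
    · rw [smul_zero]

variable {m : ℕ}

lemma sh_apply (a : E) (v : Fin (m + 1) → E) (i : Fin (m + 1)) :
    sh R m a v i = if h : 0 < i.val then a * v ⟨i.val - 1, by omega⟩ else 0 := rfl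

lemma sh_add (a b : E) : sh R m (a + b) = sh R m a + sh R m b := by
  apply LinearMap.ext
  intro v
  funext i
  rw [LinearMap.add_apply, Pi.add_apply, sh_apply, sh_apply, sh_apply]
  split_ifs
  · rw [add_mul]
  · rw [add_zero]

lemma sh_comm {a b : E} (h : a * b = b * a) : sh R m a * sh R m b = sh R m b * sh R m a := by
  apply LinearMap.ext
  intro v
  funext i
  rw [Module.End.mul_apply, Module.End.mul_apply]
  simp only [sh_apply]
  split_ifs
  · rw [← mul_assoc, ← mul_assoc, h]
  · rw [mul_zero, mul_zero]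
  · rfl

variable (R) in
/-- operators raising the filtration -/
def shJ (E : Type) [Ring E] [Algebra R E] (m : ℕ) :
    Submodule R (Module.End R (Fin (m + 1) → E)) where
  carrier := {f | ∀ (j : ℕ) (v : Fin (m + 1) → E), (∀ i : Fin (m + 1), i.val < j → v i = 0) →
    ∀ i : Fin (m + 1), i.val < j + 1 → f v i = 0}
  add_mem' := by
    intro f g hf hg j v hv i hi
    rw [LinearMap.add_apply, Pi.add_apply, hf j v hv i hi, hg j v hv i hi, add_zero]
  zero_mem' := by
    intro j v hv i hi
    rfl
  smul_mem' := by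
    intro c f hf j v hv i hi
    rw [LinearMap.smul_apply, Pi.smul_apply, hf j v hv i hi, smul_zero]

lemma sh_mem (a : E) : sh R m a ∈ shJ R E m := by
  intro j v hv i hi
  rw [sh_apply]
  split_ifs with h
  · rw [hv _ (by change i.val - 1 < j; omega), mul_zero]
  · rfl

lemma shJ_prod (l : List (Module.End R (Fin (m + 1) → E))) (hl : ∀ x ∈ l, x ∈ shJ R E m) (j : ℕ)
    (v : Fin (m + 1) → E) (hv : ∀ i : Fin (m + 1), i.val < j → v i = 0) :
    ∀ i : Fin (m + 1), i.val < j + l.length → l.prod v i = 0 := by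
  induction l with
  | nil =>
    intro i hi
    exact hv i (by simpa using hi)
  | cons f l ih =>
    intro i hi
    rw [List.prod_cons, Module.End.mul_apply]
    exact hl f (by simp) (j + l.length) _ (ih (fun x hx => hl x (by simp [hx]))) i
      (by rw [List.length_cons] at hi; omega)

lemma shJ_nilp : IsNilp (m + 1) (shJ R E m) := by
  refine ⟨fun f hf g hg => ?_, fun l hl h => ?_⟩
  · intro j v hv i hi
    rw [Module.End.mul_apply]
    exact hf j _ (fun i' hi' => hg j v hv i' (by omega)) i hi
  · apply LinearMap.ext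
    intro v
    funext i
    exact shJ_prod l hl 0 v (by intro i hi; omega) i (by rw [h]; omega)

lemma sh_word (a b : E) (w : List (Fin 2)) (v : Fin (m + 1) → E) (i : Fin (m + 1)) :
    (w.map ![sh R m a, sh R m b]).prod v i =
      if h : w.length ≤ i.val then (w.map ![a, b]).prod * v ⟨i.val - w.length, by omega⟩ else 0 := by
  induction w generalizing i with
  | nil => simp
  | cons l w ih =>
    rw [List.map_cons, List.prod_cons, Module.End.mul_apply, List.map_cons, List.prod_cons]
    have h : (![sh R m a, sh R m b] l : Module.End R (Fin (m + 1) → E)) = sh R m (![a, b] l) := by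
      fin_cases l <;> rfl
    rw [h, sh_apply]
    simp only [List.length_cons]
    by_cases h1 : w.length + 1 ≤ i.val
    · rw [dif_pos h1, dif_pos (by omega), ih, dif_pos (by change w.length ≤ i.val - 1; omega),
        mul_assoc]
      congr 3
      apply Fin.ext
      change i.val - 1 - w.length = i.val - (w.length + 1)
      omega
    · rw [dif_neg h1]
      by_cases h2 : 0 < i.val
      · rw [dif_pos h2, ih, dif_neg (by change ¬ w.length ≤ i.val - 1; omega), mul_zero]
      · rw [dif_neg h2]

lemma sh_EV {Q : AA R} (hQ : Hom m Q) (a b : E) (v : Fin (m + 1) → E) :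
    EV (sh R m a) (sh R m b) Q v (Fin.last m) = EV a b Q * v 0 := by
  rw [EV_expand, EV_expand]
  unfold Finsupp.sum
  rw [LinearMap.sum_apply, Finset.sum_apply, Finset.sum_mul]
  refine Finset.sum_congr rfl (fun w hw => ?_)
  rw [LinearMap.smul_apply, Pi.smul_apply, smul_mul_assoc]
  have h1 : (FreeMonoid.toList w).length = m := by
    by_contra h
    have := hQ (FreeMonoid.toList w) h
    exact (Finsupp.mem_support_iff.1 hw) this
  rw [sh_word, dif_pos (by rw [h1, Fin.val_last])]
  congr 3
  apply Fin.ext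
  have h3 := Fin.val_last m
  change (Fin.last m).val - (FreeMonoid.toList w).length = 0
  omega

/-- homogeneous identities can be checked at nilpotent elements -/
lemma sh_eq {Q : AA R} (hQ : Hom m Q) (a b : E) :
    EV (sh R m a) (sh R m b) Q (Pi.single 0 1) (Fin.last m) = EV a b Q := by
  rw [sh_EV hQ, Pi.single_eq_same, mul_one]

lemma sh_braid {t : Fin 4 → Fin 4 → E} (ht : Braid t) : Braid (fun i j => sh R m (t i j)) :=
  ⟨fun i j => by rw [ht.symm], fun i j k l a b c d e f => sh_comm (ht.comm i j k l a b c d e f),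
    fun i j k a b c => by
      rw [← sh_add]
      exact sh_comm (ht.rel i j k a b c)⟩

end Shift

section Cgr

variable {R : Type} [CommRing R] {E : Type} [Ring E] [Algebra R E] {m : ℕ} {I : Submodule R E}

/-- `P' = P + D`, `P` is congruent to `1` and `D` is annihilated by `I` -/
structure Cgr (I : Submodule R E) (P' P D : E) : Prop where
  eq : P' = P + D
  one : P - 1 ∈ I
  mem : D ∈ I
  left : ∀ x ∈ I, x * D = 0
  right : ∀ x ∈ I, D * x = 0

lemma Cgr.mul (h : IsNilp m I) {P' P D Q' Q F : E} (h1 : Cgr I P' P D) (h2 : Cgr I Q' Q F) :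
    Cgr I (P' * Q') (P * Q) (D + F) := by
  refine ⟨?_, mul_sub_one_mem h h1.one h2.one, I.add_mem h1.mem h2.mem, fun x hx => ?_,
    fun x hx => ?_⟩
  · have e1 : P * F = F := by
      have := h2.left _ h1.one
      rwa [sub_mul, one_mul, sub_eq_zero] at this
    have e2 : D * Q = D := by
      have := h1.right _ h2.one
      rwa [mul_sub, mul_one, sub_eq_zero] at this
    rw [h1.eq, h2.eq, add_mul, mul_add, mul_add, e1, e2, h1.right _ h2.mem, add_zero]
    abel
  · rw [mul_add, h1.left x hx, h2.left x hx, add_zero]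
  · rw [add_mul, h1.right x hx, h2.right x hx, add_zero]

lemma Cgr.refl {P : E} (h : P - 1 ∈ I) : Cgr I P P 0 :=
  ⟨by rw [add_zero], h, I.zero_mem, fun x _ => mul_zero x, fun x _ => zero_mul x⟩

lemma Cgr.eq_of {P' P D Q' Q F : E} (h1 : Cgr I P' P D) (h2 : Cgr I Q' Q F) (e1 : P' = Q')
    (e2 : P = Q) : D = F := by
  rw [h1.eq, h2.eq, e2] at e1
  exact add_left_cancel e1

lemma word_mul_zero' (h : IsNilp (m + 1) I) {a b x : E} (ha : a ∈ I) (hb : b ∈ I) (hx : x ∈ I)
    (w : List (Fin 2)) (hw : m ≤ w.length) : (w.map ![a, b]).prod * x = 0 := by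
  have h2 := zero_of_le h (w.map ![a, b] ++ [x]) (by
    intro y hy
    rcases List.mem_append.1 hy with hy | hy
    · exact map_mem' ha hb w y hy
    · rw [List.mem_singleton.1 hy]; exact hx) (by
    rw [List.length_append, List.length_map, List.length_singleton]; omega)
  rwa [List.prod_append, List.prod_singleton] at h2

lemma zero_mul_word' (h : IsNilp (m + 1) I) {a b x : E} (ha : a ∈ I) (hb : b ∈ I) (hx : x ∈ I)
    (w : List (Fin 2)) (hw : m ≤ w.length) : x * (w.map ![a, b]).prod = 0 := by
  have h2 := zero_of_le h (x :: w.map ![a, b]) (by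
    intro y hy
    rcases List.mem_cons.1 hy with rfl | hy
    · exact hx
    · exact map_mem' ha hb w y hy) (by
    rw [List.length_cons, List.length_map]; omega)
  rwa [List.prod_cons] at h2

/-- the values of two series that agree below degree `m` -/
lemma Cgr_val (h : IsNilp (m + 1) I) (hm : 1 ≤ m) {f f' : List (Fin 2) → R} (h0 : f [] = 1)
    (hag : ∀ w : List (Fin 2), w.length < m → f w = f' w) {Q : AA R}
    (hQ : ∀ w, cf Q w = if w.length = m then f' w - f w else 0) {a b : E} (ha : a ∈ I)
    (hb : b ∈ I) : Cgr I (val f' a b) (val f a b) (EV a b Q) := by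
  have hHom : Hom m Q := by
    intro w hw
    rw [hQ, if_neg hw]
  refine ⟨?_, val_sub_one_mem h ha hb h0, EV_mem' h ha hb (by rw [hQ, if_neg (by simp; omega)]),
    fun x hx => ?_, fun x hx => ?_⟩
  · rw [val_wl h ha hb, val_wl h ha hb, EV_wl' h ha hb, ← Finset.sum_add_distrib]
    refine Finset.sum_congr rfl (fun w hw => ?_)
    rw [← add_smul, hQ]
    congr 1
    rw [mem_wl] at hw
    by_cases h1 : w.length = m
    · rw [if_pos h1]
      ring
    · rw [if_neg h1, add_zero, hag w (by omega)]
  · rw [EV_expand, Finsupp.sum, Finset.mul_sum]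
    refine Finset.sum_eq_zero (fun w hw => ?_)
    have h1 : (FreeMonoid.toList w).length = m := by
      by_contra h
      exact (Finsupp.mem_support_iff.1 hw) (hHom (FreeMonoid.toList w) h)
    rw [mul_smul_comm, zero_mul_word' h ha hb hx _ h1.ge, smul_zero]
  · rw [EV_expand, Finsupp.sum, Finset.sum_mul]
    refine Finset.sum_eq_zero (fun w hw => ?_)
    have h1 : (FreeMonoid.toList w).length = m := by
      by_contra h
      exact (Finsupp.mem_support_iff.1 hw) (hHom (FreeMonoid.toList w) h)
    rw [smul_mul_assoc, word_mul_zero' h ha hb hx _ h1.ge, smul_zero]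

end Cgr

section Diff

variable {R : Type} [CommRing R] [Algebra ℚ R] {m : ℕ} {μ : R} {f f' : List (Fin 2) → R}
  {Q : AA R}

lemma hom_of_cf (hQ : ∀ w, cf Q w = if w.length = m then f' w - f w else 0) : Hom m Q := by
  intro w hw
  rw [hQ, if_neg hw]

lemma prt_of_cf (hQ : ∀ w, cf Q w = if w.length = m then f' w - f w else 0) :
    Q = prt (fun w => f' w - f w) m := by
  apply MP446S.AA_ext
  intro w
  rw [hQ, cf_prt]

/-- the linear shuffle relations -/
lemma shuf_dif (hf : IsAssocN R (m + 1) μ f) (hf' : IsAssocN R (m + 1) μ f')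
    (hag : ∀ w : List (Fin 2), w.length < m → f w = f' w) (p q : List (Fin 2)) (hp : p ≠ [])
    (hq : q ≠ []) (hpq : p.length + q.length = m) :
    ((shuffle p q).map (fun w => f' w - f w)).sum = 0 := by
  have h1 := hf.gl p q (by omega)
  have h2 := hf'.gl p q (by omega)
  have hp' := List.length_pos_of_ne_nil hp
  have hq' := List.length_pos_of_ne_nil hq
  have h3 : ∀ l : List (List (Fin 2)), (l.map (fun w => f' w - f w)).sum =
      (l.map f').sum - (l.map f).sum := by
    intro l
    induction l with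
    | nil => simp
    | cons s l ih =>
      simp only [List.map_cons, List.sum_cons] at ih ⊢
      rw [ih]
      ring
  rw [h3, ← h1, ← h2, hag p (by omega), hag q (by omega), sub_self]

/-- the linear pentagon equation -/
lemma pent_dif (hm : 1 ≤ m) (hf : IsAssocN R (m + 1) μ f) (hf' : IsAssocN R (m + 1) μ f')
    (hag : ∀ w : List (Fin 2), w.length < m → f w = f' w)
    (hQ : ∀ w, cf Q w = if w.length = m then f' w - f w else 0) (E : Type) [Ring E] [Algebra R E]
    (t : Fin 4 → Fin 4 → E) (ht : Braid t) : PLt t Q := by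
  have hN : IsNilp (m + 1) (shJ R E m) := shJ_nilp
  have pa := hf'.pent _ _ hN (fun i j => sh R m (t i j)) (sh_braid ht) (fun i j => sh_mem _)
  have pb := hf.pent _ _ hN (fun i j => sh R m (t i j)) (sh_braid ht) (fun i j => sh_mem _)
  simp only [← sh_add] at pa pb
  have C : ∀ x y : E, Cgr (shJ R E m) (val f' (sh R m x) (sh R m y)) (val f (sh R m x) (sh R m y))
      (EV (sh R m x) (sh R m y) Q) := fun x y => Cgr_val hN hm hf.one hag hQ (sh_mem x) (sh_mem y)
  have key := ((C (t 0 1) (t 1 2 + t 1 3)).mul hN (C (t 0 2 + t 1 2) (t 2 3))).eq_of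
    (((C (t 1 2) (t 2 3)).mul hN (C (t 0 1 + t 0 2) (t 1 3 + t 2 3))).mul hN (C (t 0 1) (t 1 2)))
    pa pb
  have h2 := congrArg (fun f : Module.End R (Fin (m + 1) → E) =>
    f (Pi.single 0 1) (Fin.last m)) key
  have hH := hom_of_cf hQ
  simp only [LinearMap.add_apply, Pi.add_apply] at h2
  rwa [sh_eq hH, sh_eq hH, sh_eq hH, sh_eq hH, sh_eq hH] at h2

/-- the cycle relation -/
lemma cycle_dif (hm : 1 ≤ m) (hf : IsAssocN R (m + 1) μ f) (hf' : IsAssocN R (m + 1) μ f')
    (hag : ∀ w : List (Fin 2), w.length < m → f w = f' w)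
    (hQ : ∀ w, cf Q w = if w.length = m then f' w - f w else 0) (E : Type) [Ring E] [Algebra R E]
    (a b c : E) (habc : a + b + c = 0) : EV c a Q + EV b c Q + EV a b Q = 0 := by
  have hN : IsNilp (m + 1) (shJ R E m) := shJ_nilp
  have h0 : sh R m a + sh R m b + sh R m c = 0 := by
    rw [← sh_add, ← sh_add, habc]
    apply LinearMap.ext
    intro v
    funext i
    rw [sh_apply]
    split_ifs
    · rw [zero_mul]; rfl
    · rfl
  have h2 : (2 : R) * (algebraMap ℚ R (1 / 2) * μ) = μ := by
    have : (2 : R) * algebraMap ℚ R (1 / 2) = 1 := by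
      rw [← map_ofNat (algebraMap ℚ R) 2, ← map_mul]
      norm_num
    rw [← mul_assoc, this, one_mul]
  set ν : R := algebraMap ℚ R (1 / 2) * μ with hν
  have pa := hf'.hex _ _ hN _ (sh_mem a) _ (sh_mem b) _ (sh_mem c) h0 ν (Or.inl h2)
  have pb := hf.hex _ _ hN _ (sh_mem a) _ (sh_mem b) _ (sh_mem c) h0 ν (Or.inl h2)
  have C : ∀ x y : E, Cgr (shJ R E m) (val f' (sh R m x) (sh R m y)) (val f (sh R m x) (sh R m y))
      (EV (sh R m x) (sh R m y) Q) := fun x y => Cgr_val hN hm hf.one hag hQ (sh_mem x) (sh_mem y)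
  have X : ∀ x : E, Cgr (shJ R E m) (expU R (ν • sh R m x)) (expU R (ν • sh R m x)) 0 := fun x =>
    Cgr.refl (expU_sub_one_mem hN ((shJ R E m).smul_mem ν (sh_mem x)))
  have key := ((((((X a).mul hN (C c a)).mul hN (X c)).mul hN (C b c)).mul hN (X b)).mul hN
    (C a b)).eq_of (Cgr.refl (I := shJ R E m) (P := 1) (by rw [sub_self]; exact (shJ R E m).zero_mem))
    pa pb
  have h2 := congrArg (fun f : Module.End R (Fin (m + 1) → E) =>
    f (Pi.single 0 1) (Fin.last m)) key
  have hH := hom_of_cf hQ
  rw [zero_add, add_zero, add_zero] at h2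
  simp only [LinearMap.add_apply, Pi.add_apply] at h2
  rwa [sh_eq hH, sh_eq hH, sh_eq hH] at h2

end Diff

section Low

variable {K : Type} [Field K] [CharZero K] [Algebra ℚ K] {m : ℕ} {μ : K} {f f' : List (Fin 2) → K}
  {Q : AA K}

lemma low_one (hf : IsAssocN K (1 + 1) μ f) (hf' : IsAssocN K (1 + 1) μ f')
    (hQ : ∀ w, cf Q w = if w.length = 1 then f' w - f w else 0) : Q = 0 := by
  obtain ⟨h0, h1⟩ := specSHF K 2 μ f le_rfl hf
  obtain ⟨h0', h1'⟩ := specSHF K 2 μ f' le_rfl hf'
  apply MP446S.AA_ext
  intro w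
  rw [hQ, cf_zero]
  by_cases hw : w.length = 1
  · rw [if_pos hw]
    obtain ⟨i, rfl⟩ := List.length_eq_one_iff.1 hw
    fin_cases i
    · change f' [0] - f [0] = 0
      rw [h0, h0', sub_self]
    · change f' [1] - f [1] = 0
      rw [h1, h1', sub_self]
  · rw [if_neg hw]

lemma low_two (hf : IsAssocN K (2 + 1) μ f) (hf' : IsAssocN K (2 + 1) μ f')
    (hag : ∀ w : List (Fin 2), w.length < 2 → f w = f' w)
    (hQ : ∀ w, cf Q w = if w.length = 2 then f' w - f w else 0) : Q = 0 := by
  set d : List (Fin 2) → K := fun w => f' w - f w with hd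
  have hsh := shuf_dif hf hf' hag
  rw [← hd] at hsh
  have h00 : d [0, 0] = 0 := by
    have := hsh [0] [0] (by simp) (by simp) rfl
    simp only [shuffle, List.map_cons, List.map_nil, List.cons_append, List.nil_append,
      List.sum_cons, List.sum_nil, add_zero] at this
    have h2 : (2 : K) * d [0, 0] = 0 := by rw [← this]; ring
    exact (mul_eq_zero.1 h2).resolve_left two_ne_zero
  have h11 : d [1, 1] = 0 := by
    have := hsh [1] [1] (by simp) (by simp) rfl
    simp only [shuffle, List.map_cons, List.map_nil, List.cons_append, List.nil_append,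
      List.sum_cons, List.sum_nil, add_zero] at this
    have h2 : (2 : K) * d [1, 1] = 0 := by rw [← this]; ring
    exact (mul_eq_zero.1 h2).resolve_left two_ne_zero
  have h01 : d [1, 0] = -d [0, 1] := by
    have := hsh [0] [1] (by simp) (by simp) rfl
    simp only [shuffle, List.map_cons, List.map_nil, List.cons_append, List.nil_append,
      List.sum_cons, List.sum_nil, add_zero] at this
    rw [eq_neg_iff_add_eq_zero, ← this]
    ring
  have hQ2 : Q = prt d 2 := prt_of_cf hQ
  have key := cycle_dif (by norm_num) hf hf' hag hQ (AA K) (lt K 0) (lt K 1) (-lt K 0 - lt K 1)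
    (by abel)
  rw [hQ2] at key
  simp only [EV_prt_two, h00, h11, h01, zero_smul, zero_add, add_zero, neg_smul,
    ← sub_eq_add_neg, ← smul_sub] at key
  rw [← smul_add, ← smul_add] at key
  have e3 : ((-lt K 0 - lt K 1) * lt K 0 - lt K 0 * (-lt K 0 - lt K 1)) +
      (lt K 1 * (-lt K 0 - lt K 1) - (-lt K 0 - lt K 1) * lt K 1) +
      (lt K 0 * lt K 1 - lt K 1 * lt K 0) = 3 • (ow K [0, 1] - ow K [1, 0]) := by
    have e4 : (ow K [0, 1] : AA K) = lt K 0 * lt K 1 := by
      rw [show [0, 1] = [0] ++ [(1 : Fin 2)] from rfl, ow_append]; rfl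
    have e5 : (ow K [1, 0] : AA K) = lt K 1 * lt K 0 := by
      rw [show [1, 0] = [1] ++ [(0 : Fin 2)] from rfl, ow_append]; rfl
    rw [e4, e5]
    noncomm_ring
  rw [e3] at key
  have h5 := congrArg (fun X : AA K => cf X [0, 1]) key
  rw [← Nat.cast_smul_eq_nsmul K] at h5
  simp only [cf_smul, cf_sub, cf_ow, cf_zero] at h5
  have h6 : d [0, 1] = 0 := by
    have h7 : (3 : K) * d [0, 1] = 0 := by
      rw [← h5]
      simp
      ring
    exact (mul_eq_zero.1 h7).resolve_left three_ne_zero
  apply MP446S.AA_ext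
  intro w
  rw [hQ, cf_zero]
  by_cases hw : w.length = 2
  · rw [if_pos hw]
    change d w = 0
    obtain ⟨i, j, rfl⟩ := List.length_eq_two.1 hw
    fin_cases i <;> fin_cases j
    · exact h00
    · exact h6
    · change d [1, 0] = 0
      rw [h01, h6, neg_zero]
    · exact h11
  · rw [if_neg hw]

end Low

end H60

open H60 in
theorem specLIN : SpecLIN := by
  intro K _ _ _ m μ f f' hm hf hf' hag Q hQ
  refine ⟨fun h => ?_, fun h3 => ?_⟩
  · have hm' : m = 1 ∨ m = 2 := by omega
    rcases hm' with rfl | rfl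
    · exact low_one hf hf' hQ
    · exact low_two hf hf' hag hQ
  · have hQ2 : Q = prt (fun w => f' w - f w) m := prt_of_cf hQ
    have hD : MP446S.Dyn Q = (m : K) • Q := by
      rw [hQ2]
      exact Dyn_of_shuffle hm (shuf_dif hf hf' hag)
    obtain ⟨ψ, hψ⟩ := specDSW2 K m Q hm hD
    have hH : Hom m (assoc K ψ) := by
      rw [hψ]
      exact hom_of_cf hQ
    rw [← hψ]
    refine specGQK K m ψ (by omega) hH ?_
    apply isGRT_of specS4 specF1 (specF2 specF1 specMODEL)
      (specF3 specMODEL specF1 (specF2 specF1 specMODEL)) h3 hH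
    rw [hψ]
    exact pent_dif hm hf hf' hag hQ _ _ (specMODEL K)

end MP446U
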