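import Pool.Agent.Lib.MP_446dfa_ag.unc.OPB
import Pool.Agent.Lib.MP_446dfa_ag.unc.Spec

set_option linter.all false

/-!
# Lowest terms
-/

noncomputable section

namespace MP446U

open MP446 MP446Y MP446Z MP446S MP446I OPB

theorem specOPL : SpecOPL := by
  intro R S _ A n u f hu hf hlow hn
  constructor
  · intro v hv
    rw [act_apply A, Finset.sum_eq_single []]
    · rw [Lw_nil A, hu, one_mul, Module.End.one_apply, cf_trn, if_pos (by omega)]
    · intro w hw hne
      rw [Alph.mem_wd] at hw
      rw [hlow w hne (by omega), zero_mul]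
    · intro h
      exfalso
      apply h
      rw [Alph.mem_wd, wt_nil]
      omega
  · intro v hv
    classical
    rw [act_apply A, hv]
    have hsplit : ∑ w ∈ A.wd (n + 1), u w * cf (A.Lw w (trn (n + 1) f)) v =
        ∑ w ∈ (A.wd (n + 1)).filter (fun w => A.wt w = n),
            u w * cf (A.Lw w (trn (n + 1) f)) v +
          ∑ w ∈ (A.wd (n + 1)).filter (fun w => ¬ A.wt w = n),
            u w * cf (A.Lw w (trn (n + 1) f)) v :=
      (Finset.sum_filter_add_sum_filter_not _ _ _).symm
    rw [hsplit, add_comm]
    congr 1
    · rw [Finset.sum_eq_single []]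
      · rw [Lw_nil A, hu, one_mul, Module.End.one_apply, cf_trn, if_pos (by omega)]
      · intro w hw hne
        rw [Finset.mem_filter, Alph.mem_wd] at hw
        rw [hlow w hne (by omega), zero_mul]
      · intro h
        exfalso
        apply h
        rw [Finset.mem_filter, Alph.mem_wd, wt_nil]
        omega
    · refine Finset.sum_congr rfl (fun w hw => ?_)
      rw [Finset.mem_filter] at hw
      rw [(hd_Lw A w).lowest _ (by omega), cf_trn, if_pos (by simp), hf, one_mul]

end MP446U
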