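import Pool.Agent.Lib.MP_446dfa_ag.unc.DSCa
import Pool.Agent.Lib.MP_446dfa_ag.unc.LIN
import Pool.Agent.Lib.MP_446dfa_ag.unc.OPL

set_option linter.all false

/-!
# Descent of associators from `ℂ` to `ℚ`
-/

noncomputable section

namespace MP446U

open MP446 MP446Y MP446Z MP446S MP446I

namespace DSCb

lemma shuffle_len {α : Type} (v w : List α) :
    (shuffle v w).length = (v.length + w.length).choose v.length := by
  induction v generalizing w with
  | nil => rw [shuffle_nil_left]; simp
  | cons a v ih =>
    induction w with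
    | nil => rw [shuffle_nil_right]; simp
    | cons b w ih2 =>
      rw [shuffle_cons, List.length_append, List.length_map, List.length_map, ih, ih2]
      simp only [List.length_cons]
      rw [show v.length + 1 + (w.length + 1) = (v.length + (w.length + 1)) + 1 by ring,
        Nat.choose_succ_succ, show v.length + 1 + w.length = v.length + (w.length + 1) by ring]

/-- the exponential of one letter -/
lemma gl_ec {α : Type} {R : Type} [CommRing R] [Algebra ℚ R] :
    IsGroupLike (fun w : List α => ec R w.length) where
  one := ec_zero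
  shuffle := by
    intro v w
    have h : (shuffle v w).map (fun w : List α => ec R w.length) =
        (shuffle v w).map (fun _ => ec R (v.length + w.length)) := by
      apply List.map_congr_left
      intro s hs
      rw [shuffle_length v w s hs]
    rw [h, List.map_const', List.sum_replicate, shuffle_len, ← ec_choose, nsmul_eq_mul, mul_comm]

variable {R : Type} [CommRing R] [Algebra ℚ R]

lemma mono {N N' : ℕ} (hN : N ≤ N') {μ : R} {f : List (Fin 2) → R} (h : IsAssocN R N' μ f) :
    IsAssocN R N μ f where
  one := h.one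
  gl := fun v w hvw => h.gl v w (by omega)
  dual := fun E _ _ I hI => h.dual E I (nilp_mono hI hN)
  hex := fun E _ _ I hI => h.hex E I (nilp_mono hI hN)
  pent := fun E _ _ I hI => h.pent E I (nilp_mono hI hN)

lemma congr {N : ℕ} {μ : R} {f g : List (Fin 2) → R} (h : IsAssocN R N μ f)
    (hfg : ∀ w, w.length < N → f w = g w) (h1 : g [] = 1) : IsAssocN R N μ g where
  one := h1
  gl := by
    intro v w hvw
    rw [← hfg v (by omega), ← hfg w (by omega), h.gl v w hvw]
    congr 1
    apply List.map_congr_left
    intro s hs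
    exact hfg s (by rw [shuffle_length v w s hs]; exact hvw)
  dual := by
    intro E _ _ I hI a ha b hb
    rw [← val_congr hI ha hb hfg, ← val_congr hI hb ha hfg]
    exact h.dual E I hI a ha b hb
  hex := by
    intro E _ _ I hI a ha b hb c hc
    rw [← val_congr hI hc ha hfg, ← val_congr hI hb hc hfg, ← val_congr hI ha hb hfg]
    exact h.hex E I hI a ha b hb c hc
  pent := by
    intro E _ _ I hI t ht htI
    rw [← val_congr hI (htI 0 1) (I.add_mem (htI 1 2) (htI 1 3)) hfg,
      ← val_congr hI (I.add_mem (htI 0 2) (htI 1 2)) (htI 2 3) hfg,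
      ← val_congr hI (htI 1 2) (htI 2 3) hfg,
      ← val_congr hI (I.add_mem (htI 0 1) (htI 0 2)) (I.add_mem (htI 1 3) (htI 2 3)) hfg,
      ← val_congr hI (htI 0 1) (htI 1 2) hfg]
    exact h.pent E I hI t ht htI

lemma zeroth (μ : R) : IsAssocN R 0 μ (one1 R) := by
  have hz : ∀ (E : Type) [Ring E] [Algebra R E] (I : Submodule R E), IsNilp 0 I →
      ∀ x y : E, x = y := by
    intro E _ _ I hI x y
    have h1 : (1 : E) = 0 := hI.prod_zero [] (by simp) rfl
    rw [← mul_one x, h1, ← mul_one y, h1, mul_zero, mul_zero]
  exact ⟨rfl, fun v w h => by omega, fun E _ _ I hI a _ b _ => hz E I hI _ _,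
    fun E _ _ I hI a _ b _ c _ _ _ _ => hz E I hI _ _,
    fun E _ _ I hI t _ _ => hz E I hI _ _⟩

/-- the alphabet with one letter of degree `m` -/
def alph1 (m : ℕ) (hm : 1 ≤ m) : Alph Unit where
  dg _ := m
  pos _ := hm
  fib n := if n = m then {()} else ∅
  mem_fib n s := by
    split_ifs with h
    · simp [h]
    · simp only [Finset.notMem_empty, false_iff]
      exact fun h2 => h h2.symm

lemma wt1 (m : ℕ) (hm : 1 ≤ m) (w : List Unit) : (alph1 m hm).wt w = m * w.length := by
  induction w with
  | nil => rfl
  | cons a w ih =>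
    have e : (alph1 m hm).wt (a :: w) = m + (alph1 m hm).wt w := by simp [Alph.wt]; rfl
    rw [e, ih, List.length_cons]
    ring

/-- the correction in degree `m` -/
lemma correct (hPRA : SpecPRA) (hOPL : SpecOPL) {m N : ℕ} (hm : 3 ≤ m) {Q : AA R} (hQ : IsGQ m Q)
    {μ : R} {f : List (Fin 2) → R} (hf : IsAssocN R N μ f) :
    ∃ g : List (Fin 2) → R, IsAssocN R N μ g ∧ (∀ w, w.length < m → g w = f w) ∧
      ∀ w, w.length = m → g w = f w + cf Q w := by
  let A : GFam R Unit := { alph1 m (by omega) with Q := fun _ => Q, gq := fun _ => hQ }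
  have hwt : ∀ w : List Unit, A.wt w = m * w.length := wt1 m (by omega)
  have hu : IsGroupLike (fun w : List Unit => ec R w.length) := gl_ec
  refine ⟨A.act (fun w => ec R w.length) f,
    hPRA R Unit A _ hu (fun s => by change 2 ≤ m; omega) N μ f hf, ?_, ?_⟩
  · exact (hOPL R Unit A m _ f ec_zero hf.one (fun w h1 h2 => by
      exfalso
      rw [hwt] at h2
      have := List.length_pos_of_ne_nil h1
      nlinarith) (by omega)).1
  · intro v hv
    rw [(hOPL R Unit A m _ f ec_zero hf.one (fun w h1 h2 => by
      exfalso
      rw [hwt] at h2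
      have := List.length_pos_of_ne_nil h1
      nlinarith) (by omega)).2 v hv]
    congr 1
    have e : (A.wd (m + 1)).filter (fun w => A.wt w = m) = {[()]} := by
      ext w
      rw [Finset.mem_filter, Finset.mem_singleton, Alph.mem_wd, hwt]
      constructor
      · rintro ⟨-, h2⟩
        have h3 : w.length = 1 := by
          have : m * w.length = m * 1 := by rw [h2, mul_one]
          exact Nat.eq_of_mul_eq_mul_left (by omega) this
        obtain ⟨a, rfl⟩ := List.length_eq_one_iff.1 h3
        rfl
      · rintro rfl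
        simp
    rw [e, Finset.sum_singleton]
    have e2 : A.Lw [()] 1 = Q := by
      unfold GFam.Lw
      rw [List.map_cons, List.prod_cons, List.map_nil, List.prod_nil, mul_one]
      change LQ Q 1 = Q
      rw [LQ_apply, DQ_one, zero_add, one_mul]
    rw [e2]
    simp [ec_one]

end DSCb

open DSCb in
theorem specDSC (hPRA : SpecPRA) (hOPL : SpecOPL) (hLIN : SpecLIN) (hBCH : SpecBCH) : SpecDSC := by
  intro hC
  -- the step
  have step : ∀ (n : ℕ) (p : List (Fin 2) → ℚ), IsAssocN ℚ n 1 p →
      ∃ p' : List (Fin 2) → ℚ, IsAssocN ℚ (n + 1) 1 p' ∧ ∀ w, w.length < n → p' w = p w := by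
    intro n p hp
    have hpC : IsAssocN ℂ n 1 (fun w => ((p w : ℚ) : ℂ)) := by
      have h := hBCH.1 ℚ ℂ (algebraMap ℚ ℂ) n 1 p hp
      rw [map_one] at h
      exact h
    have key : ∀ m, m ≤ n → ∃ Φ : List (Fin 2) → ℂ, IsAssocN ℂ (n + 1) 1 Φ ∧
        ∀ w, w.length < m → Φ w = ((p w : ℚ) : ℂ) := by
      intro m
      induction m with
      | zero =>
        intro _
        obtain ⟨Φ, h⟩ := hC (n + 1)
        exact ⟨Φ, h, fun w hw => by omega⟩
      | succ m ih =>
        intro hmn
        obtain ⟨Φ, h, hΦ⟩ := ih (by omega)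
        by_cases hm0 : m = 0
        · subst hm0
          refine ⟨Φ, h, fun w hw => ?_⟩
          have : w = [] := List.length_eq_zero_iff.1 (by omega)
          subst this
          rw [h.one, hp.one]
          simp
        obtain ⟨Q, hQ⟩ := exists_cf (k := ℂ)
          (fun w => if w.length = m then ((p w : ℚ) : ℂ) - Φ w else 0) (wl (m + 1))
        have hQ' : ∀ w, cf Q w = if w.length = m then ((p w : ℚ) : ℂ) - Φ w else 0 := by
          intro w
          rw [hQ w]
          split_ifs with h1 h2 h2
          · rfl
          · rfl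
          · exfalso
            apply h1
            rw [mem_wl]
            omega
          · rfl
        obtain ⟨k1, k2⟩ := hLIN ℂ m 1 Φ (fun w => ((p w : ℚ) : ℂ)) (by omega)
          (mono (by omega) h) (mono (by omega) hpC) hΦ Q hQ'
        by_cases hm : m ≤ 2
        · refine ⟨Φ, h, fun w hw => ?_⟩
          by_cases hw' : w.length < m
          · exact hΦ w hw'
          have h3 := hQ' w
          rw [k1 hm, cf_zero, if_pos (by omega)] at h3
          exact (sub_eq_zero.1 h3.symm).symm
        · obtain ⟨g, g1, g2, g3⟩ := correct hPRA hOPL (by omega) (k2 (by omega)) h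
          refine ⟨g, g1, fun w hw => ?_⟩
          by_cases hw' : w.length < m
          · rw [g2 w hw', hΦ w hw']
          · rw [g3 w (by omega), hQ' w, if_pos (by omega)]
            ring
    obtain ⟨Φ, h, hΦ⟩ := key n le_rfl
    exact DSCa.descend n p Φ h hΦ
  choose F hF1 hF2 using step
  -- the sequence
  let G : (n : ℕ) → {p : List (Fin 2) → ℚ // IsAssocN ℚ n 1 p} := fun n =>
    Nat.rec ⟨one1 ℚ, zeroth 1⟩ (fun n p => ⟨F n p.1 p.2, hF1 n p.1 p.2⟩) n
  have hG : ∀ n w, w.length < n → (G (n + 1)).1 w = (G n).1 w := fun n w hw =>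
    hF2 n (G n).1 (G n).2 w hw
  have hG2 : ∀ n w, w.length < n → (G n).1 w = (G (w.length + 1)).1 w := by
    intro n
    induction n with
    | zero => intro w hw; omega
    | succ n ih =>
      intro w hw
      by_cases h : w.length < n
      · rw [hG n w h, ih w h]
      · rw [show n = w.length by omega]
  refine ⟨fun w => (G (w.length + 1)).1 w, fun N => ?_⟩
  exact congr (G N).2 (fun w hw => hG2 N w hw) (G ([].length + 1)).2.one

end MP446U
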