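import Pool.Agent.Lib.MP_446dfa_ag.unc.Defs

set_option linter.all false

/-!
# The Leibniz formula for the action of a group-like series
-/

noncomputable section

namespace MP446U.Lb

open MP446 MP446Y MP446Z MP446S MP446I

section Splt

attribute [-instance] instBEqProd List.instBEq

variable {S : Type}

/-- the decompositions of a word into two complementary subwords -/
def splt : List S → List (List S × List S)
  | [] => [([], [])]
  | s :: w => (splt w).map (fun p => (s :: p.1, p.2)) ++ (splt w).map (fun p => (p.1, s :: p.2))

lemma count_map_cons [DecidableEq S] (s : S) (l : List (List S)) (w : List S) :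
    (l.map (s :: ·)).count w = match w with
      | [] => 0
      | a :: w' => if a = s then l.count w' else 0 := by
  cases w with
  | nil => simp [List.count_eq_zero]
  | cons a w' =>
    by_cases h : a = s
    · subst h
      simp only [if_true]
      exact List.count_map_of_injective l (a :: ·) (fun x y hxy => by simpa using hxy) w'
    · simp only [h, if_false]
      rw [List.count_eq_zero]
      intro hm
      obtain ⟨t, -, ht⟩ := List.mem_map.1 hm
      exact h (List.cons.inj ht).1.symm

lemma count_map_cons_left [DecidableEq S] (s : S) (l : List (List S × List S)) (p q : List S) :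
    (l.map (fun x => (s :: x.1, x.2))).count (p, q) = match p with
      | [] => 0
      | a :: p' => if a = s then l.count (p', q) else 0 := by
  cases p with
  | nil => simp [List.count_eq_zero]
  | cons a p' =>
    by_cases h : a = s
    · subst h
      simp only [if_true]
      exact List.count_map_of_injective l (fun x : List S × List S => (a :: x.1, x.2))
        (fun x y hxy => by
          obtain ⟨x1, x2⟩ := x
          obtain ⟨y1, y2⟩ := y
          simpa using hxy) (p', q)
    · simp only [h, if_false]
      rw [List.count_eq_zero]
      intro hm
      obtain ⟨t, -, ht⟩ := List.mem_map.1 hm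
      exact h (List.cons.inj (Prod.ext_iff.1 ht).1).1.symm

lemma count_map_cons_right [DecidableEq S] (s : S) (l : List (List S × List S)) (p q : List S) :
    (l.map (fun x => (x.1, s :: x.2))).count (p, q) = match q with
      | [] => 0
      | a :: q' => if a = s then l.count (p, q') else 0 := by
  cases q with
  | nil => simp [List.count_eq_zero]
  | cons a q' =>
    by_cases h : a = s
    · subst h
      simp only [if_true]
      exact List.count_map_of_injective l (fun x : List S × List S => (x.1, a :: x.2))
        (fun x y hxy => by
          obtain ⟨x1, x2⟩ := x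
          obtain ⟨y1, y2⟩ := y
          simpa using hxy) (p, q')
    · simp only [h, if_false]
      rw [List.count_eq_zero]
      intro hm
      obtain ⟨t, -, ht⟩ := List.mem_map.1 hm
      exact h (List.cons.inj (Prod.ext_iff.1 ht).2).1.symm

lemma count_splt [DecidableEq S] (w p q : List S) : (splt w).count (p, q) = (shuffle p q).count w := by
  induction w generalizing p q with
  | nil =>
    cases p with
    | nil =>
      cases q with
      | nil => simp [splt]
      | cons b q => simp [splt]
    | cons a p =>
      cases q with
      | nil => simp [splt]
      | cons b q =>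
        rw [shuffle_cons, List.count_append, count_map_cons, count_map_cons]
        simp [splt]
  | cons s w ih =>
    rw [splt, List.count_append, count_map_cons_left, count_map_cons_right]
    cases p with
    | nil =>
      cases q with
      | nil => simp
      | cons b q =>
        simp only [ih, shuffle_nil_left]
        by_cases h : b = s
        · subst h
          simp [List.count_singleton]
        · rw [if_neg h]
          simp [h]
    | cons a p =>
      cases q with
      | nil =>
        simp only [ih, shuffle_nil_right]
        by_cases h : a = s
        · subst h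
          simp [List.count_singleton]
        · rw [if_neg h]
          simp [h]
      | cons b q =>
        rw [shuffle_cons, List.count_append, count_map_cons, count_map_cons]
        simp only [ih]
        by_cases h : a = s
        · by_cases h' : b = s
          · simp [h, h']
          · simp [h, h', Ne.symm h']
        · by_cases h' : b = s
          · simp [h, h', Ne.symm h]
          · simp [h, h', Ne.symm h, Ne.symm h']

lemma wt_splt (A : Alph S) (w : List S) : ∀ p ∈ splt w, A.wt p.1 + A.wt p.2 = A.wt w := by
  induction w with
  | nil => intro p hp; simp [splt] at hp; subst hp; simp [Alph.wt]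
  | cons s w ih =>
    intro p hp
    rw [splt, List.mem_append, List.mem_map, List.mem_map] at hp
    rcases hp with ⟨t, ht, rfl⟩ | ⟨t, ht, rfl⟩
    · have := ih t ht
      simp only [Alph.wt, List.map_cons, List.sum_cons] at this ⊢
      omega
    · have := ih t ht
      simp only [Alph.wt, List.map_cons, List.sum_cons] at this ⊢
      omega

lemma wt_shuffle (A : Alph S) (p q w : List S) (hw : w ∈ shuffle p q) :
    A.wt w = A.wt p + A.wt q := by
  classical
  have h : 0 < (splt w).count (p, q) := by
    rw [count_splt]
    exact List.count_pos_iff.2 hw
  exact (wt_splt A w _ (List.count_pos_iff.1 h)).symm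

variable {R : Type} [CommRing R] {M1 M2 M3 : Type} [AddCommGroup M1] [Module R M1]
  [AddCommGroup M2] [Module R M2] [AddCommGroup M3] [Module R M3]

lemma sum_splt (A : Alph S) (u : List S → R) (N : ℕ)
    (hu : ∀ v w, A.wt v + A.wt w < N → u v * u w = ((shuffle v w).map u).sum)
    (F : List S → List S → M3) :
    ∑ r ∈ A.wd N, u r • ((splt r).map (fun p => F p.1 p.2)).sum =
      ∑ p ∈ A.wd N, ∑ q ∈ A.wd N, if A.wt p + A.wt q < N then (u p * u q) • F p q else 0 := by
  classical
  have e1 : ∀ r ∈ A.wd N, u r • ((splt r).map (fun p => F p.1 p.2)).sum =
      ∑ p ∈ A.wd N, ∑ q ∈ A.wd N, (((shuffle p q).count r : R) * u r) • F p q := by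
    intro r hr
    rw [Alph.mem_wd] at hr
    rw [Finset.sum_list_map_count, Finset.smul_sum, ← Finset.sum_product']
    have e2 : ∀ pq ∈ (splt r).toFinset, u r • (splt r).count pq • F pq.1 pq.2 =
        (((shuffle pq.1 pq.2).count r : R) * u r) • F pq.1 pq.2 := by
      rintro ⟨p, q⟩ -
      rw [count_splt, ← Nat.cast_smul_eq_nsmul R, smul_smul, mul_comm]
    rw [Finset.sum_congr rfl e2]
    refine Finset.sum_subset ?_ ?_
    · rintro ⟨p, q⟩ hpq
      rw [List.mem_toFinset] at hpq
      have := wt_splt A r _ hpq
      simp only at this
      rw [Finset.mem_product, Alph.mem_wd, Alph.mem_wd]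
      constructor
      · simp only
        omega
      · simp only
        omega
    · rintro ⟨p, q⟩ - hpq
      rw [List.mem_toFinset] at hpq
      rw [← count_splt, List.count_eq_zero_of_not_mem hpq, Nat.cast_zero, zero_mul, zero_smul]
  rw [Finset.sum_congr rfl e1, Finset.sum_comm]
  refine Finset.sum_congr rfl (fun p hp => ?_)
  rw [Finset.sum_comm]
  refine Finset.sum_congr rfl (fun q hq => ?_)
  rw [← Finset.sum_smul]
  split_ifs with h
  · congr 1
    rw [hu p q h, Finset.sum_list_map_count]
    have e3 : ∀ r ∈ (shuffle p q).toFinset, (shuffle p q).count r • u r =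
        ((shuffle p q).count r : R) * u r := by
      intro r _
      rw [nsmul_eq_mul]
    rw [Finset.sum_congr rfl e3]
    symm
    refine Finset.sum_subset ?_ ?_
    · intro r hr
      rw [List.mem_toFinset] at hr
      rw [Alph.mem_wd, wt_shuffle A p q r hr]
      exact h
    · intro r _ hr
      rw [List.mem_toFinset] at hr
      rw [List.count_eq_zero_of_not_mem hr, Nat.cast_zero, zero_mul]
  · have e4 : ∑ r ∈ A.wd N, ((shuffle p q).count r : R) * u r = 0 := by
      refine Finset.sum_eq_zero (fun r hr => ?_)
      rw [List.count_eq_zero_of_not_mem, Nat.cast_zero, zero_mul]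
      intro hr2
      rw [Alph.mem_wd, wt_shuffle A p q r hr2] at hr
      exact h hr
    rw [e4, zero_smul]

/-- the Leibniz formula for a word -/
lemma leib (m : M1 →ₗ[R] M2 →ₗ[R] M3) (x : S → Module.End R M1) (y : S → Module.End R M2)
    (z : S → Module.End R M3) (h : ∀ s a b, z s (m a b) = m (x s a) b + m a (y s b))
    (w : List S) (a : M1) (b : M2) :
    (w.map z).prod (m a b) =
      ((splt w).map (fun p => m ((p.1.map x).prod a) ((p.2.map y).prod b))).sum := by
  induction w with
  | nil => simp [splt]
  | cons s w ih =>
    rw [List.map_cons, List.prod_cons, Module.End.mul_apply, ih, splt, List.map_append,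
      List.sum_append, List.map_map, List.map_map]
    generalize splt w = l
    induction l with
    | nil => simp
    | cons p l ihl =>
      simp only [List.map_cons, List.sum_cons, map_add, h] at ihl ⊢
      rw [ihl]
      simp only [Function.comp_apply, List.map_cons, List.prod_cons, Module.End.mul_apply]
      abel

/-- the Leibniz formula for a group-like series -/
lemma leib_gl (A : Alph S) (u : List S → R) (N : ℕ)
    (hu : ∀ v w, A.wt v + A.wt w < N → u v * u w = ((shuffle v w).map u).sum)
    (m : M1 →ₗ[R] M2 →ₗ[R] M3) (x : S → Module.End R M1) (y : S → Module.End R M2)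
    (z : S → Module.End R M3) (h : ∀ s a b, z s (m a b) = m (x s a) b + m a (y s b))
    (a : M1) (b : M2) :
    ∑ r ∈ A.wd N, u r • (r.map z).prod (m a b) =
      ∑ p ∈ A.wd N, ∑ q ∈ A.wd N, if A.wt p + A.wt q < N then
        (u p * u q) • m ((p.map x).prod a) ((q.map y).prod b) else 0 := by
  rw [← sum_splt A u N hu (fun p q => m ((p.map x).prod a) ((q.map y).prod b))]
  refine Finset.sum_congr rfl (fun r _ => ?_)
  rw [leib m x y z h]

end Splt

end MP446U.Lb
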