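import Pool.Agent.Lib.MP_446dfa_ag.unc.Base
import Pool.Agent.Lib.MP_446dfa_ag.unc.Leib
import Pool.Agent.Lib.MP_446dfa_ag.grp.Src

set_option linter.all false

/-!
# A polynomial orthogonal to all proper shuffles is a Lie polynomial
-/

noncomputable section

namespace MP446U.DYN

open MP446 MP446Y MP446Z MP446S MP446I MP446U.Lb

attribute [-instance] instBEqProd List.instBEq

/-- the monomial of a word -/
def mw (w : List ℕ) : FA ℚ ℕ := (w.map (letter ℚ)).prod

lemma mw_nil : mw [] = 1 := rfl

lemma mw_cons (a : ℕ) (w : List ℕ) : mw (a :: w) = letter ℚ a * mw w := by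
  unfold mw
  rw [List.map_cons, List.prod_cons]

lemma mw_append (v w : List ℕ) : mw (v ++ w) = mw v * mw w := by
  unfold mw
  rw [List.map_append, List.prod_append]

lemma toS_mw (w v : List ℕ) : toS (mw w) v = if w = v then 1 else 0 := by
  induction w generalizing v with
  | nil =>
    rw [mw_nil, toS_one]
    cases v with
    | nil => simp
    | cons a v => simp
  | cons a w ih =>
    rw [mw_cons]
    cases v with
    | nil => rw [toS_letter_nil]; simp
    | cons b v =>
      rw [toS_letter_cons, ih]
      by_cases h : a = b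
      · subst h
        simp
      · rw [if_neg h, if_neg]
        intro h2
        exact h (List.cons.inj h2).1

lemma sum_map_neg' {α : Type} {M : Type} [AddCommGroup M] (l : List α) (f : α → M) :
    (l.map (fun a => -f a)).sum = -(l.map f).sum := by
  induction l with
  | nil => simp
  | cons a l ih => rw [List.map_cons, List.map_cons, List.sum_cons, List.sum_cons, ih, neg_add]

/-- the term of a pair of words -/
def gg (p : List ℕ × List ℕ) : FA ℚ ℕ := ((-1 : ℚ) ^ p.2.length) • (mw p.1 * mw p.2.reverse)

def GG (w : List ℕ) : FA ℚ ℕ := ((splt w).map gg).sum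

def FF (w : List ℕ) : FA ℚ ℕ := ((splt w).map (fun p => (p.1.length : ℚ) • gg p)).sum

lemma gg_left (a : ℕ) (p : List ℕ × List ℕ) : gg (a :: p.1, p.2) = letter ℚ a * gg p := by
  unfold gg
  rw [mw_cons, mul_smul_comm, mul_assoc]

lemma gg_right (a : ℕ) (p : List ℕ × List ℕ) : gg (p.1, a :: p.2) = -(gg p * letter ℚ a) := by
  unfold gg
  dsimp only
  rw [List.length_cons, pow_succ, List.reverse_cons, mw_append, mw_cons, mw_nil, mul_one,
    smul_mul_assoc, mul_neg_one, neg_smul, mul_assoc]

lemma GG_cons (a : ℕ) (w : List ℕ) : GG (a :: w) = letter ℚ a * GG w - GG w * letter ℚ a := by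
  unfold GG
  rw [splt, List.map_append, List.sum_append, List.map_map, List.map_map, sub_eq_add_neg]
  congr 1
  · rw [← List.sum_map_mul_left]
    congr 1
    apply List.map_congr_left
    intro p _
    exact gg_left a p
  · rw [← List.sum_map_mul_right, ← sum_map_neg']
    congr 1
    apply List.map_congr_left
    intro p _
    exact gg_right a p

lemma FF_cons (a : ℕ) (w : List ℕ) :
    FF (a :: w) = letter ℚ a * FF w - FF w * letter ℚ a + letter ℚ a * GG w := by
  unfold FF GG
  rw [splt, List.map_append, List.sum_append, List.map_map, List.map_map]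
  have e1 : ((splt w).map ((fun p : List ℕ × List ℕ => (p.1.length : ℚ) • gg p) ∘
      (fun p => (a :: p.1, p.2)))).sum =
      letter ℚ a * ((splt w).map (fun p => (p.1.length : ℚ) • gg p)).sum +
        letter ℚ a * ((splt w).map gg).sum := by
    rw [← List.sum_map_mul_left, ← List.sum_map_mul_left, ← List.sum_map_add]
    congr 1
    apply List.map_congr_left
    intro p _
    simp only [Function.comp_apply]
    rw [gg_left, List.length_cons, Nat.cast_add, Nat.cast_one, add_smul, one_smul, mul_smul_comm]
  have e2 : ((splt w).map ((fun p : List ℕ × List ℕ => (p.1.length : ℚ) • gg p) ∘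
      (fun p => (p.1, a :: p.2)))).sum =
      -(((splt w).map (fun p => (p.1.length : ℚ) • gg p)).sum * letter ℚ a) := by
    rw [← List.sum_map_mul_right, ← sum_map_neg']
    congr 1
    apply List.map_congr_left
    intro p _
    simp only [Function.comp_apply]
    rw [gg_right, smul_neg, smul_mul_assoc]
  rw [e1, e2]
  abel

lemma GG_nil : GG [] = 1 := by
  unfold GG gg
  simp [splt, mw_nil]

lemma FF_nil : FF [] = 0 := by
  unfold FF
  simp [splt]

lemma GG_ne {w : List ℕ} (hw : w ≠ []) : GG w = 0 := by
  induction w with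
  | nil => exact absurd rfl hw
  | cons a w ih =>
    rw [GG_cons]
    by_cases h : w = []
    · subst h
      rw [GG_nil, mul_one, one_mul, sub_self]
    · rw [ih h, mul_zero, zero_mul, sub_self]

lemma FF_eq (w : List ℕ) : FF w = brF ℚ w := by
  induction w with
  | nil => rw [FF_nil]; rfl
  | cons a w ih =>
    rw [FF_cons]
    cases w with
    | nil =>
      rw [FF_nil, GG_nil, mul_zero, zero_mul, sub_zero, zero_add, mul_one]
      rfl
    | cons b w =>
      rw [GG_ne (by simp), mul_zero, add_zero, ih, brF_cons, LieRing.of_associative_ring_bracket]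

/-- swapping the sums over the words and over the pairs -/
lemma sum_pairs (x : List ℕ → ℚ) (W : Finset (List ℕ)) (hx : ∀ w, w ∉ W → x w = 0)
    (g : List ℕ × List ℕ → FA ℚ ℕ) (P : Finset (List ℕ × List ℕ))
    (hP : ∀ w ∈ W, ∀ p ∈ splt w, p ∈ P) :
    ∑ w ∈ W, x w • ((splt w).map g).sum =
      ∑ p ∈ P, ((shuffle p.1 p.2).map x).sum • g p := by
  classical
  have e1 : ∀ w ∈ W, x w • ((splt w).map g).sum =
      ∑ p ∈ P, (((shuffle p.1 p.2).count w : ℚ) * x w) • g p := by
    intro w hw
    rw [Finset.sum_list_map_count, Finset.smul_sum]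
    have e2 : ∀ pq ∈ (splt w).toFinset, x w • (splt w).count pq • g pq =
        (((shuffle pq.1 pq.2).count w : ℚ) * x w) • g pq := by
      rintro ⟨p, q⟩ -
      rw [count_splt, ← Nat.cast_smul_eq_nsmul ℚ, smul_smul, mul_comm]
    rw [Finset.sum_congr rfl e2]
    refine Finset.sum_subset ?_ ?_
    · intro pq hpq
      rw [List.mem_toFinset] at hpq
      exact hP w hw pq hpq
    · rintro ⟨p, q⟩ - hpq
      rw [List.mem_toFinset] at hpq
      rw [← count_splt, List.count_eq_zero_of_not_mem hpq, Nat.cast_zero, zero_mul, zero_smul]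
  rw [Finset.sum_congr rfl e1, Finset.sum_comm]
  refine Finset.sum_congr rfl (fun pq _ => ?_)
  rw [← Finset.sum_smul]
  congr 1
  rw [Finset.sum_list_map_count (shuffle pq.1 pq.2) x]
  have e3 : ∀ w ∈ (shuffle pq.1 pq.2).toFinset, (shuffle pq.1 pq.2).count w • x w =
      ((shuffle pq.1 pq.2).count w : ℚ) * x w := by
    intro w _
    rw [nsmul_eq_mul]
  rw [Finset.sum_congr rfl e3]
  -- both sums are equal to the sum over the union
  have e4 : ∑ w ∈ W, ((shuffle pq.1 pq.2).count w : ℚ) * x w =
      ∑ w ∈ W ∪ (shuffle pq.1 pq.2).toFinset, ((shuffle pq.1 pq.2).count w : ℚ) * x w := by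
    refine Finset.sum_subset Finset.subset_union_left ?_
    intro w _ hw
    rw [hx w hw, mul_zero]
  have e5 : ∑ w ∈ (shuffle pq.1 pq.2).toFinset, ((shuffle pq.1 pq.2).count w : ℚ) * x w =
      ∑ w ∈ W ∪ (shuffle pq.1 pq.2).toFinset, ((shuffle pq.1 pq.2).count w : ℚ) * x w := by
    refine Finset.sum_subset Finset.subset_union_right ?_
    intro w _ hw
    rw [List.mem_toFinset] at hw
    rw [List.count_eq_zero_of_not_mem hw, Nat.cast_zero, zero_mul]
  rw [e4, e5]

theorem exists_lie (x : List ℕ → ℚ) (W : Finset (List ℕ)) (hx : ∀ w, w ∉ W → x w = 0)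
    (h0 : x [] = 0)
    (hsh : ∀ p q : List ℕ, p ≠ [] → q ≠ [] → ((shuffle p q).map x).sum = 0) :
    ∃ P : FreeLieAlgebra ℚ ℕ, ∀ w, (embN ℚ P).coeff (FreeMonoid.ofList w) = x w := by
  classical
  let y : List ℕ → ℚ := fun w => (w.length : ℚ)⁻¹ * x w
  have hy : ∀ w, w ∉ W → y w = 0 := fun w hw => by
    change (w.length : ℚ)⁻¹ * x w = 0
    rw [hx w hw, mul_zero]
  have hysh : ∀ p q : List ℕ, p ≠ [] → q ≠ [] → ((shuffle p q).map y).sum = 0 := by
    intro p q hp hq
    have e : (shuffle p q).map y =
        (shuffle p q).map (fun w => ((p.length + q.length : ℕ) : ℚ)⁻¹ * x w) := by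
      apply List.map_congr_left
      intro w hw
      change (w.length : ℚ)⁻¹ * x w = _
      rw [shuffle_length p q w hw]
    rw [e, List.sum_map_mul_left, hsh p q hp hq, mul_zero]
  let P : Finset (List ℕ × List ℕ) := W.biUnion (fun w => (splt w).toFinset)
  refine ⟨∑ w ∈ W, y w • rbr ℚ w, ?_⟩
  have h1 : embN ℚ (∑ w ∈ W, y w • rbr ℚ w) = ∑ w ∈ W, y w • FF w := by
    rw [map_sum]
    refine Finset.sum_congr rfl (fun w _ => ?_)
    rw [map_smul, FF_eq]
    congr 1
    exact map_rbr ℚ w
  have h2 : ∑ w ∈ W, y w • FF w =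
      ∑ p ∈ P, ((shuffle p.1 p.2).map y).sum • ((p.1.length : ℚ) • gg p) :=
    sum_pairs y W hy _ P (fun w hw p hp =>
      Finset.mem_biUnion.2 ⟨w, hw, List.mem_toFinset.2 hp⟩)
  have h3 : ∑ p ∈ P, ((shuffle p.1 p.2).map y).sum • ((p.1.length : ℚ) • gg p) =
      ∑ p ∈ P.filter (fun p => p.2 = []), x p.1 • mw p.1 := by
    rw [Finset.sum_filter]
    refine Finset.sum_congr rfl (fun p _ => ?_)
    obtain ⟨p, q⟩ := p
    dsimp only
    by_cases hq : q = []
    · subst hq
      rw [if_pos rfl, shuffle_nil_right, List.map_singleton, List.sum_singleton]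
      by_cases hp : p = []
      · subst hp
        rw [h0]
        simp
      · have hl : (p.length : ℚ) ≠ 0 := by
          have := List.length_pos_of_ne_nil hp
          exact_mod_cast this.ne'
        unfold gg
        dsimp only
        rw [List.reverse_nil, mw_nil, mul_one, List.length_nil, pow_zero, one_smul, smul_smul]
        congr 1
        change (p.length : ℚ)⁻¹ * x p * (p.length : ℚ) = x p
        field_simp
    · rw [if_neg hq]
      by_cases hp : p = []
      · subst hp
        simp
      · rw [hysh p q hp hq, zero_smul]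
  have h4 : ∑ p ∈ P.filter (fun p => p.2 = []), x p.1 • mw p.1 = ∑ w ∈ W, x w • mw w := by
    refine Finset.sum_bij' (fun p _ => p.1) (fun w _ => (w, [])) ?_ ?_ ?_ ?_ ?_
    · rintro ⟨p, q⟩ hp
      rw [Finset.mem_filter] at hp
      obtain ⟨hp, hq⟩ := hp
      dsimp only at hq
      subst hq
      obtain ⟨w, hw, hw2⟩ := Finset.mem_biUnion.1 hp
      rw [List.mem_toFinset, ← List.count_pos_iff, count_splt, shuffle_nil_right,
        List.count_pos_iff, List.mem_singleton] at hw2
      subst hw2
      exact hw
    · intro w hw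
      rw [Finset.mem_filter]
      refine ⟨Finset.mem_biUnion.2 ⟨w, hw, ?_⟩, rfl⟩
      rw [List.mem_toFinset, ← List.count_pos_iff, count_splt, shuffle_nil_right,
        List.count_pos_iff, List.mem_singleton]
    · rintro ⟨p, q⟩ hp
      rw [Finset.mem_filter] at hp
      have := hp.2
      dsimp only at this
      subst this
      rfl
    · intro w _
      rfl
    · intro p _
      rfl
  intro v
  rw [h1, h2, h3, h4]
  have h5 : toS (∑ w ∈ W, x w • mw w) v = ∑ w ∈ W, x w * (if w = v then 1 else 0) := by
    have : ∀ T : Finset (List ℕ), toS (∑ w ∈ T, x w • mw w) v =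
        ∑ w ∈ T, x w * (if w = v then 1 else 0) := by
      intro T
      induction T using Finset.induction_on with
      | empty =>
        rw [Finset.sum_empty, Finset.sum_empty, toS_zero]
        rfl
      | insert w T hw ih =>
        rw [Finset.sum_insert hw, Finset.sum_insert hw, toS_add, Ser.add_apply, ih, toS_smul]
        congr 1
        rw [← toS_mw]
        rfl
    exact this W
  change toS (∑ w ∈ W, x w • mw w) v = x v
  rw [h5]
  simp only [mul_ite, mul_one, mul_zero]
  rw [Finset.sum_ite_eq']
  split_ifs with h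
  · rfl
  · exact (hx v h).symm

end MP446U.DYN
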