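import Pool.Agent.Lib.MP_446dfa_ag.unc.Val
import Pool.Agent.Lib.MP_446dfa_ag.unc.Spec

set_option linter.all false

/-!
# Exponential, logarithm and powers of unipotent elements
-/

noncomputable section

namespace MP446U.V

open MP446 MP446Y MP446Z MP446S MP446I

section EvP

open PowerSeries

variable {R : Type} [CommRing R] {E : Type} [Ring E] [Algebra R E] {N : ℕ} {z : E}

/-- the value of a power series at a nilpotent element -/
def evP (N : ℕ) (z : E) (p : PowerSeries R) : E := Polynomial.aeval z (trunc N p)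

lemma evP_eq (N : ℕ) (z : E) (p : PowerSeries R) :
    evP N z p = ∑ k ∈ Finset.range N, coeff k p • z ^ k := by
  unfold evP
  rw [Polynomial.aeval_def, eval₂_trunc_eq_sum_range]
  refine Finset.sum_congr rfl (fun k _ => ?_)
  rw [Algebra.smul_def]

lemma evP_of_coe (hz : z ^ N = 0) (P : Polynomial R) :
    Polynomial.aeval z P = evP N z (P : PowerSeries R) := by
  unfold evP
  rw [← sub_eq_zero, ← map_sub]
  have h : (Polynomial.X : Polynomial R) ^ N ∣ P - trunc N (P : PowerSeries R) := by
    rw [Polynomial.X_pow_dvd_iff]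
    intro d hd
    rw [Polynomial.coeff_sub, coeff_trunc, if_pos hd, Polynomial.coeff_coe, sub_self]
  obtain ⟨Q, hQ⟩ := h
  rw [hQ, map_mul, map_pow, Polynomial.aeval_X, hz, zero_mul]

lemma evP_mul (hz : z ^ N = 0) (p q : PowerSeries R) :
    evP N z (p * q) = evP N z p * evP N z q := by
  have h := evP_of_coe hz (trunc N p * trunc N q)
  rw [map_mul] at h
  change evP N z p * evP N z q = _ at h
  rw [h]
  unfold evP
  rw [Polynomial.coe_mul, trunc_trunc_mul_trunc]

lemma evP_one (hz : z ^ N = 0) : evP N z (1 : PowerSeries R) = 1 := by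
  have h := evP_of_coe (R := R) hz 1
  rw [map_one, Polynomial.coe_one] at h
  exact h.symm

lemma evP_X (hz : z ^ N = 0) : evP N z (X : PowerSeries R) = z := by
  have h := evP_of_coe (R := R) hz Polynomial.X
  rw [Polynomial.aeval_X, Polynomial.coe_X] at h
  exact h.symm

lemma evP_pow (hz : z ^ N = 0) (p : PowerSeries R) (k : ℕ) :
    evP N z (p ^ k) = evP N z p ^ k := by
  induction k with
  | zero => rw [pow_zero, pow_zero, evP_one hz]
  | succ k ih => rw [pow_succ, pow_succ, evP_mul hz, ih]

lemma evP_add (p q : PowerSeries R) : evP N z (p + q) = evP N z p + evP N z q := by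
  unfold evP
  rw [map_add, map_add]

lemma evP_sub (p q : PowerSeries R) : evP N z (p - q) = evP N z p - evP N z q := by
  unfold evP
  rw [map_sub, map_sub]

lemma evP_smul (c : R) (p : PowerSeries R) : evP N z (c • p) = c • evP N z p := by
  unfold evP
  rw [map_smul, map_smul]

lemma coeff_pow_zero {q : PowerSeries R} (hq : constantCoeff q = 0) {d e : ℕ} (h : e < d) :
    coeff e (q ^ d) = 0 := by
  have h1 : (X : PowerSeries R) ∣ q := X_dvd_iff.2 hq
  exact X_pow_dvd_iff.1 (pow_dvd_pow_of_dvd h1 d) e h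

lemma evP_subst (hz : z ^ N = 0) (p : PowerSeries R) {q : PowerSeries R}
    (hq : constantCoeff q = 0) : evP N z (p.subst q) = evP N (evP N z q) p := by
  have hs : HasSubst q := HasSubst.of_constantCoeff_zero' hq
  rw [evP_eq N (evP N z q) p, evP_eq]
  have e1 : ∀ d ∈ Finset.range N, coeff d p • evP N z q ^ d =
      ∑ e ∈ Finset.range N, (coeff d p * coeff e (q ^ d)) • z ^ e := by
    intro d _
    rw [← evP_pow hz, evP_eq, Finset.smul_sum]
    refine Finset.sum_congr rfl (fun e _ => ?_)
    rw [smul_smul]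
  rw [Finset.sum_congr rfl e1, Finset.sum_comm]
  refine Finset.sum_congr rfl (fun e he => ?_)
  rw [Finset.mem_range] at he
  rw [← Finset.sum_smul]
  congr 1
  rw [coeff_subst' hs, finsum_eq_sum_of_support_subset (s := Finset.range N)]
  · rfl
  · intro d hd
    rw [Finset.mem_coe, Finset.mem_range]
    by_contra hc
    apply hd
    simp only
    rw [coeff_pow_zero hq (by omega), smul_zero]

lemma evP_commute {w : E} (h : Commute w z) (p : PowerSeries R) : Commute w (evP N z p) := by
  rw [evP_eq]
  exact Commute.sum_right _ _ _ fun k _ => (h.pow_right k).smul_right _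

lemma evP_mono (hz : z ^ N = 0) {M : ℕ} (hM : N ≤ M) (p : PowerSeries R) :
    evP N z p = evP M z p := by
  rw [evP_eq, evP_eq]
  refine Finset.sum_subset (Finset.range_mono hM) (fun k _ hk => ?_)
  rw [Finset.mem_range] at hk
  have : z ^ k = 0 := pow_eq_zero_of_le (by omega) hz
  rw [this, smul_zero]

end EvP

section Ids

open PowerSeries

variable {R : Type} [CommRing R] [Algebra ℚ R]

lemma one_add_X_mul_deriv_log : (1 + X) * d⁄dX R (log R) = 1 := by
  rw [deriv_log]
  ext n
  rw [add_mul, one_mul, map_add, coeff_mk]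
  cases n with
  | zero => simp
  | succ n =>
    rw [coeff_succ_X_mul, coeff_mk, ← map_add, coeff_one, if_neg (by omega), pow_succ]
    simp

lemma cc_exp_sub_one : constantCoeff (exp R - 1) = 0 := by
  rw [map_sub, constantCoeff_exp, map_one, sub_self]

lemma log_subst_exp : (log R).subst (exp R - 1) = (X : PowerSeries R) := by
  have hs : HasSubst (exp R - 1) := HasSubst.exp_sub_one
  have h1 : exp R * (d⁄dX R (log R)).subst (exp R - 1) = 1 := by
    have h2 : ((1 + X) * d⁄dX R (log R)).subst (exp R - 1) =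
        (1 : PowerSeries R).subst (exp R - 1) := by rw [one_add_X_mul_deriv_log]
    rw [subst_mul hs, subst_add hs, subst_X hs] at h2
    have h3 : (1 : PowerSeries R).subst (exp R - 1) = (1 : PowerSeries R) := by
      rw [← coe_substAlgHom hs, map_one]
    rw [h3, add_sub_cancel] at h2
    exact h2
  have hd : d⁄dX R ((log R).subst (exp R - 1)) = d⁄dX R (X : PowerSeries R) := by
    rw [derivative_subst hs, map_sub, derivative_exp, derivative_one, sub_zero, derivative_X,
      mul_comm, h1]
  have : IsAddTorsionFree R := .of_module_rat _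
  refine derivative.ext hd ?_
  rw [constantCoeff_X]
  exact constantCoeff_subst_eq_zero cc_exp_sub_one _ constantCoeff_log

/-- the binomial series -/
def binS (r : R) : PowerSeries R :=
  mk fun k => algebraMap ℚ R (1 / k.factorial) * ∏ i ∈ Finset.range k, (r - i)

lemma cc_smul_log (r : R) : constantCoeff (r • log R) = 0 := by
  rw [← coeff_zero_eq_constantCoeff_apply, coeff_smul, coeff_log, if_pos rfl, smul_zero]

lemma hasSubst_smul_log (r : R) : HasSubst (r • log R) :=
  HasSubst.of_constantCoeff_zero' (cc_smul_log r)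

lemma exp_subst_log (r : R) : (exp R).subst (r • log R) = binS r := by
  have hs := hasSubst_smul_log r
  set y : PowerSeries R := (exp R).subst (r • log R) with hy
  have hd : d⁄dX R y = y * (r • d⁄dX R (log R)) := by
    rw [hy, derivative_subst hs, derivative_exp, Derivation.map_smul]
  have h1 : (1 + X) * d⁄dX R y = r • y := by
    rw [hd, mul_left_comm, mul_smul_comm, one_add_X_mul_deriv_log, mul_smul_comm, mul_one]
  have h0 : coeff 0 y = 1 := by
    have h2 : (exp R) = 1 + (exp R - 1) := by ring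
    rw [coeff_zero_eq_constantCoeff, hy, h2, subst_add hs, map_add]
    have h3 : (1 : PowerSeries R).subst (r • log R) = (1 : PowerSeries R) := by
      rw [← coe_substAlgHom hs, map_one]
    have h4 : constantCoeff ((exp R - 1).subst (r • log R)) = (0 : R) :=
      constantCoeff_subst_eq_zero (cc_smul_log r) _ (by simp)
    rw [h3, h4, map_one, add_zero]
  have hrec : ∀ n : ℕ, ((n + 1 : ℕ) : R) * coeff (n + 1) y = (r - n) * coeff n y := by
    intro n
    have h2 := congrArg (coeff n) h1
    rw [add_mul, one_mul, map_add, coeff_derivative, map_smul, smul_eq_mul] at h2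
    cases n with
    | zero =>
      rw [coeff_zero_X_mul] at h2
      push_cast at h2 ⊢
      linear_combination h2
    | succ n =>
      rw [coeff_succ_X_mul, coeff_derivative] at h2
      push_cast at h2 ⊢
      linear_combination h2
  ext n
  unfold binS
  rw [coeff_mk]
  induction n with
  | zero => rw [h0]; simp
  | succ n ih =>
    have h2 := hrec n
    rw [ih] at h2
    have h3 : algebraMap ℚ R (1 / ((n + 1 : ℕ) : ℚ)) * ((n + 1 : ℕ) : R) = 1 := by
      rw [← map_natCast (algebraMap ℚ R), ← map_mul, one_div, inv_mul_cancel₀, map_one]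
      exact_mod_cast (Nat.succ_ne_zero n)
    have h4 : algebraMap ℚ R (1 / ((n + 1).factorial : ℚ)) =
        algebraMap ℚ R (1 / ((n + 1 : ℕ) : ℚ)) * algebraMap ℚ R (1 / (n.factorial : ℚ)) := by
      rw [← map_mul]
      congr 1
      rw [Nat.factorial_succ]
      push_cast
      rw [one_div_mul_one_div]
    calc coeff (n + 1) y = algebraMap ℚ R (1 / ((n + 1 : ℕ) : ℚ)) *
          (((n + 1 : ℕ) : R) * coeff (n + 1) y) := by rw [← mul_assoc, h3, one_mul]
      _ = _ := by
        rw [h2, h4, Finset.prod_range_succ]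
        ring

lemma binS_one : binS (1 : R) = 1 + X := by
  ext n
  unfold binS
  rw [coeff_mk, map_add]
  match n with
  | 0 => simp
  | 1 => simp [coeff_one]
  | n + 2 =>
    rw [Finset.prod_range_succ', Finset.prod_range_succ']
    simp [coeff_one, coeff_X]

lemma exp_subst_log_one : (exp R).subst (log R) = (1 + X : PowerSeries R) := by
  have := exp_subst_log (1 : R)
  rwa [one_smul, binS_one] at this

end Ids

section Nil

open PowerSeries

variable {R : Type} [CommRing R] [Algebra ℚ R] {E : Type} [Ring E] [Algebra R E] {N : ℕ}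

lemma expU_eq_evP {x : E} (hx : x ^ N = 0) : expU R x = evP N x (exp R) := by
  rw [evP_eq]
  unfold expU
  rw [finsum_eq_sum_of_support_subset (s := Finset.range N)]
  · refine Finset.sum_congr rfl (fun k _ => ?_)
    rw [coeff_exp]
    rfl
  · intro k hk
    rw [Finset.mem_coe, Finset.mem_range]
    by_contra hc
    apply hk
    simp only
    rw [pow_eq_zero_of_le (by omega) hx, smul_zero]

lemma logU_eq_evP {g : E} (hg : (g - 1) ^ N = 0) : logU R g = evP N (g - 1) (log R) := by
  have h1 : logU R g = ∑ k ∈ Finset.range N, algebraMap ℚ R ((-1) ^ k / (k + 1)) • (g - 1) ^ (k + 1) := by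
    unfold logU
    rw [finsum_eq_sum_of_support_subset (s := Finset.range N)]
    intro k hk
    rw [Finset.mem_coe, Finset.mem_range]
    by_contra hc
    apply hk
    simp only
    rw [pow_eq_zero_of_le (by omega) hg, smul_zero]
  rw [evP_mono hg (Nat.le_succ N), evP_eq, Finset.sum_range_succ', h1]
  rw [coeff_log, if_pos rfl, zero_smul, add_zero]
  refine Finset.sum_congr rfl (fun k _ => ?_)
  rw [coeff_log, if_neg (by omega)]
  congr 2
  rw [pow_succ, pow_succ]
  push_cast
  ring

lemma powU_eq_evP {g : E} (hg : (g - 1) ^ N = 0) (r : R) : powU g r = evP N (g - 1) (binS r) := by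
  rw [evP_eq]
  unfold powU
  rw [finsum_eq_sum_of_support_subset (s := Finset.range N)]
  · refine Finset.sum_congr rfl (fun k _ => ?_)
    unfold binS
    rw [coeff_mk]
  · intro k hk
    rw [Finset.mem_coe, Finset.mem_range]
    by_contra hc
    apply hk
    simp only
    rw [pow_eq_zero_of_le (by omega) hg, smul_zero]

lemma evP_pow_zero {z : E} (hz : z ^ N = 0) {q : PowerSeries R} (hq : constantCoeff q = 0) :
    evP N z q ^ N = 0 := by
  rw [← evP_pow hz, evP_eq]
  refine Finset.sum_eq_zero (fun e he => ?_)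
  rw [coeff_pow_zero hq (Finset.mem_range.1 he), zero_smul]

lemma logU_pow_zero {g : E} (hg : (g - 1) ^ N = 0) : logU R g ^ N = 0 := by
  rw [logU_eq_evP hg]
  exact evP_pow_zero hg constantCoeff_log

lemma expU_sub_one_pow_zero {x : E} (hx : x ^ N = 0) : (expU R x - 1) ^ N = 0 := by
  have h : expU R x - 1 = evP N x (exp R - 1) := by
    rw [evP_sub, evP_one hx, expU_eq_evP hx]
  rw [h]
  exact evP_pow_zero hx (by simp)

/-- `exp (log g) = g` -/
theorem expU_logU {g : E} (hg : (g - 1) ^ N = 0) : expU R (logU R g) = g := by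
  rw [expU_eq_evP (logU_pow_zero hg), logU_eq_evP hg, ← evP_subst hg _ constantCoeff_log,
    exp_subst_log_one, evP_add, evP_one hg, evP_X hg, add_sub_cancel]

/-- `log (exp x) = x` -/
theorem logU_expU {x : E} (hx : x ^ N = 0) : logU R (expU R x) = x := by
  have h : expU R x - 1 = evP N x (exp R - 1) := by
    rw [evP_sub, evP_one hx, expU_eq_evP hx]
  rw [logU_eq_evP (expU_sub_one_pow_zero hx), h, ← evP_subst hx _ (by simp), log_subst_exp,
    evP_X hx]

/-- `g ^ r = exp (r log g)` -/
theorem powU_eq {g : E} (hg : (g - 1) ^ N = 0) (r : R) : powU g r = expU R (r • logU R g) := by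
  have h1 : (r • logU R g) ^ N = 0 := by
    rw [smul_pow, logU_pow_zero hg, smul_zero]
  have h2 : r • logU R g = evP N (g - 1) (r • log R) := by
    rw [evP_smul, logU_eq_evP hg]
  rw [powU_eq_evP hg, expU_eq_evP h1, h2, ← evP_subst hg _ (cc_smul_log r), exp_subst_log]

/-- `(exp x) ^ r = exp (r x)` -/
theorem powU_expU {x : E} (hx : x ^ N = 0) (r : R) : powU (expU R x) r = expU R (r • x) := by
  rw [powU_eq (expU_sub_one_pow_zero hx), logU_expU hx]

lemma expU_zero : expU R (0 : E) = 1 := by
  rw [expU_eq_evP (N := 1) (by simp), evP_eq]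
  simp

lemma expU_commute {w x : E} (hx : x ^ N = 0) (h : Commute w x) : Commute w (expU R x) := by
  rw [expU_eq_evP hx]
  exact evP_commute h _

lemma evP_mem {I : Submodule R E} (h : IsNilp N I) {a : E} (ha : a ∈ I) {q : PowerSeries R}
    (hq : constantCoeff q = 0) : evP N a q ∈ I := by
  rw [evP_eq]
  refine I.sum_mem (fun k _ => ?_)
  cases k with
  | zero =>
    rw [coeff_zero_eq_constantCoeff, hq, zero_smul]
    exact I.zero_mem
  | succ k =>
    refine I.smul_mem _ ?_
    rw [← List.prod_replicate]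
    exact nilp_prod_mem h _ (fun x hx => by rw [List.eq_of_mem_replicate hx]; exact ha) (by simp)

lemma conj_pow' (k : Eˣ) (a : E) (n : ℕ) :
    ((k : E) * a * (k⁻¹ : Eˣ)) ^ n = k * a ^ n * (k⁻¹ : Eˣ) := by
  induction n with
  | zero => simp
  | succ n ih =>
    rw [pow_succ, ih, pow_succ]
    calc (k : E) * a ^ n * (k⁻¹ : Eˣ) * (k * a * (k⁻¹ : Eˣ))
        = k * a ^ n * ((k⁻¹ : Eˣ) * k) * a * (k⁻¹ : Eˣ) := by simp only [mul_assoc]
      _ = _ := by rw [Units.inv_mul, mul_one]; simp only [mul_assoc]

lemma evP_conj (k : Eˣ) (a : E) (p : PowerSeries R) :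
    evP N ((k : E) * a * (k⁻¹ : Eˣ)) p = k * evP N a p * (k⁻¹ : Eˣ) := by
  rw [evP_eq, evP_eq, Finset.mul_sum, Finset.sum_mul]
  refine Finset.sum_congr rfl (fun n _ => ?_)
  rw [conj_pow', mul_smul_comm, smul_mul_assoc]

lemma expU_conj {x : E} (hx : x ^ N = 0) (k : Eˣ) :
    expU R ((k : E) * x * (k⁻¹ : Eˣ)) = k * expU R x * (k⁻¹ : Eˣ) := by
  have h : ((k : E) * x * (k⁻¹ : Eˣ)) ^ N = 0 := by
    rw [conj_pow', hx, mul_zero, zero_mul]
  rw [expU_eq_evP h, expU_eq_evP hx, evP_conj]

lemma conj_sub_one (k : Eˣ) (g : E) :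
    (k : E) * g * (k⁻¹ : Eˣ) - 1 = k * (g - 1) * (k⁻¹ : Eˣ) := by
  rw [mul_sub, sub_mul, mul_one, Units.mul_inv]

lemma logU_conj {g : E} (hg : (g - 1) ^ N = 0) (k : Eˣ) :
    logU R ((k : E) * g * (k⁻¹ : Eˣ)) = k * logU R g * (k⁻¹ : Eˣ) := by
  have h : ((k : E) * g * (k⁻¹ : Eˣ) - 1) ^ N = 0 := by
    rw [conj_sub_one, conj_pow', hg, mul_zero, zero_mul]
  rw [logU_eq_evP h, logU_eq_evP hg, conj_sub_one, evP_conj]

lemma expU_add {a b : E} (ha : a ^ N = 0) (hb : b ^ N = 0) (hab : Commute a b) :
    expU R (a + b) = expU R a * expU R b := by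
  letI : Algebra ℚ E := Algebra.compHom E (algebraMap ℚ R)
  have key : ∀ (x : E) (M : ℕ), x ^ M = 0 → IsNilpotent.exp x = expU R x := by
    intro x M hx
    rw [IsNilpotent.exp_eq_sum hx, expU_eq_evP hx, evP_eq]
    refine Finset.sum_congr rfl (fun k _ => ?_)
    rw [coeff_exp, ← one_div]
    rfl
  have hab' : IsNilpotent (a + b) := hab.isNilpotent_add ⟨N, ha⟩ ⟨N, hb⟩
  obtain ⟨M, hM⟩ := hab'
  rw [← key a N ha, ← key b N hb, ← key (a + b) M hM]
  exact IsNilpotent.exp_add_of_commute hab ⟨N, ha⟩ ⟨N, hb⟩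

end Nil

end MP446U.V

namespace MP446U

open V MP446 MP446Y MP446Z MP446S MP446I

/-- EXL: exponential, logarithm and powers of unipotent elements. -/
theorem specEXL : SpecEXL := by
  intro R _ _ E _ _ N I hI
  have hz : ∀ {a : E}, a ∈ I → a ^ N = 0 := fun ha => nilp_pow_zero hI ha le_rfl
  refine ⟨?_, ?_, ?_, ?_, ?_, ?_, ?_, ?_⟩
  · intro a ha
    have h : expU R a - 1 = evP N a (PowerSeries.exp R - 1) := by
      rw [evP_sub, evP_one (hz ha), expU_eq_evP (hz ha)]
    rw [h]
    exact evP_mem hI ha cc_exp_sub_one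
  · intro a ha
    exact logU_expU (hz ha)
  · intro a ha r
    exact powU_expU (hz ha) r
  · intro g hg
    refine ⟨?_, expU_logU (hz hg)⟩
    rw [logU_eq_evP (hz hg)]
    exact evP_mem hI hg PowerSeries.constantCoeff_log
  · intro a ha b hb hab
    exact expU_add (hz ha) (hz hb) hab
  · intro a ha k
    exact expU_conj (hz ha) k
  · intro g hg k
    exact logU_conj (hz hg) k
  · intro a ha b hb hab
    rw [← logU_expU (R := R) (hz ha), hab, logU_expU (hz hb)]

end MP446U
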