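import Pool.Agent.Lib.MP_446dfa_ag.unc.Defs
import Pool.Agent.Lib.MP_446dfa_ag.sig.Lim

set_option linter.all false

/-!
# Common lemmas
-/

noncomputable section

namespace MP446U

open MP446 MP446Y MP446Z MP446S MP446I

section Nilp

variable {R : Type} [CommRing R] {E : Type} [Ring E] [Algebra R E] {N : ℕ} {I : Submodule R E}

lemma zero_of_le (h : IsNilp N I) (l : List E) (hl : ∀ x ∈ l, x ∈ I) (hN : N ≤ l.length) :
    l.prod = 0 := by
  rw [← List.take_append_drop N l, List.prod_append,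
    h.prod_zero _ (fun x hx => hl x (List.mem_of_mem_take hx)) (by
      rw [List.length_take, min_eq_left hN]), zero_mul]

lemma nilp_mono (h : IsNilp N I) {N' : ℕ} (hN : N ≤ N') : IsNilp N' I :=
  ⟨h.mul_mem, fun l hl h2 => zero_of_le h l hl (by omega)⟩

lemma prod_mem' (h : IsNilp N I) (l : List E) (hl : ∀ x ∈ l, x ∈ I) (hne : l ≠ []) :
    l.prod ∈ I := by
  induction l with
  | nil => exact absurd rfl hne
  | cons a l ih =>
    rw [List.prod_cons]
    by_cases h2 : l = []
    · subst h2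
      rw [List.prod_nil, mul_one]
      exact hl a (by simp)
    · exact h.mul_mem _ (hl a (by simp)) _ (ih (fun x hx => hl x (by simp [hx])) h2)

lemma pow_zero' (h : IsNilp N I) {a : E} (ha : a ∈ I) : a ^ N = 0 := by
  rw [← List.prod_replicate]
  exact h.prod_zero _ (fun x hx => by rw [List.eq_of_mem_replicate hx]; exact ha) (by simp)

lemma pow_mem' (h : IsNilp N I) {a : E} (ha : a ∈ I) {k : ℕ} (hk : 1 ≤ k) : a ^ k ∈ I := by
  rw [← List.prod_replicate]
  refine prod_mem' h _ (fun x hx => by rw [List.eq_of_mem_replicate hx]; exact ha) ?_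
  intro h2
  have := congrArg List.length h2
  simp only [List.length_replicate, List.length_nil] at this
  omega

lemma map_mem' {a b : E} (ha : a ∈ I) (hb : b ∈ I) (w : List (Fin 2)) :
    ∀ x ∈ w.map ![a, b], x ∈ I := by
  intro x hx
  obtain ⟨i, -, rfl⟩ := List.mem_map.1 hx
  fin_cases i
  · exact ha
  · exact hb

lemma word_zero (h : IsNilp N I) {a b : E} (ha : a ∈ I) (hb : b ∈ I) (w : List (Fin 2))
    (hw : N ≤ w.length) : (w.map ![a, b]).prod = 0 :=
  zero_of_le h _ (map_mem' ha hb w) (by rw [List.length_map]; exact hw)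

lemma word_mem (h : IsNilp N I) {a b : E} (ha : a ∈ I) (hb : b ∈ I) {w : List (Fin 2)}
    (hw : w ≠ []) : (w.map ![a, b]).prod ∈ I :=
  prod_mem' h _ (map_mem' ha hb w) (by simpa using hw)

lemma EV_wl' (h : IsNilp N I) {a b : E} (ha : a ∈ I) (hb : b ∈ I) (X : AA R) :
    EV a b X = ∑ w ∈ wl N, cf X w • (w.map ![a, b]).prod :=
  MP446S.EV_wl (word_zero h ha hb) X

/-- the value is a finite sum -/
lemma val_wl (h : IsNilp N I) {a b : E} (ha : a ∈ I) (hb : b ∈ I) (f : List (Fin 2) → R) :
    val f a b = ∑ w ∈ wl N, f w • (w.map ![a, b]).prod := by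
  unfold val
  rw [finsum_eq_sum_of_support_subset]
  intro w hw
  rw [Finset.mem_coe, mem_wl]
  by_contra h2
  apply hw
  change f w • (w.map ![a, b]).prod = 0
  rw [word_zero h ha hb w (by omega), smul_zero]

lemma cf_trn (N : ℕ) (f : List (Fin 2) → R) (w : List (Fin 2)) :
    cf (trn N f) w = if w.length < N then f w else 0 := by
  unfold trn
  rw [cf_sum]
  simp only [cf_smul, cf_ow, mul_ite, mul_one, mul_zero]
  rw [Finset.sum_ite_eq']
  simp only [mem_wl]

lemma cf_trn_of_lt {N : ℕ} {w : List (Fin 2)} (hw : w.length < N) (f : List (Fin 2) → R) :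
    cf (trn N f) w = f w := by rw [cf_trn, if_pos hw]

/-- the value as the value of a polynomial -/
lemma val_eq (h : IsNilp N I) {a b : E} (ha : a ∈ I) (hb : b ∈ I) (f : List (Fin 2) → R) :
    val f a b = EV a b (trn N f) := by
  rw [val_wl h ha hb, EV_wl' h ha hb]
  refine Finset.sum_congr rfl (fun w hw => ?_)
  rw [cf_trn_of_lt ((mem_wl N w).1 hw)]

lemma val_eq_of_cf (h : IsNilp N I) {a b : E} (ha : a ∈ I) (hb : b ∈ I) {f : List (Fin 2) → R}
    {X : AA R} (hX : ∀ w : List (Fin 2), w.length < N → cf X w = f w) :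
    val f a b = EV a b X := by
  rw [val_wl h ha hb, EV_wl' h ha hb]
  refine Finset.sum_congr rfl (fun w hw => ?_)
  rw [hX w ((mem_wl N w).1 hw)]

lemma EV_congr' (h : IsNilp N I) {a b : E} (ha : a ∈ I) (hb : b ∈ I) {X Y : AA R}
    (hX : ∀ w : List (Fin 2), w.length < N → cf X w = cf Y w) : EV a b X = EV a b Y := by
  rw [EV_wl' h ha hb, EV_wl' h ha hb]
  refine Finset.sum_congr rfl (fun w hw => ?_)
  rw [hX w ((mem_wl N w).1 hw)]

lemma val_congr (h : IsNilp N I) {a b : E} (ha : a ∈ I) (hb : b ∈ I) {f g : List (Fin 2) → R}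
    (hX : ∀ w : List (Fin 2), w.length < N → f w = g w) : val f a b = val g a b := by
  rw [val_wl h ha hb, val_wl h ha hb]
  refine Finset.sum_congr rfl (fun w hw => ?_)
  rw [hX w ((mem_wl N w).1 hw)]

lemma EV_zero' (h : IsNilp N I) {a b : E} (ha : a ∈ I) (hb : b ∈ I) {X : AA R}
    (hX : ∀ w : List (Fin 2), w.length < N → cf X w = 0) : EV a b X = 0 := by
  rw [EV_congr' h ha hb (Y := 0) (fun w hw => by rw [hX w hw, cf_zero]), map_zero]

lemma EV_mem' (h : IsNilp N I) {a b : E} (ha : a ∈ I) (hb : b ∈ I) {X : AA R}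
    (hX : cf X [] = 0) : EV a b X ∈ I := by
  rw [EV_wl' h ha hb]
  refine Submodule.sum_mem _ (fun w hw => ?_)
  by_cases h2 : w = []
  · subst h2
    rw [hX, zero_smul]
    exact Submodule.zero_mem _
  · exact Submodule.smul_mem _ _ (word_mem h ha hb h2)

lemma val_mem (h : IsNilp N I) {a b : E} (ha : a ∈ I) (hb : b ∈ I) {f : List (Fin 2) → R}
    (hf : f [] = 0) : val f a b ∈ I := by
  rw [val_wl h ha hb]
  refine Submodule.sum_mem _ (fun w hw => ?_)
  by_cases h2 : w = []
  · subst h2
    rw [hf, zero_smul]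
    exact Submodule.zero_mem _
  · exact Submodule.smul_mem _ _ (word_mem h ha hb h2)

lemma val_sub_one_mem (h : IsNilp N I) {a b : E} (ha : a ∈ I) (hb : b ∈ I)
    {f : List (Fin 2) → R} (hf : f [] = 1) : val f a b - 1 ∈ I := by
  by_cases hN : N = 0
  · subst hN
    have h1 : (1 : E) = 0 := h.prod_zero [] (by simp) rfl
    have h2 : ∀ z : E, z = 0 := fun z => by rw [← mul_one z, h1, mul_zero]
    rw [h2 (val f a b - 1)]
    exact I.zero_mem
  rw [val_wl h ha hb, ← Finset.insert_erase (s := wl N) (a := [])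
    (by rw [mem_wl, List.length_nil]; omega), Finset.sum_insert (Finset.notMem_erase _ _), hf]
  simp only [List.map_nil, List.prod_nil, one_smul, add_sub_cancel_left]
  refine Submodule.sum_mem _ (fun w hw => ?_)
  exact Submodule.smul_mem _ _ (word_mem h ha hb (Finset.ne_of_mem_erase hw))

/-- `1 + I` consists of units -/
lemma exists_unit (h : IsNilp N I) {x : E} (hx : x - 1 ∈ I) :
    ∃ p : Eˣ, (p : E) = x ∧ ((p⁻¹ : Eˣ) : E) - 1 ∈ I := by
  have h1 : (1 - x) ^ N = 0 := pow_zero' h (by rw [← neg_sub]; exact I.neg_mem hx)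
  have e1 : x * (∑ i ∈ Finset.range N, (1 - x) ^ i) = 1 := by
    have := mul_neg_geom_sum (1 - x) N
    rw [h1, sub_zero, sub_sub_cancel] at this
    exact this
  have e2 : (∑ i ∈ Finset.range N, (1 - x) ^ i) * x = 1 := by
    have := geom_sum_mul_neg (1 - x) N
    rw [h1, sub_zero, sub_sub_cancel] at this
    exact this
  refine ⟨⟨x, ∑ i ∈ Finset.range N, (1 - x) ^ i, e1, e2⟩, rfl, ?_⟩
  change (∑ i ∈ Finset.range N, (1 - x) ^ i) - 1 ∈ I
  have e3 : (∑ i ∈ Finset.range N, (1 - x) ^ i) - 1 =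
      -((∑ i ∈ Finset.range N, (1 - x) ^ i - 1) * (x - 1) + (x - 1)) := by
    rw [sub_mul, mul_sub, e2, mul_one, one_mul]
    abel
  have h4 : ∀ i, (1 - x) ^ (i + 1) ∈ I := fun i =>
    pow_mem' h (by rw [← neg_sub]; exact I.neg_mem hx) (by omega)
  by_cases hN : N = 0
  · subst hN
    have h1 : (1 : E) = 0 := h.prod_zero [] (by simp) rfl
    have h2 : ∀ z : E, z = 0 := fun z => by rw [← mul_one z, h1, mul_zero]
    rw [h2 ((∑ i ∈ Finset.range 0, (1 - x) ^ i) - 1)]
    exact I.zero_mem
  obtain ⟨M, rfl⟩ := Nat.exists_eq_succ_of_ne_zero hN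
  rw [Finset.sum_range_succ', pow_zero, add_sub_cancel_right]
  exact Submodule.sum_mem _ (fun i _ => h4 i)

lemma unit_inv_mem (h : IsNilp N I) {p : Eˣ} (hp : (p : E) - 1 ∈ I) :
    ((p⁻¹ : Eˣ) : E) - 1 ∈ I := by
  obtain ⟨q, hq, hq'⟩ := exists_unit h hp
  rw [Units.ext hq] at hq'
  exact hq'

lemma one_add_mul_mem (h : IsNilp N I) {x y : E} (hx : x - 1 ∈ I) (hy : y ∈ I) : x * y ∈ I := by
  have : x * y = (x - 1) * y + y := by rw [sub_mul, one_mul]; abel
  rw [this]
  exact I.add_mem (h.mul_mem _ hx _ hy) hy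

lemma mul_one_add_mem (h : IsNilp N I) {x y : E} (hx : x - 1 ∈ I) (hy : y ∈ I) : y * x ∈ I := by
  have : y * x = y * (x - 1) + y := by rw [mul_sub, mul_one]; abel
  rw [this]
  exact I.add_mem (h.mul_mem _ hy _ hx) hy

lemma mul_sub_one_mem (h : IsNilp N I) {x y : E} (hx : x - 1 ∈ I) (hy : y - 1 ∈ I) :
    x * y - 1 ∈ I := by
  have : x * y - 1 = (x - 1) * (y - 1) + (x - 1) + (y - 1) := by
    rw [sub_mul, mul_sub, mul_one, one_mul]; abel
  rw [this]
  exact I.add_mem (I.add_mem (h.mul_mem _ hx _ hy) hx) hy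

lemma conj_mem (h : IsNilp N I) {p : Eˣ} (hp : (p : E) - 1 ∈ I) {a : E} (ha : a ∈ I) :
    p * a * (p⁻¹ : Eˣ) ∈ I :=
  mul_one_add_mem h (unit_inv_mem h hp) (one_add_mul_mem h hp ha)

lemma conj_sub_one_mem (h : IsNilp N I) {p : Eˣ} (hp : (p : E) - 1 ∈ I) {g : E}
    (hg : g - 1 ∈ I) : p * g * (p⁻¹ : Eˣ) - 1 ∈ I := by
  have : p * g * (p⁻¹ : Eˣ) - 1 = p * (g - 1) * (p⁻¹ : Eˣ) := by
    rw [mul_sub, sub_mul, mul_one, Units.mul_inv]
  rw [this]
  exact conj_mem h hp hg

/-! ### functoriality -/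

lemma word_map {F : Type} [Ring F] [Algebra R F] (ψ : E →ₐ[R] F) (a b : E) (w : List (Fin 2)) :
    ψ ((w.map ![a, b]).prod) = (w.map ![ψ a, ψ b]).prod := by
  rw [map_list_prod, List.map_map]
  congr 1
  apply List.map_congr_left
  intro i _
  fin_cases i <;> rfl

lemma word_eq_zero (h : IsNilp N I) {F : Type} [Ring F] [Algebra R F] (ψ : E →ₐ[R] F) {a b : E}
    (ha : a ∈ I) (hb : b ∈ I) (w : List (Fin 2)) (hw : N ≤ w.length) :
    (w.map ![ψ a, ψ b]).prod = 0 := by
  rw [← word_map, word_zero h ha hb w hw, map_zero]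

lemma val_of_zero {a b : E} (h : ∀ w : List (Fin 2), N ≤ w.length → (w.map ![a, b]).prod = 0)
    (f : List (Fin 2) → R) : val f a b = ∑ w ∈ wl N, f w • (w.map ![a, b]).prod := by
  unfold val
  rw [finsum_eq_sum_of_support_subset]
  intro w hw
  rw [Finset.mem_coe, mem_wl]
  by_contra h2
  apply hw
  change f w • (w.map ![a, b]).prod = 0
  rw [h w (by omega), smul_zero]

lemma val_map (h : IsNilp N I) {F : Type} [Ring F] [Algebra R F] (ψ : E →ₐ[R] F) {a b : E}
    (ha : a ∈ I) (hb : b ∈ I) (f : List (Fin 2) → R) :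
    ψ (val f a b) = val f (ψ a) (ψ b) := by
  rw [val_wl h ha hb, val_of_zero (word_eq_zero h ψ ha hb), map_sum]
  refine Finset.sum_congr rfl (fun w _ => ?_)
  rw [map_smul, word_map]

lemma word_conj (p : Eˣ) (a b : E) (w : List (Fin 2)) :
    (w.map ![p * a * (p⁻¹ : Eˣ), p * b * (p⁻¹ : Eˣ)]).prod =
      p * (w.map ![a, b]).prod * (p⁻¹ : Eˣ) := by
  induction w with
  | nil => simp
  | cons i w ih =>
    rw [List.map_cons, List.prod_cons, ih, List.map_cons, List.prod_cons]
    have key : ∀ z : E, p * z * (p⁻¹ : Eˣ) * (p * (w.map ![a, b]).prod * (p⁻¹ : Eˣ)) =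
        p * (z * (w.map ![a, b]).prod) * (p⁻¹ : Eˣ) := by
      intro z
      simp only [mul_assoc, Units.inv_mul_cancel_left]
    fin_cases i
    · exact key a
    · exact key b

/-- conjugation -/
lemma val_conj (h : IsNilp N I) {a b : E} (ha : a ∈ I) (hb : b ∈ I) (f : List (Fin 2) → R)
    (p : Eˣ) : val f (p * a * (p⁻¹ : Eˣ)) (p * b * (p⁻¹ : Eˣ)) = p * val f a b * (p⁻¹ : Eˣ) := by
  rw [val_wl h ha hb, val_of_zero (N := N), Finset.mul_sum, Finset.sum_mul]
  · refine Finset.sum_congr rfl (fun w _ => ?_)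
    rw [word_conj, mul_smul_comm, smul_mul_assoc]
  · intro w hw
    rw [word_conj, word_zero h ha hb w hw, mul_zero, zero_mul]

/-- an element commuting with `a`, `b` commutes with the value -/
lemma val_comm (h : IsNilp N I) {a b : E} (ha : a ∈ I) (hb : b ∈ I) (f : List (Fin 2) → R)
    {z : E} (h1 : z * a = a * z) (h2 : z * b = b * z) : z * val f a b = val f a b * z := by
  rw [val_eq h ha hb]
  exact comm_EV h1 h2 _

lemma val_commute (h : IsNilp N I) {a b : E} (ha : a ∈ I) (hb : b ∈ I) (f : List (Fin 2) → R)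
    {z : E} (h1 : Commute z a) (h2 : Commute z b) : Commute z (val f a b) :=
  val_comm h ha hb f h1.eq h2.eq

lemma val_zero_zero (f : List (Fin 2) → R) : val f (0 : E) (0 : E) = f [] • (1 : E) := by
  have h : ∀ w : List (Fin 2), 1 ≤ w.length → (w.map ![(0 : E), (0 : E)]).prod = 0 := by
    intro w hw
    cases w with
    | nil => simp at hw
    | cons i w =>
      rw [List.map_cons, List.prod_cons]
      have : (![(0 : E), (0 : E)] : Fin 2 → E) i = 0 := by fin_cases i <;> rfl
      rw [this, zero_mul]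
  rw [val_of_zero h, show wl 1 = {[]} from rfl, Finset.sum_singleton]
  simp

lemma val_mulF (h : IsNilp N I) {a b : E} (ha : a ∈ I) (hb : b ∈ I) (f g : List (Fin 2) → R) :
    val (conv f g) a b = val f a b * val g a b := by
  have h1 : val (conv f g) a b = EV a b (trn N f * trn N g) := by
    refine val_eq_of_cf h ha hb (fun w hw => ?_)
    rw [cf_mul]
    refine Finset.sum_congr rfl (fun i hi => ?_)
    rw [cf_trn_of_lt, cf_trn_of_lt]
    · rw [List.length_drop]; omega
    · rw [List.length_take]; omega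
  rw [h1, map_mul, ← val_eq h ha hb, ← val_eq h ha hb]

lemma val_one1 (h : IsNilp N I) {a b : E} (ha : a ∈ I) (hb : b ∈ I) :
    val (one1 R) a b = 1 := by
  rw [val_eq_of_cf h ha hb (X := 1), map_one]
  intro w _
  rw [cf_one]
  cases w with
  | nil => rfl
  | cons i w => rfl

lemma val_add (h : IsNilp N I) {a b : E} (ha : a ∈ I) (hb : b ∈ I) (f g : List (Fin 2) → R) :
    val (fun w => f w + g w) a b = val f a b + val g a b := by
  rw [val_wl h ha hb, val_wl h ha hb, val_wl h ha hb, ← Finset.sum_add_distrib]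
  exact Finset.sum_congr rfl (fun w _ => add_smul _ _ _)

lemma word_smul' (r : R) (A B : E) (w : List (Fin 2)) :
    (w.map ![r • A, r • B]).prod = r ^ w.length • (w.map ![A, B]).prod := by
  induction w with
  | nil => simp
  | cons i w ih =>
    rw [List.map_cons, List.prod_cons, ih, List.map_cons, List.prod_cons, List.length_cons]
    have key : ∀ X Y : E, r • X * r ^ w.length • Y = r ^ (w.length + 1) • (X * Y) := by
      intro X Y
      rw [smul_mul_smul_comm, pow_succ']
    fin_cases i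
    · exact key A _
    · exact key B _

/-- `f(c a, c b)` -/
lemma val_scaleF (h : IsNilp N I) {a b : E} (ha : a ∈ I) (hb : b ∈ I) (f : List (Fin 2) → R)
    (c : R) : val (scaleF c f) a b = val f (c • a) (c • b) := by
  rw [val_wl h ha hb, val_wl h (I.smul_mem c ha) (I.smul_mem c hb)]
  refine Finset.sum_congr rfl (fun w _ => ?_)
  rw [word_smul', smul_smul]
  congr 1
  exact mul_comm _ _

end Nilp

/-! ### Base change -/

section BC

variable {R R' : Type} [CommRing R] [CommRing R']

lemma cf_bcP (θ : R →+* R') (X : AA R) (w : List (Fin 2)) : cf (bcP θ X) w = θ (cf X w) := rfl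

lemma bcP_ow (θ : R →+* R') (w : List (Fin 2)) : bcP θ (ow R w) = ow R' w := by
  apply MP446S.AA_ext
  intro v
  rw [cf_bcP, cf_ow, cf_ow]
  split_ifs
  · exact map_one θ
  · exact map_zero θ

variable [Algebra R R'] {E : Type} [Ring E] [Algebra R E] [Algebra R' E] [IsScalarTower R R' E]

lemma EV_bcP (a b : E) (X : AA R) : EV a b (bcP (algebraMap R R') X) = EV a b X := by
  induction X using AA_lin with
  | how u => rw [bcP_ow, EV_ow, EV_ow]
  | hadd X Y hX hY =>
    have : bcP (algebraMap R R') (X + Y) = bcP (algebraMap R R') X + bcP (algebraMap R R') Y := by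
      unfold bcP; rw [map_add]
    rw [this, map_add, map_add, hX, hY]
  | hsmul c X hX =>
    have : bcP (algebraMap R R') (c • X) = algebraMap R R' c • bcP (algebraMap R R') X := by
      apply MP446S.AA_ext
      intro w
      rw [cf_bcP, cf_smul, cf_smul, cf_bcP, map_mul]
    rw [this, map_smul, map_smul, hX, algebraMap_smul]

lemma val_bc (a b : E) (f : List (Fin 2) → R) :
    val (fun w => algebraMap R R' (f w)) a b = val f a b := by
  unfold val
  refine finsum_congr (fun w => ?_)
  rw [algebraMap_smul]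

/-- an `R'`-submodule as an `R`-submodule -/
lemma nilp_restrict {N : ℕ} {I : Submodule R' E} (h : IsNilp N I) :
    IsNilp N (I.restrictScalars R) :=
  ⟨fun x hx y hy => h.mul_mem x hx y hy, fun l hl hN => h.prod_zero l hl hN⟩

end BC

/-! ### Exponentials -/

section Exp

variable {R : Type} [CommRing R] [Algebra ℚ R] {E : Type} [Ring E] [Algebra R E] {N : ℕ}
  {I : Submodule R E}

lemma expU_eq {x : E} (h : x ^ N = 0) : expU R x = ∑ k ∈ Finset.range N, ec R k • x ^ k := by
  unfold expU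
  rw [finsum_eq_sum_of_support_subset]
  intro k hk
  rw [Finset.mem_coe, Finset.mem_range]
  by_contra h2
  apply hk
  change ec R k • x ^ k = 0
  rw [show k = N + (k - N) by omega, pow_add, h, zero_mul, smul_zero]

lemma expU_zero : expU R (0 : E) = 1 := by
  rw [expU_eq (N := 1) (by simp)]
  simp [ec_zero]

lemma expU_add {x y : E} {M : ℕ} (hx : x ^ N = 0) (hy : y ^ M = 0) (hxy : Commute x y) :
    expU R (x + y) = expU R x * expU R y := by
  have hs : (x + y) ^ (N + M) = 0 := by
    have h1 : ∀ i j, N + M ≤ i + j → x ^ i * y ^ j = 0 := by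
      intro i j hij
      by_cases hi : N ≤ i
      · rw [show i = N + (i - N) by omega, pow_add, hx, zero_mul, zero_mul]
      · rw [show j = M + (j - M) by omega, pow_add y, hy, zero_mul, mul_zero]
    rw [hxy.add_pow]
    refine Finset.sum_eq_zero (fun i hi => ?_)
    rw [Finset.mem_range] at hi
    rw [h1 i (N + M - i) (by omega), zero_mul]
  have hx' : x ^ (N + M) = 0 := by rw [pow_add, hx, zero_mul]
  have hy' : y ^ (N + M) = 0 := by rw [pow_add, hy, mul_zero]
  rw [expU_eq hs, expU_eq hx', expU_eq hy', Finset.sum_mul_sum]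
  set K := N + M with hK
  have e1 : ∀ k, ec R k • (x + y) ^ k =
      ∑ p ∈ Finset.HasAntidiagonal.antidiagonal k, (ec R p.1 • x ^ p.1) * (ec R p.2 • y ^ p.2) := by
    intro k
    rw [hxy.add_pow', Finset.smul_sum]
    refine Finset.sum_congr rfl (fun p hp => ?_)
    rw [Finset.HasAntidiagonal.mem_antidiagonal] at hp
    rw [smul_mul_smul_comm, ← ec_choose, ← hp, mul_smul, Nat.cast_smul_eq_nsmul]
  have h1 : ∀ i j, K ≤ i + j → x ^ i * y ^ j = 0 := by
    intro i j hij
    by_cases hi : N ≤ i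
    · rw [show i = N + (i - N) by omega, pow_add, hx, zero_mul, zero_mul]
    · rw [show j = M + (j - M) by omega, pow_add y, hy, zero_mul, mul_zero]
  have e2 : ∑ i ∈ Finset.range K, ∑ j ∈ Finset.range K, ec R i • x ^ i * ec R j • y ^ j =
      ∑ p ∈ (Finset.range K ×ˢ Finset.range K : Finset (ℕ × ℕ)),
        (ec R p.1 • x ^ p.1) * (ec R p.2 • y ^ p.2) :=
    (Finset.sum_product' _ _ _).symm
  rw [Finset.sum_congr rfl (fun k _ => e1 k), e2, Finset.sum_sigma',
    ← Finset.sum_filter_add_sum_filter_not (Finset.range K ×ˢ Finset.range K : Finset (ℕ × ℕ))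
      (fun p : ℕ × ℕ => p.1 + p.2 < K)]
  have h2 : ∑ p ∈ (Finset.range K ×ˢ Finset.range K : Finset (ℕ × ℕ)).filter
      (fun p : ℕ × ℕ => ¬ p.1 + p.2 < K),
      (ec R p.1 • x ^ p.1) * (ec R p.2 • y ^ p.2) = 0 := by
    refine Finset.sum_eq_zero (fun p hp => ?_)
    rw [Finset.mem_filter] at hp
    rw [smul_mul_smul_comm, h1 _ _ (by omega), smul_zero]
  rw [h2, add_zero]
  refine Finset.sum_bij (fun q _ => q.2) ?_ ?_ ?_ ?_
  · rintro ⟨k, i, j⟩ hq
    simp only [Finset.mem_sigma, Finset.mem_range, Finset.HasAntidiagonal.mem_antidiagonal, Finset.mem_filter,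
      Finset.mem_product] at hq ⊢
    omega
  · rintro ⟨k, i, j⟩ hq ⟨k', i', j'⟩ hq' h
    simp only [Finset.mem_sigma, Finset.mem_range, Finset.HasAntidiagonal.mem_antidiagonal, Prod.mk.injEq]
      at hq hq' h
    obtain ⟨rfl, rfl⟩ := h
    have : k = k' := by omega
    subst this
    rfl
  · rintro ⟨i, j⟩ hp
    simp only [Finset.mem_filter, Finset.mem_product, Finset.mem_range] at hp
    refine ⟨⟨i + j, (i, j)⟩, ?_, rfl⟩
    rw [Finset.mem_sigma, Finset.mem_range, Finset.HasAntidiagonal.mem_antidiagonal]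
    exact ⟨hp.2, rfl⟩
  · rintro ⟨k, i, j⟩ _
    rfl

lemma expU_sub_one_mem (h : IsNilp N I) {x : E} (hx : x ∈ I) : expU R x - 1 ∈ I := by
  rw [expU_eq (N := N + 1) (by rw [pow_succ, pow_zero' h hx, zero_mul]), Finset.sum_range_succ',
    pow_zero, ec_zero, one_smul, add_sub_cancel_right]
  exact Submodule.sum_mem _ (fun i _ => I.smul_mem _ (pow_mem' h hx (by omega)))

lemma expU_mul_neg (h : IsNilp N I) {x : E} (hx : x ∈ I) : expU R x * expU R (-x) = 1 := by
  rw [← expU_add (pow_zero' h hx) (pow_zero' h (I.neg_mem hx)) (Commute.neg_right (Commute.refl x)),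
    add_neg_cancel, expU_zero]

lemma expU_neg_mul (h : IsNilp N I) {x : E} (hx : x ∈ I) : expU R (-x) * expU R x = 1 := by
  rw [← expU_add (pow_zero' h (I.neg_mem hx)) (pow_zero' h hx) (Commute.neg_left (Commute.refl x)),
    neg_add_cancel, expU_zero]

/-- the exponential as a unit -/
def expUu (h : IsNilp N I) {x : E} (hx : x ∈ I) : Eˣ :=
  ⟨expU R x, expU R (-x), expU_mul_neg h hx, expU_neg_mul h hx⟩

lemma expU_comm (h : IsNilp N I) {x z : E} (hx : x ∈ I) (hz : Commute z x) :
    Commute z (expU R x) := by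
  rw [expU_eq (pow_zero' h hx)]
  exact Commute.sum_right _ _ _ (fun k _ => (hz.pow_right k).smul_right _)

lemma expU_map (h : IsNilp N I) {F : Type} [Ring F] [Algebra R F] (ψ : E →ₐ[R] F) {x : E}
    (hx : x ∈ I) : ψ (expU R x) = expU R (ψ x) := by
  rw [expU_eq (pow_zero' h hx), expU_eq (N := N) (by rw [← map_pow, pow_zero' h hx, map_zero]),
    map_sum]
  refine Finset.sum_congr rfl (fun k _ => ?_)
  rw [map_smul, map_pow]

lemma expU_conj (h : IsNilp N I) {x : E} (hx : x ∈ I) (p : Eˣ) :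
    expU R (p * x * (p⁻¹ : Eˣ)) = p * expU R x * (p⁻¹ : Eˣ) := by
  have h1 : ∀ k, (p * x * (p⁻¹ : Eˣ)) ^ k = p * x ^ k * (p⁻¹ : Eˣ) := by
    intro k
    induction k with
    | zero => simp
    | succ k ih => rw [pow_succ, ih, pow_succ]; simp only [mul_assoc, Units.inv_mul_cancel_left]
  rw [expU_eq (pow_zero' h hx), expU_eq (N := N) (by rw [h1, pow_zero' h hx, mul_zero, zero_mul]),
    Finset.mul_sum, Finset.sum_mul]
  refine Finset.sum_congr rfl (fun k _ => ?_)
  rw [h1, mul_smul_comm, smul_mul_assoc]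

/-- the exponential does not depend on the ring of coefficients -/
lemma expU_bc {R' : Type} [CommRing R'] [Algebra ℚ R'] [Algebra R R'] [Algebra R' E]
    [IsScalarTower R R' E] (x : E) : expU R' x = expU R x := by
  unfold expU
  refine finsum_congr (fun k => ?_)
  have : ec R' k = algebraMap R R' (ec R k) := by
    unfold ec
    exact (RingHom.congr_fun (Subsingleton.elim (algebraMap ℚ R')
      ((algebraMap R R').comp (algebraMap ℚ R))) _)
  rw [this, algebraMap_smul]

end Exp

/-! ### Dual numbers -/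

section Dual

variable {R : Type} [CommRing R] {E : Type} [Ring E] [Algebra R E] {N : ℕ} {I : Submodule R E}

/-- the dual numbers over `I` -/
def dualR (I : Submodule R E) : Submodule R (TrivSqZeroExt E E) where
  carrier := {x | x.fst ∈ I ∧ x.snd ∈ I}
  add_mem' := fun ha hb => ⟨I.add_mem ha.1 hb.1, I.add_mem ha.2 hb.2⟩
  zero_mem' := ⟨I.zero_mem, I.zero_mem⟩
  smul_mem' := fun c x hx => ⟨I.smul_mem c hx.1, I.smul_mem c hx.2⟩

lemma mem_dualR {x : TrivSqZeroExt E E} : x ∈ dualR I ↔ x.fst ∈ I ∧ x.snd ∈ I := Iff.rfl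

lemma snd_prod_mem' (l : List (TrivSqZeroExt E E)) (hl : ∀ x ∈ l, x ∈ dualR I) :
    (∃ L : List (List E), (∀ m ∈ L, m.length = l.length ∧ ∀ x ∈ m, x ∈ I) ∧
      l.prod.snd = (L.map List.prod).sum) ∧ l.prod.fst = (l.map TrivSqZeroExt.fst).prod := by
  induction l with
  | nil => exact ⟨⟨[], by simp, by simp⟩, by simp⟩
  | cons a l ih =>
    obtain ⟨⟨L, h1, h2⟩, h3⟩ := ih (fun x hx => hl x (by simp [hx]))
    have ha := hl a (by simp)
    refine ⟨⟨(a.snd :: l.map TrivSqZeroExt.fst) :: L.map (fun m => a.fst :: m), ?_, ?_⟩, ?_⟩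
    · intro m hm
      rcases List.mem_cons.1 hm with rfl | hm
      · refine ⟨by simp, fun x hx => ?_⟩
        rcases List.mem_cons.1 hx with rfl | hx
        · exact ha.2
        · obtain ⟨y, hy, rfl⟩ := List.mem_map.1 hx
          exact (hl y (by simp [hy])).1
      · obtain ⟨m', hm', rfl⟩ := List.mem_map.1 hm
        refine ⟨by rw [List.length_cons, List.length_cons, (h1 m' hm').1], fun x hx => ?_⟩
        rcases List.mem_cons.1 hx with rfl | hx
        · exact ha.1
        · exact (h1 m' hm').2 x hx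
    · rw [List.prod_cons, TrivSqZeroExt.snd_mul, h2, h3]
      simp only [List.map_cons, List.prod_cons, List.sum_cons, List.map_map, smul_eq_mul,
        MulOpposite.smul_eq_mul_unop, MulOpposite.unop_op]
      rw [add_comm]
      congr 1
      clear h1 h2
      induction L with
      | nil => simp
      | cons m L ih2 =>
        rw [List.map_cons, List.sum_cons, mul_add, ih2, List.map_cons, List.sum_cons]
        rfl
    · rw [List.prod_cons, TrivSqZeroExt.fst_mul, h3, List.map_cons, List.prod_cons]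

lemma nilp_dual (h : IsNilp N I) : IsNilp N (dualR I) := by
  refine ⟨fun x hx y hy => ⟨?_, ?_⟩, fun l hl hN => ?_⟩
  · rw [TrivSqZeroExt.fst_mul]; exact h.mul_mem _ hx.1 _ hy.1
  · rw [TrivSqZeroExt.snd_mul]
    exact I.add_mem (h.mul_mem _ hx.1 _ hy.2) (h.mul_mem _ hx.2 _ hy.1)
  · obtain ⟨⟨L, h1, h2⟩, h3⟩ := snd_prod_mem' l hl
    ext
    · rw [h3]
      exact h.prod_zero _ (by
        intro x hx
        obtain ⟨y, hy, rfl⟩ := List.mem_map.1 hx
        exact (hl y hy).1) (by rw [List.length_map, hN])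
    · rw [h2]
      have h4 : ∀ y ∈ L.map List.prod, y = 0 := by
        intro y hy
        obtain ⟨m, hm, rfl⟩ := List.mem_map.1 hy
        exact h.prod_zero _ (h1 m hm).2 ((h1 m hm).1.trans hN)
      rw [List.sum_eq_zero h4]
      rfl

end Dual

/-! ### The matrix model: the universal algebra with two `N`-nilpotent elements -/

section Mod

variable (R : Type) [CommRing R] (N : ℕ)

/-- the matrices over the words of length `< N` -/
abbrev WR : Type := Matrix (wl N) (wl N) R

/-- left multiplication by the letter `i` -/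
def LR (i : Fin 2) : WR R N :=
  Matrix.of fun u v => if (u : List (Fin 2)) = i :: (v : List (Fin 2)) then 1 else 0

/-- `M u v` vanishes unless `u` is longer than `v` by at least `k` -/
def IR (k : ℕ) : Submodule R (WR R N) where
  carrier := {M | ∀ u v : wl N, u.1.length < v.1.length + k → M u v = 0}
  add_mem' := fun {M M'} h h' u v huv => by
    rw [Matrix.add_apply, h u v huv, h' u v huv, add_zero]
  zero_mem' := fun u v huv => rfl
  smul_mem' := fun c M h u v huv => by
    rw [Matrix.smul_apply, h u v huv, smul_zero]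

lemma IR_mul {k l : ℕ} {M M' : WR R N} (h : M ∈ IR R N k) (h' : M' ∈ IR R N l) :
    M * M' ∈ IR R N (k + l) := by
  intro u v huv
  rw [Matrix.mul_apply]
  refine Finset.sum_eq_zero (fun r _ => ?_)
  by_cases h1 : u.1.length < r.1.length + k
  · rw [h u r h1, zero_mul]
  · rw [h' r v (by omega), mul_zero]

lemma IR_mono {k l : ℕ} (hkl : k ≤ l) {M : WR R N} (h : M ∈ IR R N l) : M ∈ IR R N k :=
  fun u v huv => h u v (by omega)

lemma IR_prod (l : List (WR R N)) (hl : ∀ x ∈ l, x ∈ IR R N 1) : l.prod ∈ IR R N l.length := by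
  induction l with
  | nil =>
    intro u v huv
    rw [List.prod_nil, Matrix.one_apply_ne]
    rintro rfl
    simp at huv
  | cons a l ih =>
    rw [List.prod_cons, List.length_cons, add_comm]
    exact IR_mul R N (hl a (by simp)) (ih (fun x hx => hl x (by simp [hx])))

lemma IR_nil : IsNilp N (IR R N 1) := by
  refine ⟨fun x hx y hy => IR_mono R N (by omega) (IR_mul R N hx hy), fun l hl hN => ?_⟩
  ext u v
  rw [Matrix.zero_apply]
  apply IR_prod R N l hl
  have := (mem_wl N u.1).1 u.2
  omega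

lemma LR_mem (i : Fin 2) : LR R N i ∈ IR R N 1 := by
  intro u v huv
  unfold LR
  rw [Matrix.of_apply, if_neg]
  intro h
  rw [h, List.length_cons] at huv
  omega

lemma LR_prod (w : List (Fin 2)) (p q : wl N) :
    (w.map ![LR R N 0, LR R N 1]).prod p q = if (p : List (Fin 2)) = w ++ q then 1 else 0 := by
  have hv : ∀ i : Fin 2, ![LR R N 0, LR R N 1] i = LR R N i := by
    intro i; fin_cases i <;> rfl
  induction w generalizing p with
  | nil =>
    rw [List.map_nil, List.prod_nil, Matrix.one_apply, List.nil_append]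
    by_cases h : p = q
    · rw [if_pos h, if_pos (by rw [h])]
    · rw [if_neg h, if_neg (fun h2 => h (Subtype.ext h2))]
  | cons i w ih =>
    rw [List.map_cons, List.prod_cons, Matrix.mul_apply, hv]
    by_cases h : (p : List (Fin 2)) = i :: w ++ q
    · rw [if_pos h]
      have hm : w ++ (q : List (Fin 2)) ∈ wl N := by
        rw [mem_wl]
        have := (mem_wl N p.1).1 p.2
        rw [h] at this
        simp only [List.cons_append, List.length_cons] at this
        omega
      rw [Finset.sum_eq_single (⟨w ++ (q : List (Fin 2)), hm⟩ : wl N)]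
      · rw [ih]
        unfold LR
        rw [Matrix.of_apply, if_pos, if_pos, one_mul]
        · rfl
        · rw [h]; rfl
      · intro r _ hr
        rw [ih, if_neg, mul_zero]
        intro h2
        exact hr (Subtype.ext h2)
      · intro h2
        exact absurd (Finset.mem_univ _) h2
    · rw [if_neg h]
      refine Finset.sum_eq_zero (fun r _ => ?_)
      rw [ih]
      unfold LR
      rw [Matrix.of_apply]
      by_cases h2 : (p : List (Fin 2)) = i :: (r : List (Fin 2))
      · rw [if_pos h2, if_neg, mul_zero]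
        intro h3
        exact h (by rw [h2, h3]; rfl)
      · rw [if_neg h2, zero_mul]

lemma EV_LR (X : AA R) (p q : wl N) : EV (LR R N 0) (LR R N 1) X p q =
    ∑ w ∈ wl N, if (p : List (Fin 2)) = w ++ q then cf X w else 0 := by
  rw [EV_wl' (IR_nil R N) (LR_mem R N 0) (LR_mem R N 1), Matrix.sum_apply]
  refine Finset.sum_congr rfl (fun w _ => ?_)
  rw [Matrix.smul_apply, LR_prod]
  split_ifs <;> simp

lemma EV_LR_nil (hN : 1 ≤ N) (X : AA R) (w : List (Fin 2)) (hw : w.length < N) :
    EV (LR R N 0) (LR R N 1) X ⟨w, (mem_wl N w).2 hw⟩ ⟨[], nil_mem N hN⟩ = cf X w := by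
  rw [EV_LR, Finset.sum_eq_single w]
  · simp
  · intro v _ hv
    rw [if_neg]
    intro h
    apply hv
    simpa using h.symm
  · intro h
    exact absurd ((mem_wl N w).2 hw) h

/-- equality of polynomials below length `N` -/
lemma EV_LR_inj {X Y : AA R} (h : EV (LR R N 0) (LR R N 1) X = EV (LR R N 0) (LR R N 1) Y) :
    ∀ w : List (Fin 2), w.length < N → cf X w = cf Y w := by
  intro w hw
  have hN : 1 ≤ N := by omega
  rw [← EV_LR_nil R N hN X w hw, h, EV_LR_nil R N hN Y w hw]

/-- equality of series below length `N` -/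
lemma val_LR_inj {f g : List (Fin 2) → R}
    (h : val f (LR R N 0) (LR R N 1) = val g (LR R N 0) (LR R N 1)) :
    ∀ w : List (Fin 2), w.length < N → f w = g w := by
  intro w hw
  rw [val_eq (IR_nil R N) (LR_mem R N 0) (LR_mem R N 1),
    val_eq (IR_nil R N) (LR_mem R N 0) (LR_mem R N 1)] at h
  have := EV_LR_inj R N h w hw
  rwa [cf_trn_of_lt hw, cf_trn_of_lt hw] at this

end Mod

/-- a series is determined by its values -/
lemma series_ext {R : Type} [CommRing R] {f g : List (Fin 2) → R}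
    (h : ∀ (E : Type) [Ring E] [Algebra R E] (N : ℕ) (I : Submodule R E), IsNilp N I →
      ∀ a ∈ I, ∀ b ∈ I, val f a b = val g a b) : f = g := by
  funext w
  exact val_LR_inj R (w.length + 1) (h _ _ _ (IR_nil R _) _ (LR_mem R _ 0) _ (LR_mem R _ 1)) w
    (by omega)

end MP446U
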