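import Pool.Agent.Lib.MP_446dfa_ag.unc.Spec
import Pool.Agent.Lib.MP_446dfa_ag.unc.Base

set_option linter.all false

/-!
# The homomorphism from `G` to `GT`
-/

noncomputable section

namespace MP446U

open MP446 MP446Y MP446Z MP446S MP446I

attribute [local instance 100] LieRing.ofAssociativeRing

namespace FIN

/-! ### associators -/

section Assoc

variable {R : Type} [CommRing R] [Algebra ℚ R]

lemma isGroupLike {μ : R} {f : List (Fin 2) → R} (h : IsAssoc R μ f) : IsGroupLike f where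
  one := (h 0).one
  shuffle := fun v w => (h (v.length + w.length + 1)).gl v w (by omega)

end Assoc

/-- the data used in the construction -/
structure Data where
  φ : List (Fin 2) → ℚ
  hφ : IsAssoc ℚ 1 φ
  σ : ℕ → F2 ℚ
  h1 : ∀ i, IsGRT (σ i)
  h2 : ∀ i (w : List (Fin 2)), w.length ≠ 2 * i + 3 → coef (σ i) w = 0
  h3 : ∀ i, coef (σ i) (List.replicate (2 * i + 2) 0 ++ [1]) ≠ 0
  gqk : SpecGQK
  bcq : SpecBCQ
  opc : SpecOPC
  opv : SpecOPV
  opn : SpecOPN
  pra : SpecPRA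
  bch : SpecBCH
  exl : SpecEXL
  inv : SpecINV
  gth : SpecGTH
  gtp : SpecGTP
  inj : SpecINJ

variable (D : Data)

/-- the alphabet of the `σ_i` -/
def alph : Alph ℕ where
  dg i := 2 * i + 3
  pos i := by omega
  fib n := (Finset.range n).filter (fun i => 2 * i + 3 = n)
  mem_fib n i := by
    rw [Finset.mem_filter, Finset.mem_range]
    omega

lemma alph_wt (w : List ℕ) : alph.wt w = weight w := rfl

/-- the family of the `σ_i` -/
def fam (R : Type) [CommRing R] [Algebra ℚ R] : GFam R ℕ where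
  toAlph := alph
  Q i := bcP (algebraMap ℚ R) (assoc ℚ (D.σ i))
  gq i := D.bcq ℚ R _ _ _ (D.gqk ℚ _ _ (by change 2 ≤ 2 * i + 3; omega)
    (fun w hw => D.h2 i w hw) (D.h1 i))

lemma fam_dg (R : Type) [CommRing R] [Algebra ℚ R] (i : ℕ) : (fam D R).dg i = 2 * i + 3 := rfl

section R

variable (R : Type) [CommRing R] [Algebra ℚ R]

/-- the associator over `R` -/
def phR : List (Fin 2) → R := fun w => algebraMap ℚ R (D.φ w)

lemma phR_assoc : IsAssoc R 1 (phR D R) := by
  intro N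
  have := D.bch.1 ℚ R (algebraMap ℚ R) N 1 D.φ (D.hφ N)
  rwa [map_one] at this

lemma phR_nil : phR D R [] = 1 := (phR_assoc D R 0).one

variable {R}

/-- the associator `g · φ` -/
def ph' (g : Mot R) : List (Fin 2) → R := (fam D R).act g.ser (scaleF (g.scal : R) (phR D R))

lemma ph'_assoc (g : Mot R) : IsAssoc R (g.scal : R) (ph' D g) := by
  intro N
  have h := D.bch.2 R (g.scal : R) 1 N (phR D R) (phR_assoc D R N)
  rw [mul_one] at h
  exact D.pra R ℕ (fam D R) g.ser g.isGroupLike (fun s => by rw [fam_dg]; omega) N _ _ h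

/-- the component `f` -/
def ff (g : Mot R) : List (Fin 2) → R := (D.inv.1 R (phR D R) (ph' D g) (phR_nil D R)).choose

lemma ff_rel (g : Mot R) : Rel (phR D R) (ff D g) (ph' D g) :=
  (D.inv.1 R (phR D R) (ph' D g) (phR_nil D R)).choose_spec.1

lemma ff_unique (g : Mot R) {f : List (Fin 2) → R} (h : Rel (phR D R) f (ph' D g)) :
    f = ff D g := (D.inv.1 R (phR D R) (ph' D g) (phR_nil D R)).choose_spec.2 f h

/-- the map `ρ'` -/
def rho' (g : Mot R) : GT R where
  lam := g.scal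
  ser := ff D g
  isGroupLike := D.inv.2.1 R (phR D R) (ff D g) (ph' D g) (isGroupLike (phR_assoc D R))
    (isGroupLike (ph'_assoc D g)) (ff_rel D g)
  twoCycle := fun E _ _ N I hI x y hx hy =>
    (D.gth R (phR D R) (ff D g) (ph' D g) g.scal (phR_assoc D R) (ph'_assoc D g) (ff_rel D g) E N I
      hI).1 x y hx hy
  hexagon := fun E _ _ N I hI x y z hx hy hz hxyz m hm =>
    (D.gth R (phR D R) (ff D g) (ph' D g) g.scal (phR_assoc D R) (ph'_assoc D g) (ff_rel D g) E N I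
      hI).2 x y z hx hy hz hxyz m hm
  pentagon := fun E _ _ N I hI x hx hx' =>
    D.gtp R D.φ (ff D g) (ph' D g) g.scal D.hφ (ph'_assoc D g) (ff_rel D g) E N I hI x hx hx'

end R

/-- the homomorphism -/
def rho (R : Type) [CommRing R] [Algebra ℚ R] (g : Mot R) : GT R := rho' D g⁻¹

/-! ### naturality -/

section Nat

variable {R S : Type} [CommRing R] [Algebra ℚ R] [CommRing S] [Algebra ℚ S] (θ : R →+* S)

lemma comp_alg (q : ℚ) : θ (algebraMap ℚ R q) = algebraMap ℚ S q :=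
  RingHom.congr_fun (Subsingleton.elim (θ.comp (algebraMap ℚ R)) (algebraMap ℚ S)) q

lemma phR_map (w : List (Fin 2)) : phR D S w = θ (phR D R w) := (comp_alg θ _).symm

lemma ph'_map (g : Mot R) (w : List (Fin 2)) : ph' D (g.map θ) w = θ (ph' D g w) := by
  have h := D.opn.1 R S ℕ θ (fam D R) (fam D S) rfl (fun s => by
    apply MP446S.AA_ext
    intro w
    change algebraMap ℚ S _ = θ (algebraMap ℚ R _)
    rw [comp_alg]) g.ser (scaleF (g.scal : R) (phR D R)) w
  unfold ph'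
  rw [← h]
  congr 1
  funext w
  unfold scaleF
  rw [map_mul, map_pow, ← phR_map]
  rfl

lemma rel_map {φ f g : List (Fin 2) → R} (h : Rel φ f g) :
    Rel (fun w => θ (φ w)) (fun w => θ (f w)) (fun w => θ (g w)) := by
  intro E _ _ N I hI a ha b hb p hp
  letI : Algebra R S := θ.toAlgebra
  letI : Algebra R E := Algebra.compHom E θ
  haveI : IsScalarTower R S E := IsScalarTower.of_algebraMap_eq (fun _ => rfl)
  have e : ∀ f : List (Fin 2) → R, ∀ a b : E, val (fun w => θ (f w)) a b = val f a b :=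
    fun f a b => val_bc (R := R) (R' := S) a b f
  rw [e] at hp
  rw [e, e]
  exact h E N (I.restrictScalars R) (nilp_restrict hI) a ha b hb p hp

lemma ff_map (g : Mot R) (w : List (Fin 2)) : ff D (g.map θ) w = θ (ff D g w) := by
  have h := rel_map θ (ff_rel D g)
  have e1 : (fun w => θ (phR D R w)) = phR D S := funext (fun w => (phR_map D θ w).symm)
  have e2 : (fun w => θ (ph' D g w)) = ph' D (g.map θ) := funext (fun w => (ph'_map D θ g w).symm)
  rw [e1, e2] at h
  rw [← ff_unique D (g.map θ) h]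

lemma map_mul_mot (g h : Mot R) : (g * h).map θ = g.map θ * h.map θ := by
  apply Mot.ext
  · funext w
    change θ (conv g.ser (scale (g.scal : R) h.ser) w) =
      conv (fun w => θ (g.ser w)) (scale (θ (g.scal : R)) (fun w => θ (h.ser w))) w
    unfold conv
    rw [map_sum]
    refine Finset.sum_congr rfl (fun i _ => ?_)
    unfold scale
    rw [map_mul, map_mul, map_pow]
  · exact map_mul (Units.map (θ : R →* S)) g.scal h.scal

lemma map_inv_mot (g : Mot R) : (g⁻¹).map θ = (g.map θ)⁻¹ := by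
  have h1 : (1 : Mot R).map θ = 1 := by
    have h := map_mul_mot θ 1 (1 : Mot R)
    rw [one_mul] at h
    exact (mul_eq_left.1 h.symm)
  rw [eq_inv_iff_mul_eq_one, ← map_mul_mot, inv_mul_cancel, h1]

end Nat

/-! ### the composition law -/

section Mul

variable {R : Type} [CommRing R] [Algebra ℚ R]

lemma scaleF_mul (c d : R) (f : List (Fin 2) → R) : scaleF c (scaleF d f) = scaleF (c * d) f := by
  funext w
  unfold scaleF
  rw [mul_pow]
  ring

lemma ph'_mul (G H : Mot R) :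
    ph' D (G * H) = (fam D R).act G.ser (scaleF (G.scal : R) (ph' D H)) := by
  have e1 : (G * H).ser = conv G.ser (scale (G.scal : R) H.ser) := rfl
  have e2 : ((G * H).scal : R) = (G.scal : R) * (H.scal : R) := rfl
  unfold ph'
  rw [e1, e2, ← (D.opc R ℕ (fam D R) G.ser (scale (G.scal : R) H.ser) _).1,
    D.opn.2 R ℕ (fam D R) (G.scal : R) H.ser, scaleF_mul]
  rfl

/-- the composition law, in terms of logarithms -/
lemma ff_mul (G H : Mot R) {E : Type} [Ring E] [Algebra R E] {N : ℕ} {I : Submodule R E}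
    (hI : IsNilp N I) {X Y : E} (hX : X ∈ I) (hY : Y ∈ I) (k : Eˣ) (hk : (k : E) = val (ff D G) X Y) :
    val (ff D (G * H)) X Y =
      val (ff D H) (k * ((G.scal : R) • X) * (k⁻¹ : Eˣ)) ((G.scal : R) • Y) * k := by
  obtain ⟨a, ha, p, hp, hpa⟩ := D.inv.2.2 R (phR D R) (phR_nil D R) E N I hI X hX Y hY
  have hone : ∀ f : List (Fin 2) → R, f [] = 1 → ∀ a ∈ I, ∀ b ∈ I,
      ∃ q : Eˣ, (q : E) = val f a b ∧ (q : E) - 1 ∈ I := by
    intro f hf a ha b hb
    obtain ⟨q, h1, -⟩ := exists_unit hI (val_sub_one_mem hI ha hb hf)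
    exact ⟨q, h1, by rw [h1]; exact val_sub_one_mem hI ha hb hf⟩
  have hT1 : (fam D R).act G.ser (one1 R) [] = 1 := by
    have h1 : IsAssocN R 0 (0 : R) (one1 R) → (fam D R).act G.ser (one1 R) [] = 1 := fun h =>
      (D.pra R ℕ (fam D R) G.ser G.isGroupLike (fun s => by rw [fam_dg]; omega) 0 _ _ h).one
    apply h1
    have hz : ∀ (E : Type) [Ring E] [Algebra R E] (I : Submodule R E), IsNilp 0 I →
        ∀ x y : E, x = y := by
      intro E _ _ I hI x y
      have h1 : (1 : E) = 0 := hI.prod_zero [] (by simp) rfl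
      rw [← mul_one x, h1, ← mul_one y, h1, mul_zero, mul_zero]
    exact ⟨rfl, fun v w h => by omega, fun E _ _ I hI a _ b _ => hz E I hI _ _,
      fun E _ _ I hI a _ b _ c _ _ _ _ => hz E I hI _ _,
      fun E _ _ I hI t _ _ => hz E I hI _ _⟩
  obtain ⟨kk, hkk, hkk1⟩ := hone _ hT1 a ha Y hY
  have hA : (kk : E) * a * (kk⁻¹ : Eˣ) ∈ I := conj_mem hI hkk1 ha
  obtain ⟨p₁, hp₁, hp₁'⟩ := hone _ (phR_nil D R) _ (I.smul_mem (G.scal : R) hA) _
    (I.smul_mem (G.scal : R) hY)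
  -- the value formula
  have v1 : ∀ F : List (Fin 2) → R, val ((fam D R).act G.ser (scaleF (G.scal : R) F)) a Y =
      val F ((G.scal : R) • (kk * a * (kk⁻¹ : Eˣ))) ((G.scal : R) • Y) * kk := by
    intro F
    rw [D.opv R ℕ (fam D R) G.ser G.isGroupLike (scaleF (G.scal : R) F) N E I hI a ha Y hY kk hkk,
      val_scaleF hI hA hY]
  have r1 : val (ff D G) (p * a * (p⁻¹ : Eˣ)) Y * p = val (ph' D G) a Y :=
    ff_rel D G E N I hI a ha Y hY p hp
  have r2 : val (ff D (G * H)) (p * a * (p⁻¹ : Eˣ)) Y * p = val (ph' D (G * H)) a Y :=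
    ff_rel D (G * H) E N I hI a ha Y hY p hp
  have r3 : val (ff D H) (p₁ * ((G.scal : R) • (kk * a * (kk⁻¹ : Eˣ))) * (p₁⁻¹ : Eˣ))
      ((G.scal : R) • Y) * p₁ = val (ph' D H) ((G.scal : R) • (kk * a * (kk⁻¹ : Eˣ)))
        ((G.scal : R) • Y) :=
    ff_rel D H E N I hI _ (I.smul_mem _ hA) _ (I.smul_mem _ hY) p₁ hp₁
  rw [ph'_mul D G H, v1, hpa] at r2
  have e1 : ph' D G = (fam D R).act G.ser (scaleF (G.scal : R) (phR D R)) := rfl
  rw [e1, v1, hpa, ← hk, ← hp₁] at r1
  -- `k p = p₁ kk`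
  have u1 : k * p = p₁ * kk := Units.ext (by rw [Units.val_mul, Units.val_mul]; exact r1)
  have u2 : p₁ = k * p * kk⁻¹ := by rw [u1]; simp
  have e3 : (p₁ : E) * ((G.scal : R) • (kk * a * (kk⁻¹ : Eˣ))) * (p₁⁻¹ : Eˣ) =
      k * ((G.scal : R) • X) * (k⁻¹ : Eˣ) := by
    rw [← hpa]
    have h1 : (p₁ : E) * ((kk : E) * a * (kk⁻¹ : Eˣ)) * (p₁⁻¹ : Eˣ) =
        k * (p * a * (p⁻¹ : Eˣ)) * (k⁻¹ : Eˣ) := by
      rw [u2]
      simp only [Units.val_mul, mul_inv_rev, inv_inv, mul_assoc, Units.inv_mul_cancel_left]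
    rw [mul_smul_comm, smul_mul_assoc, h1, mul_smul_comm, smul_mul_assoc]
  rw [e3] at r3
  rw [← r3] at r2
  have r4 : val (ff D (G * H)) X Y * p =
      val (ff D H) (k * ((G.scal : R) • X) * (k⁻¹ : Eˣ)) ((G.scal : R) • Y) * k * p := by
    rw [r2, mul_assoc _ (p₁ : E) (kk : E), mul_assoc _ (k : E) (p : E), ← Units.val_mul,
      ← Units.val_mul, u1]
  exact (Units.mul_left_inj p).1 r4

end Mul

include D in
theorem main : ∃ ρ : ∀ (R : Type) [CommRing R] [Algebra ℚ R], Mot R → GT R, IsMonomorphism ρ := by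
  refine ⟨fun R _ _ => rho D R, ?_, ?_, ?_⟩
  · intro R S _ _ _ _ θ g
    change (rho' D (g.map θ)⁻¹).lam = Units.map θ (rho' D g⁻¹).lam ∧
      ∀ w, (rho' D (g.map θ)⁻¹).ser w = θ ((rho' D g⁻¹).ser w)
    rw [← map_inv_mot]
    exact ⟨rfl, fun w => ff_map D θ g⁻¹ w⟩
  · intro R _ _ g h
    refine ⟨?_, ?_⟩
    · change (g * h)⁻¹.scal = g⁻¹.scal * h⁻¹.scal
      rw [mul_inv_rev]
      change h⁻¹.scal * g⁻¹.scal = _
      exact mul_comm _ _
    · intro E _ _ N I hI x y hx hy k hk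
      obtain ⟨x1, x2, x3, x4, x5, x6, x7, x8⟩ := D.exl R E N I hI
      have hX := (x4 x hx).1
      have hY := (x4 y hy).1
      have eX := (x4 x hx).2
      have eY := (x4 y hy).2
      change app (rho' D (g * h)⁻¹).ser x y = app (rho' D g⁻¹).ser
        (k * powU x ((h⁻¹.scal : Rˣ) : R) * (k⁻¹ : Eˣ)) (powU y ((h⁻¹.scal : Rˣ) : R)) * k
      have hsX : (((h⁻¹).scal : Rˣ) : R) • logU R x ∈ I := I.smul_mem _ hX
      have hsY : (((h⁻¹).scal : Rˣ) : R) • logU R y ∈ I := I.smul_mem _ hY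
      have e1 : powU x ((h⁻¹.scal : Rˣ) : R) = expU R (((h⁻¹).scal : R) • logU R x) := by
        conv_lhs => rw [← eX]
        exact x3 _ hX _
      have e2 : powU y ((h⁻¹.scal : Rˣ) : R) = expU R (((h⁻¹).scal : R) • logU R y) := by
        conv_lhs => rw [← eY]
        exact x3 _ hY _
      have e3 : logU R (k * powU x ((h⁻¹.scal : Rˣ) : R) * (k⁻¹ : Eˣ) : E) =
          k * (((h⁻¹).scal : R) • logU R x) * (k⁻¹ : Eˣ) := by
        rw [e1, x7 _ (x1 _ hsX) k, x2 _ hsX]
      have e4 : logU R (powU y ((h⁻¹.scal : Rˣ) : R) : E) = ((h⁻¹).scal : R) • logU R y := by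
        rw [e2, x2 _ hsY]
      unfold app
      rw [e3, e4, mul_inv_rev]
      exact ff_mul D h⁻¹ g⁻¹ hI hX hY k hk
  · intro R _ _ g h hgh
    have h1 : rho' D g⁻¹ = rho' D h⁻¹ := hgh
    have h2 : (g⁻¹).scal = (h⁻¹).scal := congrArg GT.lam h1
    have h3 : ff D g⁻¹ = ff D h⁻¹ := congrArg GT.ser h1
    have h4 : ph' D g⁻¹ = ph' D h⁻¹ := by
      apply series_ext
      intro E _ _ N I hI a ha b hb
      obtain ⟨p, hp, -⟩ := exists_unit hI (val_sub_one_mem hI ha hb (phR_nil D R))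
      rw [← ff_rel D g⁻¹ E N I hI a ha b hb p hp, ← ff_rel D h⁻¹ E N I hI a ha b hb p hp, h3]
    have h5 : g⁻¹.ser = h⁻¹.ser := by
      refine D.inj D.σ D.h1 D.h2 D.h3 R (fam D R) (fam_dg D R) (fun i => rfl) _ _
        g⁻¹.isGroupLike h⁻¹.isGroupLike (scaleF ((g⁻¹).scal : R) (phR D R)) ?_ ?_
      · unfold scaleF
        rw [phR_nil]
        simp
      · have : ph' D h⁻¹ = (fam D R).act h⁻¹.ser (scaleF ((g⁻¹).scal : R) (phR D R)) := by
          unfold ph'
          rw [h2]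
        rw [← this, ← h4]
        rfl
    have h6 : g⁻¹ = h⁻¹ := Mot.ext h5 h2
    exact inv_injective h6

end FIN

/-- the existence of a monomorphism -/
theorem specFIN (kzc : SpecKZC) (dsc : SpecDSC) (gqk : SpecGQK) (bcq : SpecBCQ) (opc : SpecOPC)
    (opv : SpecOPV) (opn : SpecOPN) (pra : SpecPRA) (bch : SpecBCH) (exl : SpecEXL) (inv : SpecINV)
    (gth : SpecGTH) (gtp : SpecGTP) (inj : SpecINJ) : SpecFIN := by
  obtain ⟨φ, hφ⟩ := dsc kzc
  choose σ h1 h2 h3 using MP446S.exists_sigma ℚ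
  exact FIN.main ⟨φ, hφ, σ, h1, h2, h3, gqk, bcq, opc, opv, opn, pra, bch, exl, inv, gth, gtp,
    inj⟩

end MP446U
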