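import Pool.Agent.Lib.MP_446dfa_ag.unc.Defs

set_option linter.all false

/-!
# Values of series at nilpotent elements
-/

noncomputable section

namespace MP446U.V

open MP446 MP446Y MP446Z MP446S MP446I

section Val

variable {R : Type} [CommRing R] {E : Type} [Ring E] [Algebra R E] {N : ℕ} {I : Submodule R E}
  {a b : E}

lemma nilp_zero_of_le (h : IsNilp N I) (l : List E) (hl : ∀ x ∈ l, x ∈ I) (hN : N ≤ l.length) :
    l.prod = 0 := by
  rw [← List.take_append_drop N l, List.prod_append,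
    h.prod_zero _ (fun x hx => hl x (List.mem_of_mem_take hx)) (by
      rw [List.length_take, min_eq_left hN]), zero_mul]

lemma nilp_mono (h : IsNilp N I) {N' : ℕ} (hN : N ≤ N') : IsNilp N' I :=
  ⟨h.mul_mem, fun l hl h2 => nilp_zero_of_le h l hl (by omega)⟩

lemma nilp_prod_mem (h : IsNilp N I) (l : List E) (hl : ∀ x ∈ l, x ∈ I) (hne : l ≠ []) :
    l.prod ∈ I := by
  induction l with
  | nil => exact absurd rfl hne
  | cons a l ih =>
    rw [List.prod_cons]
    by_cases h2 : l = []
    · subst h2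
      rw [List.prod_nil, mul_one]
      exact hl a (by simp)
    · exact h.mul_mem _ (hl a (by simp)) _ (ih (fun x hx => hl x (by simp [hx])) h2)

lemma nilp_pow_zero (h : IsNilp N I) {a : E} (ha : a ∈ I) {k : ℕ} (hk : N ≤ k) : a ^ k = 0 := by
  rw [← List.prod_replicate]
  exact nilp_zero_of_le h _ (fun x hx => by rw [List.eq_of_mem_replicate hx]; exact ha) (by simpa)

lemma nilp_map_mem (ha : a ∈ I) (hb : b ∈ I) (w : List (Fin 2)) :
    ∀ x ∈ w.map ![a, b], x ∈ I := by
  intro x hx
  obtain ⟨i, -, rfl⟩ := List.mem_map.1 hx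
  fin_cases i
  · exact ha
  · exact hb

lemma nilp_word_zero (h : IsNilp N I) (ha : a ∈ I) (hb : b ∈ I) (w : List (Fin 2))
    (hw : N ≤ w.length) : (w.map ![a, b]).prod = 0 :=
  nilp_zero_of_le h _ (nilp_map_mem ha hb w) (by rw [List.length_map]; exact hw)

lemma val_eq (h : IsNilp N I) (ha : a ∈ I) (hb : b ∈ I) (f : List (Fin 2) → R) {M : ℕ}
    (hM : N ≤ M) : val f a b = ∑ w ∈ wl M, f w • (w.map ![a, b]).prod := by
  unfold val
  rw [finsum_eq_sum_of_support_subset]
  intro w hw
  rw [Finset.mem_coe, mem_wl]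
  by_contra hc
  apply hw
  simp only
  rw [nilp_word_zero h ha hb w (by omega), smul_zero]

lemma cf_trn (N : ℕ) (f : List (Fin 2) → R) (w : List (Fin 2)) :
    cf (trn N f) w = if w.length < N then f w else 0 := by
  classical
  unfold trn
  rw [cf_sum]
  simp only [cf_smul, cf_ow, mul_ite, mul_one, mul_zero]
  rw [Finset.sum_ite_eq']
  simp only [mem_wl]

lemma val_eq_EV (h : IsNilp N I) (ha : a ∈ I) (hb : b ∈ I) (f : List (Fin 2) → R) {M : ℕ}
    (hM : N ≤ M) : val f a b = EV a b (trn M f) := by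
  rw [val_eq h ha hb f hM, MP446S.EV_wl (fun w hw => nilp_word_zero h ha hb w (hM.trans hw))]
  refine Finset.sum_congr rfl (fun w hw => ?_)
  rw [cf_trn, if_pos ((mem_wl M w).1 hw)]

/-- the value depends only on the coefficients of the words of length `< N` -/
lemma val_congr (h : IsNilp N I) (ha : a ∈ I) (hb : b ∈ I) {f g : List (Fin 2) → R}
    (hfg : ∀ w : List (Fin 2), w.length < N → f w = g w) : val f a b = val g a b := by
  rw [val_eq h ha hb f le_rfl, val_eq h ha hb g le_rfl]
  refine Finset.sum_congr rfl (fun w hw => ?_)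
  rw [hfg w ((mem_wl N w).1 hw)]

lemma EV_zero_of_short (h : IsNilp N I) (ha : a ∈ I) (hb : b ∈ I) {X : AA R}
    (hX : ∀ w : List (Fin 2), w.length < N → cf X w = 0) : EV a b X = 0 := by
  rw [MP446S.EV_wl (nilp_word_zero h ha hb)]
  refine Finset.sum_eq_zero (fun w hw => ?_)
  rw [hX w ((mem_wl N w).1 hw), zero_smul]

/-- the value of a product of series -/
lemma val_mul (h : IsNilp N I) (ha : a ∈ I) (hb : b ∈ I) (u v : Ser (Fin 2) R) :
    val (u * v).cf a b = val u.cf a b * val v.cf a b := by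
  rw [val_eq_EV h ha hb _ le_rfl, val_eq_EV h ha hb _ le_rfl, val_eq_EV h ha hb _ le_rfl,
    ← map_mul, ← sub_eq_zero, ← map_sub]
  refine EV_zero_of_short h ha hb (fun w hw => ?_)
  rw [cf_sub, cf_trn, if_pos hw, cf_mul, sub_eq_zero]
  change (u * v) w = _
  rw [Ser.mul_apply]
  refine Finset.sum_congr rfl (fun i hi => ?_)
  rw [cf_trn, cf_trn, if_pos, if_pos]
  · rw [List.length_drop]
    omega
  · rw [List.length_take]
    omega

lemma val_conv (h : IsNilp N I) (ha : a ∈ I) (hb : b ∈ I) (u v : List (Fin 2) → R) :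
    val (conv u v) a b = val u a b * val v a b := val_mul h ha hb ⟨u⟩ ⟨v⟩

lemma val_one1 (a b : E) : val (one1 R) a b = 1 := by
  unfold val
  rw [finsum_eq_sum_of_support_subset (s := {[]})]
  · rw [Finset.sum_singleton]
    simp [one1]
  · intro w hw
    rw [Finset.coe_singleton, Set.mem_singleton_iff]
    by_contra hc
    apply hw
    simp only [one1]
    rw [Ser.one_of_ne hc, zero_smul]

lemma val_add (h : IsNilp N I) (ha : a ∈ I) (hb : b ∈ I) (u v : Ser (Fin 2) R) :
    val (u + v).cf a b = val u.cf a b + val v.cf a b := by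
  rw [val_eq h ha hb _ le_rfl, val_eq h ha hb _ le_rfl, val_eq h ha hb _ le_rfl,
    ← Finset.sum_add_distrib]
  refine Finset.sum_congr rfl (fun w _ => ?_)
  rw [← add_smul]
  rfl

lemma val_smul (h : IsNilp N I) (ha : a ∈ I) (hb : b ∈ I) (c : R) (u : Ser (Fin 2) R) :
    val (c • u).cf a b = c • val u.cf a b := by
  rw [val_eq h ha hb _ le_rfl, val_eq h ha hb _ le_rfl, Finset.smul_sum]
  refine Finset.sum_congr rfl (fun w _ => ?_)
  rw [smul_smul]
  rfl

lemma val_sub (h : IsNilp N I) (ha : a ∈ I) (hb : b ∈ I) (u v : Ser (Fin 2) R) :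
    val (u - v).cf a b = val u.cf a b - val v.cf a b := by
  rw [val_eq h ha hb _ le_rfl, val_eq h ha hb _ le_rfl, val_eq h ha hb _ le_rfl,
    ← Finset.sum_sub_distrib]
  refine Finset.sum_congr rfl (fun w _ => ?_)
  rw [← sub_smul]
  rfl

/-- the value of a series without constant term is in `I` -/
lemma val_mem (h : IsNilp N I) (ha : a ∈ I) (hb : b ∈ I) {f : List (Fin 2) → R} (hf : f [] = 0) :
    val f a b ∈ I := by
  rw [val_eq h ha hb f le_rfl]
  refine Submodule.sum_mem _ (fun w _ => ?_)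
  by_cases hw : w = []
  · subst hw
    rw [hf, zero_smul]
    exact I.zero_mem
  · exact I.smul_mem _ (nilp_prod_mem h _ (nilp_map_mem ha hb w) (by simpa using hw))

/-- the value of a series with constant term `1` is in `1 + I` -/
lemma val_sub_one_mem (h : IsNilp N I) (ha : a ∈ I) (hb : b ∈ I) {f : List (Fin 2) → R}
    (hf : f [] = 1) : val f a b - 1 ∈ I := by
  have h1 := val_sub h ha hb ⟨f⟩ (1 : Ser (Fin 2) R)
  have h2 : val (1 : Ser (Fin 2) R).cf a b = 1 := val_one1 a b
  rw [h2] at h1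
  rw [← h1]
  apply val_mem h ha hb
  change f [] - 1 = 0
  rw [hf, sub_self]

/-- words under algebra homomorphisms -/
lemma map_word {F : Type} [Ring F] (σ : E →+* F) (a b : E) (w : List (Fin 2)) :
    σ (w.map ![a, b]).prod = (w.map ![σ a, σ b]).prod := by
  rw [map_list_prod, List.map_map]
  congr 1
  apply List.map_congr_left
  intro i _
  fin_cases i <;> rfl

lemma map_val {F : Type} [Ring F] [Algebra R F] (σ : E →ₐ[R] F) (h : IsNilp N I) (ha : a ∈ I)
    (hb : b ∈ I) (f : List (Fin 2) → R) : σ (val f a b) = val f (σ a) (σ b) := by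
  have h2 : ∀ w : List (Fin 2), N ≤ w.length → (w.map ![σ a, σ b]).prod = 0 := by
    intro w hw
    have := map_word (σ : E →+* F) a b w
    rw [nilp_word_zero h ha hb w hw, map_zero] at this
    exact this.symm
  have h3 : val f (σ a) (σ b) = ∑ w ∈ wl N, f w • (w.map ![σ a, σ b]).prod := by
    unfold val
    rw [finsum_eq_sum_of_support_subset]
    intro w hw
    rw [Finset.mem_coe, mem_wl]
    by_contra hc
    apply hw
    simp only
    rw [h2 w (by omega), smul_zero]
  rw [h3, val_eq h ha hb f le_rfl, map_sum]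
  refine Finset.sum_congr rfl (fun w _ => ?_)
  rw [map_smul]
  congr 1
  exact map_word (σ : E →+* F) a b w

lemma conj_word (p : Eˣ) (a b : E) (w : List (Fin 2)) :
    (w.map ![(p : E) * a * (p⁻¹ : Eˣ), (p : E) * b * (p⁻¹ : Eˣ)]).prod =
      p * (w.map ![a, b]).prod * (p⁻¹ : Eˣ) := by
  induction w with
  | nil => simp
  | cons i w ih =>
    rw [List.map_cons, List.prod_cons, ih, List.map_cons, List.prod_cons]
    have key : ∀ c : E, (p : E) * c * (p⁻¹ : Eˣ) * (p * (w.map ![a, b]).prod * (p⁻¹ : Eˣ)) =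
        p * (c * (w.map ![a, b]).prod) * (p⁻¹ : Eˣ) := by
      intro c
      calc (p : E) * c * (p⁻¹ : Eˣ) * (p * (w.map ![a, b]).prod * (p⁻¹ : Eˣ))
          = p * c * ((p⁻¹ : Eˣ) * p) * ((w.map ![a, b]).prod * (p⁻¹ : Eˣ)) := by
            simp only [mul_assoc]
        _ = _ := by rw [Units.inv_mul, mul_one]; simp only [mul_assoc]
    fin_cases i
    · exact key a
    · exact key b

/-- conjugation -/
lemma val_conj (h : IsNilp N I) (ha : a ∈ I) (hb : b ∈ I) (f : List (Fin 2) → R) (p : Eˣ) :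
    val f (p * a * (p⁻¹ : Eˣ)) (p * b * (p⁻¹ : Eˣ)) = p * val f a b * (p⁻¹ : Eˣ) := by
  have h3 : val f ((p : E) * a * (p⁻¹ : Eˣ)) ((p : E) * b * (p⁻¹ : Eˣ)) =
      ∑ w ∈ wl N, f w • (w.map ![(p : E) * a * (p⁻¹ : Eˣ), (p : E) * b * (p⁻¹ : Eˣ)]).prod := by
    unfold val
    rw [finsum_eq_sum_of_support_subset]
    intro w hw
    rw [Finset.mem_coe, mem_wl]
    by_contra hc
    apply hw
    simp only
    rw [conj_word, nilp_word_zero h ha hb w (by omega), mul_zero, zero_mul, smul_zero]
  rw [h3, val_eq h ha hb f le_rfl, Finset.mul_sum, Finset.sum_mul]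
  refine Finset.sum_congr rfl (fun w _ => ?_)
  rw [conj_word, mul_smul_comm, smul_mul_assoc]

lemma val_comm (h : IsNilp N I) (ha : a ∈ I) (hb : b ∈ I) (f : List (Fin 2) → R) {z : E}
    (h1 : z * a = a * z) (h2 : z * b = b * z) : z * val f a b = val f a b * z := by
  rw [val_eq_EV h ha hb f le_rfl]
  exact comm_EV h1 h2 _

/-- a series with constant term `1` takes invertible values -/
lemma exists_val_unit (h : IsNilp N I) (ha : a ∈ I) (hb : b ∈ I) {f : List (Fin 2) → R}
    (hf : f [] = 1) : ∃ p : Eˣ, (p : E) = val f a b := by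
  obtain ⟨v, h1, h2, -⟩ := exists_inv (⟨f⟩ : Ser (Fin 2) R) hf
  have e1 := val_mul h ha hb ⟨f⟩ v
  have e2 := val_mul h ha hb v ⟨f⟩
  rw [h1] at e1
  rw [h2] at e2
  have h3 : val (1 : Ser (Fin 2) R).cf a b = 1 := val_one1 a b
  rw [h3] at e1 e2
  exact ⟨⟨val f a b, val v.cf a b, e1.symm, e2.symm⟩, rfl⟩

/-- composition of series -/
def cmpS (α β f : Ser (Fin 2) R) : Ser (Fin 2) R :=
  ⟨fun w => ∑ v ∈ wl (w.length + 1), f v * ((v.map ![α, β]).prod : Ser (Fin 2) R) w⟩

lemma word_val (h : IsNilp N I) (ha : a ∈ I) (hb : b ∈ I) (α β : Ser (Fin 2) R)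
    (v : List (Fin 2)) : val ((v.map ![α, β]).prod : Ser (Fin 2) R).cf a b =
      (v.map ![val α.cf a b, val β.cf a b]).prod := by
  induction v with
  | nil => exact val_one1 a b
  | cons i v ih =>
    rw [List.map_cons, List.prod_cons, val_mul h ha hb, ih, List.map_cons, List.prod_cons]
    congr 1
    fin_cases i <;> rfl

lemma word_short {α β : Ser (Fin 2) R} (hα : α [] = 0) (hβ : β [] = 0) (v w : List (Fin 2))
    (hw : w.length < v.length) : ((v.map ![α, β]).prod : Ser (Fin 2) R) w = 0 := by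
  induction v generalizing w with
  | nil => simp at hw
  | cons i v ih =>
    rw [List.map_cons, List.prod_cons, Ser.mul_apply]
    refine Finset.sum_eq_zero (fun j _ => ?_)
    have h0 : (![α, β] i) [] = 0 := by
      fin_cases i
      · exact hα
      · exact hβ
    by_cases hj : w.take j = []
    · rw [hj, h0, zero_mul]
    · rw [ih, mul_zero]
      have h1 := List.length_pos_of_ne_nil hj
      rw [List.length_take] at h1
      rw [List.length_drop]
      rw [List.length_cons] at hw
      omega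

lemma val_cmpS (h : IsNilp N I) (ha : a ∈ I) (hb : b ∈ I) {α β : Ser (Fin 2) R} (hα : α [] = 0)
    (hβ : β [] = 0) (f : Ser (Fin 2) R) :
    val (cmpS α β f).cf a b = val f.cf (val α.cf a b) (val β.cf a b) := by
  rw [val_eq h (val_mem h ha hb hα) (val_mem h ha hb hβ) f.cf le_rfl, val_eq h ha hb _ le_rfl]
  have e1 : ∀ v ∈ wl N, f v • (v.map ![val α.cf a b, val β.cf a b]).prod =
      ∑ w ∈ wl N, (f v * ((v.map ![α, β]).prod : Ser (Fin 2) R) w) • (w.map ![a, b]).prod := by
    intro v _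
    rw [← word_val h ha hb, val_eq h ha hb _ le_rfl, Finset.smul_sum]
    refine Finset.sum_congr rfl (fun w _ => ?_)
    rw [smul_smul]
  rw [Finset.sum_congr rfl e1, Finset.sum_comm]
  refine Finset.sum_congr rfl (fun w hw => ?_)
  rw [mem_wl] at hw
  rw [← Finset.sum_smul]
  congr 1
  change ∑ v ∈ wl (w.length + 1), f v * ((v.map ![α, β]).prod : Ser (Fin 2) R) w = _
  refine Finset.sum_subset ?_ ?_
  · intro v hv
    rw [mem_wl] at hv ⊢
    omega
  · intro v _ hv
    rw [mem_wl] at hv
    rw [word_short hα hβ v w (by omega), mul_zero]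

end Val

end MP446U.V
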