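import Pool.Agent.Lib.MP_446dfa_ag.unc.Spec
import Pool.Agent.Lib.MP_446dfa_ag.unc.Leib
import Pool.Agent.Lib.MP_446dfa_ag.unc.Val

set_option linter.all false

/-!
# Two forms of group-likeness
-/

noncomputable section

namespace MP446U.GLE

open MP446 MP446Y MP446Z MP446S MP446I MP446U.V MP446U.Lb

section Len

/-- the alphabet of two letters of degree one -/
def lenA : Alph (Fin 2) where
  dg := fun _ => 1
  pos := fun _ => le_rfl
  fib := fun n => if n = 1 then Finset.univ else ∅
  mem_fib := by
    intro n s
    by_cases h : n = 1
    · simp [h]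
    · simp [h, Ne.symm h]

lemma wt_lenA (w : List (Fin 2)) : lenA.wt w = w.length := by
  unfold Alph.wt lenA
  simp

lemma wd_lenA (N : ℕ) : lenA.wd N = wl N := by
  ext w
  rw [Alph.mem_wd, mem_wl, wt_lenA]

end Len

section Add

variable {E : Type} [Ring E] {a b a' b' : E}

lemma word_comm_of (h : Com2 a b a' b') (i : Fin 2) (w : List (Fin 2)) :
    ![a', b'] i * (w.map ![a, b]).prod = (w.map ![a, b]).prod * ![a', b'] i := by
  induction w with
  | nil => simp
  | cons j w ih =>
    have h1 : ![a', b'] i * ![a, b] j = ![a, b] j * ![a', b'] i := by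
      fin_cases i <;> fin_cases j
      · exact h.h1.symm
      · exact h.h3.symm
      · exact h.h2.symm
      · exact h.h4.symm
    rw [List.map_cons, List.prod_cons, ← mul_assoc, h1, mul_assoc, ih, mul_assoc]

/-- the words at a sum of commuting pairs -/
lemma word_add (h : Com2 a b a' b') (w : List (Fin 2)) :
    (w.map ![a + a', b + b']).prod = ((splt w).map
      (fun p => (p.1.map ![a, b]).prod * (p.2.map ![a', b']).prod)).sum := by
  induction w with
  | nil => simp [splt]
  | cons i w ih =>
    have e0 : ![a + a', b + b'] i = ![a, b] i + ![a', b'] i := by fin_cases i <;> rfl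
    rw [List.map_cons, List.prod_cons, ih, splt, List.map_append, List.sum_append, List.map_map,
      List.map_map, e0]
    generalize splt w = l
    induction l with
    | nil => simp
    | cons p l ihl =>
      simp only [List.map_cons, List.sum_cons] at ihl ⊢
      rw [mul_add, ihl]
      simp only [Function.comp_apply, List.map_cons, List.prod_cons]
      rw [add_mul, ← mul_assoc (![a', b'] i), word_comm_of h]
      simp only [mul_assoc]
      abel

end Add

section Pair

variable (R : Type) [CommRing R]

/-- functions of pairs of words -/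
abbrev PW : Type := List (Fin 2) × List (Fin 2) → R

variable {R}

/-- left multiplication by a letter in the first factor -/
def shL (N : ℕ) (i : Fin 2) : Module.End R (PW R) where
  toFun g := fun x => match x.1 with
    | [] => 0
    | j :: v => if j = i ∧ x.1.length + x.2.length < N then g (v, x.2) else 0
  map_add' g h := by
    funext ⟨v, w⟩
    cases v with
    | nil => simp
    | cons j v =>
      simp only [Pi.add_apply]
      split_ifs <;> simp
  map_smul' c g := by
    funext ⟨v, w⟩
    cases v with
    | nil => simp
    | cons j v =>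
      simp only [Pi.smul_apply, RingHom.id_apply]
      split_ifs <;> simp

/-- left multiplication by a letter in the second factor -/
def shR (N : ℕ) (i : Fin 2) : Module.End R (PW R) where
  toFun g := fun x => match x.2 with
    | [] => 0
    | j :: v => if j = i ∧ x.1.length + x.2.length < N then g (x.1, v) else 0
  map_add' g h := by
    funext ⟨w, v⟩
    cases v with
    | nil => simp
    | cons j v =>
      simp only [Pi.add_apply]
      split_ifs <;> simp
  map_smul' c g := by
    funext ⟨w, v⟩
    cases v with
    | nil => simp
    | cons j v =>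
      simp only [Pi.smul_apply, RingHom.id_apply]
      split_ifs <;> simp

lemma shL_nil (N : ℕ) (i : Fin 2) (g : PW R) (w : List (Fin 2)) : shL N i g ([], w) = 0 := rfl
lemma shL_cons (N : ℕ) (i : Fin 2) (g : PW R) (j : Fin 2) (v w : List (Fin 2)) :
    shL N i g (j :: v, w) = if j = i ∧ (j :: v).length + w.length < N then g (v, w) else 0 := rfl
lemma shR_nil (N : ℕ) (i : Fin 2) (g : PW R) (w : List (Fin 2)) : shR N i g (w, []) = 0 := rfl
lemma shR_cons (N : ℕ) (i : Fin 2) (g : PW R) (j : Fin 2) (v w : List (Fin 2)) :
    shR N i g (w, j :: v) = if j = i ∧ w.length + (j :: v).length < N then g (w, v) else 0 := rfl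

lemma shL_shR (N : ℕ) (i j : Fin 2) : (shL N i : Module.End R (PW R)) * shR N j = shR N j * shL N i := by
  apply LinearMap.ext
  intro g
  funext ⟨v, w⟩
  rw [Module.End.mul_apply, Module.End.mul_apply]
  cases v with
  | nil =>
    cases w with
    | nil => rw [shL_nil, shR_nil]
    | cons j' w =>
      rw [shL_nil, shR_cons, shL_nil]
      split_ifs <;> rfl
  | cons i' v =>
    cases w with
    | nil =>
      rw [shR_nil, shL_cons, shR_nil]
      split_ifs <;> rfl
    | cons j' w =>
      rw [shL_cons, shR_cons, shR_cons, shL_cons]
      simp only [List.length_cons]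
      by_cases h : v.length + 1 + (w.length + 1) < N
      · have h1 : v.length + (w.length + 1) < N := by omega
        have h2 : v.length + 1 + w.length < N := by omega
        by_cases hi : i' = i <;> by_cases hj : j' = j <;> simp [hi, hj, h, h1, h2]
      · simp [h]

/-- the operators which raise the total length -/
def raiseI (R : Type) [CommRing R] (N : ℕ) : Submodule R (Module.End R (PW R)) where
  carrier := {T | (∀ (k : ℕ) (g : PW R), (∀ x, x.1.length + x.2.length < k → g x = 0) →
      ∀ x, x.1.length + x.2.length < k + 1 → T g x = 0) ∧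
    ∀ (g : PW R) x, N ≤ x.1.length + x.2.length → T g x = 0}
  add_mem' := by
    intro S T hS hT
    refine ⟨fun k g hg x hx => ?_, fun g x hx => ?_⟩
    · rw [LinearMap.add_apply, Pi.add_apply, hS.1 k g hg x hx, hT.1 k g hg x hx, add_zero]
    · rw [LinearMap.add_apply, Pi.add_apply, hS.2 g x hx, hT.2 g x hx, add_zero]
  zero_mem' := ⟨fun k g hg x hx => rfl, fun g x hx => rfl⟩
  smul_mem' := by
    intro c T hT
    refine ⟨fun k g hg x hx => ?_, fun g x hx => ?_⟩
    · rw [LinearMap.smul_apply, Pi.smul_apply, hT.1 k g hg x hx, smul_zero]
    · rw [LinearMap.smul_apply, Pi.smul_apply, hT.2 g x hx, smul_zero]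

lemma shL_mem (N : ℕ) (i : Fin 2) : (shL N i : Module.End R (PW R)) ∈ raiseI R N := by
  constructor
  · rintro k g hg ⟨v, w⟩ hx
    cases v with
    | nil => rfl
    | cons j v =>
      rw [shL_cons]
      split_ifs
      · apply hg
        simp only [List.length_cons] at hx ⊢
        omega
      · rfl
  · rintro g ⟨v, w⟩ hx
    cases v with
    | nil => rfl
    | cons j v =>
      rw [shL_cons, if_neg]
      rintro ⟨-, h⟩
      simp only at hx
      omega

lemma shR_mem (N : ℕ) (i : Fin 2) : (shR N i : Module.End R (PW R)) ∈ raiseI R N := by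
  constructor
  · rintro k g hg ⟨w, v⟩ hx
    cases v with
    | nil => rfl
    | cons j v =>
      rw [shR_cons]
      split_ifs
      · apply hg
        simp only [List.length_cons] at hx ⊢
        omega
      · rfl
  · rintro g ⟨w, v⟩ hx
    cases v with
    | nil => rfl
    | cons j v =>
      rw [shR_cons, if_neg]
      rintro ⟨-, h⟩
      simp only at hx
      omega

lemma isNilp_raiseI {N : ℕ} (hN : 1 ≤ N) : IsNilp N (raiseI R N) := by
  constructor
  · intro S hS T hT
    refine ⟨fun k g hg x hx => ?_, fun g x hx => ?_⟩
    · rw [Module.End.mul_apply]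
      exact hS.1 k (T g) (fun y hy => hT.1 k g hg y (by omega)) x hx
    · rw [Module.End.mul_apply]
      exact hS.2 _ x hx
  · intro l hl hlen
    have key : ∀ (l : List (Module.End R (PW R))), (∀ T ∈ l, T ∈ raiseI R N) → ∀ (g : PW R) x,
        x.1.length + x.2.length < l.length → l.prod g x = 0 := by
      intro l
      induction l with
      | nil => intro _ g x hx; simp at hx
      | cons T l ih =>
        intro hl g x hx
        rw [List.prod_cons, Module.End.mul_apply]
        refine (hl T (by simp)).1 l.length _ (fun y hy => ih (fun S hS => hl S (by simp [hS])) g y hy)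
          x ?_
        simpa using hx
    apply LinearMap.ext
    intro g
    funext x
    by_cases hx : x.1.length + x.2.length < N
    · rw [key l hl g x (by omega)]
      rfl
    · cases l with
      | nil => simp at hlen; omega
      | cons T l =>
        rw [List.prod_cons, Module.End.mul_apply, (hl T (by simp)).2 _ x (by omega)]
        rfl

/-- the function `1` at one pair -/
def dlt (p : List (Fin 2) × List (Fin 2)) : PW R := fun x => if x = p then 1 else 0

lemma shL_dlt {N : ℕ} (i : Fin 2) (v w : List (Fin 2)) (h : v.length + 1 + w.length < N) :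
    shL N i (dlt (v, w) : PW R) = dlt (i :: v, w) := by
  funext ⟨v', w'⟩
  cases v' with
  | nil => rw [shL_nil]; simp [dlt]
  | cons j v' =>
    rw [shL_cons]
    unfold dlt
    by_cases h1 : j = i ∧ v' = v ∧ w' = w
    · obtain ⟨rfl, rfl, rfl⟩ := h1
      rw [if_pos ⟨rfl, by simpa using h⟩, if_pos rfl, if_pos rfl]
    · rw [if_neg (show ¬ ((j :: v', w') = (i :: v, w)) by
        intro h2
        apply h1
        simpa [and_assoc] using h2)]
      split_ifs with h3 h4
      · exfalso
        apply h1
        simp only [Prod.mk.injEq] at h4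
        exact ⟨h3.1, h4⟩
      · rfl
      · rfl

lemma shR_dlt {N : ℕ} (i : Fin 2) (v w : List (Fin 2)) (h : v.length + (w.length + 1) < N) :
    shR N i (dlt (v, w) : PW R) = dlt (v, i :: w) := by
  funext ⟨v', w'⟩
  cases w' with
  | nil => rw [shR_nil]; simp [dlt]
  | cons j w' =>
    rw [shR_cons]
    unfold dlt
    by_cases h1 : v' = v ∧ j = i ∧ w' = w
    · obtain ⟨rfl, rfl, rfl⟩ := h1
      rw [if_pos ⟨rfl, by simpa using h⟩, if_pos rfl, if_pos rfl]
    · rw [if_neg (show ¬ ((v', j :: w') = (v, i :: w)) by
        intro h2
        apply h1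
        simpa using h2)]
      split_ifs with h3 h4
      · exfalso
        apply h1
        simp only [Prod.mk.injEq] at h4
        exact ⟨h4.1, h3.1, h4.2⟩
      · rfl
      · rfl

lemma words_dlt {N : ℕ} (p q : List (Fin 2)) (h : p.length + q.length < N) :
    (p.map ![shL N 0, shL N 1]).prod ((q.map ![shR N 0, shR N 1]).prod (dlt ([], []) : PW R)) =
      dlt (p, q) := by
  have e1 : ∀ i, (![shL N 0, shL N 1] : Fin 2 → Module.End R (PW R)) i = shL N i := by
    intro i; fin_cases i <;> rfl
  have e2 : ∀ i, (![shR N 0, shR N 1] : Fin 2 → Module.End R (PW R)) i = shR N i := by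
    intro i; fin_cases i <;> rfl
  have h2 : ∀ q : List (Fin 2), q.length < N →
      (q.map ![shR N 0, shR N 1]).prod (dlt ([], []) : PW R) = dlt ([], q) := by
    intro q
    induction q with
    | nil => intro _; rfl
    | cons i q ih =>
      intro hq
      rw [List.length_cons] at hq
      rw [List.map_cons, List.prod_cons, Module.End.mul_apply, ih (by omega), e2,
        shR_dlt _ _ _ (by simpa using hq)]
  rw [h2 q (by omega)]
  induction p with
  | nil => rfl
  | cons i p ih =>
    rw [List.length_cons] at h
    rw [List.map_cons, List.prod_cons, Module.End.mul_apply, ih (by omega), e1,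
      shL_dlt _ _ _ h]

lemma words_dlt_apply {N : ℕ} (hN : 1 ≤ N) (p q v w : List (Fin 2)) (h : v.length + w.length < N) :
    (((p.map ![shL N 0, shL N 1]).prod * (q.map ![shR N 0, shR N 1]).prod : Module.End R (PW R)))
      (dlt ([], []) : PW R) (v, w) = if (p, q) = (v, w) then 1 else 0 := by
  by_cases hpq : p.length + q.length < N
  · rw [Module.End.mul_apply, words_dlt p q hpq]
    unfold dlt
    by_cases h1 : (p, q) = (v, w)
    · rw [if_pos h1, if_pos h1.symm]
    · rw [if_neg h1, if_neg (fun h' => h1 h'.symm)]
  · rw [if_neg]
    · have e0 : (p.map ![shL N 0, shL N 1]).prod * (q.map ![shR N 0, shR N 1]).prod =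
          (0 : Module.End R (PW R)) := by
        rw [← List.prod_append]
        apply nilp_zero_of_le (isNilp_raiseI (R := R) hN)
        · intro T hT
          rcases List.mem_append.1 hT with hT | hT
          · exact nilp_map_mem (shL_mem N 0) (shL_mem N 1) p T hT
          · exact nilp_map_mem (shR_mem N 0) (shR_mem N 1) q T hT
        · rw [List.length_append, List.length_map, List.length_map]
          omega
      rw [e0]
      rfl
    · rintro h1
      simp only [Prod.mk.injEq] at h1
      obtain ⟨rfl, rfl⟩ := h1
      omega

end Pair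

attribute [-instance] instBEqProd List.instBEq in
theorem _root_.MP446U.specGLE : SpecGLE := by
  classical
  intro R _ N f
  constructor
  · rintro ⟨h0, hs⟩
    refine ⟨h0, ?_⟩
    intro E _ _ I hI a ha b hb a' ha' b' hb' hc
    have hs' : ∀ v w : List (Fin 2), lenA.wt v + lenA.wt w < N →
        f v * f w = ((shuffle v w).map f).sum := by
      intro v w hvw
      rw [wt_lenA, wt_lenA] at hvw
      exact hs v w hvw
    have key := sum_splt (M3 := E) lenA f N hs'
      (fun p q => (p.map ![a, b]).prod * (q.map ![a', b']).prod)
    rw [wd_lenA] at key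
    rw [val_eq hI (I.add_mem ha ha') (I.add_mem hb hb') f le_rfl, val_eq hI ha hb f le_rfl,
      val_eq hI ha' hb' f le_rfl, Finset.sum_mul_sum]
    have e1 : ∑ w ∈ wl N, f w • (w.map ![a + a', b + b']).prod = ∑ r ∈ wl N, f r • ((splt r).map
        (fun p => (p.1.map ![a, b]).prod * (p.2.map ![a', b']).prod)).sum := by
      refine Finset.sum_congr rfl (fun w _ => ?_)
      rw [word_add hc]
    rw [e1, key]
    refine Finset.sum_congr rfl (fun p _ => Finset.sum_congr rfl (fun q _ => ?_))
    rw [smul_mul_smul_comm]
    split_ifs with h
    · rfl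
    · symm
      have e2 : (p.map ![a, b]).prod * (q.map ![a', b']).prod = 0 := by
        rw [← List.prod_append]
        apply nilp_zero_of_le hI
        · intro x hx
          rcases List.mem_append.1 hx with hx | hx
          · exact nilp_map_mem ha hb p x hx
          · exact nilp_map_mem ha' hb' q x hx
        · rw [List.length_append, List.length_map, List.length_map]
          rw [wt_lenA, wt_lenA] at h
          omega
      rw [e2, smul_zero]
  · rintro ⟨h0, hv⟩
    refine ⟨h0, ?_⟩
    intro v w hvw
    have hN : 1 ≤ N := by omega
    have hc : Com2 (shL N 0 : Module.End R (PW R)) (shL N 1) (shR N 0) (shR N 1) :=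
      ⟨shL_shR N 0 0, shL_shR N 0 1, shL_shR N 1 0, shL_shR N 1 1⟩
    have hI := isNilp_raiseI (R := R) hN
    have key := hv (Module.End R (PW R)) (raiseI R N) hI _ (shL_mem N 0) _ (shL_mem N 1) _
      (shR_mem N 0) _ (shR_mem N 1) hc
    rw [val_eq hI ((raiseI R N).add_mem (shL_mem N 0) (shR_mem N 0))
      ((raiseI R N).add_mem (shL_mem N 1) (shR_mem N 1)) f le_rfl,
      val_eq hI (shL_mem N 0) (shL_mem N 1) f le_rfl,
      val_eq hI (shR_mem N 0) (shR_mem N 1) f le_rfl, Finset.sum_mul_sum] at key
    have key2 := congrArg (fun T : Module.End R (PW R) => T (dlt ([], [])) (v, w)) key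
    simp only [LinearMap.sum_apply, Finset.sum_apply, smul_mul_smul_comm, LinearMap.smul_apply,
      Pi.smul_apply, words_dlt_apply hN _ _ v w hvw, smul_eq_mul] at key2
    have e1 : ∑ p ∈ wl N, ∑ q ∈ wl N, f p * f q * (if (p, q) = (v, w) then (1 : R) else 0) =
        f v * f w := by
      rw [Finset.sum_eq_single v, Finset.sum_eq_single w]
      · rw [if_pos rfl, mul_one]
      · intro q _ hq
        rw [if_neg, mul_zero]
        intro h
        exact hq (Prod.ext_iff.1 h).2
      · intro h
        exact absurd ((mem_wl N w).2 (by omega)) h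
      · intro p _ hp
        refine Finset.sum_eq_zero (fun q _ => ?_)
        rw [if_neg, mul_zero]
        intro h
        exact hp (Prod.ext_iff.1 h).1
      · intro h
        exact absurd ((mem_wl N v).2 (by omega)) h
    rw [e1] at key2
    rw [← key2]
    have e2 : ∀ r ∈ wl N, f r * ((r.map ![shL N 0 + shR N 0, shL N 1 + shR N 1]).prod :
        Module.End R (PW R)) (dlt ([], [])) (v, w) = ((shuffle v w).count r : R) * f r := by
      intro r _
      rw [word_add hc, mul_comm]
      congr 1
      rw [← count_splt]
      generalize splt r = l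
      induction l with
      | nil =>
        rw [List.map_nil, List.sum_nil, List.count_nil, Nat.cast_zero]
        rfl
      | cons p l ih =>
        rw [List.map_cons, List.sum_cons, LinearMap.add_apply, Pi.add_apply, ih,
          words_dlt_apply hN _ _ v w hvw, List.count_cons]
        push_cast
        rw [add_comm]
        congr 1
        by_cases h : p = (v, w)
        · rw [if_pos h]
          simp [h]
        · rw [if_neg h]
          simp [h]
    rw [Finset.sum_congr rfl e2, Finset.sum_list_map_count]
    symm
    have e3 : ∀ r ∈ (shuffle v w).toFinset, (shuffle v w).count r • f r =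
        ((shuffle v w).count r : R) * f r := by
      intro r _
      rw [nsmul_eq_mul]
    rw [Finset.sum_congr rfl e3]
    refine Finset.sum_subset ?_ ?_
    · intro r hr
      rw [List.mem_toFinset] at hr
      rw [mem_wl, shuffle_length v w r hr]
      exact hvw
    · intro r _ hr
      rw [List.mem_toFinset] at hr
      rw [List.count_eq_zero_of_not_mem hr, Nat.cast_zero, zero_mul]

end MP446U.GLE
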