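import Pool.Agent.Lib.MP_446dfa_ag.unc.Spec

set_option linter.all false

/-!
# GTP: the pentagon relation of `GT`
-/

noncomputable section

namespace MP446U

open MP446 MP446Y MP446Z MP446S MP446I

namespace GTP

section Gen

variable {R : Type} [CommRing R] {E : Type} [Ring E] [Algebra R E] {N : ℕ} {I : Submodule R E}
  {a b : E}

lemma conj_word (p : Eˣ) (a b : E) (w : List (Fin 2)) :
    (w.map ![(p : E) * a * (p⁻¹ : Eˣ), (p : E) * b * (p⁻¹ : Eˣ)]).prod =
      p * (w.map ![a, b]).prod * (p⁻¹ : Eˣ) := by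
  induction w with
  | nil => simp
  | cons i w ih =>
    rw [List.map_cons, List.prod_cons, ih, List.map_cons, List.prod_cons]
    have key : ∀ c : E, (p : E) * c * (p⁻¹ : Eˣ) * (p * (w.map ![a, b]).prod * (p⁻¹ : Eˣ)) =
        p * (c * (w.map ![a, b]).prod) * (p⁻¹ : Eˣ) := by
      intro c
      calc (p : E) * c * (p⁻¹ : Eˣ) * (p * (w.map ![a, b]).prod * (p⁻¹ : Eˣ))
          = p * c * ((p⁻¹ : Eˣ) * p) * ((w.map ![a, b]).prod * (p⁻¹ : Eˣ)) := by
            simp only [mul_assoc]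
        _ = _ := by rw [Units.inv_mul, mul_one]; simp only [mul_assoc]
    fin_cases i
    · exact key a
    · exact key b

/-- conjugation by a unit as an additive equivalence -/
def conjE (p : Eˣ) : E ≃+ E where
  toFun z := p * z * (p⁻¹ : Eˣ)
  invFun z := (p⁻¹ : Eˣ) * z * p
  left_inv z := by
    simp only [mul_assoc, Units.inv_mul, mul_one, Units.inv_mul_cancel_left]
  right_inv z := by
    simp only [mul_assoc, Units.mul_inv, mul_one, Units.mul_inv_cancel_left]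
  map_add' x y := by
    show (p : E) * (x + y) * (p⁻¹ : Eˣ) = _
    rw [mul_add, add_mul]

/-- conjugation, for arbitrary elements -/
lemma val_conj (f : List (Fin 2) → R) (p : Eˣ) (a b : E) :
    val f (p * a * (p⁻¹ : Eˣ)) (p * b * (p⁻¹ : Eˣ)) = p * val f a b * (p⁻¹ : Eˣ) := by
  have h := AddEquiv.map_finsum (conjE p) (fun w : List (Fin 2) => f w • (w.map ![a, b]).prod)
  change (p : E) * val f a b * (p⁻¹ : Eˣ) =
    ∑ᶠ w : List (Fin 2), (p : E) * (f w • (w.map ![a, b]).prod) * (p⁻¹ : Eˣ) at h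
  rw [h]
  unfold val
  congr 1
  funext w
  rw [conj_word, mul_smul_comm, smul_mul_assoc]

lemma comm_word {z a b : E} (ha : z * a = a * z) (hb : z * b = b * z) (w : List (Fin 2)) :
    z * (w.map ![a, b]).prod = (w.map ![a, b]).prod * z := by
  induction w with
  | nil => simp
  | cons i w ih =>
    rw [List.map_cons, List.prod_cons, mul_assoc, ← ih, ← mul_assoc, ← mul_assoc]
    congr 1
    fin_cases i
    · exact ha
    · exact hb

lemma word_zero (h : IsNilp N I) (ha : a ∈ I) (hb : b ∈ I) (w : List (Fin 2))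
    (hw : N ≤ w.length) : (w.map ![a, b]).prod = 0 := by
  have hl : ∀ x ∈ w.map ![a, b], x ∈ I := by
    intro x hx
    obtain ⟨i, -, rfl⟩ := List.mem_map.1 hx
    fin_cases i
    · exact ha
    · exact hb
  have hN : N ≤ (w.map ![a, b]).length := by rw [List.length_map]; exact hw
  rw [← List.take_append_drop N (w.map ![a, b]), List.prod_append,
    h.prod_zero _ (fun x hx => hl x (List.mem_of_mem_take hx)) (by
      rw [List.length_take, min_eq_left hN]), zero_mul]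

lemma val_eq (h : IsNilp N I) (ha : a ∈ I) (hb : b ∈ I) (f : List (Fin 2) → R) :
    val f a b = ∑ w ∈ wl N, f w • (w.map ![a, b]).prod := by
  unfold val
  rw [finsum_eq_sum_of_support_subset]
  intro w hw
  rw [Finset.mem_coe, mem_wl]
  by_contra hc
  apply hw
  simp only
  rw [word_zero h ha hb w (by omega), smul_zero]

lemma val_comm (h : IsNilp N I) (ha : a ∈ I) (hb : b ∈ I) (f : List (Fin 2) → R) {z : E}
    (h1 : z * a = a * z) (h2 : z * b = b * z) : z * val f a b = val f a b * z := by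
  rw [val_eq h ha hb f, Finset.mul_sum, Finset.sum_mul]
  refine Finset.sum_congr rfl (fun w _ => ?_)
  rw [mul_smul_comm, smul_mul_assoc, comm_word h1 h2]

lemma prod_mem (h : IsNilp N I) (l : List E) (hl : ∀ x ∈ l, x ∈ I) (hne : l ≠ []) :
    l.prod ∈ I := by
  induction l with
  | nil => exact absurd rfl hne
  | cons a l ih =>
    rw [List.prod_cons]
    by_cases h2 : l = []
    · subst h2
      rw [List.prod_nil, mul_one]
      exact hl a (by simp)
    · exact h.mul_mem _ (hl a (by simp)) _ (ih (fun x hx => hl x (by simp [hx])) h2)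

lemma val_sub_one_mem (h : IsNilp N I) (ha : a ∈ I) (hb : b ∈ I) {f : List (Fin 2) → R}
    (hf : f [] = 1) : val f a b - 1 ∈ I := by
  rcases Nat.eq_zero_or_pos N with h0 | h0
  · subst h0
    have h1 : (1 : E) = 0 := h.prod_zero [] (by simp) rfl
    have h2 : val f a b - 1 = 0 := by rw [← mul_one (val f a b - 1), h1, mul_zero]
    rw [h2]
    exact I.zero_mem
  · have hm : ([] : List (Fin 2)) ∈ wl N := by rw [mem_wl]; exact h0
    rw [val_eq h ha hb f, ← Finset.add_sum_erase _ _ hm]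
    simp only [List.map_nil, List.prod_nil, hf, one_smul]
    rw [add_sub_cancel_left]
    refine Submodule.sum_mem _ (fun w hw => I.smul_mem _ (prod_mem h _ ?_ ?_))
    · intro x hx
      obtain ⟨i, -, rfl⟩ := List.mem_map.1 hx
      fin_cases i
      · exact ha
      · exact hb
    · intro hc
      exact (Finset.mem_erase.1 hw).1 (List.map_eq_nil_iff.1 hc)

lemma exists_unit (h : IsNilp N I) (ha : a ∈ I) (hb : b ∈ I) {f : List (Fin 2) → R}
    (hf : f [] = 1) : ∃ p : Eˣ, (p : E) = val f a b := by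
  have h1 := val_sub_one_mem h ha hb hf
  have h2 : IsNilpotent (val f a b - 1) := ⟨N, by
    rw [← List.prod_replicate]
    exact h.prod_zero _ (fun x hx => by rw [List.eq_of_mem_replicate hx]; exact h1) (by simp)⟩
  have h3 := h2.isUnit_one_add
  rw [add_sub_cancel] at h3
  obtain ⟨p, hp⟩ := h3
  exact ⟨p, hp⟩

variable [Algebra ℚ R]

/-- the value of `f` at `g = (k p) e^a (k p)⁻¹`, `h = k e^b k⁻¹`, where `p = φ(a, b)` -/
lemma face (hEXL : SpecEXL) {φ f φ' : List (Fin 2) → R} (hR : Rel φ f φ') (hI : IsNilp N I)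
    (ha : a ∈ I) (hb : b ∈ I) (k p : Eˣ) (hp : (p : E) = val φ a b) {g h : E}
    (hg : g * (k * p) = (k * p) * expU R a) (hh : h * k = k * expU R b) :
    app f g h = k * (val φ' a b * (p⁻¹ : Eˣ)) * (k⁻¹ : Eˣ) := by
  obtain ⟨e1, e2, -, -, -, -, e7, -⟩ := hEXL R E N I hI
  have hg' : g = ((k * p : Eˣ) : E) * expU R a * ((k * p)⁻¹ : Eˣ) := by
    rw [Units.eq_mul_inv_iff_mul_eq, Units.val_mul, hg]
  have hh' : h = (k : E) * expU R b * (k⁻¹ : Eˣ) := by
    rw [Units.eq_mul_inv_iff_mul_eq, hh]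
  have lg : logU R g = (k : E) * (p * a * (p⁻¹ : Eˣ)) * (k⁻¹ : Eˣ) := by
    rw [hg', e7 _ (e1 a ha), e2 a ha, mul_inv_rev, Units.val_mul, Units.val_mul]
    simp only [mul_assoc]
  have lh : logU R h = (k : E) * b * (k⁻¹ : Eˣ) := by
    rw [hh', e7 _ (e1 b hb), e2 b hb]
  have hr := hR E N I hI a ha b hb p hp
  rw [← Units.eq_mul_inv_iff_mul_eq] at hr
  unfold app
  rw [lg, lh, val_conj, hr]

end Gen

end GTP

open GTP

theorem specGTP (hPUN : SpecPUN) (hBCH : SpecBCH) (hEXL : SpecEXL) : SpecGTP := by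
  intro R _ _ φ f φ' lam hφ hφ' hR E _ _ N I hI x hx hxI
  letI : Algebra ℚ E := Algebra.compHom E (algebraMap ℚ R)
  haveI : IsScalarTower ℚ R E := ⟨fun q r z => by
    change (q • r) • z = (algebraMap ℚ R q) • (r • z)
    rw [← mul_smul, ← Algebra.smul_def]⟩
  have hIQ : IsNilp N (I.restrictScalars ℚ) := ⟨hI.mul_mem, hI.prod_zero⟩
  obtain ⟨t, hB, htI, hX⟩ := hPUN φ hφ E N (I.restrictScalars ℚ) hIQ x hx hxI
  replace htI : ∀ i j, t i j ∈ I := htI
  -- the base change of `φ`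
  set φR : List (Fin 2) → R := fun w => algebraMap ℚ R (φ w) with hφR
  have hval : ∀ a b : E, val φ a b = val φR a b := fun a b => rfl
  have hexp : ∀ a : E, expU ℚ a = expU R a := fun a => rfl
  have hA : IsAssocN R N 1 φR := by
    have := hBCH.1 ℚ R (algebraMap ℚ R) N 1 φ (hφ N)
    rwa [map_one] at this
  have hA' : IsAssocN R N lam φ' := hφ' N
  obtain ⟨x01, x12, x23, x123, x0212, x0102, x1323, -⟩ := hX
  simp only [hval, hexp] at x01 x12 x23 x123 x0212 x0102 x1323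
  have s10 := hB.symm 1 0
  have s20 := hB.symm 2 0
  have s21 := hB.symm 2 1
  have s31 := hB.symm 3 1
  have s32 := hB.symm 3 2
  -- commutation
  have c23_01 : t 2 3 * t 0 1 = t 0 1 * t 2 3 :=
    hB.comm 2 3 0 1 (by decide) (by decide) (by decide) (by decide) (by decide) (by decide)
  have c23_1 : t 2 3 * (t 1 2 + t 1 3) = (t 1 2 + t 1 3) * t 2 3 := by
    have := hB.rel 2 3 1 (by decide) (by decide) (by decide)
    rwa [s21, s31] at this
  have c01_2 : t 0 1 * (t 0 2 + t 1 2) = (t 0 2 + t 1 2) * t 0 1 :=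
    hB.rel 0 1 2 (by decide) (by decide) (by decide)
  have c12_0 : t 1 2 * (t 0 1 + t 0 2) = (t 0 1 + t 0 2) * t 1 2 := by
    have := hB.rel 1 2 0 (by decide) (by decide) (by decide)
    rwa [s10, s20] at this
  have c12_3 : t 1 2 * (t 1 3 + t 2 3) = (t 1 3 + t 2 3) * t 1 2 :=
    hB.rel 1 2 3 (by decide) (by decide) (by decide)
  -- the units
  have m1 : t 0 1 ∈ I := htI 0 1
  have m2 : t 1 2 + t 1 3 ∈ I := I.add_mem (htI _ _) (htI _ _)
  have m3 : t 0 2 + t 1 2 ∈ I := I.add_mem (htI _ _) (htI _ _)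
  have m4 : t 2 3 ∈ I := htI 2 3
  have m5 : t 1 2 ∈ I := htI 1 2
  have m6 : t 0 1 + t 0 2 ∈ I := I.add_mem (htI _ _) (htI _ _)
  have m7 : t 1 3 + t 2 3 ∈ I := I.add_mem (htI _ _) (htI _ _)
  obtain ⟨p1, hp1⟩ := exists_unit hI m1 m2 hA.one
  obtain ⟨p2, hp2⟩ := exists_unit hI m3 m4 hA.one
  obtain ⟨p3, hp3⟩ := exists_unit hI m5 m4 hA.one
  obtain ⟨p4, hp4⟩ := exists_unit hI m6 m7 hA.one
  obtain ⟨p5, hp5⟩ := exists_unit hI m1 m5 hA.one
  have hP := hA.pent E I hI t hB htI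
  have hP' := hA'.pent E I hI t hB htI
  rw [← hp1, ← hp2, ← hp3, ← hp4, ← hp5, ← Units.val_mul, ← Units.val_mul, ← Units.val_mul,
    Units.val_inj] at hP
  rw [← hp1] at x01
  rw [← hp3] at x12 x1323
  rw [← hp1, ← hp2] at x0212
  rw [← hp3, ← hp4] at x0102
  -- commutation of the units
  have q1 : t 2 3 * (p1 : E) = p1 * t 2 3 := by
    rw [hp1]
    exact val_comm hI m1 m2 φR c23_01 c23_1
  have q2 : t 0 1 * (p2 : E) = p2 * t 0 1 := by
    rw [hp2]
    exact val_comm hI m3 m4 φR c01_2 c23_01.symm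
  have q4 : t 1 2 * (p4 : E) = p4 * t 1 2 := by
    rw [hp4]
    exact val_comm hI m6 m7 φR c12_0 c12_3
  obtain ⟨e1, e2, -, -, -, e6, -, -⟩ := hEXL R E N I hI
  have exq : ∀ a ∈ I, ∀ k : Eˣ, a * (k : E) = k * a →
      expU R a * (k : E) = k * expU R a := by
    intro a ha k hk
    have h1 : (k : E) * a * (k⁻¹ : Eˣ) = a := by
      rw [← hk, mul_assoc, Units.mul_inv, mul_one]
    have h2 := e6 a ha k
    rw [h1, Units.eq_mul_inv_iff_mul_eq] at h2
    exact h2
  have q1' := exq _ m4 p1 q1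
  have q2' := exq _ m1 p2 q2
  have q4' := exq _ m5 p4 q4
  -- the five faces
  have F1 : app f (x 0 1 : E) (x 1 2 * x 1 3) =
      val φ' (t 0 1) (t 1 2 + t 1 3) * (p1⁻¹ : Eˣ) := by
    have := face hEXL hR hI m1 m2 1 p1 hp1 (g := (x 0 1 : E)) (h := x 1 2 * x 1 3)
      (by rw [Units.val_one, one_mul]; exact x01) (by rw [Units.val_one, one_mul, mul_one]; exact x123)
    rw [this]
    simp
  have F2 : app f (x 0 2 * x 1 2 : E) (x 2 3) =
      p1 * (val φ' (t 0 2 + t 1 2) (t 2 3) * (p2⁻¹ : Eˣ)) * (p1⁻¹ : Eˣ) :=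
    face hEXL hR hI m3 m4 p1 p2 hp2 x0212 (by rw [x23]; exact q1')
  have F3 : app f (x 1 2 : E) (x 2 3) = val φ' (t 1 2) (t 2 3) * (p3⁻¹ : Eˣ) := by
    have := face hEXL hR hI m5 m4 1 p3 hp3 (g := (x 1 2 : E)) (h := x 2 3)
      (by rw [Units.val_one, one_mul]; exact x12) (by rw [Units.val_one, one_mul, mul_one]; exact x23)
    rw [this]
    simp
  have F4 : app f (x 0 1 * x 0 2 : E) (x 1 3 * x 2 3) =
      p3 * (val φ' (t 0 1 + t 0 2) (t 1 3 + t 2 3) * (p4⁻¹ : Eˣ)) * (p3⁻¹ : Eˣ) :=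
    face hEXL hR hI m6 m7 p3 p4 hp4 x0102 x1323
  have F5 : app f (x 0 1 : E) (x 1 2) =
      ((p3 * p4 : Eˣ) : E) * (val φ' (t 0 1) (t 1 2) * (p5⁻¹ : Eˣ)) * ((p3 * p4)⁻¹ : Eˣ) := by
    refine face hEXL hR hI m1 m5 (p3 * p4) p5 hp5 ?_ ?_
    · rw [← Units.val_mul, ← hP, Units.val_mul, ← mul_assoc, x01, mul_assoc, q2', mul_assoc]
    · rw [Units.val_mul, ← mul_assoc, x12, mul_assoc, q4', mul_assoc]
  rw [F1, F2, F3, F4, F5]
  have hP2 : ((p3 * p4 * p5 : Eˣ)⁻¹ : Eˣ) = (p1 * p2)⁻¹ := by rw [hP]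
  have L : val φ' (t 0 1) (t 1 2 + t 1 3) * ((p1⁻¹ : Eˣ) : E) *
      (p1 * (val φ' (t 0 2 + t 1 2) (t 2 3) * (p2⁻¹ : Eˣ)) * (p1⁻¹ : Eˣ)) =
      val φ' (t 0 1) (t 1 2 + t 1 3) * val φ' (t 0 2 + t 1 2) (t 2 3) * ((p1 * p2)⁻¹ : Eˣ) := by
    rw [mul_inv_rev, Units.val_mul]
    simp only [mul_assoc, Units.inv_mul_cancel_left]
  have Rr : val φ' (t 1 2) (t 2 3) * ((p3⁻¹ : Eˣ) : E) *
      (p3 * (val φ' (t 0 1 + t 0 2) (t 1 3 + t 2 3) * (p4⁻¹ : Eˣ)) * (p3⁻¹ : Eˣ)) *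
      (((p3 * p4 : Eˣ) : E) * (val φ' (t 0 1) (t 1 2) * (p5⁻¹ : Eˣ)) * ((p3 * p4)⁻¹ : Eˣ)) =
      val φ' (t 1 2) (t 2 3) * val φ' (t 0 1 + t 0 2) (t 1 3 + t 2 3) * val φ' (t 0 1) (t 1 2) *
        ((p3 * p4 * p5)⁻¹ : Eˣ) := by
    rw [mul_inv_rev (p3 * p4) p5, Units.val_mul, Units.val_mul]
    simp only [mul_assoc, Units.inv_mul_cancel_left]
  rw [L, Rr, hP', hP2]

end MP446U
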