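import Pool.Agent.Lib.MP_446dfa_ag.unc.OPB
import Pool.Agent.Lib.MP_446dfa_ag.unc.Spec

set_option linter.all false

/-!
# Naturality and scaling
-/

noncomputable section

namespace MP446U.OPN

open MP446 MP446Y MP446Z MP446S MP446I OPB

section Nat

variable {R R' : Type} [CommRing R] [CommRing R'] (θ : R →+* R')

lemma bcP_add (X Y : AA R) : bcP θ (X + Y) = bcP θ X + bcP θ Y := by
  apply MP446S.AA_ext
  intro w
  rw [cf_bcP, cf_add, map_add, cf_add, cf_bcP, cf_bcP]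

lemma bcP_sub (X Y : AA R) : bcP θ (X - Y) = bcP θ X - bcP θ Y := by
  apply MP446S.AA_ext
  intro w
  rw [cf_bcP, cf_sub, map_sub, cf_sub, cf_bcP, cf_bcP]

lemma bcP_smul (c : R) (X : AA R) : bcP θ (c • X) = θ c • bcP θ X := by
  apply MP446S.AA_ext
  intro w
  rw [cf_bcP, cf_smul, map_mul, cf_smul, cf_bcP]

lemma bcP_mul (X Y : AA R) : bcP θ (X * Y) = bcP θ X * bcP θ Y := by
  apply MP446S.AA_ext
  intro w
  rw [cf_bcP, cf_mul, map_sum, cf_mul]
  refine Finset.sum_congr rfl (fun i _ => ?_)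
  rw [map_mul, cf_bcP, cf_bcP]

lemma bcP_lt (i : Fin 2) : bcP θ (lt R i) = lt R' i := bcP_ow θ [i]

lemma bcP_one : bcP θ (1 : AA R) = 1 := by
  rw [← ow_nil, ← ow_nil]
  exact bcP_ow θ []

lemma bcP_zero : bcP θ (0 : AA R) = 0 := by
  apply MP446S.AA_ext
  intro w
  rw [cf_bcP, cf_zero, cf_zero, map_zero]

lemma bcP_DQ (Q X : AA R) : bcP θ (DQ Q X) = DQ (bcP θ Q) (bcP θ X) := by
  induction X using AA_lin with
  | how u =>
    induction u with
    | nil => rw [ow_nil, DQ_one, bcP_one, DQ_one, bcP_zero]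
    | cons i u ih =>
      rw [ow_cons, DQ_mul, bcP_add, bcP_mul, bcP_mul, bcP_mul, DQ_mul, ih, bcP_lt]
      congr 2
      fin_cases i
      · change bcP θ (DQ Q (lt R 0)) = DQ (bcP θ Q) (lt R' 0)
        rw [DQ_lt_zero, DQ_lt_zero, bcP_sub, bcP_mul, bcP_mul, bcP_lt]
      · change bcP θ (DQ Q (lt R 1)) = DQ (bcP θ Q) (lt R' 1)
        rw [DQ_lt_one, DQ_lt_one, bcP_zero]
  | hadd X Y hX hY => rw [map_add, bcP_add, hX, hY, bcP_add, map_add]
  | hsmul c X hX => rw [map_smul, bcP_smul, hX, bcP_smul, map_smul]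

lemma bcP_LQ (Q X : AA R) : bcP θ (LQ Q X) = LQ (bcP θ Q) (bcP θ X) := by
  rw [LQ_apply, LQ_apply, bcP_add, bcP_mul, bcP_DQ]

lemma bcP_trn (N : ℕ) (f : List (Fin 2) → R) : bcP θ (trn N f) = trn N (fun w => θ (f w)) := by
  apply MP446S.AA_ext
  intro w
  rw [cf_bcP, cf_trn, cf_trn]
  split_ifs
  · rfl
  · exact map_zero θ

variable {S : Type} (A : GFam R S) (A' : GFam R' S)

lemma bcP_Lw (hQ : ∀ s, A'.Q s = bcP θ (A.Q s)) (w : List S) (X : AA R) :
    bcP θ (A.Lw w X) = A'.Lw w (bcP θ X) := by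
  induction w with
  | nil => rfl
  | cons s w ih => rw [Lw_cons A, Lw_cons A', bcP_LQ, ih, hQ]

lemma wt_eq_of_dg {A A' : Alph S} (h : A'.dg = A.dg) (w : List S) : A'.wt w = A.wt w := by
  unfold Alph.wt
  rw [h]

lemma wd_eq_of_dg {A A' : Alph S} (h : A'.dg = A.dg) (N : ℕ) : A'.wd N = A.wd N := by
  ext w
  rw [Alph.mem_wd, Alph.mem_wd, wt_eq_of_dg h]

end Nat

end MP446U.OPN

namespace MP446U

open MP446 MP446Y MP446Z MP446S MP446I OPB OPN

theorem specOPN : SpecOPN := by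
  constructor
  · intro R R' S _ _ θ A A' hdg hQ u f v
    rw [act_apply A', act_apply A, map_sum, wd_eq_of_dg hdg]
    refine Finset.sum_congr rfl (fun w _ => ?_)
    rw [map_mul, ← cf_bcP, bcP_Lw θ A A' hQ, bcP_trn]
  · intro R S _ A c u f
    funext v
    unfold scaleF
    rw [act_apply A, act_apply A, Finset.mul_sum]
    refine Finset.sum_congr rfl (fun w _ => ?_)
    have h := (hd_Lw A w).scale c (X := trn (v.length + 1) f)
      (Y := trn (v.length + 1) (fun w => c ^ w.length * f w)) (M := v.length + 1) (v := v)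
      (fun w hw => by rw [cf_trn, if_pos hw, cf_trn, if_pos hw]) (by omega)
    calc c ^ v.length * (u w * cf (A.Lw w (trn (v.length + 1) f)) v)
        = u w * (c ^ v.length * cf (A.Lw w (trn (v.length + 1) f)) v) := by ring
      _ = _ := by rw [h]; ring

end MP446U
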