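import Pool.Agent.Lib.MP_446dfa_ag.unc.OPC
import Pool.Agent.Lib.MP_446dfa_ag.unc.OPL
import Pool.Agent.Lib.MP_446dfa_ag.unc.OPN
import Pool.Agent.Lib.MP_446dfa_ag.unc.Leib
import Pool.Agent.Lib.MP_446dfa_ag.ddi.Assemble
import Pool.Agent.Lib.MP_446dfa_ag.grp.Src

set_option linter.all false

/-!
# Injectivity
-/

noncomputable section

namespace MP446U.INJ

open MP446 MP446Y MP446Z MP446S MP446I MP446D

attribute [local instance 100] LieRing.ofAssociativeRing

/-- statement of LPH -/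
def StLPH : Prop :=
  ∀ (σ : ℕ → F2 ℚ) (Φ : FreeLieAlgebra ℚ ℕ →ₗ[ℚ] F2 ℚ)
    (_ : ∀ x y, Φ ⁅x, y⁆ = iharaBracket (Φ x) (Φ y))
    (_ : ∀ i, Φ (FreeLieAlgebra.of ℚ i) = σ i) (P : FreeLieAlgebra ℚ ℕ) (W : Finset (List ℕ))
    (_ : ∀ w, w ∉ W → (embN ℚ P).coeff (FreeMonoid.ofList w) = 0),
  ∑ w ∈ W, (embN ℚ P).coeff (FreeMonoid.ofList w) •
    ((w.map (fun i => (LQ (assoc ℚ (σ i)) : Module.End ℚ (AA ℚ)))).prod (1 : AA ℚ)) = assoc ℚ (Φ P)

/-- statement of DYN -/
def StDYN : Prop :=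
  ∀ (x : List ℕ → ℚ) (W : Finset (List ℕ)) (_ : ∀ w, w ∉ W → x w = 0) (_ : x [] = 0)
    (_ : ∀ p q : List ℕ, p ≠ [] → q ≠ [] → ((shuffle p q).map x).sum = 0),
    ∃ P : FreeLieAlgebra ℚ ℕ, ∀ w, (embN ℚ P).coeff (FreeMonoid.ofList w) = x w

lemma sum_map_lin {R : Type} [CommRing R] [Algebra ℚ R] (r : R →ₗ[ℚ] ℚ) (l : List (List ℕ))
    (t : List ℕ → R) : (l.map (fun w => r (t w))).sum = r ((l.map t).sum) := by
  rw [map_list_sum, List.map_map]
  rfl

/-- the rational statement -/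
theorem rat (hLP : StLPH) (hDY : StDYN) (σ : ℕ → F2 ℚ) (hσ : ∀ i, IsGRT (σ i))
    (hhom : ∀ i (w : List (Fin 2)), w.length ≠ 2 * i + 3 → coef (σ i) w = 0)
    (h3 : ∀ i, coef (σ i) (List.replicate (2 * i + 2) 0 ++ [1]) ≠ 0) (W : Finset (List ℕ))
    (x : List ℕ → ℚ) (hx : ∀ w, w ∉ W → x w = 0) (h0 : x [] = 0)
    (hsh : ∀ p q : List ℕ, p ≠ [] → q ≠ [] → ((shuffle p q).map x).sum = 0)
    (hz : ∑ w ∈ W, x w •
      ((w.map (fun i => (LQ (assoc ℚ (σ i)) : Module.End ℚ (AA ℚ)))).prod (1 : AA ℚ)) = 0) :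
    ∀ w, x w = 0 := by
  obtain ⟨φ, hφ, hof, hinj, -⟩ := exists_of_sigma σ hσ hhom h3
  obtain ⟨P, hP⟩ := hDY x W hx h0 hsh
  have h := hLP σ φ hφ.lie hof P W (fun w hw => by rw [hP, hx w hw])
  simp only [hP] at h
  rw [hz] at h
  have h1 : φ P = 0 := assoc_injective (by rw [← h, map_zero])
  have h2 : P = 0 := hinj (by rw [h1, map_zero])
  intro w
  rw [← hP w, h2, map_zero]
  rfl

section Main

variable {R : Type} [CommRing R] [Algebra ℚ R]

lemma Lw_bc (σ : ℕ → F2 ℚ) (A : GFam R ℕ)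
    (hQ : ∀ i, A.Q i = bcP (algebraMap ℚ R) (assoc ℚ (σ i))) (w : List ℕ) (X : AA ℚ) :
    A.Lw w (bcP (algebraMap ℚ R) X) = bcP (algebraMap ℚ R)
      ((w.map (fun i => (LQ (assoc ℚ (σ i)) : Module.End ℚ (AA ℚ)))).prod X) := by
  induction w with
  | nil => rfl
  | cons s w ih =>
    rw [OPB.Lw_cons, ih, hQ, ← OPN.bcP_LQ, List.map_cons, List.prod_cons]
    rfl

lemma wt_eq (A : GFam R ℕ) (hdg : ∀ i, A.dg i = 2 * i + 3) (w : List ℕ) :
    A.wt w = weight w := by
  unfold Alph.wt weight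
  congr 1
  exact List.map_congr_left (fun i _ => hdg i)

lemma weight_shuffle (A : GFam R ℕ) (hdg : ∀ i, A.dg i = 2 * i + 3) (p q w : List ℕ)
    (hw : w ∈ shuffle p q) : weight w = weight p + weight q := by
  rw [← wt_eq A hdg, ← wt_eq A hdg, ← wt_eq A hdg]
  exact Lb.wt_shuffle A.toAlph p q w hw

theorem fix_one (hLP : StLPH) (hDY : StDYN) (σ : ℕ → F2 ℚ) (hσ : ∀ i, IsGRT (σ i))
    (hhom : ∀ i (w : List (Fin 2)), w.length ≠ 2 * i + 3 → coef (σ i) w = 0)
    (h3 : ∀ i, coef (σ i) (List.replicate (2 * i + 2) 0 ++ [1]) ≠ 0)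
    (A : GFam R ℕ) (hdg : ∀ i, A.dg i = 2 * i + 3)
    (hQ : ∀ i, A.Q i = bcP (algebraMap ℚ R) (assoc ℚ (σ i)))
    (t : List ℕ → R) (ht : IsGroupLike t) (f : List (Fin 2) → R) (hf : f [] = 1)
    (hact : A.act t f = f) : ∀ w : List ℕ, w ≠ [] → t w = 0 := by
  classical
  have key : ∀ n : ℕ, ∀ w : List ℕ, w ≠ [] → A.wt w = n → t w = 0 := by
    intro n
    induction n using Nat.strong_induction_on with
    | _ n ih =>
    intro w hw hwn
    have hn : 1 ≤ n := by
      rcases Nat.eq_zero_or_pos n with h | h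
      · exfalso
        apply hw
        apply OPB.nil_of_wt A.toAlph
        rw [hwn, h]
      · exact h
    have hlow : ∀ w : List ℕ, w ≠ [] → A.wt w < n → t w = 0 := fun w h1 h2 => ih _ h2 w h1 rfl
    have hL := (specOPL R ℕ A n t f ht.one hf hlow hn).2
    set F := (A.wd (n + 1)).filter (fun w => A.wt w = n) with hF
    have hmemF : ∀ v : List ℕ, v ∈ F ↔ A.wt v = n := by
      intro v
      rw [hF, Finset.mem_filter, Alph.mem_wd]
      constructor
      · exact fun h => h.2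
      · exact fun h => ⟨by omega, h⟩
    have hb : ∀ w : List ℕ, A.Lw w 1 = bcP (algebraMap ℚ R)
        ((w.map (fun i => (LQ (assoc ℚ (σ i)) : Module.End ℚ (AA ℚ)))).prod (1 : AA ℚ)) := by
      intro w
      rw [← Lw_bc σ A hQ, OPN.bcP_one]
    have hsum : ∀ v : List (Fin 2), ∑ w ∈ F, t w * cf (A.Lw w 1) v = 0 := by
      intro v
      by_cases hv : v.length = n
      · have := hL v hv
        rw [hact] at this
        exact (left_eq_add.1 this)
      · refine Finset.sum_eq_zero (fun w hw => ?_)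
        have h1 := (OPB.hd_Lw A w).hom (OPB.hom_one (k := R))
        rw [h1 v (by rw [(hmemF w).1 hw]; omega), mul_zero]
    rw [← Module.forall_dual_apply_eq_zero_iff ℚ (t w)]
    intro r
    let x : List ℕ → ℚ := fun w => if A.wt w = n then r (t w) else 0
    have hx : ∀ v, v ∉ F → x v = 0 := by
      intro v hv
      exact if_neg (fun h => hv ((hmemF v).2 h))
    have h := rat hLP hDY σ hσ hhom h3 F x hx (by
      change (if A.wt [] = n then _ else _) = _
      rw [OPB.wt_nil, if_neg (by omega)]) (by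
      intro p q hp hq
      by_cases hpq : A.wt p + A.wt q = n
      · have e : (shuffle p q).map x = (shuffle p q).map (fun w => r (t w)) := by
          apply List.map_congr_left
          intro s hs
          change (if A.wt s = n then _ else _) = _
          rw [if_pos (by rw [Lb.wt_shuffle A.toAlph p q s hs, hpq])]
        rw [e, sum_map_lin, ← ht.shuffle]
        have hq1 : 0 < A.wt q := by
          rcases Nat.eq_zero_or_pos (A.wt q) with h | h
          · exact absurd (OPB.nil_of_wt A.toAlph h) hq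
          · exact h
        rw [hlow p hp (by omega), zero_mul, map_zero]
      · have e : (shuffle p q).map x = (shuffle p q).map (fun _ => (0 : ℚ)) := by
          apply List.map_congr_left
          intro s hs
          change (if A.wt s = n then _ else _) = _
          rw [if_neg (by rw [Lb.wt_shuffle A.toAlph p q s hs]; exact hpq)]
        rw [e]
        simp) (by
      apply MP446S.AA_ext
      intro v
      rw [cf_sum, cf_zero]
      have e : ∀ w ∈ F, cf (x w • ((w.map (fun i =>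
          (LQ (assoc ℚ (σ i)) : Module.End ℚ (AA ℚ)))).prod (1 : AA ℚ))) v =
          r (t w * cf (A.Lw w 1) v) := by
        intro w hw
        rw [cf_smul, hb, cf_bcP]
        change (if A.wt w = n then _ else _) * _ = _
        rw [if_pos ((hmemF w).1 hw), mul_comm (t w), ← Algebra.smul_def, map_smul, smul_eq_mul,
          mul_comm]
      rw [Finset.sum_congr rfl e, ← map_sum, hsum, map_zero]) w
    change (if A.wt w = n then _ else _) = _ at h
    rw [if_pos hwn] at h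
    exact h
  intro w hw
  exact key _ w hw rfl

theorem inj (hLP : StLPH) (hDY : StDYN) : SpecINJ := by
  intro σ hσ hhom h3 R _ _ A hdg hQ u u' hu hu' f hf hact
  obtain ⟨v, hv, h1, h2⟩ := gl_inv (u := (⟨u'⟩ : Ser ℕ R)) hu'
  have hgl : IsGroupLike (v * (⟨u⟩ : Ser ℕ R)).cf := gl_mul hv hu
  have hc : ∀ a b : Ser ℕ R, conv a.cf b.cf = (a * b).cf := by
    intro a b
    funext w
    exact (Ser.mul_apply a b w).symm
  have hfix : A.act (v * (⟨u⟩ : Ser ℕ R)).cf f = f := by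
    rw [← hc, ← (specOPC R ℕ A v.cf u f).1, hact, (specOPC R ℕ A v.cf u' f).1,
      (show conv v.cf u' = (v * (⟨u'⟩ : Ser ℕ R)).cf from hc v ⟨u'⟩), h2,
      (specOPC R ℕ A v.cf u' f).2]
  have h := fix_one hLP hDY σ hσ hhom h3 A hdg hQ _ hgl f hf hfix
  have hone : v * (⟨u⟩ : Ser ℕ R) = 1 := by
    apply Ser.ext'
    intro w
    by_cases hw : w = []
    · subst hw
      rw [Ser.one_nil]
      exact hgl.one
    · rw [Ser.one_of_ne hw]
      exact h w hw
  have : (⟨u⟩ : Ser ℕ R) = ⟨u'⟩ := by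
    calc (⟨u⟩ : Ser ℕ R) = (⟨u'⟩ * v) * ⟨u⟩ := by rw [h1, one_mul]
      _ = ⟨u'⟩ * (v * ⟨u⟩) := mul_assoc _ _ _
      _ = ⟨u'⟩ := by rw [hone, mul_one]
  exact congrArg Ser.cf this

end Main

end MP446U.INJ
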