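import Pool.Agent.Lib.MP_446dfa_ag.unc.EXL

set_option linter.all false

/-!
# INV: the series `f` with `f(φ a φ⁻¹, b) φ = g`
-/

noncomputable section

namespace MP446U.INV

open MP446 MP446Y MP446Z MP446S MP446I MP446U.V

section Ext

/-- a series is determined by its values -/
lemma ser_ext {R : Type} [CommRing R] {f g : List (Fin 2) → R}
    (h : ∀ (E : Type) [Ring E] [Algebra R E] (N : ℕ) (I : Submodule R E), IsNilp N I →
      ∀ a ∈ I, ∀ b ∈ I, val f a b = val g a b) : f = g := by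
  have key : ∀ (n : ℕ) (w : List (Fin 2)), w.length = n → f w = g w := by
    intro n
    induction n using Nat.strong_induction_on with
    | _ n ih =>
      intro w hw
      have hfg : ∀ v : List (Fin 2), v.length < n → f v = g v := fun v hv => ih _ hv v rfl
      have hε := ter_pow R n
      have h1 := h (AA (TRR R n)) (n + 1) (epI R (AA (TRR R n)) (ter R n)) (isNilp_ep hε)
        (ter R n • (lt (TRR R n) 0 + ter R n • 0)) ⟨_, rfl⟩
        (ter R n • (lt (TRR R n) 1 + ter R n • 0)) ⟨_, rfl⟩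
      rw [val_diff hfg hε, add_eq_left, ← bcr_eq] at h1
      have h2 : prt (fun w => f w - g w) n = (0 : AA R) := by
        apply bcr_inj (n := n)
        rw [h1]
        unfold bcr
        rw [map_zero, smul_zero]
      have h3 := congrArg (fun X => cf X w) h2
      simp only [cf_prt, if_pos hw, cf_zero] at h3
      exact sub_eq_zero.1 h3
  funext w
  exact key _ w rfl

end Ext

section Sol

variable {R : Type} [CommRing R]

/-- the series with the single letter `i` -/
def ltS (R : Type) [CommRing R] (i : Fin 2) : Ser (Fin 2) R := ⟨fun w => if w = [i] then 1 else 0⟩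

lemma ltS_nil (i : Fin 2) : ltS R i [] = 0 := by
  change (if ([] : List (Fin 2)) = [i] then (1 : R) else 0) = 0
  rw [if_neg (by simp)]

lemma ltS_self (i : Fin 2) : ltS R i [i] = 1 := by
  change (if [i] = [i] then (1 : R) else 0) = 1
  rw [if_pos rfl]

lemma ltS_ne {i j : Fin 2} (h : j ≠ i) : ltS R i [j] = 0 := by
  change (if [j] = [i] then (1 : R) else 0) = 0
  rw [if_neg (by simpa using h)]

lemma val_ltS {E : Type} [Ring E] [Algebra R E] (a b : E) (i : Fin 2) :
    val (ltS R i).cf a b = (![a, b] : Fin 2 → E) i := by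
  unfold val
  rw [finsum_eq_sum_of_support_subset (s := {[i]})]
  · rw [Finset.sum_singleton]
    have : (ltS R i).cf [i] = 1 := ltS_self i
    rw [this]
    simp
  · intro w hw
    rw [Finset.coe_singleton, Set.mem_singleton_iff]
    by_contra hc
    apply hw
    have : (ltS R i).cf w = 0 := if_neg hc
    simp only [this, zero_smul]

/-- `α = x + ` terms of higher degree -/
structure Tan (α : Ser (Fin 2) R) : Prop where
  nil : α [] = 0
  one : ∀ j : Fin 2, α [j] = if j = 0 then 1 else 0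

lemma Tan.cons_one {α : Ser (Fin 2) R} (h : Tan α) (i j : Fin 2) :
    ((![α, ltS R 1] : Fin 2 → Ser (Fin 2) R) i) [j] = if j = i then 1 else 0 := by
  fin_cases i
  · exact h.one j
  · change ltS R 1 [j] = _
    by_cases hj : j = 1
    · subst hj
      rw [ltS_self]
      simp
    · rw [ltS_ne hj]
      simp [hj]

lemma Tan.cons_nil {α : Ser (Fin 2) R} (h : Tan α) (i : Fin 2) :
    ((![α, ltS R 1] : Fin 2 → Ser (Fin 2) R) i) [] = 0 := by
  fin_cases i
  · exact h.nil
  · exact ltS_nil 1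

lemma Tan.diag {α : Ser (Fin 2) R} (h : Tan α) (v w : List (Fin 2)) (hw : w.length = v.length) :
    ((v.map ![α, ltS R 1]).prod : Ser (Fin 2) R) w = if v = w then 1 else 0 := by
  induction v generalizing w with
  | nil =>
    have : w = [] := List.length_eq_zero_iff.1 hw
    subst this
    simp
  | cons i v ih =>
    obtain ⟨j, w, rfl⟩ : ∃ j w', w = j :: w' := by
      cases w with
      | nil => simp at hw
      | cons j w => exact ⟨j, w, rfl⟩
    have hl : w.length = v.length := by simpa using hw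
    rw [List.map_cons, List.prod_cons, Ser.mul_apply,
      Finset.sum_eq_single_of_mem 1 (by rw [Finset.mem_range, List.length_cons]; omega)]
    · rw [List.take_succ_cons, List.take_zero, List.drop_succ_cons, List.drop_zero, h.cons_one,
        ih w hl]
      by_cases h1 : j = i
      · subst h1
        by_cases h2 : v = w
        · subst h2
          simp
        · simp [h2]
      · have : ¬ i = j := fun h' => h1 h'.symm
        simp [h1, this]
    · intro k hk hk1
      match k with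
      | 0 => rw [List.take_zero, h.cons_nil, zero_mul]
      | 1 => exact absurd rfl hk1
      | k + 2 =>
        rw [word_short h.nil (ltS_nil 1), mul_zero]
        rw [Finset.mem_range, List.length_cons] at hk
        rw [List.length_drop, List.length_cons]
        omega

/-- the solution of a triangular system -/
def solF (c : List (Fin 2) → List (Fin 2) → R) (h : List (Fin 2) → R) (w : List (Fin 2)) : R :=
  h w - ∑ v ∈ (wl w.length).attach, solF c h v.1 * c v.1 w
termination_by w.length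
decreasing_by exact (mem_wl _ _).1 v.2

lemma solF_eq (c : List (Fin 2) → List (Fin 2) → R) (h : List (Fin 2) → R) (w : List (Fin 2)) :
    solF c h w + ∑ v ∈ wl w.length, solF c h v * c v w = h w := by
  rw [solF, ← Finset.sum_attach (wl w.length) (fun v => solF c h v * c v w)]
  exact sub_add_cancel _ _

/-- solving `f(α, y) = h` -/
lemma exists_cmp {α : Ser (Fin 2) R} (hα : Tan α) (h : Ser (Fin 2) R) :
    ∃ f : Ser (Fin 2) R, cmpS α (ltS R 1) f = h := by
  refine ⟨⟨solF (fun v w => ((v.map ![α, ltS R 1]).prod : Ser (Fin 2) R) w) h.cf⟩, ?_⟩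
  apply Ser.ext'
  intro w
  change ∑ v ∈ wl (w.length + 1), solF _ h.cf v * ((v.map ![α, ltS R 1]).prod : Ser (Fin 2) R) w = _
  rw [← solF_eq (fun v w => ((v.map ![α, ltS R 1]).prod : Ser (Fin 2) R) w) h.cf w,
    ← Finset.sum_filter_add_sum_filter_not (wl (w.length + 1)) (fun v => v.length = w.length)]
  congr 1
  · rw [Finset.sum_eq_single_of_mem w]
    · rw [hα.diag w w rfl, if_pos rfl, mul_one]
    · rw [Finset.mem_filter, mem_wl]
      exact ⟨by omega, rfl⟩
    · intro v hv hvw
      rw [Finset.mem_filter] at hv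
      rw [hα.diag v w hv.2.symm, if_neg hvw, mul_zero]
  · refine Finset.sum_congr ?_ (fun _ _ => rfl)
    ext v
    rw [Finset.mem_filter, mem_wl, mem_wl]
    omega

end Sol

section Inv

variable {R : Type} [CommRing R] {E : Type} [Ring E] [Algebra R E] {N : ℕ} {I : Submodule R E}

lemma Tan.left {α : Ser (Fin 2) R} (hα : Tan α) : ∃ β : Ser (Fin 2) R, Tan β ∧
    ∀ (E : Type) [Ring E] [Algebra R E] (N : ℕ) (I : Submodule R E), IsNilp N I →
      ∀ a ∈ I, ∀ b ∈ I, val β.cf (val α.cf a b) b = a := by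
  obtain ⟨β, hβ⟩ := exists_cmp hα (ltS R 0)
  have h0 : β [] = 0 := by
    have h1 := congrArg (fun u : Ser (Fin 2) R => u []) hβ
    simp only [ltS_nil] at h1
    have h2 : cmpS α (ltS R 1) β [] = β [] := by
      change ∑ v ∈ wl (([] : List (Fin 2)).length + 1),
        β v * ((v.map ![α, ltS R 1]).prod : Ser (Fin 2) R) [] = _
      rw [Finset.sum_eq_single_of_mem [] (by rw [mem_wl]; simp)]
      · simp
      · intro v hv hne
        rw [mem_wl] at hv
        have := List.length_pos_of_ne_nil hne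
        rw [List.length_nil] at hv
        omega
    rw [← h2]
    exact h1
  refine ⟨β, ⟨h0, fun j => ?_⟩, ?_⟩
  · have h1 := congrArg (fun u : Ser (Fin 2) R => u [j]) hβ
    have h2 : cmpS α (ltS R 1) β [j] = β [j] := by
      change ∑ v ∈ wl (([j] : List (Fin 2)).length + 1),
        β v * ((v.map ![α, ltS R 1]).prod : Ser (Fin 2) R) [j] = _
      rw [Finset.sum_eq_single_of_mem [j] (by rw [mem_wl]; simp)]
      · rw [hα.diag [j] [j] rfl, if_pos rfl, mul_one]
      · intro v hv hne
        rw [mem_wl] at hv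
        by_cases hv0 : v = []
        · subst hv0
          rw [h0, zero_mul]
        · have := List.length_pos_of_ne_nil hv0
          rw [hα.diag v [j] (by simp at hv ⊢; omega), if_neg hne, mul_zero]
    rw [h2] at h1
    rw [h1]
    by_cases hj : j = 0
    · subst hj
      rw [ltS_self, if_pos rfl]
    · rw [ltS_ne hj, if_neg hj]
  · intro E _ _ N I hI a ha b hb
    have h1 := val_cmpS hI ha hb hα.nil (ltS_nil 1) β
    rw [hβ, val_ltS, val_ltS] at h1
    exact h1.symm

/-- a tangent series has a right inverse -/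
lemma Tan.right {α : Ser (Fin 2) R} (hα : Tan α) : ∃ β : Ser (Fin 2) R, Tan β ∧
    ∀ (E : Type) [Ring E] [Algebra R E] (N : ℕ) (I : Submodule R E), IsNilp N I →
      ∀ a ∈ I, ∀ b ∈ I, val α.cf (val β.cf a b) b = a := by
  obtain ⟨β, hβ, h1⟩ := hα.left
  obtain ⟨γ, hγ, h2⟩ := hβ.left
  refine ⟨β, hβ, fun E _ _ N I hI a ha b hb => ?_⟩
  have m1 : val β.cf a b ∈ I := val_mem hI ha hb hβ.nil
  have m2 : val α.cf (val β.cf a b) b ∈ I := val_mem hI m1 hb hα.nil
  have e1 := h1 E N I hI _ m1 b hb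
  have e2 := h2 E N I hI _ m2 b hb
  rw [e1, h2 E N I hI a ha b hb] at e2
  exact e2.symm

/-- `φ x φ⁻¹` -/
lemma exists_conj (φ : List (Fin 2) → R) (hφ : φ [] = 1) : ∃ φ' : Ser (Fin 2) R,
    (⟨φ⟩ : Ser (Fin 2) R) * φ' = 1 ∧ φ' * ⟨φ⟩ = 1 ∧ φ' [] = 1 ∧
      Tan ((⟨φ⟩ : Ser (Fin 2) R) * ltS R 0 * φ') := by
  obtain ⟨φ', h1, h2, h3⟩ := exists_inv (⟨φ⟩ : Ser (Fin 2) R) hφ
  refine ⟨φ', h1, h2, h3, ?_, ?_⟩
  · rw [Ser.mul_nil, Ser.mul_nil, ltS_nil, mul_zero, zero_mul]
  · intro j
    have key : ∀ u v : Ser (Fin 2) R, (u * v) [j] = u [] * v [j] + u [j] * v [] := by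
      intro u v
      rw [Ser.mul_apply, List.length_singleton, Finset.sum_range_succ, Finset.sum_range_succ,
        Finset.sum_range_zero, zero_add]
      rfl
    rw [key, key, Ser.mul_nil, ltS_nil, h3]
    change φ [] * 0 * φ' [j] + (φ [] * ltS R 0 [j] + φ [j] * 0) * 1 = _
    rw [hφ]
    by_cases hj : j = 0
    · subst hj
      rw [ltS_self, if_pos rfl]
      ring
    · rw [ltS_ne hj, if_neg hj]
      ring

lemma val_inv_unit {φ : List (Fin 2) → R} {φ' : Ser (Fin 2) R} (h : (⟨φ⟩ : Ser (Fin 2) R) * φ' = 1)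
    (hI : IsNilp N I) {a b : E} (ha : a ∈ I) (hb : b ∈ I) {p : Eˣ} (hp : (p : E) = val φ a b) :
    val φ'.cf a b = ((p⁻¹ : Eˣ) : E) := by
  have h1 := val_mul hI ha hb ⟨φ⟩ φ'
  rw [h] at h1
  have h2 : val (1 : Ser (Fin 2) R).cf a b = 1 := val_one1 a b
  rw [h2] at h1
  change 1 = val φ a b * _ at h1
  rw [← hp] at h1
  rw [← one_mul (val φ'.cf a b), ← Units.inv_mul p, mul_assoc, ← h1, mul_one]

lemma val_conjS {φ : List (Fin 2) → R} {φ' : Ser (Fin 2) R} (h : (⟨φ⟩ : Ser (Fin 2) R) * φ' = 1)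
    (hI : IsNilp N I) {a b : E} (ha : a ∈ I) (hb : b ∈ I) {p : Eˣ} (hp : (p : E) = val φ a b) :
    val ((⟨φ⟩ : Ser (Fin 2) R) * ltS R 0 * φ').cf a b = p * a * (p⁻¹ : Eˣ) := by
  rw [val_mul hI ha hb, val_mul hI ha hb, val_ltS, val_inv_unit h hI ha hb hp, hp]
  rfl

/-- the solution `a` of `φ a φ⁻¹ = a'`, as a series -/
lemma exists_solution (φ : List (Fin 2) → R) (hφ : φ [] = 1) : ∃ β : Ser (Fin 2) R, β [] = 0 ∧
    ∀ (E : Type) [Ring E] [Algebra R E] (N : ℕ) (I : Submodule R E), IsNilp N I →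
      ∀ a' ∈ I, ∀ b ∈ I, ∀ p : Eˣ, (p : E) = val φ (val β.cf a' b) b →
        p * val β.cf a' b * (p⁻¹ : Eˣ) = a' := by
  obtain ⟨φ', h1, h2, h3, h4⟩ := exists_conj φ hφ
  obtain ⟨β, hβ, h5⟩ := h4.right
  refine ⟨β, hβ.nil, fun E _ _ N I hI a' ha' b hb p hp => ?_⟩
  rw [← val_conjS h1 hI (val_mem hI ha' hb hβ.nil) hb hp]
  exact h5 E N I hI a' ha' b hb

/-- part 3 -/
lemma exists_preimage (φ : List (Fin 2) → R) (hφ : φ [] = 1) (hI : IsNilp N I) {a' b : E}
    (ha' : a' ∈ I) (hb : b ∈ I) :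
    ∃ a ∈ I, ∃ p : Eˣ, (p : E) = val φ a b ∧ p * a * (p⁻¹ : Eˣ) = a' := by
  obtain ⟨β, h0, h1⟩ := exists_solution φ hφ
  have ha := val_mem hI ha' hb h0
  obtain ⟨p, hp⟩ := exists_val_unit hI ha hb hφ
  exact ⟨_, ha, p, hp, h1 E N I hI a' ha' b hb p hp⟩

/-- existence -/
lemma exists_rel (φ g : List (Fin 2) → R) (hφ : φ [] = 1) : ∃ f : List (Fin 2) → R, Rel φ f g := by
  obtain ⟨φ', h1, h2, h3, h4⟩ := exists_conj φ hφ
  obtain ⟨f, hf⟩ := exists_cmp h4 (⟨g⟩ * φ')
  refine ⟨f.cf, fun E _ _ N I hI a ha b hb p hp => ?_⟩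
  have h5 := val_cmpS hI ha hb h4.nil (ltS_nil 1) f
  rw [hf, val_mul hI ha hb, val_ltS, val_conjS h1 hI ha hb hp, val_inv_unit h1 hI ha hb hp] at h5
  change val g a b * _ = val f.cf _ b at h5
  rw [← h5, mul_assoc, Units.inv_mul, mul_one]

/-- uniqueness -/
lemma rel_unique {φ f f' g : List (Fin 2) → R} (hφ : φ [] = 1) (h : Rel φ f g) (h' : Rel φ f' g) :
    f' = f := by
  apply ser_ext
  intro E _ _ N I hI a' ha' b hb
  obtain ⟨a, ha, p, hp, rfl⟩ := exists_preimage φ hφ hI ha' hb
  have e1 := h E N I hI a ha b hb p hp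
  have e2 := h' E N I hI a ha b hb p hp
  have e3 := e2.trans e1.symm
  have e4 := congrArg (fun z => z * ((p⁻¹ : Eˣ) : E)) e3
  simp only [mul_assoc, Units.mul_inv, mul_one] at e4
  simp only [mul_assoc]
  exact e4

/-- group-like solutions -/
lemma rel_gl {φ f g : List (Fin 2) → R} (N : ℕ) (hφ : GlV R N φ) (hg : GlV R N g)
    (h : Rel φ f g) (hf : f [] = 1) : GlV R N f := by
  refine ⟨hf, fun E _ _ I hI A hA B hB A' hA' B' hB' hc => ?_⟩
  obtain ⟨β, h0, h1⟩ := exists_solution φ hφ.1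
  obtain ⟨a, haE⟩ : ∃ a, a = val β.cf A B := ⟨_, rfl⟩
  obtain ⟨a', haE'⟩ : ∃ a, a = val β.cf A' B' := ⟨_, rfl⟩
  have ha : a ∈ I := haE ▸ val_mem hI hA hB h0
  have ha' : a' ∈ I := haE' ▸ val_mem hI hA' hB' h0
  obtain ⟨p, hp⟩ := exists_val_unit hI ha hB hφ.1
  obtain ⟨p', hp'⟩ := exists_val_unit hI ha' hB' hφ.1
  have e1 : (p : E) * a * (p⁻¹ : Eˣ) = A := by
    rw [haE] at hp ⊢
    exact h1 E N I hI A hA B hB p hp
  have e1' : (p' : E) * a' * (p'⁻¹ : Eˣ) = A' := by
    rw [haE'] at hp' ⊢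
    exact h1 E N I hI A' hA' B' hB' p' hp'
  -- commutation
  have c1 : ∀ z : E, z * A = A * z → z * B = B * z → z * a = a * z := by
    intro z h1 h2
    rw [haE]
    exact val_comm hI hA hB _ h1 h2
  have c1' : ∀ z : E, z * A' = A' * z → z * B' = B' * z → z * a' = a' * z := by
    intro z h1 h2
    rw [haE']
    exact val_comm hI hA' hB' _ h1 h2
  have aA' : a * A' = A' * a := (c1 A' hc.h1.symm hc.h3.symm).symm
  have aB' : a * B' = B' * a := (c1 B' hc.h2.symm hc.h4.symm).symm
  have aa' : a * a' = a' * a := c1' a aA' aB'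
  have Ba' : B * a' = a' * B := c1' B hc.h3 hc.h4
  have cc : Com2 a B a' B' := ⟨aa', aB', Ba', hc.h4⟩
  have pA' : (p : E) * A' = A' * p := by
    rw [hp]
    exact (val_comm hI ha hB φ aA'.symm hc.h3.symm).symm
  have pB' : (p : E) * B' = B' * p := by
    rw [hp]
    exact (val_comm hI ha hB φ aB'.symm hc.h4.symm).symm
  have p'a : (p' : E) * a = a * p' := by
    rw [hp']
    exact (val_comm hI ha' hB' φ aa' aB').symm
  have pp' : ((p * p' : Eˣ) : E) = val φ (a + a') (B + B') := by
    rw [hφ.2 E I hI a ha B hB a' ha' B' hB' cc, Units.val_mul, hp, hp']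
  have e2 := h E N I hI (a + a') (I.add_mem ha ha') (B + B') (I.add_mem hB hB') (p * p') pp'
  have e3 : ((p * p' : Eˣ) : E) * (a + a') * ((p * p')⁻¹ : Eˣ) = A + A' := by
    have e4 : (p' : E) * a * (p'⁻¹ : Eˣ) = a := by
      rw [p'a, mul_assoc, Units.mul_inv, mul_one]
    have e5 : (p : E) * A' * (p⁻¹ : Eˣ) = A' := by
      rw [pA', mul_assoc, Units.mul_inv, mul_one]
    rw [mul_inv_rev, Units.val_mul, Units.val_mul]
    calc (p : E) * p' * (a + a') * ((p'⁻¹ : Eˣ) * (p⁻¹ : Eˣ))
        = p * (p' * a * (p'⁻¹ : Eˣ)) * (p⁻¹ : Eˣ) + p * (p' * a' * (p'⁻¹ : Eˣ)) * (p⁻¹ : Eˣ) := by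
          noncomm_ring
      _ = A + A' := by rw [e4, e1, e1', e5]
  rw [e3, hg.2 E I hI a ha B hB a' ha' B' hB' cc] at e2
  have r1 := h E N I hI a ha B hB p hp
  have r2 := h E N I hI a' ha' B' hB' p' hp'
  rw [e1] at r1
  rw [e1'] at r2
  have c5 : (p : E) * val f A' B' = val f A' B' * p := val_comm hI hA' hB' f pA' pB'
  have e6 : val f (A + A') (B + B') * ((p * p' : Eˣ) : E) =
      (val f A B * val f A' B') * ((p * p' : Eˣ) : E) := by
    rw [e2, ← r1, ← r2, Units.val_mul]
    calc val f A B * p * (val f A' B' * p') = val f A B * (p * val f A' B') * p' := by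
          simp only [mul_assoc]
      _ = _ := by rw [c5]; simp only [mul_assoc]
  have e7 := congrArg (fun z => z * (((p * p')⁻¹ : Eˣ) : E)) e6
  simp only [mul_assoc, Units.mul_inv, mul_one] at e7
  exact e7

end Inv

end MP446U.INV

namespace MP446U

open INV V MP446 MP446Y MP446Z MP446S MP446I

/-- INV. -/
theorem specINV (hGLE : SpecGLE) : SpecINV := by
  refine ⟨?_, ?_, ?_⟩
  · intro R _ φ g hφ
    obtain ⟨f, hf⟩ := exists_rel φ g hφ
    exact ⟨f, hf, fun f' hf' => rel_unique hφ hf hf'⟩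
  · intro R _ φ f g hφ hg h
    have hGl : ∀ {u : List (Fin 2) → R}, IsGroupLike u → ∀ N, GlV R N u := fun hu N =>
      (hGLE R N _).1 ⟨hu.one, fun v w _ => hu.shuffle v w⟩
    have hf1 : f [] = 1 := by
      have h1 := h (AA R) 1 ⊥ ⟨fun x hx y hy => by
          rw [Submodule.mem_bot] at hx ⊢
          rw [hx, zero_mul], fun l hl hn => by
          obtain ⟨x, rfl⟩ := List.length_eq_one_iff.1 hn
          have := hl x (by simp)
          rw [Submodule.mem_bot] at this
          simp [this]⟩ 0 (Submodule.zero_mem _) 0 (Submodule.zero_mem _) 1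
      have key : ∀ u : List (Fin 2) → R, val u (0 : AA R) 0 = u [] • (1 : AA R) := by
        intro u
        unfold val
        rw [finsum_eq_sum_of_support_subset (s := {[]})]
        · simp
        · intro w hw
          rw [Finset.coe_singleton, Set.mem_singleton_iff]
          by_contra hc
          apply hw
          obtain ⟨i, w, rfl⟩ : ∃ i w', w = i :: w' := by
            cases w with
            | nil => exact absurd rfl hc
            | cons i w => exact ⟨i, w, rfl⟩
          simp only [List.map_cons, List.prod_cons]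
          have : (![0, 0] : Fin 2 → AA R) i = 0 := by fin_cases i <;> rfl
          rw [this, zero_mul, smul_zero]
      have h2 := h1 (by rw [key, hφ.one, one_smul, Units.val_one])
      rw [Units.val_one, inv_one, Units.val_one, mul_zero, zero_mul, mul_one, key, key, hg.one] at h2
      have h3 := congrArg (fun X => cf X []) h2
      simp only [cf_smul, cf_one, if_pos, mul_one] at h3
      exact h3
    have key : ∀ N, GlN R N f := fun N => (hGLE R N f).2 (rel_gl N (hGl hφ N) (hGl hg N) h hf1)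
    exact ⟨hf1, fun v w => (key (v.length + w.length + 1)).2 v w (Nat.lt_succ_self _)⟩
  · intro R _ φ hφ E _ _ N I hI a' ha' b hb
    exact exists_preimage φ hφ hI ha' hb

end MP446U
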