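import Pool.Agent.Lib.MP_446dfa_ag.unc.KZB
import Pool.Agent.Lib.MP_446dfa_ag.unc.Spec

set_option linter.all false

/-!
# KZC: associators of every level over `ℂ`
-/

noncomputable section

namespace MP446U.KC

open MP446 MP446Y MP446Z MP446S MP446I MP446U

/-! ### Real polynomials in complex algebras -/

section Cx

/-- `1 / (2 π i)` -/
def kap : ℂ := (2 * Real.pi * Complex.I)⁻¹

/-- the series `P(x / (2 π i), y / (2 π i))` -/
def Phi (P : AA ℝ) : List (Fin 2) → ℂ := fun w => kap ^ w.length * ((cf P w : ℝ) : ℂ)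

variable {E : Type} [Ring E] [Algebra ℂ E] {N : ℕ} {I : Submodule ℂ E}

lemma nilR (h : IsNilp N I) : Nil N (I.restrictScalars ℝ) := ⟨h.mul_mem, h.prod_zero⟩

lemma wsmul (r : ℂ) (A B : E) (w : List (Fin 2)) :
    (w.map ![r • A, r • B]).prod = r ^ w.length • (w.map ![A, B]).prod := word_smul r A B w

lemma val_Phi (h : IsNilp N I) {a b : E} (ha : a ∈ I) (hb : b ∈ I) (P : AA ℝ) :
    val (Phi P) a b = EV (kap • a) (kap • b) P := by
  have ha' : kap • a ∈ I.restrictScalars ℝ := I.smul_mem _ ha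
  have hb' : kap • b ∈ I.restrictScalars ℝ := I.smul_mem _ hb
  rw [val_eq h ha hb, (nilR h).EV_wl ha' hb']
  refine Finset.sum_congr rfl (fun w _ => ?_)
  rw [wsmul, Phi, mul_comm, ← smul_smul, Complex.coe_smul]

end Cx

/-! ### The 2-cycle relation in all nilpotent algebras -/

section Dual

attribute [local instance] Matrix.linftyOpNormedRing Matrix.linftyOpNormedAlgebra

instance (N : ℕ) : CompleteSpace (WK ℝ N) := FiniteDimensional.complete ℝ (WK ℝ N)
instance (N : ℕ) : CompleteSpace (WK ℂ N) := FiniteDimensional.complete ℂ (WK ℂ N)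

lemma nil_of {N : ℕ} {E : Type} [Ring E] [Algebra ℝ E] {I : Submodule ℝ E} (h : IsNilp N I) :
    Nil N I := ⟨h.mul_mem, h.prod_zero⟩

lemma of_nil {N : ℕ} {E : Type} [Ring E] [Algebra ℝ E] {I : Submodule ℝ E} (h : Nil N I) :
    IsNilp N I := ⟨h.mul_mem, h.prod_zero⟩

lemma dualR {N : ℕ} (hN : 1 ≤ N) {P : AA ℝ} (hP : KZlim N P) {E : Type} [Ring E] [Algebra ℝ E]
    {I : Submodule ℝ E} (hI : IsNilp N I) {a b : E} (ha : a ∈ I) (hb : b ∈ I) :
    EV a b P * EV b a P = 1 := by
  have h1 := EV_eq_of_model (K := ℝ) hN (X := P * EV (lt ℝ 1) (lt ℝ 0) P) (Y := 1) ?_ hI ha hb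
  · rw [map_mul, map_one, EV_comp, EV_letter_one, EV_letter_zero] at h1
    exact h1
  · rw [map_mul, map_one, EV_comp, EV_letter_one, EV_letter_zero]
    exact HX.twoCycleR (nil_of (IK_nil ℝ N)) hP (LK_mem ℝ N 0) (LK_mem ℝ N 1)

end Dual

/-! ### The hexagon -/

section Hex

variable {E : Type} [Ring E] [Algebra ℂ E] {N : ℕ} {I : Submodule ℂ E}

lemma EV_exq {K : Type} [CommRing K] [Algebra ℚ K] {E : Type} [Ring E] [Algebra K E] (a b : E)
    (X : AA K) (N : ℕ) : EV a b (exq (R := K) N X) = exq (R := K) N (EV a b X) := by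
  unfold exq
  rw [map_sum]
  refine Finset.sum_congr rfl (fun k _ => ?_)
  rw [map_smul, map_pow]

lemma exp_exq {E : Type} [NormedRing E] [NormedAlgebra ℂ E] {N : ℕ} {x : E} (h : x ^ N = 0) :
    NormedSpace.exp x = exq (R := ℂ) N x := by
  rw [exp_nil h]
  unfold exq
  refine Finset.sum_congr rfl (fun k _ => ?_)
  unfold ec
  rw [one_div, map_inv₀, map_natCast, ← Complex.coe_smul]
  push_cast
  rfl

/-- the left hand side of the hexagon, as a polynomial -/
def HXP (N : ℕ) (f : List (Fin 2) → ℂ) (ν : ℂ) : AA ℂ :=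
  exq (R := ℂ) N (ν • lt ℂ 0) * EV (-lt ℂ 0 - lt ℂ 1) (lt ℂ 0) (trn N f) *
    exq (R := ℂ) N (ν • (-lt ℂ 0 - lt ℂ 1)) * EV (lt ℂ 1) (-lt ℂ 0 - lt ℂ 1) (trn N f) *
      exq (R := ℂ) N (ν • lt ℂ 1) * trn N f

lemma EV_HXP (hI : IsNilp N I) {a b c : E} (ha : a ∈ I) (hb : b ∈ I) (hc : c ∈ I)
    (habc : a + b + c = 0) (f : List (Fin 2) → ℂ) (ν : ℂ) :
    EV a b (HXP N f ν) = expU ℂ (ν • a) * val f c a * expU ℂ (ν • c) * val f b c *
      expU ℂ (ν • b) * val f a b := by
  have hc' : -a - b = c := by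
    have : c = -(a + b) := by
      rw [eq_neg_iff_add_eq_zero, add_comm]; exact habc
    rw [this]; abel
  unfold HXP
  simp only [map_mul, EV_exq, map_smul, map_sub, map_neg, EV_letter_zero, EV_letter_one, EV_comp]
  rw [hc', val_trn hI hc ha, val_trn hI hb hc, val_trn hI ha hb,
    expU_eq (pow_zero' hI (I.smul_mem _ ha)), expU_eq (pow_zero' hI (I.smul_mem _ hb)),
    expU_eq (pow_zero' hI (I.smul_mem _ hc))]
  rfl

/-- rotation of a product equal to `1` -/
lemma rot {M : Type*} [Monoid M] {x y z : M} (h : x * y = 1) (h1 : y * z = 1) : y * x = 1 := by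
  have : x = z := by
    calc x = x * (y * z) := by rw [h1, mul_one]
      _ = x * y * z := by rw [mul_assoc]
      _ = z := by rw [h, one_mul]
  rw [this, h1]

/-- the hexagon in complex Banach algebras -/
lemma hexB {E : Type} [NormedRing E] [NormedAlgebra ℂ E] [CompleteSpace E] {N : ℕ}
    {I : Submodule ℂ E} (hI : IsNilp N I) {P : AA ℝ} (hP : KZlim N P) {a b c : E} (ha : a ∈ I)
    (hb : b ∈ I) (hc : c ∈ I) (habc : a + b + c = 0) :
    expU ℂ ((-(1 / 2) : ℂ) • a) * val (Phi P) c a * expU ℂ ((-(1 / 2) : ℂ) • c) *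
      val (Phi P) b c * expU ℂ ((-(1 / 2) : ℂ) • b) * val (Phi P) a b = 1 := by
  have hc' : -a - b = c := by
    have : c = -(a + b) := by
      rw [eq_neg_iff_add_eq_zero, add_comm]; exact habc
    rw [this]; abel
  have hNC : HX.NilC N I := ⟨hI.mul_mem, hI.prod_zero⟩
  have h1 := HX.hexagonC hNC hP (I.smul_mem kap ha) (I.smul_mem kap hb)
  have h2 : -(kap • a) - kap • b = kap • c := by rw [← hc', smul_sub, smul_neg]
  have h3 : ∀ x : E, (-(Real.pi * Complex.I)) • kap • x = (-(1 / 2) : ℂ) • x := by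
    intro x
    rw [smul_smul]
    congr 1
    unfold kap
    have := Real.pi_ne_zero
    have hp : (Real.pi : ℂ) ≠ 0 := by exact_mod_cast this
    have := Complex.I_ne_zero
    field_simp
  have h4 : ∀ x ∈ I, NormedSpace.exp ((-(1 / 2) : ℂ) • x) = expU ℂ ((-(1 / 2) : ℂ) • x) := by
    intro x hx
    have := pow_zero' hI (I.smul_mem (-(1 / 2) : ℂ) hx)
    rw [exp_exq this, expU_eq this]
    rfl
  rw [h2, ← val_Phi hI hc ha, ← val_Phi hI hb hc, ← val_Phi hI ha hb, h3, h3, h3, h4 a ha, h4 b hb,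
    h4 c hc] at h1
  have h5 : expU ℂ ((-(1 / 2) : ℂ) • a) * NormedSpace.exp (-((-(1 / 2) : ℂ) • a)) = 1 := by
    rw [← h4 a ha, ← PWaux.exp_add' (Commute.refl _).neg_right, add_neg_cancel, NormedSpace.exp_zero]
  have h6 := rot h1 h5
  simpa only [mul_assoc] using h6

attribute [local instance] Matrix.linftyOpNormedRing Matrix.linftyOpNormedAlgebra

lemma hexA (hN : 1 ≤ N) {P : AA ℝ} (hP : KZlim N P) (hI : IsNilp N I) {a b c : E} (ha : a ∈ I)
    (hb : b ∈ I) (hc : c ∈ I) (habc : a + b + c = 0) :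
    expU ℂ ((-(1 / 2) : ℂ) • a) * val (Phi P) c a * expU ℂ ((-(1 / 2) : ℂ) • c) *
      val (Phi P) b c * expU ℂ ((-(1 / 2) : ℂ) • b) * val (Phi P) a b = 1 := by
  rw [← EV_HXP hI ha hb hc habc]
  have h1 := EV_eq_of_model (K := ℂ) hN (X := HXP N (Phi P) (-(1 / 2))) (Y := 1) ?_ hI ha hb
  · rw [h1, map_one]
  · have hm := IK_nil ℂ N
    have ha := LK_mem ℂ N 0
    have hb := LK_mem ℂ N 1
    have hc : -LK ℂ N 0 - LK ℂ N 1 ∈ IK ℂ N 1 := Submodule.sub_mem _ (Submodule.neg_mem _ ha) hb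
    rw [EV_HXP hm ha hb hc (by abel), map_one]
    exact hexB hm hP ha hb hc (by abel)

lemma expU_neg (hN : 1 ≤ N) (hI : IsNilp N I) {a : E} (ha : a ∈ I) (ν : ℂ) :
    expU ℂ (ν • a) * expU ℂ ((-ν) • a) = 1 := by
  have h1 := EV_eq_of_model (K := ℂ) hN (X := exq (R := ℂ) N (ν • lt ℂ 0) *
    exq (R := ℂ) N ((-ν) • lt ℂ 0)) (Y := 1) ?_ hI ha ha
  · rw [map_mul, EV_exq, EV_exq, map_smul, map_smul, EV_letter_zero, map_one] at h1
    rw [expU_eq (pow_zero' hI (I.smul_mem _ ha)), expU_eq (pow_zero' hI (I.smul_mem _ ha))]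
    exact h1
  · have hm := IK_nil ℂ N
    have hl := LK_mem ℂ N 0
    rw [map_mul, EV_exq, EV_exq, map_smul, map_smul, EV_letter_zero, map_one,
      ← exp_exq (pow_zero' hm (Submodule.smul_mem _ _ hl)),
      ← exp_exq (pow_zero' hm (Submodule.smul_mem _ _ hl)), neg_smul,
      ← PWaux.exp_add' (Commute.refl _).neg_right, add_neg_cancel, NormedSpace.exp_zero]

end Hex

/-! ### The theorem -/

lemma IsAssocN.mono {R : Type} [CommRing R] [Algebra ℚ R] {N N' : ℕ} (hN : N ≤ N') {μ : R}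
    {f : List (Fin 2) → R} (h : IsAssocN R N' μ f) : IsAssocN R N μ f where
  one := h.one
  gl := fun v w hvw => h.gl v w (by omega)
  dual := fun E _ _ I hI => h.dual E I (isNilp_mono hI hN)
  hex := fun E _ _ I hI => h.hex E I (isNilp_mono hI hN)
  pent := fun E _ _ I hI => h.pent E I (isNilp_mono hI hN)

theorem kzc_pos {N : ℕ} (hN : 1 ≤ N) : ∃ f : List (Fin 2) → ℂ, IsAssocN ℂ N 1 f := by
  obtain ⟨P, hP, -⟩ := specLIM specREG N hN
  obtain ⟨hn, -, -⟩ := specCOEF N P hN hP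
  have hGL : GrL N P := toGrL specTRANSFER (specKGL specUNIQ specKZ specPW N P hP)
  have hPG : PG N P := toPG specTRANSFER
    (specKPG (specEDGE specKZ specPW) specFLAT (specKGL specUNIQ specKZ specPW) specPW N P hN hn hP)
  have dual : ∀ (E : Type) [Ring E] [Algebra ℂ E] (I : Submodule ℂ E), IsNilp N I →
      ∀ a ∈ I, ∀ b ∈ I, val (Phi P) a b * val (Phi P) b a = 1 := by
    intro E _ _ I hI a ha b hb
    rw [val_Phi hI ha hb, val_Phi hI hb ha]
    exact dualR hN hP (of_nil (nilR hI)) (I.smul_mem _ ha) (I.smul_mem _ hb)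
  refine ⟨Phi P, ⟨?_, ?_, dual, ?_, ?_⟩⟩
  · unfold Phi
    rw [hn.1]
    simp
  · intro v w hvw
    have h1 := shuffle_of_gl (K := ℝ) hN (fun E _ _ I hI => hGL E I (nil_of hI)) v w hvw
    unfold Phi
    have h2 : ((shuffle v w).map fun s => kap ^ s.length * ((cf P s : ℝ) : ℂ)) =
        (shuffle v w).map fun s => kap ^ (v.length + w.length) * ((cf P s : ℝ) : ℂ) := by
      apply List.map_congr_left
      intro s hs
      rw [shuffle_length v w s hs]
    rw [h2, List.sum_map_mul_left]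
    have h3 : ((shuffle v w).map fun s => ((cf P s : ℝ) : ℂ)).sum =
        ((((shuffle v w).map (cf P)).sum : ℝ) : ℂ) := by
      rw [← Complex.ofRealHom_eq_coe, map_list_sum, List.map_map]
      rfl
    rw [h3, ← h1, pow_add]
    push_cast
    ring
  · intro E _ _ I hI a ha b hb c hc habc ν hν
    rcases hν with hν | hν
    · have hν' : ν = 1 / 2 := by linear_combination hν / 2
      subst hν'
      have h1 := hexA hN hP hI hb ha hc (by rw [← habc]; abel)
      have d1 := dual E I hI b hb a ha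
      have d2 := dual E I hI a ha c hc
      have d2' := dual E I hI c hc a ha
      have d3 := dual E I hI c hc b hb
      have d4 := dual E I hI a ha b hb
      have e1 := expU_neg hN hI ha (-(1 / 2) : ℂ)
      have e2 := expU_neg hN hI hb (-(1 / 2) : ℂ)
      have e3 := expU_neg hN hI hc (-(1 / 2) : ℂ)
      rw [neg_neg] at e1 e2 e3
      set p := val (Phi P) a b
      set p' := val (Phi P) b a
      set q := val (Phi P) b c
      set q' := val (Phi P) c b
      set r := val (Phi P) c a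
      set r' := val (Phi P) a c
      set ea := expU ℂ ((1 / 2 : ℂ) • a)
      set eb := expU ℂ ((1 / 2 : ℂ) • b)
      set ec := expU ℂ ((1 / 2 : ℂ) • c)
      set ea' := expU ℂ ((-(1 / 2) : ℂ) • a)
      set eb' := expU ℂ ((-(1 / 2) : ℂ) • b)
      set ec' := expU ℂ ((-(1 / 2) : ℂ) • c)
      -- h1 : eb' * q' * ec' * r' * ea' * p' = 1
      have h2 : p * ea * r * ec * q * eb = 1 := by
        calc p * ea * r * ec * q * eb
            = (eb' * q' * ec' * r' * ea' * p') * (p * ea * r * ec * q * eb) := by rw [h1, one_mul]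
          _ = eb' * (q' * (ec' * (r' * (ea' * (p' * p) * ea) * r) * ec) * q) * eb := by
            simp only [mul_assoc]
          _ = 1 := by rw [d1, mul_one, e1, mul_one, d2, mul_one, e3, mul_one, d3, mul_one, e2]
      have h3 : p * (ea * r * ec * q * eb) = 1 := by simpa only [mul_assoc] using h2
      have h4 : p' * (p * (ea * r * ec * q * eb)) * p = p' * p := by rw [h3, mul_one]
      have h5 : p' * (p * (ea * r * ec * q * eb)) * p = (p' * p) * (ea * r * ec * q * eb * p) := by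
        simp only [mul_assoc]
      rw [h5, d1, one_mul] at h4
      exact h4
    · have hν' : ν = -(1 / 2) := by linear_combination hν / 2
      subst hν'
      exact hexA hN hP hI ha hb hc habc
  · intro E _ _ I hI t ht htI
    have htI' : ∀ i j, kap • t i j ∈ I := fun i j => I.smul_mem _ (htI i j)
    have hb : Braid (fun i j => kap • t i j) := by
      refine ⟨fun i j => ?_, fun i j k l h1 h2 h3 h4 h5 h6 => ?_, fun i j k h1 h2 h3 => ?_⟩
      · rw [ht.symm i j]
      · rw [smul_mul_smul_comm, smul_mul_smul_comm, ht.comm i j k l h1 h2 h3 h4 h5 h6]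
      · rw [← smul_add, smul_mul_smul_comm, smul_mul_smul_comm, ht.rel i j k h1 h2 h3]
    have h1 := hPG E (I.restrictScalars ℝ) (nilR hI) (fun i j => kap • t i j) hb htI'
    simp only [← smul_add] at h1
    rw [val_Phi hI (htI 0 1) (I.add_mem (htI 1 2) (htI 1 3)),
      val_Phi hI (I.add_mem (htI 0 2) (htI 1 2)) (htI 2 3), val_Phi hI (htI 1 2) (htI 2 3),
      val_Phi hI (I.add_mem (htI 0 1) (htI 0 2)) (I.add_mem (htI 1 3) (htI 2 3)),
      val_Phi hI (htI 0 1) (htI 1 2)]
    exact h1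

/-- **KZC.** For every `N` there is an associator of level `N` over `ℂ` (with `μ = 1`). -/
theorem kzc (N : ℕ) : ∃ f : List (Fin 2) → ℂ, IsAssocN ℂ N 1 f := by
  obtain ⟨f, hf⟩ := kzc_pos (N := N + 1) (by omega)
  exact ⟨f, IsAssocN.mono (by omega) hf⟩

end MP446U.KC

namespace MP446U

theorem specKZC : SpecKZC := KC.kzc

end MP446U
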