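import Pool.Agent.Lib.MP_446dfa_ag.unc.Base
import Pool.Agent.Lib.MP_446dfa_ag.ddi.Assemble
import Pool.Agent.Lib.MP_446dfa_ag.grp.Src

set_option linter.all false

/-!
# The operators attached to the elements of the free Lie algebra

`∑_w P_w L_w = L_{Φ(P)}` for `P` in the free Lie algebra on `σ_0, σ_1, …`, with coefficients `P_w`,
where `Φ` is the Lie homomorphism to the Ihara Lie algebra with `Φ(σ_i) = σ i`.
-/

noncomputable section

namespace MP446U.LPH

open MP446 MP446Y MP446Z MP446S MP446I MP446D MP446U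

attribute [local instance 100] LieRing.ofAssociativeRing

section Op

variable {k : Type} [CommRing k]

/-- the derivation `x ↦ 0`, `y ↦ [y, Q]` -/
def dQ (Q : AA k) : AA k →ₗ[k] AA k := derF ![0, lt k 1 * Q - Q * lt k 1]

lemma dQ_mul (Q X Y : AA k) : dQ Q (X * Y) = X * dQ Q Y + dQ Q X * Y := derF_mul _ _ _

lemma dQ_zero (Q : AA k) : dQ Q (lt k 0) = 0 := derF_lt _ 0

lemma dQ_one (Q : AA k) : dQ Q (lt k 1) = lt k 1 * Q - Q * lt k 1 := derF_lt _ 1

lemma iharaA_eq (P Q : AA k) : iharaA P Q = P * Q - Q * P + dQ P Q - dQ Q P := rfl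

lemma DQ_eq (Q X : AA k) : DQ Q X = Q * X - X * Q + dQ Q X := by
  have h : DQ Q = (LinearMap.mulLeft k Q - LinearMap.mulRight k Q + dQ Q : AA k →ₗ[k] AA k) := by
    apply leib_ext
    · intro X Y
      exact DQ_mul Q X Y
    · intro X Y
      simp only [LinearMap.add_apply, LinearMap.sub_apply, LinearMap.mulLeft_apply,
        LinearMap.mulRight_apply, dQ_mul]
      noncomm_ring
    · intro a
      simp only [LinearMap.add_apply, LinearMap.sub_apply, LinearMap.mulLeft_apply,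
        LinearMap.mulRight_apply]
      fin_cases a
      · change DQ Q (lt k 0) = Q * lt k 0 - lt k 0 * Q + dQ Q (lt k 0)
        rw [DQ_lt_zero, dQ_zero, add_zero]
      · change DQ Q (lt k 1) = Q * lt k 1 - lt k 1 * Q + dQ Q (lt k 1)
        rw [DQ_lt_one, dQ_one]
        abel
  rw [h]
  rfl

lemma LQ_eq (Q X : AA k) : LQ Q X = Q * X + dQ Q X := by
  rw [LQ_apply, DQ_eq]
  abel

lemma dQ_ihara (P Q X : AA k) : dQ (iharaA P Q) X = dQ P (dQ Q X) - dQ Q (dQ P X) := by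
  have h : dQ (iharaA P Q) = (dQ P ∘ₗ dQ Q - dQ Q ∘ₗ dQ P : AA k →ₗ[k] AA k) := by
    apply leib_ext
    · intro X Y
      exact dQ_mul _ X Y
    · intro X Y
      simp only [LinearMap.sub_apply, LinearMap.comp_apply, dQ_mul, map_add]
      noncomm_ring
    · intro a
      simp only [LinearMap.sub_apply, LinearMap.comp_apply]
      fin_cases a
      · change dQ (iharaA P Q) (lt k 0) = dQ P (dQ Q (lt k 0)) - dQ Q (dQ P (lt k 0))
        rw [dQ_zero, dQ_zero, dQ_zero, map_zero, map_zero, sub_zero]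
      · change dQ (iharaA P Q) (lt k 1) = dQ P (dQ Q (lt k 1)) - dQ Q (dQ P (lt k 1))
        rw [dQ_one, dQ_one, dQ_one, map_sub, map_sub, dQ_mul, dQ_mul, dQ_mul, dQ_mul, dQ_one,
          dQ_one, iharaA_eq]
        noncomm_ring
  rw [h]
  rfl

lemma aux_ring {E : Type} [Ring E] (P Q X a b c d e f : E) :
    (P * Q - Q * P + a - b) * X + (c - d) =
      P * (Q * X + e) + (Q * f + a * X + c) - (Q * (P * X + f) + (P * e + b * X + d)) := by
  simp only [mul_add, add_mul, sub_mul, mul_assoc]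
  abel

/-- the operator of the Ihara bracket is the commutator of the operators -/
theorem LQ_ihara (P Q : AA k) :
    (LQ (iharaA P Q) : Module.End k (AA k)) =
      (LQ P : Module.End k (AA k)) * LQ Q - (LQ Q : Module.End k (AA k)) * LQ P := by
  apply LinearMap.ext
  intro X
  change LQ (iharaA P Q) X = LQ P (LQ Q X) - LQ Q (LQ P X)
  rw [LQ_eq (iharaA P Q) X, LQ_eq P (LQ Q X), LQ_eq Q (LQ P X), LQ_eq Q X, LQ_eq P X, dQ_ihara,
    iharaA_eq, map_add, map_add, dQ_mul, dQ_mul]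
  exact aux_ring P Q X (dQ P Q) (dQ Q P) (dQ P (dQ Q X)) (dQ Q (dQ P X)) (dQ Q X) (dQ P X)

lemma LQ_add (P Q : AA k) : (LQ (P + Q) : AA k →ₗ[k] AA k) = LQ P + LQ Q := by
  apply LinearMap.ext
  intro X
  have h : dQ (P + Q) = dQ P + dQ Q := by
    apply leib_ext
    · intro X Y
      exact dQ_mul _ X Y
    · intro X Y
      simp only [LinearMap.add_apply, dQ_mul]
      noncomm_ring
    · intro a
      simp only [LinearMap.add_apply]
      fin_cases a
      · change dQ (P + Q) (lt k 0) = dQ P (lt k 0) + dQ Q (lt k 0)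
        rw [dQ_zero, dQ_zero, dQ_zero, add_zero]
      · change dQ (P + Q) (lt k 1) = dQ P (lt k 1) + dQ Q (lt k 1)
        rw [dQ_one, dQ_one, dQ_one]
        noncomm_ring
  rw [LinearMap.add_apply, LQ_eq, LQ_eq, LQ_eq, h, LinearMap.add_apply]
  noncomm_ring

lemma LQ_smul (c : k) (Q : AA k) : (LQ (c • Q) : AA k →ₗ[k] AA k) = c • LQ Q := by
  apply LinearMap.ext
  intro X
  have h : dQ (c • Q) = c • dQ Q := by
    apply leib_ext
    · intro X Y
      exact dQ_mul _ X Y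
    · intro X Y
      simp only [LinearMap.smul_apply, dQ_mul, smul_add, mul_smul_comm, smul_mul_assoc]
    · intro a
      simp only [LinearMap.smul_apply]
      fin_cases a
      · change dQ (c • Q) (lt k 0) = c • dQ Q (lt k 0)
        rw [dQ_zero, dQ_zero, smul_zero]
      · change dQ (c • Q) (lt k 1) = c • dQ Q (lt k 1)
        rw [dQ_one, dQ_one, mul_smul_comm, smul_mul_assoc, smul_sub]
  rw [LinearMap.smul_apply, LQ_eq, LQ_eq, h, LinearMap.smul_apply, smul_mul_assoc, smul_add]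

lemma LQ_one (Q : AA k) : LQ Q 1 = Q := by
  rw [LQ_eq, mul_one]
  have : dQ Q 1 = 0 := derF_one _
  rw [this, add_zero]

end Op

section Base

variable {k l : Type} [CommRing k] [CommRing l] (θ : k →+* l)

lemma bcP_eq (Q : AA k) : bcP θ Q = MonoidAlgebra.mapRingHom (FreeMonoid (Fin 2)) θ Q := by
  ext w
  rw [MonoidAlgebra.coeff_mapRingHom]
  rfl

lemma bcP_add (P Q : AA k) : bcP θ (P + Q) = bcP θ P + bcP θ Q := by
  rw [bcP_eq, bcP_eq, bcP_eq, map_add]

lemma bcP_smul (c : k) (Q : AA k) : bcP θ (c • Q) = θ c • bcP θ Q := by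
  rw [bcP_eq, bcP_eq, mapR_smul]

lemma bcP_ihara (P Q : AA k) : bcP θ (iharaA P Q) = iharaA (bcP θ P) (bcP θ Q) := by
  rw [bcP_eq, bcP_eq, bcP_eq, iharaA_map]

lemma cf_bcP (Q : AA k) (w : List (Fin 2)) : cf (bcP θ Q) w = θ (cf Q w) := rfl

end Base

section Sum

variable {R : Type} [CommRing R] [Algebra ℚ R]

/-- the homomorphism from the polynomials in the `σ_i` to the operators -/
def opF (A : GFam R ℕ) : FA ℚ ℕ →ₐ[ℚ] Module.End R (AA R) :=
  EVn (fun i => (LQ (A.Q i) : Module.End R (AA R)))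

lemma opF_emb {σ : ℕ → F2 ℚ} {φ : FreeLieAlgebra ℚ ℕ →ₗ[ℚ] F2 ℚ}
    (hlie : ∀ x y, φ ⁅x, y⁆ = iharaBracket (φ x) (φ y))
    (hof : ∀ i, φ (FreeLieAlgebra.of ℚ i) = σ i) (A : GFam R ℕ)
    (hQ : ∀ i, A.Q i = bcP (algebraMap ℚ R) (assoc ℚ (σ i))) (P : FreeLieAlgebra ℚ ℕ) :
    opF A (embN ℚ P) = (LQ (bcP (algebraMap ℚ R) (assoc ℚ (φ P))) : Module.End R (AA R)) := by
  induction P using FL_induction with
  | hof i =>
    rw [embN_of, opF, EVn_letter, hQ, hof]
  | hadd x y hx hy =>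
    rw [map_add, map_add, hx, hy, map_add, map_add, bcP_add, LQ_add]
  | hsmul c x hx =>
    rw [map_smul, map_smul, hx, map_smul, map_smul, bcP_smul, LQ_smul]
    exact (algebraMap_smul R c _).symm
  | hlie x y hx hy =>
    rw [embN_lie, map_sub, map_mul, map_mul, hx, hy, hlie, assoc_ihara, bcP_ihara, LQ_ihara]

lemma opF_sum (A : GFam R ℕ) (X : FA ℚ ℕ) (s : Finset (List ℕ))
    (hs : ∀ w : List ℕ, toS X w ≠ 0 → w ∈ s) :
    opF A X = ∑ w ∈ s, algebraMap ℚ R (toS X w) • A.Lw w := by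
  have e1 : opF A X = X.coeff.sum (fun w c => c • A.Lw (FreeMonoid.toList w)) := by
    unfold opF EVn
    rw [MonoidAlgebra.lift_apply]
    refine Finsupp.sum_congr (fun w _ => ?_)
    rw [FreeMonoid.lift_apply]
    rfl
  rw [e1, Finsupp.sum]
  have e2 : ∑ w ∈ s, algebraMap ℚ R (toS X w) • A.Lw w =
      ∑ w ∈ X.coeff.support.image FreeMonoid.toList, algebraMap ℚ R (toS X w) • A.Lw w := by
    symm
    apply Finset.sum_subset
    · intro w hw
      rw [Finset.mem_image] at hw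
      obtain ⟨v, hv, rfl⟩ := hw
      apply hs
      rw [Finsupp.mem_support_iff] at hv
      exact hv
    · intro w _ hw
      have : toS X w = 0 := by
        by_contra h
        apply hw
        rw [Finset.mem_image]
        exact ⟨FreeMonoid.ofList w, Finsupp.mem_support_iff.2 h, rfl⟩
      rw [this, map_zero, zero_smul]
  rw [e2, Finset.sum_image (fun a _ b _ h => FreeMonoid.toList.injective h)]
  refine Finset.sum_congr rfl (fun w _ => ?_)
  exact (algebraMap_smul R _ _).symm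

/-- **the operator of an element of the free Lie algebra** -/
theorem sum_Lw {σ : ℕ → F2 ℚ} {φ : FreeLieAlgebra ℚ ℕ →ₗ[ℚ] F2 ℚ}
    (hlie : ∀ x y, φ ⁅x, y⁆ = iharaBracket (φ x) (φ y))
    (hof : ∀ i, φ (FreeLieAlgebra.of ℚ i) = σ i) (A : GFam R ℕ)
    (hQ : ∀ i, A.Q i = bcP (algebraMap ℚ R) (assoc ℚ (σ i))) (P : FreeLieAlgebra ℚ ℕ)
    (s : Finset (List ℕ)) (hs : ∀ w : List ℕ, sN P w ≠ 0 → w ∈ s) :
    ∑ w ∈ s, algebraMap ℚ R (sN P w) • A.Lw w =
      (LQ (bcP (algebraMap ℚ R) (assoc ℚ (φ P))) : Module.End R (AA R)) := by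
  rw [← opF_emb hlie hof A hQ P, opF_sum A (embN ℚ P) s hs]
  rfl

/-- **the value at `1`** -/
theorem sum_Lw_one {σ : ℕ → F2 ℚ} {φ : FreeLieAlgebra ℚ ℕ →ₗ[ℚ] F2 ℚ}
    (hlie : ∀ x y, φ ⁅x, y⁆ = iharaBracket (φ x) (φ y))
    (hof : ∀ i, φ (FreeLieAlgebra.of ℚ i) = σ i) (A : GFam R ℕ)
    (hQ : ∀ i, A.Q i = bcP (algebraMap ℚ R) (assoc ℚ (σ i))) (P : FreeLieAlgebra ℚ ℕ)
    (s : Finset (List ℕ)) (hs : ∀ w : List ℕ, sN P w ≠ 0 → w ∈ s) :
    ∑ w ∈ s, algebraMap ℚ R (sN P w) • A.Lw w 1 =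
      bcP (algebraMap ℚ R) (assoc ℚ (φ P)) := by
  have h := congrArg (fun T : Module.End R (AA R) => T 1) (sum_Lw hlie hof A hQ P s hs)
  simp only [LinearMap.sum_apply, LinearMap.smul_apply] at h
  rw [h]
  exact LQ_one _

lemma wt_eq (A : GFam R ℕ) (hd : ∀ i, A.dg i = 2 * i + 3) (w : List ℕ) : A.wt w = weight w := by
  unfold Alph.wt weight
  congr 1
  exact List.map_congr_left (fun i _ => hd i)

/-- **the value at `1`, for the elements of weight `n`, one coefficient** -/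
theorem sum_cf {σ : ℕ → F2 ℚ} {φ : FreeLieAlgebra ℚ ℕ →ₗ[ℚ] F2 ℚ}
    (hlie : ∀ x y, φ ⁅x, y⁆ = iharaBracket (φ x) (φ y))
    (hof : ∀ i, φ (FreeLieAlgebra.of ℚ i) = σ i) (A : GFam R ℕ)
    (hd : ∀ i, A.dg i = 2 * i + 3)
    (hQ : ∀ i, A.Q i = bcP (algebraMap ℚ R) (assoc ℚ (σ i))) (n : ℕ) (P : FreeLieAlgebra ℚ ℕ)
    (hP : P ∈ freeWt ℚ n) (v : List (Fin 2)) :
    ∑ w ∈ (A.wd (n + 1)).filter (fun w => A.wt w = n),
      algebraMap ℚ R (sN P w) * cf (A.Lw w 1) v = algebraMap ℚ R (cf (assoc ℚ (φ P)) v) := by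
  have hs : ∀ w : List ℕ, sN P w ≠ 0 → w ∈ (A.wd (n + 1)).filter (fun w => A.wt w = n) := by
    intro w hw
    have : weight w = n := by
      by_contra h
      exact hw (homW_sN hP w h)
    rw [Finset.mem_filter, Alph.mem_wd, wt_eq A hd, this]
    exact ⟨Nat.lt_succ_self n, rfl⟩
  have h := congrArg (fun X : AA R => cf X v) (sum_Lw_one hlie hof A hQ P _ hs)
  simp only [cf_sum, cf_smul] at h
  rw [h]
  rfl

end Sum

section Rat

/-- **LP**: the value at `1` of the operator of an element of the free Lie algebra, over `ℚ` -/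
theorem LP (σ : ℕ → F2 ℚ) (Φ : FreeLieAlgebra ℚ ℕ →ₗ[ℚ] F2 ℚ)
    (hlie : ∀ x y, Φ ⁅x, y⁆ = iharaBracket (Φ x) (Φ y))
    (hof : ∀ i, Φ (FreeLieAlgebra.of ℚ i) = σ i) (P : FreeLieAlgebra ℚ ℕ)
    (W : Finset (List ℕ)) (hW : ∀ w, w ∉ W → (embN ℚ P).coeff (FreeMonoid.ofList w) = 0) :
    ∑ w ∈ W, (embN ℚ P).coeff (FreeMonoid.ofList w) •
      ((w.map (fun i => (LQ (assoc ℚ (σ i)) : Module.End ℚ (AA ℚ)))).prod (1 : AA ℚ)) =
        assoc ℚ (Φ P) := by
  have key : ∀ P : FreeLieAlgebra ℚ ℕ,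
      (EVn (fun i => (LQ (assoc ℚ (σ i)) : Module.End ℚ (AA ℚ))) : FA ℚ ℕ →ₐ[ℚ] _) (embN ℚ P) =
        (LQ (assoc ℚ (Φ P)) : Module.End ℚ (AA ℚ)) := by
    intro P
    induction P using FL_induction with
    | hof i => rw [embN_of, EVn_letter, hof]
    | hadd x y hx hy => rw [map_add, map_add, hx, hy, map_add, map_add, LQ_add]
    | hsmul c x hx => rw [map_smul, map_smul, hx, map_smul, map_smul, LQ_smul]
    | hlie x y hx hy =>
      rw [embN_lie, map_sub, map_mul, map_mul, hx, hy, hlie, assoc_ihara, LQ_ihara]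
  have e1 : (EVn (fun i => (LQ (assoc ℚ (σ i)) : Module.End ℚ (AA ℚ))) : FA ℚ ℕ →ₐ[ℚ] _)
      (embN ℚ P) = ∑ w ∈ W, (embN ℚ P).coeff (FreeMonoid.ofList w) •
        (w.map (fun i => (LQ (assoc ℚ (σ i)) : Module.End ℚ (AA ℚ)))).prod := by
    have e2 : (EVn (fun i => (LQ (assoc ℚ (σ i)) : Module.End ℚ (AA ℚ))) : FA ℚ ℕ →ₐ[ℚ] _)
        (embN ℚ P) = (embN ℚ P).coeff.sum (fun w c => c •
          ((FreeMonoid.toList w).map (fun i => (LQ (assoc ℚ (σ i)) : Module.End ℚ (AA ℚ)))).prod) := by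
      unfold EVn
      rw [MonoidAlgebra.lift_apply]
      refine Finsupp.sum_congr (fun w _ => ?_)
      rw [FreeMonoid.lift_apply]
    rw [e2, Finsupp.sum]
    have e3 : ∑ w ∈ W, (embN ℚ P).coeff (FreeMonoid.ofList w) •
        (w.map (fun i => (LQ (assoc ℚ (σ i)) : Module.End ℚ (AA ℚ)))).prod =
        ∑ w ∈ (embN ℚ P).coeff.support.image FreeMonoid.toList,
          (embN ℚ P).coeff (FreeMonoid.ofList w) •
            (w.map (fun i => (LQ (assoc ℚ (σ i)) : Module.End ℚ (AA ℚ)))).prod := by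
      symm
      apply Finset.sum_subset
      · intro w hw
        rw [Finset.mem_image] at hw
        obtain ⟨v, hv, rfl⟩ := hw
        by_contra h
        exact (Finsupp.mem_support_iff.1 hv) (hW _ h)
      · intro w _ hw
        have : (embN ℚ P).coeff (FreeMonoid.ofList w) = 0 := by
          by_contra h
          apply hw
          rw [Finset.mem_image]
          exact ⟨FreeMonoid.ofList w, Finsupp.mem_support_iff.2 h, rfl⟩
        rw [this, zero_smul]
    rw [e3, Finset.sum_image (fun a _ b _ h => FreeMonoid.toList.injective h)]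
    rfl
  have h := congrArg (fun T : Module.End ℚ (AA ℚ) => T 1) (e1.symm.trans (key P))
  simp only [LinearMap.sum_apply, LinearMap.smul_apply] at h
  rw [h]
  exact LQ_one _

end Rat

end MP446U.LPH
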