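import Pool.Agent.Lib.MP_446dfa_ag.unc.OPB
import Pool.Agent.Lib.MP_446dfa_ag.unc.Spec

set_option linter.all false

/-!
# `act` and values
-/

noncomputable section

namespace MP446U

open MP446 MP446Y MP446Z MP446S MP446I OPB

theorem specOPA : SpecOPA := by
  intro R S _ A u f
  have h1 : ∀ (N : ℕ) (X : AA R) (v : List (Fin 2)), v.length < N →
      (∀ v' : List (Fin 2), v'.length < N → cf X v' = f v') → cf (A.TN N u X) v = A.act u f v :=
    fun N X v hv hX => cf_TN_eq_act A N u f X v hv hX
  have h2 : ∀ (N : ℕ) (v : List (Fin 2)), v.length < N →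
      cf (A.TN N u (trn N f)) v = A.act u f v := by
    intro N v hv
    refine h1 N _ v hv (fun v' hv' => ?_)
    rw [cf_trn, if_pos hv']
  refine ⟨h2, h1, ?_⟩
  intro N E _ _ I hI a ha b hb
  rw [val_wl hI ha hb, EV_wl' hI ha hb]
  refine Finset.sum_congr rfl (fun w hw => ?_)
  rw [h2 N w ((mem_wl N w).1 hw)]

end MP446U
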