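import Pool.Agent.Lib.MP_446dfa_ag.unc.OPB
import Pool.Agent.Lib.MP_446dfa_ag.unc.Spec

set_option linter.all false

/-!
# Composition
-/

noncomputable section

namespace MP446U

open MP446 MP446Y MP446Z MP446S MP446I OPB

/-- the splittings of the words of weight `< N` -/
lemma OPC.sum_split {R S : Type} [CommRing R] (A : Alph S) (N : ℕ) (F : List S → List S → R)
    (hF : ∀ p q : List S, N ≤ A.wt p + A.wt q → F p q = 0) :
    ∑ p ∈ A.wd N, ∑ q ∈ A.wd N, F p q =
      ∑ r ∈ A.wd N, ∑ i ∈ Finset.range (r.length + 1), F (r.take i) (r.drop i) := by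
  classical
  rw [← Finset.sum_product', Finset.sum_sigma']
  symm
  have h0 : ∑ x ∈ ((A.wd N) ×ˢ (A.wd N)).filter (fun x => A.wt x.1 + A.wt x.2 < N), F x.1 x.2 =
      ∑ x ∈ (A.wd N) ×ˢ (A.wd N), F x.1 x.2 := by
    refine Finset.sum_subset (Finset.filter_subset _ _) ?_
    intro x hx hx'
    apply hF
    by_contra hc
    exact hx' (Finset.mem_filter.2 ⟨hx, by omega⟩)
  rw [← h0]
  refine Finset.sum_bij' (fun x _ => (x.1.take x.2, x.1.drop x.2))
    (fun y _ => ⟨y.1 ++ y.2, y.1.length⟩) ?_ ?_ ?_ ?_ ?_
  · rintro ⟨r, i⟩ hr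
    rw [Finset.mem_sigma] at hr
    have h1 := (A.mem_wd N r).1 hr.1
    have h2 : A.wt (r.take i) + A.wt (r.drop i) = A.wt r := by
      rw [← wt_append, List.take_append_drop]
    rw [Finset.mem_filter, Finset.mem_product, A.mem_wd, A.mem_wd]
    dsimp only
    omega
  · rintro ⟨p, q⟩ hy
    rw [Finset.mem_filter] at hy
    rw [Finset.mem_sigma, A.mem_wd, wt_append, Finset.mem_range]
    refine ⟨hy.2, ?_⟩
    dsimp only
    rw [List.length_append]
    omega
  · rintro ⟨r, i⟩ hr
    rw [Finset.mem_sigma, Finset.mem_range] at hr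
    have h1 : i ≤ r.length := by
      have := hr.2
      dsimp only at this
      omega
    dsimp only
    rw [List.take_append_drop, List.length_take, min_eq_left h1]
  · rintro ⟨p, q⟩ hy
    dsimp only
    rw [List.take_left', List.drop_left']
    · rfl
    · rfl
  · rintro ⟨r, i⟩ hr
    rfl

theorem specOPC : SpecOPC := by
  intro R S _ A u v f
  constructor
  · funext w
    have h1 : A.act u (A.act v f) w =
        cf (A.TN (w.length + 1) u (A.TN (w.length + 1) v (trn (w.length + 1) f))) w := by
      symm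
      refine cf_TN_eq_act A _ u _ _ w (by omega) (fun v' hv' => ?_)
      refine cf_TN_eq_act A _ v f _ v' hv' (fun v'' hv'' => ?_)
      rw [cf_trn, if_pos hv'']
    rw [h1, cf_TN A, act_apply A]
    set M := w.length + 1 with hM
    set X := trn M f with hX
    have h2 : ∀ p ∈ A.wd M, u p * cf (A.Lw p (A.TN M v X)) w =
        ∑ q ∈ A.wd M, u p * v q * cf (A.Lw (p ++ q) X) w := by
      intro p _
      rw [TN_apply A, map_sum, cf_sum, Finset.mul_sum]
      refine Finset.sum_congr rfl (fun q _ => ?_)
      rw [map_smul, cf_smul, Lw_append A, Module.End.mul_apply]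
      ring
    rw [Finset.sum_congr rfl h2,
      OPC.sum_split A.toAlph M (fun p q => u p * v q * cf (A.Lw (p ++ q) X) w)]
    · refine Finset.sum_congr rfl (fun r _ => ?_)
      unfold conv
      rw [Finset.sum_mul]
      refine Finset.sum_congr rfl (fun i _ => ?_)
      rw [List.take_append_drop]
    · intro p q hpq
      rw [(hd_Lw A (p ++ q)).short X, mul_zero]
      rw [wt_append]
      omega
  · funext w
    rw [act_apply A]
    rw [Finset.sum_eq_single []]
    · rw [Lw_nil A, Ser.one_nil, one_mul, Module.End.one_apply, cf_trn, if_pos (by omega)]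
    · intro r _ hr
      rw [Ser.one_of_ne hr, zero_mul]
    · intro h
      exfalso
      apply h
      rw [Alph.mem_wd, wt_nil]
      omega

end MP446U
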