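import Pool.Agent.Lib.MP_446dfa_ag.unc.PRG

set_option linter.all false

/-!
# The action preserves associators
-/

noncomputable section

namespace MP446U

open MP446 MP446Y MP446Z MP446S MP446I

theorem specPRA (hPRD : SpecPRD) (hPRH : SpecPRH) (hPRG : SpecPRG) (hPRP : SpecPRP) : SpecPRA := by
  intro R S _ _ A u hu hdg N μ f hf
  have h1 : GlN R N f := ⟨hf.one, hf.gl⟩
  have h2 := hPRG R S A u hu hdg N f h1
  refine ⟨h2.1, h2.2, ?_, ?_, ?_⟩
  · exact hPRD R S A u hu hdg N f (fun E _ _ I hI => hf.dual E I hI)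
  · intro E _ _ I hI a ha b hb c hc habc ν hν
    exact hPRH R S A u hu hdg N ν f (fun E _ _ I hI a ha b hb c hc habc =>
      hf.hex E I hI a ha b hb c hc habc ν hν) E I hI a ha b hb c hc habc
  · exact hPRP R S A u hu hdg N f (fun E _ _ I hI => hf.pent E I hI)

end MP446U
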