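import Pool.Agent.Lib.MP_446dfa_ag.unc.Base
import Pool.Agent.Lib.MP_446dfa_ag.unc.Spec

set_option linter.all false

/-!
# PRD: the action preserves the 2-cycle relation
-/

noncomputable section

namespace MP446U.PRD

open MP446 MP446Y MP446Z MP446S MP446I MP446U

variable {R : Type} [CommRing R]

/-! ### The degree filtration -/

/-- the polynomials without terms of length `< k` -/
def Lo (R : Type) [CommRing R] (k : ℕ) : Submodule R (AA R) where
  carrier := {X | ∀ w : List (Fin 2), w.length < k → cf X w = 0}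
  add_mem' := fun hX hY w hw => by rw [cf_add, hX w hw, hY w hw, add_zero]
  zero_mem' := fun w _ => cf_zero w
  smul_mem' := fun c X hX w hw => by rw [cf_smul, hX w hw, mul_zero]

lemma mem_Lo {k : ℕ} {X : AA R} : X ∈ Lo R k ↔ ∀ w : List (Fin 2), w.length < k → cf X w = 0 :=
  Iff.rfl

lemma Lo_zero (X : AA R) : X ∈ Lo R 0 := fun w hw => absurd hw (Nat.not_lt_zero _)

lemma Lo_mono {k l : ℕ} (h : k ≤ l) {X : AA R} (hX : X ∈ Lo R l) : X ∈ Lo R k :=
  fun w hw => hX w (by omega)

lemma Lo_mul {a b : ℕ} {X Y : AA R} (hX : X ∈ Lo R a) (hY : Y ∈ Lo R b) :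
    X * Y ∈ Lo R (a + b) := by
  intro w hw
  rw [cf_mul]
  refine Finset.sum_eq_zero (fun i hi => ?_)
  rw [Finset.mem_range] at hi
  by_cases h : (w.take i).length < a
  · rw [hX _ h, zero_mul]
  · rw [hY _ (by rw [List.length_take] at h; rw [List.length_drop]; omega), mul_zero]

lemma Lo_ow (u : List (Fin 2)) : ow R u ∈ Lo R u.length := by
  intro w hw
  rw [cf_ow, if_neg]
  rintro rfl
  omega

lemma Lo_lt (i : Fin 2) : lt R i ∈ Lo R 1 := Lo_ow [i]

lemma Lo_word {a b : AA R} (ha : a ∈ Lo R 1) (hb : b ∈ Lo R 1) (w : List (Fin 2)) :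
    (w.map ![a, b]).prod ∈ Lo R w.length := by
  induction w with
  | nil => exact Lo_zero _
  | cons i w ih =>
    rw [List.map_cons, List.prod_cons, List.length_cons, add_comm]
    refine Lo_mul ?_ ih
    fin_cases i
    · exact ha
    · exact hb

lemma expand (X : AA R) : X = X.coeff.sum (fun w c => c • ow R (FreeMonoid.toList w)) := AA_expand X

/-- to prove that a linear map raises the degree it is enough to test it on the words -/
lemma Lo_lin {d k : ℕ} {T : AA R →ₗ[R] AA R} (h : ∀ u : List (Fin 2), T (ow R u) ∈ Lo R (u.length + d))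
    {X : AA R} (hX : X ∈ Lo R k) : T X ∈ Lo R (k + d) := by
  rw [expand X, Finsupp.sum, map_sum]
  refine Submodule.sum_mem _ (fun w hw => ?_)
  rw [map_smul]
  by_cases h1 : (FreeMonoid.toList w).length < k
  · have h2 : X.coeff w = 0 := hX _ h1
    rw [h2, zero_smul]
    exact Submodule.zero_mem _
  · exact Submodule.smul_mem _ _ (Lo_mono (by omega) (h _))

lemma Lo_EV {a b : AA R} (ha : a ∈ Lo R 1) (hb : b ∈ Lo R 1) {k : ℕ} {X : AA R} (hX : X ∈ Lo R k) :
    EV a b X ∈ Lo R k := by
  have := Lo_lin (d := 0) (T := (EV a b : AA R →ₐ[R] AA R).toLinearMap) (fun u => ?_) hX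
  · exact this
  · change EV a b (ow R u) ∈ _
    rw [EV_ow]
    exact Lo_word ha hb u

lemma Lo_DQ {d : ℕ} {Q : AA R} (hQ : Q ∈ Lo R d) {k : ℕ} {X : AA R} (hX : X ∈ Lo R k) :
    DQ Q X ∈ Lo R (k + d) := by
  refine Lo_lin (fun u => ?_) hX
  induction u with
  | nil =>
    rw [ow_nil, DQ_one]
    exact Submodule.zero_mem _
  | cons i u ih =>
    rw [ow_cons, DQ_mul]
    refine Submodule.add_mem _ ?_ ?_
    · have := Lo_mul (Lo_lt (R := R) i) ih
      exact Lo_mono (by simp only [List.length_cons]; omega) this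
    · have h1 : DQ Q (lt R i) ∈ Lo R (1 + d) := by
        fin_cases i
        · change DQ Q (lt R 0) ∈ _
          rw [DQ_lt_zero]
          refine Submodule.sub_mem _ ?_ (Lo_mul (Lo_lt 0) hQ)
          rw [add_comm]
          exact Lo_mul hQ (Lo_lt 0)
        · change DQ Q (lt R 1) ∈ _
          rw [DQ_lt_one]
          exact Submodule.zero_mem _
      exact Lo_mono (by simp only [List.length_cons]; omega) (Lo_mul h1 (Lo_ow u))

lemma Lo_LQ {d : ℕ} {Q : AA R} (hQ : Q ∈ Lo R d) {k : ℕ} {X : AA R} (hX : X ∈ Lo R k) :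
    LQ Q X ∈ Lo R (k + d) := by
  rw [LQ_apply]
  exact Submodule.add_mem _ (Lo_DQ hQ hX) (Lo_mul hX hQ)

lemma Hom_Lo {n : ℕ} {Q : AA R} (h : Hom n Q) : Q ∈ Lo R n := fun w hw => h w (by omega)

variable {S : Type} (A : GFam R S)

lemma Q_Lo (s : S) : A.Q s ∈ Lo R (A.dg s) := Hom_Lo (A.gq s).hom

/-- the operators `L_s` -/
def xL (s : S) : Module.End R (AA R) := LQ (A.Q s)

lemma Lw_eq (w : List S) : A.Lw w = opw (xL A) w := rfl

lemma opw_nil {V : Type} [AddCommGroup V] [Module R V] (x : S → Module.End R V) :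
    opw x [] = 1 := rfl

lemma opw_cons {V : Type} [AddCommGroup V] [Module R V] (x : S → Module.End R V) (s : S)
    (w : List S) (v : V) : opw x (s :: w) v = x s (opw x w v) := by
  unfold opw
  rw [List.map_cons, List.prod_cons]
  rfl

lemma wt_cons (s : S) (w : List S) : A.wt (s :: w) = A.dg s + A.wt w := by simp [Alph.wt]

lemma wt_nil : A.wt [] = 0 := rfl

lemma Lo_opw (w : List S) (X : AA R) : opw (xL A) w X ∈ Lo R (A.wt w) := by
  induction w with
  | nil => exact Lo_zero _
  | cons s w ih =>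
    rw [opw_cons, wt_cons, add_comm]
    exact Lo_LQ (Q_Lo A s) ih

/-! ### Operators modulo the terms of high degree -/

/-- a family of operators preserving the terms of length `≥ N` -/
structure Pres (N : ℕ) (T : S → Module.End R (AA R)) : Prop where
  pres : ∀ s X, X ∈ Lo R N → T s X ∈ Lo R N

/-- the operators on the quotient -/
def qo {N : ℕ} {T : S → Module.End R (AA R)} (h : Pres N T) (s : S) :
    Module.End R (AA R ⧸ Lo R N) := (Lo R N).mapQ (Lo R N) (T s) (fun X hX => h.pres s X hX)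

lemma qo_mk {N : ℕ} {T : S → Module.End R (AA R)} (h : Pres N T) (s : S) (X : AA R) :
    qo h s ((Lo R N).mkQ X) = (Lo R N).mkQ (T s X) := rfl

lemma opw_one {N : ℕ} {T : S → Module.End R (AA R)} (h : Pres N T) (h1 : ∀ s, T s 1 = 0)
    (r : List S) : opw (qo h) r ((Lo R N).mkQ 1) = if r = [] then (Lo R N).mkQ 1 else 0 := by
  induction r with
  | nil => rfl
  | cons s r ih =>
    rw [opw_cons, ih, if_neg (List.cons_ne_nil s r)]
    split_ifs
    · rw [qo_mk, h1, map_zero]
    · rw [map_zero]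

lemma sum_one {N : ℕ} (hN : 1 ≤ N) {T : S → Module.End R (AA R)} (h : Pres N T)
    (h1 : ∀ s, T s 1 = 0) {u : List S → R} (hu : u [] = 1) {Y : AA R ⧸ Lo R N}
    (hY : Y = (Lo R N).mkQ 1) : ∑ r ∈ A.wd N, u r • opw (qo h) r Y = (Lo R N).mkQ 1 := by
  classical
  subst hY
  rw [Finset.sum_eq_single ([] : List S)]
  · rw [opw_one h h1, if_pos rfl, hu, one_smul]
  · intro r _ hr
    rw [opw_one h h1, if_neg hr, smul_zero]
  · intro h2
    exfalso
    apply h2
    rw [A.mem_wd, wt_nil]
    omega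

lemma mkQ_eq {N : ℕ} {X Y : AA R} :
    (Lo R N).mkQ X = (Lo R N).mkQ Y ↔ ∀ w : List (Fin 2), w.length < N → cf X w = cf Y w := by
  rw [Submodule.mkQ_apply, Submodule.mkQ_apply, Submodule.Quotient.eq, mem_Lo]
  refine forall_congr' (fun w => imp_congr Iff.rfl ?_)
  rw [cf_sub, sub_eq_zero]

/-- identities modulo the terms of length `≥ N` can be tested in the matrix model -/
lemma mkQ_of_model {N : ℕ} {X Y : AA R}
    (h : EV (LR R N 0) (LR R N 1) X = EV (LR R N 0) (LR R N 1) Y) :
    (Lo R N).mkQ X = (Lo R N).mkQ Y := by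
  rw [mkQ_eq]
  intro w hw
  have hN : 1 ≤ N := by omega
  rw [← EV_LR_nil R N hN X w hw, ← EV_LR_nil R N hN Y w hw, h]

/-! ### Derivations -/

/-- a derivation applied to a value -/
lemma der_EV {E : Type} [Ring E] [Algebra R E] {δ : E →ₗ[R] E}
    (hδ : ∀ x y, δ (x * y) = x * δ y + δ x * y) {Q : AA R} {a b c : E}
    (ha : δ a = cm (EV a b Q + c) a) (hb : δ b = cm c b) (X : AA R) :
    δ (EV a b X) = EV a b (DQ Q X) + cm c (EV a b X) := by
  have h1 : δ 1 = 0 := by
    have := hδ 1 1
    simp only [mul_one, one_mul] at this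
    have h2 : δ 1 + δ 1 = δ 1 + 0 := by rw [add_zero]; exact this.symm
    exact add_left_cancel h2
  induction X using AA_lin with
  | how u =>
    induction u with
    | nil =>
      rw [ow_nil, map_one, DQ_one, map_zero, h1]
      simp [cm]
    | cons i u ih =>
      rw [ow_cons, map_mul, hδ, DQ_mul, map_add, map_mul, map_mul, ih]
      fin_cases i
      · change EV a b (lt R 0) * _ + δ (EV a b (lt R 0)) * _ = EV a b (lt R 0) * _ +
          EV a b (DQ Q (lt R 0)) * _ + cm c (EV a b (lt R 0) * _)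
        rw [EV_letter_zero, DQ_lt_zero, map_sub, map_mul, map_mul, EV_letter_zero, ha]
        simp only [cm, mul_add, add_mul, mul_sub, sub_mul, mul_assoc]
        abel
      · change EV a b (lt R 1) * _ + δ (EV a b (lt R 1)) * _ = EV a b (lt R 1) * _ +
          EV a b (DQ Q (lt R 1)) * _ + cm c (EV a b (lt R 1) * _)
        rw [EV_letter_one, DQ_lt_one, map_zero, hb]
        simp only [cm, mul_add, add_mul, mul_sub, sub_mul, mul_assoc, zero_mul, add_zero]
        abel
  | hadd X Y hX hY =>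
    rw [map_add, map_add, hX, hY, map_add, map_add]
    simp only [cm, mul_add, add_mul]
    abel
  | hsmul r X hX =>
    rw [map_smul, map_smul, hX, map_smul, map_smul, smul_add]
    simp only [cm, mul_smul_comm, smul_mul_assoc, smul_sub]

end MP446U.PRD

namespace MP446U

open MP446 MP446Y MP446Z MP446S MP446I MP446U PRD

/-- the bilinear map of the 2-cycle relation -/
def PRD.m2 (R : Type) [CommRing R] (N : ℕ) : AA R →ₗ[R] AA R →ₗ[R] AA R ⧸ Lo R N :=
  LinearMap.mk₂ R (fun X Y => (Lo R N).mkQ (X * EV (lt R 1) (lt R 0) Y))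
    (fun X X' Y => by rw [add_mul, map_add])
    (fun c X Y => by rw [smul_mul_assoc, map_smul])
    (fun X Y Y' => by rw [map_add, mul_add, map_add])
    (fun c X Y => by rw [map_smul, mul_smul_comm, map_smul])

theorem specPRD_of (hSH2 : SpecSH2) (hOPA : SpecOPA) : SpecPRD := by
  intro R S _ _ A u hu hdg N f hf E _ _ I hI a ha b hb
  rcases Nat.eq_zero_or_pos N with h0 | hN
  · subst h0
    have h1 : (1 : E) = 0 := hI.prod_zero [] (by simp) rfl
    have : Subsingleton E := subsingleton_of_zero_eq_one h1.symm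
    exact Subsingleton.elim _ _
  have hpres : Pres N (fun s => (DQ (A.Q s) : Module.End R (AA R))) :=
    ⟨fun s X hX => Lo_mono (by omega) (Lo_DQ (Q_Lo A s) hX)⟩
  have key := hSH2 R S A.toAlph u hu (AA R) (AA R) (AA R ⧸ Lo R N) (xL A) (xL A) (qo hpres)
    (m2 R N) ?_ N (trn N f) (trn N f) ?_
  · have e1 : m2 R N (trn N f) (trn N f) = (Lo R N).mkQ 1 := by
      change (Lo R N).mkQ _ = _
      apply mkQ_of_model
      have hm := IR_nil R N
      have h0 := LR_mem R N 0
      have h1 := LR_mem R N 1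
      rw [map_mul, EV_comp, EV_letter_one, EV_letter_zero, map_one, ← val_eq hm h0 h1,
        ← val_eq hm h1 h0]
      exact hf _ _ hm _ h0 _ h1
    rw [sum_one A hN hpres (fun s => DQ_one _) hu.one e1] at key
    have e2 : ∑ p ∈ A.wd N, u p • opw (xL A) p (trn N f) = A.TN N u (trn N f) := by
      unfold GFam.TN
      rw [LinearMap.sum_apply]
      rfl
    rw [e2] at key
    change _ = (Lo R N).mkQ (_ * _) at key
    rw [mkQ_eq] at key
    have h3 := EV_congr' hI ha hb (fun w hw => (key w hw).symm)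
    rw [map_mul, EV_comp, EV_letter_one, EV_letter_zero, map_one] at h3
    rw [(hOPA R S A u f).2.2 N E I hI a ha b hb, (hOPA R S A u f).2.2 N E I hI b hb a ha]
    exact h3
  · intro s X Y
    change qo hpres s ((Lo R N).mkQ _) = (Lo R N).mkQ _ + (Lo R N).mkQ _
    rw [qo_mk, ← map_add]
    congr 1
    have hanti := (A.gq s).anti (AA R) (lt R 0) (lt R 1)
    rw [EV_self] at hanti
    have h1 := der_EV (δ := DQ (A.Q s)) (fun x y => DQ_mul _ _ _) (Q := A.Q s) (a := lt R 1)
      (b := lt R 0) (c := A.Q s) ?_ ?_ Y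
    · rw [DQ_mul, h1]
      unfold xL
      rw [LQ_apply, LQ_apply, map_add, map_mul, hanti]
      simp only [cm]
      noncomm_ring
    · rw [hanti, DQ_lt_one]
      simp [cm]
    · rw [DQ_lt_zero]
      rfl
  · intro p q hpq
    change (Lo R N).mkQ _ = 0
    rw [Submodule.mkQ_apply, Submodule.Quotient.mk_eq_zero]
    exact Lo_mono hpq (Lo_mul (Lo_opw A p _) (Lo_EV (Lo_lt 1) (Lo_lt 0) (Lo_opw A q _)))

end MP446U
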