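import Pool.Agent.Lib.MP_446dfa_ag.unc.Spec
import Pool.Agent.Lib.MP_446dfa_ag.unc.Val

set_option linter.all false

/-!
# OPV: the value formula
-/

noncomputable section

namespace MP446U

open V MP446 MP446Y MP446Z MP446S MP446I

attribute [local instance 100] LieRing.ofAssociativeRing

namespace OPV

section Low

variable {R : Type} [CommRing R]

/-- all the words of `X` have length at least `m` -/
def LowR (m : ℕ) (X : AA R) : Prop := ∀ w : List (Fin 2), w.length < m → cf X w = 0

lemma LowR.mul {a b : ℕ} {X Y : AA R} (hX : LowR a X) (hY : LowR b Y) : LowR (a + b) (X * Y) := by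
  intro w hw
  rw [cf_mul]
  refine Finset.sum_eq_zero (fun i hi => ?_)
  rw [Finset.mem_range] at hi
  by_cases h : i < a
  · rw [hX, zero_mul]
    rw [List.length_take]
    omega
  · rw [hY, mul_zero]
    rw [List.length_drop]
    omega

lemma LowR.mono {a b : ℕ} {X : AA R} (hX : LowR a X) (h : b ≤ a) : LowR b X :=
  fun w hw => hX w (by omega)

lemma LowR.add {a : ℕ} {X Y : AA R} (hX : LowR a X) (hY : LowR a Y) : LowR a (X + Y) := by
  intro w hw
  rw [cf_add, hX w hw, hY w hw, add_zero]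

lemma LowR.sub {a : ℕ} {X Y : AA R} (hX : LowR a X) (hY : LowR a Y) : LowR a (X - Y) := by
  intro w hw
  rw [cf_sub, hX w hw, hY w hw, sub_zero]

lemma LowR.smul {a : ℕ} {X : AA R} (c : R) (hX : LowR a X) : LowR a (c • X) := by
  intro w hw
  rw [cf_smul, hX w hw, mul_zero]

lemma LowR.sum {ι : Type*} {a : ℕ} (s : Finset ι) {X : ι → AA R} (hX : ∀ i ∈ s, LowR a (X i)) :
    LowR a (∑ i ∈ s, X i) := by
  intro w hw
  rw [cf_sum]
  exact Finset.sum_eq_zero (fun i hi => hX i hi w hw)

lemma lowR_ow (u : List (Fin 2)) : LowR u.length (ow R u) := by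
  intro w hw
  rw [cf_ow, if_neg]
  rintro rfl
  exact lt_irrefl _ hw

lemma lowR_zero (X : AA R) : LowR 0 X := fun w hw => absurd hw (by omega)

lemma lowR_DQ_ow {n : ℕ} {Q : AA R} (hQ : LowR n Q) (u : List (Fin 2)) :
    LowR (u.length + n) (DQ Q (ow R u)) := by
  induction u with
  | nil =>
    rw [ow_nil, DQ_one]
    intro w _
    rfl
  | cons i u ih =>
    have h : ow R (i :: u) = lt R i * ow R u := by
      rw [lt, ← ow_append]
      rfl
    rw [h, DQ_mul]
    have h1 : LowR 1 (lt R i) := lowR_ow [i]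
    refine LowR.add ?_ ?_
    · have := h1.mul ih
      exact this.mono (by rw [List.length_cons]; omega)
    · have h2 : LowR (n + 1) (DQ Q (lt R i)) := by
        fin_cases i
        · change LowR _ (DQ Q (lt R 0))
          rw [DQ_lt_zero]
          exact (hQ.mul (lowR_ow [0])).sub (((lowR_ow [0]).mul hQ).mono (by simp [add_comm]))
        · change LowR _ (DQ Q (lt R 1))
          rw [DQ_lt_one]
          intro w _
          rfl
      have := h2.mul (lowR_ow u)
      exact this.mono (by rw [List.length_cons]; omega)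

lemma lowR_DQ {n : ℕ} {Q : AA R} (hQ : LowR n Q) {m : ℕ} {X : AA R} (hX : LowR m X) :
    LowR (m + n) (DQ Q X) := by
  rw [AA_expand X, Finsupp.sum, map_sum]
  refine LowR.sum _ (fun w hw => ?_)
  rw [map_smul]
  refine LowR.smul _ ((lowR_DQ_ow hQ _).mono ?_)
  by_contra h
  have h1 : (FreeMonoid.toList w).length < m := by omega
  have h2 := hX _ h1
  exact (Finsupp.mem_support_iff.1 hw) h2

lemma lowR_LQ {n : ℕ} {Q : AA R} (hQ : LowR n Q) {m : ℕ} {X : AA R} (hX : LowR m X) :
    LowR (m + n) (LQ Q X) := by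
  rw [LQ_apply]
  exact (lowR_DQ hQ hX).add (hX.mul hQ)

lemma lowR_of_hom {n : ℕ} {Q : AA R} (hQ : Hom n Q) : LowR n Q :=
  fun w hw => hQ w (by omega)

end Low

section Main

variable {R S : Type} [CommRing R] (A : GFam R S)

lemma lowR_opD (p : List S) {m : ℕ} {X : AA R} (hX : LowR m X) :
    LowR (m + A.wt p) (opw (fun s => (DQ (A.Q s) : Module.End R (AA R))) p X) := by
  induction p with
  | nil => simpa [opw, Alph.wt] using hX
  | cons s p ih =>
    have h : opw (fun s => (DQ (A.Q s) : Module.End R (AA R))) (s :: p) X =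
        DQ (A.Q s) (opw (fun s => (DQ (A.Q s) : Module.End R (AA R))) p X) := rfl
    rw [h]
    refine (lowR_DQ (lowR_of_hom (A.gq s).hom) ih).mono ?_
    simp [Alph.wt]
    omega

lemma lowR_opL (p : List S) {m : ℕ} {X : AA R} (hX : LowR m X) :
    LowR (m + A.wt p) (opw (fun s => (LQ (A.Q s) : Module.End R (AA R))) p X) := by
  induction p with
  | nil => simpa [opw, Alph.wt] using hX
  | cons s p ih =>
    have h : opw (fun s => (LQ (A.Q s) : Module.End R (AA R))) (s :: p) X =
        LQ (A.Q s) (opw (fun s => (LQ (A.Q s) : Module.End R (AA R))) p X) := rfl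
    rw [h]
    refine (lowR_LQ (lowR_of_hom (A.gq s).hom) ih).mono ?_
    simp [Alph.wt]
    omega

/-- the polynomials without words of length `< N` -/
def JN (R : Type) [CommRing R] (N : ℕ) : Submodule R (AA R) where
  carrier := {X | LowR N X}
  add_mem' := fun hX hY => hX.add hY
  zero_mem' := fun w _ => rfl
  smul_mem' := fun c _ hX => hX.smul c

lemma mem_JN {N : ℕ} {X : AA R} : X ∈ JN R N ↔ LowR N X := Iff.rfl

/-- the operator on the quotient -/
def quo (N : ℕ) (L : Module.End R (AA R)) (hL : ∀ X, LowR N X → LowR N (L X)) :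
    Module.End R (AA R ⧸ JN R N) := (JN R N).mapQ (JN R N) L hL

lemma opw_quo (N : ℕ) (L : S → Module.End R (AA R)) (hL : ∀ s X, LowR N X → LowR N (L s X))
    (r : List S) (Z : AA R) :
    opw (fun s => quo N (L s) (hL s)) r ((JN R N).mkQ Z) = (JN R N).mkQ (opw L r Z) := by
  induction r with
  | nil => rfl
  | cons s r ih =>
    have h1 : opw (fun s => quo N (L s) (hL s)) (s :: r) ((JN R N).mkQ Z) =
      quo N (L s) (hL s) (opw (fun s => quo N (L s) (hL s)) r ((JN R N).mkQ Z)) := rfl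
    have h2 : opw L (s :: r) Z = L s (opw L r Z) := rfl
    rw [h1, h2, ih]
    rfl

lemma lowDs (s : S) {m : ℕ} {X : AA R} (hX : LowR m X) : LowR m (DQ (A.Q s) X) :=
  (lowR_DQ (lowR_of_hom (A.gq s).hom) hX).mono (by omega)

lemma lowLs (s : S) {m : ℕ} {X : AA R} (hX : LowR m X) : LowR m (LQ (A.Q s) X) :=
  (lowR_LQ (lowR_of_hom (A.gq s).hom) hX).mono (by omega)

/-- the derivation part -/
def TD (N : ℕ) (u : List S → R) : Module.End R (AA R) :=
  ∑ w ∈ A.wd N, u w • opw (fun s => (DQ (A.Q s) : Module.End R (AA R))) w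

lemma TD_apply (N : ℕ) (u : List S → R) (X : AA R) : TD A N u X =
    ∑ w ∈ A.wd N, u w • opw (fun s => (DQ (A.Q s) : Module.End R (AA R))) w X := by
  unfold TD
  rw [LinearMap.sum_apply]
  rfl

lemma TN_apply (N : ℕ) (u : List S → R) (X : AA R) : A.TN N u X =
    ∑ w ∈ A.wd N, u w • opw (fun s => (LQ (A.Q s) : Module.End R (AA R))) w X := by
  unfold GFam.TN
  rw [LinearMap.sum_apply]
  rfl

lemma T_mul (hSH2 : SpecSH2) {u : List S → R} (hu : IsGroupLike u) (N : ℕ) (X Y : AA R) :
    LowR N (A.TN N u (X * Y) - TD A N u X * A.TN N u Y) := by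
  have h := hSH2 R S A.toAlph u hu (AA R) (AA R) (AA R ⧸ JN R N)
    (fun s => (DQ (A.Q s) : Module.End R (AA R))) (fun s => (LQ (A.Q s) : Module.End R (AA R)))
    (fun s => quo N (LQ (A.Q s)) (fun X hX => lowLs A s hX))
    ((LinearMap.mul R (AA R)).compr₂ (JN R N).mkQ) ?_ N X Y ?_
  · rw [← mem_JN, ← Submodule.Quotient.mk_eq_zero, ← Submodule.mkQ_apply, map_sub, sub_eq_zero,
      TN_apply, TD_apply, TN_apply, map_sum]
    simp only [map_smul]
    simp only [← opw_quo N (fun s => (LQ (A.Q s) : Module.End R (AA R)))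
      (fun s X hX => lowLs A s hX)]
    exact h
  · intro s v w
    simp only [LinearMap.compr₂_apply, LinearMap.mul_apply']
    rw [← map_add]
    change (JN R N).mkQ (LQ (A.Q s) (v * w)) = _
    congr 1
    rw [LQ_apply, LQ_apply, DQ_mul]
    noncomm_ring
  · intro p q hpq
    simp only [LinearMap.compr₂_apply, LinearMap.mul_apply']
    rw [Submodule.mkQ_apply, Submodule.Quotient.mk_eq_zero, mem_JN]
    have h1 := lowR_opD A p (lowR_zero X)
    have h2 := lowR_opL A q (lowR_zero Y)
    exact (h1.mul h2).mono (by simpa using hpq)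

lemma TD_mul (hSH2 : SpecSH2) {u : List S → R} (hu : IsGroupLike u) (N : ℕ) (X Y : AA R) :
    LowR N (TD A N u (X * Y) - TD A N u X * TD A N u Y) := by
  have h := hSH2 R S A.toAlph u hu (AA R) (AA R) (AA R ⧸ JN R N)
    (fun s => (DQ (A.Q s) : Module.End R (AA R))) (fun s => (DQ (A.Q s) : Module.End R (AA R)))
    (fun s => quo N (DQ (A.Q s)) (fun X hX => lowDs A s hX))
    ((LinearMap.mul R (AA R)).compr₂ (JN R N).mkQ) ?_ N X Y ?_
  · rw [← mem_JN, ← Submodule.Quotient.mk_eq_zero, ← Submodule.mkQ_apply, map_sub, sub_eq_zero,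
      TD_apply, TD_apply, TD_apply, map_sum]
    simp only [map_smul]
    simp only [← opw_quo N (fun s => (DQ (A.Q s) : Module.End R (AA R)))
      (fun s X hX => lowDs A s hX)]
    exact h
  · intro s v w
    simp only [LinearMap.compr₂_apply, LinearMap.mul_apply']
    rw [← map_add]
    change (JN R N).mkQ (DQ (A.Q s) (v * w)) = _
    congr 1
    rw [DQ_mul, add_comm]
  · intro p q hpq
    simp only [LinearMap.compr₂_apply, LinearMap.mul_apply']
    rw [Submodule.mkQ_apply, Submodule.Quotient.mk_eq_zero, mem_JN]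
    have h1 := lowR_opD A p (lowR_zero X)
    have h2 := lowR_opD A q (lowR_zero Y)
    exact (h1.mul h2).mono (by simpa using hpq)

lemma opw_DQ_one (w : List S) (hw : w ≠ []) :
    opw (fun s => (DQ (A.Q s) : Module.End R (AA R))) w 1 = 0 := by
  induction w with
  | nil => exact absurd rfl hw
  | cons s w ih =>
    have h : opw (fun s => (DQ (A.Q s) : Module.End R (AA R))) (s :: w) 1 =
        DQ (A.Q s) (opw (fun s => (DQ (A.Q s) : Module.End R (AA R))) w 1) := rfl
    rw [h]
    by_cases h2 : w = []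
    · subst h2
      exact DQ_one _
    · rw [ih h2, map_zero]

lemma opw_DQ_y (w : List S) (hw : w ≠ []) :
    opw (fun s => (DQ (A.Q s) : Module.End R (AA R))) w (lt R 1) = 0 := by
  induction w with
  | nil => exact absurd rfl hw
  | cons s w ih =>
    have h : opw (fun s => (DQ (A.Q s) : Module.End R (AA R))) (s :: w) (lt R 1) =
        DQ (A.Q s) (opw (fun s => (DQ (A.Q s) : Module.End R (AA R))) w (lt R 1)) := rfl
    rw [h]
    by_cases h2 : w = []
    · subst h2
      exact DQ_lt_one _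
    · rw [ih h2, map_zero]

lemma opw_LQ_x (w : List S) (X : AA R) :
    opw (fun s => (LQ (A.Q s) : Module.End R (AA R))) w (X * lt R 0) =
      opw (fun s => (LQ (A.Q s) : Module.End R (AA R))) w X * lt R 0 := by
  induction w with
  | nil => rfl
  | cons s w ih =>
    have h : ∀ Z, opw (fun s => (LQ (A.Q s) : Module.End R (AA R))) (s :: w) Z =
        LQ (A.Q s) (opw (fun s => (LQ (A.Q s) : Module.End R (AA R))) w Z) := fun _ => rfl
    rw [h, h, ih, LQ_apply, LQ_apply, DQ_mul, DQ_lt_zero]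
    noncomm_ring

lemma nil_mem_wd {N : ℕ} (hN : 0 < N) : ([] : List S) ∈ A.wd N := by
  rw [Alph.mem_wd]
  simpa [Alph.wt] using hN

lemma TD_one {u : List S → R} (hu : u [] = 1) {N : ℕ} (hN : 0 < N) : TD A N u 1 = 1 := by
  rw [TD_apply, Finset.sum_eq_single_of_mem [] (nil_mem_wd A hN)]
  · rw [hu, one_smul]
    rfl
  · intro w _ hw
    rw [opw_DQ_one A w hw, smul_zero]

lemma TD_y {u : List S → R} (hu : u [] = 1) {N : ℕ} (hN : 0 < N) :
    TD A N u (lt R 1) = lt R 1 := by
  rw [TD_apply, Finset.sum_eq_single_of_mem [] (nil_mem_wd A hN)]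
  · rw [hu, one_smul]
    rfl
  · intro w _ hw
    rw [opw_DQ_y A w hw, smul_zero]

lemma TN_x (u : List S → R) (N : ℕ) : A.TN N u (lt R 0) = A.TN N u 1 * lt R 0 := by
  have h : lt R 0 = (1 : AA R) * lt R 0 := (one_mul _).symm
  rw [h, TN_apply, TN_apply, Finset.sum_mul, one_mul]
  refine Finset.sum_congr rfl (fun w _ => ?_)
  have := opw_LQ_x A w 1
  rw [one_mul] at this
  rw [this, smul_mul_assoc]

lemma trn_one {N : ℕ} (hN : 0 < N) : trn N (one1 R) = 1 := by
  apply MP446S.AA_ext
  intro w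
  rw [cf_trn, cf_one]
  by_cases hw : w = []
  · subst hw
    rw [if_pos (by simpa using hN), if_pos rfl]
    rfl
  · rw [if_neg hw]
    split_ifs with h
    · exact Ser.one_of_ne hw
    · rfl

/-- inverse of a unit `1 + i` -/
lemma unit_inv_mem {E : Type} [Ring E] [Algebra R E] {N : ℕ} {I : Submodule R E}
    (h : IsNilp N I) (k : Eˣ) (hk : (k : E) - 1 ∈ I) : ((k⁻¹ : Eˣ) : E) - 1 ∈ I := by
  set i : E := (k : E) - 1 with hi
  have hpow : ∀ j : ℕ, 1 ≤ j → (-i) ^ j ∈ I := by
    intro j hj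
    induction j with
    | zero => omega
    | succ j ih =>
      by_cases h0 : j = 0
      · subst h0
        simpa using I.neg_mem hk
      · rw [pow_succ]
        exact h.mul_mem _ (ih (by omega)) _ (I.neg_mem hk)
  have hz : (-i) ^ (N + 1) = 0 := nilp_pow_zero h (I.neg_mem hk) (by omega)
  have hg : (k : E) * ∑ j ∈ Finset.range (N + 1), (-i) ^ j = 1 := by
    have h1 : (k : E) = 1 - (-i) := by rw [hi]; abel
    rw [h1, mul_neg_geom_sum, hz, sub_zero]
  have hk2 : ((k⁻¹ : Eˣ) : E) = ∑ j ∈ Finset.range (N + 1), (-i) ^ j := by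
    calc ((k⁻¹ : Eˣ) : E) = (k⁻¹ : Eˣ) * ((k : E) * ∑ j ∈ Finset.range (N + 1), (-i) ^ j) := by
          rw [hg, mul_one]
      _ = _ := by rw [← mul_assoc, Units.inv_mul, one_mul]
  rw [hk2, Finset.sum_range_succ']
  rw [pow_zero, add_sub_cancel_right]
  exact I.sum_mem (fun j _ => hpow _ (by omega))

lemma conj_mem {E : Type} [Ring E] [Algebra R E] {N : ℕ} {I : Submodule R E}
    (h : IsNilp N I) (k : Eˣ) (hk : (k : E) - 1 ∈ I) {a : E} (ha : a ∈ I) :
    (k : E) * a * (k⁻¹ : Eˣ) ∈ I := by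
  have h2 := unit_inv_mem h k hk
  have e : (k : E) * a * (k⁻¹ : Eˣ) = ((k : E) - 1) * a * (((k⁻¹ : Eˣ) : E) - 1) +
      ((k : E) - 1) * a + a * (((k⁻¹ : Eˣ) : E) - 1) + a := by noncomm_ring
  rw [e]
  have h3 := h.mul_mem _ hk _ ha
  exact I.add_mem (I.add_mem (I.add_mem (h.mul_mem _ h3 _ h2) h3) (h.mul_mem _ ha _ h2)) ha

/-- the constant term of `act u 1` -/
lemma act_one_nil {u : List S → R} (hu : u [] = 1) : A.act u (one1 R) [] = 1 := by
  unfold GFam.act
  rw [List.length_nil, zero_add, trn_one (by omega), TN_apply, cf_sum]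
  rw [Finset.sum_eq_single_of_mem [] (nil_mem_wd A (by omega))]
  · rw [hu, one_smul]
    change cf 1 [] = 1
    rw [cf_one, if_pos rfl]
  · intro w _ hw
    rw [cf_smul, lowR_opL A w (lowR_zero 1), mul_zero]
    cases w with
    | nil => exact absurd rfl hw
    | cons s w =>
      have := A.pos s
      simp [Alph.wt]
      omega

end Main

end OPV

open OPV in
theorem specOPV (hOPA : SpecOPA) (hSH2 : SpecSH2) : SpecOPV := by
  intro R S _ A u hu f N E _ _ I hI a ha b hb k hk
  by_cases hN : N = 0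
  · subst hN
    have h1 : (1 : E) = 0 := by
      simpa using hI.prod_zero [] (by simp) rfl
    have h2 : ∀ z : E, z = 0 := fun z => by rw [← mul_one z, h1, mul_zero]
    rw [h2 (val (A.act u f) a b), h2 (val f _ b * k)]
  have hN : 0 < N := Nat.pos_of_ne_zero hN
  have hu1 := hu.one
  have hval : ∀ g : List (Fin 2) → R, val (A.act u g) a b = EV a b (A.TN N u (trn N g)) :=
    fun g => (hOPA R S A u g).2.2 N E I hI a ha b hb
  have hlow : ∀ X : AA R, LowR N X → EV a b X = 0 := fun X hX =>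
    EV_zero_of_short hI ha hb hX
  -- `k`
  have hk1 : (k : E) = EV a b (A.TN N u 1) := by
    rw [hk, hval, trn_one hN]
  have hkI : (k : E) - 1 ∈ I := by
    rw [hk]
    exact val_sub_one_mem hI ha hb (act_one_nil A hu1)
  have hconj : (k : E) * a * (k⁻¹ : Eˣ) ∈ I := conj_mem hI k hkI ha
  -- the homomorphism
  have hmulT : ∀ X Y : AA R, EV a b (A.TN N u (X * Y)) =
      EV a b (TD A N u X) * EV a b (A.TN N u Y) := by
    intro X Y
    have := hlow _ (T_mul A hSH2 hu N X Y)
    rw [map_sub, sub_eq_zero] at this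
    rw [this, map_mul]
  have hmulD : ∀ X Y : AA R, EV a b (TD A N u (X * Y)) =
      EV a b (TD A N u X) * EV a b (TD A N u Y) := by
    intro X Y
    have := hlow _ (TD_mul A hSH2 hu N X Y)
    rw [map_sub, sub_eq_zero] at this
    rw [this, map_mul]
  let δ : AA R →ₐ[R] E := AlgHom.ofLinearMap ((EV a b).toLinearMap ∘ₗ TD A N u)
    (by
      change EV a b (TD A N u 1) = 1
      rw [TD_one A hu1 hN, map_one]) (fun X Y => hmulD X Y)
  have hδ : ∀ X, δ X = EV a b (TD A N u X) := fun _ => rfl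
  have hx : δ (lt R 0) = (k : E) * a * (k⁻¹ : Eˣ) := by
    have h1 : EV a b (A.TN N u (lt R 0)) = (k : E) * a := by
      rw [TN_x, map_mul, EV_letter_zero, ← hk1]
    have h2 : EV a b (A.TN N u (lt R 0)) = δ (lt R 0) * k := by
      have := hmulT (lt R 0) 1
      rw [mul_one] at this
      rw [this, hδ, ← hk1]
    rw [← h1, h2, mul_assoc, Units.mul_inv, mul_one]
  have hy : δ (lt R 1) = b := by
    rw [hδ, TD_y A hu1 hN, EV_letter_one]
  have hδ2 : ∀ X, δ X = EV ((k : E) * a * (k⁻¹ : Eˣ)) b X := fun X => EV_unique δ hx hy X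
  rw [hval, val_eq_EV hI hconj hb f le_rfl, ← hδ2]
  have := hmulT (trn N f) 1
  rw [mul_one] at this
  rw [this, hδ, ← hk1]

end MP446U
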