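import Pool.Agent.Lib.MP_446dfa_ag.unc.GLE
import Pool.Agent.Lib.MP_446dfa_ag.unc.OPV

set_option linter.all false

/-!
# The action preserves group-like series
-/

noncomputable section

namespace MP446U.PRG

open MP446 MP446Y MP446Z MP446S MP446I MP446U.V MP446U.Lb MP446U.OPV
open scoped TensorProduct

section Cop

variable {R : Type} [CommRing R]

/-- the coproduct of the polynomials -/
def Dl (R : Type) [CommRing R] : AA R →ₐ[R] AA R ⊗[R] AA R :=
  EV (lt R 0 ⊗ₜ[R] 1 + 1 ⊗ₜ[R] lt R 0) (lt R 1 ⊗ₜ[R] 1 + 1 ⊗ₜ[R] lt R 1)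

lemma Dl_zero : Dl R (lt R 0) = lt R 0 ⊗ₜ[R] 1 + 1 ⊗ₜ[R] lt R 0 := EV_letter_zero _ _
lemma Dl_one : Dl R (lt R 1) = lt R 1 ⊗ₜ[R] 1 + 1 ⊗ₜ[R] lt R 1 := EV_letter_one _ _

/-- `D ⊗ 1 + 1 ⊗ D` -/
def bi (D : AA R →ₗ[R] AA R) : Module.End R (AA R ⊗[R] AA R) :=
  LinearMap.rTensor (AA R) D + LinearMap.lTensor (AA R) D

lemma bi_tmul (D : AA R →ₗ[R] AA R) (X Y : AA R) :
    bi D (X ⊗ₜ[R] Y) = D X ⊗ₜ[R] Y + X ⊗ₜ[R] D Y := by
  unfold bi
  rw [LinearMap.add_apply, LinearMap.rTensor_tmul, LinearMap.lTensor_tmul]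

lemma bi_mul (Q : AA R) (P Z : AA R ⊗[R] AA R) :
    bi (LQ Q) (P * Z) =
      bi (DQ Q) P * Z + P * bi (LQ Q) Z := by
  have hL : ∀ X Y : AA R, LQ Q (X * Y) = DQ Q X * Y + X * LQ Q Y := by
    intro X Y
    rw [LQ_apply, LQ_apply, DQ_mul, mul_add, mul_assoc]
    abel
  induction P using TensorProduct.induction_on with
  | zero => simp
  | add P P' h h' =>
    rw [add_mul, map_add, h, h', map_add, add_mul, add_mul]
    abel
  | tmul p p' =>
    induction Z using TensorProduct.induction_on with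
    | zero => simp
    | add Z Z' h h' =>
      rw [mul_add, map_add, h, h', map_add, mul_add, mul_add]
      abel
    | tmul z z' =>
      rw [Algebra.TensorProduct.tmul_mul_tmul, bi_tmul, bi_tmul, bi_tmul, add_mul, mul_add,
        Algebra.TensorProduct.tmul_mul_tmul, Algebra.TensorProduct.tmul_mul_tmul,
        Algebra.TensorProduct.tmul_mul_tmul, Algebra.TensorProduct.tmul_mul_tmul, hL, hL,
        TensorProduct.add_tmul, TensorProduct.tmul_add]
      abel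

variable {n : ℕ} {Q : AA R}

lemma com2_tens : Com2 (lt R 0 ⊗ₜ[R] (1 : AA R)) (lt R 1 ⊗ₜ[R] (1 : AA R))
    ((1 : AA R) ⊗ₜ[R] lt R 0) ((1 : AA R) ⊗ₜ[R] lt R 1) := by
  constructor <;>
  · rw [Algebra.TensorProduct.tmul_mul_tmul, Algebra.TensorProduct.tmul_mul_tmul]
    simp only [one_mul, mul_one]

lemma Dl_Q (hQ : IsGQ n Q) : Dl R Q = Q ⊗ₜ[R] 1 + 1 ⊗ₜ[R] Q := by
  unfold Dl
  rw [hQ.prim (AA R ⊗[R] AA R) _ _ _ _ com2_tens]
  have e1 : EV (lt R 0 ⊗ₜ[R] (1 : AA R)) (lt R 1 ⊗ₜ[R] (1 : AA R)) Q = Q ⊗ₜ[R] 1 := by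
    have := map_EV (Algebra.TensorProduct.includeLeft : AA R →ₐ[R] AA R ⊗[R] AA R)
      (lt R 0) (lt R 1) Q
    rw [EV_self] at this
    exact this.symm
  have e2 : EV ((1 : AA R) ⊗ₜ[R] lt R 0) ((1 : AA R) ⊗ₜ[R] lt R 1) Q = 1 ⊗ₜ[R] Q := by
    have := map_EV (Algebra.TensorProduct.includeRight : AA R →ₐ[R] AA R ⊗[R] AA R)
      (lt R 0) (lt R 1) Q
    rw [EV_self] at this
    exact this.symm
  rw [e1, e2]

lemma Dl_DQ_zero (hQ : IsGQ n Q) : Dl R (DQ Q (lt R 0)) = bi (DQ Q) (Dl R (lt R 0)) := by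
  have e1 : Dl R (DQ Q (lt R 0)) = Dl R Q * Dl R (lt R 0) - Dl R (lt R 0) * Dl R Q := by
    rw [DQ_lt_zero, map_sub, map_mul, map_mul]
  have e2 : bi (DQ Q) (Dl R (lt R 0)) = (Q * lt R 0 - lt R 0 * Q) ⊗ₜ[R] 1 +
      1 ⊗ₜ[R] (Q * lt R 0 - lt R 0 * Q) := by
    rw [Dl_zero, map_add, bi_tmul, bi_tmul, DQ_one, DQ_lt_zero, TensorProduct.tmul_zero,
      TensorProduct.zero_tmul, add_zero, zero_add]
  rw [e1, e2, Dl_Q hQ, Dl_zero, add_mul, mul_add, mul_add, add_mul, mul_add, mul_add]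
  rw [Algebra.TensorProduct.tmul_mul_tmul, Algebra.TensorProduct.tmul_mul_tmul,
    Algebra.TensorProduct.tmul_mul_tmul, Algebra.TensorProduct.tmul_mul_tmul,
    Algebra.TensorProduct.tmul_mul_tmul, Algebra.TensorProduct.tmul_mul_tmul,
    Algebra.TensorProduct.tmul_mul_tmul, Algebra.TensorProduct.tmul_mul_tmul]
  rw [TensorProduct.sub_tmul, TensorProduct.tmul_sub]
  simp only [one_mul, mul_one]
  abel

lemma Dl_DQ_one : Dl R (DQ Q (lt R 1)) = bi (DQ Q) (Dl R (lt R 1)) := by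
  have e2 : bi (DQ Q) (Dl R (lt R 1)) = 0 := by
    rw [Dl_one, map_add, bi_tmul, bi_tmul, DQ_one, DQ_lt_one, TensorProduct.tmul_zero,
      TensorProduct.zero_tmul, TensorProduct.tmul_zero,
      TensorProduct.zero_tmul, add_zero, zero_add]
  rw [e2, DQ_lt_one, map_zero]

lemma Dl_DQ (hQ : IsGQ n Q) (i : Fin 2) : Dl R (DQ Q (lt R i)) = bi (DQ Q) (Dl R (lt R i)) := by
  match i with
  | 0 => exact Dl_DQ_zero hQ
  | 1 => exact Dl_DQ_one

/-- the coproduct intertwines -/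
lemma Dl_LQ (hQ : IsGQ n Q) (X : AA R) : Dl R (LQ Q X) = bi (LQ Q) (Dl R X) := by
  have hL1 : LQ Q (1 : AA R) = Q := by rw [LQ_apply, DQ_one, zero_add, one_mul]
  induction X using FA_induction with
  | h1 =>
    rw [hL1, map_one, Algebra.TensorProduct.one_def, bi_tmul, hL1, Dl_Q hQ]
  | hmul i X ih =>
    change Dl R (LQ Q (lt R i * X)) = bi (LQ Q) (Dl R (lt R i * X))
    have hL : LQ Q (lt R i * X) = DQ Q (lt R i) * X + lt R i * LQ Q X := by
      rw [LQ_apply, LQ_apply, DQ_mul, mul_add, mul_assoc]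
      abel
    rw [hL, map_add, map_mul, map_mul, map_mul, ih, bi_mul, Dl_DQ hQ]
  | hadd X Y hX hY => rw [map_add, map_add, hX, hY, map_add, map_add]
  | hsmul c X hX => rw [map_smul, map_smul, hX, map_smul, map_smul]

end Cop

section Main

variable {R S : Type} [CommRing R] (A : GFam R S)

lemma Dl_Lw (w : List S) (X : AA R) : Dl R ((w.map (fun s => (LQ (A.Q s) : Module.End R (AA R)))).prod X) =
    (w.map (fun s => bi (LQ (A.Q s)))).prod (Dl R X) := by
  induction w with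
  | nil => rfl
  | cons s w ih =>
    rw [List.map_cons, List.prod_cons, Module.End.mul_apply, List.map_cons, List.prod_cons,
      Module.End.mul_apply, ← ih]
    exact Dl_LQ (A.gq s) _

variable {E : Type} [Ring E] [Algebra R E] {N : ℕ} {I : Submodule R E}

/-- products of values of polynomials without terms of low degree -/
lemma EV_mul_EV_zero (hI : IsNilp N I) {a b a' b' : E} (ha : a ∈ I) (hb : b ∈ I) (ha' : a' ∈ I)
    (hb' : b' ∈ I) {k l : ℕ} {X Y : AA R} (hX : LowR k X) (hY : LowR l Y) (h : N ≤ k + l) :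
    EV a b X * EV a' b' Y = 0 := by
  rw [MP446S.EV_wl (nilp_word_zero hI ha hb), MP446S.EV_wl (nilp_word_zero hI ha' hb'),
    Finset.sum_mul_sum]
  refine Finset.sum_eq_zero (fun p _ => Finset.sum_eq_zero (fun q _ => ?_))
  rw [smul_mul_smul_comm]
  by_cases hp : p.length < k
  · rw [hX p hp, zero_mul, zero_smul]
  · by_cases hq : q.length < l
    · rw [hY q hq, mul_zero, zero_smul]
    · rw [← List.prod_append, nilp_zero_of_le hI, smul_zero]
      · intro x hx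
        rcases List.mem_append.1 hx with hx | hx
        · exact nilp_map_mem ha hb p x hx
        · exact nilp_map_mem ha' hb' q x hx
      · rw [List.length_append, List.length_map, List.length_map]
        omega

/-- the series `act u 1` is group-like -/
lemma act_one_gl {u : List S → R} (hu : IsGroupLike u) (hI : IsNilp N I) {a b a' b' : E}
    (ha : a ∈ I) (hb : b ∈ I) (ha' : a' ∈ I) (hb' : b' ∈ I) (hc : Com2 a b a' b') :
    EV (a + a') (b + b') (A.TN N u 1) = EV a b (A.TN N u 1) * EV a' b' (A.TN N u 1) := by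
  have hcom : ∀ X Y : AA R, Commute (EV a b X) (EV a' b' Y) := by
    intro X Y
    have h1 : a * EV a' b' Y = EV a' b' Y * a := comm_EV hc.h1 hc.h2 Y
    have h2 : b * EV a' b' Y = EV a' b' Y * b := comm_EV hc.h3 hc.h4 Y
    exact EV_commute h1 h2 X
  let e2 : AA R ⊗[R] AA R →ₐ[R] E := Algebra.TensorProduct.lift (EV a b) (EV a' b') hcom
  have he2 : ∀ X Y : AA R, e2 (X ⊗ₜ[R] Y) = EV a b X * EV a' b' Y := by
    intro X Y
    exact Algebra.TensorProduct.lift_tmul _ _ _ _ _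
  have heD : ∀ X : AA R, e2 (Dl R X) = EV (a + a') (b + b') X := by
    intro X
    unfold Dl
    rw [map_EV, map_add, map_add, he2, he2, he2, he2, map_one, map_one, EV_letter_zero,
      EV_letter_zero, EV_letter_one, EV_letter_one, one_mul, mul_one, one_mul, mul_one]
  have hT : ∀ X : AA R, A.TN N u X = ∑ w ∈ A.wd N, u w •
      ((w.map (fun s => (LQ (A.Q s) : Module.End R (AA R)))).prod X) := by
    intro X
    unfold GFam.TN
    rw [LinearMap.sum_apply]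
    rfl
  rw [← heD, hT, map_sum]
  have e1 : ∑ w ∈ A.wd N, Dl R (u w • ((w.map (fun s => (LQ (A.Q s) : Module.End R (AA R)))).prod
      (1 : AA R))) = ∑ w ∈ A.wd N, u w •
        (w.map (fun s => bi (LQ (A.Q s)))).prod
          (TensorProduct.mk R (AA R) (AA R) 1 1) := by
    refine Finset.sum_congr rfl (fun w _ => ?_)
    rw [map_smul, Dl_Lw, map_one]
    rfl
  rw [e1, leib_gl A.toAlph u N (fun v w _ => hu.shuffle v w) (TensorProduct.mk R (AA R) (AA R))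
    (fun s => (LQ (A.Q s) : Module.End R (AA R))) (fun s => (LQ (A.Q s) : Module.End R (AA R)))
    (fun s => bi (LQ (A.Q s))) (fun s a b => bi_tmul _ a b), map_sum,
    map_sum, map_sum, Finset.sum_mul_sum]
  refine Finset.sum_congr rfl (fun p _ => ?_)
  rw [map_sum]
  refine Finset.sum_congr rfl (fun q _ => ?_)
  rw [map_smul, map_smul, smul_mul_smul_comm]
  split_ifs with h
  · rw [map_smul]
    congr 1
  · rw [map_zero]
    have h1 := lowR_opL A p (lowR_zero (1 : AA R))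
    have h2 := lowR_opL A q (lowR_zero (1 : AA R))
    rw [zero_add] at h1 h2
    have h3 : EV a b ((p.map (fun s => (LQ (A.Q s) : Module.End R (AA R)))).prod 1) *
        EV a' b' ((q.map (fun s => (LQ (A.Q s) : Module.End R (AA R)))).prod 1) = 0 :=
      EV_mul_EV_zero hI ha hb ha' hb' h1 h2 (by omega)
    rw [h3, smul_zero]

lemma act_nil {u : List S → R} (hu : u [] = 1) {f : List (Fin 2) → R} (hf : f [] = 1) :
    A.act u f [] = 1 := by
  unfold GFam.act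
  rw [List.length_nil, zero_add, TN_apply, cf_sum]
  rw [Finset.sum_eq_single_of_mem [] (nil_mem_wd A (by omega))]
  · rw [hu, one_smul]
    change cf (trn 1 f) [] = 1
    rw [cf_trn, if_pos (by simp), hf]
  · intro w _ hw
    rw [cf_smul, lowR_opL A w (lowR_zero (trn 1 f)), mul_zero]
    cases w with
    | nil => exact absurd rfl hw
    | cons s w =>
      have := A.pos s
      simp [Alph.wt]
      omega

end Main

end MP446U.PRG

namespace MP446U

open MP446 MP446Y MP446Z MP446S MP446I MP446U.V MP446U.Lb MP446U.OPV MP446U.PRG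

theorem specPRG (hOPA : SpecOPA) (hOPV : SpecOPV) : SpecPRG := by
  intro R S _ _ A u hu hdg N f hf
  rw [specGLE] at hf ⊢
  obtain ⟨h0, hv⟩ := hf
  refine ⟨act_nil A hu.one h0, ?_⟩
  intro E _ _ I hI a ha b hb a' ha' b' hb' hc
  by_cases hN : N = 0
  · subst hN
    have h1 : (1 : E) = 0 := by
      simpa using hI.prod_zero [] (by simp) rfl
    have h2 : ∀ z : E, z = 0 := fun z => by rw [← mul_one z, h1, mul_zero]
    rw [h2 (val (A.act u f) a b * val (A.act u f) a' b'), h2 (val (A.act u f) (a + a') (b + b'))]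
  have hN : 0 < N := Nat.pos_of_ne_zero hN
  have hval : ∀ a ∈ I, ∀ b ∈ I, val (A.act u (one1 R)) a b = EV a b (A.TN N u 1) := by
    intro a ha b hb
    rw [(hOPA R S A u (one1 R)).2.2 N E I hI a ha b hb, trn_one hN]
  have hk0 : A.act u (one1 R) [] = 1 := act_one_nil A hu.one
  obtain ⟨k1, hk1⟩ := exists_val_unit hI ha hb hk0
  obtain ⟨k2, hk2⟩ := exists_val_unit hI ha' hb' hk0
  have hK : ((k1 * k2 : Eˣ) : E) = val (A.act u (one1 R)) (a + a') (b + b') := by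
    rw [hval _ (I.add_mem ha ha') _ (I.add_mem hb hb'), act_one_gl A hu hI ha hb ha' hb' hc,
      ← hval a ha b hb, ← hval a' ha' b' hb', ← hk1, ← hk2, Units.val_mul]
  -- commutation
  have c1 : (k1 : E) * a' = a' * k1 := by
    rw [hk1]; exact (val_comm hI ha hb _ hc.h1.symm hc.h3.symm).symm
  have c2 : (k1 : E) * b' = b' * k1 := by
    rw [hk1]; exact (val_comm hI ha hb _ hc.h2.symm hc.h4.symm).symm
  have c3 : (k2 : E) * a = a * k2 := by
    rw [hk2]; exact (val_comm hI ha' hb' _ hc.h1 hc.h2).symm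
  have c4 : (k2 : E) * b = b * k2 := by
    rw [hk2]; exact (val_comm hI ha' hb' _ hc.h3 hc.h4).symm
  have c5 : (k1 : E) * k2 = k2 * k1 := by
    conv_lhs => rw [hk2]
    conv_rhs => rw [hk2]
    exact val_comm hI ha' hb' _ c1 c2
  have i1 : ∀ z : E, (k1 : E) * z = z * k1 → ((k1⁻¹ : Eˣ) : E) * z = z * (k1⁻¹ : Eˣ) :=
    fun z hz => (Commute.units_inv_left (a := z) (u := k1) hz)
  have i2 : ∀ z : E, (k2 : E) * z = z * k2 → ((k2⁻¹ : Eˣ) : E) * z = z * (k2⁻¹ : Eˣ) :=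
    fun z hz => (Commute.units_inv_left (a := z) (u := k2) hz)
  have hm1 : (k1 : E) - 1 ∈ I := by rw [hk1]; exact val_sub_one_mem hI ha hb hk0
  have hm2 : (k2 : E) - 1 ∈ I := by rw [hk2]; exact val_sub_one_mem hI ha' hb' hk0
  have ha1 : (k1 : E) * a * (k1⁻¹ : Eˣ) ∈ I := OPV.conj_mem hI k1 hm1 ha
  have ha2 : (k2 : E) * a' * (k2⁻¹ : Eˣ) ∈ I := OPV.conj_mem hI k2 hm2 ha'
  have hconj : ((k1 * k2 : Eˣ) : E) * (a + a') * ((k1 * k2)⁻¹ : Eˣ) =
      (k1 : E) * a * (k1⁻¹ : Eˣ) + (k2 : E) * a' * (k2⁻¹ : Eˣ) := by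
    rw [mul_inv_rev, Units.val_mul, Units.val_mul, mul_add, add_mul]
    congr 1
    · calc (k1 : E) * k2 * a * ((k2⁻¹ : Eˣ) * (k1⁻¹ : Eˣ))
          = k1 * (k2 * a) * (k2⁻¹ : Eˣ) * (k1⁻¹ : Eˣ) := by simp only [mul_assoc]
        _ = k1 * a * (k2 * (k2⁻¹ : Eˣ)) * (k1⁻¹ : Eˣ) := by rw [c3]; simp only [mul_assoc]
        _ = _ := by rw [Units.mul_inv, mul_one]
    · have hz : (k1 : E) * (k2 * a' * (k2⁻¹ : Eˣ)) = k2 * a' * (k2⁻¹ : Eˣ) * k1 := by
        have h1 : (k1 : E) * ((k2⁻¹ : Eˣ) : E) = (k2⁻¹ : Eˣ) * k1 := (i2 k1 c5.symm).symm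
        calc (k1 : E) * (k2 * a' * (k2⁻¹ : Eˣ)) = k1 * k2 * a' * (k2⁻¹ : Eˣ) := by
              simp only [mul_assoc]
          _ = k2 * (k1 * a') * (k2⁻¹ : Eˣ) := by rw [c5]; simp only [mul_assoc]
          _ = k2 * a' * (k1 * (k2⁻¹ : Eˣ)) := by rw [c1]; simp only [mul_assoc]
          _ = _ := by rw [h1]; simp only [mul_assoc]
      calc (k1 : E) * k2 * a' * ((k2⁻¹ : Eˣ) * (k1⁻¹ : Eˣ))
          = k1 * (k2 * a' * (k2⁻¹ : Eˣ)) * (k1⁻¹ : Eˣ) := by simp only [mul_assoc]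
        _ = k2 * a' * (k2⁻¹ : Eˣ) * (k1 * (k1⁻¹ : Eˣ)) := by rw [hz]; simp only [mul_assoc]
        _ = _ := by rw [Units.mul_inv, mul_one]
  -- the conjugated pairs commute
  have hcc : Com2 ((k1 : E) * a * (k1⁻¹ : Eˣ)) b ((k2 : E) * a' * (k2⁻¹ : Eˣ)) b' := by
    have t1 : ∀ z : E, a * z = z * a → (k1 : E) * z = z * k1 →
        ((k1 : E) * a * (k1⁻¹ : Eˣ)) * z = z * ((k1 : E) * a * (k1⁻¹ : Eˣ)) := by
      intro z hz1 hz2
      exact (((show Commute (k1 : E) z from hz2).mul_left (show Commute a z from hz1)).mul_left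
        (show Commute ((k1⁻¹ : Eˣ) : E) z from i1 z hz2)).eq
    have t2 : ∀ z : E, a' * z = z * a' → (k2 : E) * z = z * k2 →
        ((k2 : E) * a' * (k2⁻¹ : Eˣ)) * z = z * ((k2 : E) * a' * (k2⁻¹ : Eˣ)) := by
      intro z hz1 hz2
      exact (((show Commute (k2 : E) z from hz2).mul_left (show Commute a' z from hz1)).mul_left
        (show Commute ((k2⁻¹ : Eˣ) : E) z from i2 z hz2)).eq
    have t3 : ((k2 : E) * a' * (k2⁻¹ : Eˣ)) * a = a * ((k2 : E) * a' * (k2⁻¹ : Eˣ)) :=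
      t2 a hc.h1.symm c3
    have t4 : ((k2 : E) * a' * (k2⁻¹ : Eˣ)) * k1 = k1 * ((k2 : E) * a' * (k2⁻¹ : Eˣ)) :=
      t2 k1 c1.symm c5.symm
    exact ⟨t1 _ t3.symm t4.symm, t1 _ hc.h2 c2, (t2 _ hc.h3.symm c4).symm, hc.h4⟩
  have hfin := hv E I hI _ ha1 b hb _ ha2 b' hb' hcc
  have hcf : (k1 : E) * val f ((k2 : E) * a' * (k2⁻¹ : Eˣ)) b' =
      val f ((k2 : E) * a' * (k2⁻¹ : Eˣ)) b' * k1 := by
    refine val_comm hI ha2 hb' f ?_ c2
    have h1 : (k1 : E) * ((k2⁻¹ : Eˣ) : E) = (k2⁻¹ : Eˣ) * k1 := (i2 k1 c5.symm).symm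
    exact (((show Commute (k1 : E) (k2 : E) from c5).mul_right
      (show Commute (k1 : E) a' from c1)).mul_right (show Commute (k1 : E) _ from h1)).eq
  rw [hOPV R S A u hu f N E I hI _ (I.add_mem ha ha') _ (I.add_mem hb hb') (k1 * k2) hK, hconj,
    hfin, hOPV R S A u hu f N E I hI a ha b hb k1 hk1,
    hOPV R S A u hu f N E I hI a' ha' b' hb' k2 hk2, Units.val_mul]
  calc val f ((k1 : E) * a * (k1⁻¹ : Eˣ)) b * val f ((k2 : E) * a' * (k2⁻¹ : Eˣ)) b' * (k1 * k2)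
      = val f ((k1 : E) * a * (k1⁻¹ : Eˣ)) b *
        (val f ((k2 : E) * a' * (k2⁻¹ : Eˣ)) b' * k1) * k2 := by simp only [mul_assoc]
    _ = _ := by rw [← hcf]; simp only [mul_assoc]

end MP446U
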