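import Pool.Agent.Lib.MP_446dfa_ag.unc.PRD

set_option linter.all false

/-!
# PRH: the action preserves the hexagon relation
-/

noncomputable section

namespace MP446U.PRH

open MP446 MP446Y MP446Z MP446S MP446I MP446U PRD

variable {R : Type} [CommRing R]

section Exq

variable [Algebra ℚ R] {E : Type} [Ring E] [Algebra R E]

/-- the truncated exponential -/
def exq (R : Type) [CommRing R] [Algebra ℚ R] {E : Type} [Ring E] [Algebra R E] (N : ℕ) (x : E) :
    E := ∑ k ∈ Finset.range N, ec R k • x ^ k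

lemma der_pow {δ : E →ₗ[R] E} (hδ : ∀ x y, δ (x * y) = x * δ y + δ x * y) {q x : E}
    (hx : δ x = cm q x) (k : ℕ) : δ (x ^ k) = cm q (x ^ k) := by
  have h1 : δ 1 = 0 := by
    have := hδ 1 1
    simp only [mul_one, one_mul] at this
    have h2 : δ 1 + δ 1 = δ 1 + 0 := by rw [add_zero]; exact this.symm
    exact add_left_cancel h2
  induction k with
  | zero => rw [pow_zero, h1]; simp [cm]
  | succ k ih =>
    rw [pow_succ, hδ, ih, hx]
    simp only [cm, mul_sub, sub_mul, mul_assoc]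
    abel

lemma der_exq {δ : E →ₗ[R] E} (hδ : ∀ x y, δ (x * y) = x * δ y + δ x * y) {q x : E}
    (hx : δ x = cm q x) (N : ℕ) (ν : R) : δ (exq R N (ν • x)) = cm q (exq R N (ν • x)) := by
  have h2 : δ (ν • x) = cm q (ν • x) := by
    rw [map_smul, hx]
    simp only [cm, mul_smul_comm, smul_mul_assoc, smul_sub]
  unfold exq
  rw [map_sum]
  unfold cm
  rw [Finset.mul_sum, Finset.sum_mul, ← Finset.sum_sub_distrib]
  refine Finset.sum_congr rfl (fun k _ => ?_)
  rw [map_smul, der_pow hδ h2]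
  simp only [cm, mul_smul_comm, smul_mul_assoc, smul_sub]

lemma map_exq {F : Type} [Ring F] [Algebra R F] (ψ : E →ₐ[R] F) (N : ℕ) (x : E) :
    ψ (exq R N x) = exq R N (ψ x) := by
  unfold exq
  rw [map_sum]
  refine Finset.sum_congr rfl (fun k _ => ?_)
  rw [map_smul, map_pow]

lemma exq_eq {N : ℕ} {I : Submodule R E} (h : IsNilp N I) {x : E} (hx : x ∈ I) (ν : R) :
    exq R N (ν • x) = expU R (ν • x) :=
  (expU_eq (pow_zero' h (Submodule.smul_mem _ ν hx))).symm

end Exq

variable [Algebra ℚ R]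

/-- the third letter -/
def lc (R : Type) [CommRing R] : AA R := -lt R 0 - lt R 1

lemma lc_sum : lt R 0 + lt R 1 + lc R = 0 := by unfold lc; abel

lemma lc_Lo : lc R ∈ Lo R 1 :=
  Submodule.sub_mem _ (Submodule.neg_mem _ (Lo_lt 0)) (Lo_lt 1)

lemma EV_lc {E : Type} [Ring E] [Algebra R E] {a b c : E} (h : a + b + c = 0) :
    EV a b (lc R) = c := by
  unfold lc
  rw [map_sub, map_neg, EV_letter_zero, EV_letter_one]
  have : c = -a - b := by
    rw [← sub_eq_zero]
    have : c - (-a - b) = a + b + c := by abel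
    rw [this, h]
  rw [this]

/-- the left hand side of the hexagon equation -/
def W3 (N : ℕ) (ν : R) (X Y Z : AA R) : AA R :=
  exq R N (ν • lt R 0) * EV (lc R) (lt R 0) X * exq R N (ν • lc R) * EV (lt R 1) (lc R) Y *
    exq R N (ν • lt R 1) * Z

lemma EV_W3 {N : ℕ} {E : Type} [Ring E] [Algebra R E] {I : Submodule R E} (h : IsNilp N I)
    {a b c : E} (ha : a ∈ I) (hb : b ∈ I) (hc : c ∈ I) (hs : a + b + c = 0) (ν : R) (X Y Z : AA R) :
    EV a b (W3 N ν X Y Z) = expU R (ν • a) * EV c a X * expU R (ν • c) * EV b c Y *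
      expU R (ν • b) * EV a b Z := by
  unfold W3
  rw [map_mul, map_mul, map_mul, map_mul, map_mul, map_exq, map_exq, map_exq, EV_comp, EV_comp,
    map_smul, map_smul, map_smul, EV_lc hs, EV_letter_zero, EV_letter_one, exq_eq h ha, exq_eq h hb,
    exq_eq h hc]

variable {S : Type} (A : GFam R S)

/-- the operator on the hexagon expression -/
def Lam (Q : AA R) : Module.End R (AA R) :=
  (DQ Q : Module.End R (AA R)) - LinearMap.mulLeft R Q + LinearMap.mulRight R Q

lemma Lam_apply (Q W : AA R) : Lam Q W = DQ Q W - Q * W + W * Q := rfl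

lemma Lam_one (Q : AA R) : Lam Q 1 = 0 := by
  rw [Lam_apply, DQ_one, mul_one, one_mul, zero_sub, neg_add_cancel]

lemma Lam_Lo {Q : AA R} {N : ℕ} {W : AA R} (hW : W ∈ Lo R N) : Lam Q W ∈ Lo R N := by
  rw [Lam_apply]
  refine Submodule.add_mem _ (Submodule.sub_mem _ ?_ ?_) ?_
  · exact Lo_mono (by omega) (Lo_DQ (Lo_zero Q) hW)
  · exact Lo_mono (by omega) (Lo_mul (Lo_zero Q) hW)
  · exact Lo_mono (by omega) (Lo_mul hW (Lo_zero Q))

lemma Lam_W3 {n : ℕ} {Q : AA R} (hQ : IsGQ n Q) (N : ℕ) (ν : R) (X Y Z : AA R) :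
    Lam Q (W3 N ν X Y Z) = W3 N ν (LQ Q X) Y Z + W3 N ν X (LQ Q Y) Z + W3 N ν X Y (LQ Q Z) := by
  set x : AA R := lt R 0 with hx
  set y : AA R := lt R 1 with hy
  set c : AA R := lc R with hc
  set q2 : AA R := EV y c Q with hq2
  set q3 : AA R := EV c x Q with hq3
  have hδ : ∀ U V : AA R, (DQ Q : Module.End R (AA R)) (U * V) = U * DQ Q V + DQ Q U * V :=
    fun U V => DQ_mul _ _ _
  have hsum : x + y + c = 0 := lc_sum
  have hcyc : Q + q2 + q3 = 0 := by
    have := hQ.cycle (AA R) x y c hsum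
    rw [EV_self] at this
    exact this
  have hanti : EV y x Q = -Q := by
    have := hQ.anti (AA R) x y
    rw [EV_self] at this
    exact this
  have hhex : cm Q x = cm q2 c := by
    have := hQ.hex (AA R) y x c (by rw [add_comm y x]; exact hsum)
    rw [hanti] at this
    simp only [cm] at this ⊢
    rw [← sub_eq_zero]
    rw [← this]
    noncomm_ring
  have hδx : (DQ Q : Module.End R (AA R)) x = cm Q x := DQ_lt_zero _
  have hδy : (DQ Q : Module.End R (AA R)) y = 0 := DQ_lt_one _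
  have hδc : (DQ Q : Module.End R (AA R)) c = cm (-q2) c := by
    change DQ Q (-lt R 0 - lt R 1) = _
    rw [map_sub, map_neg]
    change -(DQ Q : Module.End R (AA R)) x - (DQ Q : Module.End R (AA R)) y = _
    rw [hδx, hδy, hhex]
    simp only [cm]
    noncomm_ring
  have hea : (DQ Q : Module.End R (AA R)) (exq R N (ν • x)) = cm Q (exq R N (ν • x)) :=
    der_exq hδ hδx N ν
  have hec : (DQ Q : Module.End R (AA R)) (exq R N (ν • c)) = cm (-q2) (exq R N (ν • c)) :=
    der_exq hδ hδc N ν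
  have heb : (DQ Q : Module.End R (AA R)) (exq R N (ν • y)) = 0 := by
    have := der_exq hδ (q := 0) (x := y) (by rw [hδy]; simp [cm]) N ν
    rw [this]
    simp [cm]
  have h3 : (DQ Q : Module.End R (AA R)) (EV c x X) =
      EV c x (DQ Q X) + cm Q (EV c x X) := by
    refine der_EV hδ ?_ hδx X
    rw [hδc]
    congr 1
    rw [← hq3]
    have : -q2 = q3 + Q := by
      rw [← sub_eq_zero]
      have e : -q2 - (q3 + Q) = -(Q + q2 + q3) := by abel
      rw [e, hcyc, neg_zero]
    exact this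
  have h2 : (DQ Q : Module.End R (AA R)) (EV y c Y) =
      EV y c (DQ Q Y) + cm (-q2) (EV y c Y) := by
    refine der_EV hδ ?_ hδc Y
    rw [hδy, ← hq2, add_neg_cancel]
    simp [cm]
  have e3 : EV c x (LQ Q X) = EV c x (DQ Q X) + EV c x X * q3 := by
    rw [LQ_apply, map_add, map_mul]
  have e2 : EV y c (LQ Q Y) = EV y c (DQ Q Y) + EV y c Y * q2 := by
    rw [LQ_apply, map_add, map_mul]
  have e1 : LQ Q Z = DQ Q Z + Z * Q := LQ_apply _ _
  have hq3' : q3 = -Q - q2 := by
    rw [← sub_eq_zero]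
    have e : q3 - (-Q - q2) = Q + q2 + q3 := by abel
    rw [e, hcyc]
  rw [Lam_apply]
  unfold W3
  rw [← hx, ← hy, ← hc, e3, e2, e1]
  change (DQ Q : Module.End R (AA R)) _ - _ + _ = _
  rw [hδ, hδ, hδ, hδ, hδ, hea, hec, heb, h3, h2, hq3']
  simp only [cm]
  generalize exq R N (ν • x) = ea
  generalize exq R N (ν • c) = ec
  generalize exq R N (ν • y) = eb
  generalize EV c x X = P
  generalize EV c x (DQ Q X) = P'
  generalize EV y c Y = S
  generalize EV y c (DQ Q Y) = S'
  generalize (DQ Q : Module.End R (AA R)) Z = Z'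
  generalize q2 = q
  simp only [mul_add, add_mul, mul_sub, sub_mul, mul_neg, neg_mul, mul_zero, zero_mul, mul_assoc]
  abel

end MP446U.PRH

namespace MP446U

open MP446 MP446Y MP446Z MP446S MP446I MP446U PRD PRH

/-- the trilinear map of the hexagon relation -/
def PRH.m3 (R : Type) [CommRing R] [Algebra ℚ R] (N : ℕ) (ν : R) :
    AA R →ₗ[R] AA R →ₗ[R] AA R →ₗ[R] AA R ⧸ Lo R N :=
  LinearMap.mk₂ R (fun X Y => (Lo R N).mkQ ∘ₗ LinearMap.mulLeft R
      (exq R N (ν • lt R 0) * EV (lc R) (lt R 0) X * exq R N (ν • lc R) * EV (lt R 1) (lc R) Y *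
        exq R N (ν • lt R 1)))
    (fun X X' Y => by
      refine LinearMap.ext (fun Z => ?_)
      change (Lo R N).mkQ (_ * Z) = (Lo R N).mkQ (_ * Z) + (Lo R N).mkQ (_ * Z)
      rw [← map_add, map_add]
      congr 1
      simp only [mul_add, add_mul])
    (fun c X Y => by
      refine LinearMap.ext (fun Z => ?_)
      change (Lo R N).mkQ (_ * Z) = c • (Lo R N).mkQ (_ * Z)
      rw [← map_smul, map_smul]
      congr 1
      simp only [mul_smul_comm, smul_mul_assoc])
    (fun X Y Y' => by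
      refine LinearMap.ext (fun Z => ?_)
      change (Lo R N).mkQ (_ * Z) = (Lo R N).mkQ (_ * Z) + (Lo R N).mkQ (_ * Z)
      rw [← map_add, map_add]
      congr 1
      simp only [mul_add, add_mul])
    (fun c X Y => by
      refine LinearMap.ext (fun Z => ?_)
      change (Lo R N).mkQ (_ * Z) = c • (Lo R N).mkQ (_ * Z)
      rw [← map_smul, map_smul]
      congr 1
      simp only [mul_smul_comm, smul_mul_assoc])

lemma PRH.m3_apply (R : Type) [CommRing R] [Algebra ℚ R] (N : ℕ) (ν : R) (X Y Z : AA R) :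
    m3 R N ν X Y Z = (Lo R N).mkQ (W3 N ν X Y Z) := rfl

theorem specPRH_of (hSH3 : SpecSH3) (hOPA : SpecOPA) : SpecPRH := by
  intro R S _ _ A u hu hdg N ν f hf E _ _ I hI a ha b hb c hc hs
  rcases Nat.eq_zero_or_pos N with h0 | hN
  · subst h0
    have h1 : (1 : E) = 0 := hI.prod_zero [] (by simp) rfl
    have : Subsingleton E := subsingleton_of_zero_eq_one h1.symm
    exact Subsingleton.elim _ _
  have hpres : Pres N (fun s => Lam (A.Q s)) := ⟨fun s X hX => Lam_Lo hX⟩
  have key := hSH3 R S A.toAlph u hu (AA R) (AA R) (AA R) (AA R ⧸ Lo R N) (xL A) (xL A) (xL A)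
    (qo hpres) (m3 R N ν) ?_ N (trn N f) (trn N f) (trn N f) ?_
  · have e1 : m3 R N ν (trn N f) (trn N f) (trn N f) = (Lo R N).mkQ 1 := by
      rw [m3_apply]
      apply mkQ_of_model
      have hm := IR_nil R N
      have h0 := LR_mem R N 0
      have h1 := LR_mem R N 1
      have h2 : -LR R N 0 - LR R N 1 ∈ IR R N 1 :=
        Submodule.sub_mem _ (Submodule.neg_mem _ h0) h1
      have hs' : LR R N 0 + LR R N 1 + (-LR R N 0 - LR R N 1) = 0 := by abel
      rw [EV_W3 hm h0 h1 h2 hs', map_one, ← val_eq hm h2 h0, ← val_eq hm h1 h2, ← val_eq hm h0 h1]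
      exact hf _ _ hm _ h0 _ h1 _ h2 hs'
    rw [sum_one A hN hpres (fun s => Lam_one _) hu.one e1] at key
    have e2 : ∑ p ∈ A.wd N, u p • opw (xL A) p (trn N f) = A.TN N u (trn N f) := by
      unfold GFam.TN
      rw [LinearMap.sum_apply]
      rfl
    rw [e2, m3_apply, mkQ_eq] at key
    have h3 := EV_congr' hI ha hb (fun w hw => (key w hw).symm)
    rw [EV_W3 hI ha hb hc hs, map_one] at h3
    rw [(hOPA R S A u f).2.2 N E I hI c hc a ha, (hOPA R S A u f).2.2 N E I hI b hb c hc,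
      (hOPA R S A u f).2.2 N E I hI a ha b hb]
    exact h3
  · intro s X Y Z
    rw [m3_apply, m3_apply, m3_apply, m3_apply, qo_mk, Lam_W3 (A.gq s), map_add, map_add]
    rfl
  · intro p q r hpq
    rw [m3_apply, Submodule.mkQ_apply, Submodule.Quotient.mk_eq_zero]
    unfold W3
    have hp := Lo_EV lc_Lo (Lo_lt 0) (Lo_opw A p (trn N f))
    have hq := Lo_EV (Lo_lt 1) lc_Lo (Lo_opw A q (trn N f))
    have hr := Lo_opw A r (trn N f)
    have h := Lo_mul (Lo_mul (Lo_mul (Lo_mul (Lo_mul (Lo_zero (exq R N (ν • lt R 0))) hp)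
      (Lo_zero (exq R N (ν • lc R)))) hq) (Lo_zero (exq R N (ν • lt R 1)))) hr
    exact Lo_mono (by omega) h

end MP446U
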