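import Pool.Agent.Lib.MP_446dfa_ag.unc.PunA

set_option linter.all false

/-!
# UNI: the universal nilpotent algebra with infinitesimal braid relations

`TT R N` is the `R`-algebra with the generators `tt R N i j` (`tt i j = tt j i`, `tt i i = 0`), the
infinitesimal braid relations, and the relations that all words of length `≥ N` vanish.
`JU R N d` is the span of the words of length `≥ d`, and `JJ R N = JU R N 1`.

The definitions and main results are in the namespace `MP446U`, the auxiliary ones in `MP446U.PN`.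
Main results: `nilp_JJ`, `tt_mem`, `braid_tt`, the universal property `uni`, `uni_tt` and
`TT_hom_ext`.
-/

noncomputable section

namespace MP446U.PN

open MP446 MP446Y MP446Z MP446S MP446I

/-- the alphabet -/
abbrev Pr : Type := Fin 4 × Fin 4

section Uni

variable {R : Type} [CommRing R]

variable (R) in
/-- the generators `T_{ij} = T_{ji}`, `T_{ii} = 0`, in the free algebra -/
def gn (i j : Fin 4) : FA R Pr :=
  if i < j then letter R (i, j) else if j < i then letter R (j, i) else 0

lemma gn_lt {i j : Fin 4} (h : i < j) : gn R i j = letter R (i, j) := if_pos h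

lemma gn_symm (i j : Fin 4) : gn R i j = gn R j i := by
  unfold gn
  rcases lt_trichotomy i j with h | h | h
  · rw [if_pos h, if_neg (not_lt_of_gt h), if_pos h]
  · subst h; rfl
  · rw [if_neg (not_lt_of_gt h), if_pos h, if_pos h]

lemma gn_self (i : Fin 4) : gn R i i = 0 := by
  unfold gn
  rw [if_neg (lt_irrefl i), if_neg (lt_irrefl i)]

lemma gn_mem (i j : Fin 4) : gn R i j ∈ J R Pr 1 := by
  unfold gn
  split_ifs
  · exact letter_mem _
  · exact letter_mem _
  · exact Submodule.zero_mem _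

variable (R) in
/-- the defining relations -/
def Rels (N : ℕ) : Set (FA R Pr) :=
  {v | (∃ w : List Pr, N ≤ w.length ∧ v = wd R w) ∨
    (∃ a : Pr, ¬ a.1 < a.2 ∧ v = letter R a) ∨
    (∃ i j k l : Fin 4, i ≠ j ∧ i ≠ k ∧ i ≠ l ∧ j ≠ k ∧ j ≠ l ∧ k ≠ l ∧
      v = gn R i j * gn R k l - gn R k l * gn R i j) ∨
    (∃ i j k : Fin 4, i ≠ j ∧ i ≠ k ∧ j ≠ k ∧
      v = gn R i j * (gn R i k + gn R j k) - (gn R i k + gn R j k) * gn R i j)}

variable (R) in
/-- the ideal of the relations -/
def RI (N : ℕ) : TwoSidedIdeal (FA R Pr) := TwoSidedIdeal.span (Rels R N)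

variable (R) in
/-- the universal algebra -/
def _root_.MP446U.TT (N : ℕ) : Type := FA R Pr ⧸ (RI R N).asIdeal

instance (N : ℕ) : Ring (TT R N) := inferInstanceAs (Ring (FA R Pr ⧸ (RI R N).asIdeal))

instance (N : ℕ) : Algebra R (TT R N) :=
  inferInstanceAs (Algebra R (FA R Pr ⧸ (RI R N).asIdeal))

variable (R) in
/-- the projection from the free algebra -/
def qq (N : ℕ) : FA R Pr →ₐ[R] TT R N := Ideal.Quotient.mkₐ R (RI R N).asIdeal

lemma qq_surj (N : ℕ) : Function.Surjective (qq R N) := Ideal.Quotient.mkₐ_surjective _ _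

lemma qq_zero {N : ℕ} {v : FA R Pr} : qq R N v = 0 ↔ v ∈ RI R N := by
  have h : qq R N v = Ideal.Quotient.mk (RI R N).asIdeal v := rfl
  rw [h]
  exact Ideal.Quotient.eq_zero_iff_mem.trans TwoSidedIdeal.mem_asIdeal

lemma qq_rel {N : ℕ} {v : FA R Pr} (h : v ∈ Rels R N) : qq R N v = 0 :=
  qq_zero.2 (TwoSidedIdeal.subset_span h)

lemma qq_J {N d : ℕ} (hd : N ≤ d) {v : FA R Pr} (hv : v ∈ J R Pr d) : qq R N v = 0 := by
  refine J_ind (P := fun v => qq R N v = 0) (fun w hw => ?_) ?_ ?_ ?_ hv
  · exact qq_rel (Or.inl ⟨w, by omega, rfl⟩)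
  · exact map_zero _
  · intro X Y hX hY
    rw [map_add, hX, hY, add_zero]
  · intro c X hX
    rw [map_smul, hX, smul_zero]

variable (R) in
/-- the span of the words of length `≥ d` -/
def _root_.MP446U.JU (N d : ℕ) : Submodule R (TT R N) := (J R Pr d).map (qq R N).toLinearMap

variable (R) in
/-- the span of the non-empty words -/
abbrev _root_.MP446U.JJ (N : ℕ) : Submodule R (TT R N) := JU R N 1

lemma mem_JU {N d : ℕ} {u : TT R N} : u ∈ JU R N d ↔ ∃ v ∈ J R Pr d, qq R N v = u := Iff.rfl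

lemma _root_.MP446U.JU_anti {N d e : ℕ} (h : d ≤ e) : JU R N e ≤ JU R N d := by
  intro u hu
  obtain ⟨v, hv, rfl⟩ := mem_JU.1 hu
  exact mem_JU.2 ⟨v, J_anti h hv, rfl⟩

lemma _root_.MP446U.JU_zero {N : ℕ} (u : TT R N) : u ∈ JU R N 0 := by
  obtain ⟨v, rfl⟩ := qq_surj N u
  exact mem_JU.2 ⟨v, J_zero v, rfl⟩

lemma _root_.MP446U.JU_eq_zero {N d : ℕ} (h : N ≤ d) {u : TT R N} (hu : u ∈ JU R N d) : u = 0 := by
  obtain ⟨v, hv, rfl⟩ := mem_JU.1 hu
  exact qq_J h hv

lemma _root_.MP446U.JU_mul {N d e f : ℕ} {u v : TT R N} (hu : u ∈ JU R N d) (hv : v ∈ JU R N e)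
    (h : f ≤ d + e) : u * v ∈ JU R N f := by
  obtain ⟨x, hx, rfl⟩ := mem_JU.1 hu
  obtain ⟨y, hy, rfl⟩ := mem_JU.1 hv
  exact mem_JU.2 ⟨x * y, J_mul' hx hy h, map_mul _ _ _⟩

/-- a product of `k` elements of `JJ` is in `JU k` -/
lemma _root_.MP446U.JU_prod {N : ℕ} (l : List (TT R N)) (h : ∀ x ∈ l, x ∈ JJ R N) : l.prod ∈ JU R N l.length := by
  induction l with
  | nil => exact JU_zero _
  | cons x l ih =>
    rw [List.prod_cons]
    exact JU_mul (h x List.mem_cons_self) (ih (fun y hy => h y (List.mem_cons_of_mem _ hy)))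
      (by rw [List.length_cons]; omega)

variable (R) in
/-- `JJ` is `N`-nilpotent -/
theorem _root_.MP446U.nilp_JJ (N : ℕ) : IsNilp N (JJ R N) where
  mul_mem := fun x hx y hy => JU_mul hx hy (by omega)
  prod_zero := fun l hl hN => JU_eq_zero (le_of_eq hN.symm) (JU_prod l hl)

variable (R) in
/-- the universal family -/
def _root_.MP446U.tt (N : ℕ) (i j : Fin 4) : TT R N := qq R N (gn R i j)

lemma tt_eq (N : ℕ) (i j : Fin 4) : tt R N i j = qq R N (gn R i j) := rfl

lemma _root_.MP446U.tt_self (N : ℕ) (i : Fin 4) : tt R N i i = 0 := by rw [tt_eq, gn_self, map_zero]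

lemma _root_.MP446U.tt_mem (N : ℕ) (i j : Fin 4) : tt R N i j ∈ JJ R N := mem_JU.2 ⟨_, gn_mem i j, rfl⟩

variable (R) in
/-- the universal family satisfies the infinitesimal braid relations -/
theorem _root_.MP446U.braid_tt (N : ℕ) : Braid (tt R N) where
  symm := fun i j => by rw [tt_eq, tt_eq, gn_symm]
  comm := by
    intro i j k l h1 h2 h3 h4 h5 h6
    have := qq_rel (R := R) (N := N) (Or.inr (Or.inr (Or.inl ⟨i, j, k, l, h1, h2, h3, h4, h5, h6, rfl⟩)))
    rw [map_sub, map_mul, map_mul, sub_eq_zero] at this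
    exact this
  rel := by
    intro i j k h1 h2 h3
    have := qq_rel (R := R) (N := N) (Or.inr (Or.inr (Or.inr ⟨i, j, k, h1, h2, h3, rfl⟩)))
    rw [map_sub, map_mul, map_mul, map_add, sub_eq_zero] at this
    exact this

/-- induction on the elements of the universal algebra -/
lemma _root_.MP446U.TT_induction {N : ℕ} {P : TT R N → Prop} (h1 : P 1)
    (hmul : ∀ i j X, i < j → P X → P (tt R N i j * X)) (h0 : P 0)
    (hadd : ∀ X Y, P X → P Y → P (X + Y)) (hsmul : ∀ (c : R) X, P X → P (c • X)) (X : TT R N) :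
    P X := by
  obtain ⟨v, rfl⟩ := qq_surj N X
  induction v using FA_induction with
  | h1 => rw [map_one]; exact h1
  | hmul a X ih =>
    rw [map_mul]
    by_cases h : a.1 < a.2
    · have := hmul a.1 a.2 _ h ih
      rwa [tt_eq, gn_lt h] at this
    · rw [qq_rel (Or.inr (Or.inl ⟨a, h, rfl⟩)), zero_mul]
      exact h0
  | hadd X Y hX hY => rw [map_add]; exact hadd _ _ hX hY
  | hsmul c X hX => rw [map_smul]; exact hsmul c _ hX

/-- two homomorphisms which agree on the generators are equal -/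
theorem _root_.MP446U.TT_hom_ext {N : ℕ} {F : Type} [Ring F] [Algebra R F] {f g : TT R N →ₐ[R] F}
    (h : ∀ i j, i < j → f (tt R N i j) = g (tt R N i j)) : f = g := by
  apply AlgHom.ext
  intro X
  induction X using TT_induction with
  | h1 => rw [map_one, map_one]
  | hmul i j X hij ih => rw [map_mul, map_mul, ih, h i j hij]
  | h0 => rw [map_zero, map_zero]
  | hadd X Y hX hY => rw [map_add, map_add, hX, hY]
  | hsmul c X hX => rw [map_smul, map_smul, hX]

section Univ

variable {N : ℕ} {E : Type} [Ring E] [Algebra R E] {I : Submodule R E} {t : Fin 4 → Fin 4 → E}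

/-- the homomorphism from the free algebra -/
def unF (t : Fin 4 → Fin 4 → E) : FA R Pr →ₐ[R] E :=
  EVn (fun a => if a.1 < a.2 then t a.1 a.2 else 0)

lemma unF_gn (ht : Braid t) {i j : Fin 4} (hij : i ≠ j) : unF (R := R) t (gn R i j) = t i j := by
  rcases lt_or_gt_of_ne hij with h | h
  · rw [gn_lt h]
    unfold unF
    rw [EVn_letter, if_pos h]
  · rw [gn_symm, gn_lt h]
    unfold unF
    rw [EVn_letter, if_pos h, ht.symm]

lemma unF_zero (hI : IsNilp N I) (ht : Braid t) (htI : ∀ i j, t i j ∈ I) {v : FA R Pr}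
    (hv : v ∈ (RI R N).asIdeal) : unF (R := R) t v = 0 := by
  have h : RI R N ≤ TwoSidedIdeal.ker (unF (R := R) t) := by
    unfold RI
    rw [TwoSidedIdeal.span_le]
    intro v hv
    rw [SetLike.mem_coe, TwoSidedIdeal.mem_ker]
    rcases hv with ⟨w, hw, rfl⟩ | ⟨a, ha, rfl⟩ | ⟨i, j, k, l, h1, h2, h3, h4, h5, h6, rfl⟩ |
      ⟨i, j, k, h1, h2, h3, rfl⟩
    · refine ev_J_zero hI (f := fun a : Pr => if a.1 < a.2 then t a.1 a.2 else 0)
        (fun a => ?_) hw (wd_mem_J le_rfl)
      split_ifs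
      · exact htI _ _
      · exact Submodule.zero_mem _
    · unfold unF
      rw [EVn_letter, if_neg ha]
    · rw [map_sub, map_mul, map_mul, unF_gn ht h1, unF_gn ht h6, ht.comm i j k l h1 h2 h3 h4 h5 h6,
        sub_self]
    · rw [map_sub, map_mul, map_mul, map_add, unF_gn ht h1, unF_gn ht h2, unF_gn ht h3,
        ht.rel i j k h1 h2 h3, sub_self]
  exact (TwoSidedIdeal.mem_ker _).1 (h (TwoSidedIdeal.mem_asIdeal.1 hv))

/-- the universal property -/
def _root_.MP446U.uni (hI : IsNilp N I) (ht : Braid t) (htI : ∀ i j, t i j ∈ I) : TT R N →ₐ[R] E :=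
  Ideal.Quotient.liftₐ (RI R N).asIdeal (unF t) (fun v hv => unF_zero hI ht htI hv)

lemma uni_qq (hI : IsNilp N I) (ht : Braid t) (htI : ∀ i j, t i j ∈ I) (v : FA R Pr) :
    uni hI ht htI (qq R N v) = unF t v := rfl

theorem _root_.MP446U.uni_tt (hI : IsNilp N I) (ht : Braid t) (htI : ∀ i j, t i j ∈ I) {i j : Fin 4}
    (hij : i ≠ j) : uni hI ht htI (tt R N i j) = t i j := by
  rw [tt_eq, uni_qq, unF_gn ht hij]

lemma _root_.MP446U.uni_mem (hI : IsNilp N I) (ht : Braid t) (htI : ∀ i j, t i j ∈ I) {u : TT R N}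
    (hu : u ∈ JJ R N) : uni hI ht htI u ∈ I := by
  obtain ⟨v, hv, rfl⟩ := mem_JU.1 hu
  rw [uni_qq]
  refine ev_J_mem hI (f := fun a : Pr => if a.1 < a.2 then t a.1 a.2 else 0) (fun a => ?_) hv
  split_ifs
  · exact htI _ _
  · exact Submodule.zero_mem _

end Univ

end Uni

/-! ### Dual numbers -/

section Dual

variable {R : Type} [CommRing R] {E : Type} [Ring E] [Algebra R E] {N : ℕ}

/-- `I ⊕ ε I` -/
def dualR (I : Submodule R E) : Submodule R (TrivSqZeroExt E E) where
  carrier := {x | x.fst ∈ I ∧ x.snd ∈ I}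
  add_mem' := fun ⟨h1, h2⟩ ⟨h3, h4⟩ => ⟨I.add_mem h1 h3, I.add_mem h2 h4⟩
  zero_mem' := ⟨I.zero_mem, I.zero_mem⟩
  smul_mem' := fun c x ⟨h1, h2⟩ => ⟨I.smul_mem c h1, I.smul_mem c h2⟩

lemma mem_dualR {I : Submodule R E} {x : TrivSqZeroExt E E} :
    x ∈ dualR I ↔ x.fst ∈ I ∧ x.snd ∈ I := Iff.rfl

lemma fst_prodR (l : List (TrivSqZeroExt E E)) : l.prod.fst = (l.map TrivSqZeroExt.fst).prod := by
  induction l with
  | nil => rfl
  | cons x l ih => rw [List.prod_cons, TrivSqZeroExt.fst_mul, ih, List.map_cons, List.prod_cons]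

/-- `ε`-part of a product: it is a sum of products of the same length -/
lemma snd_prodR {I : Submodule R E} (hI : IsNilp N I) (l : List (TrivSqZeroExt E E))
    (hl : ∀ x ∈ l, x ∈ dualR I) : (∀ m : List E, (∀ x ∈ m, x ∈ I) → N ≤ m.length + l.length →
      m.prod * l.prod.snd = 0) := by
  induction l with
  | nil =>
    intro m _ _
    rw [List.prod_nil, TrivSqZeroExt.snd_one, mul_zero]
  | cons x l ih =>
    intro m hm hlen
    have hx := hl x List.mem_cons_self
    have hl' : ∀ y ∈ l, y ∈ dualR I := fun y hy => hl y (List.mem_cons_of_mem _ hy)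
    rw [List.length_cons] at hlen
    rw [List.prod_cons, TrivSqZeroExt.snd_mul, smul_eq_mul, MulOpposite.smul_eq_mul_unop,
      MulOpposite.unop_op, mul_add]
    have e1 : m.prod * (x.fst * l.prod.snd) = 0 := by
      have := ih hl' (m ++ [x.fst]) (by
        intro y hy
        rcases List.mem_append.1 hy with h | h
        · exact hm y h
        · rw [List.mem_singleton.1 h]; exact hx.1) (by
        rw [List.length_append, List.length_singleton]; omega)
      rwa [List.prod_append, List.prod_singleton, mul_assoc] at this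
    have e2 : m.prod * (x.snd * l.prod.fst) = 0 := by
      rw [fst_prodR]
      have := pn_zero_of_le hI (m ++ ([x.snd] ++ l.map TrivSqZeroExt.fst)) (by
        intro y hy
        rcases List.mem_append.1 hy with h | h
        · exact hm y h
        · rcases List.mem_append.1 h with h | h
          · rw [List.mem_singleton.1 h]; exact hx.2
          · obtain ⟨z, hz, rfl⟩ := List.mem_map.1 h
            exact (hl' z hz).1) (by
        rw [List.length_append, List.length_append, List.length_singleton, List.length_map]; omega)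
      rwa [List.prod_append, List.prod_append, List.prod_singleton] at this
    rw [e1, e2, add_zero]

theorem nilp_dualR {I : Submodule R E} (hI : IsNilp N I) : IsNilp N (dualR I) where
  mul_mem := by
    intro x hx y hy
    refine ⟨?_, ?_⟩
    · rw [TrivSqZeroExt.fst_mul]; exact hI.mul_mem _ hx.1 _ hy.1
    · rw [TrivSqZeroExt.snd_mul, smul_eq_mul, MulOpposite.smul_eq_mul_unop, MulOpposite.unop_op]
      exact Submodule.add_mem _ (hI.mul_mem _ hx.1 _ hy.2) (hI.mul_mem _ hx.2 _ hy.1)
  prod_zero := by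
    intro l hl hN
    apply TrivSqZeroExt.ext
    · rw [fst_prodR, TrivSqZeroExt.fst_zero]
      apply hI.prod_zero
      · intro x hx
        obtain ⟨z, hz, rfl⟩ := List.mem_map.1 hx
        exact (hl z hz).1
      · rw [List.length_map, hN]
    · have := snd_prodR hI l hl [] (by simp) (by simp [hN])
      rwa [List.prod_nil, one_mul] at this

end Dual

end MP446U.PN
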