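import Pool.Agent.Lib.MP_446dfa_ag.unc.PRD
import Pool.Agent.Lib.MP_446dfa_ag.unc.UNI

set_option linter.all false

/-!
# PRP: the action preserves the pentagon relation
-/

noncomputable section

namespace MP446U.PRP

open MP446 MP446Y MP446Z MP446S MP446I MP446U PRD

section Def

variable {R : Type} [CommRing R] {E : Type} [Ring E] [Algebra R E]

/-- the deformation of a family `t` -/
def dd (Q : AA R) (t : Fin 4 → Fin 4 → E) : Fin 4 → Fin 4 → E :=
  let d01 := cm (EV (t 0 1) (t 1 2 + t 1 3) Q) (t 0 1)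
  let d12 := cm (EV (t 1 2) (t 2 3) Q) (t 1 2)
  let d02 := cm (EV (t 0 1) (t 1 2 + t 1 3) Q + EV (t 0 2 + t 1 2) (t 2 3) Q)
    (t 0 2 + t 1 2) - d12
  let d03 := -(d01 + d02 + d12 + -d12 + 0)
  ![![0, d01, d02, d03], ![d01, 0, d12, -d12], ![d02, d12, 0, 0], ![d03, -d12, 0, 0]]

lemma dd_defR (Q : AA R) (t : Fin 4 → Fin 4 → E) : DefR Q t (dd Q t) where
  symm := by
    intro i j
    fin_cases i <;> fin_cases j <;> rfl
  diag := by
    intro i
    fin_cases i <;> rfl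
  d01 := rfl
  d12 := rfl
  d23 := rfl
  d13 := rfl
  d02 := rfl
  d03 := rfl

end Def

section Der

variable {R : Type} [CommRing R] {N : ℕ}

lemma cm_mem (x : TT R N) {y : TT R N} (hy : y ∈ JJ R N) : cm x y ∈ JJ R N :=
  Submodule.sub_mem _ (JU_mul (JU_zero x) hy (by omega)) (JU_mul hy (JU_zero x) (by omega))

lemma dd_mem (Q : AA R) (i j : Fin 4) : dd Q (tt R N) i j ∈ JJ R N := by
  have h0 : (0 : TT R N) ∈ JJ R N := Submodule.zero_mem _
  have h01 : cm (EV (tt R N 0 1) (tt R N 1 2 + tt R N 1 3) Q) (tt R N 0 1) ∈ JJ R N :=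
    cm_mem _ (tt_mem N 0 1)
  have h12 : cm (EV (tt R N 1 2) (tt R N 2 3) Q) (tt R N 1 2) ∈ JJ R N := cm_mem _ (tt_mem N 1 2)
  have h02 : cm (EV (tt R N 0 1) (tt R N 1 2 + tt R N 1 3) Q +
      EV (tt R N 0 2 + tt R N 1 2) (tt R N 2 3) Q) (tt R N 0 2 + tt R N 1 2) -
      cm (EV (tt R N 1 2) (tt R N 2 3) Q) (tt R N 1 2) ∈ JJ R N :=
    Submodule.sub_mem _ (cm_mem _ (Submodule.add_mem _ (tt_mem N 0 2) (tt_mem N 1 2))) h12
  have h03 := Submodule.neg_mem _ (Submodule.add_mem _ (Submodule.add_mem _ (Submodule.add_mem _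
    (Submodule.add_mem _ h01 h02) h12) (Submodule.neg_mem _ h12)) h0)
  fin_cases i <;> fin_cases j
  · exact h0
  · exact h01
  · exact h02
  · exact h03
  · exact h01
  · exact h0
  · exact h12
  · exact Submodule.neg_mem _ h12
  · exact h02
  · exact h12
  · exact h0
  · exact h0
  · exact h03
  · exact Submodule.neg_mem _ h12
  · exact h0
  · exact h0

/-- the homomorphism to the dual numbers -/
def psi {Q : AA R} (hf : DefFacesR Q (tt R N) (dd Q (tt R N))) :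
    TT R N →ₐ[R] TrivSqZeroExt (TT R N) (TT R N) :=
  uni (nilp_dual (nilp_JJ R N)) hf.braid (fun i j => by
    rw [mem_dualR]
    constructor
    · rw [TrivSqZeroExt.fst_add, TrivSqZeroExt.fst_inl, TrivSqZeroExt.fst_inr, add_zero]
      exact tt_mem N i j
    · rw [TrivSqZeroExt.snd_add, TrivSqZeroExt.snd_inl, TrivSqZeroExt.snd_inr, zero_add]
      exact dd_mem Q i j)

lemma psi_tt {Q : AA R} (hf : DefFacesR Q (tt R N) (dd Q (tt R N))) {i j : Fin 4} (hij : i ≠ j) :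
    psi hf (tt R N i j) = TrivSqZeroExt.inl (tt R N i j) + TrivSqZeroExt.inr (dd Q (tt R N) i j) :=
  uni_tt _ _ _ hij

lemma psi_fst {Q : AA R} (hf : DefFacesR Q (tt R N) (dd Q (tt R N))) (X : TT R N) :
    (psi hf X).fst = X := by
  induction X using TT_induction with
  | h1 => rw [map_one, TrivSqZeroExt.fst_one]
  | hmul i j X hij ih =>
    rw [map_mul, TrivSqZeroExt.fst_mul, ih, psi_tt hf (ne_of_lt hij), TrivSqZeroExt.fst_add,
      TrivSqZeroExt.fst_inl, TrivSqZeroExt.fst_inr, add_zero]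
  | h0 => rw [map_zero, TrivSqZeroExt.fst_zero]
  | hadd X Y hX hY => rw [map_add, TrivSqZeroExt.fst_add, hX, hY]
  | hsmul c X hX => rw [map_smul, TrivSqZeroExt.fst_smul, hX]

/-- the derivation of the universal algebra -/
def del {Q : AA R} (hf : DefFacesR Q (tt R N) (dd Q (tt R N))) : TT R N →ₗ[R] TT R N where
  toFun := fun X => (psi hf X).snd
  map_add' := fun X Y => by rw [map_add, TrivSqZeroExt.snd_add]
  map_smul' := fun c X => by rw [map_smul, TrivSqZeroExt.snd_smul, RingHom.id_apply]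

lemma del_apply {Q : AA R} (hf : DefFacesR Q (tt R N) (dd Q (tt R N))) (X : TT R N) :
    del hf X = (psi hf X).snd := rfl

lemma del_mul {Q : AA R} (hf : DefFacesR Q (tt R N) (dd Q (tt R N))) (X Y : TT R N) :
    del hf (X * Y) = X * del hf Y + del hf X * Y := by
  rw [del_apply, map_mul, TrivSqZeroExt.snd_mul, psi_fst, psi_fst]
  rfl

lemma del_tt {Q : AA R} (hf : DefFacesR Q (tt R N) (dd Q (tt R N))) {i j : Fin 4} (hij : i ≠ j) :
    del hf (tt R N i j) = dd Q (tt R N) i j := by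
  rw [del_apply, psi_tt hf hij, TrivSqZeroExt.snd_add, TrivSqZeroExt.snd_inl,
    TrivSqZeroExt.snd_inr, zero_add]

/-- a polynomial without terms of length `< k` -/
lemma EV_JU {a b : TT R N} (ha : a ∈ JJ R N) (hb : b ∈ JJ R N) {k : ℕ} {X : AA R}
    (hX : X ∈ Lo R k) : EV a b X ∈ JU R N k := by
  rw [expand X, Finsupp.sum, map_sum]
  refine Submodule.sum_mem _ (fun w hw => ?_)
  rw [map_smul]
  by_cases h1 : (FreeMonoid.toList w).length < k
  · have h2 : X.coeff w = 0 := hX _ h1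
    rw [h2, zero_smul]
    exact Submodule.zero_mem _
  · refine Submodule.smul_mem _ _ (JU_anti (not_lt.1 h1) ?_)
    rw [EV_ow]
    have := JU_prod ((FreeMonoid.toList w).map ![a, b]) (fun x hx => map_mem' ha hb _ x hx)
    rwa [List.length_map] at this

/-- the five faces -/
def fa (i : Fin 5) : TT R N :=
  ![tt R N 0 1, tt R N 0 2 + tt R N 1 2, tt R N 1 2, tt R N 0 1 + tt R N 0 2, tt R N 0 1] i

/-- the five faces -/
def fb (i : Fin 5) : TT R N :=
  ![tt R N 1 2 + tt R N 1 3, tt R N 2 3, tt R N 2 3, tt R N 1 3 + tt R N 2 3, tt R N 1 2] i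

lemma fa_mem (i : Fin 5) : (fa i : TT R N) ∈ JJ R N := by
  fin_cases i
  · exact tt_mem N 0 1
  · exact Submodule.add_mem _ (tt_mem N 0 2) (tt_mem N 1 2)
  · exact tt_mem N 1 2
  · exact Submodule.add_mem _ (tt_mem N 0 1) (tt_mem N 0 2)
  · exact tt_mem N 0 1

lemma fb_mem (i : Fin 5) : (fb i : TT R N) ∈ JJ R N := by
  fin_cases i
  · exact Submodule.add_mem _ (tt_mem N 1 2) (tt_mem N 1 3)
  · exact tt_mem N 2 3
  · exact tt_mem N 2 3
  · exact Submodule.add_mem _ (tt_mem N 1 3) (tt_mem N 2 3)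
  · exact tt_mem N 1 2

/-- the value at a face -/
def Ph (i : Fin 5) : AA R →ₐ[R] TT R N := EV (fa i) (fb i)

lemma Ph_JU (i : Fin 5) {k : ℕ} {X : AA R} (hX : X ∈ Lo R k) : (Ph i X : TT R N) ∈ JU R N k :=
  EV_JU (fa_mem i) (fb_mem i) hX

/-- the constants -/
def Cc (Q : AA R) (i : Fin 5) : TT R N := ![0, Ph 0 Q, 0, Ph 2 Q, Ph 2 Q + Ph 3 Q] i

lemma del_Ph {Q : AA R} (hf : DefFacesR Q (tt R N) (dd Q (tt R N))) (i : Fin 5) (X : AA R) :
    del hf (Ph i X) = Ph i (DQ Q X) + cm (Cc Q i) (Ph i X) := by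
  have n01 : (0 : Fin 4) ≠ 1 := by decide
  have n02 : (0 : Fin 4) ≠ 2 := by decide
  have n12 : (1 : Fin 4) ≠ 2 := by decide
  have n13 : (1 : Fin 4) ≠ 3 := by decide
  have n23 : (2 : Fin 4) ≠ 3 := by decide
  have hD := dd_defR Q (tt R N)
  refine der_EV (del_mul hf) ?_ ?_ X
  · fin_cases i
    · change del hf (tt R N 0 1) = cm (EV (tt R N 0 1) (tt R N 1 2 + tt R N 1 3) Q + 0) (tt R N 0 1)
      rw [del_tt hf n01, hD.d01, add_zero]
    · change del hf (tt R N 0 2 + tt R N 1 2) = cm (EV (tt R N 0 2 + tt R N 1 2) (tt R N 2 3) Q +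
        EV (tt R N 0 1) (tt R N 1 2 + tt R N 1 3) Q) (tt R N 0 2 + tt R N 1 2)
      rw [map_add, del_tt hf n02, del_tt hf n12, hD.d02, sub_add_cancel, add_comm (EV _ _ Q)]
    · change del hf (tt R N 1 2) = cm (EV (tt R N 1 2) (tt R N 2 3) Q + 0) (tt R N 1 2)
      rw [del_tt hf n12, hD.d12, add_zero]
    · change del hf (tt R N 0 1 + tt R N 0 2) = cm (EV (tt R N 0 1 + tt R N 0 2)
        (tt R N 1 3 + tt R N 2 3) Q + EV (tt R N 1 2) (tt R N 2 3) Q) (tt R N 0 1 + tt R N 0 2)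
      rw [map_add, del_tt hf n01, del_tt hf n02, ← hf.f4a, add_comm (EV _ _ Q)]
    · change del hf (tt R N 0 1) = cm (EV (tt R N 0 1) (tt R N 1 2) Q +
        (EV (tt R N 1 2) (tt R N 2 3) Q + EV (tt R N 0 1 + tt R N 0 2)
        (tt R N 1 3 + tt R N 2 3) Q)) (tt R N 0 1)
      rw [del_tt hf n01, ← hf.f5a, add_comm (EV (tt R N 0 1) (tt R N 1 2) Q)]
  · fin_cases i
    · change del hf (tt R N 1 2 + tt R N 1 3) = cm 0 _
      rw [map_add, del_tt hf n12, del_tt hf n13, hD.d13, add_neg_cancel]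
      simp [cm]
    · change del hf (tt R N 2 3) = cm (EV (tt R N 0 1) (tt R N 1 2 + tt R N 1 3) Q) (tt R N 2 3)
      rw [del_tt hf n23, hD.d23, hf.f2]
    · change del hf (tt R N 2 3) = cm 0 _
      rw [del_tt hf n23, hD.d23]
      simp [cm]
    · change del hf (tt R N 1 3 + tt R N 2 3) = cm (EV (tt R N 1 2) (tt R N 2 3) Q)
        (tt R N 1 3 + tt R N 2 3)
      rw [map_add, del_tt hf n13, del_tt hf n23, ← hf.f4b]
    · change del hf (tt R N 1 2) = cm (EV (tt R N 1 2) (tt R N 2 3) Q +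
        EV (tt R N 0 1 + tt R N 0 2) (tt R N 1 3 + tt R N 2 3) Q) (tt R N 1 2)
      rw [del_tt hf n12, ← hf.f5b]

/-- `δ Φ_i X = Φ_i (L X) - Φ_i X q_i + [C_i, Φ_i X]` -/
lemma del_Ph' {Q : AA R} (hf : DefFacesR Q (tt R N) (dd Q (tt R N))) (i : Fin 5) (X : AA R) :
    del hf (Ph i X) = Ph i (LQ Q X) - Ph i X * Ph i Q + cm (Cc Q i) (Ph i X) := by
  rw [del_Ph, LQ_apply, map_add, map_mul, add_sub_cancel_right]

/-- the operator on the two sides of the pentagon equation -/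
def Lam {Q : AA R} (hf : DefFacesR Q (tt R N) (dd Q (tt R N))) : Module.End R (TT R N) :=
  (del hf : Module.End R (TT R N)) + LinearMap.mulRight R (Ph 0 Q + Ph 1 Q)

lemma Lam_apply {Q : AA R} (hf : DefFacesR Q (tt R N) (dd Q (tt R N))) (W : TT R N) :
    Lam hf W = del hf W + W * (Ph 0 Q + Ph 1 Q) := rfl

lemma Lam_two {Q : AA R} (hf : DefFacesR Q (tt R N) (dd Q (tt R N))) (X Y : AA R) :
    Lam hf (Ph 0 X * Ph 1 Y) = Ph 0 (LQ Q X) * Ph 1 Y + Ph 0 X * Ph 1 (LQ Q Y) := by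
  rw [Lam_apply, del_mul, del_Ph', del_Ph']
  change _ * (_ + cm (Ph 0 Q) (Ph 1 Y)) + (_ + cm 0 (Ph 0 X)) * _ + _ = _
  simp only [cm, mul_add, add_mul, mul_sub, sub_mul, mul_assoc, zero_mul, mul_zero]
  abel

lemma Lam_three {Q : AA R} (hf : DefFacesR Q (tt R N) (dd Q (tt R N)))
    (hp : (Ph 0 Q + Ph 1 Q : TT R N) = Ph 2 Q + Ph 3 Q + Ph 4 Q) (X Y Z : AA R) :
    Lam hf (Ph 2 X * Ph 3 Y * Ph 4 Z) = Ph 2 (LQ Q X) * Ph 3 Y * Ph 4 Z +
      Ph 2 X * Ph 3 (LQ Q Y) * Ph 4 Z + Ph 2 X * Ph 3 Y * Ph 4 (LQ Q Z) := by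
  rw [Lam_apply, del_mul, del_mul, del_Ph', del_Ph', del_Ph', hp]
  change _ * (_ + cm (Ph 2 Q + Ph 3 Q) (Ph 4 Z)) + (_ * (_ + cm (Ph 2 Q) (Ph 3 Y)) +
    (_ + cm 0 (Ph 2 X)) * _) * _ + _ = _
  simp only [cm, mul_add, add_mul, mul_sub, sub_mul, mul_assoc, zero_mul, mul_zero]
  abel

/-- the bilinear map -/
def m2 (R : Type) [CommRing R] (N : ℕ) : AA R →ₗ[R] AA R →ₗ[R] TT R N :=
  LinearMap.mk₂ R (fun X Y => Ph 0 X * Ph 1 Y)
    (fun X X' Y => by rw [map_add, add_mul])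
    (fun c X Y => by rw [map_smul, smul_mul_assoc])
    (fun X Y Y' => by rw [map_add, mul_add])
    (fun c X Y => by rw [map_smul, mul_smul_comm])

lemma m2_apply (X Y : AA R) : m2 R N X Y = Ph 0 X * Ph 1 Y := rfl

/-- the trilinear map -/
def m3 (R : Type) [CommRing R] (N : ℕ) : AA R →ₗ[R] AA R →ₗ[R] AA R →ₗ[R] TT R N :=
  LinearMap.mk₂ R (fun X Y => LinearMap.mulLeft R (Ph 2 X * Ph 3 Y) ∘ₗ
      ((Ph 4 : AA R →ₐ[R] TT R N).toLinearMap))
    (fun X X' Y => by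
      refine LinearMap.ext (fun Z => ?_)
      change Ph 2 (X + X') * Ph 3 Y * Ph 4 Z = Ph 2 X * Ph 3 Y * Ph 4 Z + Ph 2 X' * Ph 3 Y * Ph 4 Z
      rw [map_add, add_mul, add_mul])
    (fun c X Y => by
      refine LinearMap.ext (fun Z => ?_)
      change Ph 2 (c • X) * Ph 3 Y * Ph 4 Z = c • (Ph 2 X * Ph 3 Y * Ph 4 Z)
      rw [map_smul, smul_mul_assoc, smul_mul_assoc])
    (fun X Y Y' => by
      refine LinearMap.ext (fun Z => ?_)
      change Ph 2 X * Ph 3 (Y + Y') * Ph 4 Z = Ph 2 X * Ph 3 Y * Ph 4 Z + Ph 2 X * Ph 3 Y' * Ph 4 Z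
      rw [map_add, mul_add, add_mul])
    (fun c X Y => by
      refine LinearMap.ext (fun Z => ?_)
      change Ph 2 X * Ph 3 (c • Y) * Ph 4 Z = c • (Ph 2 X * Ph 3 Y * Ph 4 Z)
      rw [map_smul, mul_smul_comm, smul_mul_assoc])

lemma m3_apply (X Y Z : AA R) : m3 R N X Y Z = Ph 2 X * Ph 3 Y * Ph 4 Z := rfl

end Der

/-- the pentagon relation in the universal algebra -/
lemma pent_TT (hSH2 : SpecSH2) (hSH3 : SpecSH3) (hOPA : SpecOPA) (hDFR : SpecDFR) (R S : Type)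
    [CommRing R] [Algebra ℚ R] (A : GFam R S) (u : List S → R) (hu : IsGroupLike u)
    (hdg : ∀ s, 2 ≤ A.dg s) (N : ℕ) (f : List (Fin 2) → R) (hf : PentN R N f) :
    (Ph 0 (A.TN N u (trn N f)) * Ph 1 (A.TN N u (trn N f)) : TT R N) =
      Ph 2 (A.TN N u (trn N f)) * Ph 3 (A.TN N u (trn N f)) * Ph 4 (A.TN N u (trn N f)) := by
  have hface : ∀ s, DefFacesR (A.Q s) (tt R N) (dd (A.Q s) (tt R N)) := fun s =>
    hDFR R (A.dg s) (A.Q s) (hdg s) (A.gq s) (TT R N) (tt R N) (dd (A.Q s) (tt R N)) (braid_tt R N)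
      (dd_defR _ _)
  have e2 : ∑ p ∈ A.wd N, u p • opw (xL A) p (trn N f) = A.TN N u (trn N f) := by
    unfold GFam.TN
    rw [LinearMap.sum_apply]
    rfl
  have k2 := hSH2 R S A.toAlph u hu (AA R) (AA R) (TT R N) (xL A) (xL A) (fun s => Lam (hface s))
    (m2 R N) (fun s X Y => Lam_two (hface s) X Y) N (trn N f) (trn N f) (fun p q hpq => by
      rw [m2_apply]
      exact JU_eq_zero hpq (JU_mul (Ph_JU 0 (Lo_opw A p _)) (Ph_JU 1 (Lo_opw A q _)) le_rfl))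
  have k3 := hSH3 R S A.toAlph u hu (AA R) (AA R) (AA R) (TT R N) (xL A) (xL A) (xL A)
    (fun s => Lam (hface s)) (m3 R N) (fun s X Y Z => Lam_three (hface s)
      ((A.gq s).pent (TT R N) (tt R N) (braid_tt R N)) X Y Z) N (trn N f) (trn N f) (trn N f)
    (fun p q r hpq => by
      rw [m3_apply]
      exact JU_eq_zero hpq (JU_mul (JU_mul (Ph_JU 2 (Lo_opw A p _)) (Ph_JU 3 (Lo_opw A q _)) le_rfl)
        (Ph_JU 4 (Lo_opw A r _)) le_rfl))
  rw [e2] at k2 k3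
  have hI := nilp_JJ R N
  have e3 : m2 R N (trn N f) (trn N f) = m3 R N (trn N f) (trn N f) (trn N f) := by
    rw [m2_apply, m3_apply]
    unfold Ph
    rw [← val_eq hI (fa_mem 0) (fb_mem 0), ← val_eq hI (fa_mem 1) (fb_mem 1),
      ← val_eq hI (fa_mem 2) (fb_mem 2), ← val_eq hI (fa_mem 3) (fb_mem 3),
      ← val_eq hI (fa_mem 4) (fb_mem 4)]
    exact hf (TT R N) (JJ R N) hI (tt R N) (braid_tt R N) (fun i j => tt_mem N i j)
  rw [e3, k3] at k2
  exact k2.symm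

end MP446U.PRP

namespace MP446U

open MP446 MP446Y MP446Z MP446S MP446I MP446U PRD PRP

theorem specPRP_of (hSH2 : SpecSH2) (hSH3 : SpecSH3) (hOPA : SpecOPA) (hDFR : SpecDFR) :
    SpecPRP := by
  intro R S _ _ A u hu hdg N f hf E _ _ I hI t ht htI
  have key := pent_TT hSH2 hSH3 hOPA hDFR R S A u hu hdg N f hf
  have hJ := nilp_JJ R N
  have hv : ∀ i : Fin 5, val (A.act u f) (fa i : TT R N) (fb i) = Ph i (A.TN N u (trn N f)) :=
    fun i => (hOPA R S A u f).2.2 N (TT R N) (JJ R N) hJ _ (fa_mem i) _ (fb_mem i)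
  rw [← hv, ← hv, ← hv, ← hv, ← hv] at key
  have h := congrArg (uni hI ht htI) key
  rw [map_mul, map_mul, map_mul, val_map hJ _ (fa_mem 0) (fb_mem 0), val_map hJ _ (fa_mem 1)
    (fb_mem 1), val_map hJ _ (fa_mem 2) (fb_mem 2), val_map hJ _ (fa_mem 3) (fb_mem 3),
    val_map hJ _ (fa_mem 4) (fb_mem 4)] at h
  have n01 : (0 : Fin 4) ≠ 1 := by decide
  have n02 : (0 : Fin 4) ≠ 2 := by decide
  have n12 : (1 : Fin 4) ≠ 2 := by decide
  have n13 : (1 : Fin 4) ≠ 3 := by decide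
  have n23 : (2 : Fin 4) ≠ 3 := by decide
  change val _ (uni hI ht htI (tt R N 0 1)) (uni hI ht htI (tt R N 1 2 + tt R N 1 3)) *
    val _ (uni hI ht htI (tt R N 0 2 + tt R N 1 2)) (uni hI ht htI (tt R N 2 3)) =
    val _ (uni hI ht htI (tt R N 1 2)) (uni hI ht htI (tt R N 2 3)) *
    val _ (uni hI ht htI (tt R N 0 1 + tt R N 0 2)) (uni hI ht htI (tt R N 1 3 + tt R N 2 3)) *
    val _ (uni hI ht htI (tt R N 0 1)) (uni hI ht htI (tt R N 1 2)) at h
  simp only [map_add, uni_tt hI ht htI n01, uni_tt hI ht htI n02, uni_tt hI ht htI n12,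
    uni_tt hI ht htI n13, uni_tt hI ht htI n23] at h
  exact h

end MP446U
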