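import Pool.Agent.Lib.MP_446dfa_ag.unc.PunC
import Pool.Agent.Lib.MP_446dfa_ag.unc.Spec

set_option linter.all false

/-!
# PUN: every nilpotent family of pure braids comes from infinitesimal braids
-/

noncomputable section

namespace MP446U.PN

open MP446 MP446Y MP446Z MP446S MP446I

section Core

variable {E : Type} [Ring E] [Algebra ℚ E] {M : ℕ} {I : Submodule ℚ E}
  {x : Fin 4 → Fin 4 → Eˣ} {X : Fin 4 → Fin 4 → (TT ℚ M)ˣ}

/-- pairs -/
def yy (X : Fin 4 → Fin 4 → (TT ℚ M)ˣ) (x : Fin 4 → Fin 4 → Eˣ) :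
    Fin 4 → Fin 4 → (TT ℚ M × E)ˣ := fun i j => MulEquiv.prodUnits.symm (X i j, x i j)

lemma yy_fst (i j : Fin 4) : ((yy X x i j : (TT ℚ M × E)ˣ) : TT ℚ M × E).1 = X i j := rfl
lemma yy_snd (i j : Fin 4) : ((yy X x i j : (TT ℚ M × E)ˣ) : TT ℚ M × E).2 = x i j := rfl

lemma pb_yy (hX : PureBraid X) (hx : PureBraid x) : PureBraid (yy X x) :=
  PureBraid.map' (PureBraid.prod' hX hx) (MulEquiv.prodUnits.symm.toMonoidHom)

lemma psi_fst (v : FA ℚ Pr) : (psi (yy X x) v).1 = psi X v := by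
  have h := EVn_comp (fun a : Pr => if a.1 < a.2 then ((yy X x a.1 a.2 : (TT ℚ M × E)ˣ) :
    TT ℚ M × E) - 1 else 0) (AlgHom.fst ℚ (TT ℚ M) E) v
  have h2 : (fun a : Pr => AlgHom.fst ℚ (TT ℚ M) E (if a.1 < a.2 then
      ((yy X x a.1 a.2 : (TT ℚ M × E)ˣ) : TT ℚ M × E) - 1 else 0)) =
      fun a : Pr => if a.1 < a.2 then (X a.1 a.2 : TT ℚ M) - 1 else 0 := by
    funext a
    split_ifs <;> rfl
  rw [h2] at h
  exact h

lemma psi_snd (v : FA ℚ Pr) : (psi (yy X x) v).2 = psi x v := by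
  have h := EVn_comp (fun a : Pr => if a.1 < a.2 then ((yy X x a.1 a.2 : (TT ℚ M × E)ˣ) :
    TT ℚ M × E) - 1 else 0) (AlgHom.snd ℚ (TT ℚ M) E) v
  have h2 : (fun a : Pr => AlgHom.snd ℚ (TT ℚ M) E (if a.1 < a.2 then
      ((yy X x a.1 a.2 : (TT ℚ M × E)ˣ) : TT ℚ M × E) - 1 else 0)) =
      fun a : Pr => if a.1 < a.2 then (x a.1 a.2 : E) - 1 else 0 := by
    funext a
    split_ifs <;> rfl
  rw [h2] at h
  exact h

/-- lift of `psi X` to the free algebra -/
lemma tilde_ex (hlead : ∀ i j, i < j → (X i j : TT ℚ M) - 1 - tt ℚ M i j ∈ JU ℚ M 2) :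
    ∃ j : Pr → FA ℚ Pr, (∀ a, j a ∈ J ℚ Pr 2) ∧
      ∀ v, qq ℚ M (EVn (fun a => letter ℚ a + j a) v) = psi X v := by
  have h : ∀ a : Pr, ∃ b ∈ J ℚ Pr 2, qq ℚ M (letter ℚ a + b) = psi X (letter ℚ a) := by
    intro a
    rw [psi_letter]
    by_cases ha : a.1 < a.2
    · obtain ⟨b, hb, h⟩ := mem_JU.1 (hlead a.1 a.2 ha)
      refine ⟨b, hb, ?_⟩
      rw [if_pos ha, map_add, h, tt_eq, gn_lt ha]
      abel
    · refine ⟨0, Submodule.zero_mem _, ?_⟩
      rw [if_neg ha, add_zero]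
      exact qq_rel (Or.inr (Or.inl ⟨a, ha, rfl⟩))
  choose j hj1 hj2 using h
  refine ⟨j, hj1, fun v => ?_⟩
  have e : (qq ℚ M).comp (EVn (fun a => letter ℚ a + j a)) = psi X := by
    apply EVn_hom_ext
    intro a
    rw [AlgHom.comp_apply, EVn_letter, hj2]
  exact DFunLike.congr_fun e v

variable (hM : 2 ≤ M) (hI : IsNilp M I) (hx : PureBraid x)
  (hxI : ∀ i j, i < j → (x i j : E) - 1 ∈ I) (hX : PureBraid X)
  (hXI : ∀ i j, i < j → (X i j : TT ℚ M) - 1 ∈ JJ ℚ M)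
  (hlead : ∀ i j, i < j → (X i j : TT ℚ M) - 1 - tt ℚ M i j ∈ JU ℚ M 2)

lemma psi_mem (hI : IsNilp M I) (hxI : ∀ i j, i < j → (x i j : E) - 1 ∈ I) {v : FA ℚ Pr}
    (hv : v ∈ J ℚ Pr 1) : psi x v ∈ I := by
  refine ev_J_mem hI (f := fun a : Pr => if a.1 < a.2 then (x a.1 a.2 : E) - 1 else 0)
    (fun a => ?_) hv
  split_ifs with h
  · exact hxI _ _ h
  · exact Submodule.zero_mem _

lemma psi_zero (hI : IsNilp M I) (hxI : ∀ i j, i < j → (x i j : E) - 1 ∈ I) {d : ℕ} (hd : M ≤ d)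
    {v : FA ℚ Pr} (hv : v ∈ J ℚ Pr d) : psi x v = 0 := by
  refine ev_J_zero hI (f := fun a : Pr => if a.1 < a.2 then (x a.1 a.2 : E) - 1 else 0)
    (fun a => ?_) hd hv
  split_ifs with h
  · exact hxI _ _ h
  · exact Submodule.zero_mem _

include hM hI hx hxI hX hXI hlead

/-- the kernel of `psi X` is contained in the kernel of `psi x` -/
lemma ker_le (n : ℕ) : ∀ d : ℕ, M ≤ d + n → ∀ u ∈ J ℚ Pr d, psi X u = 0 → psi x u = 0 := by
  induction n with
  | zero =>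
    intro d hd u hu _
    exact psi_zero hI hxI (by omega) hu
  | succ n ih =>
    intro d hd u hu h
    obtain ⟨j, hj1, hj2⟩ := tilde_ex hlead
    have h1 := tilde_sub hj1 hu
    set w := EVn (fun a => letter ℚ a + j a) u with hw
    have h2 : w ∈ RI ℚ M := by
      rw [← qq_zero, hj2, h]
    have hyI : ∀ i j, i < j → ((yy X x i j : (TT ℚ M × E)ˣ) : TT ℚ M × E) - 1 ∈
        (JJ ℚ M).prod I := fun i j hij => ⟨hXI i j hij, hxI i j hij⟩
    have h3 := RI_le (nilp_prod (nilp_JJ ℚ M) hI) hM (pb_yy hX hx) hyI h2 d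
    obtain ⟨b, hb, hwb⟩ := h3
    have hb1 : psi X b = 0 := by rw [← psi_fst (x := x), hb]; rfl
    have hb2 : psi x b = 0 := by rw [← psi_snd (X := X), hb]; rfl
    have h4 : comp d w = comp d u := by
      rw [← sub_eq_zero, ← map_sub]
      exact comp_eq_zero (Nat.lt_succ_self d) h1
    rw [h4] at hwb
    have h5 : u - b ∈ J ℚ Pr (d + 1) := by
      have := Submodule.add_mem _ (sub_comp_mem hu) hwb
      rwa [sub_add_sub_cancel] at this
    have h6 := ih (d + 1) (by omega) (u - b) h5 (by rw [map_sub, h, hb1, sub_zero])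
    rw [map_sub, hb2, sub_zero] at h6
    exact h6

omit hM hI hx hxI hX in
/-- `psi X` is onto -/
lemma psi_surj (n : ℕ) : ∀ d : ℕ, M ≤ d + n → ∀ v ∈ J ℚ Pr d,
    ∃ u ∈ J ℚ Pr d, psi X u = qq ℚ M v := by
  induction n with
  | zero =>
    intro d hd v hv
    refine ⟨0, Submodule.zero_mem _, ?_⟩
    rw [map_zero, qq_J (by omega) hv]
  | succ n ih =>
    intro d hd v hv
    obtain ⟨j, hj1, hj2⟩ := tilde_ex hlead
    have h1 := tilde_sub hj1 hv
    obtain ⟨u', hu', h2⟩ := ih (d + 1) (by omega) _ h1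
    refine ⟨v - u', Submodule.sub_mem _ hv (J_anti (Nat.le_succ d) hu'), ?_⟩
    rw [map_sub, h2, map_sub, hj2]
    abel

/-- the homomorphism from the universal algebra -/
theorem pun_core : ∃ g : TT ℚ M →ₐ[ℚ] E, (∀ i j, i < j → (x i j : E) = g (X i j)) ∧
    ∀ u ∈ JJ ℚ M, g u ∈ I := by
  have ker : ∀ u v, psi X u = psi X v → psi x u = psi x v := by
    intro u v h
    have := ker_le hM hI hx hxI hX hXI hlead M 0 (by omega) (u - v) (J_zero _)
      (by rw [map_sub, h, sub_self])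
    rwa [map_sub, sub_eq_zero] at this
  have surj : ∀ u : TT ℚ M, ∃ v, psi X v = u := by
    intro u
    obtain ⟨w, rfl⟩ := qq_surj M u
    obtain ⟨v, _, hv⟩ := psi_surj hXI hlead M 0 (by omega) w (J_zero _)
    exact ⟨v, hv⟩
  choose s hs using surj
  let g : TT ℚ M →ₐ[ℚ] E :=
    { toFun := fun u => psi x (s u)
      map_one' := by
        rw [← map_one (psi x)]
        exact ker _ _ (by rw [hs, map_one])
      map_mul' := fun u v => by
        rw [← map_mul]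
        exact ker _ _ (by rw [hs, map_mul, hs, hs])
      map_zero' := by
        rw [← map_zero (psi x)]
        exact ker _ _ (by rw [hs, map_zero])
      map_add' := fun u v => by
        rw [← map_add]
        exact ker _ _ (by rw [hs, map_add, hs, hs])
      commutes' := fun r => by
        rw [← AlgHom.commutes (psi x) r]
        exact ker _ _ (by rw [hs, AlgHom.commutes]) }
  have hg : ∀ v, g (psi X v) = psi x v := fun v => ker _ _ (hs _)
  refine ⟨g, ?_, ?_⟩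
  · intro i j hij
    rw [← psi_YY (y := X) hij, hg, psi_YY hij]
  · intro u hu
    obtain ⟨v, hv, rfl⟩ := mem_JU.1 hu
    obtain ⟨w, hw, h⟩ := psi_surj hXI hlead M 1 (by omega) v hv
    rw [← h, hg]
    exact psi_mem hI hxI hw

end Core

lemma Braid.map' {E F : Type} [Ring E] [Ring F] {t : Fin 4 → Fin 4 → E} (h : Braid t)
    (g : E →+* F) : Braid (fun i j => g (t i j)) where
  symm := fun i j => by rw [h.symm]
  comm := fun i j k l h1 h2 h3 h4 h5 h6 => by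
    rw [← map_mul, ← map_mul, h.comm i j k l h1 h2 h3 h4 h5 h6]
  rel := fun i j k h1 h2 h3 => by
    rw [← map_add, ← map_mul, ← map_mul, h.rel i j k h1 h2 h3]

/-- **PUN**, from BRD -/
theorem _root_.MP446U.specPUN (hBRD : SpecBRD) : SpecPUN := by
  intro φ hφ E _ _ N I hI x hx hxI
  have hI' : IsNilp (N + 2) I := pn_mono hI (by omega)
  obtain ⟨X, hX, hXI, hXT⟩ := hBRD φ hφ (TT ℚ (N + 2)) (N + 2) (JJ ℚ (N + 2))
    (nilp_JJ ℚ (N + 2)) (tt ℚ (N + 2)) (braid_tt ℚ (N + 2)) (fun i j => tt_mem _ i j)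
  have hlead := XT_lead (K := JU ℚ (N + 2) 2) (hφ (N + 2)).one (nilp_JJ ℚ (N + 2)) (by omega)
    (fun x hx y hy => JU_mul hx hy le_rfl) hXT (fun i j => tt_mem _ i j) hXI
  obtain ⟨g, hg1, hg2⟩ := pun_core (by omega) hI' hx hxI hX hXI hlead
  refine ⟨fun i j => g (tt ℚ (N + 2) i j), ?_, fun i j => hg2 _ (tt_mem _ i j), ?_⟩
  · exact Braid.map' (braid_tt ℚ (N + 2)) (g : TT ℚ (N + 2) →+* E)
  · exact XT.map hXT (nilp_JJ ℚ (N + 2)) (fun i j => tt_mem _ i j) g hg1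

end MP446U.PN
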