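import Pool.Agent.Lib.MP_446dfa_ag.unc.Spec
import Pool.Agent.Lib.MP_446dfa_ag.unc.Base

set_option linter.all false

/-!
# Module SHC: shift by central elements
-/

noncomputable section

namespace MP446U.SHC

open MP446 MP446Y MP446Z MP446S MP446I

section Pow

variable {R : Type} [CommRing R]

lemma shuffle_rep (i : Fin 2) (m : ℕ) :
    shuffle [i] (List.replicate m i) = List.replicate (m + 1) (List.replicate (m + 1) i) := by
  induction m with
  | zero => rw [List.replicate_zero, shuffle_nil_right]; rfl
  | succ m ih =>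
    rw [List.replicate_succ (n := m), shuffle_cons, ih, shuffle_nil_left, List.map_replicate,
      List.map_cons, List.map_nil, ← List.replicate_succ, ← List.replicate_succ]
    rfl

lemma natCast_unit [Algebra ℚ R] (m : ℕ) {x : R} (h : ((m + 1 : ℕ) : R) * x = 0) : x = 0 := by
  have h1 : algebraMap ℚ R (((m + 1 : ℕ) : ℚ)⁻¹) * ((m + 1 : ℕ) : R) = 1 := by
    have h2 : ((m + 1 : ℕ) : R) = algebraMap ℚ R ((m + 1 : ℕ) : ℚ) := by rw [map_natCast]
    rw [h2, ← map_mul, inv_mul_cancel₀, map_one]
    exact_mod_cast Nat.succ_ne_zero m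
  calc x = (algebraMap ℚ R (((m + 1 : ℕ) : ℚ)⁻¹) * ((m + 1 : ℕ) : R)) * x := by rw [h1, one_mul]
    _ = algebraMap ℚ R (((m + 1 : ℕ) : ℚ)⁻¹) * (((m + 1 : ℕ) : R) * x) := by rw [mul_assoc]
    _ = 0 := by rw [h, mul_zero]

/-- the coefficients of the powers of a letter -/
lemma cf_rep [Algebra ℚ R] {N : ℕ} {f : List (Fin 2) → R}
    (hgl : ∀ v w : List (Fin 2), v.length + w.length < N → f v * f w = ((shuffle v w).map f).sum)
    (i : Fin 2) (hi : f [i] = 0) (m : ℕ) (hm : m + 1 < N) : f (List.replicate (m + 1) i) = 0 := by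
  have h := hgl [i] (List.replicate m i) (by simp; omega)
  rw [hi, zero_mul, shuffle_rep, List.map_replicate, List.sum_replicate, nsmul_eq_mul] at h
  exact natCast_unit m h.symm

variable {E : Type} [Ring E] [Algebra R E] {N : ℕ} {I : Submodule R E}

lemma word_one_side (i : Fin 2) (x : Fin 2 → E) (hx : ∀ j, j ≠ i → x j = 0) (w : List (Fin 2))
    (hw : w ≠ List.replicate w.length i) : (w.map x).prod = 0 := by
  have h1 : ∃ j ∈ w, j ≠ i := by
    by_contra hc
    exact hw (List.eq_replicate_iff.2 ⟨rfl, fun j hj => by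
      by_contra h
      exact hc ⟨j, hj, h⟩⟩)
  obtain ⟨j, hj, hji⟩ := h1
  apply List.prod_eq_zero
  rw [← hx j hji]
  exact List.mem_map_of_mem hj

/-- the value at `(a, 0)` or `(0, b)` -/
lemma val_one_side [Algebra ℚ R] (h : IsNilp N I) {a b : E} (ha : a ∈ I) (hb : b ∈ I)
    {f : List (Fin 2) → R} (h0 : f [] = 1)
    (hgl : ∀ v w : List (Fin 2), v.length + w.length < N → f v * f w = ((shuffle v w).map f).sum)
    (i : Fin 2) (hi : 2 ≤ N → f [i] = 0) (hx : ∀ j, j ≠ i → ![a, b] j = 0) :
    val f a b = 1 := by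
  by_cases hN : N = 0
  · subst hN
    have h1 : (1 : E) = 0 := by
      have := h.prod_zero [] (by simp) rfl
      simpa using this
    have := subsingleton_of_zero_eq_one h1.symm
    exact Subsingleton.elim _ _
  · rw [val_wl h ha hb, Finset.sum_eq_single []]
    · rw [h0, one_smul, List.map_nil, List.prod_nil]
    · intro w hw hne
      rw [mem_wl] at hw
      by_cases hr : w = List.replicate w.length i
      · have h1 := List.length_pos_of_ne_nil hne
        obtain ⟨m, hm⟩ : ∃ m, w.length = m + 1 := ⟨w.length - 1, by omega⟩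
        rw [hr, hm, cf_rep hgl i (hi (by omega)) m (by omega), zero_smul]
      · rw [word_one_side i _ hx w hr, smul_zero]
    · intro hc
      exfalso
      apply hc
      rw [mem_wl]
      simp
      omega

end Pow

end MP446U.SHC

namespace MP446U

open MP446 MP446Y MP446Z MP446S MP446I SHC

theorem specSHC (hGLE : SpecGLE) (hSHF : SpecSHF) : SpecSHC := by
  intro R _ _ N μ f hf E _ _ I hI
  have hV := ((hGLE R N f).1 ⟨hf.one, hf.gl⟩).2 E I hI
  have hlin : 2 ≤ N → f [0] = 0 ∧ f [1] = 0 := fun hN => hSHF R N μ f hN hf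
  have h2 : ∀ a ∈ I, ∀ b ∈ I, a * b = b * a → val f a b = 1 := by
    intro a ha b hb hab
    have e := hV a ha 0 I.zero_mem 0 I.zero_mem b hb
      ⟨by rw [mul_zero, zero_mul], hab, by rw [mul_zero], by rw [zero_mul, mul_zero]⟩
    rw [add_zero, zero_add] at e
    rw [e, val_one_side hI ha I.zero_mem hf.one hf.gl 0 (fun hN => (hlin hN).1) ?_,
      val_one_side hI I.zero_mem hb hf.one hf.gl 1 (fun hN => (hlin hN).2) ?_, one_mul]
    · intro j hj
      fin_cases j
      · rfl
      · exact absurd rfl hj
    · intro j hj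
      fin_cases j
      · exact absurd rfl hj
      · rfl
  have h1 : ∀ a ∈ I, ∀ b ∈ I, ∀ z ∈ I, ∀ z' ∈ I, a * z = z * a → b * z = z * b → a * z' = z' * a →
      b * z' = z' * b → z * z' = z' * z → val f (a + z) (b + z') = val f a b := by
    intro a ha b hb z hz z' hz' haz hbz haz' hbz' hzz'
    rw [hV a ha b hb z hz z' hz' ⟨haz, haz', hbz, hbz'⟩, h2 z hz z' hz' hzz', mul_one]
  refine ⟨h1, h2, ?_⟩
  intro a ha b hb c hc z hz habc haz hbz ν hν
  have hcz : c * z = z * c := by
    have : c = z - a - b := by rw [← habc]; abel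
    rw [this]
    simp only [sub_mul, mul_sub, haz, hbz]
  have hc' : c - z ∈ I := I.sub_mem hc hz
  have e := hf.hex E I hI a ha b hb (c - z) hc' (by rw [← habc]; abel) ν hν
  have e1 : val f (c - z) a = val f c a := by
    have := h1 (c - z) hc' a ha z hz 0 I.zero_mem (by rw [sub_mul, mul_sub, hcz]) haz
      (by rw [mul_zero, zero_mul]) (by rw [mul_zero, zero_mul]) (by rw [mul_zero, zero_mul])
    rw [sub_add_cancel, add_zero] at this
    exact this.symm
  have e2 : val f b (c - z) = val f b c := by
    have := h1 b hb (c - z) hc' 0 I.zero_mem z hz (by rw [mul_zero, zero_mul])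
      (by rw [mul_zero, zero_mul]) hbz (by rw [sub_mul, mul_sub, hcz]) (by rw [mul_zero, zero_mul])
    rw [sub_add_cancel, add_zero] at this
    exact this.symm
  have hνz : ν • z ∈ I := I.smul_mem _ hz
  have hνc : ν • c ∈ I := I.smul_mem _ hc
  have e3 : expU R (ν • (c - z)) = expU R (ν • c) * expU R (-(ν • z)) := by
    rw [smul_sub, sub_eq_add_neg]
    refine expU_add (pow_zero' hI hνc) (pow_zero' hI (I.neg_mem hνz)) ?_
    refine Commute.neg_right ?_
    refine Commute.smul_left (Commute.smul_right hcz _) _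
  rw [e1, e2, e3] at e
  -- `expU (-(ν z))` commutes with everything
  have hzc : ∀ g : E, Commute g z → Commute g (expU R (-(ν • z))) := by
    intro g hg
    exact expU_comm hI (I.neg_mem hνz) (Commute.neg_right (Commute.smul_right hg _))
  have k1 : Commute (val f b c) z :=
    (val_commute hI hb hc f (show Commute z b from hbz.symm) (show Commute z c from hcz.symm)).symm
  have k2 : Commute (val f a b) z :=
    (val_commute hI ha hb f (show Commute z a from haz.symm) (show Commute z b from hbz.symm)).symm
  have k3 : Commute (expU R (ν • b)) z :=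
    (expU_comm hI (I.smul_mem _ hb) (Commute.smul_right (show Commute z b from hbz.symm) _)).symm
  have k4 : Commute (val f b c * expU R (ν • b) * val f a b) (expU R (-(ν • z))) :=
    hzc _ ((k1.mul_left k3).mul_left k2)
  have e4 : expU R (ν • a) * val f c a * expU R (ν • c) * val f b c * expU R (ν • b) * val f a b *
      expU R (-(ν • z)) = 1 := by
    rw [← e]
    simp only [mul_assoc]
    congr 3
    have := k4.eq
    simp only [mul_assoc] at this
    exact this
  calc expU R (ν • a) * val f c a * expU R (ν • c) * val f b c * expU R (ν • b) * val f a b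
      = expU R (ν • a) * val f c a * expU R (ν • c) * val f b c * expU R (ν • b) * val f a b *
          (expU R (-(ν • z)) * expU R (ν • z)) := by rw [expU_neg_mul hI hνz, mul_one]
    _ = expU R (ν • a) * val f c a * expU R (ν • c) * val f b c * expU R (ν • b) * val f a b *
          expU R (-(ν • z)) * expU R (ν • z) := by rw [mul_assoc _ (expU R (-(ν • z)))]
    _ = expU R (ν • z) := by rw [e4, one_mul]

end MP446U
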