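import Pool.Agent.Lib.MP_446dfa_ag.unc.Spec
import Pool.Agent.Lib.MP_446dfa_ag.unc.Base

set_option linter.all false

/-!
# Module SHF: an associator has no linear terms
-/

noncomputable section

namespace MP446U

open MP446 MP446Y MP446Z MP446S MP446I

namespace H60

section Shf

variable {R : Type} [CommRing R]

/-- the multiples of `ε` in the dual numbers -/
def epsD (R : Type) [CommRing R] : Submodule R (TrivSqZeroExt R R) where
  carrier := {x | x.fst = 0}
  add_mem' := fun {a b} ha hb => by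
    change (a + b).fst = 0
    rw [TrivSqZeroExt.fst_add, show a.fst = 0 from ha, show b.fst = 0 from hb, add_zero]
  zero_mem' := TrivSqZeroExt.fst_zero
  smul_mem' := fun c x hx => by
    change (c • x).fst = 0
    rw [TrivSqZeroExt.fst_smul, show x.fst = 0 from hx, smul_zero]

lemma mem_epsD {x : TrivSqZeroExt R R} : x ∈ epsD R ↔ x.fst = 0 := Iff.rfl

lemma epsD_mul {x y : TrivSqZeroExt R R} (hx : x ∈ epsD R) (hy : y ∈ epsD R) : x * y = 0 := by
  rw [mem_epsD] at hx hy
  ext
  · rw [TrivSqZeroExt.fst_mul, hx, zero_mul, TrivSqZeroExt.fst_zero]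
  · rw [TrivSqZeroExt.snd_mul, hx, hy]
    simp

lemma epsD_nilp : IsNilp 2 (epsD R) := by
  refine ⟨fun x hx y hy => ?_, fun l hl hN => ?_⟩
  · rw [epsD_mul hx hy]
    exact (epsD R).zero_mem
  · obtain ⟨x, y, rfl⟩ := List.length_eq_two.1 hN
    rw [List.prod_cons, List.prod_cons, List.prod_nil, mul_one]
    exact epsD_mul (hl x (by simp)) (hl y (by simp))

lemma val_eps {f : List (Fin 2) → R} (h0 : f [] = 1) (a b : R) :
    val f (TrivSqZeroExt.inr a : TrivSqZeroExt R R) (TrivSqZeroExt.inr b) =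
      1 + TrivSqZeroExt.inr (f [0] * a + f [1] * b) := by
  have ha : (TrivSqZeroExt.inr a : TrivSqZeroExt R R) ∈ epsD R := TrivSqZeroExt.fst_inr _ _
  have hb : (TrivSqZeroExt.inr b : TrivSqZeroExt R R) ∈ epsD R := TrivSqZeroExt.fst_inr _ _
  rw [val_wl epsD_nilp ha hb]
  have hw : wl 2 = {[], [0], [1]} := by
    ext w
    rw [mem_wl]
    simp only [Finset.mem_insert, Finset.mem_singleton]
    constructor
    · intro h
      cases w with
      | nil => exact Or.inl rfl
      | cons i w =>
        have : w = [] := List.length_eq_zero_iff.1 (by rw [List.length_cons] at h; omega)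
        subst this
        fin_cases i
        · exact Or.inr (Or.inl rfl)
        · exact Or.inr (Or.inr rfl)
    · rintro (rfl | rfl | rfl) <;> simp
  rw [hw, Finset.sum_insert (by simp), Finset.sum_insert (by simp), Finset.sum_singleton]
  simp only [List.map_nil, List.prod_nil, List.map_cons, List.prod_cons, mul_one, h0, one_smul,
    Matrix.cons_val_zero, Matrix.cons_val_one]
  rw [TrivSqZeroExt.inr_add, ← smul_eq_mul (f [0]), ← smul_eq_mul (f [1]),
    TrivSqZeroExt.inr_smul, TrivSqZeroExt.inr_smul]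

/-- a family in a commutative algebra, with one non-zero pair -/
def tcom (i₀ j₀ : Fin 4) (i j : Fin 4) : TrivSqZeroExt R R :=
  TrivSqZeroExt.inr (if (i = i₀ ∧ j = j₀) ∨ (i = j₀ ∧ j = i₀) then 1 else 0)

lemma braid_tcom (i₀ j₀ : Fin 4) : Braid (tcom (R := R) i₀ j₀) where
  symm := by
    intro i j
    unfold tcom
    congr 1
    by_cases h : (i = i₀ ∧ j = j₀) ∨ (i = j₀ ∧ j = i₀)
    · rw [if_pos h, if_pos (by tauto)]
    · rw [if_neg h, if_neg (by tauto)]
  comm := fun i j k l _ _ _ _ _ _ => mul_comm _ _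
  rel := fun i j k _ _ _ => mul_comm _ _

lemma tcom_mem (i₀ j₀ i j : Fin 4) : tcom (R := R) i₀ j₀ i j ∈ epsD R := TrivSqZeroExt.fst_inr _ _

lemma inr_mul_inr' (a b : R) :
    (1 + TrivSqZeroExt.inr a : TrivSqZeroExt R R) * (1 + TrivSqZeroExt.inr b) =
      1 + TrivSqZeroExt.inr (a + b) := by
  rw [add_mul, one_mul, mul_add, mul_one, TrivSqZeroExt.inr_mul_inr, add_zero,
    TrivSqZeroExt.inr_add]
  abel

lemma one_add_inr_inj {a b : R}
    (h : (1 + TrivSqZeroExt.inr a : TrivSqZeroExt R R) = 1 + TrivSqZeroExt.inr b) : a = b :=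
  TrivSqZeroExt.inr_injective (add_left_cancel h)

end Shf

end H60

open H60 in
theorem specSHF : SpecSHF := by
  intro R _ _ N μ f hN hf
  have h0 := hf.one
  have key : ∀ i₀ j₀ : Fin 4, _ := fun i₀ j₀ =>
    hf.pent (TrivSqZeroExt R R) (epsD R) (nilp_mono epsD_nilp hN) (tcom i₀ j₀)
      (braid_tcom i₀ j₀) (tcom_mem i₀ j₀)
  refine ⟨?_, ?_⟩
  · have h1 := key 0 1
    unfold tcom at h1
    simp only [← TrivSqZeroExt.inr_add] at h1
    rw [val_eps h0, val_eps h0, val_eps h0, val_eps h0, val_eps h0, inr_mul_inr', inr_mul_inr',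
      inr_mul_inr'] at h1
    have h2 := one_add_inr_inj h1
    simpa using h2
  · have h1 := key 2 3
    unfold tcom at h1
    simp only [← TrivSqZeroExt.inr_add] at h1
    rw [val_eps h0, val_eps h0, val_eps h0, val_eps h0, val_eps h0, inr_mul_inr', inr_mul_inr',
      inr_mul_inr'] at h1
    have h2 := one_add_inr_inj h1
    simpa using h2

end MP446U
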