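import Pool.Agent.Lib.MP_446dfa_ag.unc.Spec
import Pool.Agent.Lib.MP_446dfa_ag.unc.Leib

set_option linter.all false

/-!
# The Leibniz rule for the action of a group-like series
-/

noncomputable section

namespace MP446U

open MP446 MP446Y MP446Z MP446S MP446I

namespace SHX

variable {R S : Type} [CommRing R] (A : Alph S) {u : List S → R}

lemma sum_full {V W M : Type} [AddCommGroup V] [Module R V] [AddCommGroup W] [Module R W]
    [AddCommGroup M] [Module R M] (m : V →ₗ[R] W →ₗ[R] M) (N : ℕ) (v : List S → V) (w : List S → W)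
    (h : ∀ p q : List S, N ≤ A.wt p + A.wt q → m (v p) (w q) = 0) :
    (∑ p ∈ A.wd N, ∑ q ∈ A.wd N, if A.wt p + A.wt q < N then (u p * u q) • m (v p) (w q) else 0) =
      m (∑ p ∈ A.wd N, u p • v p) (∑ q ∈ A.wd N, u q • w q) := by
  rw [map_sum m, LinearMap.sum_apply]
  refine Finset.sum_congr rfl (fun p _ => ?_)
  rw [map_smul m, LinearMap.smul_apply, map_sum (m (v p)), Finset.smul_sum]
  refine Finset.sum_congr rfl (fun q _ => ?_)
  rw [map_smul, smul_smul]
  split_ifs with h1
  · rfl
  · rw [h p q (by omega), smul_zero]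

lemma wd_restrict {M : Type} [AddCommGroup M] (N k : ℕ) (F : List S → M) :
    (∑ p ∈ A.wd N, if A.wt p + k < N then F p else 0) = ∑ p ∈ A.wd (N - k), F p := by
  rw [← Finset.sum_filter]
  refine Finset.sum_congr ?_ (fun _ _ => rfl)
  ext p
  rw [Finset.mem_filter, Alph.mem_wd, Alph.mem_wd]
  omega

end SHX

theorem specSH2 : SpecSH2 := by
  intro R S _ A u hu V W M _ _ _ _ _ _ x y Λ m hm N v w hz
  have h := Lb.leib_gl A u N (fun p q _ => hu.shuffle p q) m x y Λ hm v w
  unfold opw
  rw [h]
  exact SHX.sum_full A m N _ _ hz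

theorem specSH3 : SpecSH3 := by
  intro R S _ A u hu V W U M _ _ _ _ _ _ _ _ x y z Λ m hm N v w t hz
  have hs : ∀ n p q, A.wt p + A.wt q < n → u p * u q = ((shuffle p q).map u).sum :=
    fun n p q _ => hu.shuffle p q
  set Λ' : S → Module.End R (U →ₗ[R] M) := fun s =>
    { toFun := fun g => (Λ s).comp g - g.comp (z s)
      map_add' := fun g g' => by rw [LinearMap.comp_add, LinearMap.add_comp]; abel
      map_smul' := fun c g => by
        rw [LinearMap.comp_smul, LinearMap.smul_comp, RingHom.id_apply, smul_sub] } with hΛ'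
  have e1 : ∀ s (g : U →ₗ[R] M) (t : U), Λ' s g t = Λ s (g t) - g (z s t) := fun s g t => rfl
  have h1 : ∀ s v w, Λ' s (m v w) = m (x s v) w + m v (y s w) := by
    intro s v w
    ext t
    rw [e1, hm, LinearMap.add_apply]
    abel
  have h2 : ∀ s (g : U →ₗ[R] M) (t : U), Λ s ((LinearMap.id (R := R) (M := U →ₗ[R] M)) g t) =
      (LinearMap.id (R := R) (M := U →ₗ[R] M)) (Λ' s g) t +
        (LinearMap.id (R := R) (M := U →ₗ[R] M)) g (z s t) := by
    intro s g t
    simp only [LinearMap.id_coe, id_eq]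
    rw [e1]
    abel
  have k1 := Lb.leib_gl A u N (hs N) (LinearMap.id (R := R) (M := U →ₗ[R] M)) Λ' z Λ h2 (m v w) t
  simp only [LinearMap.id_coe, id_eq] at k1
  have k2 : ∀ q : List S, (∑ p ∈ A.wd N, if A.wt p + A.wt q < N then
      (u p * u q) • ((p.map Λ').prod (m v w)) ((q.map z).prod t) else 0) =
      ∑ p ∈ A.wd N, ∑ p' ∈ A.wd N, if A.wt p + A.wt p' + A.wt q < N then
        (u p * u p' * u q) • m ((p.map x).prod v) ((p'.map y).prod w) ((q.map z).prod t) else 0 := by
    intro q
    rw [SHX.wd_restrict A N (A.wt q)]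
    have h3 := Lb.leib_gl A u (N - A.wt q) (hs _) m x y Λ' h1 v w
    have h4 : ∑ p ∈ A.wd (N - A.wt q), (u p * u q) •
        ((p.map Λ').prod (m v w)) ((q.map z).prod t) =
        u q • (∑ p ∈ A.wd (N - A.wt q), u p • (p.map Λ').prod (m v w)) ((q.map z).prod t) := by
      rw [LinearMap.sum_apply, Finset.smul_sum]
      refine Finset.sum_congr rfl (fun p _ => ?_)
      rw [LinearMap.smul_apply, smul_smul, mul_comm]
    rw [h4, h3, LinearMap.sum_apply, Finset.smul_sum,
      ← SHX.wd_restrict A N (A.wt q)]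
    refine Finset.sum_congr rfl (fun p _ => ?_)
    rw [LinearMap.sum_apply, Finset.smul_sum, ← SHX.wd_restrict A N (A.wt q)]
    split_ifs with h5
    · refine Finset.sum_congr rfl (fun p' _ => ?_)
      by_cases h6 : A.wt p + A.wt p' + A.wt q < N
      · rw [if_pos h6, if_pos (by omega), if_pos (by omega), LinearMap.smul_apply, smul_smul]
        congr 1
        ring
      · rw [if_neg h6]
        split_ifs with h7 h8
        · omega
        · rw [LinearMap.zero_apply, smul_zero]
        · rfl
    · symm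
      refine Finset.sum_eq_zero (fun p' _ => ?_)
      rw [if_neg (by omega)]
  unfold opw at hz ⊢
  rw [k1, Finset.sum_comm]
  rw [Finset.sum_congr rfl (fun q _ => k2 q)]
  have k3 : m (∑ p ∈ A.wd N, u p • (p.map x).prod v) (∑ q ∈ A.wd N, u q • (q.map y).prod w)
      (∑ q ∈ A.wd N, u q • (q.map z).prod t) =
      ∑ q ∈ A.wd N, ∑ p ∈ A.wd N, ∑ p' ∈ A.wd N, (u p * u p' * u q) •
        m ((p.map x).prod v) ((p'.map y).prod w) ((q.map z).prod t) := by
    rw [map_sum]
    refine Finset.sum_congr rfl (fun q _ => ?_)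
    rw [map_smul, map_sum m, LinearMap.sum_apply, LinearMap.sum_apply, Finset.smul_sum]
    refine Finset.sum_congr rfl (fun p _ => ?_)
    rw [map_smul m, LinearMap.smul_apply, LinearMap.smul_apply,
      map_sum (m ((p.map x).prod v)), LinearMap.sum_apply, Finset.smul_sum, Finset.smul_sum]
    refine Finset.sum_congr rfl (fun p' _ => ?_)
    rw [map_smul, LinearMap.smul_apply, smul_smul, smul_smul]
    congr 1
    ring
  rw [k3]
  refine Finset.sum_congr rfl (fun q _ => Finset.sum_congr rfl (fun p _ =>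
    Finset.sum_congr rfl (fun p' _ => ?_)))
  split_ifs with h5
  · rfl
  · rw [hz p p' q (by omega), smul_zero]

end MP446U
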