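import Pool.Agent.Lib.MP_446dfa_ag.unc.BCH
import Pool.Agent.Lib.MP_446dfa_ag.unc.BCQ
import Pool.Agent.Lib.MP_446dfa_ag.unc.BRD
import Pool.Agent.Lib.MP_446dfa_ag.unc.DFR
import Pool.Agent.Lib.MP_446dfa_ag.unc.DSCb
import Pool.Agent.Lib.MP_446dfa_ag.unc.DYN
import Pool.Agent.Lib.MP_446dfa_ag.unc.EXL
import Pool.Agent.Lib.MP_446dfa_ag.unc.FIN
import Pool.Agent.Lib.MP_446dfa_ag.unc.GLE
import Pool.Agent.Lib.MP_446dfa_ag.unc.GQK
import Pool.Agent.Lib.MP_446dfa_ag.unc.GTH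
import Pool.Agent.Lib.MP_446dfa_ag.unc.GTP
import Pool.Agent.Lib.MP_446dfa_ag.unc.INJ
import Pool.Agent.Lib.MP_446dfa_ag.unc.INV
import Pool.Agent.Lib.MP_446dfa_ag.unc.KZC
import Pool.Agent.Lib.MP_446dfa_ag.unc.LIN
import Pool.Agent.Lib.MP_446dfa_ag.unc.LPH
import Pool.Agent.Lib.MP_446dfa_ag.unc.OPA
import Pool.Agent.Lib.MP_446dfa_ag.unc.OPC
import Pool.Agent.Lib.MP_446dfa_ag.unc.OPL
import Pool.Agent.Lib.MP_446dfa_ag.unc.OPN
import Pool.Agent.Lib.MP_446dfa_ag.unc.OPV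
import Pool.Agent.Lib.MP_446dfa_ag.unc.PRA
import Pool.Agent.Lib.MP_446dfa_ag.unc.PRD
import Pool.Agent.Lib.MP_446dfa_ag.unc.PRG
import Pool.Agent.Lib.MP_446dfa_ag.unc.PRH
import Pool.Agent.Lib.MP_446dfa_ag.unc.PRP
import Pool.Agent.Lib.MP_446dfa_ag.unc.PUN
import Pool.Agent.Lib.MP_446dfa_ag.unc.SHC
import Pool.Agent.Lib.MP_446dfa_ag.unc.SHF
import Pool.Agent.Lib.MP_446dfa_ag.unc.SHX

/-!
# Existence of a monomorphism from `G` to `GT`
-/

noncomputable section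

namespace MP446U

open MP446I

theorem allOPV : SpecOPV := specOPV specOPA specSH2

theorem allPRA : SpecPRA :=
  specPRA (specPRD_of specSH2 specOPA) (specPRH_of specSH3 specOPA) (specPRG specOPA allOPV)
    (specPRP_of specSH2 specSH3 specOPA specDFR)

theorem allPUN : SpecPUN := specPUN (specBRD (specSHC specGLE specSHF))

theorem allINJ : SpecINJ := INJ.inj LPH.LP DYN.exists_lie

theorem allDSC : SpecDSC := specDSC allPRA specOPL specLIN specBCH

/-- existence of a monomorphism -/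
theorem exists_monomorphism :
    ∃ ρ : ∀ (R : Type) [CommRing R] [Algebra ℚ R], Mot R → GT R, IsMonomorphism ρ :=
  specFIN specKZC allDSC specGQK specBCQ specOPC allOPV specOPN allPRA specBCH specEXL
    (specINV specGLE) specGTH (specGTP allPUN specBCH specEXL) allINJ

end MP446U
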