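import Pool.Agent.Lib.MP_446dfa_ag.unc.Spec
import Pool.Agent.Lib.MP_446dfa_ag.unc.Base

set_option linter.all false

/-!
# BCH: base change and scaling of associators
-/

noncomputable section

namespace MP446U

open MP446 MP446Y MP446Z MP446S MP446I

namespace BCH

lemma length_of_mem_shuffle {α : Type} :
    ∀ (v w u : List α), u ∈ shuffle v w → u.length = v.length + w.length
  | [], w, u, h => by
    have : u = w := by simpa [shuffle] using h
    subst this
    simp
  | a :: v, [], u, h => by
    have : u = a :: v := by simpa [shuffle] using h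
    subst this
    simp
  | a :: v, b :: w, u, h => by
    rw [shuffle, List.mem_append, List.mem_map, List.mem_map] at h
    rcases h with ⟨u', hu', rfl⟩ | ⟨u', hu', rfl⟩
    · have := length_of_mem_shuffle v (b :: w) u' hu'
      simp only [List.length_cons] at this ⊢
      omega
    · have := length_of_mem_shuffle (a :: v) w u' hu'
      simp only [List.length_cons] at this ⊢
      omega

/-- one half of an element -/
def hlf (R : Type) [CommRing R] [Algebra ℚ R] : R := algebraMap ℚ R (1 / 2)

lemma two_hlf (R : Type) [CommRing R] [Algebra ℚ R] : (2 : R) * hlf R = 1 := by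
  unfold hlf
  rw [show (2 : R) = algebraMap ℚ R 2 from (map_ofNat (algebraMap ℚ R) 2).symm, ← map_mul]
  norm_num

lemma two_cancel {R : Type} [CommRing R] [Algebra ℚ R] {x y : R} (h : 2 * x = 2 * y) : x = y := by
  have h1 := congrArg (fun z => hlf R * z) h
  change hlf R * (2 * x) = hlf R * (2 * y) at h1
  rw [← mul_assoc, ← mul_assoc, mul_comm (hlf R) 2, two_hlf, one_mul, one_mul] at h1
  exact h1

theorem bc (R R' : Type) [CommRing R] [Algebra ℚ R] [CommRing R'] [Algebra ℚ R'] (θ : R →+* R')
    (N : ℕ) (μ : R) (f : List (Fin 2) → R) (h : IsAssocN R N μ f) :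
    IsAssocN R' N (θ μ) (fun w => θ (f w)) := by
  letI : Algebra R R' := θ.toAlgebra
  refine ⟨?_, ?_, ?_, ?_, ?_⟩
  · show θ (f []) = 1
    rw [h.one, map_one]
  · intro v w hvw
    show θ (f v) * θ (f w) = _
    rw [← map_mul, h.gl v w hvw, map_list_sum, List.map_map]
    rfl
  · intro E _ _ I hI a ha b hb
    letI : Algebra R E := Algebra.compHom E (algebraMap R R')
    haveI : IsScalarTower R R' E := ⟨fun q r z => by
      change (q • r) • z = (algebraMap R R' q) • (r • z)
      rw [← mul_smul, ← Algebra.smul_def]⟩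
    have e : ∀ a b : E, val (fun w => θ (f w)) a b = val f a b := fun a b => val_bc a b f
    rw [e, e]
    exact h.dual E (I.restrictScalars R) (nilp_restrict hI) a ha b hb
  · intro E _ _ I hI a ha b hb c hc habc ν hν
    letI : Algebra R E := Algebra.compHom E (algebraMap R R')
    haveI : IsScalarTower R R' E := ⟨fun q r z => by
      change (q • r) • z = (algebraMap R R' q) • (r • z)
      rw [← mul_smul, ← Algebra.smul_def]⟩
    have e : ∀ a b : E, val (fun w => θ (f w)) a b = val f a b := fun a b => val_bc a b f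
    obtain ⟨ν', h1, h2⟩ : ∃ ν' : R, (2 * ν' = μ ∨ 2 * ν' = -μ) ∧ θ ν' = ν := by
      rcases hν with hν | hν
      · refine ⟨hlf R * μ, Or.inl (by rw [← mul_assoc, two_hlf, one_mul]), two_cancel ?_⟩
        rw [hν, show (2 : R') = θ 2 from (map_ofNat θ 2).symm, ← map_mul, ← mul_assoc, two_hlf,
          one_mul]
      · refine ⟨-(hlf R * μ), Or.inr (by rw [mul_neg, ← mul_assoc, two_hlf, one_mul]),
          two_cancel ?_⟩
        rw [hν, show (2 : R') = θ 2 from (map_ofNat θ 2).symm, ← map_mul, mul_neg, ← mul_assoc,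
          two_hlf, one_mul, map_neg]
    have e2 : ∀ a : E, expU R' (ν • a) = expU R (ν' • a) := by
      intro a
      rw [← h2]
      have : θ ν' • a = ν' • a := algebraMap_smul R' ν' a
      rw [this]
      exact expU_bc _
    rw [e, e, e, e2, e2, e2]
    exact h.hex E (I.restrictScalars R) (nilp_restrict hI) a ha b hb c hc habc ν' h1
  · intro E _ _ I hI t hB htI
    letI : Algebra R E := Algebra.compHom E (algebraMap R R')
    haveI : IsScalarTower R R' E := ⟨fun q r z => by
      change (q • r) • z = (algebraMap R R' q) • (r • z)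
      rw [← mul_smul, ← Algebra.smul_def]⟩
    have e : ∀ a b : E, val (fun w => θ (f w)) a b = val f a b := fun a b => val_bc a b f
    rw [e, e, e, e, e]
    exact h.pent E (I.restrictScalars R) (nilp_restrict hI) t hB htI

lemma braid_smul {R : Type} [CommRing R] {E : Type} [Ring E] [Algebra R E] (c : R)
    {t : Fin 4 → Fin 4 → E} (h : Braid t) : Braid (fun i j => c • t i j) := by
  refine ⟨fun i j => ?_, fun i j k l h1 h2 h3 h4 h5 h6 => ?_, fun i j k h1 h2 h3 => ?_⟩
  · show c • t i j = c • t j i
    rw [h.symm]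
  · show c • t i j * c • t k l = c • t k l * c • t i j
    rw [smul_mul_smul_comm, smul_mul_smul_comm, h.comm i j k l h1 h2 h3 h4 h5 h6]
  · show c • t i j * (c • t i k + c • t j k) = (c • t i k + c • t j k) * c • t i j
    rw [← smul_add, smul_mul_smul_comm, smul_mul_smul_comm, h.rel i j k h1 h2 h3]

theorem sc (R : Type) [CommRing R] [Algebra ℚ R] (c μ : R) (N : ℕ) (f : List (Fin 2) → R)
    (h : IsAssocN R N μ f) : IsAssocN R N (c * μ) (scaleF c f) := by
  refine ⟨?_, ?_, ?_, ?_, ?_⟩
  · show c ^ 0 * f [] = 1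
    rw [h.one, pow_zero, one_mul]
  · intro v w hvw
    show c ^ v.length * f v * (c ^ w.length * f w) = _
    have e : (shuffle v w).map (scaleF c f) =
        (shuffle v w).map (fun u => c ^ (v.length + w.length) * f u) := by
      refine List.map_congr_left (fun u hu => ?_)
      show c ^ u.length * f u = _
      rw [length_of_mem_shuffle v w u hu]
    rw [e, List.sum_map_mul_left, ← h.gl v w hvw, pow_add]
    ring
  · intro E _ _ I hI a ha b hb
    rw [val_scaleF hI ha hb, val_scaleF hI hb ha]
    exact h.dual E I hI _ (I.smul_mem c ha) _ (I.smul_mem c hb)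
  · intro E _ _ I hI a ha b hb d hd habd ν hν
    obtain ⟨ν', h1, h2⟩ : ∃ ν' : R, (2 * ν' = μ ∨ 2 * ν' = -μ) ∧ ν' * c = ν := by
      rcases hν with hν | hν
      · refine ⟨hlf R * μ, Or.inl (by rw [← mul_assoc, two_hlf, one_mul]), two_cancel ?_⟩
        rw [hν, ← mul_assoc, ← mul_assoc, two_hlf, one_mul, mul_comm]
      · refine ⟨-(hlf R * μ), Or.inr (by rw [mul_neg, ← mul_assoc, two_hlf, one_mul]),
          two_cancel ?_⟩
        rw [hν, neg_mul, mul_neg, ← mul_assoc, ← mul_assoc, two_hlf, one_mul, mul_comm]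
    rw [val_scaleF hI ha hb, val_scaleF hI hb hd, val_scaleF hI hd ha, ← h2, mul_smul, mul_smul,
      mul_smul]
    refine h.hex E I hI _ (I.smul_mem c ha) _ (I.smul_mem c hb) _ (I.smul_mem c hd) ?_ ν' h1
    rw [← smul_add, ← smul_add, habd, smul_zero]
  · intro E _ _ I hI t hB htI
    have m1 : t 0 1 ∈ I := htI 0 1
    have m2 : t 1 2 + t 1 3 ∈ I := I.add_mem (htI _ _) (htI _ _)
    have m3 : t 0 2 + t 1 2 ∈ I := I.add_mem (htI _ _) (htI _ _)
    have m4 : t 2 3 ∈ I := htI 2 3
    have m5 : t 1 2 ∈ I := htI 1 2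
    have m6 : t 0 1 + t 0 2 ∈ I := I.add_mem (htI _ _) (htI _ _)
    have m7 : t 1 3 + t 2 3 ∈ I := I.add_mem (htI _ _) (htI _ _)
    rw [val_scaleF hI m1 m2, val_scaleF hI m3 m4, val_scaleF hI m5 m4, val_scaleF hI m6 m7,
      val_scaleF hI m1 m5]
    simp only [smul_add]
    exact h.pent E I hI _ (braid_smul c hB) (fun i j => I.smul_mem c (htI i j))

end BCH

theorem specBCH : SpecBCH := ⟨BCH.bc, BCH.sc⟩

end MP446U
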