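import Pool.Agent.Lib.MP_446dfa_ag.unc.Spec
import Pool.Agent.Lib.MP_446dfa_ag.unc.Base

set_option linter.all false

/-!
# The last step of the descent of associators to `ℚ`
-/

noncomputable section

namespace MP446U

open MP446 MP446Y MP446Z MP446S MP446I
open scoped TensorProduct

namespace DSCa

lemma exists_retr : ∃ r : ℂ →ₗ[ℚ] ℚ, r 1 = 1 := by
  obtain ⟨g, hg⟩ := (Algebra.linearMap ℚ ℂ).exists_leftInverse_of_injective
    (LinearMap.ker_eq_bot.2 (algebraMap ℚ ℂ).injective)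
  refine ⟨g, ?_⟩
  have := LinearMap.congr_fun hg 1
  simpa using this

section

variable {E : Type} [Ring E] [Algebra ℚ E] {N n : ℕ} {I : Submodule ℚ E}

/-- the inclusion of `E` in `ℂ ⊗ E` -/
def inc (E : Type) [Ring E] [Algebra ℚ E] : E →ₐ[ℚ] ℂ ⊗[ℚ] E :=
  Algebra.TensorProduct.includeRight

lemma inc_apply (e : E) : inc E e = 1 ⊗ₜ[ℚ] e := rfl

lemma smul_inc (z : ℂ) (e : E) : z • inc E e = z ⊗ₜ[ℚ] e := by
  rw [inc_apply, TensorProduct.smul_tmul', smul_eq_mul, mul_one]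

lemma tmul_rat (q : ℚ) (e : E) : (q : ℂ) ⊗ₜ[ℚ] e = inc E (q • e) := by
  rw [inc_apply, ← TensorProduct.smul_tmul]
  congr 1
  rw [Algebra.smul_def, mul_one]
  rfl

/-- the base change of `I` -/
def IC (I : Submodule ℚ E) : Submodule ℂ (ℂ ⊗[ℚ] E) := Submodule.span ℂ (inc E '' (I : Set E))

lemma inc_mem {e : E} (he : e ∈ I) : inc E e ∈ IC I := Submodule.subset_span ⟨e, he, rfl⟩

/-- the products of `k` elements of `I` -/
def PP (I : Submodule ℚ E) (k : ℕ) : Set E :=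
  {e | ∃ l : List E, (∀ x ∈ l, x ∈ I) ∧ l.length = k ∧ e = l.prod}

lemma prod_mem_PP (l : List (ℂ ⊗[ℚ] E)) (hl : ∀ x ∈ l, x ∈ IC I) :
    l.prod ∈ Submodule.span ℂ (inc E '' PP I l.length) := by
  induction l with
  | nil =>
    rw [List.prod_nil]
    refine Submodule.subset_span ⟨1, ⟨[], by simp, rfl, rfl⟩, map_one _⟩
  | cons x l ih =>
    rw [List.prod_cons]
    have h1 := ih (fun y hy => hl y (List.mem_cons_of_mem _ hy))
    have h2 := hl x List.mem_cons_self
    have h3 := Submodule.mul_mem_mul h2 h1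
    rw [IC, Submodule.span_mul_span] at h3
    refine Submodule.span_mono ?_ h3
    rintro _ ⟨_, ⟨a, ha, rfl⟩, _, ⟨b, ⟨l', hl', hl2, rfl⟩, rfl⟩, rfl⟩
    refine ⟨a * l'.prod, ⟨a :: l', ?_, by simp [hl2], by simp⟩, by
      show inc E (a * l'.prod) = inc E a * inc E l'.prod
      rw [map_mul]⟩
    intro y hy
    rcases List.mem_cons.1 hy with rfl | hy
    · exact ha
    · exact hl' y hy

lemma nilC (h : IsNilp N I) : IsNilp N (IC I) := by
  refine ⟨fun x hx y hy => ?_, fun l hl hN => ?_⟩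
  · have h3 := Submodule.mul_mem_mul hx hy
    rw [IC, Submodule.span_mul_span] at h3
    refine Submodule.span_mono ?_ h3
    rintro _ ⟨_, ⟨a, ha, rfl⟩, _, ⟨b, hb, rfl⟩, rfl⟩
    exact ⟨a * b, h.mul_mem a ha b hb, by
      show inc E (a * b) = inc E a * inc E b
      rw [map_mul]⟩
  · have h1 := prod_mem_PP l hl
    rw [hN] at h1
    have h2 : inc E '' PP I N ⊆ {0} := by
      rintro _ ⟨_, ⟨l', h3, h4, rfl⟩, rfl⟩
      rw [h.prod_zero l' h3 h4, map_zero]
      rfl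
    have h3 := Submodule.span_mono (R := ℂ) h2 h1
    rwa [Submodule.span_zero_singleton, Submodule.mem_bot] at h3

/-- the annihilator of `I` in `I` -/
def K (I : Submodule ℚ E) : Submodule ℚ E where
  carrier := {k | k ∈ I ∧ ∀ i ∈ I, i * k = 0 ∧ k * i = 0}
  zero_mem' := ⟨I.zero_mem, fun i _ => ⟨mul_zero i, zero_mul i⟩⟩
  add_mem' := by
    rintro a b ⟨ha, ha2⟩ ⟨hb, hb2⟩
    refine ⟨I.add_mem ha hb, fun i hi => ⟨?_, ?_⟩⟩
    · rw [mul_add, (ha2 i hi).1, (hb2 i hi).1, add_zero]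
    · rw [add_mul, (ha2 i hi).2, (hb2 i hi).2, add_zero]
  smul_mem' := by
    rintro c a ⟨ha, ha2⟩
    refine ⟨I.smul_mem c ha, fun i hi => ⟨?_, ?_⟩⟩
    · rw [mul_smul_comm, (ha2 i hi).1, smul_zero]
    · rw [smul_mul_assoc, (ha2 i hi).2, smul_zero]

lemma mem_K {k : E} : k ∈ K I ↔ k ∈ I ∧ ∀ i ∈ I, i * k = 0 ∧ k * i = 0 := Iff.rfl

/-- `ℂ ⊗ K` -/
def J (I : Submodule ℚ E) : Submodule ℚ (ℂ ⊗[ℚ] E) :=
  Submodule.span ℚ {x | ∃ z : ℂ, ∃ k ∈ K I, x = z ⊗ₜ[ℚ] k}

lemma J_left {i : E} (hi : i ∈ I) {x : ℂ ⊗[ℚ] E} (hx : x ∈ J I) : inc E i * x = 0 := by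
  induction hx using Submodule.span_induction with
  | mem x h =>
    obtain ⟨z, k, hk, rfl⟩ := h
    rw [inc_apply, Algebra.TensorProduct.tmul_mul_tmul, ((mem_K.1 hk).2 i hi).1,
      TensorProduct.tmul_zero]
  | zero => rw [mul_zero]
  | add x y _ _ h1 h2 => rw [mul_add, h1, h2, add_zero]
  | smul c x _ h1 => rw [mul_smul_comm, h1, smul_zero]

lemma J_right {i : E} (hi : i ∈ I) {x : ℂ ⊗[ℚ] E} (hx : x ∈ J I) : x * inc E i = 0 := by
  induction hx using Submodule.span_induction with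
  | mem x h =>
    obtain ⟨z, k, hk, rfl⟩ := h
    rw [inc_apply, Algebra.TensorProduct.tmul_mul_tmul, ((mem_K.1 hk).2 i hi).2,
      TensorProduct.tmul_zero]
  | zero => rw [zero_mul]
  | add x y _ _ h1 h2 => rw [add_mul, h1, h2, add_zero]
  | smul c x _ h1 => rw [smul_mul_assoc, h1, smul_zero]

lemma J_mul {x y : ℂ ⊗[ℚ] E} (hx : x ∈ J I) (hy : y ∈ J I) : x * y = 0 := by
  induction hx using Submodule.span_induction with
  | mem x h =>
    obtain ⟨z, k, hk, rfl⟩ := h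
    induction hy using Submodule.span_induction with
    | mem y h =>
      obtain ⟨z', k', hk', rfl⟩ := h
      rw [Algebra.TensorProduct.tmul_mul_tmul, ((mem_K.1 hk).2 k' (mem_K.1 hk').1).2,
        TensorProduct.tmul_zero]
    | zero => rw [mul_zero]
    | add x y _ _ h1 h2 => rw [mul_add, h1, h2, add_zero]
    | smul c x _ h1 => rw [mul_smul_comm, h1, smul_zero]
  | zero => rw [zero_mul]
  | add x y _ _ h1 h2 => rw [add_mul, h1, h2, add_zero]
  | smul c x _ h1 => rw [smul_mul_assoc, h1, smul_zero]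

/-- the retraction of `ℂ ⊗ E` onto `E` -/
def rho (r : ℂ →ₗ[ℚ] ℚ) : ℂ ⊗[ℚ] E →ₗ[ℚ] E :=
  TensorProduct.lift ((LinearMap.lsmul ℚ E) ∘ₗ r)

lemma rho_tmul (r : ℂ →ₗ[ℚ] ℚ) (z : ℂ) (e : E) : rho r (z ⊗ₜ[ℚ] e) = r z • e := by
  simp [rho]

variable {r : ℂ →ₗ[ℚ] ℚ} (hr : r 1 = 1)

include hr in
lemma rho_inc (e : E) : rho r (inc E e) = e := by
  rw [inc_apply, rho_tmul, hr, one_smul]

lemma rho_J {x : ℂ ⊗[ℚ] E} (hx : x ∈ J I) : rho r x ∈ K I := by
  induction hx using Submodule.span_induction with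
  | mem x h =>
    obtain ⟨z, k, hk, rfl⟩ := h
    rw [rho_tmul]
    exact (K I).smul_mem _ hk
  | zero => rw [map_zero]; exact (K I).zero_mem
  | add x y _ _ h1 h2 => rw [map_add]; exact (K I).add_mem h1 h2
  | smul c x _ h1 => rw [map_smul]; exact (K I).smul_mem _ h1

/-- the elements on which the retraction is multiplicative -/
def InS (I : Submodule ℚ E) (x : ℂ ⊗[ℚ] E) : Prop :=
  ∃ c : ℚ, ∃ i ∈ I, ∃ z ∈ J I, x = inc E (c • 1 + i) + z

lemma InS.zero : InS I (0 : ℂ ⊗[ℚ] E) :=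
  ⟨0, 0, I.zero_mem, 0, (J I).zero_mem, by simp⟩

lemma InS.add {x y : ℂ ⊗[ℚ] E} (hx : InS I x) (hy : InS I y) : InS I (x + y) := by
  obtain ⟨c, i, hi, z, hz, rfl⟩ := hx
  obtain ⟨c', i', hi', z', hz', rfl⟩ := hy
  refine ⟨c + c', i + i', I.add_mem hi hi', z + z', (J I).add_mem hz hz', ?_⟩
  simp only [map_add, map_smul, add_smul]
  abel

lemma InS.sum {ι : Type} (s : Finset ι) (f : ι → ℂ ⊗[ℚ] E) (h : ∀ i ∈ s, InS I (f i)) :
    InS I (∑ i ∈ s, f i) := by
  classical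
  induction s using Finset.induction_on with
  | empty => rw [Finset.sum_empty]; exact InS.zero
  | insert a s ha ih =>
    rw [Finset.sum_insert ha]
    exact (h a (Finset.mem_insert_self a s)).add
      (ih (fun i hi => h i (Finset.mem_insert_of_mem hi)))

lemma InS.inc_one_add {e : E} (h : e - 1 ∈ I) : InS I (inc E e) :=
  ⟨1, e - 1, h, 0, (J I).zero_mem, by rw [one_smul, add_sub_cancel, add_zero]⟩

lemma InS.inc_one : InS I (inc E (1 : E)) := InS.inc_one_add (by rw [sub_self]; exact I.zero_mem)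

lemma mul_aux {c c' : ℚ} {i i' : E} (hi : i ∈ I) (hi' : i' ∈ I) {z z' : ℂ ⊗[ℚ] E}
    (hz : z ∈ J I) (hz' : z' ∈ J I) :
    (inc E (c • 1 + i) + z) * (inc E (c' • 1 + i') + z') =
      inc E ((c • 1 + i) * (c' • 1 + i')) + (c • z' + c' • z) := by
  have h1 : inc E (c • 1 + i) * z' = c • z' := by
    rw [map_add, map_smul, map_one, add_mul, smul_mul_assoc, one_mul, J_left hi hz', add_zero]
  have h2 : z * inc E (c' • 1 + i') = c' • z := by
    rw [map_add, map_smul, map_one, mul_add, mul_smul_comm, mul_one, J_right hi' hz, add_zero]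
  rw [add_mul, mul_add, mul_add, h1, h2, J_mul hz hz', add_zero, map_mul]
  abel

lemma InS.mul (h : IsNilp N I) {x y : ℂ ⊗[ℚ] E} (hx : InS I x) (hy : InS I y) :
    InS I (x * y) := by
  obtain ⟨c, i, hi, z, hz, rfl⟩ := hx
  obtain ⟨c', i', hi', z', hz', rfl⟩ := hy
  refine ⟨c * c', c • i' + c' • i + i * i', ?_, c • z' + c' • z, ?_, ?_⟩
  · exact I.add_mem (I.add_mem (I.smul_mem _ hi') (I.smul_mem _ hi)) (h.mul_mem _ hi _ hi')
  · exact (J I).add_mem ((J I).smul_mem _ hz') ((J I).smul_mem _ hz)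
  · rw [mul_aux hi hi' hz hz']
    congr 2
    rw [add_mul, mul_add, mul_add, smul_mul_smul_comm, mul_one, smul_mul_assoc, one_mul,
      mul_smul_comm, mul_one]
    abel

include hr in
lemma rho_mul {x y : ℂ ⊗[ℚ] E} (hx : InS I x) (hy : InS I y) :
    rho r (x * y) = rho r x * rho r y := by
  obtain ⟨c, i, hi, z, hz, rfl⟩ := hx
  obtain ⟨c', i', hi', z', hz', rfl⟩ := hy
  have k := rho_J (r := r) hz
  have k' := rho_J (r := r) hz'
  have r1 : ∀ (e : E) (x : ℂ ⊗[ℚ] E), rho r (inc E e + x) = e + rho r x := fun e x => by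
    rw [map_add, rho_inc hr]
  rw [mul_aux hi hi' hz hz', r1, r1, r1, map_add, map_smul, map_smul]
  have h1 : (c • 1 + i) * rho r z' = c • rho r z' := by
    rw [add_mul, smul_mul_assoc, one_mul, ((mem_K.1 k').2 i hi).1, add_zero]
  have h2 : rho r z * (c' • 1 + i') = c' • rho r z := by
    rw [mul_add, mul_smul_comm, mul_one, ((mem_K.1 k).2 i' hi').2, add_zero]
  have h3 : rho r z * rho r z' = 0 := ((mem_K.1 k).2 _ (mem_K.1 k').1).2
  rw [add_mul (c • 1 + i) (rho r z), mul_add (c • 1 + i) (c' • 1 + i') (rho r z'),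
    mul_add (rho r z), h1, h2, h3, add_zero]
  abel

/-! ### Values -/

lemma word_mem_K (hn : 1 ≤ n) (h : IsNilp (n + 1) I) {a b : E} (ha : a ∈ I) (hb : b ∈ I)
    {w : List (Fin 2)} (hw : w.length = n) : (w.map ![a, b]).prod ∈ K I := by
  have h0 : w ≠ [] := by
    rintro rfl
    simp at hw
    omega
  refine ⟨word_mem h ha hb h0, fun i hi => ⟨?_, ?_⟩⟩
  · rw [← List.prod_cons]
    refine h.prod_zero _ ?_ (by simp [hw])
    intro x hx
    rcases List.mem_cons.1 hx with rfl | hx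
    · exact hi
    · exact map_mem' ha hb w x hx
  · rw [← List.prod_concat]
    refine h.prod_zero _ ?_ (by simp [hw])
    intro x hx
    rw [List.concat_eq_append, List.mem_append, List.mem_singleton] at hx
    rcases hx with hx | rfl
    · exact map_mem' ha hb w x hx
    · exact hi

lemma valC (h : IsNilp N I) {a b : E} (ha : a ∈ I) (hb : b ∈ I) (Φ : List (Fin 2) → ℂ) :
    val Φ (inc E a) (inc E b) = ∑ w ∈ wl N, Φ w ⊗ₜ[ℚ] (w.map ![a, b]).prod := by
  rw [val_of_zero (word_eq_zero h (inc E) ha hb)]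
  refine Finset.sum_congr rfl (fun w _ => ?_)
  rw [← word_map, smul_inc]

lemma rho_val (h : IsNilp N I) {a b : E} (ha : a ∈ I) (hb : b ∈ I) (Φ : List (Fin 2) → ℂ) :
    rho r (val Φ (inc E a) (inc E b)) = val (fun w => r (Φ w)) a b := by
  rw [valC h ha hb, val_wl h ha hb, map_sum]
  refine Finset.sum_congr rfl (fun w _ => ?_)
  rw [rho_tmul]

lemma InS_val (hn : 1 ≤ n) (h : IsNilp (n + 1) I) {a b : E} (ha : a ∈ I) (hb : b ∈ I)
    (Φ : List (Fin 2) → ℂ) (p : List (Fin 2) → ℚ) (hp : ∀ w, w.length < n → Φ w = (p w : ℂ)) :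
    InS I (val Φ (inc E a) (inc E b)) := by
  rw [valC h ha hb]
  refine InS.sum _ _ (fun w hw => ?_)
  rw [mem_wl] at hw
  rcases Nat.lt_or_ge w.length n with h1 | h1
  · rw [hp w h1, tmul_rat]
    by_cases h2 : w = []
    · subst h2
      exact ⟨p [], 0, I.zero_mem, 0, (J I).zero_mem, by
        rw [List.map_nil, List.prod_nil, add_zero, add_zero]⟩
    · exact ⟨0, p w • (w.map ![a, b]).prod, I.smul_mem _ (word_mem h ha hb h2), 0,
        (J I).zero_mem, by rw [zero_smul, zero_add, add_zero]⟩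
  · refine ⟨0, 0, I.zero_mem, _, Submodule.subset_span
      ⟨Φ w, _, word_mem_K hn h ha hb (show w.length = n by omega), rfl⟩, ?_⟩
    rw [zero_smul, zero_add, map_zero, zero_add]

lemma expC (h : IsNilp N I) {a : E} (ha : a ∈ I) (ν : ℚ) :
    expU ℂ ((ν : ℂ) • inc E a) = inc E (expU ℚ (ν • a)) := by
  have h1 : (ν : ℂ) • inc E a = inc E (ν • a) := by rw [smul_inc, tmul_rat]
  rw [h1, expU_map h (inc E) (I.smul_mem ν ha)]
  exact expU_bc _

end

lemma braid_map {E F : Type} [Ring E] [Ring F] (ψ : E →+* F) {t : Fin 4 → Fin 4 → E}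
    (h : Braid t) : Braid (fun i j => ψ (t i j)) := by
  refine ⟨fun i j => ?_, fun i j k l h1 h2 h3 h4 h5 h6 => ?_, fun i j k h1 h2 h3 => ?_⟩
  · show ψ (t i j) = ψ (t j i)
    rw [h.symm]
  · show ψ (t i j) * ψ (t k l) = ψ (t k l) * ψ (t i j)
    rw [← map_mul, ← map_mul, h.comm i j k l h1 h2 h3 h4 h5 h6]
  · show ψ (t i j) * (ψ (t i k) + ψ (t j k)) = (ψ (t i k) + ψ (t j k)) * ψ (t i j)
    rw [← map_add, ← map_mul, ← map_mul, h.rel i j k h1 h2 h3]

lemma assoc_one : IsAssocN ℚ 1 1 (one1 ℚ) := by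
  have h0 : one1 ℚ [] = 1 := Ser.one_nil
  refine ⟨h0, ?_, ?_, ?_, ?_⟩
  · intro v w hvw
    have hv : v = [] := List.length_eq_zero_iff.1 (by omega)
    have hw : w = [] := List.length_eq_zero_iff.1 (by omega)
    subst hv
    subst hw
    simp [shuffle, h0]
  · intro E _ _ I hI a ha b hb
    rw [val_one1 hI ha hb, val_one1 hI hb ha, one_mul]
  · intro E _ _ I hI a ha b hb c hc _ ν _
    have z : ∀ x ∈ I, x = 0 := by
      intro x hx
      have := hI.prod_zero [x] (by simpa using hx) rfl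
      simpa using this
    rw [val_one1 hI hc ha, val_one1 hI hb hc, val_one1 hI ha hb, z a ha, z b hb, z c hc, smul_zero,
      expU_zero]
    simp
  · intro E _ _ I hI t hB htI
    have m1 : t 0 1 ∈ I := htI 0 1
    have m2 : t 1 2 + t 1 3 ∈ I := I.add_mem (htI _ _) (htI _ _)
    have m3 : t 0 2 + t 1 2 ∈ I := I.add_mem (htI _ _) (htI _ _)
    have m4 : t 2 3 ∈ I := htI 2 3
    have m5 : t 1 2 ∈ I := htI 1 2
    have m6 : t 0 1 + t 0 2 ∈ I := I.add_mem (htI _ _) (htI _ _)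
    have m7 : t 1 3 + t 2 3 ∈ I := I.add_mem (htI _ _) (htI _ _)
    rw [val_one1 hI m1 m2, val_one1 hI m3 m4, val_one1 hI m5 m4, val_one1 hI m6 m7,
      val_one1 hI m1 m5]
    simp

theorem descend (n : ℕ) (p : List (Fin 2) → ℚ) (Φ : List (Fin 2) → ℂ)
    (hΦ : IsAssocN ℂ (n + 1) 1 Φ) (hp : ∀ w, w.length < n → Φ w = (p w : ℂ)) :
    ∃ p' : List (Fin 2) → ℚ, IsAssocN ℚ (n + 1) 1 p' ∧ ∀ w, w.length < n → p' w = p w := by
  rcases Nat.eq_zero_or_pos n with h0 | hn
  · subst h0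
    exact ⟨one1 ℚ, assoc_one, fun w hw => absurd hw (Nat.not_lt_zero _)⟩
  obtain ⟨r, hr⟩ := exists_retr
  have hrq : ∀ q : ℚ, r (q : ℂ) = q := by
    intro q
    have h1 : (q : ℂ) = q • (1 : ℂ) := by rw [Algebra.smul_def, mul_one]; rfl
    rw [h1, map_smul, hr, smul_eq_mul, mul_one]
  have hp' : ∀ w, w.length < n → r (Φ w) = p w := fun w hw => by rw [hp w hw, hrq]
  refine ⟨fun w => r (Φ w), ⟨?_, ?_, ?_, ?_, ?_⟩, hp'⟩
  · show r (Φ []) = 1
    rw [hΦ.one, hr]
  · intro v w hvw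
    show r (Φ v) * r (Φ w) = _
    have e : ((shuffle v w).map (fun w => r (Φ w))).sum = r (Φ v * Φ w) := by
      rw [hΦ.gl v w hvw, map_list_sum, List.map_map]
      rfl
    rw [e]
    by_cases hv : v = []
    · subst hv
      rw [hΦ.one, hr, one_mul, one_mul]
    by_cases hw : w = []
    · subst hw
      rw [hΦ.one, hr, mul_one, mul_one]
    have lv : v.length < n := by
      have := List.length_pos_of_ne_nil hw
      omega
    have lw : w.length < n := by
      have := List.length_pos_of_ne_nil hv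
      omega
    rw [hp v lv, hp w lw, hrq, hrq, ← Rat.cast_mul, hrq]
  · intro E _ _ I hI a ha b hb
    have h1 := hΦ.dual _ (IC I) (nilC hI) _ (inc_mem ha) _ (inc_mem hb)
    have s1 := InS_val hn hI ha hb Φ p hp
    have s2 := InS_val hn hI hb ha Φ p hp
    have h2 := congrArg (rho r) h1
    rw [rho_mul hr s1 s2, rho_val hI ha hb, rho_val hI hb ha, ← map_one (inc E), rho_inc hr] at h2
    exact h2
  · intro E _ _ I hI a ha b hb c hc habc ν hν
    have hν' : (2 * (ν : ℂ) = 1 ∨ 2 * (ν : ℂ) = -1) := by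
      rcases hν with hν | hν
      · left
        have := congrArg (fun q : ℚ => (q : ℂ)) hν
        simpa using this
      · right
        have := congrArg (fun q : ℚ => (q : ℂ)) hν
        simpa using this
    have h1 := hΦ.hex _ (IC I) (nilC hI) _ (inc_mem ha) _ (inc_mem hb) _ (inc_mem hc)
      (by rw [← map_add, ← map_add, habc, map_zero]) ν hν'
    rw [expC hI ha, expC hI hb, expC hI hc] at h1
    have ea := InS.inc_one_add (expU_sub_one_mem hI (I.smul_mem ν ha))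
    have eb := InS.inc_one_add (expU_sub_one_mem hI (I.smul_mem ν hb))
    have ec := InS.inc_one_add (expU_sub_one_mem hI (I.smul_mem ν hc))
    have s1 := InS_val hn hI hc ha Φ p hp
    have s2 := InS_val hn hI hb hc Φ p hp
    have s3 := InS_val hn hI ha hb Φ p hp
    have m1 := ea.mul hI s1
    have m2 := m1.mul hI ec
    have m3 := m2.mul hI s2
    have m4 := m3.mul hI eb
    have h2 := congrArg (rho r) h1
    rw [rho_mul hr m4 s3, rho_mul hr m3 eb, rho_mul hr m2 s2, rho_mul hr m1 ec, rho_mul hr ea s1,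
      rho_val hI ha hb, rho_val hI hb hc, rho_val hI hc ha, ← map_one (inc E), rho_inc hr,
      rho_inc hr, rho_inc hr, rho_inc hr] at h2
    exact h2
  · intro E _ _ I hI t hB htI
    have m1 : t 0 1 ∈ I := htI 0 1
    have m2 : t 1 2 + t 1 3 ∈ I := I.add_mem (htI _ _) (htI _ _)
    have m3 : t 0 2 + t 1 2 ∈ I := I.add_mem (htI _ _) (htI _ _)
    have m4 : t 2 3 ∈ I := htI 2 3
    have m5 : t 1 2 ∈ I := htI 1 2
    have m6 : t 0 1 + t 0 2 ∈ I := I.add_mem (htI _ _) (htI _ _)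
    have m7 : t 1 3 + t 2 3 ∈ I := I.add_mem (htI _ _) (htI _ _)
    have h1 := hΦ.pent _ (IC I) (nilC hI) (fun i j => inc E (t i j))
      (braid_map (inc E : E →+* ℂ ⊗[ℚ] E) hB) (fun i j => inc_mem (htI i j))
    simp only [← map_add] at h1
    have s1 := InS_val hn hI m1 m2 Φ p hp
    have s2 := InS_val hn hI m3 m4 Φ p hp
    have s3 := InS_val hn hI m5 m4 Φ p hp
    have s4 := InS_val hn hI m6 m7 Φ p hp
    have s5 := InS_val hn hI m1 m5 Φ p hp
    have h2 := congrArg (rho r) h1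
    rw [rho_mul hr s1 s2, rho_mul hr (s3.mul hI s4) s5, rho_mul hr s3 s4, rho_val hI m1 m2,
      rho_val hI m3 m4, rho_val hI m5 m4, rho_val hI m6 m7, rho_val hI m1 m5] at h2
    exact h2

end DSCa

end MP446U
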