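import Pool.Agent.Lib.MP_446dfa_ag.grp.Main

set_option linter.all false

/-!
# The unconditional form of the theorem on the motivic Galois group: definitions

`R` is a commutative `ℚ`-algebra, `AA R` the ring of the non-commutative polynomials in two letters
`x = lt R 0`, `y = lt R 1`; `EV a b X` is the value of the polynomial `X` at `a`, `b`; `val f a b` the
value of the series `f : List (Fin 2) → R` (a finite sum) at two elements of a nilpotent subalgebra.
-/

noncomputable section

namespace MP446U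

open MP446 MP446Y MP446Z MP446S MP446I

attribute [local instance 100] LieRing.ofAssociativeRing

section Gen

variable {R : Type} [CommRing R]

/-- the polynomial of the terms of length `< N` of a series -/
def trn (N : ℕ) (f : List (Fin 2) → R) : AA R := ∑ w ∈ wl N, f w • ow R w

/-- `f(c x, c y)` -/
def scaleF (c : R) (f : List (Fin 2) → R) : List (Fin 2) → R := fun w => c ^ w.length * f w

/-- the exponential `∑_k x^k / k!` of a nilpotent element -/
def expU (R : Type) [CommRing R] [Algebra ℚ R] {E : Type} [Ring E] [Algebra R E] (x : E) : E :=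
  ∑ᶠ k : ℕ, ec R k • x ^ k

/-- The properties, for `N`-nilpotent elements, of an associator `(μ, f)` over `R`:
group-likeness, `f(a,b) f(b,a) = 1`, the hexagon equations
`e^{νa} f(c,a) e^{νc} f(b,c) e^{νb} f(a,b) = 1` for `a + b + c = 0` and `2ν = ± μ`, and the
pentagon equation. -/
structure IsAssocN (R : Type) [CommRing R] [Algebra ℚ R] (N : ℕ) (μ : R)
    (f : List (Fin 2) → R) : Prop where
  one : f [] = 1
  gl : ∀ v w : List (Fin 2), v.length + w.length < N → f v * f w = ((shuffle v w).map f).sum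
  dual : ∀ (E : Type) [Ring E] [Algebra R E] (I : Submodule R E), IsNilp N I →
    ∀ a ∈ I, ∀ b ∈ I, val f a b * val f b a = 1
  hex : ∀ (E : Type) [Ring E] [Algebra R E] (I : Submodule R E), IsNilp N I →
    ∀ a ∈ I, ∀ b ∈ I, ∀ c ∈ I, a + b + c = 0 → ∀ ν : R, (2 * ν = μ ∨ 2 * ν = -μ) →
      expU R (ν • a) * val f c a * expU R (ν • c) * val f b c * expU R (ν • b) * val f a b = 1
  pent : ∀ (E : Type) [Ring E] [Algebra R E] (I : Submodule R E), IsNilp N I →
    ∀ t : Fin 4 → Fin 4 → E, Braid t → (∀ i j, t i j ∈ I) →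
      val f (t 0 1) (t 1 2 + t 1 3) * val f (t 0 2 + t 1 2) (t 2 3) =
        val f (t 1 2) (t 2 3) * val f (t 0 1 + t 0 2) (t 1 3 + t 2 3) * val f (t 0 1) (t 1 2)

/-- associators `(μ, f)` over `R` -/
def IsAssoc (R : Type) [CommRing R] [Algebra ℚ R] (μ : R) (f : List (Fin 2) → R) : Prop :=
  ∀ N, IsAssocN R N μ f

/-- the relations of `grt₁` for a homogeneous polynomial `Q` over `R`, in all associative
`R`-algebras -/
structure IsGQ (n : ℕ) (Q : AA R) : Prop where
  hom : Hom n Q
  zero : ∀ (E : Type) [Ring E] [Algebra R E] (a b : E), a * b = b * a → EV a b Q = 0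
  prim : ∀ (E : Type) [Ring E] [Algebra R E] (a b a' b' : E), Com2 a b a' b' →
    EV (a + a') (b + b') Q = EV a b Q + EV a' b' Q
  anti : ∀ (E : Type) [Ring E] [Algebra R E] (a b : E), EV b a Q = -EV a b Q
  cycle : ∀ (E : Type) [Ring E] [Algebra R E] (a b c : E), a + b + c = 0 →
    EV a b Q + EV b c Q + EV c a Q = 0
  hex : ∀ (E : Type) [Ring E] [Algebra R E] (a b c : E), a + b + c = 0 →
    cm b (EV a b Q) + cm c (EV a c Q) = 0
  pent : ∀ (E : Type) [Ring E] [Algebra R E] (t : Fin 4 → Fin 4 → E), Braid t → PLt t Q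

/-- a graded alphabet -/
structure Alph (S : Type) where
  dg : S → ℕ
  pos : ∀ s, 1 ≤ dg s
  fib : ℕ → Finset S
  mem_fib : ∀ n s, s ∈ fib n ↔ dg s = n

/-- the weight of a word -/
def Alph.wt {S : Type} (A : Alph S) (w : List S) : ℕ := (w.map A.dg).sum

/-- the words of weight `< N` form a finite set -/
lemma Alph.finite {S : Type} (A : Alph S) (N : ℕ) : {w : List S | A.wt w < N}.Finite := by
  classical
  induction N with
  | zero => exact (Set.finite_empty).subset (fun w hw => absurd hw (Nat.not_lt_zero _))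
  | succ N ih =>
    let F : Finset S := (Finset.range (N + 1)).biUnion A.fib
    have h1 : (⋃ s ∈ F, (fun w : List S => s :: w) '' {w : List S | A.wt w < N}).Finite :=
      Set.Finite.biUnion F.finite_toSet (fun s _ => ih.image _)
    refine ((Set.finite_singleton ([] : List S)).union h1).subset ?_
    intro w hw
    cases w with
    | nil => exact Or.inl rfl
    | cons s w =>
      right
      have hs := A.pos s
      have e : A.wt (s :: w) = A.dg s + A.wt w := by simp [Alph.wt]
      have hw' : A.wt (s :: w) < N + 1 := hw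
      rw [e] at hw'
      refine Set.mem_biUnion (x := s) ?_ ⟨w, ?_, rfl⟩
      · rw [Finset.mem_coe, Finset.mem_biUnion]
        exact ⟨A.dg s, Finset.mem_range.2 (by omega), (A.mem_fib _ _).2 rfl⟩
      · show A.wt w < N
        omega

/-- the words of weight `< N` -/
def Alph.wd {S : Type} (A : Alph S) (N : ℕ) : Finset (List S) := (A.finite N).toFinset

lemma Alph.mem_wd {S : Type} (A : Alph S) (N : ℕ) (w : List S) : w ∈ A.wd N ↔ A.wt w < N := by
  unfold Alph.wd
  rw [Set.Finite.mem_toFinset]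
  rfl

/-- a graded family of elements of `grt₁`, over `R` -/
structure GFam (R : Type) [CommRing R] (S : Type) extends Alph S where
  Q : S → AA R
  gq : ∀ s, IsGQ (dg s) (Q s)

variable {S : Type} (A : GFam R S)

/-- the operator `L_w = L_{w₁} ∘ ⋯ ∘ L_{w_r}`, where `L_s P = D_s P + P Q_s` and `D_s` is the
derivation `x ↦ [Q_s, x]`, `y ↦ 0` -/
def GFam.Lw (w : List S) : Module.End R (AA R) := (w.map (fun s => (LQ (A.Q s) : Module.End R (AA R)))).prod

/-- the operator `T_u = ∑_w u_w L_w` (the terms of weight `< N`) -/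
def GFam.TN (N : ℕ) (u : List S → R) : Module.End R (AA R) := ∑ w ∈ A.wd N, u w • A.Lw w

/-- the action of `u` on series -/
def GFam.act (u : List S → R) (f : List (Fin 2) → R) : List (Fin 2) → R :=
  fun v => cf (A.TN (v.length + 1) u (trn (v.length + 1) f)) v

/-- the series `1` -/
def one1 (R : Type) [CommRing R] : List (Fin 2) → R := (1 : Ser (Fin 2) R).cf

/-- the base change of a polynomial -/
def bcP {R' : Type} [CommRing R'] (θ : R →+* R') (Q : AA R) : AA R' := mm θ.toAddMonoidHom Q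

/-- `f(φ a φ⁻¹, b) φ = g` where `φ = φ(a, b)`, `g = g(a, b)` -/
def Rel (φ f g : List (Fin 2) → R) : Prop :=
  ∀ (E : Type) [Ring E] [Algebra R E] (N : ℕ) (I : Submodule R E), IsNilp N I →
    ∀ a ∈ I, ∀ b ∈ I, ∀ p : Eˣ, (p : E) = val φ a b →
      val f (p * a * (p⁻¹ : Eˣ)) b * p = val g a b

end Gen

/-! ### Braids -/

/-- The relations between a family `x` (pure braids) and a family `t` (infinitesimal braids) given
by a series `φ`. -/
structure XT {R : Type} [CommRing R] [Algebra ℚ R] (φ : List (Fin 2) → R) {E : Type} [Ring E]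
    [Algebra R E] (x : Fin 4 → Fin 4 → Eˣ) (t : Fin 4 → Fin 4 → E) : Prop where
  e01 : (x 0 1 : E) * val φ (t 0 1) (t 1 2 + t 1 3) = val φ (t 0 1) (t 1 2 + t 1 3) * expU R (t 0 1)
  e12 : (x 1 2 : E) * val φ (t 1 2) (t 2 3) = val φ (t 1 2) (t 2 3) * expU R (t 1 2)
  e23 : (x 2 3 : E) = expU R (t 2 3)
  e123 : (x 1 2 : E) * x 1 3 = expU R (t 1 2 + t 1 3)
  e0212 : (x 0 2 : E) * x 1 2 * (val φ (t 0 1) (t 1 2 + t 1 3) * val φ (t 0 2 + t 1 2) (t 2 3)) =
    (val φ (t 0 1) (t 1 2 + t 1 3) * val φ (t 0 2 + t 1 2) (t 2 3)) * expU R (t 0 2 + t 1 2)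
  e0102 : (x 0 1 : E) * x 0 2 *
      (val φ (t 1 2) (t 2 3) * val φ (t 0 1 + t 0 2) (t 1 3 + t 2 3)) =
    (val φ (t 1 2) (t 2 3) * val φ (t 0 1 + t 0 2) (t 1 3 + t 2 3)) * expU R (t 0 1 + t 0 2)
  e1323 : (x 1 3 : E) * x 2 3 * val φ (t 1 2) (t 2 3) =
    val φ (t 1 2) (t 2 3) * expU R (t 1 3 + t 2 3)
  e0123 : (x 0 1 : E) * x 0 2 * x 0 3 = expU R (t 0 1 + t 0 2 + t 0 3)

/-- `t` and `t'` correspond to each other under an automorphism of `E`, where the transposition `π`
acts on the indices -/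
def Swp {E : Type} [Ring E] [Algebra ℚ E] (π : Equiv.Perm (Fin 4)) (s : E →ₐ[ℚ] E)
    (t : Fin 4 → Fin 4 → E) : Prop := ∀ i j, s (t i j) = t (π i) (π j)

end MP446U
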