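import Pool.Agent.Lib.MP_446dfa_ag.unc.INV

set_option linter.all false

/-!
# GTH: the 2-cycle and hexagon relations of `GT`
-/

noncomputable section

namespace MP446U.GTH

open MP446 MP446Y MP446Z MP446S MP446I MP446U.V MP446U.INV

section Grp

variable {G : Type} [Group G]

lemma grp_z {A B D P1 P2 P3 z : G} (h1 : A * P3 * D * P2 * B * P1 = 1)
    (h2 : A⁻¹ * P3 * D⁻¹ * P2 * B⁻¹ * P1 = 1)
    (hz : (P1 * (A * A) * P1⁻¹) * (B * B) * z = 1) :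
    z = (P2 * B)⁻¹ * (D * D) * (P2 * B) := by
  have e1 : P1 = (A * P3 * D * P2 * B)⁻¹ := eq_inv_of_mul_eq_one_right h1
  have e2 : P1 = (A⁻¹ * P3 * D⁻¹ * P2 * B⁻¹)⁻¹ := eq_inv_of_mul_eq_one_right h2
  have e3 : z = ((P1 * (A * A) * P1⁻¹) * (B * B))⁻¹ := eq_inv_of_mul_eq_one_right hz
  calc z = (B * B)⁻¹ * (P1 * (A * A)⁻¹ * P1⁻¹) := by rw [e3]; group
    _ = (B * B)⁻¹ * ((A⁻¹ * P3 * D⁻¹ * P2 * B⁻¹)⁻¹ * (A * A)⁻¹ *
          ((A * P3 * D * P2 * B)⁻¹)⁻¹) := by rw [← e1, ← e2]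
    _ = _ := by group

lemma grp_lk {A B D P1 P2 P3 : G} (h1 : A * P3 * D * P2 * B * P1 = 1) :
    (P1 * A)⁻¹ * (P2 * B)⁻¹ = P3 * D := by
  have e1 : P1 = (A * P3 * D * P2 * B)⁻¹ := eq_inv_of_mul_eq_one_right h1
  rw [e1]
  group

lemma grp_fin {A B D P1 P2 P3 F1 F2 F3 Am Bm Dm : G} (h1 : A * P3 * D * P2 * B * P1 = 1)
    (h3 : (A * Am) * F3 * (D * Dm) * F2 * (B * Bm) * F1 = 1) (hA : A * Am = Am * A) :
    ((P1 * A) * (F3 * P3⁻¹) * (P1 * A)⁻¹) * ((P2 * B)⁻¹ * Dm * (P2 * B)) *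
      ((P2 * B)⁻¹ * (F2 * P2⁻¹) * (P2 * B)) * Bm * (F1 * P1⁻¹) * (P1 * Am * P1⁻¹) = 1 := by
  have e1 := grp_lk h1
  have e2 : (A * Am) * (F3 * (D * Dm) * F2 * (B * Bm) * F1) = 1 := by
    rw [← h3]
    group
  have e3 := eq_inv_of_mul_eq_one_right e2
  calc ((P1 * A) * (F3 * P3⁻¹) * (P1 * A)⁻¹) * ((P2 * B)⁻¹ * Dm * (P2 * B)) *
      ((P2 * B)⁻¹ * (F2 * P2⁻¹) * (P2 * B)) * Bm * (F1 * P1⁻¹) * (P1 * Am * P1⁻¹)
      = (P1 * A) * (F3 * P3⁻¹) * ((P1 * A)⁻¹ * (P2 * B)⁻¹) * Dm * F2 * B * Bm * F1 * Am * P1⁻¹ := by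
        group
    _ = (P1 * A) * (F3 * (D * Dm) * F2 * (B * Bm) * F1) * Am * P1⁻¹ := by rw [e1]; group
    _ = P1 * (A * (A * Am)⁻¹ * Am) * P1⁻¹ := by rw [e3]; group
    _ = 1 := by rw [hA]; group

end Grp

section Main

variable {R : Type} [CommRing R] [Algebra ℚ R] {E : Type} [Ring E] [Algebra R E] {N : ℕ}
  {I : Submodule R E}

/-- the exponential as a unit -/
def eu (R : Type) [CommRing R] [Algebra ℚ R] {E : Type} [Ring E] [Algebra R E] {N : ℕ}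
    {x : E} (hx : x ^ N = 0) : Eˣ :=
  ⟨expU R x, expU R (-x), by
    have h : (-x) ^ N = 0 := by rw [neg_pow, hx, mul_zero]
    rw [← expU_add hx h (Commute.refl x).neg_right, add_neg_cancel, expU_zero], by
    have h : (-x) ^ N = 0 := by rw [neg_pow, hx, mul_zero]
    rw [← expU_add h hx (Commute.refl x).neg_left, neg_add_cancel, expU_zero]⟩

lemma eu_val {x : E} (hx : x ^ N = 0) : (eu R hx : E) = expU R x := rfl

lemma eu_inv {x : E} (hx : x ^ N = 0) : (((eu R hx)⁻¹ : Eˣ) : E) = expU R (-x) := rfl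

lemma eu_mul {x : E} (hx : x ^ N = 0) (r s : R) (hr : (r • x) ^ N = 0) (hs : (s • x) ^ N = 0) :
    (eu R hr : E) * eu R hs = expU R ((r + s) • x) := by
  rw [eu_val, eu_val, add_smul, expU_add hr hs]
  exact ((Commute.refl x).smul_left r).smul_right s

end Main

end MP446U.GTH

namespace MP446U

open GTH INV V MP446 MP446Y MP446Z MP446S MP446I

/-- GTH. -/
theorem specGTH : SpecGTH := by
  intro R _ _ φ f φ' lam hφ hφ' hrel E _ _ N I hI
  obtain ⟨l1, l2, l3, l4, l5, l6, l7, l8⟩ := specEXL R E N I hI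
  have φ1 : φ [] = 1 := (hφ N).one
  have φ'1 : φ' [] = 1 := (hφ' N).one
  refine ⟨?_, ?_⟩
  · intro x y hx hy
    obtain ⟨a, ha, p, hp, hpa⟩ := exists_preimage φ φ1 hI (l4 x hx).1 (l4 y hy).1
    have hb : logU R y ∈ I := (l4 y hy).1
    have hX : logU R x ∈ I := (l4 x hx).1
    unfold app
    generalize logU R y = b at hb hp ⊢
    generalize logU R x = X at hX hpa ⊢
    have h1 := hrel E N I hI a ha b hb p hp
    have hd := (hφ N).dual E I hI a ha b hb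
    have hq : ((p⁻¹ : Eˣ) : E) = val φ b a := by
      rw [← hp] at hd
      rw [← mul_one ((p⁻¹ : Eˣ) : E), ← hd, ← mul_assoc, Units.inv_mul, one_mul]
    have h2 := hrel E N I hI b hb a ha p⁻¹ hq
    have h3 := val_conj hI hb hX f p⁻¹
    have h4 : ((p⁻¹ : Eˣ) : E) * X * ((p⁻¹)⁻¹ : Eˣ) = a := by
      rw [← hpa, inv_inv]
      calc ((p⁻¹ : Eˣ) : E) * (p * a * (p⁻¹ : Eˣ)) * p
          = ((p⁻¹ : Eˣ) * (p : E)) * a * ((p⁻¹ : Eˣ) * p) := by simp only [mul_assoc]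
        _ = a := by rw [Units.inv_mul, one_mul, mul_one]
    rw [h4] at h3
    rw [h3] at h2
    rw [hpa] at h1
    have hd' := (hφ' N).dual E I hI a ha b hb
    rw [← h1, ← h2] at hd'
    rw [← hd', inv_inv]
    calc val f X b * val f b X = val f X b * ((p : E) * (p⁻¹ : Eˣ)) * val f b X *
          ((p : E) * (p⁻¹ : Eˣ)) := by rw [Units.mul_inv, mul_one, mul_one]
      _ = _ := by simp only [mul_assoc]
  · intro x y z hx hy hz hxyz m hm
    obtain ⟨a, ha, P1, hP1, hpa⟩ := exists_preimage φ φ1 hI (l4 x hx).1 (l4 y hy).1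
    obtain ⟨b, hbE⟩ : ∃ b, b = logU R y := ⟨_, rfl⟩
    obtain ⟨X, hXE⟩ : ∃ X, X = logU R x := ⟨_, rfl⟩
    obtain ⟨Z, hZE⟩ : ∃ Z, Z = logU R z := ⟨_, rfl⟩
    have hb : b ∈ I := hbE ▸ (l4 y hy).1
    have hX : X ∈ I := hXE ▸ (l4 x hx).1
    have hZ : Z ∈ I := hZE ▸ (l4 z hz).1
    have hyb : expU R b = y := hbE ▸ (l4 y hy).2
    have hxX : expU R X = x := hXE ▸ (l4 x hx).2
    have hzZ : expU R Z = z := hZE ▸ (l4 z hz).2
    rw [← hbE] at hP1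
    rw [← hXE] at hpa
    obtain ⟨d, hdE⟩ : ∃ d, d = -(a + b) := ⟨_, rfl⟩
    have hd : d ∈ I := by
      rw [hdE]
      exact I.neg_mem (I.add_mem ha hb)
    have habd : a + b + d = 0 := by rw [hdE, add_neg_cancel]
    obtain ⟨P2, hP2⟩ := exists_val_unit hI hb hd φ1
    obtain ⟨P3, hP3⟩ := exists_val_unit hI hd ha φ1
    obtain ⟨F1, hF1⟩ := exists_val_unit hI ha hb φ'1
    obtain ⟨F2, hF2⟩ := exists_val_unit hI hb hd φ'1
    obtain ⟨F3, hF3⟩ := exists_val_unit hI hd ha φ'1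
    -- exponentials
    obtain ⟨h, hh⟩ : ∃ h : R, h = algebraMap ℚ R (1 / 2) := ⟨_, rfl⟩
    have hh2 : h + h = 1 := by
      rw [hh, ← map_add]
      norm_num
    have nz : ∀ {u : E}, u ∈ I → ∀ r : R, (r • u) ^ N = 0 := fun hu r =>
      nilp_pow_zero hI (I.smul_mem r hu) le_rfl
    have nz1 : ∀ {u : E}, u ∈ I → u ^ N = 0 := fun hu => nilp_pow_zero hI hu le_rfl
    obtain ⟨A, hA⟩ : ∃ A, A = eu R (nz ha h) := ⟨_, rfl⟩
    obtain ⟨B, hB⟩ : ∃ A, A = eu R (nz hb h) := ⟨_, rfl⟩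
    obtain ⟨D, hD⟩ : ∃ A, A = eu R (nz hd h) := ⟨_, rfl⟩
    obtain ⟨Am, hAm⟩ : ∃ A, A = eu R (nz ha m) := ⟨_, rfl⟩
    obtain ⟨Bm, hBm⟩ : ∃ A, A = eu R (nz hb m) := ⟨_, rfl⟩
    obtain ⟨Dm, hDm⟩ : ∃ A, A = eu R (nz hd m) := ⟨_, rfl⟩
    have g1 : A * P3 * D * P2 * B * P1 = 1 := by
      apply Units.ext
      have := (hφ N).hex E I hI a ha b hb d hd habd h (Or.inl (by rw [two_mul, hh2]))
      simp only [Units.val_mul, Units.val_one]
      rw [hA, hD, hB, eu_val, eu_val, eu_val, hP1, hP2, hP3]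
      exact this
    have g2 : A⁻¹ * P3 * D⁻¹ * P2 * B⁻¹ * P1 = 1 := by
      apply Units.ext
      have := (hφ N).hex E I hI a ha b hb d hd habd (-h) (Or.inr (by rw [mul_neg, two_mul, hh2]))
      simp only [Units.val_mul, Units.val_one]
      rw [hA, hD, hB, eu_inv, eu_inv, eu_inv, hP1, hP2, hP3, ← neg_smul, ← neg_smul, ← neg_smul]
      exact this
    have g3 : (A * Am) * F3 * (D * Dm) * F2 * (B * Bm) * F1 = 1 := by
      apply Units.ext
      have := (hφ' N).hex E I hI a ha b hb d hd habd (h + m) (Or.inl (by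
        rw [mul_add, two_mul, hh2, ← hm, add_comm]))
      simp only [Units.val_mul, Units.val_one]
      rw [hA, hD, hB, hAm, hDm, hBm, eu_mul (nz1 ha), eu_mul (nz1 hd), eu_mul (nz1 hb), hF1, hF2, hF3]
      exact this
    have gA : A * Am = Am * A := by
      apply Units.ext
      rw [Units.val_mul, Units.val_mul, hA, hAm, eu_mul (nz1 ha), eu_mul (nz1 ha), add_comm]
    -- the elements
    have sq : ∀ {u : E} (hu : u ∈ I), (eu R (nz hu h) : E) * eu R (nz hu h) = expU R u := by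
      intro u hu
      rw [eu_mul (nz1 hu), hh2, one_smul]
    have ex : x = P1 * (A * A) * (P1⁻¹ : Eˣ) := by
      rw [← hxX, ← hpa, l6 a ha P1, hA, sq ha]
    have ey : y = (B * B : Eˣ) := by
      rw [← hyb, Units.val_mul, hB, sq hb]
    have hzu : ∃ zu : Eˣ, (zu : E) = z := by
      have e1 : (-Z) ^ N = 0 := by rw [neg_pow, nz1 hZ, mul_zero]
      exact ⟨eu R (nz1 hZ), by rw [eu_val, hzZ]⟩
    obtain ⟨zu, hzu⟩ := hzu
    have gz : zu = (P2 * B)⁻¹ * (D * D) * (P2 * B) := by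
      refine grp_z g1 g2 ?_
      apply Units.ext
      rw [Units.val_mul, Units.val_mul, ← ey, hzu, Units.val_one, ← hxyz, Units.val_mul,
        Units.val_mul, Units.val_mul, ← ex]
    have eZ : Z = ((P2 * B)⁻¹ : Eˣ) * d * (((P2 * B)⁻¹)⁻¹ : Eˣ) := by
      have e1 : z = ((P2 * B)⁻¹ : Eˣ) * expU R d * (((P2 * B)⁻¹)⁻¹ : Eˣ) := by
        rw [← hzu, gz, inv_inv, ← sq hd, ← hD]
        simp only [Units.val_mul]
      rw [hZE, e1, l7 _ (l1 d hd), l2 d hd]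
    have cB : (B : E) * b = b * B := by
      rw [hB, eu_val]
      exact (expU_commute (nz hb h) ((Commute.refl b).smul_right h)).eq.symm
    have cA : (A : E) * a = a * A := by
      rw [hA, eu_val]
      exact (expU_commute (nz ha h) ((Commute.refl a).smul_right h)).eq.symm
    have cD : (D : E) * d = d * D := by
      rw [hD, eu_val]
      exact (expU_commute (nz hd h) ((Commute.refl d).smul_right h)).eq.symm
    have conjc : ∀ {u v : Eˣ} {w : E}, (v : E) * w = w * v →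
        ((u * v : Eˣ) : E) * w * ((u * v)⁻¹ : Eˣ) = u * w * (u⁻¹ : Eˣ) := by
      intro u v w hc
      rw [mul_inv_rev, Units.val_mul, Units.val_mul]
      calc (u : E) * v * w * ((v⁻¹ : Eˣ) * (u⁻¹ : Eˣ)) = u * (v * w) * (v⁻¹ : Eˣ) * (u⁻¹ : Eˣ) := by
            simp only [mul_assoc]
        _ = u * w * (v * (v⁻¹ : Eˣ)) * (u⁻¹ : Eˣ) := by rw [hc]; simp only [mul_assoc]
        _ = _ := by rw [Units.mul_inv, mul_one]
    -- the values
    have v1 : app f x y = (F1 * P1⁻¹ : Eˣ) := by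
      have e1 := hrel E N I hI a ha b hb P1 hP1
      rw [hpa] at e1
      unfold app
      rw [← hXE, ← hbE, Units.val_mul, hF1, ← e1, mul_assoc, Units.mul_inv, mul_one]
    have v2 : app f y z = ((P2 * B)⁻¹ * (F2 * P2⁻¹) * (P2 * B) : Eˣ) := by
      have e1 := hrel E N I hI b hb d hd P2 hP2
      have e2 := val_conj hI hb hZ f (P2 * B)
      have e3 : ((P2 * B : Eˣ) : E) * Z * ((P2 * B)⁻¹ : Eˣ) = d := by
        rw [eZ, inv_inv]
        calc ((P2 * B : Eˣ) : E) * (((P2 * B)⁻¹ : Eˣ) * d * (P2 * B : Eˣ)) * ((P2 * B)⁻¹ : Eˣ)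
            = (((P2 * B : Eˣ) : E) * ((P2 * B)⁻¹ : Eˣ)) * d *
              (((P2 * B : Eˣ) : E) * ((P2 * B)⁻¹ : Eˣ)) := by simp only [mul_assoc]
          _ = d := by rw [Units.mul_inv, one_mul, mul_one]
      rw [conjc cB, e3] at e2
      have e4 : val f (P2 * b * (P2⁻¹ : Eˣ)) d = (F2 * P2⁻¹ : Eˣ) := by
        rw [Units.val_mul, hF2, ← e1, Units.mul_inv_cancel_right]
      rw [e4] at e2
      unfold app
      rw [← hZE, ← hbE, Units.val_mul, Units.val_mul _ (F2 * P2⁻¹), e2]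
      calc val f b Z = (((P2 * B)⁻¹ : Eˣ) * ((P2 * B : Eˣ) : E)) * val f b Z *
            (((P2 * B)⁻¹ : Eˣ) * ((P2 * B : Eˣ) : E)) := by rw [Units.inv_mul, one_mul, mul_one]
        _ = _ := by simp only [mul_assoc]
    have v3 : app f z x = ((P1 * A) * (F3 * P3⁻¹) * (P1 * A)⁻¹ : Eˣ) := by
      have e1 := hrel E N I hI d hd a ha P3 hP3
      have e2 := val_conj hI hZ hX f (P1 * A)⁻¹
      have e3 : (((P1 * A)⁻¹ : Eˣ) : E) * X * (((P1 * A)⁻¹)⁻¹ : Eˣ) = a := by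
        rw [← hpa, ← conjc cA, inv_inv]
        calc (((P1 * A)⁻¹ : Eˣ) : E) * (((P1 * A : Eˣ) : E) * a * ((P1 * A)⁻¹ : Eˣ)) * (P1 * A : Eˣ)
            = ((((P1 * A)⁻¹ : Eˣ) : E) * ((P1 * A : Eˣ) : E)) * a *
              ((((P1 * A)⁻¹ : Eˣ) : E) * ((P1 * A : Eˣ) : E)) := by simp only [mul_assoc]
          _ = a := by rw [Units.inv_mul, one_mul, mul_one]
      have e5 : (((P1 * A)⁻¹ : Eˣ) : E) * Z * (((P1 * A)⁻¹)⁻¹ : Eˣ) = P3 * d * (P3⁻¹ : Eˣ) := by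
        have e6 : ((P1 * A)⁻¹ * (P2 * B)⁻¹ : Eˣ) = P3 * D := grp_lk g1
        rw [eZ]
        calc (((P1 * A)⁻¹ : Eˣ) : E) * (((P2 * B)⁻¹ : Eˣ) * d * (((P2 * B)⁻¹)⁻¹ : Eˣ)) *
              (((P1 * A)⁻¹)⁻¹ : Eˣ)
            = (((P1 * A)⁻¹ * (P2 * B)⁻¹ : Eˣ) : E) * d * (((P1 * A)⁻¹ * (P2 * B)⁻¹)⁻¹ : Eˣ) := by
              rw [mul_inv_rev ((P1 * A)⁻¹)]
              simp only [Units.val_mul, mul_assoc]
          _ = _ := by rw [e6, conjc cD]
      rw [e5, e3] at e2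
      have e4 : val f (P3 * d * (P3⁻¹ : Eˣ)) a = (F3 * P3⁻¹ : Eˣ) := by
        rw [Units.val_mul, hF3, ← e1, Units.mul_inv_cancel_right]
      rw [e4, inv_inv] at e2
      unfold app
      rw [← hZE, ← hXE, Units.val_mul, Units.val_mul _ (F3 * P3⁻¹), e2]
      calc val f Z X = (((P1 * A : Eˣ) : E) * ((P1 * A)⁻¹ : Eˣ)) * val f Z X *
            (((P1 * A : Eˣ) : E) * ((P1 * A)⁻¹ : Eˣ)) := by rw [Units.mul_inv, one_mul, mul_one]
        _ = _ := by simp only [mul_assoc]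
    have w1 : powU x m = (P1 * Am * P1⁻¹ : Eˣ) := by
      rw [← hxX, l3 X hX m, ← hpa, ← smul_mul_assoc, ← mul_smul_comm, l6 _ (I.smul_mem m ha),
        Units.val_mul, Units.val_mul, hAm, eu_val]
    have w2 : powU y m = (Bm : Eˣ) := by
      rw [← hyb, l3 b hb m, hBm, eu_val]
    have w3 : powU z m = ((P2 * B)⁻¹ * Dm * (P2 * B) : Eˣ) := by
      rw [← hzZ, l3 Z hZ m, eZ, ← smul_mul_assoc, ← mul_smul_comm, l6 _ (I.smul_mem m hd),
        Units.val_mul, Units.val_mul _ Dm, hDm, eu_val, inv_inv]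
    rw [v1, v2, v3, w1, w2, w3, ← Units.val_mul, ← Units.val_mul, ← Units.val_mul, ← Units.val_mul,
      ← Units.val_mul, grp_fin g1 g3 gA, Units.val_one]

end MP446U
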