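import Pool.Agent.Lib.MP_446dfa_ag.sig.REG

set_option linter.all false

/-!
# The complex KZ equation on the upper half plane: existence of solutions
-/

noncomputable section

namespace MP446S.HX

open MP446 MP446Y MP446Z Set Filter Topology

/-- the upper half plane, together with the interval `(0, 1)` -/
def DD : Set ℂ := {z | 0 < z.im} ∪ {z | z.im = 0 ∧ 0 < z.re ∧ z.re < 1}

lemma mem_DD {z : ℂ} : z ∈ DD ↔ 0 < z.im ∨ (z.im = 0 ∧ 0 < z.re ∧ z.re < 1) := Iff.rfl

lemma DD_upper {z : ℂ} (h : 0 < z.im) : z ∈ DD := Or.inl h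

lemma DD_real {x : ℝ} (h : x ∈ Ioo (0 : ℝ) 1) : (x : ℂ) ∈ DD := Or.inr ⟨by simp, by simpa using h.1,
  by simpa using h.2⟩

lemma convex_DD : Convex ℝ DD := by
  rw [convex_iff_forall_pos]
  intro z hz w hw a b ha hb hab
  rw [mem_DD] at hz hw ⊢
  have him : (a • z + b • w).im = a * z.im + b * w.im := by simp
  have hre : (a • z + b • w).re = a * z.re + b * w.re := by simp
  rw [him, hre]
  have hz0 : 0 ≤ z.im := by
    rcases hz with h | h
    · exact h.le
    · exact h.1.ge
  have hw0 : 0 ≤ w.im := by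
    rcases hw with h | h
    · exact h.le
    · exact h.1.ge
  rcases hz with hz | ⟨hz1, hz2, hz3⟩
  · left
    have := mul_pos ha hz
    have := mul_nonneg hb.le hw0
    linarith
  · rcases hw with hw | ⟨hw1, hw2, hw3⟩
    · left
      have := mul_pos hb hw
      have := mul_nonneg ha.le hz0
      linarith
    · right
      rw [hz1, hw1]
      refine ⟨by ring, by positivity, ?_⟩
      have h1 := mul_lt_mul_of_pos_left hz3 ha
      have h2 := mul_lt_mul_of_pos_left hw3 hb
      linarith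

lemma DD_ne_zero {z : ℂ} (hz : z ∈ DD) : z ≠ 0 := by
  rintro rfl
  rcases hz with h | h
  · simp at h
  · have := h.2.1; simp at this

lemma DD_ne_one {z : ℂ} (hz : z ∈ DD) : z - 1 ≠ 0 := by
  intro h
  have : z = 1 := by linear_combination h
  subst this
  rcases hz with h | h
  · simp at h
  · have := h.2.2; simp at this

/-- the two differential forms -/
def omc (i : Fin 2) (z : ℂ) : ℂ := if i = 0 then z⁻¹ else (z - 1)⁻¹

lemma omc_diff (i : Fin 2) : DifferentiableOn ℂ (omc i) DD := by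
  by_cases hi : i = 0
  · have : omc i = fun z => z⁻¹ := by funext z; simp [omc, hi]
    rw [this]
    exact differentiableOn_id.inv fun z hz => DD_ne_zero hz
  · have : omc i = fun z => (z - 1)⁻¹ := by funext z; simp [omc, hi]
    rw [this]
    exact (differentiableOn_id.sub_const 1).inv fun z hz => DD_ne_one hz

lemma half_mem_DD : (1 / 2 : ℂ) ∈ DD := by
  have := DD_real (x := 1 / 2) (by constructor <;> norm_num)
  simpa using this

lemma exists_prim {f : ℂ → ℂ} (hf : DifferentiableOn ℂ f DD) :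
    ∃ g : ℂ → ℂ, g (1 / 2) = 0 ∧ ∀ z ∈ DD, HasDerivWithinAt g (f z) DD z := by
  obtain ⟨g, hg⟩ := convex_DD.exists_forall_hasDerivWithinAt hf
  exact ⟨fun z => g z - g (1 / 2), by simp, fun z hz => (hg z hz).sub_const _⟩

/-- the iterated integrals on `DD` -/
theorem exists_J : ∃ J : List (Fin 2) → ℂ → ℂ, (∀ z, J [] z = 1) ∧
    (∀ i w, J (i :: w) (1 / 2) = 0) ∧
    ∀ i w, ∀ z ∈ DD, HasDerivWithinAt (J (i :: w)) (omc i z * J w z) DD z := by
  classical
  have key : ∀ (i : Fin 2) (f : ℂ → ℂ), ∃ g : ℂ → ℂ, DifferentiableOn ℂ f DD →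
      (g (1 / 2) = 0 ∧ ∀ z ∈ DD, HasDerivWithinAt g (omc i z * f z) DD z) := by
    intro i f
    by_cases hf : DifferentiableOn ℂ f DD
    · obtain ⟨g, hg⟩ := exists_prim ((omc_diff i).mul hf)
      exact ⟨g, fun _ => hg⟩
    · exact ⟨0, fun h => absurd h hf⟩
  choose P hP using key
  let J : List (Fin 2) → ℂ → ℂ := fun w => w.foldr P (fun _ => 1)
  have hJ0 : ∀ z, J [] z = 1 := fun z => rfl
  have hJs : ∀ i w, J (i :: w) = P i (J w) := fun i w => rfl
  have hd : ∀ w, DifferentiableOn ℂ (J w) DD := by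
    intro w
    induction w with
    | nil => exact differentiableOn_const (1 : ℂ)
    | cons i w ih =>
      rw [hJs]
      exact fun z hz => ((hP i _ ih).2 z hz).differentiableWithinAt
  refine ⟨J, hJ0, fun i w => ?_, fun i w z hz => ?_⟩
  · rw [hJs]; exact (hP i _ (hd w)).1
  · rw [hJs]; exact (hP i _ (hd w)).2 z hz

/-- the iterated integrals on `DD`, from `1/2` to `z` -/
def J : List (Fin 2) → ℂ → ℂ := exists_J.choose

lemma J_nil (z : ℂ) : J [] z = 1 := exists_J.choose_spec.1 z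

lemma J_half (i : Fin 2) (w : List (Fin 2)) : J (i :: w) (1 / 2) = 0 :=
  exists_J.choose_spec.2.1 i w

lemma J_deriv (i : Fin 2) (w : List (Fin 2)) {z : ℂ} (hz : z ∈ DD) :
    HasDerivWithinAt (J (i :: w)) (omc i z * J w z) DD z :=
  exists_J.choose_spec.2.2 i w z hz

section

variable {E : Type*} [Ring E] [Algebra ℂ E]

/-- `I` is closed under products, and all products of `N` elements of `I` vanish -/
structure NilC (N : ℕ) (I : Submodule ℂ E) : Prop where
  mul_mem : ∀ x ∈ I, ∀ y ∈ I, x * y ∈ I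
  prod_zero : ∀ l : List E, (∀ x ∈ l, x ∈ I) → l.length = N → l.prod = 0

/-- the solution -/
def UC (N : ℕ) (A B : E) (z : ℂ) : E := ∑ w ∈ wl N, J w z • (w.map ![A, B]).prod

end

section

variable {E : Type*} [NormedRing E] [NormedAlgebra ℂ E]

lemma NilC.nil {N : ℕ} {I : Submodule ℂ E} (h : NilC N I) : Nil N (I.restrictScalars ℝ) :=
  ⟨h.mul_mem, h.prod_zero⟩

/-- the connection -/
def OmC (A B : E) (z : ℂ) : E := z⁻¹ • A + (z - 1)⁻¹ • B

lemma OmC_eq (A B : E) (z : ℂ) (Z : E) :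
    OmC A B z * Z = ∑ i : Fin 2, omc i z • ((![A, B] : Fin 2 → E) i * Z) := by
  rw [Fin.sum_univ_two]
  simp [OmC, omc, add_mul]

open KZaux

lemma UC_succ (N : ℕ) (A B : E) (z : ℂ) :
    UC (N + 1) A B z = 1 + ∑ i : Fin 2, ∑ w ∈ wl N,
      J (i :: w) z • ((![A, B] : Fin 2 → E) i * (w.map ![A, B]).prod) := by
  rw [UC, sum_wl_succ]
  simp [J_nil]

lemma UC_half (N : ℕ) (A B : E) : UC (N + 1) A B (1 / 2) = 1 := by
  rw [UC_succ]
  simp only [J_half, zero_smul, Finset.sum_const_zero, add_zero]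

lemma UC_deriv_aux (N : ℕ) (A B : E) {z : ℂ} (hz : z ∈ DD) :
    HasDerivWithinAt (UC (N + 1) A B) (OmC A B z * UC N A B z) DD z := by
  have h1 : HasDerivWithinAt (fun z => 1 + ∑ i : Fin 2, ∑ w ∈ wl N,
      J (i :: w) z • ((![A, B] : Fin 2 → E) i * (w.map ![A, B]).prod))
      (∑ i : Fin 2, ∑ w ∈ wl N,
        (omc i z * J w z) • ((![A, B] : Fin 2 → E) i * (w.map ![A, B]).prod)) DD z := by
    refine HasDerivWithinAt.const_add _ ?_
    refine HasDerivWithinAt.fun_sum fun i _ => HasDerivWithinAt.fun_sum fun w _ => ?_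
    exact (J_deriv i w hz).smul_const _
  have h2 : (∑ i : Fin 2, ∑ w ∈ wl N,
        (omc i z * J w z) • ((![A, B] : Fin 2 → E) i * (w.map ![A, B]).prod)) =
      OmC A B z * UC N A B z := by
    rw [OmC_eq]
    refine Finset.sum_congr rfl fun i _ => ?_
    rw [UC, Finset.mul_sum, Finset.smul_sum]
    refine Finset.sum_congr rfl fun w _ => ?_
    rw [mul_smul_comm, smul_smul]
  rw [h2] at h1
  have h3 : UC (N + 1) A B = (fun z => 1 + ∑ i : Fin 2, ∑ w ∈ wl N,
      J (i :: w) z • ((![A, B] : Fin 2 → E) i * (w.map ![A, B]).prod)) := by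
    funext z; exact UC_succ N A B z
  rw [h3]
  exact h1

lemma letter_mul_UC {N : ℕ} {I : Submodule ℂ E} (hI : NilC (N + 1) I) {A B : E} (hA : A ∈ I)
    (hB : B ∈ I) (z : ℂ) (i : Fin 2) :
    (![A, B] : Fin 2 → E) i * UC N A B z = (![A, B] : Fin 2 → E) i * UC (N + 1) A B z := by
  rw [UC, UC, Finset.mul_sum, Finset.mul_sum]
  refine Finset.sum_subset ?_ ?_
  · intro w hw
    rw [mem_wl] at hw ⊢
    omega
  · intro w hw hw2
    rw [mem_wl] at hw hw2
    rw [mul_smul_comm]
    have h1 := hI.nil.word_zero hA hB (i :: w) (by simp; omega)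
    rw [List.map_cons, List.prod_cons] at h1
    rw [h1, smul_zero]

lemma UC_deriv {N : ℕ} {I : Submodule ℂ E} (hI : NilC N I) {A B : E} (hA : A ∈ I)
    (hB : B ∈ I) {z : ℂ} (hz : z ∈ DD) :
    HasDerivWithinAt (UC N A B) (OmC A B z * UC N A B z) DD z := by
  cases N with
  | zero =>
    have h1 : (1 : E) = 0 := hI.prod_zero [] (by simp) rfl
    have : Subsingleton E := subsingleton_of_zero_eq_one h1.symm
    have h2 := hasDerivWithinAt_const z DD (0 : E)
    refine (h2.congr_deriv (Subsingleton.elim _ _)).congr (fun u _ => Subsingleton.elim _ _)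
      (Subsingleton.elim _ _)
  | succ N =>
    have h1 := UC_deriv_aux N A B hz
    have h2 : OmC A B z * UC N A B z = OmC A B z * UC (N + 1) A B z := by
      rw [OmC_eq, OmC_eq]
      refine Finset.sum_congr rfl fun i _ => ?_
      rw [letter_mul_UC hI hA hB]
    rw [h2] at h1
    exact h1

lemma UC_one {N : ℕ} {I : Submodule ℂ E} (hI : NilC N I) (A B : E) :
    UC N A B (1 / 2) = 1 := by
  cases N with
  | zero =>
    have h1 : (1 : E) = 0 := hI.prod_zero [] (by simp) rfl
    have : Subsingleton E := subsingleton_of_zero_eq_one h1.symm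
    exact Subsingleton.elim _ _
  | succ N => exact UC_half N A B

lemma UC_sub_one_mem {N : ℕ} {I : Submodule ℂ E} (hI : NilC N I) {A B : E} (hA : A ∈ I)
    (hB : B ∈ I) (z : ℂ) : UC N A B z - 1 ∈ I := by
  cases N with
  | zero =>
    have h1 : (1 : E) = 0 := hI.prod_zero [] (by simp) rfl
    have : Subsingleton E := subsingleton_of_zero_eq_one h1.symm
    rw [Subsingleton.elim (UC 0 A B z - 1) 0]
    exact I.zero_mem
  | succ N =>
    rw [UC_succ, add_sub_cancel_left]
    refine I.sum_mem fun i _ => I.sum_mem fun w _ => I.smul_mem _ ?_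
    have := hI.nil.prod_mem ((i :: w).map ![A, B]) (map_mem hA hB (i :: w)) (by simp)
    rwa [List.map_cons, List.prod_cons] at this

/-- the inverse of a unipotent element -/
def iv (N : ℕ) (g : E) : E := ∑ k ∈ Finset.range N, (1 - g) ^ k

lemma iv_mul {N : ℕ} {I : Submodule ℂ E} (hI : NilC N I) {g : E} (hg : g - 1 ∈ I) :
    iv N g * g = 1 := by
  have h1 : (1 - g) ^ N = 0 := by
    have : 1 - g ∈ I := by
      have := I.neg_mem hg
      rwa [neg_sub] at this
    exact hI.nil.pow_zero this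
  have h2 := geom_sum_mul_neg (1 - g) N
  rw [h1, sub_zero, sub_sub_cancel] at h2
  exact h2

lemma mul_iv {N : ℕ} {I : Submodule ℂ E} (hI : NilC N I) {g : E} (hg : g - 1 ∈ I) :
    g * iv N g = 1 := by
  have h1 : (1 - g) ^ N = 0 := by
    have : 1 - g ∈ I := by
      have := I.neg_mem hg
      rwa [neg_sub] at this
    exact hI.nil.pow_zero this
  have h2 := mul_neg_geom_sum (1 - g) N
  rw [h1, sub_zero, sub_sub_cancel] at h2
  exact h2

/-- the inverse of the solution -/
def VC (N : ℕ) (A B : E) (z : ℂ) : E := iv N (UC N A B z)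

lemma VU {N : ℕ} {I : Submodule ℂ E} (hI : NilC N I) {A B : E} (hA : A ∈ I)
    (hB : B ∈ I) (z : ℂ) : VC N A B z * UC N A B z = 1 := iv_mul hI (UC_sub_one_mem hI hA hB z)

lemma UV {N : ℕ} {I : Submodule ℂ E} (hI : NilC N I) {A B : E} (hA : A ∈ I)
    (hB : B ∈ I) (z : ℂ) : UC N A B z * VC N A B z = 1 := mul_iv hI (UC_sub_one_mem hI hA hB z)

/-- the transport from `z` to `w` -/
def TC (N : ℕ) (A B : E) (z w : ℂ) : E := UC N A B w * VC N A B z

lemma TC_self {N : ℕ} {I : Submodule ℂ E} (hI : NilC N I) {A B : E} (hA : A ∈ I)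
    (hB : B ∈ I) (z : ℂ) : TC N A B z z = 1 := UV hI hA hB z

lemma TC_mul {N : ℕ} {I : Submodule ℂ E} (hI : NilC N I) {A B : E} (hA : A ∈ I)
    (hB : B ∈ I) (z w u : ℂ) : TC N A B w u * TC N A B z w = TC N A B z u := by
  unfold TC
  rw [mul_assoc, ← mul_assoc (VC N A B w), VU hI hA hB, one_mul]

lemma TC_deriv {N : ℕ} {I : Submodule ℂ E} (hI : NilC N I) {A B : E} (hA : A ∈ I)
    (hB : B ∈ I) (s : ℂ) {z : ℂ} (hz : z ∈ DD) :
    HasDerivWithinAt (TC N A B s) (OmC A B z * TC N A B s z) DD z := by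
  have := (UC_deriv hI hA hB hz).mul_const (VC N A B s)
  rw [mul_assoc] at this
  exact this

end

end MP446S.HX
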