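import Pool.Agent.Lib.MP_446dfa_ag.unc.HexA
import Pool.Agent.Lib.MP_446dfa_ag.sig.KPGa

set_option linter.all false

/-!
# The complex KZ equation on the upper half plane: estimates along arcs
-/

noncomputable section

namespace MP446S.HX

open MP446 MP446Y MP446Z Set Filter Topology NormedSpace

section Pert

variable {E : Type*} [NormedRing E] [NormedAlgebra ℂ E] [CompleteSpace E]

/-- a small perturbation of an equation with constant coefficients -/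
lemma pert (M : E) : ∃ C : ℝ, 0 ≤ C ∧ ∀ (f r : ℝ → E) (ρ : ℝ), 0 ≤ ρ → ρ ≤ 1 →
    ContinuousOn f (Icc 0 1) →
    (∀ t ∈ Ico (0 : ℝ) 1, HasDerivWithinAt f ((M + r t) * f t) (Ici t) t) →
    (∀ t ∈ Ico (0 : ℝ) 1, ‖r t‖ ≤ ρ) → ‖f 1 - exp M * f 0‖ ≤ C * ρ * ‖f 0‖ := by
  have hcont : Continuous (fun t : ℝ => exp (t • (-M))) := by
    have : ∀ t : ℝ, HasDerivAt (fun t : ℝ => exp (t • (-M))) ((-M) * exp (t • (-M))) t :=
      fun t => hasDerivAt_exp_smul_const' (𝕂 := ℝ) (-M) t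
    exact continuous_iff_continuousAt.2 fun t => (this t).continuousAt
  obtain ⟨K, hK⟩ := isCompact_Icc.exists_bound_of_continuousOn (s := Icc (0 : ℝ) 1)
    hcont.continuousOn
  have hK0 : 0 ≤ K := (norm_nonneg _).trans (hK 0 ⟨le_refl _, zero_le_one⟩)
  refine ⟨‖exp M‖ * (K * Real.exp (‖M‖ + 1)), by positivity, ?_⟩
  intro f r ρ hρ hρ1 hf hf' hr
  have hgr : ∀ x ∈ Icc (0 : ℝ) 1, ‖f x‖ ≤ gronwallBound ‖f 0‖ (‖M‖ + 1) 0 (x - 0) := by
    refine norm_le_gronwallBound_of_norm_deriv_right_le hf hf' le_rfl ?_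
    intro x hx
    rw [add_zero]
    refine (norm_mul_le _ _).trans ?_
    refine mul_le_mul_of_nonneg_right ?_ (norm_nonneg _)
    exact (norm_add_le _ _).trans (by linarith [hr x hx])
  have hb : ∀ x ∈ Icc (0 : ℝ) 1, ‖f x‖ ≤ Real.exp (‖M‖ + 1) * ‖f 0‖ := by
    intro x hx
    refine (hgr x hx).trans ?_
    rw [gronwallBound_ε0, sub_zero, mul_comm]
    refine mul_le_mul_of_nonneg_right ?_ (norm_nonneg _)
    apply Real.exp_le_exp.2
    have : 0 ≤ ‖M‖ + 1 := by positivity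
    nlinarith [hx.2]
  have hM : ∀ t : ℝ, exp (t • (-M)) * M = M * exp (t • (-M)) := by
    intro t
    have h1 : Commute (t • (-M)) M := ((Commute.refl M).neg_left).smul_left t
    exact h1.exp_left
  have key := norm_image_sub_le_of_norm_deriv_right_le_segment (a := (0 : ℝ)) (b := 1)
    (f := fun t => exp (t • (-M)) * f t) (f' := fun t => exp (t • (-M)) * (r t * f t))
    (C := K * (ρ * (Real.exp (‖M‖ + 1) * ‖f 0‖))) (hcont.continuousOn.mul hf) ?_ ?_ 1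
    ⟨zero_le_one, le_refl _⟩
  · have h1 : f 1 - exp M * f 0 = exp M * (exp ((1 : ℝ) • (-M)) * f 1 - exp ((0 : ℝ) • (-M)) * f 0) := by
      have h2 : exp M * exp ((1 : ℝ) • (-M)) = 1 := by
        rw [← PWaux.exp_add' ((Commute.refl M).neg_right.smul_right _), one_smul, add_neg_cancel,
          exp_zero]
      rw [zero_smul, exp_zero, one_mul, mul_sub, ← mul_assoc, h2, one_mul]
    rw [h1]
    refine (norm_mul_le _ _).trans ?_
    have h3 := mul_le_mul_of_nonneg_left key (norm_nonneg (exp M))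
    refine h3.trans (le_of_eq ?_)
    ring
  · intro t ht
    have h1 := ((hasDerivAt_exp_smul_const' (𝕂 := ℝ) (-M) t).hasDerivWithinAt (s := Ici t)).mul
      (hf' t ht)
    refine h1.congr_deriv ?_
    rw [add_mul, mul_add, ← mul_assoc (exp (t • (-M))) M, hM, neg_mul, neg_mul, mul_assoc]
    abel
  · intro t ht
    have ht' : t ∈ Icc (0 : ℝ) 1 := Ico_subset_Icc_self ht
    refine (norm_mul_le _ _).trans ?_
    refine mul_le_mul (hK t ht') ?_ (norm_nonneg _) hK0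
    refine (norm_mul_le _ _).trans ?_
    exact mul_le_mul (hr t ht) (hb t ht') (norm_nonneg _) hρ

end Pert

section Path

variable {E : Type*} [NormedRing E] [NormedAlgebra ℂ E] {N : ℕ} {I : Submodule ℂ E}

/-- the transport along a path in `DD` -/
lemma path_deriv (hI : NilC N I) {A B : E} (hA : A ∈ I) (hB : B ∈ I) (s : ℂ) {γ : ℝ → ℂ}
    {γ' : ℝ → ℂ} (hγ : ∀ t ∈ Icc (0 : ℝ) 1, γ t ∈ DD)
    (hγ' : ∀ t ∈ Icc (0 : ℝ) 1, HasDerivAt γ (γ' t) t) {t : ℝ} (ht : t ∈ Icc (0 : ℝ) 1) :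
    HasDerivWithinAt (fun t => TC N A B s (γ t)) ((γ' t • OmC A B (γ t)) * TC N A B s (γ t))
      (Icc 0 1) t := by
  have h1 := (TC_deriv hI hA hB s (hγ t ht)).scomp t ((hγ' t ht).hasDerivWithinAt (s := Icc 0 1)) hγ
  rw [smul_mul_assoc]
  exact h1

lemma path_deriv' (hI : NilC N I) {A B : E} (hA : A ∈ I) (hB : B ∈ I) (s : ℂ) {γ : ℝ → ℂ}
    {γ' : ℝ → ℂ} (hγ : ∀ t ∈ Icc (0 : ℝ) 1, γ t ∈ DD)
    (hγ' : ∀ t ∈ Icc (0 : ℝ) 1, HasDerivAt γ (γ' t) t) {t : ℝ} (ht : t ∈ Ico (0 : ℝ) 1) :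
    HasDerivWithinAt (fun t => TC N A B s (γ t)) ((γ' t • OmC A B (γ t)) * TC N A B s (γ t))
      (Ici t) t := by
  refine (path_deriv hI hA hB s hγ hγ' (Ico_subset_Icc_self ht)).mono_of_mem_nhdsWithin ?_
  refine mem_nhdsWithin.2 ⟨Iio 1, isOpen_Iio, ht.2, ?_⟩
  intro x hx
  exact ⟨ht.1.trans hx.2, hx.1.le⟩

lemma path_cont (hI : NilC N I) {A B : E} (hA : A ∈ I) (hB : B ∈ I) (s : ℂ) {γ : ℝ → ℂ}
    {γ' : ℝ → ℂ} (hγ : ∀ t ∈ Icc (0 : ℝ) 1, γ t ∈ DD)
    (hγ' : ∀ t ∈ Icc (0 : ℝ) 1, HasDerivAt γ (γ' t) t) :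
    ContinuousOn (fun t => TC N A B s (γ t)) (Icc 0 1) := fun t ht =>
  (path_deriv hI hA hB s hγ hγ' ht).continuousWithinAt

end Path

section Arc0

variable {E : Type*} [NormedRing E] [NormedAlgebra ℂ E] [CompleteSpace E] {N : ℕ}
  {I : Submodule ℂ E}

/-- the quarter of a circle from `iε` to `ε` -/
def g0 (ε t : ℝ) : ℂ := ε * Complex.exp ((Real.pi / 2 * (1 - t) : ℝ) * Complex.I)

lemma g0_zero (ε : ℝ) : g0 ε 0 = ε * Complex.I := by
  unfold g0
  congr 1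
  rw [sub_zero, mul_one]
  push_cast
  exact Complex.exp_pi_div_two_mul_I

lemma g0_one (ε : ℝ) : g0 ε 1 = ε := by simp [g0]

lemma g0_norm {ε : ℝ} (h : 0 < ε) (t : ℝ) : ‖g0 ε t‖ = ε := by
  unfold g0
  rw [norm_mul, Complex.norm_exp_ofReal_mul_I, mul_one, Complex.norm_real, Real.norm_eq_abs,
    abs_of_pos h]

lemma g0_mem {ε : ℝ} (h : 0 < ε) (h1 : ε ≤ 1 / 2) {t : ℝ} (ht : t ∈ Icc (0 : ℝ) 1) :
    g0 ε t ∈ DD := by
  rcases eq_or_lt_of_le ht.2 with h2 | h2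
  · rw [h2, g0_one]
    exact DD_real ⟨h, by linarith⟩
  · refine DD_upper ?_
    unfold g0
    rw [Complex.im_ofReal_mul, Complex.exp_ofReal_mul_I_im]
    refine mul_pos h (Real.sin_pos_of_pos_of_lt_pi ?_ ?_)
    · have := Real.pi_pos
      have h3 : 0 < 1 - t := by linarith
      positivity
    · have := Real.pi_pos
      have h3 : 1 - t ≤ 1 := by linarith [ht.1]
      have h4 : Real.pi / 2 * (1 - t) ≤ Real.pi / 2 * 1 :=
        mul_le_mul_of_nonneg_left h3 (by positivity)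
      linarith

lemma g0_deriv (ε t : ℝ) : HasDerivAt (g0 ε) (-(Real.pi / 2 * Complex.I) * g0 ε t) t := by
  have h1 : HasDerivAt (fun t : ℝ => Real.pi / 2 * (1 - t)) (-(Real.pi / 2)) t := by
    have := ((hasDerivAt_id t).const_sub 1).const_mul (Real.pi / 2)
    simpa using this
  have h2 := (h1.ofReal_comp.mul_const Complex.I).cexp.const_mul (ε : ℂ)
  refine h2.congr_deriv ?_
  unfold g0
  push_cast
  ring

/-- the transport from `iε` to `ε` -/
lemma arc0 (hI : NilC N I) {A B : E} (hA : A ∈ I) (hB : B ∈ I) : ∃ C : ℝ,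
    ∀ ε : ℝ, 0 < ε → ε ≤ 1 / 2 → Real.pi * ε * ‖B‖ ≤ 1 →
      ‖TC N A B (ε * Complex.I) ε - exp ((-(Real.pi / 2 * Complex.I)) • A)‖ ≤ C * ε := by
  obtain ⟨C, hC0, hC⟩ := pert ((-(Real.pi / 2 * Complex.I : ℂ)) • A)
  refine ⟨C * (Real.pi * ‖B‖) * ‖(1 : E)‖, fun ε h0 h1 h2 => ?_⟩
  have hπ := Real.pi_pos
  have key := hC (fun t => TC N A B (ε * Complex.I) (g0 ε t))
    (fun t => (-(Real.pi / 2 * Complex.I) * (g0 ε t * (g0 ε t - 1)⁻¹)) • B)
    (Real.pi * ε * ‖B‖) (by positivity) h2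
    (path_cont hI hA hB _ (fun t ht => g0_mem h0 h1 ht) (fun t _ => g0_deriv ε t)) ?_ ?_
  · rw [g0_zero, g0_one, TC_self hI hA hB, mul_one] at key
    refine key.trans (le_of_eq ?_)
    ring
  · intro t ht
    refine (path_deriv' hI hA hB _ (fun t ht => g0_mem h0 h1 ht)
      (fun t _ => g0_deriv ε t) ht).congr_deriv ?_
    congr 1
    have h3 : g0 ε t ≠ 0 := DD_ne_zero (g0_mem h0 h1 (Ico_subset_Icc_self ht))
    unfold OmC
    rw [smul_add, smul_smul, smul_smul]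
    congr 2
    · field_simp
    · ring
  · intro t ht
    rw [norm_smul, norm_mul, norm_neg, norm_mul, Complex.norm_I, mul_one, norm_mul, g0_norm h0,
      norm_inv]
    have h3 : (1 / 2 : ℝ) ≤ ‖g0 ε t - 1‖ := by
      have h4 := norm_sub_norm_le (1 : ℂ) (g0 ε t)
      rw [norm_one, g0_norm h0, norm_sub_rev] at h4
      linarith
    have h5 : ‖g0 ε t - 1‖⁻¹ ≤ 2 := by
      rw [inv_le_comm₀ (by linarith) (by norm_num)]
      linarith
    have h6 : ‖(Real.pi : ℂ) / 2‖ = Real.pi / 2 := by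
      rw [norm_div, Complex.norm_real, Real.norm_eq_abs, abs_of_pos hπ]
      norm_num
    rw [h6]
    refine mul_le_mul_of_nonneg_right ?_ (norm_nonneg _)
    have h7 : ε * ‖g0 ε t - 1‖⁻¹ ≤ ε * 2 := mul_le_mul_of_nonneg_left h5 h0.le
    calc Real.pi / 2 * (ε * ‖g0 ε t - 1‖⁻¹) ≤ Real.pi / 2 * (ε * 2) :=
          mul_le_mul_of_nonneg_left h7 (by positivity)
      _ = Real.pi * ε := by ring

end Arc0

section Arc1

variable {E : Type*} [NormedRing E] [NormedAlgebra ℂ E] [CompleteSpace E] {N : ℕ}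
  {I : Submodule ℂ E}

/-- `log (ε + i)` -/
def el (ε : ℝ) : ℂ := Real.pi / 2 * Complex.I + Complex.log (1 - ε * Complex.I)

/-- the path from `1 - ε` to `1 / (1 - iε)` -/
def g1 (ε t : ℝ) : ℂ := 1 - ε * Complex.exp (-(t * el ε))

lemma ne_aux (ε : ℝ) : (1 : ℂ) - ε * Complex.I ≠ 0 := by
  intro h
  have := congrArg Complex.re h
  simp at this

lemma exp_el (ε : ℝ) : Complex.exp (el ε) = ε + Complex.I := by
  unfold el
  rw [Complex.exp_add, Complex.exp_pi_div_two_mul_I, Complex.exp_log (ne_aux ε)]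
  have := Complex.I_mul_I
  linear_combination (-ε : ℂ) * this

lemma g1_zero (ε : ℝ) : g1 ε 0 = ((1 - ε : ℝ) : ℂ) := by
  simp [g1]

lemma ne_aux' (ε : ℝ) : (ε : ℂ) + Complex.I ≠ 0 := by
  intro h
  have := congrArg Complex.im h
  simp at this

lemma g1_one (ε : ℝ) : g1 ε 1 = (1 - ε * Complex.I)⁻¹ := by
  unfold g1
  rw [Complex.ofReal_one, one_mul, Complex.exp_neg, exp_el]
  have h1 := ne_aux ε
  have h2 := ne_aux' ε
  field_simp
  have := Complex.I_mul_I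
  linear_combination (-ε : ℂ) * this

lemma el_re_nonneg (ε : ℝ) : 0 ≤ (el ε).re := by
  unfold el
  rw [Complex.add_re, Complex.log_re]
  have h1 : (Real.pi / 2 * Complex.I : ℂ).re = 0 := by simp
  rw [h1, zero_add]
  apply Real.log_nonneg
  have h2 := Complex.abs_re_le_norm (1 - ε * Complex.I)
  simp at h2
  exact h2

lemma el_im_bd (ε : ℝ) : 0 < (el ε).im ∧ (el ε).im < Real.pi := by
  unfold el
  rw [Complex.add_im, Complex.log_im]
  have h1 : (Real.pi / 2 * Complex.I : ℂ).im = Real.pi / 2 := by simp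
  rw [h1]
  have h2 : |(1 - ε * Complex.I : ℂ).arg| < Real.pi / 2 := by
    rw [Complex.abs_arg_lt_pi_div_two_iff]
    left
    simp
  have := abs_lt.1 h2
  constructor <;> linarith

lemma el_sub {ε : ℝ} (h0 : 0 < ε) (h1 : ε ≤ 1 / 2) : ‖Complex.log (1 - ε * Complex.I)‖ ≤ 2 * ε := by
  have h2 : ‖(-(ε * Complex.I) : ℂ)‖ = ε := by
    rw [norm_neg, norm_mul, Complex.norm_I, mul_one, Complex.norm_real, Real.norm_eq_abs,
      abs_of_pos h0]
  have h3 := Complex.norm_log_one_add_half_le_self (z := -(ε * Complex.I)) (by rw [h2]; exact h1)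
  rw [h2, ← sub_eq_add_neg] at h3
  linarith

lemma g1_mem {ε : ℝ} (h : 0 < ε) (h1 : ε ≤ 1 / 2) {t : ℝ} (ht : t ∈ Icc (0 : ℝ) 1) :
    g1 ε t ∈ DD := by
  rcases eq_or_lt_of_le ht.1 with h2 | h2
  · rw [← h2, g1_zero]
    exact DD_real ⟨by linarith, by linarith⟩
  · refine DD_upper ?_
    unfold g1
    rw [Complex.sub_im, Complex.im_ofReal_mul, Complex.exp_im]
    have h3 : (-(t * el ε)).im = -(t * (el ε).im) := by simp
    rw [h3, Real.sin_neg]
    obtain ⟨h4, h5⟩ := el_im_bd ε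
    have h6 : 0 < Real.sin (t * (el ε).im) := by
      refine Real.sin_pos_of_pos_of_lt_pi (by positivity) ?_
      have : t * (el ε).im ≤ 1 * (el ε).im := mul_le_mul_of_nonneg_right ht.2 h4.le
      linarith
    have h7 := Real.exp_pos (-(t * el ε)).re
    have h8 : (0 : ℝ) < ε * (Real.exp (-(t * el ε)).re * Real.sin (t * (el ε).im)) := by positivity
    simp only [Complex.one_im]
    linarith

lemma g1_norm {ε : ℝ} (h : 0 < ε) {t : ℝ} (ht : t ∈ Icc (0 : ℝ) 1) : ‖1 - g1 ε t‖ ≤ ε := by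
  unfold g1
  rw [sub_sub_cancel, norm_mul, Complex.norm_real, Real.norm_eq_abs, abs_of_pos h,
    Complex.norm_exp]
  have h3 : (-(t * el ε)).re = -(t * (el ε).re) := by simp
  rw [h3]
  have h4 : Real.exp (-(t * (el ε).re)) ≤ 1 := by
    apply Real.exp_le_one_iff.2
    have := mul_nonneg ht.1 (el_re_nonneg ε)
    linarith
  exact mul_le_of_le_one_right h.le h4

lemma g1_deriv (ε t : ℝ) : HasDerivAt (g1 ε) (el ε * (1 - g1 ε t)) t := by
  have h1 : HasDerivAt (fun t : ℝ => -((t : ℂ) * el ε)) (-el ε) t := by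
    have := (Complex.ofRealCLM.hasDerivAt (x := t)).mul_const (el ε)
    have h2 := this.neg
    rw [Complex.ofRealCLM_apply, Complex.ofReal_one, one_mul] at h2
    exact h2
  have h2 := (h1.cexp.const_mul (ε : ℂ)).const_sub 1
  refine h2.congr_deriv ?_
  unfold g1
  ring

lemma el_norm {ε : ℝ} (h0 : 0 < ε) (h1 : ε ≤ 1 / 2) : ‖el ε‖ ≤ 3 := by
  unfold el
  refine (norm_add_le _ _).trans ?_
  have h2 : ‖(Real.pi / 2 * Complex.I : ℂ)‖ = Real.pi / 2 := by
    rw [norm_mul, Complex.norm_I, mul_one, norm_div, Complex.norm_real, Real.norm_eq_abs,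
      abs_of_pos Real.pi_pos]
    norm_num
  rw [h2]
  have := el_sub h0 h1
  have := Real.pi_lt_four
  linarith

/-- the transport from `1 - ε` to `1 / (1 - iε)` -/
lemma arc1 (hI : NilC N I) {A B : E} (hA : A ∈ I) (hB : B ∈ I) : ∃ C : ℝ,
    ∀ ε : ℝ, 0 < ε → ε ≤ 1 / 2 → ε * (6 * ‖A‖ + 2 * ‖B‖) ≤ 1 →
      ‖TC N A B ((1 - ε : ℝ) : ℂ) (1 - ε * Complex.I)⁻¹ -
        exp ((-(Real.pi / 2 * Complex.I)) • B)‖ ≤ C * ε := by
  obtain ⟨C, hC0, hC⟩ := pert ((-(Real.pi / 2 * Complex.I : ℂ)) • B)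
  refine ⟨C * (6 * ‖A‖ + 2 * ‖B‖) * ‖(1 : E)‖, fun ε h0 h1 h2 => ?_⟩
  have hπ := Real.pi_pos
  have key := hC (fun t => TC N A B ((1 - ε : ℝ) : ℂ) (g1 ε t))
    (fun t => (el ε * ((1 - g1 ε t) * (g1 ε t)⁻¹)) • A -
      Complex.log (1 - ε * Complex.I) • B)
    (ε * (6 * ‖A‖ + 2 * ‖B‖)) (by positivity) h2
    (path_cont hI hA hB _ (fun t ht => g1_mem h0 h1 ht) (fun t _ => g1_deriv ε t)) ?_ ?_
  · rw [g1_zero, g1_one, TC_self hI hA hB, mul_one] at key
    refine key.trans (le_of_eq ?_)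
    ring
  · intro t ht
    refine (path_deriv' hI hA hB _ (fun t ht => g1_mem h0 h1 ht)
      (fun t _ => g1_deriv ε t) ht).congr_deriv ?_
    congr 1
    have h3 : g1 ε t ≠ 0 := DD_ne_zero (g1_mem h0 h1 (Ico_subset_Icc_self ht))
    have h4 : g1 ε t - 1 ≠ 0 := DD_ne_one (g1_mem h0 h1 (Ico_subset_Icc_self ht))
    unfold OmC
    rw [smul_add, smul_smul, smul_smul]
    have h5 : el ε * (1 - g1 ε t) * (g1 ε t - 1)⁻¹ = -el ε := by
      field_simp
      ring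
    rw [h5]
    have h6 : -el ε = -(Real.pi / 2 * Complex.I) - Complex.log (1 - ε * Complex.I) := by
      unfold el; ring
    rw [h6, sub_smul, mul_assoc (el ε)]
    abel
  · intro t ht
    have ht' := Ico_subset_Icc_self ht
    refine (norm_sub_le _ _).trans ?_
    rw [norm_smul, norm_smul, norm_mul, norm_mul, norm_inv]
    have h3 : ‖1 - g1 ε t‖ ≤ ε := g1_norm h0 ht'
    have h4 : (1 / 2 : ℝ) ≤ ‖g1 ε t‖ := by
      have h5 := norm_sub_norm_le (1 : ℂ) (1 - g1 ε t)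
      rw [norm_one, sub_sub_cancel] at h5
      linarith
    have h5 : ‖g1 ε t‖⁻¹ ≤ 2 := by
      rw [inv_le_comm₀ (by linarith) (by norm_num)]
      linarith
    have h6 := el_norm h0 h1
    have h7 := el_sub h0 h1
    have h8 : ‖1 - g1 ε t‖ * ‖g1 ε t‖⁻¹ ≤ ε * 2 :=
      mul_le_mul h3 h5 (by positivity) h0.le
    have h9 : ‖el ε‖ * (‖1 - g1 ε t‖ * ‖g1 ε t‖⁻¹) ≤ 3 * (ε * 2) :=
      mul_le_mul h6 h8 (by positivity) (by norm_num)
    have h10 := mul_le_mul_of_nonneg_right h9 (norm_nonneg A)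
    have h11 := mul_le_mul_of_nonneg_right h7 (norm_nonneg B)
    linarith

end Arc1

end MP446S.HX
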