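import Pool.Agent.Lib.MP_446dfa_ag.unc.HexB

set_option linter.all false

/-!
# The hexagon and the 2-cycle relation for the regularized transport
-/

noncomputable section

namespace MP446S.HX

open MP446 MP446Y MP446Z Set Filter Topology NormedSpace MP446S.KP

section Real

variable {E : Type} [NormedRing E] [NormedAlgebra ℂ E] {N : ℕ} {I : Submodule ℂ E}

lemma OmC_real (A B : E) (x : ℝ) : OmC A B (x : ℂ) = Om A B x := by
  unfold OmC Om
  rw [← Complex.coe_smul, ← Complex.coe_smul]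
  push_cast
  rfl

lemma TC_real_deriv (hI : NilC N I) {A B : E} (hA : A ∈ I) (hB : B ∈ I) (s : ℂ) {x : ℝ}
    (hx : x ∈ Ioo (0 : ℝ) 1) :
    HasDerivAt (fun x : ℝ => TC N A B s (x : ℂ)) (Om A B x * TC N A B s (x : ℂ)) x := by
  have h0 : HasDerivAt (fun x : ℝ => (x : ℂ)) 1 x := by
    have := Complex.ofRealCLM.hasDerivAt (x := x)
    rw [Complex.ofRealCLM_apply, Complex.ofReal_one] at this
    exact this
  have h1 := (TC_deriv hI hA hB s (DD_real hx)).scomp x (h0.hasDerivWithinAt (s := Ioo (0 : ℝ) 1))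
    (fun y hy => DD_real hy)
  rw [one_smul, OmC_real] at h1
  exact h1.hasDerivAt (isOpen_Ioo.mem_nhds hx)

lemma TC_real (hI : NilC N I) {A B : E} (hA : A ∈ I) (hB : B ∈ I) {ε : ℝ} (h0 : 0 < ε)
    (h1 : ε ≤ 1 / 2) : TC N A B (ε : ℂ) ((1 - ε : ℝ) : ℂ) = UU N A B ε (1 - ε) := by
  have hsub : Icc ε (1 - ε) ⊆ Ioo (0 : ℝ) 1 := fun x hx => ⟨by linarith [hx.1], by linarith [hx.2]⟩
  have hle : ε ≤ 1 - ε := by linarith
  have hε : ε ∈ Ioo (0 : ℝ) 1 := hsub ⟨le_rfl, hle⟩
  refine specUNIQ E ε (1 - ε) ε (Om A B) (fun x => TC N A B (ε : ℂ) (x : ℂ))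
    (fun x => UU N A B ε x) le_rfl hle ((KZaux.Om_contOn A B).mono hsub) ?_ ?_ ?_ (1 - ε)
    ⟨hle, le_rfl⟩
  · intro x hx
    exact TC_real_deriv hI hA hB _ (hsub hx)
  · intro x hx
    exact KZaux.UU_deriv hI.nil hA hB hε (hsub hx)
  · rw [TC_self hI hA hB, KZaux.UU_one hI.nil]

end Real

section Tau

variable {E : Type} [NormedRing E] [NormedAlgebra ℂ E] {N : ℕ} {I : Submodule ℂ E}

lemma DD_nhds {z : ℂ} (hz : 0 < z.im) : DD ∈ 𝓝 z :=
  mem_of_superset ((isOpen_lt continuous_const Complex.continuous_im).mem_nhds hz)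
    (fun _ h => DD_upper h)

/-- `z ↦ 1 / (1 - z)` -/
def tau (z : ℂ) : ℂ := (1 - z)⁻¹

lemma tau_im {z : ℂ} (hz : 0 < z.im) : 0 < (tau z).im := by
  unfold tau
  rw [Complex.inv_im]
  have h1 : 0 < Complex.normSq (1 - z) := by
    rw [Complex.normSq_pos]
    intro h
    have := congrArg Complex.im h
    simp at this
    linarith
  have h2 : -(1 - z).im = z.im := by simp
  rw [h2]
  positivity

lemma one_sub_ne {z : ℂ} (hz : 0 < z.im) : 1 - z ≠ 0 := by
  intro h
  have := congrArg Complex.im h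
  simp at this
  linarith

lemma tau3 {z : ℂ} (hz : 0 < z.im) : tau (tau (tau z)) = z := by
  have h1 := one_sub_ne hz
  have h2 := one_sub_ne (tau_im hz)
  have h3 : z ≠ 0 := by rintro rfl; simp at hz
  unfold tau at *
  have h4 : (1 : ℂ) - (1 - z)⁻¹ = -z / (1 - z) := by field_simp; ring
  rw [h4]
  have h5 : (1 : ℂ) - (-z / (1 - z))⁻¹ = z⁻¹ := by
    field_simp
    ring
  rw [h5, inv_inv]

lemma tau_deriv {z : ℂ} (hz : 0 < z.im) : HasDerivAt tau ((1 - z)⁻¹ ^ 2) z := by
  have h1 := ((hasDerivAt_id z).const_sub 1).inv (one_sub_ne hz)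
  refine h1.congr_deriv ?_
  simp [div_eq_mul_inv]

lemma TC_tau (hI : NilC N I) {A B : E} (hA : A ∈ I) (hB : B ∈ I) {z w : ℂ} (hz : 0 < z.im)
    (hw : 0 < w.im) : TC N (-A - B) A (tau z) (tau w) = TC N A B z w := by
  have hC : -A - B ∈ I := I.sub_mem (I.neg_mem hA) hB
  set γ : ℝ → ℂ := fun t => z + t * (w - z) with hγ
  have him : ∀ t ∈ Icc (0 : ℝ) 1, 0 < (γ t).im := by
    intro t ht
    have h1 : (γ t).im = (1 - t) * z.im + t * w.im := by
      simp only [hγ, Complex.add_im, Complex.im_ofReal_mul, Complex.sub_im]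
      ring
    rw [h1]
    rcases eq_or_lt_of_le ht.1 with h | h
    · rw [← h]; simpa using hz
    · have h2 := mul_pos h hw
      have h3 : 0 ≤ (1 - t) * z.im := mul_nonneg (by linarith [ht.2]) hz.le
      linarith
  have hd : ∀ t, HasDerivAt γ (w - z) t := by
    intro t
    have := ((Complex.ofRealCLM.hasDerivAt (x := t)).mul_const (w - z)).const_add z
    rw [Complex.ofRealCLM_apply, Complex.ofReal_one, one_mul] at this
    exact this
  have hc : ContinuousOn (fun t => (w - z) • OmC A B (γ t)) (Icc 0 1) := by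
    have hγc : ContinuousOn γ (Icc 0 1) := fun t _ => (hd t).continuousAt.continuousWithinAt
    unfold OmC
    refine ContinuousOn.const_smul (ContinuousOn.add ?_ ?_) _
    · exact (hγc.inv₀ fun t ht => DD_ne_zero (DD_upper (him t ht))).smul continuousOn_const
    · exact ((hγc.sub continuousOn_const).inv₀
        fun t ht => DD_ne_one (DD_upper (him t ht))).smul continuousOn_const
  have key := specUNIQ E 0 1 0 (fun t => (w - z) • OmC A B (γ t))
    (fun t => TC N (-A - B) A (tau z) (tau (γ t))) (fun t => TC N A B z (γ t)) le_rfl zero_le_one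
    hc ?_ ?_ ?_ 1 ⟨zero_le_one, le_rfl⟩
  · have h1 : γ 1 = w := by simp [hγ]
    rw [h1] at key
    exact key
  · intro t ht
    have h1 := him t ht
    have h2 := (TC_deriv hI hC hA (tau z) (DD_upper (tau_im h1))).hasDerivAt (DD_nhds (tau_im h1))
    have h3 := (h2.scomp (γ t) (tau_deriv h1)).scomp t (hd t)
    refine h3.congr_deriv ?_
    rw [smul_mul_assoc]
    congr 1
    rw [← smul_mul_assoc]
    congr 1
    have h4 := one_sub_ne h1
    have h5 : γ t ≠ 0 := DD_ne_zero (DD_upper h1)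
    have h6 : γ t - 1 ≠ 0 := DD_ne_one (DD_upper h1)
    unfold OmC tau
    rw [inv_inv]
    have h7 : (1 - γ t)⁻¹ - 1 = γ t / (1 - γ t) := by field_simp; ring
    rw [h7, smul_add, smul_smul, smul_smul]
    have h8 : (1 - γ t)⁻¹ ^ 2 * (1 - γ t) = -(γ t - 1)⁻¹ := by
      rw [← neg_sub (γ t) 1]
      field_simp
    have h9 : (1 - γ t)⁻¹ ^ 2 * (γ t / (1 - γ t))⁻¹ = (γ t)⁻¹ - (γ t - 1)⁻¹ := by
      have : γ t - 1 = -(1 - γ t) := by ring
      rw [this]
      field_simp
      ring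
    rw [h8, h9, sub_smul, neg_smul, smul_sub, smul_neg]
    abel
  · intro t ht
    have h1 := him t ht
    have h2 := (TC_deriv hI hA hB z (DD_upper h1)).hasDerivAt (DD_nhds h1)
    have h3 := h2.scomp t (hd t)
    rw [smul_mul_assoc]
    exact h3
  · have h1 : γ 0 = z := by simp [hγ]
    simp only [h1]
    rw [TC_self hI hC hA, TC_self hI hA hB]

/-- the product of the three transports -/
lemma TC_loop (hI : NilC N I) {A B : E} (hA : A ∈ I) (hB : B ∈ I) {z : ℂ} (hz : 0 < z.im) :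
    TC N (-A - B) A z (tau z) * TC N B (-A - B) z (tau z) * TC N A B z (tau z) = 1 := by
  have hC : -A - B ∈ I := I.sub_mem (I.neg_mem hA) hB
  have h1 := TC_tau hI hB hC hz (tau_im hz)
  rw [show -B - (-A - B) = A by abel] at h1
  -- h1 : TC N A B (τ z) (τ τ z) = TC N B C z (τ z)
  have h2 := TC_tau hI hC hA hz (tau_im hz)
  rw [show -(-A - B) - A = B by abel] at h2
  -- h2 : TC N B C (τ z) (τ τ z) = TC N C A z (τ z)
  have h3 := TC_tau hI hB hC (tau_im hz) (tau_im (tau_im hz))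
  rw [show -B - (-A - B) = A by abel] at h3
  rw [← h2, ← h3, ← h1, TC_mul hI hA hB, TC_mul hI hA hB, tau3 hz, TC_self hI hA hB]

end Tau

end MP446S.HX
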