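import Pool.Agent.Lib.MP_446dfa_ag.unc.HexC

set_option linter.all false

/-!
# The hexagon and the 2-cycle relation for the regularized transport: the limit
-/

noncomputable section

namespace MP446S.HX

open MP446 MP446Y MP446Z Set Filter Topology NormedSpace MP446S.KP

section Ap

variable {E : Type*} [NormedRing E]

/-- `f` and `g` have the same behaviour at `0` -/
structure Ap (f g : ℝ → E) : Prop where
  sm : Sm (fun e => f e - g e)
  plf : PL f
  plg : PL g

lemma Ap.mul {f g f' g' : ℝ → E} (h : Ap f g) (h' : Ap f' g') :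
    Ap (fun e => f e * f' e) (fun e => g e * g' e) := by
  refine ⟨?_, h.plf.mul h'.plf, h.plg.mul h'.plg⟩
  have := (h.sm.mul_PL h'.plf).add (h.plg.mul_Sm h'.sm)
  refine this.congr (Eventually.of_forall fun e => ?_)
  noncomm_ring

lemma Ap.refl {f : ℝ → E} (h : PL f) : Ap f f :=
  ⟨⟨0, by simpa using Asymptotics.isBigO_zero _ _⟩, h, h⟩

lemma Ap.of {f g : ℝ → E} (h : Sm (fun e => f e - g e)) (hg : PL g) : Ap f g :=
  ⟨h, (h.PL.add hg).congr (Eventually.of_forall fun e => by simp), hg⟩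

lemma Sm.of_le {f : ℝ → E} {c C : ℝ} (hc : 0 < c) (h : ∀ e, 0 < e → e ≤ c → ‖f e‖ ≤ C * e) :
    Sm f := by
  refine Sm.mk' 0 |C| ?_
  filter_upwards [ev_pos, ev_le hc, ev_le one_pos] with e h0 h1 h2
  rw [pow_zero, mul_one]
  refine (h e h0 h1).trans ?_
  have h3 : e ≤ √e := by
    rw [Real.le_sqrt h0.le h0.le]
    nlinarith
  calc C * e ≤ |C| * e := mul_le_mul_of_nonneg_right (le_abs_self C) h0.le
    _ ≤ |C| * √e := mul_le_mul_of_nonneg_left h3 (abs_nonneg C)

end Ap

section Main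

variable {E : Type} [NormedRing E] [NormedAlgebra ℂ E] [CompleteSpace E] {N : ℕ}
  {I : Submodule ℂ E}

lemma Bd_id : Bd (fun e => e) := by
  filter_upwards [ev_pos, ev_le one_pos] with e h0 h1
  refine ⟨?_, le_rfl⟩
  calc e ^ 5 ≤ e ^ 1 := pow_le_pow_of_le_one h0.le h1 (by norm_num)
    _ = e := pow_one e

lemma PL_pw {A : E} (hA : A ^ N = 0) : PL (fun e => pw A e) := pw_PL specPW hA Bd_id

lemma Ap_UU (hI : NilC N I) {P : AA ℝ} (hP : KZlim N P) {A B : E} (hA : A ∈ I) (hB : B ∈ I) :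
    Ap (fun e => UU N A B e (1 - e)) (fun e => pw B e * EV A B P * pw (-A) e) := by
  have hBN : B ^ N = 0 := hI.nil.pow_zero hB
  have hAN : (-A) ^ N = 0 := hI.nil.pow_zero (I.neg_mem hA)
  obtain ⟨C, hC⟩ := hP E (I.restrictScalars ℝ) hI.nil A hA B hB
  have h1 : Sm (fun e => pw (-B) e * UU N A B e (1 - e) * pw A e - EV A B P) := by
    refine Sm.mk' 0 (C + C) ?_
    filter_upwards [ev_pos, ev_le (show (0 : ℝ) < 1 / 2 by norm_num)] with e h0 h1
    refine (hC e e h0 h1 h0 h1).trans (le_of_eq ?_)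
    ring
  have h2 := ((PL_pw hBN).mul_Sm h1).mul_PL (PL_pw hAN)
  refine Ap.of (h2.congr (Eventually.of_forall fun e => ?_))
    (((PL_pw hBN).mul (PL.const _)).mul (PL_pw hAN))
  have h3 := PWaux.pw_neg_right B e
  have h4 := PWaux.pw_neg_right A e
  have h5 : pw B e * (pw (-B) e * UU N A B e (1 - e) * pw A e) * pw (-A) e =
      (pw B e * pw (-B) e) * UU N A B e (1 - e) * (pw A e * pw (-A) e) := by
    simp only [mul_assoc]
  rw [mul_sub, sub_mul, h5, h3, h4, one_mul, mul_one]

/-- the half-monodromy, squared: `exp (- π i A)` is `mo A * mo A` -/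
def mo (A : E) : E := exp ((-(Real.pi / 2 * Complex.I)) • A)

lemma Ap_TC (hI : NilC N I) {P : AA ℝ} (hP : KZlim N P) {A B : E} (hA : A ∈ I) (hB : B ∈ I) :
    Ap (fun e => TC N A B (e * Complex.I) (tau (e * Complex.I)))
      (fun e => mo B * (pw B e * EV A B P * pw (-A) e) * mo A) := by
  obtain ⟨C0, hC0⟩ := arc0 hI hA hB
  obtain ⟨C1, hC1⟩ := arc1 hI hA hB
  have hπ := Real.pi_pos
  have h0 : Ap (fun e : ℝ => TC N A B (e * Complex.I) e) (fun _ => mo A) := by
    refine Ap.of (Sm.of_le (c := min (1 / 2) (1 / (Real.pi * ‖B‖ + 1))) (C := C0)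
      (lt_min (by norm_num) (by positivity)) ?_) (PL.const _)
    intro e he he1
    refine hC0 e he (he1.trans (min_le_left _ _)) ?_
    have h2 : e ≤ 1 / (Real.pi * ‖B‖ + 1) := he1.trans (min_le_right _ _)
    rw [le_div_iff₀ (by positivity)] at h2
    nlinarith
  have h1 : Ap (fun e : ℝ => TC N A B ((1 - e : ℝ) : ℂ) (tau (e * Complex.I))) (fun _ => mo B) := by
    refine Ap.of (Sm.of_le (c := min (1 / 2) (1 / (6 * ‖A‖ + 2 * ‖B‖ + 1))) (C := C1)
      (lt_min (by norm_num) (by positivity)) ?_) (PL.const _)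
    intro e he he1
    refine hC1 e he (he1.trans (min_le_left _ _)) ?_
    have h2 : e ≤ 1 / (6 * ‖A‖ + 2 * ‖B‖ + 1) := he1.trans (min_le_right _ _)
    rw [le_div_iff₀ (by positivity)] at h2
    nlinarith
  have h2 := (h1.mul (Ap_UU hI hP hA hB)).mul h0
  have h3 : ∀ᶠ e : ℝ in 𝓝[>] (0 : ℝ), TC N A B ((1 - e : ℝ) : ℂ) (tau (e * Complex.I)) *
      UU N A B e (1 - e) * TC N A B (e * Complex.I) e =
      TC N A B (e * Complex.I) (tau (e * Complex.I)) := by
    filter_upwards [ev_pos, ev_le (show (0 : ℝ) < 1 / 2 by norm_num)] with e h0 h1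
    rw [← TC_real hI hA hB h0 h1, TC_mul hI hA hB, TC_mul hI hA hB]
  refine ⟨h2.sm.congr ?_, h2.plf.congr h3, h2.plg⟩
  filter_upwards [h3] with e he
  rw [he]

/-- **Hexagon** for the regularized transport -/
theorem hexagonC (hI : NilC N I) {P : AA ℝ} (hP : KZlim N P) {A B : E} (hA : A ∈ I) (hB : B ∈ I) :
    EV (-A - B) A P * exp ((-(Real.pi * Complex.I)) • (-A - B)) *
      EV B (-A - B) P * exp ((-(Real.pi * Complex.I)) • B) *
      EV A B P * exp ((-(Real.pi * Complex.I)) • A) = 1 := by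
  set C : E := -A - B with hCdef
  have hC : C ∈ I := I.sub_mem (I.neg_mem hA) hB
  have hmo : ∀ X : E, mo X * mo X = exp ((-(Real.pi * Complex.I)) • X) := by
    intro X
    unfold mo
    rw [← PWaux.exp_add' (Commute.refl _), ← add_smul]
    congr 2
    ring
  have hmi : ∀ X : E, exp ((Real.pi / 2 * Complex.I) • X) * mo X = 1 := by
    intro X
    unfold mo
    rw [← PWaux.exp_add' (((Commute.refl X).smul_left _).smul_right _), ← add_smul, add_neg_cancel,
      zero_smul, exp_zero]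
  have hmi' : ∀ X : E, mo X * exp ((Real.pi / 2 * Complex.I) • X) = 1 := by
    intro X
    unfold mo
    rw [← PWaux.exp_add' (((Commute.refl X).smul_left _).smul_right _), ← add_smul, neg_add_cancel,
      zero_smul, exp_zero]
  have hAN : A ^ N = 0 := hI.nil.pow_zero hA
  have hAN' : (-A) ^ N = 0 := hI.nil.pow_zero (I.neg_mem hA)
  -- the three transports
  have h1 := ((Ap_TC hI hP hC hA).mul (Ap_TC hI hP hB hC)).mul (Ap_TC hI hP hA hB)
  set Y : E := EV C A P * (mo C * mo C) * EV B C P * (mo B * mo B) * EV A B P with hY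
  have h2 : Sm (fun e => 1 - (mo A * pw A e) * Y * (pw (-A) e * mo A)) := by
    refine h1.sm.congr ?_
    filter_upwards [ev_pos] with e he
    have h3 : 0 < ((e : ℂ) * Complex.I).im := by simpa using he
    have h4 := TC_loop hI hA hB h3
    rw [← hCdef] at h4
    rw [h4]
    congr 1
    have hBB := PWaux.pw_neg_left B e
    have hCC := PWaux.pw_neg_left C e
    have e1 : pw (-C) e * mo C * (mo C * pw C e) = mo C * mo C := by
      have hc1 : Commute (pw C e) (mo C) := by
        unfold pw mo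
        exact (((Commute.refl C).smul_left _).smul_right _).exp
      rw [mul_assoc, ← mul_assoc (mo C), ← (hc1.mul_right hc1).eq, ← mul_assoc, hCC, one_mul]
    have e2 : pw (-B) e * mo B * (mo B * pw B e) = mo B * mo B := by
      have hc1 : Commute (pw B e) (mo B) := by
        unfold pw mo
        exact (((Commute.refl B).smul_left _).smul_right _).exp
      rw [mul_assoc, ← mul_assoc (mo B), ← (hc1.mul_right hc1).eq, ← mul_assoc, hBB, one_mul]
    have e3 : mo A * (pw A e * EV C A P * pw (-C) e) * mo C *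
        (mo C * (pw C e * EV B C P * pw (-B) e) * mo B) *
        (mo B * (pw B e * EV A B P * pw (-A) e) * mo A) =
        mo A * pw A e * (EV C A P * (pw (-C) e * mo C * (mo C * pw C e)) * EV B C P *
          (pw (-B) e * mo B * (mo B * pw B e)) * EV A B P) * (pw (-A) e * mo A) := by
      simp only [mul_assoc]
    rw [e3, e1, e2]
  -- conjugate
  set Z : E := exp ((Real.pi / 2 * Complex.I) • A) with hZ
  have h5 := (((PL_pw hAN').mul (PL.const Z)).mul_Sm h2).mul_PL ((PL.const Z).mul (PL_pw hAN))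
  have h6 : Sm (fun _ : ℝ => Z * Z - Y) := by
    refine h5.congr (Eventually.of_forall fun e => ?_)
    have hc : Commute (pw (-A) e) Z := by
      unfold pw
      rw [hZ]
      exact (((Commute.refl A).neg_left.smul_left _).smul_right _).exp
    have hc' : Commute (pw A e) Z := by
      unfold pw
      rw [hZ]
      exact (((Commute.refl A).smul_left _).smul_right _).exp
    have hAA := PWaux.pw_neg_left A e
    rw [mul_sub, sub_mul, mul_one]
    congr 1
    · calc pw (-A) e * Z * (Z * pw A e) = pw (-A) e * (Z * Z) * pw A e := by simp only [mul_assoc]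
        _ = (Z * Z) * pw (-A) e * pw A e := by rw [(hc.mul_right hc).eq]
        _ = Z * Z := by rw [mul_assoc, hAA, mul_one]
    · calc pw (-A) e * Z * (mo A * pw A e * Y * (pw (-A) e * mo A)) * (Z * pw A e)
          = pw (-A) e * (Z * mo A) * pw A e * Y * pw (-A) e * (mo A * Z) * pw A e := by
            simp only [mul_assoc]
        _ = Y := by
            rw [hmi A, hmi' A, mul_one, mul_one, hAA, one_mul, mul_assoc, hAA, mul_one]
  have h7 : Z * Z - Y = 0 := h6.const_zero
  have h8 : Y = Z * Z := (sub_eq_zero.1 h7).symm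
  rw [← hmo C, ← hmo B, ← hmo A, ← hY, h8, mul_assoc Z, ← mul_assoc Z (mo A), hmi A, one_mul, hmi A]

end Main

section TwoCycle

variable {E : Type} [NormedRing E] [NormedAlgebra ℝ E] {N : ℕ} {I : Submodule ℝ E}

lemma UU_symm (hI : Nil N I) {A B : E} (hA : A ∈ I) (hB : B ∈ I) {s t : ℝ}
    (hs : s ∈ Ioo (0 : ℝ) 1) (ht : t ∈ Ioo (0 : ℝ) 1) :
    UU N B A (1 - s) (1 - t) = UU N A B s t := by
  have hsub : Icc (min s t) (max s t) ⊆ Ioo (0 : ℝ) 1 := by
    intro x hx
    exact ⟨lt_of_lt_of_le (lt_min hs.1 ht.1) hx.1, lt_of_le_of_lt hx.2 (max_lt hs.2 ht.2)⟩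
  have hflip : ∀ x ∈ Ioo (0 : ℝ) 1, 1 - x ∈ Ioo (0 : ℝ) 1 := fun x hx =>
    ⟨by linarith [hx.2], by linarith [hx.1]⟩
  refine specUNIQ E (min s t) (max s t) s (Om A B) (fun x => UU N B A (1 - s) (1 - x))
    (fun x => UU N A B s x) (min_le_left _ _) (le_max_left _ _)
    ((KZaux.Om_contOn A B).mono hsub) ?_ ?_ ?_ t ⟨min_le_right _ _, le_max_right _ _⟩
  · intro x hx
    have h1 := KZaux.UU_deriv hI hB hA (hflip s hs) (hflip x (hsub hx))
    have h2 : HasDerivAt (fun x : ℝ => 1 - x) (-1) x := by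
      simpa using (hasDerivAt_id x).const_sub 1
    refine (h1.scomp x h2).congr_deriv ?_
    rw [← smul_mul_assoc]
    congr 1
    unfold Om
    have h3 : (1 - x - 1 : ℝ)⁻¹ = -x⁻¹ := by rw [show (1 - x - 1 : ℝ) = -x by ring, inv_neg]
    have h4 : (1 - x : ℝ)⁻¹ = -(x - 1)⁻¹ := by rw [show (1 - x : ℝ) = -(x - 1) by ring, inv_neg]
    rw [h3, h4]
    simp only [neg_smul, one_smul, neg_add, neg_neg]
    abel
  · intro x hx
    exact KZaux.UU_deriv hI hA hB hs (hsub hx)
  · simp only [KZaux.UU_one hI]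

/-- **2-cycle relation** for the regularized transport -/
theorem twoCycleR [CompleteSpace E] (hI : Nil N I) {P : AA ℝ} (hP : KZlim N P) {A B : E}
    (hA : A ∈ I) (hB : B ∈ I) : EV A B P * EV B A P = 1 := by
  obtain ⟨C, hC⟩ := hP E I hI A hA B hB
  obtain ⟨C', hC'⟩ := hP E I hI B hB A hA
  have h1 : Sm (fun e => pw (-B) e * UU N A B e (1 - e) * pw A e - EV A B P) := by
    refine Sm.mk' 0 (C + C) ?_
    filter_upwards [ev_pos, ev_le (show (0 : ℝ) < 1 / 2 by norm_num)] with e h0 h1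
    refine (hC e e h0 h1 h0 h1).trans (le_of_eq ?_)
    ring
  have h2 : Sm (fun e => pw (-A) e * UU N B A e (1 - e) * pw B e - EV B A P) := by
    refine Sm.mk' 0 (C' + C') ?_
    filter_upwards [ev_pos, ev_le (show (0 : ℝ) < 1 / 2 by norm_num)] with e h0 h1
    refine (hC' e e h0 h1 h0 h1).trans (le_of_eq ?_)
    ring
  have h3 := ((Ap.of h1 (PL.const _)).mul (Ap.of h2 (PL.const _))).sm
  have h4 : Sm (fun _ : ℝ => 1 - EV A B P * EV B A P) := by
    refine h3.congr ?_
    filter_upwards [ev_pos, ev_le (show (0 : ℝ) < 1 / 2 by norm_num)] with e h0 h1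
    have he : e ∈ Ioo (0 : ℝ) 1 := ⟨h0, by linarith⟩
    have he' : 1 - e ∈ Ioo (0 : ℝ) 1 := ⟨by linarith, by linarith⟩
    have h5 : UU N B A e (1 - e) = UU N A B (1 - e) e := by
      have := UU_symm hI hA hB he' he
      rw [sub_sub_cancel] at this
      exact this
    have h6 : UU N A B e (1 - e) * UU N A B (1 - e) e = 1 := by
      rw [← KZaux.UU_mul hI hA hB he he' he', KZaux.UU_one hI]
    have h7 := PWaux.pw_neg_right A e
    have h8 := PWaux.pw_neg_left B e
    congr 1
    rw [h5]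
    calc pw (-B) e * UU N A B e (1 - e) * pw A e * (pw (-A) e * UU N A B (1 - e) e * pw B e)
        = pw (-B) e * UU N A B e (1 - e) * (pw A e * pw (-A) e) * UU N A B (1 - e) e * pw B e := by
          simp only [mul_assoc]
      _ = pw (-B) e * (UU N A B e (1 - e) * UU N A B (1 - e) e) * pw B e := by
          rw [h7, mul_one]; simp only [mul_assoc]
      _ = 1 := by rw [h6, mul_one, h8]
  exact (sub_eq_zero.1 h4.const_zero).symm

end TwoCycle

end MP446S.HX
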