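import Pool.Agent.Lib.MP_446dfa_ag.unc.Defs
import Pool.Agent.Lib.MP_446dfa_ag.unc.HexD
import Pool.Agent.Lib.MP_446dfa_ag.sig.Final

set_option linter.all false

/-!
# The complex associator: universal models
-/

noncomputable section

namespace MP446U.KC

open MP446 MP446Y MP446Z MP446S MP446I MP446U

section Basic

variable {R : Type} [CommRing R]

lemma cf_trn (N : ℕ) (f : List (Fin 2) → R) (w : List (Fin 2)) :
    cf (trn N f) w = if w.length < N then f w else 0 := by
  classical
  unfold trn
  rw [cf_sum]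
  simp only [cf_smul, cf_ow, mul_ite, mul_one, mul_zero]
  rw [Finset.sum_ite_eq']
  simp only [mem_wl]

variable {E : Type} [Ring E] [Algebra R E] {N : ℕ} {I : Submodule R E}

lemma zero_of_le (h : IsNilp N I) (l : List E) (hl : ∀ x ∈ l, x ∈ I) (hN : N ≤ l.length) :
    l.prod = 0 := by
  rw [← List.take_append_drop N l, List.prod_append,
    h.prod_zero _ (fun x hx => hl x (List.mem_of_mem_take hx)) (by
      rw [List.length_take, min_eq_left hN]), zero_mul]

lemma isNilp_mono (h : IsNilp N I) {N' : ℕ} (hN : N ≤ N') : IsNilp N' I :=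
  ⟨h.mul_mem, fun l hl h2 => zero_of_le h l hl (by omega)⟩

lemma map_mem {a b : E} (ha : a ∈ I) (hb : b ∈ I) (w : List (Fin 2)) :
    ∀ x ∈ w.map ![a, b], x ∈ I := by
  intro x hx
  obtain ⟨i, -, rfl⟩ := List.mem_map.1 hx
  fin_cases i
  · exact ha
  · exact hb

lemma word_zero (h : IsNilp N I) {a b : E} (ha : a ∈ I) (hb : b ∈ I) (w : List (Fin 2))
    (hw : N ≤ w.length) : (w.map ![a, b]).prod = 0 :=
  zero_of_le h _ (map_mem ha hb w) (by rw [List.length_map]; exact hw)

lemma pow_zero' (h : IsNilp N I) {a : E} (ha : a ∈ I) : a ^ N = 0 := by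
  rw [← List.prod_replicate]
  exact h.prod_zero _ (fun x hx => by rw [List.eq_of_mem_replicate hx]; exact ha) (by simp)

lemma EV_wl' (h : IsNilp N I) {a b : E} (ha : a ∈ I) (hb : b ∈ I) (X : AA R) :
    EV a b X = ∑ w ∈ wl N, cf X w • (w.map ![a, b]).prod :=
  EV_wl (word_zero h ha hb) X

lemma val_eq (h : IsNilp N I) {a b : E} (ha : a ∈ I) (hb : b ∈ I) (f : List (Fin 2) → R) :
    val f a b = ∑ w ∈ wl N, f w • (w.map ![a, b]).prod := by
  unfold val
  refine finsum_eq_sum_of_support_subset _ ?_
  intro w hw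
  rw [Function.mem_support] at hw
  rw [Finset.mem_coe, mem_wl]
  by_contra h2
  exact hw (by rw [word_zero h ha hb w (by omega), smul_zero])

lemma val_trn (h : IsNilp N I) {a b : E} (ha : a ∈ I) (hb : b ∈ I) (f : List (Fin 2) → R) :
    val f a b = EV a b (trn N f) := by
  rw [val_eq h ha hb, EV_wl' h ha hb]
  refine Finset.sum_congr rfl (fun w hw => ?_)
  rw [cf_trn, if_pos ((mem_wl N w).1 hw)]

lemma expU_eq [Algebra ℚ R] {x : E} (h : x ^ N = 0) :
    expU R x = ∑ k ∈ Finset.range N, ec R k • x ^ k := by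
  unfold expU
  refine finsum_eq_sum_of_support_subset _ ?_
  intro k hk
  rw [Function.mem_support] at hk
  rw [Finset.mem_coe, Finset.mem_range]
  by_contra h2
  exact hk (by rw [pow_eq_zero_of_le (by omega) h, smul_zero])

/-- the truncated exponential -/
def exq [Algebra ℚ R] (N : ℕ) (X : E) : E := ∑ k ∈ Finset.range N, ec R k • X ^ k

/-- a polynomial identity that holds in the universal nilpotent algebra holds in all of them -/
lemma EV_eq_of_cf (h : IsNilp N I) {a b : E} (ha : a ∈ I) (hb : b ∈ I) {X Y : AA R}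
    (hXY : ∀ w : List (Fin 2), w.length < N → cf X w = cf Y w) : EV a b X = EV a b Y := by
  rw [EV_wl' h ha hb, EV_wl' h ha hb]
  refine Finset.sum_congr rfl (fun w hw => ?_)
  rw [hXY w ((mem_wl N w).1 hw)]

end Basic

/-! ### The model in one pair of letters -/

section Model

variable (K : Type) [CommRing K] (N : ℕ)

/-- the matrices over the words of length `< N` -/
abbrev WK : Type := Matrix (wl N) (wl N) K

/-- left multiplication by the letter `i` -/
def LK (i : Fin 2) : WK K N :=
  Matrix.of fun u v => if (u : List (Fin 2)) = i :: (v : List (Fin 2)) then 1 else 0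

/-- `M u v` vanishes unless `u` is longer than `v` by at least `k` -/
def IK (k : ℕ) : Submodule K (WK K N) where
  carrier := {M | ∀ u v : wl N, u.1.length < v.1.length + k → M u v = 0}
  add_mem' := fun {M M'} h h' u v huv => by
    rw [Matrix.add_apply, h u v huv, h' u v huv, add_zero]
  zero_mem' := fun u v huv => rfl
  smul_mem' := fun c M h u v huv => by
    rw [Matrix.smul_apply, h u v huv, smul_zero]

lemma IK_mul {k l : ℕ} {M M' : WK K N} (h : M ∈ IK K N k) (h' : M' ∈ IK K N l) :
    M * M' ∈ IK K N (k + l) := by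
  intro u v huv
  rw [Matrix.mul_apply]
  refine Finset.sum_eq_zero (fun r _ => ?_)
  by_cases h1 : u.1.length < r.1.length + k
  · rw [h u r h1, zero_mul]
  · rw [h' r v (by omega), mul_zero]

lemma IK_mono {k l : ℕ} (hkl : k ≤ l) {M : WK K N} (h : M ∈ IK K N l) : M ∈ IK K N k :=
  fun u v huv => h u v (by omega)

lemma IK_prod (l : List (WK K N)) (hl : ∀ x ∈ l, x ∈ IK K N 1) : l.prod ∈ IK K N l.length := by
  induction l with
  | nil =>
    intro u v huv
    rw [List.prod_nil, Matrix.one_apply_ne]
    rintro rfl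
    simp at huv
  | cons a l ih =>
    rw [List.prod_cons, List.length_cons, add_comm]
    exact IK_mul K N (hl a (by simp)) (ih (fun x hx => hl x (by simp [hx])))

lemma IK_nil : IsNilp N (IK K N 1) := by
  refine ⟨fun x hx y hy => IK_mono K N (by omega) (IK_mul K N hx hy), fun l hl hN => ?_⟩
  ext u v
  rw [Matrix.zero_apply]
  apply IK_prod K N l hl
  have := (mem_wl N u.1).1 u.2
  omega

lemma LK_mem (i : Fin 2) : LK K N i ∈ IK K N 1 := by
  intro u v huv
  unfold LK
  rw [Matrix.of_apply, if_neg]
  intro h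
  rw [h, List.length_cons] at huv
  omega

lemma LK_prod (w : List (Fin 2)) (p q : wl N) :
    (w.map ![LK K N 0, LK K N 1]).prod p q = if (p : List (Fin 2)) = w ++ q then 1 else 0 := by
  have hv : ∀ i : Fin 2, ![LK K N 0, LK K N 1] i = LK K N i := by
    intro i; fin_cases i <;> rfl
  induction w generalizing p with
  | nil =>
    rw [List.map_nil, List.prod_nil, Matrix.one_apply, List.nil_append]
    by_cases h : p = q
    · rw [if_pos h, if_pos (by rw [h])]
    · rw [if_neg h, if_neg (fun h2 => h (Subtype.ext h2))]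
  | cons i w ih =>
    rw [List.map_cons, List.prod_cons, Matrix.mul_apply, hv]
    by_cases h : (p : List (Fin 2)) = i :: w ++ q
    · rw [if_pos h]
      have hm : w ++ (q : List (Fin 2)) ∈ wl N := by
        rw [mem_wl]
        have := (mem_wl N p.1).1 p.2
        rw [h] at this
        simp only [List.cons_append, List.length_cons] at this
        omega
      rw [Finset.sum_eq_single (⟨w ++ (q : List (Fin 2)), hm⟩ : wl N)]
      · rw [ih]
        unfold LK
        rw [Matrix.of_apply, if_pos, if_pos, one_mul]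
        · rfl
        · rw [h]; rfl
      · intro r _ hr
        rw [ih, if_neg, mul_zero]
        intro h2
        exact hr (Subtype.ext h2)
      · intro h2
        exact absurd (Finset.mem_univ _) h2
    · rw [if_neg h]
      refine Finset.sum_eq_zero (fun r _ => ?_)
      rw [ih]
      unfold LK
      rw [Matrix.of_apply]
      by_cases h2 : (p : List (Fin 2)) = i :: (r : List (Fin 2))
      · rw [if_pos h2, if_neg, mul_zero]
        intro h3
        exact h (by rw [h2, h3]; rfl)
      · rw [if_neg h2, zero_mul]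

lemma EV_LK (X : AA K) (p q : wl N) : EV (LK K N 0) (LK K N 1) X p q =
    ∑ w ∈ wl N, if (p : List (Fin 2)) = w ++ q then cf X w else 0 := by
  rw [EV_wl' (IK_nil K N) (LK_mem K N 0) (LK_mem K N 1), Matrix.sum_apply]
  refine Finset.sum_congr rfl (fun w _ => ?_)
  rw [Matrix.smul_apply, LK_prod]
  split_ifs <;> simp

variable {K N}

lemma EV_LK_nil (hN : 1 ≤ N) (X : AA K) (w : List (Fin 2)) (hw : w.length < N) :
    EV (LK K N 0) (LK K N 1) X ⟨w, (mem_wl N w).2 hw⟩ ⟨[], nil_mem N hN⟩ = cf X w := by
  rw [EV_LK, Finset.sum_eq_single w]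
  · simp
  · intro v _ hv
    rw [if_neg]
    intro h
    apply hv
    simpa using h.symm
  · intro h
    exact absurd ((mem_wl N w).2 hw) h

/-- an identity of polynomials that holds in the model holds everywhere -/
lemma EV_eq_of_model (hN : 1 ≤ N) {X Y : AA K}
    (h : EV (LK K N 0) (LK K N 1) X = EV (LK K N 0) (LK K N 1) Y) {E : Type} [Ring E] [Algebra K E]
    {I : Submodule K E} (hI : IsNilp N I) {a b : E} (ha : a ∈ I) (hb : b ∈ I) :
    EV a b X = EV a b Y := by
  refine EV_eq_of_cf hI ha hb (fun w hw => ?_)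
  rw [← EV_LK_nil hN X w hw, ← EV_LK_nil hN Y w hw, h]

end Model

end MP446U.KC
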