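import Pool.Agent.Lib.MP_446dfa_ag.unc.KZA

set_option linter.all false

/-!
# The shuffle relations from group-likeness in all nilpotent algebras
-/

noncomputable section

namespace MP446U.KC

open MP446 MP446Y MP446Z MP446S MP446I MP446U

section Model2

variable (K : Type) [CommRing K] (N : ℕ)

/-- functions on the pairs of words -/
abbrev V2 : Type := List (Fin 2) → List (Fin 2) → K

/-- multiplication by the letter `i` in the first variable -/
def La (i : Fin 2) : Module.End K (V2 K) where
  toFun F := fun u v => match u with
    | [] => 0
    | c :: u' => if c = i ∧ u'.length + 1 + v.length < N then F u' v else 0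
  map_add' F G := by
    funext u v
    cases u with
    | nil => simp
    | cons c u' => simp only [Pi.add_apply]; split_ifs <;> simp
  map_smul' r F := by
    funext u v
    cases u with
    | nil => simp
    | cons c u' => simp only [Pi.smul_apply, RingHom.id_apply]; split_ifs <;> simp

/-- multiplication by the letter `i` in the second variable -/
def Lb (i : Fin 2) : Module.End K (V2 K) where
  toFun F := fun u v => match v with
    | [] => 0
    | c :: v' => if c = i ∧ u.length + (v'.length + 1) < N then F u v' else 0
  map_add' F G := by
    funext u v
    cases v with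
    | nil => simp
    | cons c u' => simp only [Pi.add_apply]; split_ifs <;> simp
  map_smul' r F := by
    funext u v
    cases v with
    | nil => simp
    | cons c u' => simp only [Pi.smul_apply, RingHom.id_apply]; split_ifs <;> simp

lemma La_nil (i : Fin 2) (F : V2 K) (v : List (Fin 2)) : La K N i F [] v = 0 := rfl
lemma La_cons (i c : Fin 2) (F : V2 K) (u v : List (Fin 2)) :
    La K N i F (c :: u) v = if c = i ∧ u.length + 1 + v.length < N then F u v else 0 := rfl
lemma Lb_nil (i : Fin 2) (F : V2 K) (u : List (Fin 2)) : Lb K N i F u [] = 0 := rfl
lemma Lb_cons (i c : Fin 2) (F : V2 K) (u v : List (Fin 2)) :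
    Lb K N i F u (c :: v) = if c = i ∧ u.length + (v.length + 1) < N then F u v else 0 := rfl

lemma La_Lb (i j : Fin 2) : La K N i * Lb K N j = Lb K N j * La K N i := by
  apply LinearMap.ext
  intro F
  funext u v
  change La K N i (Lb K N j F) u v = Lb K N j (La K N i F) u v
  cases u with
  | nil =>
    cases v with
    | nil => rfl
    | cons d v => rw [La_nil, Lb_cons, La_nil]; simp
  | cons c u =>
    cases v with
    | nil => rw [La_cons, Lb_nil, Lb_nil]; simp
    | cons d v =>
      rw [La_cons, Lb_cons, Lb_cons, La_cons]
      simp only [List.length_cons]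
      by_cases h1 : c = i
      · by_cases h2 : d = j
        · by_cases h3 : u.length + 1 + (v.length + 1) < N
          · have h4 : u.length + (v.length + 1) < N := by omega
            have h5 : u.length + 1 + v.length < N := by omega
            simp [h1, h2, h3, h4, h5]
          · simp [h1, h2, h3]
        · simp [h1, h2]
      · by_cases h2 : d = j
        · simp [h1, h2]
        · simp [h1, h2]

/-- `F u v` vanishes when `|u| + |v| < m` -/
def Vn (m : ℕ) (F : V2 K) : Prop := ∀ u v : List (Fin 2), u.length + v.length < m → F u v = 0

/-- the operators that raise the length by at least `1`, with values in the functions supported by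
the pairs of length `< N` -/
def I2 : Submodule K (Module.End K (V2 K)) where
  carrier := {T | ∀ F : V2 K, (∀ m, Vn K m F → Vn K (m + 1) (T F)) ∧
    ∀ u v : List (Fin 2), N ≤ u.length + v.length → T F u v = 0}
  add_mem' := fun {S T} hS hT F => ⟨fun m hF u v huv => by
      rw [LinearMap.add_apply, Pi.add_apply, Pi.add_apply, (hS F).1 m hF u v huv,
        (hT F).1 m hF u v huv, add_zero],
    fun u v huv => by
      rw [LinearMap.add_apply, Pi.add_apply, Pi.add_apply, (hS F).2 u v huv, (hT F).2 u v huv,
        add_zero]⟩
  zero_mem' := fun F => ⟨fun m hF u v huv => rfl, fun u v huv => rfl⟩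
  smul_mem' := fun c T hT F => ⟨fun m hF u v huv => by
      rw [LinearMap.smul_apply, Pi.smul_apply, Pi.smul_apply, (hT F).1 m hF u v huv, smul_zero],
    fun u v huv => by
      rw [LinearMap.smul_apply, Pi.smul_apply, Pi.smul_apply, (hT F).2 u v huv, smul_zero]⟩

lemma I2_prod (l : List (Module.End K (V2 K))) (hl : ∀ x ∈ l, x ∈ I2 K N) (m : ℕ) (F : V2 K)
    (hF : Vn K m F) : Vn K (m + l.length) (l.prod F) := by
  induction l generalizing F with
  | nil => exact hF
  | cons a l ih =>
    rw [List.prod_cons, List.length_cons, ← add_assoc]
    exact ((hl a (by simp)) _).1 _ (ih (fun x hx => hl x (by simp [hx])) F hF)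

lemma I2_nil (h1N : 1 ≤ N) : IsNilp N (I2 K N) := by
  refine ⟨fun S hS T hT F => ⟨fun m hF u v huv => ?_, fun u v huv => ?_⟩, fun l hl hN => ?_⟩
  · have := (hS (T F)).1 (m + 1) ((hT F).1 m hF) u v (by omega)
    exact this
  · exact (hS (T F)).2 u v huv
  · apply LinearMap.ext
    intro F
    funext u v
    rw [LinearMap.zero_apply, Pi.zero_apply, Pi.zero_apply]
    have h1 := I2_prod K N l hl 0 F (fun u v huv => absurd huv (Nat.not_lt_zero _))
    by_cases h : u.length + v.length < N
    · exact h1 u v (by omega)
    · cases l with
      | nil =>
        simp only [List.length_nil] at hN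
        omega
      | cons a l =>
        rw [List.prod_cons]
        exact (hl a (by simp) _).2 u v (by omega)

lemma La_mem (i : Fin 2) : La K N i ∈ I2 K N := by
  intro F
  refine ⟨fun m hF u v huv => ?_, fun u v huv => ?_⟩
  · cases u with
    | nil => rfl
    | cons c u =>
      rw [La_cons]
      split_ifs with h
      · exact hF u v (by simp only [List.length_cons] at huv; omega)
      · rfl
  · cases u with
    | nil => rfl
    | cons c u =>
      rw [La_cons, if_neg]
      simp only [List.length_cons] at huv
      omega

lemma Lb_mem (i : Fin 2) : Lb K N i ∈ I2 K N := by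
  intro F
  refine ⟨fun m hF u v huv => ?_, fun u v huv => ?_⟩
  · cases v with
    | nil => rfl
    | cons c v =>
      rw [Lb_cons]
      split_ifs with h
      · exact hF u v (by simp only [List.length_cons] at huv; omega)
      · rfl
  · cases v with
    | nil => rfl
    | cons c v =>
      rw [Lb_cons, if_neg]
      simp only [List.length_cons] at huv
      omega

/-- the vector of the pair of empty words -/
def d0 : V2 K := fun u v => if u = [] ∧ v = [] then 1 else 0

lemma word_ab (w u v : List (Fin 2)) (h : u.length + v.length < N) :
    (w.map ![La K N 0 + Lb K N 0, La K N 1 + Lb K N 1]).prod (d0 K) u v =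
      ((shuffle u v).map (fun s => if s = w then (1 : K) else 0)).sum := by
  have hv : ∀ i : Fin 2, ![La K N 0 + Lb K N 0, La K N 1 + Lb K N 1] i = La K N i + Lb K N i := by
    intro i; fin_cases i <;> rfl
  induction w generalizing u v with
  | nil =>
    rw [List.map_nil, List.prod_nil]
    change d0 K u v = _
    unfold d0
    cases u with
    | nil =>
      rw [shuffle_nil_left]
      simp
    | cons a u =>
      cases v with
      | nil => rw [shuffle_nil_right]; simp
      | cons b v =>
        rw [shuffle_cons, List.map_append, List.sum_append, List.map_map, List.map_map]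
        have key : ∀ (c : Fin 2) (l : List (List (Fin 2))),
            (l.map ((fun s => if s = [] then (1 : K) else 0) ∘ fun x => c :: x)).sum = 0 := by
          intro c l
          apply List.sum_eq_zero
          intro x hx
          obtain ⟨s, -, rfl⟩ := List.mem_map.1 hx
          simp
        rw [key, key]
        simp
  | cons i w ih =>
    rw [List.map_cons, List.prod_cons, hv]
    change La K N i _ u v + Lb K N i _ u v = _
    cases u with
    | nil =>
      rw [La_nil, zero_add, shuffle_nil_left]
      cases v with
      | nil => rw [Lb_nil]; simp
      | cons b v =>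
        rw [Lb_cons]
        simp only [List.length_nil, List.length_cons] at h
        rw [ih [] v (by simp only [List.length_nil]; omega), shuffle_nil_left]
        have h' : 0 + (v.length + 1) < N := h
        by_cases hb : b = i
        · rw [if_pos ⟨hb, h'⟩]; simp [hb]
        · simp [hb]
    | cons a u =>
      cases v with
      | nil =>
        rw [Lb_nil, add_zero, shuffle_nil_right, La_cons]
        simp only [List.length_nil, List.length_cons] at h
        rw [ih u [] (by simp only [List.length_nil]; omega), shuffle_nil_right]
        by_cases hb : a = i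
        · simp [hb, h]
        · simp [hb]
      | cons b v =>
        simp only [List.length_cons] at h
        rw [La_cons, Lb_cons, shuffle_cons, List.map_append, List.sum_append, List.map_map,
          List.map_map, ih u (b :: v) (by simp only [List.length_cons]; omega),
          ih (a :: u) v (by simp only [List.length_cons]; omega)]
        have h3 : u.length + 1 + (b :: v).length < N := by simp only [List.length_cons]; omega
        have h4 : (a :: u).length + (v.length + 1) < N := by simp only [List.length_cons]; omega
        have key : ∀ (c : Fin 2) (l : List (List (Fin 2))),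
            (l.map ((fun s => if s = i :: w then (1 : K) else 0) ∘ fun x => c :: x)).sum =
              if c = i then (l.map (fun s => if s = w then (1 : K) else 0)).sum else 0 := by
          intro c l
          by_cases hc : c = i
          · rw [if_pos hc]
            congr 1
            apply List.map_congr_left
            intro s _
            simp [hc]
          · rw [if_neg hc]
            apply List.sum_eq_zero
            intro x hx
            obtain ⟨s, -, rfl⟩ := List.mem_map.1 hx
            simp [hc]
        rw [key, key]
        congr 1
        · by_cases hb : a = i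
          · rw [if_pos ⟨hb, h3⟩, if_pos hb]
          · rw [if_neg (fun h => hb h.1), if_neg hb]
        · by_cases hb : b = i
          · rw [if_pos ⟨hb, h4⟩, if_pos hb]
          · rw [if_neg (fun h => hb h.1), if_neg hb]

lemma word_a (w u v : List (Fin 2)) (F : V2 K) (h : u.length + v.length < N) :
    (w.map ![La K N 0, La K N 1]).prod F u v =
      if w <+: u then F (u.drop w.length) v else 0 := by
  have hv : ∀ i : Fin 2, ![La K N 0, La K N 1] i = La K N i := by
    intro i; fin_cases i <;> rfl
  induction w generalizing u with
  | nil => simp
  | cons i w ih =>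
    rw [List.map_cons, List.prod_cons, hv]
    change La K N i _ u v = _
    cases u with
    | nil => rw [La_nil]; simp
    | cons a u =>
      simp only [List.length_cons] at h
      rw [La_cons, ih u (by omega)]
      by_cases ha : a = i
      · have h2 : u.length + 1 + v.length < N := h
        subst ha
        simp [h2, List.cons_prefix_cons]
      · have : ¬ (i :: w <+: a :: u) := by
          rw [List.cons_prefix_cons]
          exact fun h => ha h.1.symm
        simp [ha, this]

lemma word_b (w u v : List (Fin 2)) (F : V2 K) (h : u.length + v.length < N) :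
    (w.map ![Lb K N 0, Lb K N 1]).prod F u v =
      if w <+: v then F u (v.drop w.length) else 0 := by
  have hv : ∀ i : Fin 2, ![Lb K N 0, Lb K N 1] i = Lb K N i := by
    intro i; fin_cases i <;> rfl
  induction w generalizing v with
  | nil => simp
  | cons i w ih =>
    rw [List.map_cons, List.prod_cons, hv]
    change Lb K N i _ u v = _
    cases v with
    | nil => rw [Lb_nil]; simp
    | cons a v =>
      simp only [List.length_cons] at h
      rw [Lb_cons, ih v (by omega)]
      by_cases ha : a = i
      · have h2 : u.length + (v.length + 1) < N := h
        subst ha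
        simp [h2, List.cons_prefix_cons]
      · have : ¬ (i :: w <+: a :: v) := by
          rw [List.cons_prefix_cons]
          exact fun h => ha h.1.symm
        simp [ha, this]

end Model2

/-- the shuffle relations from group-likeness -/
theorem shuffle_of_gl {K : Type} [CommRing K] {N : ℕ} {X : AA K} (hN : 1 ≤ N)
    (h : ∀ (E : Type) [Ring E] [Algebra K E] (I : Submodule K E), IsNilp N I →
      ∀ a b a' b' : E, a ∈ I → b ∈ I → a' ∈ I → b' ∈ I → Com2 a b a' b' →
        EV (a + a') (b + b') X = EV a b X * EV a' b' X) (v w : List (Fin 2))
    (hvw : v.length + w.length < N) : cf X v * cf X w = ((shuffle v w).map (cf X)).sum := by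
  classical
  have hI := I2_nil K N hN
  have h1 := h _ (I2 K N) hI (La K N 0) (La K N 1) (Lb K N 0) (Lb K N 1) (La_mem K N 0)
    (La_mem K N 1) (Lb_mem K N 0) (Lb_mem K N 1)
    ⟨La_Lb K N 0 0, La_Lb K N 0 1, La_Lb K N 1 0, La_Lb K N 1 1⟩
  have h2 := congrFun (congrFun (LinearMap.congr_fun h1 (d0 K)) v) w
  rw [EV_wl' hI (Submodule.add_mem _ (La_mem K N 0) (Lb_mem K N 0))
    (Submodule.add_mem _ (La_mem K N 1) (Lb_mem K N 1))] at h2
  have e1 : (∑ s ∈ wl N, cf X s • (s.map ![La K N 0 + Lb K N 0, La K N 1 + Lb K N 1]).prod)
      (d0 K) v w = ((shuffle v w).map (cf X)).sum := by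
    rw [LinearMap.sum_apply, Finset.sum_apply, Finset.sum_apply]
    have e2 : ∀ s ∈ wl N, (cf X s • (s.map ![La K N 0 + Lb K N 0, La K N 1 + Lb K N 1]).prod)
        (d0 K) v w = ((shuffle v w).map (fun t => if t = s then cf X s else 0)).sum := by
      intro s _
      rw [LinearMap.smul_apply, Pi.smul_apply, Pi.smul_apply, word_ab K N s v w hvw, smul_eq_mul,
        ← List.sum_map_mul_left]
      congr 1
      apply List.map_congr_left
      intro t _
      split_ifs <;> simp
    rw [Finset.sum_congr rfl e2]
    have e3 : ∀ l : List (List (Fin 2)), (∀ t ∈ l, t.length < N) →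
        ∑ s ∈ wl N, (l.map (fun t => if t = s then cf X s else 0)).sum = (l.map (cf X)).sum := by
      intro l
      induction l with
      | nil => intro _; simp
      | cons t l ih =>
        intro hl
        simp only [List.map_cons, List.sum_cons]
        rw [Finset.sum_add_distrib, ih (fun x hx => hl x (by simp [hx]))]
        congr 1
        rw [Finset.sum_ite_eq]
        rw [if_pos ((mem_wl N t).2 (hl t (by simp)))]
    exact e3 _ (fun t ht => by rw [shuffle_length v w t ht]; exact hvw)
  rw [e1] at h2
  rw [h2, EV_wl' hI (La_mem K N 0) (La_mem K N 1), EV_wl' hI (Lb_mem K N 0) (Lb_mem K N 1)]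
  change _ = (∑ s ∈ wl N, cf X s • (s.map ![La K N 0, La K N 1]).prod)
    ((∑ s ∈ wl N, cf X s • (s.map ![Lb K N 0, Lb K N 1]).prod) (d0 K)) v w
  have e4 : ∀ (G : V2 K), (∑ s ∈ wl N, cf X s • (s.map ![La K N 0, La K N 1]).prod) G v w =
      ∑ s ∈ wl N, cf X s * (if s <+: v then G (v.drop s.length) w else 0) := by
    intro G
    rw [LinearMap.sum_apply, Finset.sum_apply, Finset.sum_apply]
    refine Finset.sum_congr rfl (fun s _ => ?_)
    rw [LinearMap.smul_apply, Pi.smul_apply, Pi.smul_apply, word_a K N s v w _ hvw, smul_eq_mul]
  have e5 : ∀ u : List (Fin 2), u.length + w.length < N →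
      (∑ s ∈ wl N, cf X s • (s.map ![Lb K N 0, Lb K N 1]).prod) (d0 K) u w =
      if u = [] then cf X w else 0 := by
    intro u hu
    rw [LinearMap.sum_apply, Finset.sum_apply, Finset.sum_apply]
    have e6 : ∀ s ∈ wl N, (cf X s • (s.map ![Lb K N 0, Lb K N 1]).prod) (d0 K) u w =
        if s = w then (if u = [] then cf X w else 0) else 0 := by
      intro s _
      rw [LinearMap.smul_apply, Pi.smul_apply, Pi.smul_apply, word_b K N s u w _ hu, smul_eq_mul]
      unfold d0
      by_cases h1 : s = w
      · subst h1
        simp
      · rw [if_neg h1]
        by_cases h2 : s <+: w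
        · rw [if_pos h2]
          have h3 : w.drop s.length ≠ [] := by
            intro h4
            apply h1
            rw [List.drop_eq_nil_iff] at h4
            exact h2.eq_of_length_le h4
          rw [if_neg (fun h => h3 h.2), mul_zero]
        · rw [if_neg h2, mul_zero]
    rw [Finset.sum_congr rfl e6, Finset.sum_ite_eq', if_pos ((mem_wl N w).2 (by omega))]
  rw [e4]
  have e7 : ∀ s ∈ wl N, cf X s * (if s <+: v then
      (∑ s ∈ wl N, cf X s • (s.map ![Lb K N 0, Lb K N 1]).prod) (d0 K) (v.drop s.length) w
        else 0) = if s = v then cf X v * cf X w else 0 := by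
    intro s _
    rw [e5 _ (by rw [List.length_drop]; omega)]
    by_cases h1 : s = v
    · subst h1
      simp
    · rw [if_neg h1]
      by_cases h2 : s <+: v
      · rw [if_pos h2]
        have h3 : v.drop s.length ≠ [] := by
          intro h4
          apply h1
          rw [List.drop_eq_nil_iff] at h4
          exact h2.eq_of_length_le h4
        rw [if_neg h3, mul_zero]
      · rw [if_neg h2, mul_zero]
  rw [Finset.sum_congr rfl e7, Finset.sum_ite_eq', if_pos ((mem_wl N v).2 (by omega))]

end MP446U.KC
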