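import Pool.Agent.Lib.MP_446dfa_ag.unc.Base

set_option linter.all false

/-!
# Homogeneous operators on non-commutative polynomials

`Hd d T`: the operator `T` raises the degree by `d`.  `DQ Q`, `LQ Q` (`Q` homogeneous of degree `d`)
and `A.Lw w` (`d = A.wt w`) are such operators, and the coefficient of a word `v` in `T X` depends
only on the coefficients of the words of length `|v| - d` in `X`.
-/

noncomputable section

namespace MP446U.OPB

open MP446 MP446Y MP446Z MP446S MP446I

section Hom

variable {k : Type} [CommRing k]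

lemma hom_zero (n : ℕ) : Hom n (0 : AA k) := fun _ _ => rfl

lemma hom_add {n : ℕ} {X Y : AA k} (hX : Hom n X) (hY : Hom n Y) : Hom n (X + Y) := by
  intro w hw
  rw [cf_add, hX w hw, hY w hw, add_zero]

lemma hom_sub {n : ℕ} {X Y : AA k} (hX : Hom n X) (hY : Hom n Y) : Hom n (X - Y) := by
  intro w hw
  rw [cf_sub, hX w hw, hY w hw, sub_zero]

lemma hom_smul {n : ℕ} (c : k) {X : AA k} (hX : Hom n X) : Hom n (c • X) := by
  intro w hw
  rw [cf_smul, hX w hw, mul_zero]

lemma hom_sum {ι : Type*} {n : ℕ} (s : Finset ι) {X : ι → AA k} (hX : ∀ i ∈ s, Hom n (X i)) :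
    Hom n (∑ i ∈ s, X i) := by
  intro w hw
  rw [cf_sum]
  exact Finset.sum_eq_zero (fun i hi => hX i hi w hw)

lemma hom_mul {m n : ℕ} {X Y : AA k} (hX : Hom m X) (hY : Hom n Y) : Hom (m + n) (X * Y) := by
  intro w hw
  rw [cf_mul]
  refine Finset.sum_eq_zero (fun i hi => ?_)
  rw [Finset.mem_range] at hi
  by_cases h : i = m
  · rw [hY, mul_zero]
    rw [List.length_drop]
    omega
  · rw [hX, zero_mul]
    rw [List.length_take]
    omega

lemma hom_ow (u : List (Fin 2)) : Hom u.length (ow k u) := by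
  intro w hw
  rw [cf_ow, if_neg]
  rintro rfl
  exact hw rfl

lemma hom_lt (i : Fin 2) : Hom 1 (lt k i) := hom_ow [i]

lemma hom_one : Hom 0 (1 : AA k) := by
  rw [← ow_nil]
  exact hom_ow []

end Hom

/-! ### Homogeneous operators -/

section Hd

variable {k : Type} [CommRing k]

/-- `T` raises the degree by `d` -/
def Hd (d : ℕ) (T : AA k →ₗ[k] AA k) : Prop :=
  ∀ u : List (Fin 2), Hom (u.length + d) (T (ow k u))

/-- the coefficient of `v` in `T X` vanishes if the coefficients of the words of length `|v| - d`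
in `X` vanish -/
lemma Hd.zero {d : ℕ} {T : AA k →ₗ[k] AA k} (hT : Hd d T) {X : AA k} {v : List (Fin 2)}
    (h : ∀ w : List (Fin 2), w.length + d = v.length → cf X w = 0) : cf (T X) v = 0 := by
  rw [AA_expand X, Finsupp.sum, map_sum, cf_sum]
  refine Finset.sum_eq_zero (fun w _ => ?_)
  rw [map_smul, cf_smul]
  by_cases hw : (FreeMonoid.toList w).length + d = v.length
  · have h1 : X.coeff w = 0 := h (FreeMonoid.toList w) hw
    rw [h1, zero_mul]
  · rw [hT _ v (fun h' => hw h'.symm), mul_zero]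

lemma Hd.congr {d : ℕ} {T : AA k →ₗ[k] AA k} (hT : Hd d T) {X Y : AA k} {v : List (Fin 2)}
    (h : ∀ w : List (Fin 2), w.length + d = v.length → cf X w = cf Y w) :
    cf (T X) v = cf (T Y) v := by
  rw [← sub_eq_zero, ← cf_sub, ← map_sub]
  refine hT.zero (fun w hw => ?_)
  rw [cf_sub, h w hw, sub_self]

lemma Hd.short {d : ℕ} {T : AA k →ₗ[k] AA k} (hT : Hd d T) (X : AA k) {v : List (Fin 2)}
    (h : v.length < d) : cf (T X) v = 0 :=
  hT.zero (fun w hw => by omega)

lemma Hd.hom {d n : ℕ} {T : AA k →ₗ[k] AA k} (hT : Hd d T) {X : AA k} (hX : Hom n X) :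
    Hom (n + d) (T X) := by
  intro v hv
  refine hT.zero (fun w hw => hX w ?_)
  omega

lemma hd_of_hom {d : ℕ} {T : AA k →ₗ[k] AA k} (h : ∀ (n : ℕ) (X : AA k), Hom n X → Hom (n + d) (T X)) :
    Hd d T := fun u => h _ _ (hom_ow u)

/-- scaling -/
lemma Hd.scale {d : ℕ} {T : AA k →ₗ[k] AA k} (hT : Hd d T) (c : k) {X Y : AA k} {M : ℕ}
    (hXY : ∀ w : List (Fin 2), w.length < M → cf Y w = c ^ w.length * cf X w) {v : List (Fin 2)}
    (hv : v.length < M) : c ^ v.length * cf (T X) v = c ^ d * cf (T Y) v := by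
  by_cases hd : d ≤ v.length
  · have h1 : cf (T Y) v = cf (T (c ^ (v.length - d) • X)) v := by
      refine hT.congr (fun w hw => ?_)
      rw [hXY w (by omega), cf_smul]
      congr 2
      omega
    rw [h1, map_smul, cf_smul, ← mul_assoc, ← pow_add]
    congr 2
    omega
  · rw [hT.short X (by omega), hT.short Y (by omega), mul_zero, mul_zero]

lemma Hd.id : Hd 0 (LinearMap.id : AA k →ₗ[k] AA k) := fun u => hom_ow u

lemma Hd.comp {d e : ℕ} {T U : AA k →ₗ[k] AA k} (hT : Hd d T) (hU : Hd e U) :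
    Hd (e + d) (T ∘ₗ U) := by
  intro u
  have := hT.hom (hU u)
  rwa [add_assoc] at this

lemma Hd.add {d : ℕ} {T U : AA k →ₗ[k] AA k} (hT : Hd d T) (hU : Hd d U) : Hd d (T + U) :=
  fun u => hom_add (hT u) (hU u)

lemma Hd.smul {d : ℕ} (c : k) {T : AA k →ₗ[k] AA k} (hT : Hd d T) : Hd d (c • T) :=
  fun u => hom_smul c (hT u)

lemma hd_mulRight {d : ℕ} {Q : AA k} (hQ : Hom d Q) : Hd d (LinearMap.mulRight k Q) :=
  fun u => hom_mul (hom_ow u) hQ

lemma hd_mulLeft {d : ℕ} {Q : AA k} (hQ : Hom d Q) : Hd d (LinearMap.mulLeft k Q) := by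
  intro u
  have := hom_mul hQ (hom_ow (k := k) u)
  rwa [add_comm] at this

lemma hd_DQ {d : ℕ} {Q : AA k} (hQ : Hom d Q) : Hd d (DQ Q) := by
  intro u
  induction u with
  | nil =>
    rw [ow_nil, DQ_one]
    exact hom_zero _
  | cons i u ih =>
    rw [ow_cons, DQ_mul]
    refine hom_add ?_ ?_
    · have := hom_mul (hom_lt (k := k) i) ih
      rw [List.length_cons, show u.length + 1 + d = 1 + (u.length + d) by ring]
      exact this
    · have h2 : Hom (1 + d) (DQ Q (lt k i)) := by
        fin_cases i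
        · change Hom _ (DQ Q (lt k 0))
          rw [DQ_lt_zero]
          refine hom_sub ?_ (hom_mul (hom_lt 0) hQ)
          have := hom_mul hQ (hom_lt (k := k) 0)
          rwa [add_comm] at this
        · change Hom _ (DQ Q (lt k 1))
          rw [DQ_lt_one]
          exact hom_zero _
      have := hom_mul h2 (hom_ow (k := k) u)
      rw [List.length_cons, show u.length + 1 + d = 1 + d + u.length by ring]
      exact this

lemma hd_LQ {d : ℕ} {Q : AA k} (hQ : Hom d Q) : Hd d (LQ Q) := (hd_DQ hQ).add (hd_mulRight hQ)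

/-- the lowest terms: `T` (of degree `d`) at the words of length `d` depends only on the constant
term -/
lemma Hd.lowest {d : ℕ} {T : AA k →ₗ[k] AA k} (hT : Hd d T) (X : AA k) {v : List (Fin 2)}
    (hv : v.length = d) : cf (T X) v = cf X [] * cf (T 1) v := by
  rw [← cf_smul, ← map_smul]
  refine hT.congr (fun w hw => ?_)
  have : w = [] := List.length_eq_zero_iff.1 (by omega)
  subst this
  rw [cf_smul, cf_one, if_pos rfl, mul_one]

end Hd

/-! ### The operators of a graded family -/

section Fam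

variable {R S : Type} [CommRing R]

lemma wt_nil (A : Alph S) : A.wt [] = 0 := rfl

lemma wt_cons (A : Alph S) (s : S) (w : List S) :
    A.wt (s :: w) = A.dg s + A.wt w := by simp [Alph.wt]

lemma wt_append (A : Alph S) (w w' : List S) :
    A.wt (w ++ w') = A.wt w + A.wt w' := by simp [Alph.wt]

lemma length_le_wt (A : Alph S) (w : List S) : w.length ≤ A.wt w := by
  induction w with
  | nil => exact Nat.zero_le _
  | cons s w ih =>
    have := A.pos s
    rw [List.length_cons, wt_cons]
    omega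

lemma nil_of_wt (A : Alph S) {w : List S} (h : A.wt w = 0) : w = [] := by
  have := length_le_wt A w
  exact List.length_eq_zero_iff.1 (by omega)

/-- the composition of the operators of a word in an endomorphism algebra -/
lemma hd_word (A : Alph S) (x : S → Module.End R (AA R)) (hx : ∀ s, Hd (A.dg s) (x s))
    (w : List S) : Hd (A.wt w) ((w.map x).prod) := by
  induction w with
  | nil => exact Hd.id
  | cons s w ih =>
    rw [List.map_cons, List.prod_cons, wt_cons]
    have := (hx s).comp ih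
    rw [add_comm] at this
    exact this

variable (A : GFam R S)

lemma Lw_nil : A.Lw [] = 1 := rfl

lemma Lw_cons (s : S) (w : List S) (X : AA R) : A.Lw (s :: w) X = LQ (A.Q s) (A.Lw w X) := by
  unfold GFam.Lw
  rw [List.map_cons, List.prod_cons]
  rfl

lemma Lw_append (w w' : List S) : A.Lw (w ++ w') = A.Lw w * A.Lw w' := by
  unfold GFam.Lw
  rw [List.map_append, List.prod_append]

lemma hd_LQA (s : S) : Hd (A.dg s) (LQ (A.Q s)) := hd_LQ (A.gq s).hom

lemma hd_Lw (w : List S) : Hd (A.wt w) (A.Lw w) :=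
  hd_word A.toAlph (fun s => (LQ (A.Q s) : Module.End R (AA R))) (hd_LQA A) w

lemma TN_apply (N : ℕ) (u : List S → R) (X : AA R) :
    A.TN N u X = ∑ w ∈ A.wd N, u w • A.Lw w X := by
  unfold GFam.TN
  rw [LinearMap.sum_apply]
  rfl

lemma cf_TN (N : ℕ) (u : List S → R) (X : AA R) (v : List (Fin 2)) :
    cf (A.TN N u X) v = ∑ w ∈ A.wd N, u w * cf (A.Lw w X) v := by
  rw [TN_apply, cf_sum]
  simp only [cf_smul]

/-- the coefficients of short words in `T_u X` -/
lemma cf_TN_of_le {N M : ℕ} (u : List S → R) (X : AA R) {v : List (Fin 2)}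
    (hM : v.length < M) (hN : M ≤ N) :
    cf (A.TN N u X) v = cf (A.TN M u X) v := by
  rw [cf_TN, cf_TN]
  symm
  refine Finset.sum_subset ?_ ?_
  · intro w hw
    rw [Alph.mem_wd] at hw ⊢
    omega
  · intro w _ hw
    rw [Alph.mem_wd] at hw
    rw [(hd_Lw A w).short X (by omega), mul_zero]

/-- the coefficients of short words in `T_u X` depend only on those of `X` -/
lemma cf_TN_congr (N : ℕ) (u : List S → R) {X Y : AA R} {v : List (Fin 2)}
    (h : ∀ w : List (Fin 2), w.length ≤ v.length → cf X w = cf Y w) :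
    cf (A.TN N u X) v = cf (A.TN N u Y) v := by
  rw [cf_TN, cf_TN]
  refine Finset.sum_congr rfl (fun w _ => ?_)
  rw [(hd_Lw A w).congr (fun v' hv' => h v' (by omega))]

lemma act_apply (u : List S → R) (f : List (Fin 2) → R) (v : List (Fin 2)) :
    A.act u f v = ∑ w ∈ A.wd (v.length + 1), u w * cf (A.Lw w (trn (v.length + 1) f)) v :=
  cf_TN A _ u _ v

/-- the coefficients of `act u f` -/
lemma cf_TN_eq_act (N : ℕ) (u : List S → R) (f : List (Fin 2) → R) (X : AA R)
    (v : List (Fin 2)) (hv : v.length < N)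
    (hX : ∀ v' : List (Fin 2), v'.length < N → cf X v' = f v') :
    cf (A.TN N u X) v = A.act u f v := by
  unfold GFam.act
  rw [cf_TN_of_le A u X (M := v.length + 1) (by omega) (by omega)]
  refine cf_TN_congr A _ u (fun w hw => ?_)
  rw [cf_trn, if_pos (by omega), hX w (by omega)]

end Fam

end MP446U.OPB
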