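import Pool.Agent.Lib.MP_446dfa_ag.unc.Defs

set_option linter.all false

/-!
# The filtration of a free associative algebra by the degree
-/

noncomputable section

namespace MP446U.PN

open MP446 MP446Y MP446Z MP446S MP446I Polynomial

section Fil

variable {R : Type} [CommRing R] {A : Type}

variable (R) in
/-- the word `w` as an element of the free algebra -/
def wd (w : List A) : FA R A := (w.map (letter R)).prod

@[simp] lemma wd_nil : wd R ([] : List A) = 1 := rfl
@[simp] lemma wd_cons (a : A) (w : List A) : wd R (a :: w) = letter R a * wd R w := rfl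

lemma wd_append (v w : List A) : wd R (v ++ w) = wd R v * wd R w := by
  unfold wd
  rw [List.map_append, List.prod_append]

/-- induction on non-commutative polynomials -/
lemma FA_wd {P : FA R A → Prop} (hw : ∀ w, P (wd R w)) (hadd : ∀ X Y, P X → P Y → P (X + Y))
    (hsmul : ∀ (c : R) X, P X → P (c • X)) (X : FA R A) : P X := by
  induction X using MonoidAlgebra.induction_linear with
  | zero => simpa using hsmul 0 _ (hw [])
  | add f g hf hg => exact hadd _ _ hf hg
  | single w c =>
    rw [FA_single]
    apply hsmul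
    have h : MonoidAlgebra.of R (FreeMonoid A) w = wd R (FreeMonoid.toList w) := by
      induction w using FreeMonoid.inductionOn' with
      | one => rw [map_one]; rfl
      | of_mul a w ih =>
        rw [map_mul, ih]
        rfl
    rw [h]
    exact hw _

/-- the elements of order `≥ d` -/
def J (R : Type) [CommRing R] (A : Type) (d : ℕ) : Submodule R (FA R A) :=
  Submodule.span R {X | ∃ w : List A, d ≤ w.length ∧ X = wd R w}

lemma wd_mem_J {d : ℕ} {w : List A} (h : d ≤ w.length) : wd R w ∈ J R A d :=
  Submodule.subset_span ⟨w, h, rfl⟩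

lemma J_ind {d : ℕ} {P : FA R A → Prop} (hw : ∀ w : List A, d ≤ w.length → P (wd R w)) (h0 : P 0)
    (hadd : ∀ X Y, P X → P Y → P (X + Y)) (hsmul : ∀ (c : R) X, P X → P (c • X)) {X : FA R A}
    (hX : X ∈ J R A d) : P X := by
  unfold J at hX
  induction hX using Submodule.span_induction with
  | mem x h => obtain ⟨w, h1, rfl⟩ := h; exact hw w h1
  | zero => exact h0
  | add x y _ _ hx hy => exact hadd x y hx hy
  | smul c x _ hx => exact hsmul c x hx

lemma J_anti {d e : ℕ} (h : d ≤ e) : J R A e ≤ J R A d := by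
  intro X hX
  exact J_ind (fun w hw => wd_mem_J (le_trans h hw)) (Submodule.zero_mem _)
    (fun X Y => Submodule.add_mem _) (fun c X => Submodule.smul_mem _ c) hX

lemma J_zero (X : FA R A) : X ∈ J R A 0 :=
  FA_wd (fun w => wd_mem_J (Nat.zero_le _)) (fun X Y => Submodule.add_mem _)
    (fun c X => Submodule.smul_mem _ c) X

lemma J_mul {d e : ℕ} {X Y : FA R A} (hX : X ∈ J R A d) (hY : Y ∈ J R A e) : X * Y ∈ J R A (d + e) := by
  refine J_ind (P := fun X => X * Y ∈ J R A (d + e)) (fun v hv => ?_) ?_ ?_ ?_ hX
  · refine J_ind (P := fun Y => wd R v * Y ∈ J R A (d + e)) (fun w hw => ?_) ?_ ?_ ?_ hY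
    · rw [← wd_append]
      exact wd_mem_J (by rw [List.length_append]; omega)
    · rw [mul_zero]; exact Submodule.zero_mem _
    · intro X Y hX hY; rw [mul_add]; exact Submodule.add_mem _ hX hY
    · intro c X hX; rw [mul_smul_comm]; exact Submodule.smul_mem _ c hX
  · rw [zero_mul]; exact Submodule.zero_mem _
  · intro X Y hX hY; rw [add_mul]; exact Submodule.add_mem _ hX hY
  · intro c X hX; rw [smul_mul_assoc]; exact Submodule.smul_mem _ c hX

lemma J_mul' {d e f : ℕ} {X Y : FA R A} (hX : X ∈ J R A d) (hY : Y ∈ J R A e) (h : f ≤ d + e) :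
    X * Y ∈ J R A f := J_anti h (J_mul hX hY)

lemma letter_mem (a : A) : letter R a ∈ J R A 1 := by
  have := wd_mem_J (R := R) (A := A) (d := 1) (w := [a]) (by simp)
  rwa [wd_cons, wd_nil, mul_one] at this

/-- the homomorphism `a ↦ X a` -/
def gam : FA R A →ₐ[R] (FA R A)[X] := EVn (fun a => C (letter R a) * X)

lemma gam_letter (a : A) : gam (letter R a) = C (letter R a) * X := EVn_letter _ _

lemma gam_wd (w : List A) : gam (wd R w) = C (wd R w) * X ^ w.length := by
  induction w with
  | nil => simp
  | cons a w ih =>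
    rw [wd_cons, map_mul, gam_letter, ih, List.length_cons, C_mul, mul_assoc, ← mul_assoc X, X_mul,
      mul_assoc (C (wd R w)), ← pow_succ', ← mul_assoc]

/-- the homogeneous component of degree `d` -/
def comp (d : ℕ) : FA R A →ₗ[R] FA R A where
  toFun v := (gam v).coeff d
  map_add' x y := by rw [map_add, coeff_add]
  map_smul' c x := by rw [map_smul, coeff_smul]; rfl

lemma comp_apply (d : ℕ) (v : FA R A) : comp d v = (gam v).coeff d := rfl

lemma comp_wd (d : ℕ) (w : List A) : comp d (wd R w) = if w.length = d then wd R w else 0 := by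
  rw [comp_apply, gam_wd, coeff_C_mul, coeff_X_pow]
  by_cases h : w.length = d
  · rw [if_pos h, if_pos h.symm, mul_one]
  · rw [if_neg h, if_neg (fun e => h e.symm), mul_zero]

lemma comp_letter_mul (d : ℕ) (a : A) (v : FA R A) :
    comp (d + 1) (letter R a * v) = letter R a * comp d v := by
  rw [comp_apply, map_mul, gam_letter, mul_assoc, coeff_C_mul, coeff_X_mul]
  rfl

lemma comp_letter_mul_zero (a : A) (v : FA R A) : comp 0 (letter R a * v) = 0 := by
  rw [comp_apply, map_mul, gam_letter, mul_assoc, coeff_C_mul, coeff_X_mul_zero, mul_zero]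

lemma comp_mul_letter (d : ℕ) (a : A) (v : FA R A) :
    comp (d + 1) (v * letter R a) = comp d v * letter R a := by
  rw [comp_apply, map_mul, gam_letter, ← mul_assoc, coeff_mul_X, coeff_mul_C]
  rfl

lemma comp_mul_letter_zero (a : A) (v : FA R A) : comp 0 (v * letter R a) = 0 := by
  rw [comp_apply, map_mul, gam_letter, ← mul_assoc, coeff_mul_X_zero]

/-- `v - v_d ∈ J_{d+1}` for `v ∈ J_d` -/
lemma sub_comp_mem {d : ℕ} {v : FA R A} (hv : v ∈ J R A d) : v - comp d v ∈ J R A (d + 1) := by
  refine J_ind (P := fun v => v - comp d v ∈ J R A (d + 1)) (fun w hw => ?_) ?_ ?_ ?_ hv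
  · rw [comp_wd]
    by_cases h : w.length = d
    · rw [if_pos h, sub_self]; exact Submodule.zero_mem _
    · rw [if_neg h, sub_zero]; exact wd_mem_J (by omega)
  · simp
  · intro X Y hX hY
    rw [map_add, add_sub_add_comm]
    exact Submodule.add_mem _ hX hY
  · intro c X hX
    rw [map_smul, ← smul_sub]
    exact Submodule.smul_mem _ c hX

lemma comp_eq_zero {d e : ℕ} (h : d < e) {v : FA R A} (hv : v ∈ J R A e) : comp d v = 0 := by
  refine J_ind (P := fun v => comp d v = 0) (fun w hw => ?_) ?_ ?_ ?_ hv
  · rw [comp_wd, if_neg (by omega)]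
  · exact map_zero _
  · intro X Y hX hY
    rw [map_add, hX, hY, add_zero]
  · intro c X hX
    rw [map_smul, hX, smul_zero]

/-- values of words at elements of a nilpotent subalgebra -/
lemma ev_wd {E : Type} [Ring E] [Algebra R E] (f : A → E) (w : List A) :
    EVn f (wd R w) = (w.map f).prod := by
  induction w with
  | nil => simp
  | cons a w ih => rw [wd_cons, map_mul, EVn_letter, ih, List.map_cons, List.prod_cons]

end Fil

section Nilp

variable {R : Type} [CommRing R] {E : Type} [Ring E] [Algebra R E] {N : ℕ} {I : Submodule R E}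

lemma pn_zero_of_le (h : IsNilp N I) (l : List E) (hl : ∀ x ∈ l, x ∈ I) (hN : N ≤ l.length) :
    l.prod = 0 := by
  rw [← List.take_append_drop N l, List.prod_append,
    h.prod_zero (l.take N) (fun x hx => hl x (List.mem_of_mem_take hx)) (by simp [hN]), zero_mul]

lemma pn_mono (h : IsNilp N I) {N' : ℕ} (hN : N ≤ N') : IsNilp N' I :=
  ⟨h.mul_mem, fun l hl hl' => pn_zero_of_le h l hl (by omega)⟩

lemma pn_prod_mem (h : IsNilp N I) (l : List E) (hl : ∀ x ∈ l, x ∈ I) (hne : l ≠ []) :
    l.prod ∈ I := by
  induction l with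
  | nil => exact absurd rfl hne
  | cons x l ih =>
    rw [List.prod_cons]
    by_cases h0 : l = []
    · subst h0; simpa using hl x List.mem_cons_self
    · exact h.mul_mem _ (hl x List.mem_cons_self) _
        (ih (fun y hy => hl y (List.mem_cons_of_mem _ hy)) h0)

lemma pn_pow_zero (h : IsNilp N I) {a : E} (ha : a ∈ I) : a ^ N = 0 := by
  rw [← List.prod_replicate]
  exact h.prod_zero _ (fun x hx => by rw [List.eq_of_mem_replicate hx]; exact ha) (by simp)

end Nilp

section Ev

variable {R : Type} [CommRing R] {A : Type} {E : Type} [Ring E] [Algebra R E] {N : ℕ} {I : Submodule R E}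

lemma ev_J_zero (h : IsNilp N I) {f : A → E} (hf : ∀ a, f a ∈ I) {d : ℕ} (hd : N ≤ d)
    {v : FA R A} (hv : v ∈ J R A d) : EVn f v = 0 := by
  refine J_ind (P := fun v => EVn f v = 0) (fun w hw => ?_) ?_ ?_ ?_ hv
  · rw [ev_wd]
    apply pn_zero_of_le h
    · intro x hx
      obtain ⟨a, _, rfl⟩ := List.mem_map.1 hx
      exact hf a
    · rw [List.length_map]; omega
  · exact map_zero _
  · intro X Y hX hY
    rw [map_add, hX, hY, add_zero]
  · intro c X hX
    rw [map_smul, hX, smul_zero]

lemma ev_J_mem (h : IsNilp N I) {f : A → E} (hf : ∀ a, f a ∈ I) {v : FA R A} (hv : v ∈ J R A 1) :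
    EVn f v ∈ I := by
  refine J_ind (P := fun v => EVn f v ∈ I) (fun w hw => ?_) ?_ ?_ ?_ hv
  · rw [ev_wd]
    apply pn_prod_mem h
    · intro x hx
      obtain ⟨a, _, rfl⟩ := List.mem_map.1 hx
      exact hf a
    · intro h
      have := congrArg List.length h
      rw [List.length_map, List.length_nil] at this
      omega
  · rw [map_zero]; exact Submodule.zero_mem _
  · intro X Y hX hY
    rw [map_add]; exact Submodule.add_mem _ hX hY
  · intro c X hX
    rw [map_smul]; exact Submodule.smul_mem _ c hX

end Ev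

section Tilde

variable {R : Type} [CommRing R] {A : Type}

/-- a substitution `a ↦ a + (terms of order ≥ 2)` is the identity on the leading terms -/
lemma tilde_sub {j : A → FA R A} (hj : ∀ a, j a ∈ J R A 2) {d : ℕ} {v : FA R A} (hv : v ∈ J R A d) :
    EVn (fun a => letter R a + j a) v - v ∈ J R A (d + 1) := by
  have key : ∀ w : List A, EVn (fun a => letter R a + j a) (wd R w) - wd R w ∈ J R A (w.length + 1) := by
    intro w
    induction w with
    | nil => simp
    | cons a w ih =>
      rw [wd_cons, map_mul, EVn_letter, List.length_cons]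
      set X := EVn (fun a => letter R a + j a) (wd R w) with hX
      have h1 : X ∈ J R A w.length := by
        have := Submodule.add_mem _ (J_anti (Nat.le_succ _) ih) (wd_mem_J (le_refl w.length))
        rwa [sub_add_cancel] at this
      have e : (letter R a + j a) * X - letter R a * wd R w =
          j a * X + letter R a * (X - wd R w) := by
        rw [add_mul, mul_sub]; abel
      rw [e]
      exact Submodule.add_mem _ (J_mul' (hj a) h1 (by omega)) (J_mul' (letter_mem a) ih (by omega))
  refine J_ind (P := fun v => EVn (fun a => letter R a + j a) v - v ∈ J R A (d + 1))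
    (fun w hw => J_anti (by omega) (key w)) ?_ ?_ ?_ hv
  · simp
  · intro X Y hX hY
    rw [map_add, add_sub_add_comm]
    exact Submodule.add_mem _ hX hY
  · intro c X hX
    rw [map_smul, ← smul_sub]
    exact Submodule.smul_mem _ c hX

end Tilde

/-! ### The ideal of the elements whose homogeneous components are leading terms of elements of a
given ideal -/

section LI

variable {R : Type} [CommRing R] {A : Type} {E : Type} [Ring E] [Algebra R E] (ψ : FA R A →ₐ[R] E)

/-- `v_d` is the leading term of an element of the kernel of `ψ` -/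
def LC (d : ℕ) (v : FA R A) : Prop := ∃ b : FA R A, ψ b = 0 ∧ v - b ∈ J R A (d + 1)

variable {ψ}

lemma LC.zero (d : ℕ) : LC ψ d 0 := ⟨0, map_zero _, by simp⟩

lemma LC.add {d : ℕ} {v w : FA R A} (hv : LC ψ d v) (hw : LC ψ d w) : LC ψ d (v + w) := by
  obtain ⟨b, h1, h2⟩ := hv
  obtain ⟨c, h3, h4⟩ := hw
  exact ⟨b + c, by rw [map_add, h1, h3, add_zero], by
    rw [add_sub_add_comm]; exact Submodule.add_mem _ h2 h4⟩

lemma LC.smul {d : ℕ} {v : FA R A} (c : R) (hv : LC ψ d v) : LC ψ d (c • v) := by
  obtain ⟨b, h1, h2⟩ := hv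
  exact ⟨c • b, by rw [map_smul, h1, smul_zero], by
    rw [← smul_sub]; exact Submodule.smul_mem _ c h2⟩

lemma LC.letter_mul {d : ℕ} {v : FA R A} (a : A) (hv : LC ψ d v) :
    LC ψ (d + 1) (letter R a * v) := by
  obtain ⟨b, h1, h2⟩ := hv
  exact ⟨letter R a * b, by rw [map_mul, h1, mul_zero], by
    rw [← mul_sub]; exact J_mul' (letter_mem a) h2 (by omega)⟩

lemma LC.mul_letter {d : ℕ} {v : FA R A} (a : A) (hv : LC ψ d v) :
    LC ψ (d + 1) (v * letter R a) := by
  obtain ⟨b, h1, h2⟩ := hv
  exact ⟨b * letter R a, by rw [map_mul, h1, zero_mul], by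
    rw [← sub_mul]; exact J_mul' h2 (letter_mem a) (by omega)⟩

variable (ψ) in
/-- all homogeneous components are leading terms of elements of the kernel of `ψ` -/
def LL' (v : FA R A) : Prop := ∀ d, LC ψ d (comp d v)

lemma LL'.letter_mul {v : FA R A} (a : A) (hv : LL' ψ v) : LL' ψ (letter R a * v) := by
  intro d
  cases d with
  | zero => rw [comp_letter_mul_zero]; exact LC.zero 0
  | succ d => rw [comp_letter_mul]; exact (hv d).letter_mul a

lemma LL'.mul_letter {v : FA R A} (a : A) (hv : LL' ψ v) : LL' ψ (v * letter R a) := by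
  intro d
  cases d with
  | zero => rw [comp_mul_letter_zero]; exact LC.zero 0
  | succ d => rw [comp_mul_letter]; exact (hv d).mul_letter a

lemma LL'.zero : LL' ψ (0 : FA R A) := by
  intro d
  rw [map_zero]
  exact LC.zero d

lemma LL'.add {v w : FA R A} (hv : LL' ψ v) (hw : LL' ψ w) : LL' ψ (v + w) := by
  intro d
  rw [map_add]
  exact (hv d).add (hw d)

lemma LL'.smul {v : FA R A} (c : R) (hv : LL' ψ v) : LL' ψ (c • v) := by
  intro d
  rw [map_smul]
  exact (hv d).smul c

lemma LL'.mul_left (x : FA R A) {v : FA R A} (hv : LL' ψ v) : LL' ψ (x * v) := by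
  induction x using FA_induction with
  | h1 => rwa [one_mul]
  | hmul a X ih => rw [mul_assoc]; exact ih.letter_mul a
  | hadd X Y hX hY => rw [add_mul]; exact hX.add hY
  | hsmul c X hX => rw [smul_mul_assoc]; exact hX.smul c

lemma LL'.mul_right (x : FA R A) {v : FA R A} (hv : LL' ψ v) : LL' ψ (v * x) := by
  induction x using FA_induction generalizing v with
  | h1 => rwa [mul_one]
  | hmul a X ih => rw [← mul_assoc]; exact ih (hv.mul_letter a)
  | hadd X Y hX hY => rw [mul_add]; exact (hX hv).add (hY hv)
  | hsmul c X hX => rw [mul_smul_comm]; exact (hX hv).smul c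

variable (ψ) in
/-- `LL'` as a two-sided ideal -/
def LI : TwoSidedIdeal (FA R A) :=
  TwoSidedIdeal.mk' {v | LL' ψ v} LL'.zero (fun h h' => LL'.add h h')
    (fun {x} h => by
      have := LL'.smul (-1) h
      rw [neg_one_smul] at this
      exact this)
    (fun {x y} h => LL'.mul_left x h) (fun {x y} h => LL'.mul_right y h)

lemma mem_LI {v : FA R A} : v ∈ LI ψ ↔ LL' ψ v := TwoSidedIdeal.mem_mk' _ _ _ _ _ _ _

/-- homogeneous elements -/
lemma LL'_of_hom {v b : FA R A} {n : ℕ} (h : ∀ d, comp d v = if d = n then v else 0)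
    (hb : ψ b = 0) (hvb : v - b ∈ J R A (n + 1)) : LL' ψ v := by
  intro d
  rw [h d]
  by_cases hd : d = n
  · subst hd
    rw [if_pos rfl]
    exact ⟨b, hb, hvb⟩
  · rw [if_neg hd]
    exact LC.zero d

end LI

end MP446U.PN
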