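import Pool.Agent.Lib.MP_446dfa_ag.unc.UNI

set_option linter.all false

/-!
# The infinitesimal braid relations are the leading terms of relations between pure braids
-/

noncomputable section

namespace MP446U.PN

open MP446 MP446Y MP446Z MP446S MP446I

section Cmp

lemma comp_gn_mul (i j : Fin 4) (d : ℕ) (v : FA ℚ Pr) : comp (d + 1) (gn ℚ i j * v) = gn ℚ i j * comp d v := by
  unfold gn
  split_ifs
  · exact comp_letter_mul _ _ _
  · exact comp_letter_mul _ _ _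
  · simp

lemma comp_gn_mul_zero (i j : Fin 4) (v : FA ℚ Pr) : comp 0 (gn ℚ i j * v) = 0 := by
  unfold gn
  split_ifs
  · exact comp_letter_mul_zero _ _
  · exact comp_letter_mul_zero _ _
  · simp

lemma comp_one (d : ℕ) : comp d (1 : FA ℚ Pr) = if d = 0 then 1 else 0 := by
  rw [← wd_nil, comp_wd]
  by_cases h : d = 0
  · subst h; simp
  · rw [if_neg h, if_neg (by simpa using Ne.symm h)]

lemma comp_gn2 (i j k l : Fin 4) (d : ℕ) :
    comp d (gn ℚ i j * gn ℚ k l) = if d = 2 then gn ℚ i j * gn ℚ k l else 0 := by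
  cases d with
  | zero => rw [comp_gn_mul_zero]; rfl
  | succ d =>
    rw [comp_gn_mul]
    cases d with
    | zero =>
      have : comp 0 (gn ℚ k l) = 0 := by
        have := comp_gn_mul_zero k l 1
        rwa [mul_one] at this
      rw [this]; simp
    | succ d =>
      have : comp (d + 1) (gn ℚ k l) = gn ℚ k l * comp d 1 := by
        have := comp_gn_mul k l d 1
        rwa [mul_one] at this
      rw [this, comp_one]
      by_cases h : d = 0
      · subst h; simp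
      · rw [if_neg h, if_neg (by omega)]; simp

end Cmp

/-! ### The relations are leading terms of relations between pure braids -/

section Lead

variable {E : Type} [Ring E] [Algebra ℚ E] {N : ℕ} {I : Submodule ℚ E}

/-- the homomorphism `T_{ij} ↦ y_{ij} - 1` -/
def psi (y : Fin 4 → Fin 4 → Eˣ) : FA ℚ Pr →ₐ[ℚ] E :=
  EVn (fun a => if a.1 < a.2 then (y a.1 a.2 : E) - 1 else 0)

variable {y : Fin 4 → Fin 4 → Eˣ}

lemma psi_letter (a : Pr) : psi y (letter ℚ a) = if a.1 < a.2 then (y a.1 a.2 : E) - 1 else 0 :=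
  EVn_letter _ _

lemma psi_gn {i j : Fin 4} (h : i < j) : psi y (gn ℚ i j) = (y i j : E) - 1 := by
  rw [gn_lt h, psi_letter, if_pos h]

/-- `1 + T_{ij}` -/
def YY (i j : Fin 4) : FA ℚ Pr := 1 + gn ℚ i j

lemma psi_YY {i j : Fin 4} (h : i < j) : psi y (YY i j) = (y i j : E) := by
  unfold YY
  rw [map_add, map_one, psi_gn h]
  abel

/-- truncated inverse of `1 + T_{ij}` -/
def ZZ' (N : ℕ) (i j : Fin 4) : FA ℚ Pr := ∑ k ∈ Finset.range N, (-gn ℚ i j) ^ k

lemma psi_ZZ (hI : IsNilp N I) {i j : Fin 4} (h : i < j) (hy : (y i j : E) - 1 ∈ I) :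
    psi y (ZZ' N i j) = ((y i j)⁻¹ : Eˣ) := by
  have h1 : psi y (ZZ' N i j) * (y i j : E) = 1 := by
    rw [← psi_YY h, ← map_mul]
    have : ZZ' N i j * YY i j = 1 - (-gn ℚ i j) ^ N := by
      have := geom_sum_mul_neg (-gn ℚ i j) N
      rw [← this]
      unfold YY ZZ'
      rw [sub_neg_eq_add]
    rw [this, map_sub, map_one, map_pow, map_neg, psi_gn h,
      pn_pow_zero hI (Submodule.neg_mem _ hy), sub_zero]
  rw [← mul_one (psi y (ZZ' N i j)), ← Units.mul_inv (y i j), ← mul_assoc, h1, one_mul]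

lemma pow_mem_J (i j : Fin 4) (k : ℕ) : (-gn ℚ i j) ^ k ∈ J ℚ Pr k := by
  induction k with
  | zero => exact J_zero _
  | succ k ih =>
    rw [pow_succ]
    exact J_mul' ih (Submodule.neg_mem _ (gn_mem i j)) le_rfl

lemma ZZ_sub_one (hN : 2 ≤ N) (i j : Fin 4) : ZZ' N i j - 1 ∈ J ℚ Pr 1 := by
  unfold ZZ'
  obtain ⟨M, rfl⟩ : ∃ M, N = M + 1 := ⟨N - 1, by omega⟩
  rw [Finset.sum_range_succ', pow_zero, add_sub_cancel_right]
  exact Submodule.sum_mem _ (fun k _ => J_anti (by omega) (pow_mem_J i j (k + 1)))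

lemma YY_mul_ZZ (i j : Fin 4) : YY i j * ZZ' N i j = 1 - (-gn ℚ i j) ^ N := by
  have := mul_neg_geom_sum (-gn ℚ i j) N
  rw [← this]
  unfold YY ZZ'
  rw [sub_neg_eq_add]

/-- first kind of relations -/
lemma LL_comm (i j k l : Fin 4) (hij : i < j) (hkl : k < l) (h : Commute (y i j) (y k l)) :
    LL' (psi y) (gn ℚ i j * gn ℚ k l - gn ℚ k l * gn ℚ i j) := by
  refine LL'_of_hom (n := 2) (b := gn ℚ i j * gn ℚ k l - gn ℚ k l * gn ℚ i j) ?_ ?_ ?_
  · intro d
    rw [map_sub, comp_gn2, comp_gn2]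
    split_ifs <;> simp
  · rw [map_sub, map_mul, map_mul, psi_gn hij, psi_gn hkl]
    have := congrArg (Units.val) h.eq
    rw [Units.val_mul, Units.val_mul] at this
    have e : ((y i j : E) - 1) * ((y k l : E) - 1) - ((y k l : E) - 1) * ((y i j : E) - 1) =
        (y i j : E) * y k l - y k l * y i j := by noncomm_ring
    rw [e, this, sub_self]
  · rw [sub_self]; exact Submodule.zero_mem _

lemma LL_cross (hI : IsNilp N I) (hN : 2 ≤ N) (hy : PureBraid y)
    (hyI : ∀ i j, i < j → (y i j : E) - 1 ∈ I) :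
    LL' (psi y) (gn ℚ 0 2 * gn ℚ 1 3 - gn ℚ 1 3 * gn ℚ 0 2) := by
  have h01 : (0 : Fin 4) < 1 := by decide
  have h02 : (0 : Fin 4) < 2 := by decide
  have h13 : (1 : Fin 4) < 3 := by decide
  set w : FA ℚ Pr := YY 0 1 * YY 0 2 * ZZ' N 0 1 with hw
  refine LL'_of_hom (n := 2) (b := w * gn ℚ 1 3 - gn ℚ 1 3 * w) ?_ ?_ ?_
  · intro d
    rw [map_sub, comp_gn2, comp_gn2]
    split_ifs <;> simp
  · have e0 : psi y w = ((y 0 1 * y 0 2 * (y 0 1)⁻¹ : Eˣ) : E) := by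
      rw [hw, map_mul, map_mul, psi_YY h01, psi_YY h02, psi_ZZ hI h01 (hyI 0 1 h01)]
      rfl
    rw [map_sub, map_mul (psi y) w, map_mul (psi y) (gn ℚ 1 3) w, e0, psi_gn h13]
    have h1 : Commute (y 0 1 * y 0 2 * (y 0 1)⁻¹) (y 1 3) := by
      have h2 := hy.cross
      have h3 : y 1 3 = y 0 1 * ((y 0 1)⁻¹ * y 1 3 * y 0 1) * (y 0 1)⁻¹ := by group
      rw [h3]
      have h4 := h2.conj (y 0 1)
      exact h4
    have := congrArg (Units.val) h1.eq
    rw [Units.val_mul _ (y 1 3), Units.val_mul (y 1 3)] at this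
    rw [mul_sub, sub_mul, this, one_mul, mul_one, sub_self]
  · have e : w = 1 + gn ℚ 0 2 + (gn ℚ 0 1 * gn ℚ 0 2 * ZZ' N 0 1 + gn ℚ 0 2 * (ZZ' N 0 1 - 1) -
        (-gn ℚ 0 1) ^ N) := by
      have e1 := YY_mul_ZZ (N := N) 0 1
      have e2 : w = YY 0 1 * ZZ' N 0 1 + YY 0 1 * gn ℚ 0 2 * ZZ' N 0 1 := by
        rw [hw]
        conv_lhs => rw [show YY 0 2 = 1 + gn ℚ 0 2 from rfl, mul_add, add_mul, mul_one]
      rw [e2, e1]
      unfold YY
      rw [add_mul, add_mul, one_mul, mul_sub, mul_one]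
      abel
    set s : FA ℚ Pr := gn ℚ 0 1 * gn ℚ 0 2 * ZZ' N 0 1 + gn ℚ 0 2 * (ZZ' N 0 1 - 1) -
        (-gn ℚ 0 1) ^ N with hs
    have hs2 : s ∈ J ℚ Pr 2 := by
      rw [hs]
      refine Submodule.sub_mem _ (Submodule.add_mem _ ?_ ?_) ?_
      · exact J_mul' (J_mul' (gn_mem 0 1) (gn_mem 0 2) (le_refl 2)) (J_zero _) (by omega)
      · exact J_mul' (gn_mem 0 2) (ZZ_sub_one hN 0 1) (le_refl 2)
      · exact J_anti hN (pow_mem_J 0 1 N)
    rw [e]
    have e3 : gn ℚ 0 2 * gn ℚ 1 3 - gn ℚ 1 3 * gn ℚ 0 2 - ((1 + gn ℚ 0 2 + s) * gn ℚ 1 3 -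
        gn ℚ 1 3 * (1 + gn ℚ 0 2 + s)) = gn ℚ 1 3 * s - s * gn ℚ 1 3 := by
      noncomm_ring
    rw [e3]
    exact Submodule.sub_mem _ (J_mul' (gn_mem 1 3) hs2 (by omega))
      (J_mul' hs2 (gn_mem 1 3) (by omega))

/-- second kind of relations -/
lemma LL_tri (a b c : Fin 4) (hab : a < b) (hbc : b < c) (hy : PureBraid y) :
    LL' (psi y) ((gn ℚ a c + gn ℚ b c) * gn ℚ a b - gn ℚ a b * (gn ℚ a c + gn ℚ b c)) ∧
    LL' (psi y) ((gn ℚ a b + gn ℚ b c) * gn ℚ a c - gn ℚ a c * (gn ℚ a b + gn ℚ b c)) ∧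
    LL' (psi y) ((gn ℚ a b + gn ℚ a c) * gn ℚ b c - gn ℚ b c * (gn ℚ a b + gn ℚ a c)) := by
  have hac := hab.trans hbc
  set p : FA ℚ Pr := YY a b * YY a c * YY b c with hp
  set s : FA ℚ Pr := gn ℚ a b * gn ℚ a c + gn ℚ a b * gn ℚ b c + gn ℚ a c * gn ℚ b c +
    gn ℚ a b * gn ℚ a c * gn ℚ b c with hs
  have e : p = 1 + (gn ℚ a b + gn ℚ a c + gn ℚ b c) + s := by
    rw [hp, hs]
    unfold YY
    noncomm_ring
  have hs2 : s ∈ J ℚ Pr 2 := by
    rw [hs]
    refine Submodule.add_mem _ (Submodule.add_mem _ (Submodule.add_mem _ ?_ ?_) ?_) ?_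
    · exact J_mul' (gn_mem _ _) (gn_mem _ _) (le_refl 2)
    · exact J_mul' (gn_mem _ _) (gn_mem _ _) (le_refl 2)
    · exact J_mul' (gn_mem _ _) (gn_mem _ _) (le_refl 2)
    · exact J_mul' (J_mul' (gn_mem _ _) (gn_mem _ _) (le_refl 2)) (gn_mem _ _) (by omega)
  have key : ∀ (i j : Fin 4), i < j → Commute (y a b * y a c * y b c) (y i j) →
      LL' (psi y) ((gn ℚ a b + gn ℚ a c + gn ℚ b c) * gn ℚ i j - gn ℚ i j * (gn ℚ a b + gn ℚ a c + gn ℚ b c)) := by
    intro i j hij h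
    refine LL'_of_hom (n := 2) (b := p * gn ℚ i j - gn ℚ i j * p) ?_ ?_ ?_
    · intro d
      simp only [add_mul, mul_add, map_sub, map_add, comp_gn2]
      split_ifs <;> simp
    · have e0 : psi y p = ((y a b * y a c * y b c : Eˣ) : E) := by
        rw [hp, map_mul, map_mul, psi_YY hab, psi_YY hac, psi_YY hbc]
        rfl
      rw [map_sub, map_mul (psi y) p, map_mul (psi y) (gn ℚ i j) p, e0, psi_gn hij]
      have := congrArg (Units.val) h.eq
      rw [Units.val_mul _ (y i j), Units.val_mul (y i j)] at this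
      rw [mul_sub, sub_mul, this, one_mul, mul_one, sub_self]
    · rw [e]
      have e3 : (gn ℚ a b + gn ℚ a c + gn ℚ b c) * gn ℚ i j - gn ℚ i j * (gn ℚ a b + gn ℚ a c + gn ℚ b c) -
          ((1 + (gn ℚ a b + gn ℚ a c + gn ℚ b c) + s) * gn ℚ i j -
          gn ℚ i j * (1 + (gn ℚ a b + gn ℚ a c + gn ℚ b c) + s)) = gn ℚ i j * s - s * gn ℚ i j := by
        noncomm_ring
      rw [e3]
      exact Submodule.sub_mem _ (J_mul' (gn_mem i j) hs2 (by omega))
        (J_mul' hs2 (gn_mem i j) (by omega))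
  obtain ⟨h1, h2, h3⟩ := hy.tri a b c hab hbc
  refine ⟨?_, ?_, ?_⟩
  · have := key a b hab h1
    rwa [show (gn ℚ a b + gn ℚ a c + gn ℚ b c) * gn ℚ a b - gn ℚ a b * (gn ℚ a b + gn ℚ a c + gn ℚ b c) =
      (gn ℚ a c + gn ℚ b c) * gn ℚ a b - gn ℚ a b * (gn ℚ a c + gn ℚ b c) by noncomm_ring] at this
  · have := key a c hac h2
    rwa [show (gn ℚ a b + gn ℚ a c + gn ℚ b c) * gn ℚ a c - gn ℚ a c * (gn ℚ a b + gn ℚ a c + gn ℚ b c) =
      (gn ℚ a b + gn ℚ b c) * gn ℚ a c - gn ℚ a c * (gn ℚ a b + gn ℚ b c) by noncomm_ring] at this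
  · have := key b c hbc h3
    rwa [show (gn ℚ a b + gn ℚ a c + gn ℚ b c) * gn ℚ b c - gn ℚ b c * (gn ℚ a b + gn ℚ a c + gn ℚ b c) =
      (gn ℚ a b + gn ℚ a c) * gn ℚ b c - gn ℚ b c * (gn ℚ a b + gn ℚ a c) by noncomm_ring] at this

lemma LL'.neg {v : FA ℚ Pr} (hv : LL' (psi y) v) : LL' (psi y) (-v) := by
  have := LL'.smul (-1) hv
  rwa [neg_one_smul] at this

lemma LL_comm_swap {v w : FA ℚ Pr} (h : LL' (psi y) (v * w - w * v)) :
    LL' (psi y) (w * v - v * w) := by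
  have := LL'.neg h
  rwa [neg_sub] at this

set_option maxRecDepth 20000 in
lemma six : ∀ p : Fin 4 × Fin 4 × Fin 4 × Fin 4,
    (p.1 < p.2.1 ∧ p.2.2.1 < p.2.2.2 ∧ p.1 ≠ p.2.2.1 ∧ p.1 ≠ p.2.2.2 ∧ p.2.1 ≠ p.2.2.1 ∧
      p.2.1 ≠ p.2.2.2) →
    (p = (0, 1, 2, 3) ∨ p = (0, 3, 1, 2) ∨ p = (0, 2, 1, 3) ∨ p = (2, 3, 0, 1) ∨
      p = (1, 2, 0, 3) ∨ p = (1, 3, 0, 2)) := by decide

/-- all relations -/
lemma LL_Rels (hI : IsNilp N I) (hN : 2 ≤ N) (hy : PureBraid y)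
    (hyI : ∀ i j, i < j → (y i j : E) - 1 ∈ I) {v : FA ℚ Pr} (hv : v ∈ Rels ℚ N) :
    LL' (psi y) v := by
  rcases hv with ⟨w, hw, rfl⟩ | ⟨a, ha, rfl⟩ | ⟨i, j, k, l, h1, h2, h3, h4, h5, h6, rfl⟩ |
    ⟨i, j, k, h1, h2, h3, rfl⟩
  · refine LL'_of_hom (n := w.length) (b := wd ℚ w) ?_ ?_ ?_
    · intro d
      rw [comp_wd]
      by_cases h : w.length = d
      · rw [if_pos h, if_pos h.symm]
      · rw [if_neg h, if_neg (fun e => h e.symm)]
    · refine ev_J_zero hI (f := fun a : Pr => if a.1 < a.2 then (y a.1 a.2 : E) - 1 else 0)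
        (fun a => ?_) hw (wd_mem_J le_rfl)
      split_ifs with h
      · exact hyI _ _ h
      · exact Submodule.zero_mem _
    · rw [sub_self]; exact Submodule.zero_mem _
  · refine LL'_of_hom (n := 1) (b := letter ℚ a) ?_ ?_ ?_
    · intro d
      have : letter ℚ a = wd ℚ [a] := by rw [wd_cons, wd_nil, mul_one]
      rw [this, comp_wd]
      by_cases h : d = 1
      · subst h; simp
      · rw [if_neg (by simpa using Ne.symm h), if_neg h]
    · rw [psi_letter, if_neg ha]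
    · rw [sub_self]; exact Submodule.zero_mem _
  · -- disjoint pairs
    have c1 : LL' (psi y) (gn ℚ 0 1 * gn ℚ 2 3 - gn ℚ 2 3 * gn ℚ 0 1) :=
      LL_comm 0 1 2 3 (by decide) (by decide) hy.far.1
    have c2 : LL' (psi y) (gn ℚ 0 3 * gn ℚ 1 2 - gn ℚ 1 2 * gn ℚ 0 3) :=
      LL_comm 0 3 1 2 (by decide) (by decide) hy.far.2
    have c3 : LL' (psi y) (gn ℚ 0 2 * gn ℚ 1 3 - gn ℚ 1 3 * gn ℚ 0 2) := LL_cross hI hN hy hyI
    have key : ∀ i j k l : Fin 4, i < j → k < l → i ≠ k → i ≠ l → j ≠ k → j ≠ l →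
        LL' (psi y) (gn ℚ i j * gn ℚ k l - gn ℚ k l * gn ℚ i j) := by
      intro i j k l h1 h2 h3 h4 h5 h6
      have h := six (i, j, k, l) ⟨h1, h2, h3, h4, h5, h6⟩
      simp only [Prod.mk.injEq] at h
      rcases h with ⟨rfl, rfl, rfl, rfl⟩ | ⟨rfl, rfl, rfl, rfl⟩ |
        ⟨rfl, rfl, rfl, rfl⟩ | ⟨rfl, rfl, rfl, rfl⟩ | ⟨rfl, rfl, rfl, rfl⟩ | ⟨rfl, rfl, rfl, rfl⟩
      · exact c1
      · exact c2
      · exact c3
      · exact LL_comm_swap c1
      · exact LL_comm_swap c2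
      · exact LL_comm_swap c3
    rcases lt_or_gt_of_ne h1 with hij | hij
    · rcases lt_or_gt_of_ne h6 with hkl | hkl
      · exact key i j k l hij hkl h2 h3 h4 h5
      · rw [gn_symm k l]
        exact key i j l k hij hkl h3 h2 h5 h4
    · rw [gn_symm i j]
      rcases lt_or_gt_of_ne h6 with hkl | hkl
      · exact key j i k l hij hkl h4 h5 h2 h3
      · rw [gn_symm k l]
        exact key j i l k hij hkl h5 h4 h3 h2
  · rcases lt_or_gt_of_ne h1 with hij | hij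
    · rcases lt_or_gt_of_ne h3 with hjk | hjk
      · exact LL_comm_swap (LL_tri i j k hij hjk hy).1
      · rcases lt_or_gt_of_ne h2 with hik | hik
        · -- i < k < j
          have := LL_comm_swap (LL_tri i k j hik hjk hy).2.1
          rwa [gn_symm k j] at this
        · -- k < i < j
          have := LL_comm_swap (LL_tri k i j hik hij hy).2.2
          rwa [gn_symm k i, gn_symm k j] at this
    · -- j < i
      rcases lt_or_gt_of_ne h3 with hjk | hjk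
      · rcases lt_or_gt_of_ne h2 with hik | hik
        · -- j < i < k
          have := LL_comm_swap (LL_tri j i k hij hik hy).1
          rwa [gn_symm j i, add_comm] at this
        · -- j < k < i
          have := LL_comm_swap (LL_tri j k i hjk hik hy).2.1
          rwa [gn_symm j i, gn_symm k i, add_comm] at this
      · -- k < j < i
        have := LL_comm_swap (LL_tri k j i hjk hij hy).2.2
        rwa [gn_symm k j, gn_symm k i, gn_symm j i, add_comm] at this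

/-- the relations are leading terms -/
lemma RI_le (hI : IsNilp N I) (hN : 2 ≤ N) (hy : PureBraid y)
    (hyI : ∀ i j, i < j → (y i j : E) - 1 ∈ I) {v : FA ℚ Pr} (hv : v ∈ RI ℚ N) :
    LL' (psi y) v := by
  have : RI ℚ N ≤ LI (psi y) := by
    unfold RI
    rw [TwoSidedIdeal.span_le]
    intro v hv
    exact mem_LI.2 (LL_Rels hI hN hy hyI hv)
  exact mem_LI.1 (this hv)

end Lead

end MP446U.PN
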