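import Pool.Agent.Lib.MP_446dfa_ag.unc.PunB

set_option linter.all false

/-!
# Every family of pure braids in `1 + I` comes from a family of infinitesimal braids
-/

noncomputable section

namespace MP446U.PN

open MP446 MP446Y MP446Z MP446S MP446I

section Val

variable {R : Type} [CommRing R] {E : Type} [Ring E] [Algebra R E] {N : ℕ} {I : Submodule R E}

lemma pn_mem {a b : E} (ha : a ∈ I) (hb : b ∈ I) (w : List (Fin 2)) :
    ∀ x ∈ w.map ![a, b], x ∈ I := by
  intro x hx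
  obtain ⟨i, _, rfl⟩ := List.mem_map.1 hx
  fin_cases i
  · exact ha
  · exact hb

lemma pn_val_eq (h : IsNilp N I) (f : List (Fin 2) → R) {a b : E} (ha : a ∈ I) (hb : b ∈ I) :
    val f a b = ∑ w ∈ wl N, f w • (w.map ![a, b]).prod := by
  unfold val
  apply finsum_eq_sum_of_support_subset
  intro w hw
  rw [Finset.mem_coe, mem_wl]
  by_contra hlt
  apply hw
  change f w • (w.map ![a, b]).prod = 0
  rw [pn_zero_of_le h _ (pn_mem ha hb w) (by rw [List.length_map]; omega), smul_zero]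

lemma pn_val_map {F : Type} [Ring F] [Algebra R F] (h : IsNilp N I) (f : List (Fin 2) → R)
    {a b : E} (ha : a ∈ I) (hb : b ∈ I) (g : E →ₐ[R] F) :
    val f (g a) (g b) = g (val f a b) := by
  have hw : ∀ w : List (Fin 2), (w.map ![g a, g b]).prod = g (w.map ![a, b]).prod := by
    intro w
    rw [map_list_prod, List.map_map]
    congr 1
    apply List.map_congr_left
    intro i _
    fin_cases i <;> rfl
  rw [pn_val_eq h f ha hb, map_sum]
  unfold val
  rw [finsum_eq_sum_of_support_subset (s := wl N)]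
  · exact Finset.sum_congr rfl (fun w _ => by rw [hw, map_smul])
  · intro w hw'
    rw [Finset.mem_coe, mem_wl]
    by_contra hlt
    apply hw'
    change f w • (w.map ![g a, g b]).prod = 0
    rw [hw, pn_zero_of_le h _ (pn_mem ha hb w) (by rw [List.length_map]; omega), map_zero,
      smul_zero]

lemma pn_val_sub_one (h : IsNilp N I) (hN : 1 ≤ N) {f : List (Fin 2) → R} (h1 : f [] = 1) {a b : E}
    (ha : a ∈ I) (hb : b ∈ I) : val f a b - 1 ∈ I := by
  rw [pn_val_eq h f ha hb, ← Finset.insert_erase (s := wl N) (a := [])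
    (by rw [mem_wl, List.length_nil]; omega),
    Finset.sum_insert (Finset.notMem_erase _ _), h1]
  simp only [List.map_nil, List.prod_nil, one_smul, add_sub_cancel_left]
  apply Submodule.sum_mem
  intro w hw
  apply Submodule.smul_mem
  apply pn_prod_mem h _ (pn_mem ha hb w)
  intro h0
  exact (Finset.mem_erase.1 hw).1 (List.map_eq_nil_iff.1 h0)

variable [Algebra ℚ R]

lemma pn_exp_eq (h : IsNilp N I) {x : E} (hx : x ∈ I) :
    expU R x = ∑ k ∈ Finset.range N, ec R k • x ^ k := by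
  unfold expU
  apply finsum_eq_sum_of_support_subset
  intro k hk
  rw [Finset.mem_coe, Finset.mem_range]
  by_contra hlt
  apply hk
  change ec R k • x ^ k = 0
  rw [← Nat.sub_add_cancel (not_lt.1 hlt), pow_add, pn_pow_zero h hx, mul_zero, smul_zero]

lemma pn_exp_map {F : Type} [Ring F] [Algebra R F] (h : IsNilp N I) {x : E} (hx : x ∈ I)
    (g : E →ₐ[R] F) : expU R (g x) = g (expU R x) := by
  rw [pn_exp_eq h hx, map_sum]
  unfold expU
  rw [finsum_eq_sum_of_support_subset (s := Finset.range N)]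
  · exact Finset.sum_congr rfl (fun k _ => by rw [map_smul, map_pow])
  · intro k hk
    rw [Finset.mem_coe, Finset.mem_range]
    by_contra hlt
    apply hk
    change ec R k • (g x) ^ k = 0
    rw [← map_pow, ← Nat.sub_add_cancel (not_lt.1 hlt), pow_add, pn_pow_zero h hx, mul_zero,
      map_zero, smul_zero]

end Val

section XTmap

variable {R : Type} [CommRing R] [Algebra ℚ R] {E F : Type} [Ring E] [Algebra R E] [Ring F]
  [Algebra R F] {N : ℕ} {I : Submodule R E}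

lemma XT.map {φ : List (Fin 2) → R} {x : Fin 4 → Fin 4 → Eˣ} {t : Fin 4 → Fin 4 → E}
    (h : XT φ x t) (hI : IsNilp N I) (ht : ∀ i j, t i j ∈ I) (g : E →ₐ[R] F)
    {y : Fin 4 → Fin 4 → Fˣ} (hy : ∀ i j, i < j → (y i j : F) = g (x i j : E)) :
    XT φ y (fun i j => g (t i j)) := by
  have y01 := hy 0 1 (by decide)
  have y02 := hy 0 2 (by decide)
  have y03 := hy 0 3 (by decide)
  have y12 := hy 1 2 (by decide)
  have y13 := hy 1 3 (by decide)
  have y23 := hy 2 3 (by decide)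
  have hs : ∀ i j k l, t i j + t k l ∈ I := fun i j k l => Submodule.add_mem _ (ht _ _) (ht _ _)
  constructor
  · have := congrArg g h.e01
    simpa only [map_mul, ← map_add, y01, pn_val_map hI φ (ht 0 1) (hs 1 2 1 3),
      pn_exp_map hI (ht 0 1)] using this
  · have := congrArg g h.e12
    simpa only [map_mul, ← map_add, y12, pn_val_map hI φ (ht 1 2) (ht 2 3),
      pn_exp_map hI (ht 1 2)] using this
  · have := congrArg g h.e23
    simpa only [map_mul, ← map_add, y23, pn_exp_map hI (ht 2 3)] using this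
  · have := congrArg g h.e123
    simpa only [map_mul, ← map_add, y12, y13, pn_exp_map hI (hs 1 2 1 3)] using this
  · have := congrArg g h.e0212
    simpa only [map_mul, ← map_add, y02, y12, pn_val_map hI φ (ht 0 1) (hs 1 2 1 3),
      pn_val_map hI φ (hs 0 2 1 2) (ht 2 3), pn_exp_map hI (hs 0 2 1 2)] using this
  · have := congrArg g h.e0102
    simpa only [map_mul, ← map_add, y01, y02, pn_val_map hI φ (ht 1 2) (ht 2 3),
      pn_val_map hI φ (hs 0 1 0 2) (hs 1 3 2 3), pn_exp_map hI (hs 0 1 0 2)] using this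
  · have := congrArg g h.e1323
    simpa only [map_mul, ← map_add, y13, y23, pn_val_map hI φ (ht 1 2) (ht 2 3),
      pn_exp_map hI (hs 1 3 2 3)] using this
  · have := congrArg g h.e0123
    simpa only [map_mul, ← map_add, y01, y02, y03,
      pn_exp_map hI (Submodule.add_mem _ (hs 0 1 0 2) (ht 0 3))] using this

end XTmap

section PB

lemma PureBraid.map' {G H : Type} [Group G] [Group H] {x : Fin 4 → Fin 4 → G} (h : PureBraid x)
    (f : G →* H) : PureBraid (fun i j => f (x i j)) where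
  tri := by
    intro i j k hij hjk
    obtain ⟨h1, h2, h3⟩ := h.tri i j k hij hjk
    refine ⟨?_, ?_, ?_⟩
    · have := h1.map f
      rwa [map_mul, map_mul] at this
    · have := h2.map f
      rwa [map_mul, map_mul] at this
    · have := h3.map f
      rwa [map_mul, map_mul] at this
  far := ⟨h.far.1.map f, h.far.2.map f⟩
  cross := by
    have := h.cross.map f
    rwa [map_mul, map_mul, map_inv] at this

lemma PureBraid.prod' {G H : Type} [Group G] [Group H] {x : Fin 4 → Fin 4 → G}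
    {y : Fin 4 → Fin 4 → H} (hx : PureBraid x) (hy : PureBraid y) :
    PureBraid (fun i j => (x i j, y i j) : Fin 4 → Fin 4 → G × H) where
  tri := fun i j k hij hjk =>
    ⟨(hx.tri i j k hij hjk).1.prod (hy.tri i j k hij hjk).1,
      (hx.tri i j k hij hjk).2.1.prod (hy.tri i j k hij hjk).2.1,
      (hx.tri i j k hij hjk).2.2.prod (hy.tri i j k hij hjk).2.2⟩
  far := ⟨hx.far.1.prod hy.far.1, hx.far.2.prod hy.far.2⟩
  cross := hx.cross.prod hy.cross

lemma nilp_prod {R : Type} [CommRing R] {E F : Type} [Ring E] [Algebra R E] [Ring F] [Algebra R F]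
    {N : ℕ} {I : Submodule R E} {K : Submodule R F} (hI : IsNilp N I) (hK : IsNilp N K) :
    IsNilp N (I.prod K) where
  mul_mem := fun x hx y hy => ⟨hI.mul_mem _ hx.1 _ hy.1, hK.mul_mem _ hx.2 _ hy.2⟩
  prod_zero := by
    intro l hl hN
    have h1 : (l.map Prod.fst).prod = 0 := hI.prod_zero _ (by
      intro x hx
      obtain ⟨p, hp, rfl⟩ := List.mem_map.1 hx
      exact (hl p hp).1) (by rw [List.length_map, hN])
    have h2 : (l.map Prod.snd).prod = 0 := hK.prod_zero _ (by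
      intro x hx
      obtain ⟨p, hp, rfl⟩ := List.mem_map.1 hx
      exact (hl p hp).2) (by rw [List.length_map, hN])
    have e1 : l.prod.1 = (l.map Prod.fst).prod := map_list_prod (RingHom.fst E F) l
    have e2 : l.prod.2 = (l.map Prod.snd).prod := map_list_prod (RingHom.snd E F) l
    exact Prod.ext (e1.trans h1) (e2.trans h2)

end PB

/-! ### The leading terms of the `x_{ij}` -/

section LT

variable {E : Type} [Ring E] [Algebra ℚ E] {N : ℕ} {I K : Submodule ℚ E}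

lemma cj_lem (hK : ∀ x ∈ I, ∀ y ∈ I, x * y ∈ K) {X P e : E} (hX : X - 1 ∈ I) (hP : P - 1 ∈ I)
    (he : e - 1 ∈ I) (h : X * P = P * e) : X - e ∈ K := by
  have h1 : X - e = (P - 1) * (e - 1) - (X - 1) * (P - 1) := by
    have : (P - 1) * (e - 1) - (X - 1) * (P - 1) = P * e - X * P + X - e := by noncomm_ring
    rw [this, h, sub_self, zero_add]
  rw [h1]
  exact Submodule.sub_mem _ (hK _ hP _ he) (hK _ hX _ hP)

lemma pr_mem (hI : IsNilp N I) {X Y : E} (hX : X - 1 ∈ I) (hY : Y - 1 ∈ I) : X * Y - 1 ∈ I := by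
  have : X * Y - 1 = (X - 1) * (Y - 1) + (X - 1) + (Y - 1) := by noncomm_ring
  rw [this]
  exact Submodule.add_mem _ (Submodule.add_mem _ (hI.mul_mem _ hX _ hY) hX) hY

lemma mul_lem (hK : ∀ x ∈ I, ∀ y ∈ I, x * y ∈ K) {X Y a b : E} (hX : X - 1 ∈ I) (hY : Y - 1 ∈ I)
    (h : X * Y - 1 - (a + b) ∈ K) (ha : X - 1 - a ∈ K) : Y - 1 - b ∈ K := by
  have : Y - 1 - b = (X * Y - 1 - (a + b)) - (X - 1 - a) - (X - 1) * (Y - 1) := by noncomm_ring
  rw [this]
  exact Submodule.sub_mem _ (Submodule.sub_mem _ h ha) (hK _ hX _ hY)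

lemma mul_lem' (hK : ∀ x ∈ I, ∀ y ∈ I, x * y ∈ K) {X Y a b : E} (hX : X - 1 ∈ I) (hY : Y - 1 ∈ I)
    (h : X * Y - 1 - (a + b) ∈ K) (hb : Y - 1 - b ∈ K) : X - 1 - a ∈ K := by
  have : X - 1 - a = (X * Y - 1 - (a + b)) - (Y - 1 - b) - (X - 1) * (Y - 1) := by noncomm_ring
  rw [this]
  exact Submodule.sub_mem _ (Submodule.sub_mem _ h hb) (hK _ hX _ hY)

lemma exp_lead (hI : IsNilp N I) (hN : 2 ≤ N) (hK : ∀ x ∈ I, ∀ y ∈ I, x * y ∈ K) {x : E}
    (hx : x ∈ I) : expU ℚ x - 1 - x ∈ K := by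
  obtain ⟨M, rfl⟩ : ∃ M, N = M + 1 + 1 := ⟨N - 2, by omega⟩
  rw [pn_exp_eq hI hx, Finset.sum_range_succ', Finset.sum_range_succ', pow_zero, zero_add, pow_one,
    ec_zero, ec_one, one_smul, one_smul, add_sub_cancel_right, add_sub_cancel_right]
  apply Submodule.sum_mem
  intro k _
  apply Submodule.smul_mem
  rw [pow_succ]
  apply hK _ _ _ hx
  rw [← List.prod_replicate]
  exact pn_prod_mem hI _ (fun y hy => by rw [List.eq_of_mem_replicate hy]; exact hx) (by simp)

lemma exp_mem (hI : IsNilp N I) (hN : 2 ≤ N) {x : E} (hx : x ∈ I) : expU ℚ x - 1 ∈ I := by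
  have := exp_lead (K := I) hI hN hI.mul_mem hx
  have h2 := Submodule.add_mem _ this hx
  rwa [sub_add_cancel] at h2

/-- `x_{ij} = 1 + t_{ij} + (terms of order ≥ 2)` -/
lemma XT_lead {φ : List (Fin 2) → ℚ} (h1 : φ [] = 1) (hI : IsNilp N I) (hN : 2 ≤ N)
    (hK : ∀ x ∈ I, ∀ y ∈ I, x * y ∈ K) {x : Fin 4 → Fin 4 → Eˣ} {t : Fin 4 → Fin 4 → E}
    (h : XT φ x t) (ht : ∀ i j, t i j ∈ I) (hx : ∀ i j, i < j → (x i j : E) - 1 ∈ I) :
    ∀ i j, i < j → (x i j : E) - 1 - t i j ∈ K := by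
  have hs : ∀ i j k l, t i j + t k l ∈ I := fun i j k l => Submodule.add_mem _ (ht _ _) (ht _ _)
  have hN1 : 1 ≤ N := by omega
  have x01 := hx 0 1 (by decide)
  have x02 := hx 0 2 (by decide)
  have x03 := hx 0 3 (by decide)
  have x12 := hx 1 2 (by decide)
  have x13 := hx 1 3 (by decide)
  have x23 := hx 2 3 (by decide)
  have hv : ∀ {a b : E}, a ∈ I → b ∈ I → val φ a b - 1 ∈ I := fun ha hb =>
    pn_val_sub_one hI hN1 h1 ha hb
  have l01 : (x 0 1 : E) - 1 - t 0 1 ∈ K := by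
    have e1 := cj_lem hK x01 (hv (ht 0 1) (hs 1 2 1 3)) (exp_mem hI hN (ht 0 1)) h.e01
    have e2 := Submodule.add_mem _ e1 (exp_lead hI hN hK (ht 0 1))
    rwa [show (x 0 1 : E) - expU ℚ (t 0 1) + (expU ℚ (t 0 1) - 1 - t 0 1) = x 0 1 - 1 - t 0 1 by
      abel] at e2
  have l12 : (x 1 2 : E) - 1 - t 1 2 ∈ K := by
    have e1 := cj_lem hK x12 (hv (ht 1 2) (ht 2 3)) (exp_mem hI hN (ht 1 2)) h.e12
    have e2 := Submodule.add_mem _ e1 (exp_lead hI hN hK (ht 1 2))
    rwa [show (x 1 2 : E) - expU ℚ (t 1 2) + (expU ℚ (t 1 2) - 1 - t 1 2) = x 1 2 - 1 - t 1 2 by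
      abel] at e2
  have l23 : (x 2 3 : E) - 1 - t 2 3 ∈ K := by
    rw [h.e23]
    exact exp_lead hI hN hK (ht 2 3)
  have l13 : (x 1 3 : E) - 1 - t 1 3 ∈ K := by
    refine mul_lem hK x12 x13 (a := t 1 2) ?_ l12
    rw [h.e123]
    exact exp_lead hI hN hK (hs 1 2 1 3)
  have l02 : (x 0 2 : E) - 1 - t 0 2 ∈ K := by
    refine mul_lem' hK x02 x12 (b := t 1 2) ?_ l12
    have e1 := cj_lem hK (pr_mem hI x02 x12)
      (pr_mem hI (hv (ht 0 1) (hs 1 2 1 3)) (hv (hs 0 2 1 2) (ht 2 3)))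
      (exp_mem hI hN (hs 0 2 1 2)) h.e0212
    have e2 := Submodule.add_mem _ e1 (exp_lead hI hN hK (hs 0 2 1 2))
    rwa [show (x 0 2 : E) * x 1 2 - expU ℚ (t 0 2 + t 1 2) + (expU ℚ (t 0 2 + t 1 2) - 1 -
      (t 0 2 + t 1 2)) = x 0 2 * x 1 2 - 1 - (t 0 2 + t 1 2) by abel] at e2
  have l03 : (x 0 3 : E) - 1 - t 0 3 ∈ K := by
    refine mul_lem hK (pr_mem hI x01 x02) x03 (a := t 0 1 + t 0 2) ?_ ?_
    · rw [h.e0123]
      exact exp_lead hI hN hK (Submodule.add_mem _ (hs 0 1 0 2) (ht 0 3))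
    · have : (x 0 1 : E) * x 0 2 - 1 - (t 0 1 + t 0 2) = ((x 0 1 : E) - 1 - t 0 1) +
          ((x 0 2 : E) - 1 - t 0 2) + ((x 0 1 : E) - 1) * ((x 0 2 : E) - 1) := by noncomm_ring
      rw [this]
      exact Submodule.add_mem _ (Submodule.add_mem _ l01 l02) (hK _ x01 _ x02)
  intro i j hij
  have h6 : ∀ i j : Fin 4, i < j → (i = 0 ∧ j = 1) ∨ (i = 0 ∧ j = 2) ∨ (i = 0 ∧ j = 3) ∨
      (i = 1 ∧ j = 2) ∨ (i = 1 ∧ j = 3) ∨ (i = 2 ∧ j = 3) := by decide
  rcases h6 i j hij with ⟨rfl, rfl⟩ | ⟨rfl, rfl⟩ | ⟨rfl, rfl⟩ | ⟨rfl, rfl⟩ | ⟨rfl, rfl⟩ | ⟨rfl, rfl⟩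
  · exact l01
  · exact l02
  · exact l03
  · exact l12
  · exact l13
  · exact l23

end LT

end MP446U.PN
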